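import Pool.Agent.SAIL.ARI.Targets

/-!
SAIL / ARI: algebra of the adjugate (job SAILD-ADJ).
-/

set_option autoImplicit false

namespace SAIL.A

open Matrix SAIL

namespace adjx

theorem gcd_prim (v : Fin 3 → ℤ) (h : prim v) : Finset.univ.gcd v = 1 := by
  rw [← Finset.normalize_gcd, normalize_eq_one]
  exact h _ fun i => Finset.gcd_dvd (Finset.mem_univ i)

theorem dvd_of_prim (v : Fin 3 → ℤ) (h : prim v) (g t : ℤ) (hd : ∀ i, g ∣ t * v i) : g ∣ t := by
  have h1 : g ∣ Finset.univ.gcd fun i => t * v i := Finset.dvd_gcd fun i _ => hd i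
  rw [Finset.gcd_mul_left, gcd_prim v h, mul_one] at h1
  exact dvd_normalize_iff.1 h1

theorem cn_dvd (V : IM) (i j : Fin 3) : (cn V i : ℤ) ∣ V.adjugate i j := by
  rw [← Int.dvd_natAbs]
  exact Int.natCast_dvd_natCast.2 (Finset.gcd_dvd (Finset.mem_univ j))

theorem adj_eq (V : IM) (i j : Fin 3) : V.adjugate i j = cn V i * vst V i j :=
  (Int.mul_ediv_cancel' (cn_dvd V i j)).symm

theorem adj_mul (V : IM) (i j : Fin 3) :
    (cn V i : ℤ) * (vst V i ⬝ᵥ vcol V j) = if i = j then V.det else 0 := by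
  have h1 : (V.adjugate * V) i j = (V.det • (1 : IM)) i j := by rw [Matrix.adjugate_mul]
  rw [Matrix.mul_apply, Matrix.smul_apply, Matrix.one_apply] at h1
  have h2 : (cn V i : ℤ) * (vst V i ⬝ᵥ vcol V j) = ∑ r, V.adjugate i r * V r j := by
    rw [dotProduct, Finset.mul_sum]
    refine Finset.sum_congr rfl fun r _ => ?_
    rw [adj_eq V i r, mul_assoc]
    rfl
  rw [h2, h1]
  split_ifs <;> simp

theorem cn_pos (V : IM) (hV : 0 < V.det) (i : Fin 3) : 0 < cn V i := by
  rcases Nat.eq_zero_or_pos (cn V i) with h | h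
  · exfalso
    have h1 := adj_mul V i i
    rw [h, if_pos rfl] at h1
    simp only [Nat.cast_zero, zero_mul] at h1
    omega
  · exact h

theorem cross_col (V : IM) (k : Fin 3) :
    crossProduct (vcol V (k + 1)) (vcol V (k + 2)) = V.adjugate k := by
  funext r
  rw [cross_apply, Matrix.adjugate_fin_three]
  fin_cases k <;> fin_cases r <;> simp [vcol] <;> ring

theorem cross_row (V : IM) (k : Fin 3) :
    crossProduct (V.adjugate (k + 1)) (V.adjugate (k + 2)) = V.det • vcol V k := by
  funext r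
  rw [cross_apply, Matrix.adjugate_fin_three, Matrix.det_fin_three]
  fin_cases k <;> fin_cases r <;> simp [vcol] <;> ring

end adjx

theorem p_ADJ : tADJ := by
  intro V hV hp
  have h8 : ∀ k, ((cn V (k + 1) : ℤ) * cn V (k + 2)) • crossProduct (vst V (k + 1)) (vst V (k + 2)) =
      V.det • vcol V k := by
    intro k
    rw [← adjx.cross_row]
    have h1 : ∀ i, V.adjugate i = (cn V i : ℤ) • vst V i := by
      intro i
      funext j
      rw [adjx.adj_eq]
      rfl
    rw [h1, h1, LinearMap.map_smul₂, LinearMap.map_smul, smul_smul]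
  refine ⟨adjx.cn_pos V hV, ?_, adjx.adj_eq V, ?_, ?_, ?_, ?_, h8⟩
  · intro i d hd
    have h1 : d.natAbs * cn V i ∣ cn V i := by
      conv_rhs => rw [cn]
      refine Finset.dvd_gcd fun j _ => ?_
      have h2 : d * cn V i ∣ V.adjugate i j := by
        rw [adjx.adj_eq, mul_comm d]
        exact mul_dvd_mul_left _ (hd j)
      have h3 := Int.natAbs_dvd_natAbs.2 h2
      rwa [Int.natAbs_mul, Int.natAbs_natCast] at h3
    have h4 : d.natAbs ∣ 1 := by
      have h5 : d.natAbs * cn V i ∣ 1 * cn V i := by rwa [one_mul]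
      exact Nat.dvd_of_mul_dvd_mul_right (adjx.cn_pos V hV i) h5
    exact Int.isUnit_iff_natAbs_eq.2 (Nat.dvd_one.1 h4)
  · intro i
    rw [adjx.adj_mul, if_pos rfl]
  · intro i j hij
    have h1 := adjx.adj_mul V i j
    rw [if_neg hij] at h1
    rcases mul_eq_zero.1 h1 with h2 | h2
    · have := adjx.cn_pos V hV i
      omega
    · exact h2
  · intro k
    refine adjx.dvd_of_prim (vcol V k) (hp k) _ _ fun i => ?_
    have h1 := congrFun (h8 k) i
    simp only [Pi.smul_apply, smul_eq_mul] at h1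
    exact ⟨_, h1.symm⟩
  · intro k
    rw [adjx.cross_col]
    funext j
    rw [adjx.adj_eq]
    rfl

end SAIL.A
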