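import Pool.Agent.SAIL.ARI.Targets

/-!
# SAIL, part D: matrices preserving a flag in a box
-/

namespace SAIL.A

open Matrix MeasureTheory Filter SAIL

namespace b1x

lemma le_sn (v : Fin 3 → ℤ) (i : Fin 3) : |(v i : ℝ)| ≤ sn v :=
  norm_le_pi_norm (fun i => (v i : ℝ)) i

lemma exists_sn (v : Fin 3 → ℤ) : ∃ r, |(v r : ℝ)| = sn v := by
  obtain ⟨r, hr⟩ := Finite.exists_max (fun i => |(v i : ℝ)|)
  refine ⟨r, le_antisymm (le_sn v r) ?_⟩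
  unfold sn
  rw [pi_norm_le_iff_of_nonneg (abs_nonneg _)]
  intro i
  exact hr i

lemma sn_nonneg (v : Fin 3 → ℤ) : 0 ≤ sn v := norm_nonneg _

lemma one_le_sn {v : Fin 3 → ℤ} (hv : prim v) : 1 ≤ sn v := by
  by_contra h
  push Not at h
  have h0 : ∀ i, v i = 0 := by
    intro i
    have h1 : |(v i : ℝ)| < 1 := lt_of_le_of_lt (le_sn v i) h
    have h2 : |v i| < 1 := by exact_mod_cast h1
    exact Int.abs_lt_one_iff.1 h2
  have h3 := hv 0 (fun i => by rw [h0 i])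
  exact not_isUnit_zero h3

lemma cnt (t : ℝ) (ht : 0 ≤ t) (n : ℤ) :
    ((Finset.Icc (n - ⌊t⌋) (n + ⌊t⌋)).card : ℝ) ≤ 1 + 2 * t := by
  rw [Int.card_Icc]
  have h0 : 0 ≤ ⌊t⌋ := Int.floor_nonneg.2 ht
  have h1 : n + ⌊t⌋ + 1 - (n - ⌊t⌋) = 2 * ⌊t⌋ + 1 := by ring
  rw [h1]
  have h2 : (((2 * ⌊t⌋ + 1).toNat : ℤ)) = 2 * ⌊t⌋ + 1 := Int.toNat_of_nonneg (by positivity)
  have h3 : (((2 * ⌊t⌋ + 1).toNat : ℝ)) = 2 * (⌊t⌋ : ℝ) + 1 := by exact_mod_cast h2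
  rw [h3]
  have := Int.floor_le t
  linarith

lemma mem_cnt {t : ℝ} {n k : ℤ} (h : |((k - n : ℤ) : ℝ)| ≤ t) :
    k ∈ Finset.Icc (n - ⌊t⌋) (n + ⌊t⌋) := by
  have h1 : |k - n| ≤ ⌊t⌋ := by
    rw [Int.le_floor]
    push_cast at h ⊢
    exact h
  rw [abs_le] at h1
  rw [Finset.mem_Icc]
  constructor <;> linarith [h1.1, h1.2]

lemma fib {α β : Type*} [DecidableEq β] (S : Finset α) (f : α → β) (T : Finset β) (K : ℝ)
    (h1 : ∀ a ∈ S, f a ∈ T) (h2 : ∀ b ∈ T, ((S.filter fun a => f a = b).card : ℝ) ≤ K) :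
    (S.card : ℝ) ≤ K * T.card := by
  rw [Finset.card_eq_sum_card_fiberwise (f := f) (t := T) h1]
  push_cast
  calc ∑ b ∈ T, ((S.filter fun a => f a = b).card : ℝ) ≤ ∑ _b ∈ T, K := Finset.sum_le_sum h2
    _ = K * T.card := by rw [Finset.sum_const, nsmul_eq_mul, mul_comm]

/-- conjugate by the base change -/
def U (γ : GZ) (A : IM) : IM := (γ⁻¹).1 * A * γ.1

section
variable {γ : GZ} {p q : Fin 3 → ℤ}

lemma gi_g (γ : GZ) : (γ⁻¹).1 * γ.1 = 1 := by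
  exact congrArg Subtype.val (inv_mul_cancel γ)

lemma g_gi (γ : GZ) : γ.1 * (γ⁻¹).1 = 1 := by
  exact congrArg Subtype.val (mul_inv_cancel γ)

lemma col0 (h1 : γ.1 *ᵥ ![1, 0, 0] = p) (i : Fin 3) : p i = γ.1 i 0 := by
  rw [← h1]
  simp [Matrix.mulVec, dotProduct, Fin.sum_univ_three]

lemma row2 (h2 : q ᵥ* γ.1 = ![0, 0, 1]) (j : Fin 3) : q j = (γ⁻¹).1 2 j := by
  have h3 : q = ![0, 0, 1] ᵥ* (γ⁻¹).1 := by
    rw [← h2, Matrix.vecMul_vecMul, g_gi, Matrix.vecMul_one]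
  rw [h3]
  simp [Matrix.vecMul, dotProduct, Fin.sum_univ_three]

lemma U_eq {A M : IM} (h : A * γ.1 = γ.1 * M) : U γ A = M := by
  unfold U
  rw [Matrix.mul_assoc, h, ← Matrix.mul_assoc, gi_g, Matrix.one_mul]

lemma A_eq {A : IM} : A = γ.1 * U γ A * (γ⁻¹).1 := by
  unfold U
  calc A = (γ.1 * (γ⁻¹).1) * A * (γ.1 * (γ⁻¹).1) := by rw [g_gi]; simp
    _ = _ := by simp only [Matrix.mul_assoc]

/-- upper triangular -/
def UT (M : IM) : Prop := M 1 0 = 0 ∧ M 2 0 = 0 ∧ M 2 1 = 0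

lemma UT_of {A : IM} (h : ∃ a x z e y b : ℤ, A * γ.1 = γ.1 * !![a, x, z; 0, e, y; 0, 0, b]) :
    UT (U γ A) := by
  obtain ⟨a, x, z, e, y, b, h⟩ := h
  rw [U_eq h]
  refine ⟨rfl, rfl, rfl⟩

lemma entry (h1 : γ.1 *ᵥ ![1, 0, 0] = p) (h2 : q ᵥ* γ.1 = ![0, 0, 1]) {A : IM}
    (hU : UT (U γ A)) (i j : Fin 3) :
    A i j = p i * (∑ l, U γ A 0 l * (γ⁻¹).1 l j) +
      γ.1 i 1 * (U γ A 1 1 * (γ⁻¹).1 1 j + U γ A 1 2 * q j) + γ.1 i 2 * (U γ A 2 2 * q j) := by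
  obtain ⟨u1, u2, u3⟩ := hU
  conv_lhs => rw [A_eq (γ := γ) (A := A)]
  rw [col0 h1, row2 h2]
  simp only [Matrix.mul_apply, Fin.sum_univ_three, u1, u2, u3]
  ring

lemma trace_eq {A : IM} : A.trace = U γ A 0 0 + U γ A 1 1 + U γ A 2 2 := by
  have h : A.trace = (U γ A).trace := by
    unfold U
    rw [Matrix.mul_assoc, Matrix.trace_mul_comm, Matrix.mul_assoc, g_gi, Matrix.mul_one]
  rw [h, Matrix.trace, Fin.sum_univ_three]
  rfl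

lemma right_eig (h1 : γ.1 *ᵥ ![1, 0, 0] = p) {A : IM} (hU : UT (U γ A)) (i : Fin 3) :
    ∑ j, A i j * p j = U γ A 0 0 * p i := by
  obtain ⟨u1, u2, u3⟩ := hU
  have h3 : A *ᵥ p = U γ A 0 0 • p := by
    have h4 : A * γ.1 = γ.1 * U γ A := by
      unfold U
      rw [← Matrix.mul_assoc, ← Matrix.mul_assoc, g_gi, Matrix.one_mul]
    rw [← h1, Matrix.mulVec_mulVec, h4, ← Matrix.mulVec_mulVec, ← Matrix.mulVec_smul]
    congr 1
    ext k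
    fin_cases k <;> simp [Matrix.mulVec, dotProduct, Fin.sum_univ_three, u1, u2]
  have := congrFun h3 i
  simpa [Matrix.mulVec, dotProduct] using this

lemma left_eig (h2 : q ᵥ* γ.1 = ![0, 0, 1]) {A : IM} (hU : UT (U γ A)) (j : Fin 3) :
    ∑ i, q i * A i j = U γ A 2 2 * q j := by
  obtain ⟨u1, u2, u3⟩ := hU
  have h3 : q ᵥ* A = U γ A 2 2 • q := by
    have h5 : q = ![0, 0, 1] ᵥ* (γ⁻¹).1 := by
      rw [← h2, Matrix.vecMul_vecMul, g_gi, Matrix.vecMul_one]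
    have h4 : (γ⁻¹).1 * A = U γ A * (γ⁻¹).1 := by
      unfold U
      rw [Matrix.mul_assoc, Matrix.mul_assoc, g_gi, Matrix.mul_one]
    conv_lhs => rw [h5, Matrix.vecMul_vecMul, h4, ← Matrix.vecMul_vecMul]
    conv_rhs => rw [h5, ← Matrix.smul_vecMul]
    congr 1
    ext k
    fin_cases k <;> simp [Matrix.vecMul, dotProduct, Fin.sum_univ_three, u2, u3]
  have := congrFun h3 j
  simpa [Matrix.vecMul, dotProduct] using this

lemma cross (h1 : γ.1 *ᵥ ![1, 0, 0] = p) (h2 : q ᵥ* γ.1 = ![0, 0, 1]) (r : Fin 3) :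
    p (r + 1) * γ.1 (r + 2) 1 - p (r + 2) * γ.1 (r + 1) 1 = q r := by
  rw [row2 h2, col0 h1, col0 h1, Matrix.SpecialLinearGroup.coe_inv, Matrix.adjugate_fin_three]
  fin_cases r <;> simp <;> ring

/-- the last two keys are bounded -/
lemma key_b (h2 : q ᵥ* γ.1 = ![0, 0, 1]) (hq : prim q) {A A' : IM} {ρ : ℝ}
    (hU : UT (U γ A)) (hU' : UT (U γ A')) (hD : ∀ i j, |((A i j - A' i j : ℤ) : ℝ)| ≤ 2 * ρ) :
    |((U γ A 2 2 - U γ A' 2 2 : ℤ) : ℝ)| ≤ 6 * ρ := by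
  obtain ⟨r, hr⟩ := exists_sn q
  have hpos : 0 < sn q := lt_of_lt_of_le one_pos (one_le_sn hq)
  have e1 := left_eig h2 hU r
  have e2 := left_eig h2 hU' r
  have e3 : ∑ i, q i * (A i r - A' i r) = (U γ A 2 2 - U γ A' 2 2) * q r := by
    simp only [mul_sub, Finset.sum_sub_distrib, sub_mul]
    rw [e1, e2]
  have e4 : ((U γ A 2 2 - U γ A' 2 2 : ℤ) : ℝ) * (q r : ℝ) =
      ∑ i, (q i : ℝ) * ((A i r - A' i r : ℤ) : ℝ) := by exact_mod_cast e3.symm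
  have e5 : |((U γ A 2 2 - U γ A' 2 2 : ℤ) : ℝ)| * sn q ≤ 6 * ρ * sn q := by
    rw [← hr, ← abs_mul, e4]
    calc |∑ i, (q i : ℝ) * ((A i r - A' i r : ℤ) : ℝ)|
        ≤ ∑ i, |(q i : ℝ) * ((A i r - A' i r : ℤ) : ℝ)| := Finset.abs_sum_le_sum_abs _ _
      _ ≤ ∑ _i : Fin 3, sn q * (2 * ρ) := by
          refine Finset.sum_le_sum fun i _ => ?_
          rw [abs_mul]
          exact mul_le_mul (le_sn q i) (hD i r) (abs_nonneg _) (sn_nonneg q)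
      _ = 6 * ρ * |(q r : ℝ)| := by rw [hr]; simp; ring
  exact le_of_mul_le_mul_right e5 hpos

lemma key_a (h1 : γ.1 *ᵥ ![1, 0, 0] = p) (hp : prim p) {A A' : IM} {ρ : ℝ}
    (hU : UT (U γ A)) (hU' : UT (U γ A')) (hD : ∀ i j, |((A i j - A' i j : ℤ) : ℝ)| ≤ 2 * ρ) :
    |((U γ A 0 0 - U γ A' 0 0 : ℤ) : ℝ)| ≤ 6 * ρ := by
  obtain ⟨r, hr⟩ := exists_sn p
  have hpos : 0 < sn p := lt_of_lt_of_le one_pos (one_le_sn hp)
  have e1 := right_eig h1 hU r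
  have e2 := right_eig h1 hU' r
  have e3 : ∑ j, (A r j - A' r j) * p j = (U γ A 0 0 - U γ A' 0 0) * p r := by
    simp only [Finset.sum_sub_distrib, sub_mul]
    rw [e1, e2]
  have e4 : ((U γ A 0 0 - U γ A' 0 0 : ℤ) : ℝ) * (p r : ℝ) =
      ∑ j, ((A r j - A' r j : ℤ) : ℝ) * (p j : ℝ) := by exact_mod_cast e3.symm
  have e5 : |((U γ A 0 0 - U γ A' 0 0 : ℤ) : ℝ)| * sn p ≤ 6 * ρ * sn p := by
    rw [← hr, ← abs_mul, e4]
    calc |∑ j, ((A r j - A' r j : ℤ) : ℝ) * (p j : ℝ)|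
        ≤ ∑ j, |((A r j - A' r j : ℤ) : ℝ) * (p j : ℝ)| := Finset.abs_sum_le_sum_abs _ _
      _ ≤ ∑ _i : Fin 3, (2 * ρ) * sn p := by
          refine Finset.sum_le_sum fun i _ => ?_
          rw [abs_mul]
          exact mul_le_mul (hD r i) (le_sn p i) (abs_nonneg _)
            (le_trans (abs_nonneg _) (hD r i))
      _ = 6 * ρ * |(p r : ℝ)| := by rw [hr]; simp; ring
  exact le_of_mul_le_mul_right e5 hpos

lemma key_e (h1 : γ.1 *ᵥ ![1, 0, 0] = p) (h2 : q ᵥ* γ.1 = ![0, 0, 1]) (hp : prim p) (hq : prim q)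
    {A A' : IM} {ρ : ℝ}
    (hU : UT (U γ A)) (hU' : UT (U γ A')) (hD : ∀ i j, |((A i j - A' i j : ℤ) : ℝ)| ≤ 2 * ρ) :
    |((U γ A 1 1 - U γ A' 1 1 : ℤ) : ℝ)| ≤ 18 * ρ := by
  have ha := key_a h1 hp hU hU' hD
  have hb := key_b h2 hq hU hU' hD
  have t1 := trace_eq (γ := γ) (A := A)
  have t2 := trace_eq (γ := γ) (A := A')
  have t3 : U γ A 1 1 - U γ A' 1 1 = (A 0 0 - A' 0 0) + (A 1 1 - A' 1 1) + (A 2 2 - A' 2 2)
      - (U γ A 0 0 - U γ A' 0 0) - (U γ A 2 2 - U γ A' 2 2) := by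
    rw [Matrix.trace, Fin.sum_univ_three] at t1 t2
    simp only [Matrix.diag_apply] at t1 t2
    linarith
  have t4 : ((U γ A 1 1 - U γ A' 1 1 : ℤ) : ℝ) = ((A 0 0 - A' 0 0 : ℤ) : ℝ) +
      ((A 1 1 - A' 1 1 : ℤ) : ℝ) + ((A 2 2 - A' 2 2 : ℤ) : ℝ)
      - ((U γ A 0 0 - U γ A' 0 0 : ℤ) : ℝ) - ((U γ A 2 2 - U γ A' 2 2 : ℤ) : ℝ) := by
    exact_mod_cast t3
  rw [t4]
  have d0 := abs_le.1 (hD 0 0)
  have d1 := abs_le.1 (hD 1 1)
  have d2 := abs_le.1 (hD 2 2)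
  rw [abs_le] at ha hb ⊢
  constructor <;> linarith [d0.1, d0.2, d1.1, d1.2, d2.1, d2.2, ha.1, ha.2, hb.1, hb.2]

lemma key_y (h1 : γ.1 *ᵥ ![1, 0, 0] = p) (h2 : q ᵥ* γ.1 = ![0, 0, 1]) (hq : prim q)
    {A A' : IM} {ρ : ℝ}
    (hU : UT (U γ A)) (hU' : UT (U γ A')) (hD : ∀ i j, |((A i j - A' i j : ℤ) : ℝ)| ≤ 2 * ρ)
    (hb : U γ A 2 2 = U γ A' 2 2) (he : U γ A 1 1 = U γ A' 1 1) :
    |((U γ A 1 2 - U γ A' 1 2 : ℤ) : ℝ)| ≤ 4 * ρ * sn p / sn q ^ 2 := by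
  obtain ⟨r, hr⟩ := exists_sn q
  have hpos : 0 < sn q := lt_of_lt_of_le one_pos (one_le_sn hq)
  rw [le_div_iff₀ (pow_pos hpos 2)]
  have e1 := fun i => entry h1 h2 hU i r
  have e2 := fun i => entry h1 h2 hU' i r
  have e3 : p (r + 1) * (A (r + 2) r - A' (r + 2) r) - p (r + 2) * (A (r + 1) r - A' (r + 1) r) =
      (U γ A 1 2 - U γ A' 1 2) * (q r * q r) := by
    rw [e1 (r + 2), e1 (r + 1), e2 (r + 2), e2 (r + 1), hb, he]
    have h3 := cross h1 h2 r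
    linear_combination (U γ A 1 2 - U γ A' 1 2) * q r * h3
  have e4 : ((U γ A 1 2 - U γ A' 1 2 : ℤ) : ℝ) * ((q r : ℝ) * (q r : ℝ)) =
      (p (r + 1) : ℝ) * ((A (r + 2) r - A' (r + 2) r : ℤ) : ℝ) -
      (p (r + 2) : ℝ) * ((A (r + 1) r - A' (r + 1) r : ℤ) : ℝ) := by exact_mod_cast e3.symm
  have e5 : |((U γ A 1 2 - U γ A' 1 2 : ℤ) : ℝ)| * sn q ^ 2 =
      |((U γ A 1 2 - U γ A' 1 2 : ℤ) : ℝ) * ((q r : ℝ) * (q r : ℝ))| := by
    rw [abs_mul, abs_mul, hr]; ring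
  rw [e5, e4]
  have f1 : |(p (r + 1) : ℝ) * ((A (r + 2) r - A' (r + 2) r : ℤ) : ℝ)| ≤ sn p * (2 * ρ) := by
    rw [abs_mul]
    exact mul_le_mul (le_sn p _) (hD _ _) (abs_nonneg _) (sn_nonneg p)
  have f2 : |(p (r + 2) : ℝ) * ((A (r + 1) r - A' (r + 1) r : ℤ) : ℝ)| ≤ sn p * (2 * ρ) := by
    rw [abs_mul]
    exact mul_le_mul (le_sn p _) (hD _ _) (abs_nonneg _) (sn_nonneg p)
  rw [abs_le] at f1 f2 ⊢
  constructor <;> linarith [f1.1, f1.2, f2.1, f2.2]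

/-- the remaining parameter -/
def ze (γ : GZ) (A A' : IM) (j : Fin 3) : ℤ := ∑ l, (U γ A 0 l - U γ A' 0 l) * (γ⁻¹).1 l j

lemma diff_eq (h1 : γ.1 *ᵥ ![1, 0, 0] = p) (h2 : q ᵥ* γ.1 = ![0, 0, 1])
    {A A' : IM} (hU : UT (U γ A)) (hU' : UT (U γ A'))
    (hb : U γ A 2 2 = U γ A' 2 2) (he : U γ A 1 1 = U γ A' 1 1)
    (hy : U γ A 1 2 = U γ A' 1 2) (i j : Fin 3) : A i j - A' i j = p i * ze γ A A' j := by
  rw [entry h1 h2 hU, entry h1 h2 hU', hb, he, hy]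
  unfold ze
  simp only [sub_mul, Finset.sum_sub_distrib, mul_sub]
  ring

lemma key_z (h1 : γ.1 *ᵥ ![1, 0, 0] = p) (h2 : q ᵥ* γ.1 = ![0, 0, 1]) (hp : prim p)
    {A A' : IM} {ρ : ℝ}
    (hU : UT (U γ A)) (hU' : UT (U γ A')) (hD : ∀ i j, |((A i j - A' i j : ℤ) : ℝ)| ≤ 2 * ρ)
    (hb : U γ A 2 2 = U γ A' 2 2) (he : U γ A 1 1 = U γ A' 1 1)
    (hy : U γ A 1 2 = U γ A' 1 2) (j : Fin 3) :
    |((ze γ A A' j - 0 : ℤ) : ℝ)| ≤ 2 * ρ / sn p := by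
  obtain ⟨r, hr⟩ := exists_sn p
  have hpos : 0 < sn p := lt_of_lt_of_le one_pos (one_le_sn hp)
  rw [le_div_iff₀ hpos, sub_zero]
  have e1 := diff_eq h1 h2 hU hU' hb he hy r j
  have e2 := hD r j
  rw [e1] at e2
  push_cast at e2
  rw [abs_mul, hr] at e2
  linarith

end

end b1x

open Classical b1x in
theorem p_B1 (hBAS : tBAS) : tB1 := by
  refine ⟨481 * 512, by norm_num, ?_⟩
  intro p q hF ρ hρ B S hS
  obtain ⟨hp, hq, -⟩ := id hF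
  obtain ⟨γ, h1, h2, hγ⟩ := hBAS p q hF
  have hpp : 1 ≤ sn p := one_le_sn hp
  have hqq : 1 ≤ sn q := one_le_sn hq
  have hU : ∀ A ∈ S, UT (U γ A) := fun A hA => UT_of ((hγ A).1 (hS A hA).1)
  have hD : ∀ A ∈ S, ∀ A' ∈ S, ∀ i j, |((A i j - A' i j : ℤ) : ℝ)| ≤ 2 * ρ := by
    intro A hA A' hA' i j
    have d1 := abs_le.1 ((hS A hA).2 i j)
    have d2 := abs_le.1 ((hS A' hA').2 i j)
    push_cast
    rw [abs_le]
    constructor <;> linarith [d1.1, d1.2, d2.1, d2.2]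
  have ht3 : 0 ≤ 2 * ρ / sn p := by positivity
  have ht2 : 0 ≤ 4 * ρ * sn p / sn q ^ 2 := by positivity
  -- level 3
  have L3 : ∀ b e y : ℤ, ((S.filter fun A => U γ A 2 2 = b ∧ U γ A 1 1 = e ∧ U γ A 1 2 = y).card : ℝ)
      ≤ (1 + 2 * (2 * ρ / sn p)) ^ 3 := by
    intro b e y
    set S3 := S.filter fun A => U γ A 2 2 = b ∧ U γ A 1 1 = e ∧ U γ A 1 2 = y with hS3
    rcases S3.eq_empty_or_nonempty with h0 | ⟨A0, hA0⟩
    · rw [h0]; simp only [Finset.card_empty, Nat.cast_zero]; positivity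
    have hA0' := Finset.mem_filter.1 hA0
    set I := Finset.Icc ((0 : ℤ) - ⌊2 * ρ / sn p⌋) (0 + ⌊2 * ρ / sn p⌋) with hI
    have hc : S3.card ≤ (Fintype.piFinset fun _ : Fin 3 => I).card := by
      refine Finset.card_le_card_of_injOn (fun A => ze γ A A0) ?_ ?_
      · intro A hA
        have hA' := Finset.mem_filter.1 (Finset.mem_coe.1 hA)
        rw [Finset.mem_coe, Fintype.mem_piFinset]
        intro j
        refine mem_cnt ?_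
        exact key_z h1 h2 hp (hU A hA'.1) (hU A0 hA0'.1) (hD A hA'.1 A0 hA0'.1)
          (hA'.2.1.trans hA0'.2.1.symm) (hA'.2.2.1.trans hA0'.2.2.1.symm)
          (hA'.2.2.2.trans hA0'.2.2.2.symm) j
      · intro A hA A' hA' hEq
        have hA1 := Finset.mem_filter.1 (Finset.mem_coe.1 hA)
        have hA2 := Finset.mem_filter.1 (Finset.mem_coe.1 hA')
        ext i j
        have d1 := diff_eq h1 h2 (hU A hA1.1) (hU A0 hA0'.1)
          (hA1.2.1.trans hA0'.2.1.symm) (hA1.2.2.1.trans hA0'.2.2.1.symm)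
          (hA1.2.2.2.trans hA0'.2.2.2.symm) i j
        have d2 := diff_eq h1 h2 (hU A' hA2.1) (hU A0 hA0'.1)
          (hA2.2.1.trans hA0'.2.1.symm) (hA2.2.2.1.trans hA0'.2.2.1.symm)
          (hA2.2.2.2.trans hA0'.2.2.2.symm) i j
        have d3 : ze γ A A0 j = ze γ A' A0 j := congrFun hEq j
        rw [d3] at d1
        linarith
    rw [Fintype.card_piFinset_const] at hc
    calc (S3.card : ℝ) ≤ ((I.card ^ 3 : ℕ) : ℝ) := by exact_mod_cast hc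
      _ = (I.card : ℝ) ^ 3 := by push_cast; ring
      _ ≤ _ := pow_le_pow_left₀ (by positivity) (cnt _ ht3 0) 3
  -- level 2
  have L2 : ∀ b e : ℤ, ((S.filter fun A => U γ A 2 2 = b ∧ U γ A 1 1 = e).card : ℝ)
      ≤ (1 + 2 * (2 * ρ / sn p)) ^ 3 * (1 + 2 * (4 * ρ * sn p / sn q ^ 2)) := by
    intro b e
    set S2 := S.filter fun A => U γ A 2 2 = b ∧ U γ A 1 1 = e with hS2
    rcases S2.eq_empty_or_nonempty with h0 | ⟨A0, hA0⟩
    · rw [h0]; simp only [Finset.card_empty, Nat.cast_zero]; positivity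
    have hA0' := Finset.mem_filter.1 hA0
    set t := 4 * ρ * sn p / sn q ^ 2 with htdef
    have := fib S2 (fun A => U γ A 1 2)
      (Finset.Icc (U γ A0 1 2 - ⌊t⌋) (U γ A0 1 2 + ⌊t⌋)) ((1 + 2 * (2 * ρ / sn p)) ^ 3) ?_ ?_
    · refine this.trans ?_
      refine mul_le_mul_of_nonneg_left (cnt t ht2 _) (by positivity)
    · intro A hA
      have hA' := Finset.mem_filter.1 hA
      refine mem_cnt ?_
      exact key_y h1 h2 hq (hU A hA'.1) (hU A0 hA0'.1) (hD A hA'.1 A0 hA0'.1)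
        (hA'.2.1.trans hA0'.2.1.symm) (hA'.2.2.trans hA0'.2.2.symm)
    · intro y _
      refine le_trans ?_ (L3 b e y)
      have hsub : (S2.filter fun A => U γ A 1 2 = y) ⊆
          S.filter fun A => U γ A 2 2 = b ∧ U γ A 1 1 = e ∧ U γ A 1 2 = y := by
        intro A hA
        rw [hS2] at hA
        simp only [Finset.mem_filter] at hA ⊢
        exact ⟨hA.1.1, hA.1.2.1, hA.1.2.2, hA.2⟩
      exact_mod_cast Finset.card_le_card hsub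
  -- level 1
  rcases S.eq_empty_or_nonempty with h0 | ⟨A0, hA0⟩
  · rw [h0]; simp only [Finset.card_empty, Nat.cast_zero]; positivity
  have L1 := fib S (fun A => (U γ A 2 2, U γ A 1 1))
    ((Finset.Icc (U γ A0 2 2 - ⌊6 * ρ⌋) (U γ A0 2 2 + ⌊6 * ρ⌋)) ×ˢ
      (Finset.Icc (U γ A0 1 1 - ⌊18 * ρ⌋) (U γ A0 1 1 + ⌊18 * ρ⌋)))
    ((1 + 2 * (2 * ρ / sn p)) ^ 3 * (1 + 2 * (4 * ρ * sn p / sn q ^ 2))) ?_ ?_
  · refine L1.trans ?_
    rw [Finset.card_product]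
    push_cast
    have c1 := cnt (6 * ρ) (by positivity) (U γ A0 2 2)
    have c2 := cnt (18 * ρ) (by positivity) (U γ A0 1 1)
    have c3 : (1 + 2 * (6 * ρ)) * (1 + 2 * (18 * ρ)) ≤ 481 * ρ ^ 2 := by nlinarith
    have c4 : ((Finset.Icc (U γ A0 2 2 - ⌊6 * ρ⌋) (U γ A0 2 2 + ⌊6 * ρ⌋)).card : ℝ) *
        ((Finset.Icc (U γ A0 1 1 - ⌊18 * ρ⌋) (U γ A0 1 1 + ⌊18 * ρ⌋)).card : ℝ) ≤ 481 * ρ ^ 2 :=
      (mul_le_mul c1 c2 (by positivity) (by positivity)).trans c3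
    have c5 : (1 + 2 * (2 * ρ / sn p)) ^ 3 ≤ 64 * (1 + ρ / sn p) ^ 3 := by
      have h5 : 0 ≤ ρ / sn p := by positivity
      have h6 : 1 + 2 * (2 * ρ / sn p) ≤ 4 * (1 + ρ / sn p) := by
        have : 2 * ρ / sn p = 2 * (ρ / sn p) := by ring
        rw [this]; linarith
      calc (1 + 2 * (2 * ρ / sn p)) ^ 3 ≤ (4 * (1 + ρ / sn p)) ^ 3 :=
            pow_le_pow_left₀ (by positivity) h6 3
        _ = _ := by ring
    have c6 : 1 + 2 * (4 * ρ * sn p / sn q ^ 2) ≤ 8 * (1 + ρ * sn p / sn q ^ 2) := by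
      have h5 : 0 ≤ ρ * sn p / sn q ^ 2 := by positivity
      have : 4 * ρ * sn p / sn q ^ 2 = 4 * (ρ * sn p / sn q ^ 2) := by ring
      rw [this]; linarith
    calc _ ≤ (64 * (1 + ρ / sn p) ^ 3) * (8 * (1 + ρ * sn p / sn q ^ 2)) * (481 * ρ ^ 2) :=
          mul_le_mul (mul_le_mul c5 c6 (by positivity) (by positivity)) c4 (by positivity)
            (by positivity)
      _ = _ := by ring
  · intro A hA
    rw [Finset.mem_product]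
    exact ⟨mem_cnt (key_b h2 hq (hU A hA) (hU A0 hA0) (hD A hA A0 hA0)),
      mem_cnt (key_e h1 h2 hp hq (hU A hA) (hU A0 hA0) (hD A hA A0 hA0))⟩
  · rintro ⟨b, e⟩ _
    refine le_trans ?_ (L2 b e)
    have hsub : (S.filter fun A => (U γ A 2 2, U γ A 1 1) = (b, e)) ⊆
        S.filter fun A => U γ A 2 2 = b ∧ U γ A 1 1 = e := by
      intro A hA
      simp only [Finset.mem_filter, Prod.mk.injEq] at hA ⊢
      exact hA
    exact_mod_cast Finset.card_le_card hsub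

end SAIL.A
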