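import Pool.Agent.SAIL.ARI.Targets

/-!
SAIL / ARI B10: lower bound for the sum over flags.
-/

namespace SAIL.A

open Matrix MeasureTheory Filter SAIL

namespace B10x

/-- The content of an integer vector. -/
def gc (v : Fin 3 → ℤ) : ℕ := Finset.univ.gcd fun i => (v i).natAbs

/-- The primitive part. -/
def pp (v : Fin 3 → ℤ) : Fin 3 → ℤ := fun i => v i / (gc v : ℤ)

lemma gc_dvd (v : Fin 3 → ℤ) (i : Fin 3) : (gc v : ℤ) ∣ v i :=
  Int.natCast_dvd.mpr (Finset.gcd_dvd (Finset.mem_univ i))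

lemma gc_pos {v : Fin 3 → ℤ} (hv : v ≠ 0) : 0 < gc v := by
  rw [Nat.pos_iff_ne_zero]
  intro h
  apply hv
  funext i
  have := (Finset.gcd_eq_zero_iff.mp h) i (Finset.mem_univ i)
  simpa using this

lemma eq_mul (v : Fin 3 → ℤ) (i : Fin 3) : v i = gc v * pp v i :=
  (Int.mul_ediv_cancel' (gc_dvd v i)).symm

lemma pp_prim {v : Fin 3 → ℤ} (hv : v ≠ 0) : prim (pp v) := by
  intro d hd
  have h1 : gc v * d.natAbs ∣ gc v := by
    refine Finset.dvd_gcd fun i _ => ?_
    have h2 : (gc v : ℤ) * d ∣ v i := by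
      rw [eq_mul v i]
      exact mul_dvd_mul_left _ (hd i)
    have h3 := Int.natAbs_dvd_natAbs.mpr h2
    rwa [Int.natAbs_mul, Int.natAbs_natCast] at h3
  have h2 := gc_pos hv
  have h3 : d.natAbs ∣ 1 := by
    have : gc v * d.natAbs ∣ gc v * 1 := by simpa using h1
    exact Nat.dvd_of_mul_dvd_mul_left h2 this
  rw [Int.isUnit_iff_natAbs_eq]
  exact Nat.dvd_one.mp h3

lemma sn_eq (v : Fin 3 → ℤ) : sn v = gc v * sn (pp v) := by
  have h : (fun i => (v i : ℝ) : Fin 3 → ℝ) = (gc v : ℝ) • (fun i => (pp v i : ℝ) : Fin 3 → ℝ) := by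
    funext i
    have := eq_mul v i
    simp only [Pi.smul_apply, smul_eq_mul]
    exact_mod_cast this
  unfold sn
  rw [h, norm_smul]
  simp

lemma sn_nonneg (v : Fin 3 → ℤ) : 0 ≤ sn v := norm_nonneg _

lemma abs_le_sn (v : Fin 3 → ℤ) (i : Fin 3) : |(v i : ℝ)| ≤ sn v := by
  unfold sn
  have := norm_le_pi_norm (fun i => (v i : ℝ) : Fin 3 → ℝ) i
  simpa using this

lemma one_le_sn {v : Fin 3 → ℤ} (hv : prim v) : 1 ≤ sn v := by
  by_contra hlt
  push Not at hlt
  have h0 : ∀ i, v i = 0 := by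
    intro i
    have h1 := (abs_le_sn v i).trans_lt hlt
    have h2 : |v i| < 1 := by exact_mod_cast h1
    exact Int.abs_lt_one_iff.mp h2
  have h2 := hv 2 (fun i => by rw [h0 i]; exact dvd_zero _)
  rw [Int.isUnit_iff] at h2
  omega

lemma sn_pp_le {v : Fin 3 → ℤ} (hv : v ≠ 0) : sn (pp v) ≤ sn v := by
  have h1 : (1 : ℝ) ≤ gc v := by exact_mod_cast gc_pos hv
  have h2 := sn_eq v
  have h3 := sn_nonneg (pp v)
  nlinarith

lemma dot_pp {p v : Fin 3 → ℤ} (hv : v ≠ 0) (h : p ⬝ᵥ v = 0) : p ⬝ᵥ pp v = 0 := by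
  have h1 : p ⬝ᵥ v = gc v * (p ⬝ᵥ pp v) := by
    simp only [dotProduct, Finset.mul_sum]
    refine Finset.sum_congr rfl fun i _ => ?_
    rw [mul_left_comm, ← eq_mul v i]
  have h2 : (gc v : ℤ) ≠ 0 := by exact_mod_cast (gc_pos hv).ne'
  rw [h] at h1
  exact (mul_eq_zero.mp h1.symm).resolve_left h2

lemma sum_sq (D : ℕ) : ∑ d ∈ Finset.Icc 1 D, 1 / (d : ℝ) ^ 2 ≤ 2 := by
  have : ∀ D : ℕ, 1 ≤ D → ∑ d ∈ Finset.Icc 1 D, 1 / (d : ℝ) ^ 2 ≤ 2 - 1 / (D : ℝ) := by
    intro D hD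
    induction D, hD using Nat.le_induction with
    | base => norm_num
    | succ n hn ih =>
      rw [Finset.sum_Icc_succ_top (by omega)]
      have hn' : (0 : ℝ) < n := by exact_mod_cast hn
      have h1 : 1 / ((n + 1 : ℕ) : ℝ) ^ 2 ≤ 1 / (n : ℝ) - 1 / ((n + 1 : ℕ) : ℝ) := by
        push_cast
        rw [div_sub_div _ _ (by positivity) (by positivity), div_le_div_iff₀ (by positivity)
          (by positivity)]
        nlinarith
      linarith
  rcases Nat.eq_zero_or_pos D with rfl | h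
  · simp
  · refine (this D h).trans ?_
    have : (0 : ℝ) ≤ 1 / (D : ℝ) := by positivity
    linarith

/-- decomposition into primitive parts -/
lemma decomp (k : ℕ) (hk : 2 ≤ k) (S : Finset (Fin 3 → ℤ)) (hS : ∀ v ∈ S, v ≠ 0) :
    ∑ v ∈ S, 1 / sn v ^ k ≤ 2 * ∑ w ∈ S.image pp, 1 / sn w ^ k := by
  classical
  set D := S.sup gc with hD
  have h1 : ∑ v ∈ S, 1 / sn v ^ k = ∑ x ∈ S.image (fun v => (pp v, gc v)),
      1 / sn x.1 ^ k * (1 / (x.2 : ℝ) ^ k) := by
    rw [Finset.sum_image]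
    · refine Finset.sum_congr rfl fun v _ => ?_
      rw [sn_eq v, mul_pow, one_div_mul_one_div, mul_comm]
    · intro v _ w _ h
      simp only [Prod.mk.injEq] at h
      funext i
      rw [eq_mul v i, eq_mul w i, h.1, h.2]
  have h2 : S.image (fun v => (pp v, gc v)) ⊆ S.image pp ×ˢ Finset.Icc 1 D := by
    intro x hx
    obtain ⟨v, hv, rfl⟩ := Finset.mem_image.mp hx
    rw [Finset.mem_product]
    exact ⟨Finset.mem_image_of_mem _ hv, Finset.mem_Icc.mpr ⟨gc_pos (hS v hv),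
      Finset.le_sup (f := gc) hv⟩⟩
  rw [h1]
  refine (Finset.sum_le_sum_of_subset_of_nonneg h2 fun x _ _ => ?_).trans ?_
  · have := sn_nonneg x.1
    positivity
  · rw [Finset.sum_product, Finset.mul_sum]
    refine Finset.sum_le_sum fun w _ => ?_
    simp only
    rw [← Finset.mul_sum, mul_comm]
    have h0 : 0 ≤ 1 / sn w ^ k := by
      have := sn_nonneg w
      positivity
    refine mul_le_mul_of_nonneg_right ?_ h0
    refine le_trans (Finset.sum_le_sum fun d hd => ?_) (sum_sq D)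
    have hd1 : (1 : ℝ) ≤ d := by exact_mod_cast (Finset.mem_Icc.mp hd).1
    exact one_div_le_one_div_of_le (by positivity) (pow_le_pow_right₀ hd1 hk)

/-- Many vectors: lower bound over `Z^3`. -/
lemma low (N : ℕ) : ∃ V : Finset (Fin 3 → ℤ), (∀ v ∈ V, v ≠ 0 ∧ sn v ≤ N) ∧
    Real.log (N + 1) ≤ ∑ v ∈ V, 1 / sn v ^ 3 := by
  classical
  let I : Finset (Σ _ : ℕ, ℕ × ℕ) :=
    (Finset.Icc 1 N).sigma fun n => Finset.range n ×ˢ Finset.range n
  let f : (Σ _ : ℕ, ℕ × ℕ) → Fin 3 → ℤ := fun x => ![(x.1 : ℤ), (x.2.1 : ℤ), (x.2.2 : ℤ)]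
  have hf : Function.Injective f := by
    rintro ⟨a, b, c⟩ ⟨a', b', c'⟩ h
    have h0 := congrFun h 0
    have h1 := congrFun h 1
    have h2 := congrFun h 2
    simp [f] at h0 h1 h2
    subst h0 h1 h2
    rfl
  have hsn : ∀ x ∈ I, sn (f x) = x.1 := by
    intro x hx
    obtain ⟨h1, h2⟩ := Finset.mem_sigma.mp hx
    obtain ⟨h3, h4⟩ := Finset.mem_product.mp h2
    rw [Finset.mem_range] at h3 h4
    apply le_antisymm
    · unfold sn
      rw [pi_norm_le_iff_of_nonneg (by positivity)]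
      intro i
      fin_cases i
      · simp [f]
      · simp [f]; exact h3.le
      · simp [f]; exact h4.le
    · have := abs_le_sn (f x) 0
      simpa [f] using this
  refine ⟨I.image f, ?_, ?_⟩
  · intro v hv
    obtain ⟨x, hx, rfl⟩ := Finset.mem_image.mp hv
    have h1 := hsn x hx
    obtain ⟨h2, h3⟩ := Finset.mem_Icc.mp (Finset.mem_sigma.mp hx).1
    constructor
    · intro h
      rw [h] at h1
      have h4 : sn 0 = 0 := by
        unfold sn
        simp
      rw [h4] at h1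
      have : (x.1 : ℝ) ≠ 0 := by
        have : x.1 ≠ 0 := by omega
        exact_mod_cast this
      exact this h1.symm
    · rw [h1]
      exact_mod_cast h3
  · rw [Finset.sum_image (fun x _ y _ h => hf h)]
    have h1 : ∑ x ∈ I, 1 / sn (f x) ^ 3 = ∑ n ∈ Finset.Icc 1 N, (n : ℝ)⁻¹ := by
      rw [Finset.sum_sigma]
      refine Finset.sum_congr rfl fun n hn => ?_
      have hn1 := (Finset.mem_Icc.mp hn).1
      have hn0 : (n : ℝ) ≠ 0 := by
        have : n ≠ 0 := by omega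
        exact_mod_cast this
      have h2 : ∀ y ∈ Finset.range n ×ˢ Finset.range n, 1 / sn (f ⟨n, y⟩) ^ 3 = 1 / (n : ℝ) ^ 3 := by
        intro y hy
        rw [hsn ⟨n, y⟩ (Finset.mem_sigma.mpr ⟨hn, hy⟩)]
      rw [Finset.sum_congr rfl h2, Finset.sum_const, Finset.card_product, Finset.card_range,
        nsmul_eq_mul]
      push_cast
      field_simp
    rw [h1]
    have h2 := log_add_one_le_harmonic N
    rw [harmonic_eq_sum_Icc] at h2
    push_cast at h2
    exact h2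

end B10x

open B10x in
theorem p_B10 (h5 : tS5) : tB10 := by
  classical
  obtain ⟨c, C, hc, hC, h5⟩ := h5
  set c' : ℝ := min 1 (c / (2 * C)) with hc'
  have hc'0 : 0 < c' := lt_min one_pos (by positivity)
  have hc'1 : c' ≤ 1 := min_le_left _ _
  have hc'2 : C * c' ≤ c / 2 := by
    have h1 : c' ≤ c / (2 * C) := min_le_right _ _
    calc C * c' ≤ C * (c / (2 * C)) := mul_le_mul_of_nonneg_left h1 hC.le
      _ = c / 2 := by field_simp
  refine ⟨c * c' / 8, max 1 (Real.exp (2 * C / c)), by positivity, fun X hX => ?_⟩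
  have hX1 : 1 ≤ X := (le_max_left _ _).trans hX
  have hX0 : 0 < X := by linarith
  have hX2 : 2 * C / c ≤ Real.log X := by
    rw [Real.le_log_iff_exp_le hX0]
    exact (le_max_right _ _).trans hX
  have hlog : 0 ≤ Real.log X := Real.log_nonneg hX1
  set Y : ℝ := X ^ c' with hY
  have hY0 : 0 < Y := Real.rpow_pos_of_pos hX0 _
  have hY1 : 1 ≤ Y := Real.one_le_rpow hX1 hc'0.le
  have hYX : Y ≤ X := by
    calc Y ≤ X ^ (1 : ℝ) := Real.rpow_le_rpow_of_exponent_le hX1 hc'1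
      _ = X := Real.rpow_one X
  have hlY : Real.log Y = c' * Real.log X := Real.log_rpow hX0 _
  set Z : ℝ := X ^ (3 / 2 : ℝ) with hZ
  have hZ1 : 1 ≤ Z := Real.one_le_rpow hX1 (by norm_num)
  have hZ2 : Z ^ 2 = X ^ 3 := by
    rw [hZ, ← Real.rpow_natCast, ← Real.rpow_mul hX0.le, ← Real.rpow_natCast]
    norm_num
  have hlZ : Real.log Z = 3 / 2 * Real.log X := Real.log_rpow hX0 _
  obtain ⟨V, hV1, hV2⟩ := low ⌊Y⌋₊
  have hV3 : ∀ v ∈ V, sn v ≤ Y := fun v hv => (hV1 v hv).2.trans (Nat.floor_le hY0.le)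
  have hV4 : Real.log Y ≤ ∑ v ∈ V, 1 / sn v ^ 3 := by
    refine le_trans (Real.log_le_log hY0 ?_) hV2
    exact (Nat.lt_floor_add_one Y).le
  set PP := V.image pp with hPP
  have hP1 : ∀ p ∈ PP, prim p ∧ sn p ≤ Y := by
    intro p hp
    obtain ⟨v, hv, rfl⟩ := Finset.mem_image.mp hp
    exact ⟨pp_prim (hV1 v hv).1, (sn_pp_le (hV1 v hv).1).trans (hV3 v hv)⟩
  have hP2 : Real.log Y / 2 ≤ ∑ p ∈ PP, 1 / sn p ^ 3 := by
    have := decomp 3 (by norm_num) V (fun v hv => (hV1 v hv).1)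
    linarith
  have hT : ∀ p : Fin 3 → ℤ, ∃ T : Finset (Fin 3 → ℤ), prim p → sn p ≤ Y →
      (∀ q ∈ T, prim q ∧ p ⬝ᵥ q = 0 ∧ sn q ≤ Z) ∧
        c / 4 * Real.log X / sn p ≤ ∑ q ∈ T, 1 / sn q ^ 2 := by
    intro p
    by_cases hp : prim p ∧ sn p ≤ Y
    · obtain ⟨hp1, hp2⟩ := hp
      obtain ⟨S, hS1, hS2⟩ := h5 p hp1 Z hZ1
      have hp0 := one_le_sn hp1
      refine ⟨S.image pp, fun _ _ => ⟨?_, ?_⟩⟩
      · intro q hq
        obtain ⟨v, hv, rfl⟩ := Finset.mem_image.mp hq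
        obtain ⟨h1, h2, h3⟩ := hS1 v hv
        exact ⟨pp_prim h1, dot_pp h1 h2, (sn_pp_le h1).trans h3⟩
      · have h1 := decomp 2 le_rfl S (fun v hv => (hS1 v hv).1)
        have h2 : Real.log (sn p) ≤ c' * Real.log X := by
          rw [← hlY]
          exact Real.log_le_log (by linarith) hp2
        have h3 : c / 2 * Real.log X ≤ c * Real.log Z - C * (1 + Real.log (sn p)) := by
          have h4 : C * Real.log (sn p) ≤ c / 2 * Real.log X := by
            calc C * Real.log (sn p) ≤ C * (c' * Real.log X) :=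
                  mul_le_mul_of_nonneg_left h2 hC.le
              _ = C * c' * Real.log X := by ring
              _ ≤ c / 2 * Real.log X := mul_le_mul_of_nonneg_right hc'2 hlog
          have h5 : C ≤ c / 2 * Real.log X := by
            rw [div_le_iff₀ hc] at hX2
            linarith
          rw [hlZ]
          linarith
        have h4 : c / 2 * Real.log X / sn p ≤ ∑ q ∈ S, 1 / sn q ^ 2 :=
          (div_le_div_of_nonneg_right h3 (by linarith)).trans hS2
        have h5 : c / 4 * Real.log X / sn p = c / 2 * Real.log X / sn p / 2 := by ring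
        rw [h5]
        linarith
    · exact ⟨∅, fun h1 h2 => absurd ⟨h1, h2⟩ hp⟩
  choose T hT using hT
  set S := (PP ×ˢ PP.biUnion T).filter (fun F => F.2 ∈ T F.1) with hS
  have hSm : ∀ F : (Fin 3 → ℤ) × (Fin 3 → ℤ), F ∈ S ↔ F.1 ∈ PP ∧ F.2 ∈ T F.1 := by
    intro F
    rw [hS, Finset.mem_filter, Finset.mem_product, Finset.mem_biUnion]
    constructor
    · rintro ⟨⟨h1, _⟩, h2⟩
      exact ⟨h1, h2⟩
    · rintro ⟨h1, h2⟩
      exact ⟨⟨h1, F.1, h1, h2⟩, h2⟩
  refine ⟨S, ?_, ?_⟩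
  · intro F hF
    obtain ⟨h1, h2⟩ := (hSm F).mp hF
    obtain ⟨h3, h4⟩ := hP1 _ h1
    obtain ⟨h5, _⟩ := hT F.1 h3 h4
    obtain ⟨h6, h7, h8⟩ := h5 F.2 h2
    refine ⟨⟨h3, h6, h7⟩, h4.trans hYX, ?_⟩
    rw [← hZ2]
    exact pow_le_pow_left₀ (sn_nonneg _) h8 2
  · rw [Finset.sum_finset_product S PP T hSm]
    have h1 : ∀ p ∈ PP, c / 4 * Real.log X * (1 / sn p ^ 3) ≤ ∑ q ∈ T p, wt (p, q) := by
      intro p hp
      obtain ⟨h3, h4⟩ := hP1 p hp
      have hp0 := one_le_sn h3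
      have hp1 : 0 < sn p := by linarith
      obtain ⟨_, h5⟩ := hT p h3 h4
      have h6 : ∑ q ∈ T p, wt (p, q) = 1 / sn p ^ 2 * ∑ q ∈ T p, 1 / sn q ^ 2 := by
        rw [Finset.mul_sum]
        refine Finset.sum_congr rfl fun q _ => ?_
        unfold wt
        rw [mul_pow, one_div_mul_one_div]
      rw [h6]
      calc c / 4 * Real.log X * (1 / sn p ^ 3) = 1 / sn p ^ 2 * (c / 4 * Real.log X / sn p) := by
            field_simp
        _ ≤ _ := mul_le_mul_of_nonneg_left h5 (by positivity)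
    refine le_trans ?_ (Finset.sum_le_sum h1)
    rw [← Finset.mul_sum]
    calc c * c' / 8 * Real.log X ^ 2 = c / 4 * Real.log X * (Real.log Y / 2) := by
          rw [hlY]; ring
      _ ≤ _ := mul_le_mul_of_nonneg_left hP2 (by positivity)

end SAIL.A
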