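import Pool.Agent.SAIL.ARI.Targets

/-!
SAIL / ARI: target B2. Counting the integer matrices which preserve a flag and have two close
eigenvalues.
-/

namespace SAIL.A

open Matrix MeasureTheory Filter SAIL

namespace B2x

/-- an integer valued function with values in an interval of length `t` -/
lemma fib {α : Type} (S : Finset α) (f : α → ℤ) (t N : ℝ) (ht : 0 ≤ t) (hN : 0 ≤ N)
    (h1 : ∀ A ∈ S, ∀ A' ∈ S, |(f A : ℝ) - f A'| ≤ t)
    (h2 : ∀ c : ℤ, ((S.filter fun A => f A = c).card : ℝ) ≤ N) : (S.card : ℝ) ≤ (t + 1) * N := by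
  classical
  rcases S.eq_empty_or_nonempty with rfl | hne
  · simp only [Finset.card_empty, Nat.cast_zero]
    positivity
  obtain ⟨A0, hA0, hmin⟩ := S.exists_min_image f hne
  have himg : S.image f ⊆ Finset.Icc (f A0) (f A0 + ⌊t⌋) := by
    intro c hc
    obtain ⟨A, hA, rfl⟩ := Finset.mem_image.1 hc
    rw [Finset.mem_Icc]
    refine ⟨hmin A hA, ?_⟩
    have h3 := (abs_le.1 (h1 A hA A0 hA0)).2
    have h4 : ((f A - f A0 : ℤ) : ℝ) ≤ t := by push_cast; exact h3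
    have h5 : f A - f A0 ≤ ⌊t⌋ := Int.le_floor.2 h4
    linarith
  have hcard : ((S.image f).card : ℝ) ≤ t + 1 := by
    have h3 : (S.image f).card ≤ (Finset.Icc (f A0) (f A0 + ⌊t⌋)).card := Finset.card_le_card himg
    rw [Int.card_Icc] at h3
    have h4 : (0 : ℤ) ≤ ⌊t⌋ := Int.floor_nonneg.2 ht
    have h5 : (((f A0 + ⌊t⌋ + 1 - f A0).toNat : ℕ) : ℝ) = (⌊t⌋ : ℝ) + 1 := by
      have h6 : f A0 + ⌊t⌋ + 1 - f A0 = ⌊t⌋ + 1 := by ring
      rw [h6]
      have h7 : (((⌊t⌋ + 1).toNat : ℕ) : ℤ) = ⌊t⌋ + 1 := Int.toNat_of_nonneg (by linarith)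
      exact_mod_cast h7
    have h6 : ((S.image f).card : ℝ) ≤ (⌊t⌋ : ℝ) + 1 := by
      rw [← h5]
      exact_mod_cast h3
    have h7 := Int.floor_le t
    linarith
  have h3 : S.card = ∑ c ∈ S.image f, (S.filter fun A => f A = c).card :=
    Finset.card_eq_sum_card_image f S
  have h4 : (S.card : ℝ) = ∑ c ∈ S.image f, ((S.filter fun A => f A = c).card : ℝ) := by
    rw [h3]; push_cast; rfl
  rw [h4]
  calc ∑ c ∈ S.image f, ((S.filter fun A => f A = c).card : ℝ) ≤ ∑ _c ∈ S.image f, N :=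
        Finset.sum_le_sum fun c _ => h2 c
    _ = (S.image f).card * N := by rw [Finset.sum_const, nsmul_eq_mul]
    _ ≤ (t + 1) * N := mul_le_mul_of_nonneg_right hcard hN

/-- nested counting -/
lemma chain {α : Type} : ∀ (k : ℕ) (F : Fin k → α → ℤ) (t : Fin k → ℝ) (S : Finset α),
    (∀ j, 0 ≤ t j) →
    (∀ j, ∀ A ∈ S, ∀ A' ∈ S, (∀ i < j, F i A = F i A') → |(F j A : ℝ) - F j A'| ≤ t j) →
    (∀ A ∈ S, ∀ A' ∈ S, (∀ i, F i A = F i A') → A = A') → (S.card : ℝ) ≤ ∏ j, (t j + 1) := by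
  intro k
  induction k with
  | zero =>
    intro F t S _ _ h3
    have h4 : S.card ≤ 1 := Finset.card_le_one.2 fun A hA A' hA' =>
      h3 A hA A' hA' fun i => i.elim0
    simp only [Finset.univ_eq_empty, Finset.prod_empty]
    exact_mod_cast h4
  | succ k ih =>
    intro F t S h1 h2 h3
    rw [Fin.prod_univ_succ]
    refine fib S (F 0) (t 0) _ (h1 0) ?_ ?_ ?_
    · refine Finset.prod_nonneg fun j _ => ?_
      have := h1 j.succ
      linarith
    · intro A hA A' hA'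
      exact h2 0 A hA A' hA' fun i hi => absurd hi (Fin.not_lt_zero i)
    · intro c
      refine ih (fun j => F j.succ) (fun j => t j.succ) _ (fun j => h1 j.succ) ?_ ?_
      · intro j A hA A' hA' h4
        have hA1 := Finset.mem_filter.1 hA
        have hA2 := Finset.mem_filter.1 hA'
        refine h2 j.succ A hA1.1 A' hA2.1 ?_
        intro i
        refine Fin.cases ?_ ?_ i
        · intro _
          rw [hA1.2, hA2.2]
        · intro i hi
          exact h4 i (Fin.succ_lt_succ_iff.1 hi)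
      · intro A hA A' hA' h4
        have hA1 := Finset.mem_filter.1 hA
        have hA2 := Finset.mem_filter.1 hA'
        refine h3 A hA1.1 A' hA2.1 ?_
        intro i
        refine Fin.cases ?_ ?_ i
        · rw [hA1.2, hA2.2]
        · intro i
          exact h4 i

lemma sn_attained (v : Fin 3 → ℤ) : ∃ r, |(v r : ℝ)| = sn v := by
  obtain ⟨r, hr⟩ := Finite.exists_max (fun i => |(v i : ℝ)|)
  refine ⟨r, le_antisymm ?_ ?_⟩
  · have := norm_le_pi_norm (fun i => (v i : ℝ)) r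
    simpa [sn] using this
  · unfold sn
    rw [pi_norm_le_iff_of_nonneg (abs_nonneg _)]
    intro i
    simpa using hr i

lemma le_sn (v : Fin 3 → ℤ) (i : Fin 3) : |(v i : ℝ)| ≤ sn v := by
  have := norm_le_pi_norm (fun i => (v i : ℝ)) i
  simpa [sn] using this

lemma sn_pos {v : Fin 3 → ℤ} (hv : prim v) : 0 < sn v := by
  obtain ⟨r, hr⟩ := sn_attained v
  rcases (abs_nonneg (v r : ℝ)).lt_or_eq with h | h
  · rw [← hr]; exact h
  · exfalso
    have h0 : ∀ i, v i = 0 := by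
      intro i
      have h1 := le_sn v i
      rw [← hr, ← h] at h1
      have h2 : (v i : ℝ) = 0 := abs_eq_zero.1 (le_antisymm h1 (abs_nonneg _))
      exact_mod_cast h2
    have h3 := hv 0 fun i => by rw [h0 i]
    exact not_isUnit_zero h3

/-- the triangular form -/
def TT (γ : GZ) (A : IM) : IM := (γ⁻¹).1 * A * γ.1

/-- the first row in the original coordinates -/
def ze (γ : GZ) (A : IM) (j : Fin 3) : ℤ := ∑ k, TT γ A 0 k * (γ⁻¹).1 k j

lemma inv_mul1 (γ : GZ) : (γ⁻¹).1 * γ.1 = 1 := by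
  have : (γ⁻¹ * γ).1 = 1 := by rw [inv_mul_cancel]; rfl
  exact this

lemma mul_inv1 (γ : GZ) : γ.1 * (γ⁻¹).1 = 1 := by
  have : (γ * γ⁻¹).1 = 1 := by rw [mul_inv_cancel]; rfl
  exact this

structure Dat (p q : Fin 3 → ℤ) (γ : GZ) (A : IM) : Prop where
  t10 : TT γ A 1 0 = 0
  t20 : TT γ A 2 0 = 0
  t21 : TT γ A 2 1 = 0
  ent : ∀ i j, A i j = p i * ze γ A j +
    γ.1 i 1 * (TT γ A 1 1 * (γ⁻¹).1 1 j + TT γ A 1 2 * q j) + γ.1 i 2 * TT γ A 2 2 * q j
  ap : A *ᵥ p = (TT γ A 0 0) • p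
  bq : q ᵥ* A = (TT γ A 2 2) • q
  tr : A.trace = TT γ A 0 0 + TT γ A 1 1 + TT γ A 2 2
  zp : ∑ j, ze γ A j * p j = TT γ A 0 0

lemma dat {p q : Fin 3 → ℤ} {γ : GZ} (hp : γ.1 *ᵥ ![1, 0, 0] = p) (hq : q ᵥ* γ.1 = ![0, 0, 1])
    (hpq : ∀ A : IM, Pres A p q ↔
      ∃ a x z e y b : ℤ, A * γ.1 = γ.1 * !![a, x, z; 0, e, y; 0, 0, b])
    {A : IM} (hA : Pres A p q) : Dat p q γ A := by
  obtain ⟨a, x, z, e, y, b, h⟩ := (hpq A).1 hA
  have hT : TT γ A = !![a, x, z; 0, e, y; 0, 0, b] := by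
    unfold TT
    rw [Matrix.mul_assoc, h, ← Matrix.mul_assoc, inv_mul1, Matrix.one_mul]
  have hAT : A = γ.1 * TT γ A * (γ⁻¹).1 := by
    unfold TT
    calc A = (γ.1 * (γ⁻¹).1) * A * (γ.1 * (γ⁻¹).1) := by
          rw [mul_inv1, Matrix.one_mul, Matrix.mul_one]
      _ = _ := by simp only [Matrix.mul_assoc]
  have hp' : ∀ i, p i = γ.1 i 0 := by
    intro i
    rw [← hp]
    simp [Matrix.mulVec, dotProduct, Fin.sum_univ_three]
  have hq0 : q = ![0, 0, 1] ᵥ* (γ⁻¹).1 := by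
    rw [← hq, Matrix.vecMul_vecMul, mul_inv1, Matrix.vecMul_one]
  have hq' : ∀ j, q j = (γ⁻¹).1 2 j := by
    intro j
    rw [hq0]
    simp [Matrix.vecMul, dotProduct, Fin.sum_univ_three]
  have t00 : TT γ A 0 0 = a := by rw [hT]; rfl
  have t01 : TT γ A 0 1 = x := by rw [hT]; rfl
  have t02 : TT γ A 0 2 = z := by rw [hT]; rfl
  have t10 : TT γ A 1 0 = 0 := by rw [hT]; rfl
  have t11 : TT γ A 1 1 = e := by rw [hT]; rfl
  have t12 : TT γ A 1 2 = y := by rw [hT]; rfl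
  have t20 : TT γ A 2 0 = 0 := by rw [hT]; rfl
  have t21 : TT γ A 2 1 = 0 := by rw [hT]; rfl
  have t22 : TT γ A 2 2 = b := by rw [hT]; rfl
  refine ⟨t10, t20, t21, ?_, ?_, ?_, ?_, ?_⟩
  · intro i j
    have h1 : A i j = ∑ l, (∑ k, γ.1 i k * TT γ A k l) * (γ⁻¹).1 l j := by
      conv_lhs => rw [hAT]
      simp only [Matrix.mul_apply]
    rw [h1, hp' i, hq' j]
    simp only [ze, Fin.sum_univ_three, t00, t01, t02, t10, t11, t12, t20, t21, t22]
    ring
  · have h1 : A *ᵥ p = (A * γ.1) *ᵥ ![1, 0, 0] := by rw [← Matrix.mulVec_mulVec, hp]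
    rw [h1, h, ← Matrix.mulVec_mulVec, t00]
    have h2 : (!![a, x, z; 0, e, y; 0, 0, b] : IM) *ᵥ ![1, 0, 0] = a • ![1, 0, 0] := by
      ext i
      fin_cases i <;> simp [Matrix.mulVec, dotProduct, Fin.sum_univ_three]
    rw [h2, Matrix.mulVec_smul, hp]
  · have h1 : (q ᵥ* A) ᵥ* γ.1 = b • (q ᵥ* γ.1) := by
      rw [Matrix.vecMul_vecMul, h, ← Matrix.vecMul_vecMul, hq]
      ext i
      fin_cases i <;> simp [Matrix.vecMul, dotProduct, Fin.sum_univ_three]
    have h2 := congrArg (fun w => w ᵥ* (γ⁻¹).1) h1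
    simp only [Matrix.vecMul_vecMul, mul_inv1, Matrix.smul_vecMul] at h2
    rw [t22]
    rw [Matrix.mul_assoc, mul_inv1, Matrix.mul_one, Matrix.vecMul_one] at h2
    exact h2
  · have h1 : (TT γ A).trace = A.trace := by
      unfold TT
      rw [Matrix.trace_mul_comm, ← Matrix.mul_assoc, mul_inv1, Matrix.one_mul]
    rw [← h1, Matrix.trace_fin_three]
  · have h1 : ∀ k, ∑ j, (γ⁻¹).1 k j * γ.1 j 0 = if k = 0 then 1 else 0 := by
      intro k
      have h2 := congrFun (congrFun (inv_mul1 γ) k) 0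
      rw [Matrix.mul_apply, Matrix.one_apply] at h2
      exact h2
    have h2 : ∑ j, ze γ A j * p j = ∑ k, TT γ A 0 k * ∑ j, (γ⁻¹).1 k j * γ.1 j 0 := by
      simp only [ze, hp', Finset.sum_mul, Finset.mul_sum]
      rw [Finset.sum_comm]
      refine Finset.sum_congr rfl fun k _ => Finset.sum_congr rfl fun j _ => ?_
      ring
    rw [h2, Finset.sum_congr rfl (fun k _ => by rw [h1 k])]
    simp

/-- the minor identity: `p × γ e₂ = q` -/
lemma cross {p q : Fin 3 → ℤ} {γ : GZ} (hp : γ.1 *ᵥ ![1, 0, 0] = p) (hq : q ᵥ* γ.1 = ![0, 0, 1])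
    (r : Fin 3) : p (r + 1) * γ.1 (r + 2) 1 - p (r + 2) * γ.1 (r + 1) 1 = q r := by
  have hp' : ∀ i, p i = γ.1 i 0 := by
    intro i
    rw [← hp]
    simp [Matrix.mulVec, dotProduct, Fin.sum_univ_three]
  have hq0 : q = ![0, 0, 1] ᵥ* (γ⁻¹).1 := by
    rw [← hq, Matrix.vecMul_vecMul, mul_inv1, Matrix.vecMul_one]
  have hq' : ∀ j, q j = (γ⁻¹).1 2 j := by
    intro j
    rw [hq0]
    simp [Matrix.vecMul, dotProduct, Fin.sum_univ_three]
  have hadj : (γ⁻¹).1 = γ.1.adjugate := rfl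
  rw [hq' r, hadj, Matrix.adjugate_fin_three]
  fin_cases r <;> simp [hp'] <;> ring

/-- size of an eigenvalue of a covector -/
lemma bb {q : Fin 3 → ℤ} (hq : prim q) {A : IM} {b : ℤ} {ρ : ℝ} (h : q ᵥ* A = b • q)
    (hA : ∀ i j, |(A i j : ℝ)| ≤ ρ) : |(b : ℝ)| ≤ 3 * ρ := by
  obtain ⟨s, hs⟩ := sn_attained q
  have hpos := sn_pos hq
  have h1 := congrFun h s
  simp only [Matrix.vecMul, dotProduct, Fin.sum_univ_three, Pi.smul_apply, smul_eq_mul] at h1
  have h2 : (q 0 : ℝ) * A 0 s + q 1 * A 1 s + q 2 * A 2 s = b * q s := by exact_mod_cast h1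
  have h3 : |(b : ℝ)| * sn q ≤ 3 * ρ * sn q := by
    rw [← hs, ← abs_mul, ← h2, hs]
    have hρ : 0 ≤ ρ := (abs_nonneg _).trans (hA 0 s)
    have k : ∀ i, |(q i : ℝ) * A i s| ≤ sn q * ρ := by
      intro i
      rw [abs_mul]
      exact mul_le_mul (le_sn q i) (hA i s) (abs_nonneg _) hpos.le
    calc |(q 0 : ℝ) * A 0 s + q 1 * A 1 s + q 2 * A 2 s|
        ≤ |(q 0 : ℝ) * A 0 s| + |(q 1 : ℝ) * A 1 s| + |(q 2 : ℝ) * A 2 s| := by
          refine (abs_add_le _ _).trans ?_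
          have := abs_add_le ((q 0 : ℝ) * A 0 s) (q 1 * A 1 s)
          linarith
      _ ≤ 3 * ρ * sn q := by linarith [k 0, k 1, k 2]
  exact le_of_mul_le_mul_right h3 hpos

/-- size of an eigenvalue of a vector -/
lemma aa' {p : Fin 3 → ℤ} (hp : prim p) {A : IM} {a : ℤ} {ρ : ℝ} (h : A *ᵥ p = a • p)
    (hA : ∀ i j, |(A i j : ℝ)| ≤ ρ) : |(a : ℝ)| ≤ 3 * ρ := by
  refine bb (A := Aᵀ) hp (by rw [Matrix.vecMul_transpose]; exact h) fun i j => ?_
  rw [Matrix.transpose_apply]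
  exact hA j i

lemma tr3 {A : IM} {ρ : ℝ} (hA : ∀ i j, |(A i j : ℝ)| ≤ ρ) : |(A.trace : ℝ)| ≤ 3 * ρ := by
  rw [Matrix.trace_fin_three]
  push_cast
  refine (abs_add_le _ _).trans ?_
  have := abs_add_le (A 0 0 : ℝ) (A 1 1)
  linarith [hA 0 0, hA 1 1, hA 2 2]

/-- the count for two given windows -/
lemma cnt {p q : Fin 3 → ℤ} {γ : GZ} (hp : prim p) (hq : prim q)
    (hcr : ∀ r, p (r + 1) * γ.1 (r + 2) 1 - p (r + 2) * γ.1 (r + 1) 1 = q r)
    (S : Finset IM) (ρ t1 t5 : ℝ) (hρ : 0 ≤ ρ) (h1 : 0 ≤ t1) (h5 : 0 ≤ t5)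
    (hS : ∀ A ∈ S, Dat p q γ A ∧ ∀ i j, |(A i j : ℝ)| ≤ ρ)
    (he : ∀ A ∈ S, ∀ A' ∈ S, TT γ A 2 2 = TT γ A' 2 2 →
      |(TT γ A 1 1 : ℝ) - TT γ A' 1 1| ≤ t1)
    (ha : ∀ A ∈ S, ∀ A' ∈ S, TT γ A 2 2 = TT γ A' 2 2 → TT γ A 1 1 = TT γ A' 1 1 →
      |(TT γ A 0 0 : ℝ) - TT γ A' 0 0| ≤ t5) :
    (S.card : ℝ) ≤ (6 * ρ + 1) * (t1 + 1) * (4 * ρ * sn p / sn q ^ 2 + 1) *
      (2 * ρ / sn p + 1) ^ 2 * (t5 / sn p + 1) := by
  have hP := sn_pos hp
  have hQ := sn_pos hq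
  obtain ⟨r, hr⟩ := sn_attained p
  obtain ⟨s, hs⟩ := sn_attained q
  have key := chain 6 (![fun A => TT γ A 2 2, fun A => TT γ A 1 1, fun A => TT γ A 1 2,
    fun A => ze γ A (r + 1), fun A => ze γ A (r + 2), fun A => ze γ A r] : Fin 6 → IM → ℤ)
    ![6 * ρ, t1, 4 * ρ * sn p / sn q ^ 2, 2 * ρ / sn p, 2 * ρ / sn p, t5 / sn p] S ?_ ?_ ?_
  · refine key.trans (le_of_eq ?_)
    simp [Fin.prod_univ_succ]
    ring
  · intro j
    fin_cases j
    · show 0 ≤ 6 * ρ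
      positivity
    · exact h1
    · show 0 ≤ 4 * ρ * sn p / sn q ^ 2
      positivity
    · show 0 ≤ 2 * ρ / sn p
      positivity
    · show 0 ≤ 2 * ρ / sn p
      positivity
    · show 0 ≤ t5 / sn p
      positivity
  · -- differences
    have dD : ∀ A ∈ S, ∀ A' ∈ S, ∀ i j, |(A i j : ℝ) - A' i j| ≤ 2 * ρ := by
      intro A hA A' hA' i j
      have k1 := (hS A hA).2 i j
      have k2 := (hS A' hA').2 i j
      have k3 := abs_sub (A i j : ℝ) (A' i j)
      linarith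
    have dz : ∀ A ∈ S, ∀ A' ∈ S, TT γ A 2 2 = TT γ A' 2 2 → TT γ A 1 1 = TT γ A' 1 1 →
        TT γ A 1 2 = TT γ A' 1 2 → ∀ j, |(ze γ A j : ℝ) - ze γ A' j| ≤ 2 * ρ / sn p := by
      intro A hA A' hA' e1 e2 e3 j
      have k1 := (hS A hA).1.ent r j
      have k2 := (hS A' hA').1.ent r j
      rw [e1, e2, e3] at k1
      have k3 : A r j - A' r j = p r * (ze γ A j - ze γ A' j) := by
        rw [k1, k2]; ring
      have k4 : (A r j : ℝ) - A' r j = p r * ((ze γ A j : ℝ) - ze γ A' j) := by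
        exact_mod_cast k3
      have k5 := dD A hA A' hA' r j
      rw [k4, abs_mul, hr] at k5
      rw [le_div_iff₀ hP]
      linarith
    intro j A hA A' hA' hlt
    fin_cases j
    · show |(TT γ A 2 2 : ℝ) - TT γ A' 2 2| ≤ 6 * ρ
      have k1 := bb hq (hS A hA).1.bq (hS A hA).2
      have k2 := bb hq (hS A' hA').1.bq (hS A' hA').2
      have k3 := abs_sub (TT γ A 2 2 : ℝ) (TT γ A' 2 2)
      linarith
    · show |(TT γ A 1 1 : ℝ) - TT γ A' 1 1| ≤ t1
      have e1 : TT γ A 2 2 = TT γ A' 2 2 := hlt 0 (by decide)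
      exact he A hA A' hA' e1
    · show |(TT γ A 1 2 : ℝ) - TT γ A' 1 2| ≤ 4 * ρ * sn p / sn q ^ 2
      have e1 : TT γ A 2 2 = TT γ A' 2 2 := hlt 0 (by decide)
      have e2 : TT γ A 1 1 = TT γ A' 1 1 := hlt 1 (by decide)
      have k1 := fun i => (hS A hA).1.ent i s
      have k2 := fun i => (hS A' hA').1.ent i s
      have k3 : p (s + 1) * (A (s + 2) s - A' (s + 2) s) -
          p (s + 2) * (A (s + 1) s - A' (s + 1) s) =
          (TT γ A 1 2 - TT γ A' 1 2) * q s * q s := by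
        rw [k1 (s + 2), k1 (s + 1), k2 (s + 2), k2 (s + 1), e1, e2]
        have k4 := hcr s
        linear_combination (TT γ A 1 2 - TT γ A' 1 2) * q s * k4
      have k4 : (p (s + 1) : ℝ) * ((A (s + 2) s : ℝ) - A' (s + 2) s) -
          p (s + 2) * ((A (s + 1) s : ℝ) - A' (s + 1) s) =
          ((TT γ A 1 2 : ℝ) - TT γ A' 1 2) * q s * q s := by
        exact_mod_cast k3
      have k5 : |(TT γ A 1 2 : ℝ) - TT γ A' 1 2| * sn q ^ 2 ≤ 4 * ρ * sn p := by
        have e : |(TT γ A 1 2 : ℝ) - TT γ A' 1 2| * sn q ^ 2 =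
            |((TT γ A 1 2 : ℝ) - TT γ A' 1 2) * q s * q s| := by
          rw [abs_mul, abs_mul, hs]; ring
        rw [e, ← k4]
        have m1 : |(p (s + 1) : ℝ) * ((A (s + 2) s : ℝ) - A' (s + 2) s)| ≤ sn p * (2 * ρ) := by
          rw [abs_mul]
          exact mul_le_mul (le_sn p _) (dD A hA A' hA' _ _) (abs_nonneg _) hP.le
        have m2 : |(p (s + 2) : ℝ) * ((A (s + 1) s : ℝ) - A' (s + 1) s)| ≤ sn p * (2 * ρ) := by
          rw [abs_mul]
          exact mul_le_mul (le_sn p _) (dD A hA A' hA' _ _) (abs_nonneg _) hP.le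
        have m3 := abs_sub ((p (s + 1) : ℝ) * ((A (s + 2) s : ℝ) - A' (s + 2) s))
          (p (s + 2) * ((A (s + 1) s : ℝ) - A' (s + 1) s))
        linarith
      rw [le_div_iff₀ (by positivity)]
      exact k5
    · exact dz A hA A' hA' (hlt 0 (by decide)) (hlt 1 (by decide)) (hlt 2 (by decide)) (r + 1)
    · exact dz A hA A' hA' (hlt 0 (by decide)) (hlt 1 (by decide)) (hlt 2 (by decide)) (r + 2)
    · show |(ze γ A r : ℝ) - ze γ A' r| ≤ t5 / sn p
      have e1 : TT γ A 2 2 = TT γ A' 2 2 := hlt 0 (by decide)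
      have e2 : TT γ A 1 1 = TT γ A' 1 1 := hlt 1 (by decide)
      have e4 : ze γ A (r + 1) = ze γ A' (r + 1) := hlt 3 (by decide)
      have e5 : ze γ A (r + 2) = ze γ A' (r + 2) := hlt 4 (by decide)
      have k1 := (hS A hA).1.zp
      have k2 := (hS A' hA').1.zp
      have hsum : ∀ f : Fin 3 → ℤ, ∑ j, f j = f r + f (r + 1) + f (r + 2) := by
        intro f
        rw [Fin.sum_univ_three]
        fin_cases r <;> simp <;> ring
      rw [hsum] at k1 k2
      have k3 : (ze γ A r - ze γ A' r) * p r = TT γ A 0 0 - TT γ A' 0 0 := by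
        rw [← k1, ← k2, e4, e5]; ring
      have k4 : ((ze γ A r : ℝ) - ze γ A' r) * p r = (TT γ A 0 0 : ℝ) - TT γ A' 0 0 := by
        exact_mod_cast k3
      have k5 := ha A hA A' hA' e1 e2
      rw [← k4, abs_mul, hr] at k5
      rw [le_div_iff₀ hP]
      exact k5
  · intro A hA A' hA' heq
    have e1 : TT γ A 2 2 = TT γ A' 2 2 := heq 0
    have e2 : TT γ A 1 1 = TT γ A' 1 1 := heq 1
    have e3 : TT γ A 1 2 = TT γ A' 1 2 := heq 2
    have e4 : ze γ A (r + 1) = ze γ A' (r + 1) := heq 3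
    have e5 : ze γ A (r + 2) = ze γ A' (r + 2) := heq 4
    have e6 : ze γ A r = ze γ A' r := heq 5
    have e7 : ∀ j, ze γ A j = ze γ A' j := by
      intro j
      have hj : ∀ r' j' : Fin 3, j' = r' ∨ j' = r' + 1 ∨ j' = r' + 2 := by decide
      rcases hj r j with rfl | rfl | rfl
      · exact e6
      · exact e4
      · exact e5
    ext i j
    rw [(hS A hA).1.ent i j, (hS A' hA').1.ent i j, e1, e2, e3, e7 j]

end B2x

open B2x in
theorem p_B2 (h : tBAS) : tB2 := by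
  classical
  refine ⟨20000, by norm_num, ?_⟩
  intro p q hF ρ τ hτ hτρ S hS
  obtain ⟨γ, hγp, hγq, hpq⟩ := h p q hF
  obtain ⟨hp, hq, -⟩ := hF
  have hP := sn_pos hp
  have hQ := sn_pos hq
  have hcr := fun r => cross hγp hγq r
  have hρ : 1 ≤ ρ := hτ.trans hτρ
  have hρ0 : 0 ≤ ρ := by linarith
  have hD : ∀ A ∈ S, Dat p q γ A ∧ ∀ i j, |(A i j : ℝ)| ≤ ρ :=
    fun A hA => ⟨dat hγp hγq hpq (hS A hA).1, (hS A hA).2.1⟩
  -- uniqueness of the eigenvalues
  have hN : ∀ A ∈ S, |(TT γ A 0 0 : ℝ) - TT γ A 2 2| ≤ τ ∨ |(TT γ A 0 0 : ℝ) - TT γ A 1 1| ≤ τ ∨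
      |(TT γ A 2 2 : ℝ) - TT γ A 1 1| ≤ τ := by
    intro A hA
    obtain ⟨a, b, ha, hb, hab⟩ := (hS A hA).2.2
    have hd := (hD A hA).1
    obtain ⟨r, hr⟩ := sn_attained p
    obtain ⟨s, hs⟩ := sn_attained q
    have hpr : p r ≠ 0 := by
      intro h0
      rw [h0] at hr
      simp at hr
      rw [← hr] at hP
      exact lt_irrefl _ hP
    have hqs : q s ≠ 0 := by
      intro h0
      rw [h0] at hs
      simp at hs
      rw [← hs] at hQ
      exact lt_irrefl _ hQ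
    have ea : a = TT γ A 0 0 := by
      have k1 := congrFun (ha.symm.trans hd.ap) r
      simp only [Pi.smul_apply, smul_eq_mul] at k1
      exact mul_right_cancel₀ hpr k1
    have eb : b = TT γ A 2 2 := by
      have k1 := congrFun (hb.symm.trans hd.bq) s
      simp only [Pi.smul_apply, smul_eq_mul] at k1
      exact mul_right_cancel₀ hqs k1
    have ee : A.trace - a - b = TT γ A 1 1 := by
      rw [ea, eb, hd.tr]; ring
    rw [ee, ea, eb] at hab
    push_cast at hab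
    exact hab
  have he9 : ∀ A ∈ S, |(TT γ A 1 1 : ℝ)| ≤ 9 * ρ := by
    intro A hA
    have hd := (hD A hA).1
    have k1 := bb hq hd.bq (hD A hA).2
    have k2 := aa' hp hd.ap (hD A hA).2
    have k3 := tr3 (hD A hA).2
    have k4 : (TT γ A 1 1 : ℝ) = A.trace - TT γ A 0 0 - TT γ A 2 2 := by
      rw [hd.tr]; push_cast; ring
    rw [k4]
    rw [abs_le] at *
    constructor <;> linarith [k1.1, k1.2, k2.1, k2.2, k3.1, k3.2]
  -- the three parts
  set S1 := S.filter fun A => |(TT γ A 2 2 : ℝ) - TT γ A 1 1| ≤ τ with hS1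
  set S2 := S.filter fun A => |(TT γ A 0 0 : ℝ) - TT γ A 2 2| ≤ τ with hS2
  set S3 := S.filter fun A => |(TT γ A 0 0 : ℝ) - TT γ A 1 1| ≤ τ with hS3
  have hcov : S ⊆ S1 ∪ S2 ∪ S3 := by
    intro A hA
    rcases hN A hA with h1 | h1 | h1
    · exact Finset.mem_union_left _ (Finset.mem_union_right _ (Finset.mem_filter.2 ⟨hA, h1⟩))
    · exact Finset.mem_union_right _ (Finset.mem_filter.2 ⟨hA, h1⟩)
    · exact Finset.mem_union_left _ (Finset.mem_union_left _ (Finset.mem_filter.2 ⟨hA, h1⟩))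
  have hcard : (S.card : ℝ) ≤ S1.card + S2.card + S3.card := by
    have k1 := (Finset.card_le_card hcov).trans (Finset.card_union_le _ _)
    have k2 := Finset.card_union_le S1 S2
    have k3 : S.card ≤ S1.card + S2.card + S3.card := by omega
    exact_mod_cast k3
  have c1 := cnt hp hq hcr S1 ρ (2 * τ) (6 * ρ) hρ0 (by positivity) (by positivity)
    (fun A hA => hD A (Finset.mem_filter.1 hA).1)
    (by
      intro A hA A' hA' e
      have k1 := (Finset.mem_filter.1 hA).2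
      have k2 := (Finset.mem_filter.1 hA').2
      rw [e] at k1
      rw [abs_le] at *
      constructor <;> linarith [k1.1, k1.2, k2.1, k2.2])
    (by
      intro A hA A' hA' _ _
      have k1 := aa' hp (hD A (Finset.mem_filter.1 hA).1).1.ap (hD A (Finset.mem_filter.1 hA).1).2
      have k2 := aa' hp (hD A' (Finset.mem_filter.1 hA').1).1.ap
        (hD A' (Finset.mem_filter.1 hA').1).2
      rw [abs_le] at *
      constructor <;> linarith [k1.1, k1.2, k2.1, k2.2])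
  have c2 := cnt hp hq hcr S2 ρ (18 * ρ) (2 * τ) hρ0 (by positivity) (by positivity)
    (fun A hA => hD A (Finset.mem_filter.1 hA).1)
    (by
      intro A hA A' hA' _
      have k1 := he9 A (Finset.mem_filter.1 hA).1
      have k2 := he9 A' (Finset.mem_filter.1 hA').1
      rw [abs_le] at *
      constructor <;> linarith [k1.1, k1.2, k2.1, k2.2])
    (by
      intro A hA A' hA' e1 e2
      have k1 := (Finset.mem_filter.1 hA).2
      have k2 := (Finset.mem_filter.1 hA').2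
      rw [e1] at k1
      rw [abs_le] at *
      constructor <;> linarith [k1.1, k1.2, k2.1, k2.2])
  have c3 := cnt hp hq hcr S3 ρ (18 * ρ) (2 * τ) hρ0 (by positivity) (by positivity)
    (fun A hA => hD A (Finset.mem_filter.1 hA).1)
    (by
      intro A hA A' hA' _
      have k1 := he9 A (Finset.mem_filter.1 hA).1
      have k2 := he9 A' (Finset.mem_filter.1 hA').1
      rw [abs_le] at *
      constructor <;> linarith [k1.1, k1.2, k2.1, k2.2])
    (by
      intro A hA A' hA' e1 e2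
      have k1 := (Finset.mem_filter.1 hA).2
      have k2 := (Finset.mem_filter.1 hA').2
      rw [e2] at k1
      rw [abs_le] at *
      constructor <;> linarith [k1.1, k1.2, k2.1, k2.2])
  -- the final estimate
  have hx : 0 ≤ ρ * sn p / sn q ^ 2 := by positivity
  have hy : 0 ≤ ρ / sn p := by positivity
  have hz : 0 ≤ τ / sn p := by positivity
  have x1 : 4 * ρ * sn p / sn q ^ 2 + 1 ≤ 4 * (1 + ρ * sn p / sn q ^ 2) := by
    have : 4 * ρ * sn p / sn q ^ 2 = 4 * (ρ * sn p / sn q ^ 2) := by ring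
    rw [this]; linarith
  have y1 : 2 * ρ / sn p + 1 ≤ 2 * (1 + ρ / sn p) := by
    have : 2 * ρ / sn p = 2 * (ρ / sn p) := by ring
    rw [this]; linarith
  have y2 : 6 * ρ / sn p + 1 ≤ 6 * (1 + ρ / sn p) := by
    have : 6 * ρ / sn p = 6 * (ρ / sn p) := by ring
    rw [this]; linarith
  have z1 : 2 * τ / sn p + 1 ≤ 2 * (1 + τ / sn p) := by
    have : 2 * τ / sn p = 2 * (τ / sn p) := by ring
    rw [this]; linarith
  have x0 : 0 ≤ 4 * ρ * sn p / sn q ^ 2 + 1 := by positivity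
  have y0 : 0 ≤ 2 * ρ / sn p + 1 := by positivity
  have y0' : 0 ≤ 6 * ρ / sn p + 1 := by positivity
  have z0 : 0 ≤ 2 * τ / sn p + 1 := by positivity
  have d1 : (S1.card : ℝ) ≤ (7 * ρ) * (3 * τ) * (4 * (1 + ρ * sn p / sn q ^ 2)) *
      (2 * (1 + ρ / sn p)) ^ 2 * (6 * (1 + ρ / sn p)) := by
    refine c1.trans ?_
    gcongr
    · linarith
    · linarith
  have d2 : (S2.card : ℝ) ≤ (7 * ρ) * (19 * ρ) * (4 * (1 + ρ * sn p / sn q ^ 2)) *
      (2 * (1 + ρ / sn p)) ^ 2 * (2 * (1 + τ / sn p)) := by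
    refine c2.trans ?_
    gcongr
    · linarith
    · linarith
  have d3 : (S3.card : ℝ) ≤ (7 * ρ) * (19 * ρ) * (4 * (1 + ρ * sn p / sn q ^ 2)) *
      (2 * (1 + ρ / sn p)) ^ 2 * (2 * (1 + τ / sn p)) := by
    refine c3.trans ?_
    gcongr
    · linarith
    · linarith
  have hρne : ρ ≠ 0 := by linarith
  have e1 : (7 * ρ) * (3 * τ) * (4 * (1 + ρ * sn p / sn q ^ 2)) *
      (2 * (1 + ρ / sn p)) ^ 2 * (6 * (1 + ρ / sn p)) =
      2016 * (ρ ^ 2 * (1 + ρ * sn p / sn q ^ 2) * (1 + ρ / sn p) ^ 2 *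
        (τ / ρ * (1 + ρ / sn p))) := by
    have : τ = ρ * (τ / ρ) := by field_simp
    generalize (1 + ρ * sn p / sn q ^ 2) = U
    generalize (1 + ρ / sn p) = W
    field_simp
    ring
  have e2 : (7 * ρ) * (19 * ρ) * (4 * (1 + ρ * sn p / sn q ^ 2)) *
      (2 * (1 + ρ / sn p)) ^ 2 * (2 * (1 + τ / sn p)) =
      4256 * (ρ ^ 2 * (1 + ρ * sn p / sn q ^ 2) * (1 + ρ / sn p) ^ 2 * (1 + τ / sn p)) := by
    ring
  rw [e1] at d1
  rw [e2] at d2 d3
  have f1 : 0 ≤ ρ ^ 2 * (1 + ρ * sn p / sn q ^ 2) * (1 + ρ / sn p) ^ 2 *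
        (τ / ρ * (1 + ρ / sn p)) := by positivity
  have f2 : 0 ≤ ρ ^ 2 * (1 + ρ * sn p / sn q ^ 2) * (1 + ρ / sn p) ^ 2 * (1 + τ / sn p) := by
    positivity
  have e3 : 20000 * ρ ^ 2 * (1 + ρ * sn p / sn q ^ 2) * (1 + ρ / sn p) ^ 2 *
      (τ / ρ * (1 + ρ / sn p) + (1 + τ / sn p)) =
      20000 * (ρ ^ 2 * (1 + ρ * sn p / sn q ^ 2) * (1 + ρ / sn p) ^ 2 *
        (τ / ρ * (1 + ρ / sn p))) +
      20000 * (ρ ^ 2 * (1 + ρ * sn p / sn q ^ 2) * (1 + ρ / sn p) ^ 2 * (1 + τ / sn p)) := by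
    ring
  rw [e3]
  linarith

end SAIL.A
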