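import Pool.Agent.SAIL.ARI.Targets

/-!
SAIL / ARI: many matrices preserve a given flag (job SAILD-B3).
-/

set_option autoImplicit false

namespace SAIL.A

open Matrix SAIL

namespace b3x

/-- the family of matrices -/
def Am (G H : IM) (e b y : ℤ) (z : Fin 3 → ℤ) : IM := Matrix.of fun i j =>
  G i 0 * z j + e * (G i 1 * H 1 j) + b * (G i 2 * H 2 j) + y * (G i 1 * H 2 j)

/-- its upper triangular form -/
def Tm (G : IM) (e b y : ℤ) (z : Fin 3 → ℤ) : IM :=
  !![∑ l, z l * G l 0, ∑ l, z l * G l 1, ∑ l, z l * G l 2; 0, e, y; 0, 0, b]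

theorem Am_mul (G H : IM) (hHG : H * G = 1) (e b y : ℤ) (z : Fin 3 → ℤ) :
    Am G H e b y z * G = G * Tm G e b y z := by
  have h : ∀ a j, H a 0 * G 0 j + H a 1 * G 1 j + H a 2 * G 2 j = (1 : IM) a j := by
    intro a j
    rw [← hHG, Matrix.mul_apply, Fin.sum_univ_three]
  have h10 := h 1 0
  have h11 := h 1 1
  have h12 := h 1 2
  have h20 := h 2 0
  have h21 := h 2 1
  have h22 := h 2 2
  simp only [Matrix.one_apply, Fin.reduceEq, if_true, if_false] at h10 h11 h12 h20 h21 h22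
  ext i j
  rw [Matrix.mul_apply, Matrix.mul_apply, Fin.sum_univ_three, Fin.sum_univ_three]
  fin_cases j
  · simp [Am, Tm, Fin.sum_univ_three]
    linear_combination (e * G i 1) * h10 + (b * G i 2 + y * G i 1) * h20
  · simp [Am, Tm, Fin.sum_univ_three]
    linear_combination (e * G i 1) * h11 + (b * G i 2 + y * G i 1) * h21
  · simp [Am, Tm, Fin.sum_univ_three]
    linear_combination (e * G i 1) * h12 + (b * G i 2 + y * G i 1) * h22

theorem Tm_eq (G H : IM) (hHG : H * G = 1) (e b y : ℤ) (z : Fin 3 → ℤ) :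
    H * (Am G H e b y z * G) = Tm G e b y z := by
  rw [Am_mul G H hHG, ← Matrix.mul_assoc, hHG, Matrix.one_mul]

theorem det_sub (G H : IM) (hHG : H * G = 1) (e b y : ℤ) (z : Fin 3 → ℤ) (x : ℤ) :
    (Am G H e b y z - Matrix.scalar (Fin 3) x).det =
      ((∑ l, z l * G l 0) - x) * (e - x) * (b - x) := by
  have h1 : (Am G H e b y z - Matrix.scalar (Fin 3) x) * G =
      G * (Tm G e b y z - Matrix.scalar (Fin 3) x) := by
    rw [Matrix.sub_mul, Matrix.mul_sub, Am_mul G H hHG, Matrix.scalar_apply]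
    congr 1
    ext i j
    simp [Matrix.diagonal_mul, Matrix.mul_diagonal, mul_comm]
  have hG : IsUnit G.det := by
    have h2 : H.det * G.det = 1 := by rw [← Matrix.det_mul, hHG, Matrix.det_one]
    exact IsUnit.of_mul_eq_one_right _ h2
  have h3 : (Am G H e b y z - Matrix.scalar (Fin 3) x).det * G.det =
      G.det * (Tm G e b y z - Matrix.scalar (Fin 3) x).det := by
    rw [← Matrix.det_mul, h1, Matrix.det_mul]
  rw [mul_comm G.det] at h3
  rw [hG.mul_right_cancel h3, Matrix.scalar_apply, Matrix.det_fin_three]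
  simp only [Matrix.sub_apply, Matrix.diagonal_apply, Fin.reduceEq, if_true, if_false]
  simp [Tm]

theorem inj (G H : IM) (hHG : H * G = 1) (r : Fin 3) (hr : G r 0 ≠ 0) (e b y e' b' y' : ℤ)
    (z z' : Fin 3 → ℤ) (h : Am G H e b y z = Am G H e' b' y' z') :
    e = e' ∧ b = b' ∧ y = y' ∧ z = z' := by
  have hT : Tm G e b y z = Tm G e' b' y' z' := by
    rw [← Tm_eq G H hHG, ← Tm_eq G H hHG, h]
  have h1 : e = e' := by simpa [Tm] using congrFun (congrFun hT 1) 1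
  have h2 : y = y' := by simpa [Tm] using congrFun (congrFun hT 1) 2
  have h3 : b = b' := by simpa [Tm] using congrFun (congrFun hT 2) 2
  refine ⟨h1, h3, h2, ?_⟩
  subst h1 h2 h3
  funext j
  have h4 := congrFun (congrFun h r) j
  simp only [Am, Matrix.of_apply] at h4
  have h5 : G r 0 * z j = G r 0 * z' j := by linarith
  exact mul_left_cancel₀ hr h5

/-- minors -/
theorem minor (G H : IM) (hH : H = G.adjugate) (i r : Fin 3) :
    ∃ (k : Fin 3) (s : ℤ), |s| ≤ 1 ∧ G r 0 * G i 1 - G i 0 * G r 1 = s * H 2 k ∧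
      G r 0 * G i 2 - G i 0 * G r 2 = -(s * H 1 k) := by
  subst hH
  rw [Matrix.adjugate_fin_three]
  fin_cases i <;> fin_cases r
  · exact ⟨0, 0, by simp, by simp, by simp⟩
  · exact ⟨2, -1, by simp, by simp; ring, by simp; ring⟩
  · exact ⟨1, 1, by simp, by simp; ring, by simp; ring⟩
  · exact ⟨2, 1, by simp, by simp; ring, by simp; ring⟩
  · exact ⟨0, 0, by simp, by simp, by simp⟩
  · exact ⟨0, -1, by simp, by simp; ring, by simp; ring⟩
  · exact ⟨1, -1, by simp, by simp; ring, by simp; ring⟩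
  · exact ⟨0, 1, by simp, by simp; ring, by simp; ring⟩
  · exact ⟨0, 0, by simp, by simp, by simp⟩

/-- minors of the inverse -/
theorem minor2 (G H : IM) (hH : H = G.adjugate) (hG : G.det = 1) (j t : Fin 3) :
    ∃ (k : Fin 3) (s : ℤ), |s| ≤ 1 ∧ H 2 t * H 1 j - H 2 j * H 1 t = s * G k 0 := by
  have hd : G 0 0 * G 1 1 * G 2 2 - G 0 0 * G 1 2 * G 2 1 - G 0 1 * G 1 0 * G 2 2 +
      G 0 1 * G 1 2 * G 2 0 + G 0 2 * G 1 0 * G 2 1 - G 0 2 * G 1 1 * G 2 0 = 1 := by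
    rw [← Matrix.det_fin_three, hG]
  subst hH
  rw [Matrix.adjugate_fin_three]
  fin_cases j <;> fin_cases t
  · exact ⟨0, 0, by simp, by simp⟩
  · exact ⟨2, 1, by simp, by simp; linear_combination (G 2 0) * hd⟩
  · exact ⟨1, -1, by simp, by simp; linear_combination (-G 1 0) * hd⟩
  · exact ⟨2, -1, by simp, by simp; linear_combination (-G 2 0) * hd⟩
  · exact ⟨0, 0, by simp, by simp⟩
  · exact ⟨0, 1, by simp, by simp; linear_combination (G 0 0) * hd⟩
  · exact ⟨1, 1, by simp, by simp; linear_combination (G 1 0) * hd⟩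
  · exact ⟨0, -1, by simp, by simp; linear_combination (-G 0 0) * hd⟩
  · exact ⟨0, 0, by simp, by simp⟩

theorem abs_mul_le (a b A B : ℤ) (ha : |a| ≤ A) (hb : |b| ≤ B) : |a * b| ≤ A * B := by
  rw [abs_mul]
  exact mul_le_mul ha hb (abs_nonneg _) ((abs_nonneg _).trans ha)

theorem bnd (G H : IM) (hH : H = G.adjugate) (hG : G.det = 1) (r s : Fin 3) (n N L K J : ℤ)
    (hn : 0 < n) (hN : 0 < N) (hr : |G r 0| = n) (hs : |H 2 s| = N) (hni : ∀ i, |G i 0| ≤ n)
    (hNi : ∀ j, |H 2 j| ≤ N) (e b y : ℤ) (z : Fin 3 → ℤ) (he : 0 ≤ e) (he2 : e ≤ 2 * L)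
    (hb : 0 ≤ b) (hb2 : b ≤ 3 * L) (hz : ∀ j, |Am G H e b y z r j| ≤ n * K)
    (hy : |y * H 2 s + (e - b) * H 1 s| ≤ J * N) (hK : n * K ≤ L) (hJ : J * (N * N) ≤ L * n)
    (i j : Fin 3) : |Am G H e b y z i j| ≤ 7 * L := by
  obtain ⟨k, σ, hσ, h1, h2⟩ := minor G H hH i r
  obtain ⟨k1, σ1, hσ1, h3⟩ := minor2 G H hH hG j s
  obtain ⟨k2, σ2, hσ2, h4⟩ := minor2 G H hH hG k s
  set D : ℤ := G r 0 * Am G H e b y z i j - G i 0 * Am G H e b y z r j with hD
  have hX : H 2 s * D = σ * (e * (H 2 k * (σ1 * G k1 0)) - b * (H 2 j * (σ2 * G k2 0)) +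
      H 2 j * H 2 k * (y * H 2 s + (e - b) * H 1 s)) := by
    rw [hD]
    simp only [Am, Matrix.of_apply]
    linear_combination (H 2 s * (e * H 1 j + y * H 2 j)) * h1 + (H 2 s * b * H 2 j) * h2 +
      (σ * e * H 2 k) * h3 - (σ * b * H 2 j) * h4
  have hu1 : |H 2 k * (σ1 * G k1 0)| ≤ N * (1 * n) :=
    abs_mul_le _ _ _ _ (hNi k) (abs_mul_le _ _ _ _ hσ1 (hni k1))
  have hu2 : |H 2 j * (σ2 * G k2 0)| ≤ N * (1 * n) :=
    abs_mul_le _ _ _ _ (hNi j) (abs_mul_le _ _ _ _ hσ2 (hni k2))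
  have hu3 : |H 2 j * H 2 k * (y * H 2 s + (e - b) * H 1 s)| ≤ N * N * (J * N) :=
    abs_mul_le _ _ _ _ (abs_mul_le _ _ _ _ (hNi j) (hNi k)) hy
  have hv1 : |e * (H 2 k * (σ1 * G k1 0))| ≤ (2 * L) * (N * (1 * n)) :=
    abs_mul_le _ _ _ _ (by rw [abs_of_nonneg he]; exact he2) hu1
  have hv2 : |b * (H 2 j * (σ2 * G k2 0))| ≤ (3 * L) * (N * (1 * n)) :=
    abs_mul_le _ _ _ _ (by rw [abs_of_nonneg hb]; exact hb2) hu2
  have hsum : |e * (H 2 k * (σ1 * G k1 0)) - b * (H 2 j * (σ2 * G k2 0)) +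
      H 2 j * H 2 k * (y * H 2 s + (e - b) * H 1 s)| ≤
      (2 * L) * (N * (1 * n)) + (3 * L) * (N * (1 * n)) + N * N * (J * N) := by
    refine (abs_add_le _ _).trans (add_le_add ?_ hu3)
    exact (abs_sub _ _).trans (add_le_add hv1 hv2)
  have hX2 : N * |D| ≤ 1 * ((2 * L) * (N * (1 * n)) + (3 * L) * (N * (1 * n)) +
      N * N * (J * N)) := by
    rw [← hs, ← abs_mul, hX, hs]
    exact abs_mul_le _ _ _ _ hσ hsum
  have hDle : |D| ≤ 6 * (L * n) := by
    have h5 : N * |D| ≤ N * (6 * (L * n)) := by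
      have h6 : N * (J * (N * N)) ≤ N * (L * n) := mul_le_mul_of_nonneg_left hJ hN.le
      nlinarith
    exact le_of_mul_le_mul_left h5 hN
  have h7 : G r 0 * Am G H e b y z i j = D + G i 0 * Am G H e b y z r j := by
    rw [hD]; ring
  have h8 : |G i 0 * Am G H e b y z r j| ≤ n * (n * K) := abs_mul_le _ _ _ _ (hni i) (hz j)
  have h9 : n * |Am G H e b y z i j| ≤ 6 * (L * n) + n * (n * K) := by
    rw [← hr, ← abs_mul, h7, hr]
    exact (abs_add_le _ _).trans (add_le_add hDle h8)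
  have h10 : n * (n * K) ≤ n * L := mul_le_mul_of_nonneg_left hK hn.le
  have h11 : n * |Am G H e b y z i j| ≤ n * (7 * L) := by linarith
  exact le_of_mul_le_mul_left h11 hn

theorem eig_bnd (G H : IM) (r : Fin 3) (n K : ℤ) (hHG : H * G = 1)
    (hn : 0 < n) (hr : |G r 0| = n) (hni : ∀ i, |G i 0| ≤ n) (e b y : ℤ) (z : Fin 3 → ℤ)
    (hz : ∀ j, |Am G H e b y z r j| ≤ n * K) : |∑ l, z l * G l 0| ≤ 3 * (n * K) := by
  have h1 := congrFun (congrFun (Am_mul G H hHG e b y z) r) 0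
  rw [Matrix.mul_apply, Matrix.mul_apply, Fin.sum_univ_three, Fin.sum_univ_three] at h1
  have h2 : Am G H e b y z r 0 * G 0 0 + Am G H e b y z r 1 * G 1 0 +
      Am G H e b y z r 2 * G 2 0 = G r 0 * ∑ l, z l * G l 0 := by
    rw [h1]
    simp [Tm]
  have h3 : n * |∑ l, z l * G l 0| ≤ n * (3 * (n * K)) := by
    rw [← hr, ← abs_mul, ← h2, hr]
    have h4 : ∀ l, |Am G H e b y z r l * G l 0| ≤ n * K * n :=
      fun l => abs_mul_le _ _ _ _ (hz l) (hni l)
    have h5 := abs_add_le (Am G H e b y z r 0 * G 0 0 + Am G H e b y z r 1 * G 1 0)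
      (Am G H e b y z r 2 * G 2 0)
    have h6 := abs_add_le (Am G H e b y z r 0 * G 0 0) (Am G H e b y z r 1 * G 1 0)
    have := h4 0
    have := h4 1
    have := h4 2
    nlinarith
  exact le_of_mul_le_mul_left h3 hn

/-- the parameters of the family -/
abbrev Par := ℕ × ℕ × ℕ × (Fin 3 → ℕ)

/-- the part of row `r` which does not depend on `z` -/
def Rr (G H : IM) (e b y : ℤ) (r j : Fin 3) : ℤ :=
  e * (G r 1 * H 1 j) + b * (G r 2 * H 2 j) + y * (G r 1 * H 2 j)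

/-- first eigenvalue -/
def pe (L : ℕ) (t : Par) : ℤ := L + 1 + t.1
/-- second eigenvalue -/
def pb (L : ℕ) (t : Par) : ℤ := 2 * L + 1 + t.2.1
/-- off-diagonal entry -/
def py (H : IM) (s : Fin 3) (L : ℕ) (t : Par) : ℤ :=
  t.2.2.1 - ((pe L t - pb L t) * H 1 s) / H 2 s
/-- vector -/
def pz (G H : IM) (r s : Fin 3) (L : ℕ) (t : Par) : Fin 3 → ℤ := fun j =>
  t.2.2.2 j - Rr G H (pe L t) (pb L t) (py H s L t) r j / G r 0

/-- the map from parameters to matrices -/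
def FF (G H : IM) (r s : Fin 3) (L : ℕ) (t : Par) : IM :=
  Am G H (pe L t) (pb L t) (py H s L t) (pz G H r s L t)

theorem FF_inj (G H : IM) (hHG : H * G = 1) (r s : Fin 3) (hr : G r 0 ≠ 0) (L : ℕ) :
    Function.Injective (FF G H r s L) := by
  intro t t' h
  obtain ⟨h1, h2, h3, h4⟩ := inj G H hHG r hr _ _ _ _ _ _ _ _ h
  have e1 : t.1 = t'.1 := by simp only [pe] at h1; omega
  have e2 : t.2.1 = t'.2.1 := by simp only [pb] at h2; omega
  have e3 : t.2.2.1 = t'.2.2.1 := by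
    simp only [py] at h3
    rw [h1, h2] at h3
    omega
  have e4 : t.2.2.2 = t'.2.2.2 := by
    funext j
    have h5 := congrFun h4 j
    simp only [pz] at h5
    rw [h1, h2, h3] at h5
    omega
  exact Prod.ext e1 (Prod.ext e2 (Prod.ext e3 e4))

theorem rem_bnd (g R : ℤ) (n : ℤ) (hg : |g| = n) (hn : 0 < n) (k K : ℕ) (hk : k < K) :
    |g * (k - R / g) + R| ≤ n * K := by
  have hg0 : g ≠ 0 := by
    rintro rfl
    simp at hg
    omega
  have h1 : g * (k - R / g) + R = g * k + R % g := by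
    rw [Int.emod_def]
    ring
  have h2 : |g * (k : ℤ)| = n * k := by rw [abs_mul, hg, Nat.abs_cast]
  have h3 : |R % g| ≤ n := by
    rw [abs_of_nonneg (Int.emod_nonneg _ hg0), ← hg]
    exact (Int.emod_lt_abs _ hg0).le
  have h4 : ((k : ℤ) + 1) ≤ K := by exact_mod_cast hk
  have h5 : n * ((k : ℤ) + 1) ≤ n * K := mul_le_mul_of_nonneg_left h4 hn.le
  rw [h1]
  refine (abs_add_le _ _).trans ?_
  rw [h2]
  linarith

theorem sn_attained (p : Fin 3 → ℤ) : ∃ r, sn p = ((|p r| : ℤ) : ℝ) ∧ ∀ i, |p i| ≤ |p r| := by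
  obtain ⟨r, hr⟩ := Finite.exists_max fun i => |p i|
  refine ⟨r, ?_, hr⟩
  apply le_antisymm
  · refine (pi_norm_le_iff_of_nonneg (by positivity)).2 fun i => ?_
    rw [Real.norm_eq_abs, ← Int.cast_abs]
    exact_mod_cast hr i
  · have h := norm_le_pi_norm (fun i => (p i : ℝ)) r
    rw [Real.norm_eq_abs, ← Int.cast_abs] at h
    exact h

theorem prim_ne (p : Fin 3 → ℤ) (hp : prim p) (r : Fin 3) (hr : ∀ i, |p i| ≤ |p r|) :
    0 < |p r| := by
  by_contra h
  have h1 : ∀ i, p i = 0 := fun i => by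
    have h2 := hr i
    have h3 := abs_nonneg (p i)
    exact abs_eq_zero.1 (by omega)
  have h4 := hp 0 fun i => by rw [h1 i]
  simp at h4

theorem main (hE : tEXI) (p q : Fin 3 → ℤ) (γ : GZ) (hp : γ.1 *ᵥ ![1, 0, 0] = p)
    (hq : q ᵥ* γ.1 = ![0, 0, 1])
    (hA : ∀ A : IM, Pres A p q ↔ ∃ a x z e y b : ℤ, A * γ.1 = γ.1 * !![a, x, z; 0, e, y; 0, 0, b])
    (r s : Fin 3) (hr : ∀ i, |p i| ≤ |p r|) (hs : ∀ i, |q i| ≤ |q s|) (hr0 : 0 < |p r|)
    (hs0 : 0 < |q s|) (m L K J : ℕ) (hL : 63 * L ≤ m) (hK : 3 * (|p r| * K) ≤ L)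
    (hJ : J * (|q s| * |q s|) ≤ L * |p r|) :
    ∃ S : Finset IM, S.card = L * (L * (J * K ^ 3)) ∧
      ∀ A ∈ S, Pres A p q ∧ nrm A ≤ m ∧ ∃ V l, Eig A V l := by
  classical
  set G : IM := γ.1 with hGdef
  set H : IM := G.adjugate with hHdef
  have hG : G.det = 1 := γ.2
  have hHG : H * G = 1 := by rw [hHdef, Matrix.adjugate_mul, hG, one_smul]
  have hGH : G * H = 1 := by rw [hHdef, Matrix.mul_adjugate, hG, one_smul]
  have hp' : ∀ i, G i 0 = p i := by
    intro i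
    rw [← hp, Matrix.mulVec, dotProduct, Fin.sum_univ_three]
    simp
  have hq' : ∀ j, H 2 j = q j := by
    intro j
    have h1 : q = (![0, 0, 1] : Fin 3 → ℤ) ᵥ* H := by
      rw [← hq, Matrix.vecMul_vecMul, hGH, Matrix.vecMul_one]
    rw [h1, Matrix.vecMul, dotProduct, Fin.sum_univ_three]
    simp
  have hGr : |G r 0| = |p r| := by rw [hp']
  have hHs : |H 2 s| = |q s| := by rw [hq']
  have hGr0 : G r 0 ≠ 0 := by
    intro h
    rw [h] at hGr
    simp only [abs_zero] at hGr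
    omega
  refine ⟨(Finset.range L ×ˢ (Finset.range L ×ˢ (Finset.range J ×ˢ
    Fintype.piFinset fun _ : Fin 3 => Finset.range K))).image (FF G H r s L), ?_, ?_⟩
  · rw [Finset.card_image_of_injective _ (FF_inj G H hHG r s hGr0 L)]
    simp [Finset.card_product, Fintype.card_piFinset]
  · intro A hAS
    rw [Finset.mem_image] at hAS
    obtain ⟨t, ht, rfl⟩ := hAS
    simp only [Finset.mem_product, Finset.mem_range, Fintype.mem_piFinset] at ht
    obtain ⟨t1, t2, t3, t4⟩ := ht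
    have hz : ∀ j, |FF G H r s L t r j| ≤ |p r| * K := by
      intro j
      have h1 := rem_bnd (G r 0) (Rr G H (pe L t) (pb L t) (py H s L t) r j) _ hGr hr0
        (t.2.2.2 j) K (t4 j)
      convert h1 using 2
      simp only [FF, Am, Matrix.of_apply, pz, Rr]
      ring
    have hy : |py H s L t * H 2 s + (pe L t - pb L t) * H 1 s| ≤ J * |q s| := by
      have h1 := rem_bnd (H 2 s) ((pe L t - pb L t) * H 1 s) _ hHs hs0 t.2.2.1 J t3
      rw [mul_comm |q s|] at h1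
      convert h1 using 2
      simp only [py]
      ring
    have he : 0 ≤ pe L t := by simp only [pe]; omega
    have he2 : pe L t ≤ 2 * L := by simp only [pe]; omega
    have hb : 0 ≤ pb L t := by simp only [pb]; omega
    have hb2 : pb L t ≤ 3 * L := by simp only [pb]; omega
    have hab := eig_bnd G H r (|p r|) K hHG hr0 hGr (fun i => by rw [hp']; exact hr i)
      (pe L t) (pb L t) (py H s L t) (pz G H r s L t) hz
    have hKn : 0 ≤ |p r| * (K : ℤ) := by positivity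
    have hbn : ∀ i j, |FF G H r s L t i j| ≤ 7 * L :=
      bnd G H rfl hG r s (|p r|) (|q s|) L K J hr0 hs0 hGr hHs
        (fun i => by rw [hp']; exact hr i) (fun j => by rw [hq']; exact hs j)
        (pe L t) (pb L t) (py H s L t) (pz G H r s L t) he he2 hb hb2 hz hy (by linarith) hJ
    refine ⟨?_, ?_, ?_⟩
    · rw [hA]
      exact ⟨_, _, _, _, _, _, Am_mul G H hHG _ _ _ _⟩
    · have h1 : nrm (FF G H r s L t) ≤ ∑ _i : Fin 3, ∑ _j : Fin 3, (7 * (L : ℤ)) :=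
        Finset.sum_le_sum fun i _ => Finset.sum_le_sum fun j _ => hbn i j
      have h2 : (∑ _i : Fin 3, ∑ _j : Fin 3, (7 * (L : ℤ))) = 63 * L := by
        simp
        ring
      rw [h2] at h1
      exact h1.trans (by exact_mod_cast hL)
    · have hlt := (abs_le.1 hab).2
      have ha : (∑ l, pz G H r s L t l * G l 0) < pe L t := by
        have h3 : pe L t = L + 1 + t.1 := rfl
        rw [h3]
        have : (0 : ℤ) ≤ t.1 := by positivity
        linarith
      have hb3 : pe L t < pb L t := by simp only [pe, pb]; omega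
      obtain ⟨V, hV⟩ := hE (FF G H r s L t) (∑ l, pz G H r s L t l * G l 0) (pe L t) (pb L t)
        ha hb3 (by rw [FF, det_sub G H hHG]; ring) (by rw [FF, det_sub G H hHG]; ring)
        (by rw [FF, det_sub G H hHG]; ring)
      exact ⟨V, _, hV⟩

end b3x

/-- B3: many matrices preserve a given flag. -/
theorem p_B3 (hE : tEXI) (hB : tBAS) : tB3 := by
  refine ⟨1 / (432 * 126 ^ 6), 1 / 378, 126, by positivity, by positivity, ?_⟩
  intro m hm p q hF h1 h2
  obtain ⟨r, hrs, hr⟩ := b3x.sn_attained p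
  obtain ⟨s, hss, hs⟩ := b3x.sn_attained q
  have hr0 := b3x.prim_ne p hF.1 r hr
  have hs0 := b3x.prim_ne q hF.2.1 s hs
  obtain ⟨γ, hp, hq, hA⟩ := hB p q hF
  obtain ⟨n, hn⟩ := Int.eq_ofNat_of_zero_le hr0.le
  obtain ⟨N, hN⟩ := Int.eq_ofNat_of_zero_le hs0.le
  have hn0 : 0 < n := by omega
  have hN0 : 0 < N := by omega
  rw [hrs, hn] at h1 h2
  rw [hss, hN] at h2
  rw [hrs, hss, hn, hN]
  push_cast at h1 h2 ⊢
  have hnR : (1 : ℝ) ≤ n := by exact_mod_cast hn0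
  have hNR : (1 : ℝ) ≤ N := by exact_mod_cast hN0
  have hm' : 126 ≤ m := by exact_mod_cast hm
  obtain ⟨L, hL⟩ : ∃ L, L = m / 63 := ⟨_, rfl⟩
  obtain ⟨K, hK⟩ : ∃ K, K = L / (3 * n) := ⟨_, rfl⟩
  obtain ⟨J, hJ⟩ : ∃ J, J = L * n / (N * N) := ⟨_, rfl⟩
  have hL1 : 63 * L ≤ m := by omega
  have hL2 : m ≤ 126 * L := by omega
  have hL2R : (m : ℝ) ≤ 126 * L := by exact_mod_cast hL2
  have h3n : 3 * n ≤ L := by
    have : (3 * n : ℝ) ≤ L := by linarith
    exact_mod_cast this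
  have hNN : N * N ≤ L * n := by
    have : (N * N : ℝ) ≤ L * n := by nlinarith
    exact_mod_cast this
  have hK0 : 0 < K := by rw [hK]; exact Nat.div_pos h3n (by omega)
  have hJ0 : 0 < J := by rw [hJ]; exact Nat.div_pos hNN (by positivity)
  have hK1 : 3 * n * K ≤ L := by rw [hK]; exact Nat.mul_div_le _ _
  have hJ1 : N * N * J ≤ L * n := by rw [hJ]; exact Nat.mul_div_le _ _
  have hK2 : L ≤ 6 * n * K := by
    have h := Nat.lt_mul_div_succ L (show 0 < 3 * n by omega)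
    rw [← hK] at h
    nlinarith
  have hJ2 : L * n ≤ 2 * (N * N) * J := by
    have h := Nat.lt_mul_div_succ (L * n) (show 0 < N * N by positivity)
    rw [← hJ] at h
    nlinarith
  obtain ⟨S, hS1, hS2⟩ := b3x.main hE p q γ hp hq hA r s hr hs hr0 hs0 m L K J hL1
    (by rw [hn]; have : ((3 * n * K : ℕ) : ℤ) ≤ L := by exact_mod_cast hK1
        push_cast at this; linarith)
    (by rw [hn, hN]; have : ((N * N * J : ℕ) : ℤ) ≤ (L * n : ℕ) := by exact_mod_cast hJ1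
        push_cast at this ⊢; linarith)
  refine ⟨S, ?_, hS2⟩
  rw [hS1]
  push_cast
  have hK2R : (L : ℝ) ≤ 6 * n * K := by exact_mod_cast hK2
  have hJ2R : (L * n : ℝ) ≤ 2 * (N * N) * J := by exact_mod_cast hJ2
  have hc1 : ((m : ℝ) / 126) ^ 6 ≤ (L : ℝ) ^ 6 := by
    apply pow_le_pow_left₀ (by positivity)
    linarith
  have hc2 : (L : ℝ) ^ 3 ≤ (6 * n * K) ^ 3 := pow_le_pow_left₀ (by positivity) hK2R 3
  have hc3 : (L : ℝ) ^ 6 ≤ 432 * (n * N) ^ 2 * (L * (L * (J * K ^ 3))) := by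
    have h4 : (L : ℝ) * n * L ^ 3 ≤ (2 * (N * N) * J) * (6 * n * K) ^ 3 :=
      mul_le_mul hJ2R hc2 (by positivity) (by positivity)
    have h5 : (L : ℝ) ^ 2 * (L * n * L ^ 3) ≤
        (L : ℝ) ^ 2 * ((2 * (N * N) * J) * (6 * n * K) ^ 3) :=
      mul_le_mul_of_nonneg_left h4 (by positivity)
    have h6 : (n : ℝ) * (L : ℝ) ^ 6 ≤ n * (432 * (n * N) ^ 2 * (L * (L * (J * K ^ 3)))) := by
      calc (n : ℝ) * (L : ℝ) ^ 6 = (L : ℝ) ^ 2 * (L * n * L ^ 3) := by ring
        _ ≤ (L : ℝ) ^ 2 * ((2 * (N * N) * J) * (6 * n * K) ^ 3) := h5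
        _ = n * (432 * (n * N) ^ 2 * (L * (L * (J * K ^ 3)))) := by ring
    exact le_of_mul_le_mul_left h6 (by positivity)
  rw [div_le_iff₀ (by positivity)]
  calc 1 / (432 * 126 ^ 6) * (m : ℝ) ^ 6 = ((m : ℝ) / 126) ^ 6 / 432 := by ring
    _ ≤ (L : ℝ) ^ 6 / 432 := by gcongr
    _ ≤ (432 * (n * N) ^ 2 * (L * (L * (J * K ^ 3)))) / 432 := by gcongr
    _ = (L : ℝ) * (L * (J * K ^ 3)) * (n * N) ^ 2 := by ring

end SAIL.A
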