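import Pool.Agent.SAIL.ARI.Targets

/-!
SAIL / ARI, target B4: lattice points of a plane in a box.
-/

namespace SAIL.A

open Matrix MeasureTheory Filter SAIL

namespace B4x

/-- Bezout for primitive vectors. -/
theorem bezout (p : Fin 3 → ℤ) (hp : prim p) :
    ∃ u : Fin 3 → ℤ, u 0 * p 0 + u 1 * p 1 + u 2 * p 2 = 1 := by
  set d1 : ℤ := (Int.gcd (p 0) (p 1) : ℤ) with hd1
  set d : ℤ := (Int.gcd d1 (p 2) : ℤ) with hd
  have e1 : d1 = p 0 * Int.gcdA (p 0) (p 1) + p 1 * Int.gcdB (p 0) (p 1) :=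
    Int.gcd_eq_gcd_ab (p 0) (p 1)
  have e2 : d = d1 * Int.gcdA d1 (p 2) + p 2 * Int.gcdB d1 (p 2) :=
    Int.gcd_eq_gcd_ab d1 (p 2)
  have hdd : ∀ i, d ∣ p i := by
    have h1 : d ∣ d1 := Int.gcd_dvd_left ..
    have h2 : d ∣ p 2 := Int.gcd_dvd_right ..
    have h3 : d1 ∣ p 0 := Int.gcd_dvd_left ..
    have h4 : d1 ∣ p 1 := Int.gcd_dvd_right ..
    intro i
    fin_cases i
    · exact h1.trans h3
    · exact h1.trans h4
    · exact h2
  have hu : IsUnit d := hp d hdd
  have hnn : 0 ≤ d := by rw [hd]; exact Int.natCast_nonneg _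
  have h1 : d = 1 := by
    rcases Int.isUnit_iff.1 hu with h | h
    · exact h
    · omega
  refine ⟨![Int.gcdA (p 0) (p 1) * Int.gcdA d1 (p 2), Int.gcdB (p 0) (p 1) * Int.gcdA d1 (p 2),
    Int.gcdB d1 (p 2)], ?_⟩
  simp only [Matrix.cons_val_zero, Matrix.cons_val_one, Matrix.cons_val]
  rw [h1] at e2
  linear_combination (-1 : ℤ) * e2 - (Int.gcdA d1 (p 2)) * e1

/-- An index where the sup norm is attained. -/
theorem exists_max (p : Fin 3 → ℤ) : ∃ k, sn p = ((p k).natAbs : ℝ) := by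
  obtain ⟨k, hk⟩ := Finite.exists_max (fun i => |(p i : ℝ)|)
  refine ⟨k, ?_⟩
  have h : ((p k).natAbs : ℝ) = |(p k : ℝ)| := by
    rw [Nat.cast_natAbs, Int.cast_abs]
  rw [h]
  apply le_antisymm
  · exact (pi_norm_le_iff_of_nonneg (abs_nonneg _)).2 fun i => by
      rw [Real.norm_eq_abs]; exact hk i
  · have := norm_le_pi_norm (fun i => (p i : ℝ)) k
    simpa [Real.norm_eq_abs, sn] using this

theorem dot_cyc (k : Fin 3) (p q : Fin 3 → ℤ) :
    p ⬝ᵥ q = p k * q k + p (k + 1) * q (k + 1) + p (k + 2) * q (k + 2) := by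
  fin_cases k <;> simp [dotProduct, Fin.sum_univ_three] <;> ring

theorem bez_cyc (k : Fin 3) (p : Fin 3 → ℤ) (hp : prim p) :
    ∃ u : Fin 3 → ℤ, u k * p k + u (k + 1) * p (k + 1) + u (k + 2) * p (k + 2) = 1 := by
  obtain ⟨u, hu⟩ := bezout p hp
  refine ⟨u, ?_⟩
  have h := dot_cyc k u p
  have h' := dot_cyc 0 u p
  rw [h] at h'
  rw [h']
  simpa using hu

/-- The solutions of a linear congruence in two unknowns. -/
theorem card_ker (n : ℕ) [NeZero n] (a b u v : ZMod n) (h : u * a + v * b = 1) :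
    ((Finset.univ : Finset (ZMod n × ZMod n)).filter fun x => a * x.1 + b * x.2 = 0).card ≤ n := by
  set F := (Finset.univ : Finset (ZMod n × ZMod n)).filter fun x => a * x.1 + b * x.2 = 0 with hF
  have h1 : (F ×ˢ (Finset.univ : Finset (ZMod n))).card ≤
      (Finset.univ : Finset (ZMod n × ZMod n)).card := by
    apply Finset.card_le_card_of_injOn
      (fun x : (ZMod n × ZMod n) × ZMod n => (x.1.1 + x.2 * u, x.1.2 + x.2 * v))
    · intro x _; exact Finset.mem_coe.2 (Finset.mem_univ _)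
    · rintro ⟨⟨x1, x2⟩, c⟩ hx ⟨⟨y1, y2⟩, e⟩ hy hxy
      simp only [Finset.coe_product, Set.mem_prod, Finset.mem_coe, hF, Finset.mem_filter,
        Finset.mem_univ, true_and, and_true] at hx hy
      simp only [Prod.mk.injEq] at hxy
      obtain ⟨h1, h2⟩ := hxy
      have hc : c = a * (x1 + c * u) + b * (x2 + c * v) := by
        calc c = c * (u * a + v * b) := by rw [h, mul_one]
          _ = (a * x1 + b * x2) + c * (u * a + v * b) := by rw [hx, zero_add]
          _ = _ := by ring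
      have he : e = a * (y1 + e * u) + b * (y2 + e * v) := by
        calc e = e * (u * a + v * b) := by rw [h, mul_one]
          _ = (a * y1 + b * y2) + e * (u * a + v * b) := by rw [hy, zero_add]
          _ = _ := by ring
      have hce : c = e := by rw [hc, he, h1, h2]
      subst hce
      simp only [add_left_inj] at h1 h2
      rw [h1, h2]
  rw [Finset.card_product, Finset.card_univ, Finset.card_univ, Fintype.card_prod, ZMod.card] at h1
  have hn : 0 < n := Nat.pos_of_ne_zero (NeZero.ne n)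
  exact Nat.le_of_mul_le_mul_right h1 hn

/-- Integers in a real interval. -/
theorem card_Icc_le (x y : ℝ) (h : 0 ≤ y - x + 1) :
    ((Finset.Icc ⌈x⌉ ⌊y⌋).card : ℝ) ≤ y - x + 1 := by
  rw [Int.card_Icc]
  have h1 : (((⌊y⌋ + 1 - ⌈x⌉).toNat : ℤ) : ℝ) ≤ max (y - x + 1) 0 := by
    rw [Int.toNat_eq_max]
    push_cast
    apply max_le_max _ le_rfl
    have := Int.floor_le y
    have := Int.le_ceil x
    linarith
  rw [max_eq_left h] at h1
  exact_mod_cast h1

theorem block (n : ℕ) (hn : 0 < n) (z : ℤ) (Q r : ℝ) (h : |(z : ℝ) - Q| ≤ r) :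
    z / (n : ℤ) ∈ Finset.Icc ⌈(Q - r) / n - 1⌉ ⌊(Q + r) / n⌋ := by
  have hn' : (0 : ℝ) < n := by exact_mod_cast hn
  have hn'' : (0 : ℤ) < n := by exact_mod_cast hn
  rw [abs_le] at h
  have h1 := Int.ediv_mul_le z (ne_of_gt hn'')
  have h2 := Int.lt_ediv_add_one_mul_self z hn''
  have h1' : ((z / (n : ℤ) : ℤ) : ℝ) * n ≤ z := by exact_mod_cast h1
  have h2' : (z : ℝ) < (((z / (n : ℤ) : ℤ) : ℝ) + 1) * n := by exact_mod_cast h2
  rw [Finset.mem_Icc]
  constructor
  · rw [Int.ceil_le]
    rw [sub_le_iff_le_add, div_le_iff₀ hn']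
    linarith
  · rw [Int.le_floor, le_div_iff₀ hn']
    linarith

end B4x

open B4x in
theorem p_B4 : tB4 := by
  refine ⟨16, by norm_num, ?_⟩
  intro p hp Q r hr S hS
  obtain ⟨k, hk⟩ := exists_max p
  set n : ℕ := (p k).natAbs with hn
  have hnpos : 0 < n := by
    rcases Nat.eq_zero_or_pos n with h | h
    · exfalso
      have h0 : sn p = 0 := by rw [hk, h]; simp
      have hp0 : ∀ i, p i = 0 := by
        intro i
        have h1 := norm_le_pi_norm (fun i => (p i : ℝ)) i
        have h2 : ‖(fun i => (p i : ℝ) : Fin 3 → ℝ)‖ = 0 := h0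
        rw [h2] at h1
        have h3 : (p i : ℝ) = 0 := norm_le_zero_iff.1 h1
        exact_mod_cast h3
      have := hp 0 (fun i => by rw [hp0 i])
      exact not_isUnit_zero this
    · exact h
  have : NeZero n := ⟨hnpos.ne'⟩
  have hnR : (0 : ℝ) < n := by exact_mod_cast hnpos
  have hpk : p k ≠ 0 := by
    intro h; rw [hn, h] at hnpos; simp at hnpos
  have hpk0 : ((p k : ℤ) : ZMod n) = 0 := by
    rw [ZMod.intCast_zmod_eq_zero_iff_dvd] 
    exact Int.natAbs_dvd.2 (dvd_refl _)
  obtain ⟨u, hu⟩ := bez_cyc k p hp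
  have hu' : (u (k + 1) : ZMod n) * (p (k + 1) : ZMod n) +
      (u (k + 2) : ZMod n) * (p (k + 2) : ZMod n) = 1 := by
    have := congrArg (fun z : ℤ => (z : ZMod n)) hu
    simp only [Int.cast_add, Int.cast_mul, Int.cast_one, hpk0, mul_zero, zero_add] at this
    exact this
  set F := (Finset.univ : Finset (ZMod n × ZMod n)).filter
    fun x => (p (k + 1) : ZMod n) * x.1 + (p (k + 2) : ZMod n) * x.2 = 0 with hF
  have hFc : F.card ≤ n := card_ker n _ _ _ _ hu'
  set I1 := Finset.Icc ⌈(Q (k + 1) - r) / n - 1⌉ ⌊(Q (k + 1) + r) / n⌋ with hI1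
  set I2 := Finset.Icc ⌈(Q (k + 2) - r) / n - 1⌉ ⌊(Q (k + 2) + r) / n⌋ with hI2
  have hrn : 1 ≤ r / n := by
    rw [le_div_iff₀ hnR, one_mul]; rw [← hk]; exact hr
  have hI1c : (I1.card : ℝ) ≤ 4 * (r / n) := by
    have h := card_Icc_le ((Q (k + 1) - r) / n - 1) ((Q (k + 1) + r) / n)
      (by rw [sub_div, add_div]; linarith)
    refine h.trans ?_
    rw [sub_div, add_div]; linarith
  have hI2c : (I2.card : ℝ) ≤ 4 * (r / n) := by
    have h := card_Icc_le ((Q (k + 2) - r) / n - 1) ((Q (k + 2) + r) / n)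
      (by rw [sub_div, add_div]; linarith)
    refine h.trans ?_
    rw [sub_div, add_div]; linarith
  have key : S.card ≤ ((I1 ×ˢ I2) ×ˢ F).card := by
    apply Finset.card_le_card_of_injOn (fun q : Fin 3 → ℤ =>
      ((q (k + 1) / (n : ℤ), q (k + 2) / (n : ℤ)),
        ((q (k + 1) : ZMod n), (q (k + 2) : ZMod n))))
    · intro q hq
      obtain ⟨hq0, hq1⟩ := hS q hq
      simp only [Finset.coe_product, Set.mem_prod, Finset.mem_coe]
      refine ⟨⟨block n hnpos _ _ _ (hq1 _), block n hnpos _ _ _ (hq1 _)⟩, ?_⟩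
      rw [hF, Finset.mem_filter]
      refine ⟨Finset.mem_univ _, ?_⟩
      have h := congrArg (fun z : ℤ => (z : ZMod n)) (hq0.symm.trans (dot_cyc k p q))
      simp only [Int.cast_add, Int.cast_mul, Int.cast_zero, hpk0, zero_mul, zero_add] at h
      exact h.symm
    · intro q hq q' hq' h
      simp only [Prod.mk.injEq] at h
      obtain ⟨⟨h1, h2⟩, h3, h4⟩ := h
      have g1 : q (k + 1) = q' (k + 1) := by
        rw [ZMod.intCast_eq_intCast_iff_dvd_sub] at h3
        obtain ⟨c, hc⟩ := h3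
        have a1 := Int.emod_add_mul_ediv (q (k + 1)) n
        have a2 := Int.emod_add_mul_ediv (q' (k + 1)) n
        have a3 : q (k + 1) % n = q' (k + 1) % n := by
          apply Int.emod_eq_emod_iff_emod_sub_eq_zero.2
          rw [show q (k + 1) - q' (k + 1) = n * (-c) by linarith]
          simp
        rw [← a1, ← a2, a3, h1]
      have g2 : q (k + 2) = q' (k + 2) := by
        rw [ZMod.intCast_eq_intCast_iff_dvd_sub] at h4
        obtain ⟨c, hc⟩ := h4
        have a1 := Int.emod_add_mul_ediv (q (k + 2)) n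
        have a2 := Int.emod_add_mul_ediv (q' (k + 2)) n
        have a3 : q (k + 2) % n = q' (k + 2) % n := by
          apply Int.emod_eq_emod_iff_emod_sub_eq_zero.2
          rw [show q (k + 2) - q' (k + 2) = n * (-c) by linarith]
          simp
        rw [← a1, ← a2, a3, h2]
      have g0 : q k = q' k := by
        have e1 := (hS q hq).1
        have e2 := (hS q' hq').1
        rw [dot_cyc k] at e1 e2
        rw [g1, g2] at e1
        have : p k * q k = p k * q' k := by linarith
        exact mul_left_cancel₀ hpk this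
      funext i
      have hi : i = k ∨ i = k + 1 ∨ i = k + 2 := by
        have hik : ∀ i k : Fin 3, i = k ∨ i = k + 1 ∨ i = k + 2 := by decide
        exact hik i k
      rcases hi with rfl | rfl | rfl
      · exact g0
      · exact g1
      · exact g2
  have h1 : (S.card : ℝ) ≤ (I1.card : ℝ) * I2.card * F.card := by
    rw [Finset.card_product, Finset.card_product] at key
    exact_mod_cast key
  have hF' : (F.card : ℝ) ≤ n := by exact_mod_cast hFc
  calc (S.card : ℝ) ≤ (I1.card : ℝ) * I2.card * F.card := h1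
    _ ≤ (4 * (r / n)) * (4 * (r / n)) * n := by gcongr
    _ = 16 * r ^ 2 / sn p := by rw [hk]; field_simp; ring

end SAIL.A
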