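import Pool.Agent.SAIL.ARI.P_B7

/-!
SAIL / ARI: B5, sum over flags with small first vector.
-/

namespace SAIL.A

open Matrix MeasureTheory Filter SAIL

open b7x in
theorem p_B5 (_hB4 : tB4) (hS1 : tS1) (hS2 : tS2) : tB5 := by
  classical
  obtain ⟨C1, hC1, h1⟩ := hS1
  obtain ⟨C2, hC2, h2⟩ := hS2
  refine ⟨2 * (C1 * C2), by positivity, ?_⟩
  intro X Y hY hYX S hS
  have hX : 1 ≤ X := hY.trans hYX
  have hlY : 0 ≤ Real.log Y := Real.log_nonneg hY
  have hlX : 0 ≤ Real.log X := Real.log_nonneg hX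
  have hlYX : Real.log Y ≤ Real.log X := Real.log_le_log (by linarith) hYX
  rw [← Finset.sum_filter_add_sum_filter_not S (fun F => sn F.1 ≤ sn F.2)]
  have ha : ∑ F ∈ S.filter (fun F => sn F.1 ≤ sn F.2), wt F ≤
      (C1 * (1 + Real.log X)) * (C2 * (1 + Real.log Y)) := by
    refine flagsum2 h2 _ hY (by positivity) ?_ ?_ ?_
    · intro F hF; exact (hS F (Finset.mem_filter.1 hF).1).1
    · intro F hF; exact (hS F (Finset.mem_filter.1 hF).1).2.1
    · intro p hp T hT
      obtain ⟨F, hF, rfl⟩ := Finset.mem_image.1 hp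
      have hpp := (hS F (Finset.mem_filter.1 hF).1).1.1
      have := h1 F.1 hpp X hX T (fun q hq => by
        obtain ⟨hq1, hq2⟩ := Finset.mem_filter.1 (hT q hq)
        exact ⟨(hS _ hq1).1.2.2, hq2, (hS _ hq1).2.2⟩)
      exact this
  have hb : ∑ F ∈ S.filter (fun F => ¬ sn F.1 ≤ sn F.2), wt F ≤
      (C1 * (1 + Real.log Y)) * (C2 * (1 + Real.log Y)) := by
    rw [wt_swap]
    refine flagsum2 h2 _ hY (by positivity) ?_ ?_ ?_
    · intro F hF
      obtain ⟨G, hG, rfl⟩ := Finset.mem_image.1 hF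
      exact flag_swap (hS G (Finset.mem_filter.1 hG).1).1
    · intro F hF
      obtain ⟨G, hG, rfl⟩ := Finset.mem_image.1 hF
      obtain ⟨hG1, hG2⟩ := Finset.mem_filter.1 hG
      exact (not_le.1 hG2).le.trans (hS G hG1).2.1
    · intro p hp T hT
      obtain ⟨F, hF, rfl⟩ := Finset.mem_image.1 hp
      obtain ⟨G, hG, rfl⟩ := Finset.mem_image.1 hF
      obtain ⟨hG1, hG2⟩ := Finset.mem_filter.1 hG
      have hpp := (hS G hG1).1.2.1
      have := h1 G.2 hpp Y hY T (fun q hq => by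
        obtain ⟨H, hH, hHe⟩ := Finset.mem_image.1 (hT q hq)
        obtain ⟨hH1, hH2⟩ := Finset.mem_filter.1 hH
        have e1 : H.2 = G.2 := by simpa using congrArg Prod.fst hHe
        have e2 : H.1 = q := by simpa using congrArg Prod.snd hHe
        have h3 := hS H hH1
        rw [e1, e2] at h3
        rw [e1, e2] at hH2
        exact ⟨by rw [dotProduct_comm]; exact h3.1.2.2, (not_le.1 hH2).le, h3.2.1⟩)
      exact this
  have h3 : (C1 * (1 + Real.log Y)) * (C2 * (1 + Real.log Y)) ≤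
      (C1 * (1 + Real.log X)) * (C2 * (1 + Real.log Y)) := by gcongr
  calc _ ≤ (C1 * (1 + Real.log X)) * (C2 * (1 + Real.log Y)) +
      (C1 * (1 + Real.log X)) * (C2 * (1 + Real.log Y)) := add_le_add ha (hb.trans h3)
    _ = 2 * (C1 * C2) * (1 + Real.log Y) * (1 + Real.log X) := by ring

end SAIL.A
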