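import Pool.Agent.SAIL.ARI.Targets

/-!
SAIL / ARI B6: sum over flags with one more factor `|p|`.
-/

namespace SAIL.A

open Matrix MeasureTheory Filter SAIL

namespace B6x

lemma fib {α β : Type} [DecidableEq α] [DecidableEq β] (S : Finset (α × β)) (f h : α → ℝ)
    (g : β → ℝ) (hf : ∀ F ∈ S, 0 ≤ f F.1)
    (hg : ∀ p ∈ S.image Prod.fst, ∑ q ∈ (S.filter fun F => F.1 = p).image Prod.snd, g q ≤ h p) :
    ∑ F ∈ S, f F.1 * g F.2 ≤ ∑ p ∈ S.image Prod.fst, f p * h p := by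
  rw [← Finset.sum_fiberwise_of_maps_to (s := S) (t := S.image Prod.fst) (g := Prod.fst)
    (fun F hF => Finset.mem_image_of_mem _ hF)]
  refine Finset.sum_le_sum fun p hp => ?_
  have h1 : ∑ F ∈ S.filter (fun F => F.1 = p), f F.1 * g F.2 =
      f p * ∑ q ∈ (S.filter fun F => F.1 = p).image Prod.snd, g q := by
    rw [Finset.sum_image, Finset.mul_sum]
    · refine Finset.sum_congr rfl fun F hF => ?_
      rw [(Finset.mem_filter.mp hF).2]
    · intro F hF G hG hFG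
      have h1 := (Finset.mem_filter.mp hF).2
      have h2 := (Finset.mem_filter.mp hG).2
      exact Prod.ext (h1.trans h2.symm) hFG
  rw [h1]
  obtain ⟨F, hF, rfl⟩ := Finset.mem_image.mp hp
  exact mul_le_mul_of_nonneg_left (hg _ hp) (hf F hF)

lemma sn_nonneg (v : Fin 3 → ℤ) : 0 ≤ sn v := norm_nonneg _

lemma abs_le_sn (v : Fin 3 → ℤ) (i : Fin 3) : |(v i : ℝ)| ≤ sn v := by
  unfold sn
  have := norm_le_pi_norm (fun i => (v i : ℝ) : Fin 3 → ℝ) i
  simpa using this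

lemma one_le_sn {v : Fin 3 → ℤ} (hv : prim v) : 1 ≤ sn v := by
  by_contra hlt
  push Not at hlt
  have h0 : ∀ i, v i = 0 := by
    intro i
    have h1 := (abs_le_sn v i).trans_lt hlt
    have h2 : |v i| < 1 := by exact_mod_cast h1
    exact Int.abs_lt_one_iff.mp h2
  have h2 := hv 2 (fun i => by rw [h0 i]; exact dvd_zero _)
  rw [Int.isUnit_iff] at h2
  omega

/-- Dyadic summation in a plane: `∑ 1/|p| ≤ C X/|q|`. -/
lemma dyad {CB : ℝ} (hCB : 0 < CB)
    (hB : ∀ p, prim p → ∀ (Q : Fin 3 → ℝ) (r : ℝ), sn p ≤ r →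
      ∀ S : Finset (Fin 3 → ℤ), (∀ q ∈ S, p ⬝ᵥ q = 0 ∧ ∀ i, |(q i : ℝ) - Q i| ≤ r) →
      (S.card : ℝ) ≤ CB * r ^ 2 / sn p)
    {q : Fin 3 → ℤ} (hq : prim q) {X : ℝ} (hX : 1 ≤ X) (T : Finset (Fin 3 → ℤ))
    (hT : ∀ p ∈ T, q ⬝ᵥ p = 0 ∧ sn q ≤ sn p ∧ sn p ≤ X) :
    ∑ p ∈ T, 1 / sn p ≤ 8 * CB * X / sn q := by
  classical
  have hN : 1 ≤ sn q := one_le_sn hq
  have hN0 : 0 < sn q := by linarith
  set J : ℕ := ⌊Real.logb 2 X⌋₊ with hJ
  have h12 : (1 : ℝ) < 2 := by norm_num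
  have hmaps : ∀ p ∈ T, ⌊Real.logb 2 (sn p)⌋₊ ∈ Finset.range (J + 1) := by
    intro p hp
    rw [Finset.mem_range, Nat.lt_succ_iff, hJ]
    refine Nat.floor_le_floor ?_
    exact Real.logb_le_logb_of_le h12 (by linarith [(hT p hp).2.1]) (hT p hp).2.2
  have h2J : (2 : ℝ) ^ J ≤ X := by
    have hnn : 0 ≤ Real.logb 2 X := Real.logb_nonneg h12 hX
    have hfl := Nat.floor_le hnn
    rw [← hJ] at hfl
    have := (Real.le_logb_iff_rpow_le h12 (by linarith)).mp hfl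
    rwa [Real.rpow_natCast] at this
  rw [← Finset.sum_fiberwise_of_maps_to hmaps]
  have hfib : ∀ j ∈ Finset.range (J + 1),
      ∑ p ∈ T with ⌊Real.logb 2 (sn p)⌋₊ = j, 1 / sn p ≤ (4 * CB / sn q) * 2 ^ j := by
    intro j _
    set U := T.filter (fun p => ⌊Real.logb 2 (sn p)⌋₊ = j) with hU
    have hUm : ∀ p ∈ U, q ⬝ᵥ p = 0 ∧ sn q ≤ sn p ∧ (2 : ℝ) ^ j ≤ sn p ∧ sn p ≤ 2 * 2 ^ j := by
      intro p hp
      rw [hU, Finset.mem_filter] at hp
      obtain ⟨hpT, hpj⟩ := hp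
      obtain ⟨h1, h2, h3⟩ := hT p hpT
      have hp1 : 1 ≤ sn p := by linarith
      have hp0 : 0 < sn p := by linarith
      have hnn : 0 ≤ Real.logb 2 (sn p) := Real.logb_nonneg h12 hp1
      have hfl := Nat.floor_le hnn
      have hlt := Nat.lt_floor_add_one (Real.logb 2 (sn p))
      rw [hpj] at hfl hlt
      refine ⟨h1, h2, ?_, ?_⟩
      · have := (Real.le_logb_iff_rpow_le h12 hp0).mp hfl
        rwa [Real.rpow_natCast] at this
      · have h5 := ((Real.logb_lt_iff_lt_rpow h12 hp0).mp hlt).le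
        have h6 : ((2 : ℝ) ^ ((j : ℝ) + 1) : ℝ) = 2 * 2 ^ j := by
          rw [Real.rpow_add (by norm_num), Real.rpow_natCast, Real.rpow_one]
          ring
        rwa [h6] at h5
    have hpow : (0 : ℝ) < 2 ^ j := by positivity
    rcases U.eq_empty_or_nonempty with hE | ⟨p₀, hp₀⟩
    · rw [hE, Finset.sum_empty]
      positivity
    · have hle : sn q ≤ 2 * 2 ^ j := by
        obtain ⟨-, h2, -, h4⟩ := hUm p₀ hp₀
        linarith
      have hcard : (U.card : ℝ) ≤ CB * (2 * 2 ^ j) ^ 2 / sn q := by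
        refine hB q hq (fun _ => 0) (2 * 2 ^ j) hle U (fun p hp => ?_)
        obtain ⟨h1, h2, h3, h4⟩ := hUm p hp
        refine ⟨h1, fun i => ?_⟩
        rw [sub_zero]
        exact (abs_le_sn p i).trans h4
      have hterm : ∀ p ∈ U, 1 / sn p ≤ 1 / 2 ^ j := by
        intro p hp
        exact one_div_le_one_div_of_le hpow (hUm p hp).2.2.1
      calc ∑ p ∈ U, 1 / sn p ≤ U.card • (1 / (2 : ℝ) ^ j) := Finset.sum_le_card_nsmul _ _ _ hterm
        _ = (U.card : ℝ) * (1 / 2 ^ j) := by rw [nsmul_eq_mul]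
        _ ≤ (CB * (2 * 2 ^ j) ^ 2 / sn q) * (1 / 2 ^ j) :=
            mul_le_mul_of_nonneg_right hcard (by positivity)
        _ = (4 * CB / sn q) * 2 ^ j := by
            field_simp
            ring
  refine (Finset.sum_le_sum hfib).trans ?_
  rw [← Finset.mul_sum]
  have hgeo : ∑ j ∈ Finset.range (J + 1), (2 : ℝ) ^ j ≤ 2 * X := by
    rw [geom_sum_eq (by norm_num), pow_succ]
    have : (2 : ℝ) - 1 = 1 := by norm_num
    rw [this, div_one]
    linarith
  calc (4 * CB / sn q) * ∑ j ∈ Finset.range (J + 1), (2 : ℝ) ^ j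
      ≤ (4 * CB / sn q) * (2 * X) := mul_le_mul_of_nonneg_left hgeo (by positivity)
    _ = 8 * CB * X / sn q := by ring

end B6x

open B6x in
/-- B6. Sum over flags with one more factor `|p|`. -/
theorem p_B6 (hB4 : tB4) (hS1 : tS1) (hS2 : tS2) : tB6 := by
  classical
  obtain ⟨CB, hCB, hB⟩ := hB4
  obtain ⟨C1, hC1, h1⟩ := hS1
  obtain ⟨C2, hC2, h2⟩ := hS2
  refine ⟨C1 * C2 + 8 * CB * C2, by positivity, ?_⟩
  intro X hX S hS
  have hlog : 0 ≤ Real.log X := Real.log_nonneg hX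
  have hX0 : 0 < X := by linarith
  set A := S.filter fun F => sn F.1 ≤ sn F.2 with hA
  set B := S.filter fun F => ¬ (sn F.1 ≤ sn F.2) with hBd
  have hsplit : ∑ F ∈ S, sn F.1 * wt F = ∑ F ∈ A, sn F.1 * wt F + ∑ F ∈ B, sn F.1 * wt F := by
    rw [hA, hBd, Finset.sum_filter_add_sum_filter_not]
  have hwt : ∀ F ∈ S, sn F.1 * wt F = 1 / sn F.1 * (1 / sn F.2 ^ 2) := by
    intro F hF
    have hp := one_le_sn (hS F hF).1.1
    have hq := one_le_sn (hS F hF).1.2.1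
    have hp0 : sn F.1 ≠ 0 := by positivity
    have hq0 : sn F.2 ≠ 0 := by positivity
    unfold wt
    field_simp
  have hbA : ∑ F ∈ A, sn F.1 * wt F ≤ C1 * C2 * X * (1 + Real.log X) := by
    have e1 : ∑ F ∈ A, sn F.1 * wt F = ∑ F ∈ A, (fun p : Fin 3 → ℤ => 1 / sn p) F.1 *
        (fun q : Fin 3 → ℤ => 1 / sn q ^ 2) F.2 :=
      Finset.sum_congr rfl fun F hF => hwt F (Finset.mem_filter.mp hF).1
    rw [e1]
    refine (fib A (fun p : Fin 3 → ℤ => 1 / sn p) (fun p => C1 * (1 + Real.log X) / sn p)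
      (fun q : Fin 3 → ℤ => 1 / sn q ^ 2)
      (fun F _ => div_nonneg zero_le_one (sn_nonneg _)) ?_).trans ?_
    · intro p hp
      obtain ⟨F, hF, rfl⟩ := Finset.mem_image.mp hp
      have hFS := (Finset.mem_filter.mp hF).1
      refine h1 F.1 (hS F hFS).1.1 X hX _ ?_
      intro q hq
      obtain ⟨G, hG, rfl⟩ := Finset.mem_image.mp hq
      obtain ⟨hG1, hG2⟩ := Finset.mem_filter.mp hG
      obtain ⟨hG3, hG4⟩ := Finset.mem_filter.mp hG1
      obtain ⟨g1, g2, g3⟩ := hS G hG3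
      rw [← hG2]
      exact ⟨g1.2.2, hG4, g3⟩
    · have e2 : ∑ p ∈ A.image Prod.fst, 1 / sn p * (C1 * (1 + Real.log X) / sn p) =
          C1 * (1 + Real.log X) * ∑ p ∈ A.image Prod.fst, 1 / sn p ^ 2 := by
        rw [Finset.mul_sum]
        refine Finset.sum_congr rfl fun p hp => ?_
        obtain ⟨F, hF, rfl⟩ := Finset.mem_image.mp hp
        have := one_le_sn (hS F (Finset.mem_filter.mp hF).1).1.1
        have h0 : sn F.1 ≠ 0 := by positivity
        field_simp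
      rw [e2]
      have h3 := (h2 X hX (A.image Prod.fst) (by
        intro p hp
        obtain ⟨F, hF, rfl⟩ := Finset.mem_image.mp hp
        obtain ⟨g1, g2, g3⟩ := hS F (Finset.mem_filter.mp hF).1
        exact ⟨one_le_sn g1.1, g2⟩)).2
      calc C1 * (1 + Real.log X) * ∑ p ∈ A.image Prod.fst, 1 / sn p ^ 2
          ≤ C1 * (1 + Real.log X) * (C2 * X) := mul_le_mul_of_nonneg_left h3 (by positivity)
        _ = C1 * C2 * X * (1 + Real.log X) := by ring
  have hbB : ∑ F ∈ B, sn F.1 * wt F ≤ 8 * CB * C2 * X * (1 + Real.log X) := by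
    have e1 : ∑ F ∈ B, sn F.1 * wt F = ∑ F ∈ B.image Prod.swap,
        (fun q : Fin 3 → ℤ => 1 / sn q ^ 2) F.1 * (fun p : Fin 3 → ℤ => 1 / sn p) F.2 := by
      rw [Finset.sum_image (fun F _ G _ h => Prod.swap_injective h)]
      refine Finset.sum_congr rfl fun F hF => ?_
      rw [hwt F (Finset.mem_filter.mp hF).1]
      simp only [Prod.fst_swap, Prod.snd_swap]
      rw [mul_comm]
    rw [e1]
    have hBm : ∀ F ∈ B.image Prod.swap, Flag F.2 F.1 ∧ sn F.2 ≤ X ∧ sn F.1 ≤ X ∧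
        sn F.1 ≤ sn F.2 := by
      intro F hF
      obtain ⟨G, hG, rfl⟩ := Finset.mem_image.mp hF
      obtain ⟨hG1, hG2⟩ := Finset.mem_filter.mp hG
      obtain ⟨g1, g2, g3⟩ := hS G hG1
      simp only [Prod.fst_swap, Prod.snd_swap]
      exact ⟨g1, g2, g3, (not_le.mp hG2).le⟩
    refine (fib (B.image Prod.swap) (fun q : Fin 3 → ℤ => 1 / sn q ^ 2)
      (fun q => 8 * CB * X / sn q) (fun p : Fin 3 → ℤ => 1 / sn p)
      (fun F _ => by positivity) ?_).trans ?_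
    · intro q hq
      obtain ⟨F, hF, rfl⟩ := Finset.mem_image.mp hq
      obtain ⟨f1, f2, f3, f4⟩ := hBm F hF
      refine dyad hCB hB f1.2.1 hX _ ?_
      intro p hp
      obtain ⟨G, hG, rfl⟩ := Finset.mem_image.mp hp
      obtain ⟨hG1, hG2⟩ := Finset.mem_filter.mp hG
      obtain ⟨g1, g2, g3, g4⟩ := hBm G hG1
      rw [← hG2]
      refine ⟨?_, g4, g2⟩
      rw [dotProduct_comm]
      exact g1.2.2
    · have e2 : ∑ q ∈ (B.image Prod.swap).image Prod.fst, 1 / sn q ^ 2 * (8 * CB * X / sn q) =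
          8 * CB * X * ∑ q ∈ (B.image Prod.swap).image Prod.fst, 1 / sn q ^ 3 := by
        rw [Finset.mul_sum]
        refine Finset.sum_congr rfl fun q hq => ?_
        obtain ⟨F, hF, rfl⟩ := Finset.mem_image.mp hq
        have := one_le_sn (hBm F hF).1.2.1
        have h0 : sn F.1 ≠ 0 := by positivity
        field_simp
      rw [e2]
      have h3 := (h2 X hX ((B.image Prod.swap).image Prod.fst) (by
        intro q hq
        obtain ⟨F, hF, rfl⟩ := Finset.mem_image.mp hq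
        obtain ⟨g1, g2, g3, g4⟩ := hBm F hF
        exact ⟨one_le_sn g1.2.1, g3⟩)).1
      calc 8 * CB * X * ∑ q ∈ (B.image Prod.swap).image Prod.fst, 1 / sn q ^ 3
          ≤ 8 * CB * X * (C2 * (1 + Real.log X)) :=
            mul_le_mul_of_nonneg_left h3 (by positivity)
        _ = 8 * CB * C2 * X * (1 + Real.log X) := by ring
  rw [hsplit]
  calc ∑ F ∈ A, sn F.1 * wt F + ∑ F ∈ B, sn F.1 * wt F
      ≤ C1 * C2 * X * (1 + Real.log X) + 8 * CB * C2 * X * (1 + Real.log X) :=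
        add_le_add hbA hbB
    _ = (C1 * C2 + 8 * CB * C2) * X * (1 + Real.log X) := by ring

end SAIL.A
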