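import Pool.Agent.SAIL.ARI.Targets

/-!
SAIL / ARI: B7 (thin shells in `|p|`) and general lemmas on sums over flags.
-/

namespace SAIL.A

open Matrix MeasureTheory Filter SAIL

namespace b7x

lemma sn_nonneg (v : Fin 3 → ℤ) : 0 ≤ sn v := norm_nonneg _

lemma abs_le_sn (v : Fin 3 → ℤ) (i : Fin 3) : |(v i : ℝ)| ≤ sn v := by
  have := norm_le_pi_norm (fun i => (v i : ℝ) : Fin 3 → ℝ) i
  simpa [sn, Real.norm_eq_abs] using this

lemma sn_le_iff (v : Fin 3 → ℤ) {r : ℝ} (hr : 0 ≤ r) : sn v ≤ r ↔ ∀ i, |(v i : ℝ)| ≤ r := by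
  unfold sn
  rw [pi_norm_le_iff_of_nonneg hr]
  simp [Real.norm_eq_abs]

lemma prim_ne {v : Fin 3 → ℤ} (h : prim v) : v ≠ 0 := by
  rintro rfl
  have := h 2 (fun i => by simp)
  exact absurd this (by decide)

lemma one_le_sn {v : Fin 3 → ℤ} (h : prim v) : 1 ≤ sn v := by
  have hv := prim_ne h
  obtain ⟨i, hi⟩ := Function.ne_iff.mp hv
  have h1 : (1 : ℝ) ≤ |(v i : ℝ)| := by
    have : (1 : ℤ) ≤ |v i| := Int.one_le_abs (by simpa using hi)
    exact_mod_cast this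
  exact h1.trans (abs_le_sn v i)

lemma flag_swap {p q : Fin 3 → ℤ} (h : Flag p q) : Flag q p :=
  ⟨h.2.1, h.1, by rw [dotProduct_comm]; exact h.2.2⟩

/-- Sum over pairs, grouped by the first component. -/
lemma sum_by_fst {α β : Type*} [DecidableEq α] [DecidableEq β] (S : Finset (α × β))
    (f : α → β → ℝ) (g : α → ℝ)
    (h : ∀ p ∈ S.image Prod.fst, ∑ q ∈ (S.filter (fun F => F.1 = p)).image Prod.snd, f p q ≤ g p) :
    ∑ F ∈ S, f F.1 F.2 ≤ ∑ p ∈ S.image Prod.fst, g p := by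
  classical
  rw [← Finset.sum_fiberwise_of_maps_to (s := S) (t := S.image Prod.fst) (g := Prod.fst)
    (fun F hF => Finset.mem_image_of_mem _ hF)]
  refine Finset.sum_le_sum fun p hp => ?_
  refine le_trans (le_of_eq ?_) (h p hp)
  rw [Finset.sum_image]
  · refine Finset.sum_congr rfl fun F hF => ?_
    rw [(Finset.mem_filter.mp hF).2]
  · intro F hF G hG hFG
    have h1 := (Finset.mem_filter.mp hF).2
    have h2 := (Finset.mem_filter.mp hG).2
    exact Prod.ext (h1.trans h2.symm) hFG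

/-- One shell: sum over a plane of `1/|q|^2`. -/
lemma shell {C : ℝ} (hB4 : ∀ p, prim p → ∀ (Q : Fin 3 → ℝ) (r : ℝ), sn p ≤ r →
      ∀ S : Finset (Fin 3 → ℤ), (∀ q ∈ S, p ⬝ᵥ q = 0 ∧ ∀ i, |(q i : ℝ) - Q i| ≤ r) →
      (S.card : ℝ) ≤ C * r ^ 2 / sn p)
    {p : Fin 3 → ℤ} (hp : prim p) {b ρ : ℝ} (hb : 0 < b) (hρ : sn p ≤ ρ)
    (T : Finset (Fin 3 → ℤ)) (hT : ∀ q ∈ T, p ⬝ᵥ q = 0 ∧ b ≤ sn q ∧ sn q ≤ ρ) :
    ∑ q ∈ T, 1 / sn q ^ 2 ≤ C * ρ ^ 2 / (sn p * b ^ 2) := by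
  have h1 := hB4 p hp (fun _ => 0) ρ hρ T (fun q hq => ⟨(hT q hq).1, fun i => by
    simpa using (abs_le_sn q i).trans (hT q hq).2.2⟩)
  have h2 : ∀ q ∈ T, 1 / sn q ^ 2 ≤ 1 / b ^ 2 := fun q hq =>
    one_div_le_one_div_of_le (by positivity) (pow_le_pow_left₀ hb.le (hT q hq).2.1 2)
  calc ∑ q ∈ T, 1 / sn q ^ 2 ≤ ∑ _q ∈ T, 1 / b ^ 2 := Finset.sum_le_sum h2
    _ = T.card * (1 / b ^ 2) := by rw [Finset.sum_const, nsmul_eq_mul]
    _ ≤ (C * ρ ^ 2 / sn p) * (1 / b ^ 2) := mul_le_mul_of_nonneg_right h1 (by positivity)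
    _ = C * ρ ^ 2 / (sn p * b ^ 2) := by
      have : (0 : ℝ) < sn p := lt_of_lt_of_le one_pos (one_le_sn hp)
      field_simp

/-- Sum over flags from a bound for the sum over the plane of every `p`. -/
lemma flagsum (S : Finset ((Fin 3 → ℤ) × (Fin 3 → ℤ))) {D : ℝ} (hS : ∀ F ∈ S, Flag F.1 F.2)
    (h : ∀ p ∈ S.image Prod.fst, ∀ T : Finset (Fin 3 → ℤ), (∀ q ∈ T, (p, q) ∈ S) →
      ∑ q ∈ T, 1 / sn q ^ 2 ≤ D / sn p) :
    ∑ F ∈ S, wt F ≤ D * ∑ p ∈ S.image Prod.fst, 1 / sn p ^ 3 := by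
  classical
  have h1 := sum_by_fst S (fun p q => 1 / (sn p * sn q) ^ 2) (fun p => D * (1 / sn p ^ 3)) (by
    intro p hp
    have hpp : prim p := by
      obtain ⟨F, hF, rfl⟩ := Finset.mem_image.mp hp
      exact (hS F hF).1
    have hp0 : 0 < sn p := lt_of_lt_of_le one_pos (one_le_sn hpp)
    have h2 := h p hp ((S.filter (fun F => F.1 = p)).image Prod.snd) (by
      intro q hq
      obtain ⟨F, hF, rfl⟩ := Finset.mem_image.mp hq
      obtain ⟨hF1, hF2⟩ := Finset.mem_filter.mp hF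
      rw [← hF2]; exact hF1)
    have h3 : ∑ q ∈ (S.filter (fun F => F.1 = p)).image Prod.snd, 1 / (sn p * sn q) ^ 2 =
        (1 / sn p ^ 2) * ∑ q ∈ (S.filter (fun F => F.1 = p)).image Prod.snd, 1 / sn q ^ 2 := by
      rw [Finset.mul_sum]
      refine Finset.sum_congr rfl fun q _ => ?_
      rw [mul_pow, one_div_mul_one_div]
    rw [h3]
    calc (1 / sn p ^ 2) * ∑ q ∈ (S.filter (fun F => F.1 = p)).image Prod.snd, 1 / sn q ^ 2
        ≤ (1 / sn p ^ 2) * (D / sn p) := mul_le_mul_of_nonneg_left h2 (by positivity)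
      _ = D * (1 / sn p ^ 3) := by field_simp)
  rw [← Finset.mul_sum] at h1
  exact h1

/-- The sum of weights is symmetric. -/
lemma wt_swap (S : Finset ((Fin 3 → ℤ) × (Fin 3 → ℤ))) [DecidableEq ((Fin 3 → ℤ) × (Fin 3 → ℤ))] :
    ∑ F ∈ S, wt F = ∑ F ∈ S.image Prod.swap, wt F := by
  rw [Finset.sum_image (fun a _ b _ h => Prod.swap_injective h)]
  refine Finset.sum_congr rfl fun F _ => ?_
  unfold wt
  rw [Prod.fst_swap, Prod.snd_swap, mul_comm]

/-- Flags with a bound over the planes and `|p| ≤ X`: via S2. -/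
lemma flagsum2 {C2 : ℝ} (hS2 : ∀ Y : ℝ, 1 ≤ Y → ∀ S : Finset (Fin 3 → ℤ),
      (∀ v ∈ S, 1 ≤ sn v ∧ sn v ≤ Y) →
      ∑ v ∈ S, 1 / sn v ^ 3 ≤ C2 * (1 + Real.log Y) ∧ ∑ v ∈ S, 1 / sn v ^ 2 ≤ C2 * Y)
    (S : Finset ((Fin 3 → ℤ) × (Fin 3 → ℤ))) {D X : ℝ} (hX : 1 ≤ X) (hD : 0 ≤ D)
    (hS : ∀ F ∈ S, Flag F.1 F.2) (hSX : ∀ F ∈ S, sn F.1 ≤ X)
    (h : ∀ p ∈ S.image Prod.fst, ∀ T : Finset (Fin 3 → ℤ), (∀ q ∈ T, (p, q) ∈ S) →
      ∑ q ∈ T, 1 / sn q ^ 2 ≤ D / sn p) :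
    ∑ F ∈ S, wt F ≤ D * (C2 * (1 + Real.log X)) := by
  classical
  refine (flagsum S hS h).trans (mul_le_mul_of_nonneg_left ?_ hD)
  refine (hS2 X hX _ fun p hp => ?_).1
  obtain ⟨F, hF, rfl⟩ := Finset.mem_image.mp hp
  exact ⟨one_le_sn (hS F hF).1, hSX F hF⟩

/-- Number of integer vectors in a ball. -/
lemma card_ball {r : ℝ} (hr : 1 ≤ r) (T : Finset (Fin 3 → ℤ)) (hT : ∀ v ∈ T, sn v ≤ r) :
    (T.card : ℝ) ≤ 27 * r ^ 3 := by
  classical
  have hr0 : (0 : ℝ) ≤ r := by linarith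
  set N : ℕ := ⌊r⌋₊ with hN
  have hsub : T ⊆ Fintype.piFinset (fun _ : Fin 3 => Finset.Icc (-(N : ℤ)) N) := by
    intro v hv
    rw [Fintype.mem_piFinset]
    intro i
    have h1 : |(v i : ℝ)| ≤ r := (abs_le_sn v i).trans (hT v hv)
    have h2 : (((v i).natAbs : ℕ) : ℝ) ≤ r := by
      rw [Nat.cast_natAbs, Int.cast_abs]; exact h1
    have h3 : (v i).natAbs ≤ N := Nat.le_floor h2
    rw [Finset.mem_Icc]
    omega
  have h1 := Finset.card_le_card hsub
  rw [Fintype.card_piFinset] at h1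
  simp only [Int.card_Icc, Finset.prod_const, Finset.card_univ, Fintype.card_fin] at h1
  have h2 : ((N : ℤ) + 1 - -(N : ℤ)).toNat = 2 * N + 1 := by omega
  rw [h2] at h1
  have hNr : (N : ℝ) ≤ r := Nat.floor_le hr0
  calc (T.card : ℝ) ≤ ((2 * N + 1) ^ 3 : ℕ) := by exact_mod_cast h1
    _ = (2 * (N : ℝ) + 1) ^ 3 := by push_cast; ring
    _ ≤ (3 * r) ^ 3 := pow_le_pow_left₀ (by positivity) (by linarith) 3
    _ = 27 * r ^ 3 := by ring

end b7x

open b7x in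
theorem p_B7 (hB4 : tB4) (hS1 : tS1) (hS2 : tS2) : tB7 := by
  classical
  intro K hK
  obtain ⟨C4, hC4, h4⟩ := hB4
  obtain ⟨C1, hC1, h1⟩ := hS1
  obtain ⟨C2, hC2, h2⟩ := hS2
  refine ⟨C1 * (27 * K ^ 3) + C4 * K ^ 2 * C2, by positivity, ?_⟩
  intro X a hX ha S hS
  have hlog : 0 ≤ Real.log X := Real.log_nonneg hX
  rw [← Finset.sum_filter_add_sum_filter_not S (fun F => sn F.1 ≤ sn F.2)]
  have hA : ∑ F ∈ S.filter (fun F => sn F.1 ≤ sn F.2), wt F ≤
      C1 * (27 * K ^ 3) * (1 + Real.log X) := by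
    have hf := flagsum (S.filter (fun F => sn F.1 ≤ sn F.2)) (D := C1 * (1 + Real.log X))
      (fun F hF => (hS F (Finset.mem_filter.mp hF).1).1) (by
        intro p hp T hT
        have hpp : prim p := by
          obtain ⟨F, hF, rfl⟩ := Finset.mem_image.mp hp
          exact (hS F (Finset.mem_filter.mp hF).1).1.1
        refine h1 p hpp X hX T fun q hq => ?_
        obtain ⟨hq1, hq2⟩ := Finset.mem_filter.mp (hT q hq)
        exact ⟨(hS _ hq1).1.2.2, hq2, (hS _ hq1).2.2.1⟩)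
    refine hf.trans ?_
    have hc : ∑ p ∈ (S.filter (fun F => sn F.1 ≤ sn F.2)).image Prod.fst, 1 / sn p ^ 3 ≤
        27 * K ^ 3 := by
      set P := (S.filter (fun F => sn F.1 ≤ sn F.2)).image Prod.fst with hP
      have hPm : ∀ p ∈ P, prim p ∧ a ≤ sn p ∧ sn p ≤ K * a := by
        intro p hp
        obtain ⟨F, hF, rfl⟩ := Finset.mem_image.mp hp
        have := hS F (Finset.mem_filter.mp hF).1
        exact ⟨this.1.1, this.2.2.2.1, this.2.2.2.2⟩
      rcases P.eq_empty_or_nonempty with h0 | ⟨p0, hp0⟩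
      · rw [h0, Finset.sum_empty]; positivity
      · have hKa : 1 ≤ K * a := (one_le_sn (hPm p0 hp0).1).trans (hPm p0 hp0).2.2
        have hcard := card_ball hKa P (fun p hp => (hPm p hp).2.2)
        calc ∑ p ∈ P, 1 / sn p ^ 3 ≤ ∑ _p ∈ P, 1 / a ^ 3 := Finset.sum_le_sum fun p hp =>
              one_div_le_one_div_of_le (by positivity)
                (pow_le_pow_left₀ ha.le (hPm p hp).2.1 3)
          _ = P.card * (1 / a ^ 3) := by rw [Finset.sum_const, nsmul_eq_mul]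
          _ ≤ (27 * (K * a) ^ 3) * (1 / a ^ 3) :=
              mul_le_mul_of_nonneg_right hcard (by positivity)
          _ = 27 * K ^ 3 := by field_simp
    calc C1 * (1 + Real.log X) * _ ≤ C1 * (1 + Real.log X) * (27 * K ^ 3) :=
          mul_le_mul_of_nonneg_left hc (by positivity)
      _ = _ := by ring
  have hB : ∑ F ∈ S.filter (fun F => ¬ sn F.1 ≤ sn F.2), wt F ≤
      C4 * K ^ 2 * C2 * (1 + Real.log X) := by
    rw [wt_swap]
    have hf := flagsum2 (C2 := C2) h2 ((S.filter (fun F => ¬ sn F.1 ≤ sn F.2)).image Prod.swap)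
      (D := C4 * K ^ 2) hX (by positivity) (by
        intro F hF
        obtain ⟨G, hG, rfl⟩ := Finset.mem_image.mp hF
        exact flag_swap (hS G (Finset.mem_filter.mp hG).1).1) (by
        intro F hF
        obtain ⟨G, hG, rfl⟩ := Finset.mem_image.mp hF
        exact (hS G (Finset.mem_filter.mp hG).1).2.2.1) (by
        intro q hq T hT
        have hqp : prim q := by
          obtain ⟨F, hF, rfl⟩ := Finset.mem_image.mp hq
          obtain ⟨G, hG, rfl⟩ := Finset.mem_image.mp hF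
          exact (hS G (Finset.mem_filter.mp hG).1).1.2.1
        have hT' : ∀ p ∈ T, (p, q) ∈ S ∧ ¬ sn p ≤ sn q := by
          intro p hp
          obtain ⟨G, hG, hGe⟩ := Finset.mem_image.mp (hT p hp)
          have hGe' : G = (p, q) := by
            have := congrArg Prod.swap hGe
            simpa using this
          rw [hGe'] at hG
          exact Finset.mem_filter.mp hG
        rcases T.eq_empty_or_nonempty with h0 | ⟨p0, hp0⟩
        · rw [h0, Finset.sum_empty]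
          have := sn_nonneg q
          positivity
        · have h5 := hT' p0 hp0
          have h6 := hS _ h5.1
          have hρ : sn q ≤ K * a := (le_of_not_ge h5.2).trans h6.2.2.2.2
          have h7 := shell (C := C4) h4 hqp ha hρ T (fun p hp => by
            have h8 := hS _ (hT' p hp).1
            exact ⟨by rw [dotProduct_comm]; exact h8.1.2.2, h8.2.2.2.1, h8.2.2.2.2⟩)
          refine h7.trans (le_of_eq ?_)
          have : (0 : ℝ) < sn q := lt_of_lt_of_le one_pos (one_le_sn hqp)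
          field_simp)
    refine hf.trans (le_of_eq ?_)
    ring
  calc _ ≤ C1 * (27 * K ^ 3) * (1 + Real.log X) + C4 * K ^ 2 * C2 * (1 + Real.log X) :=
        add_le_add hA hB
    _ = _ := by ring

end SAIL.A
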