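import Pool.Agent.SAIL.ARI.Targets

/-!
SAIL / ARI B9: flags in narrow cones.
-/

namespace SAIL.A

open Matrix MeasureTheory Filter SAIL

namespace B9x

lemma fib {α β : Type} [DecidableEq α] [DecidableEq β] (S : Finset (α × β)) (f h : α → ℝ)
    (g : β → ℝ) (hf : ∀ F ∈ S, 0 ≤ f F.1)
    (hg : ∀ p ∈ S.image Prod.fst, ∑ q ∈ (S.filter fun F => F.1 = p).image Prod.snd, g q ≤ h p) :
    ∑ F ∈ S, f F.1 * g F.2 ≤ ∑ p ∈ S.image Prod.fst, f p * h p := by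
  rw [← Finset.sum_fiberwise_of_maps_to (s := S) (t := S.image Prod.fst) (g := Prod.fst)
    (fun F hF => Finset.mem_image_of_mem _ hF)]
  refine Finset.sum_le_sum fun p hp => ?_
  have h1 : ∑ F ∈ S.filter (fun F => F.1 = p), f F.1 * g F.2 =
      f p * ∑ q ∈ (S.filter fun F => F.1 = p).image Prod.snd, g q := by
    rw [Finset.sum_image, Finset.mul_sum]
    · refine Finset.sum_congr rfl fun F hF => ?_
      rw [(Finset.mem_filter.mp hF).2]
    · intro F hF G hG hFG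
      have h1 := (Finset.mem_filter.mp hF).2
      have h2 := (Finset.mem_filter.mp hG).2
      exact Prod.ext (h1.trans h2.symm) hFG
  rw [h1]
  obtain ⟨F, hF, rfl⟩ := Finset.mem_image.mp hp
  exact mul_le_mul_of_nonneg_left (hg _ hp) (hf F hF)

lemma sn_nonneg (v : Fin 3 → ℤ) : 0 ≤ sn v := norm_nonneg _

lemma abs_le_sn (v : Fin 3 → ℤ) (i : Fin 3) : |(v i : ℝ)| ≤ sn v := by
  unfold sn
  have := norm_le_pi_norm (fun i => (v i : ℝ) : Fin 3 → ℝ) i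
  simpa using this

lemma one_le_sn {v : Fin 3 → ℤ} (hv : prim v) : 1 ≤ sn v := by
  by_contra hlt
  push Not at hlt
  have h0 : ∀ i, v i = 0 := by
    intro i
    have h1 := (abs_le_sn v i).trans_lt hlt
    have h2 : |v i| < 1 := by exact_mod_cast h1
    exact Int.abs_lt_one_iff.mp h2
  have h2 := hv 2 (fun i => by rw [h0 i]; exact dvd_zero _)
  rw [Int.isUnit_iff] at h2
  omega

lemma wt_eq (F : (Fin 3 → ℤ) × (Fin 3 → ℤ)) : wt F = 1 / sn F.1 ^ 2 * (1 / sn F.2 ^ 2) := by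
  unfold wt; rw [mul_pow]; rw [one_div_mul_one_div]

/-- one half: `sn p ≤ r sn q` -/
lemma half {C3 C4 C4' : ℝ} (hC3 : 0 < C3) {r X : ℝ} (hr : 0 < r) (hr2 : r < 1 / 2) (hX : 2 ≤ X)
    {u w : Fin 3 → ℝ} (hw : ‖w‖ = 1)
    (h3 : ∀ r : ℝ, 0 < r → r < 1 / 2 → ∀ p, prim p → ∀ X : ℝ, 2 ≤ X →
      ∀ w : Fin 3 → ℝ, ‖w‖ = 1 → ∀ S : Finset (Fin 3 → ℤ),
      (∀ q ∈ S, p ⬝ᵥ q = 0 ∧ sn p ≤ r * sn q ∧ sn q ≤ X ∧
        ∀ i, |(q i : ℝ) - sn q * w i| ≤ r * sn q) →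
      ∑ q ∈ S, 1 / sn q ^ 2 ≤ C3 * r * Real.log X / sn p)
    (h4 : ∀ S : Finset (Fin 3 → ℤ),
      (∀ v ∈ S, 1 ≤ sn v ∧ sn v ≤ X ∧ ∀ i, |(v i : ℝ) - sn v * u i| ≤ r * sn v) →
      ∑ v ∈ S, 1 / sn v ^ 3 ≤ C4 * r ^ 2 * Real.log X + C4')
    (S : Finset ((Fin 3 → ℤ) × (Fin 3 → ℤ)))
    (hS : ∀ F ∈ S, Flag F.1 F.2 ∧ sn F.1 ≤ X ∧ sn F.2 ≤ X ∧
      (∀ i, |(F.1 i : ℝ) - sn F.1 * u i| ≤ r * sn F.1) ∧
      (∀ i, |(F.2 i : ℝ) - sn F.2 * w i| ≤ r * sn F.2) ∧ sn F.1 ≤ r * sn F.2) :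
    ∑ F ∈ S, wt F ≤ C3 * r * Real.log X * (C4 * r ^ 2 * Real.log X + C4') := by
  classical
  have hlog : 0 ≤ Real.log X := Real.log_nonneg (by linarith)
  have h1 : ∑ F ∈ S, wt F = ∑ F ∈ S, (fun p : Fin 3 → ℤ => 1 / sn p ^ 2) F.1 *
      (fun q : Fin 3 → ℤ => 1 / sn q ^ 2) F.2 := Finset.sum_congr rfl fun F _ => wt_eq F
  rw [h1]
  refine (fib S (fun p : Fin 3 → ℤ => 1 / sn p ^ 2) (fun p => C3 * r * Real.log X / sn p)
    (fun q : Fin 3 → ℤ => 1 / sn q ^ 2) (fun F _ => by positivity) ?_).trans ?_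
  · intro p hp
    obtain ⟨F, hF, rfl⟩ := Finset.mem_image.mp hp
    refine h3 r hr hr2 F.1 (hS F hF).1.1 X hX w hw _ ?_
    intro q hq
    obtain ⟨G, hG, rfl⟩ := Finset.mem_image.mp hq
    obtain ⟨hG1, hG2⟩ := Finset.mem_filter.mp hG
    obtain ⟨g1, g2, g3, g4, g5, g6⟩ := hS G hG1
    rw [← hG2]
    exact ⟨g1.2.2, g6, g3, g5⟩
  · have h2 : ∑ p ∈ S.image Prod.fst, 1 / sn p ^ 2 * (C3 * r * Real.log X / sn p) =
        C3 * r * Real.log X * ∑ p ∈ S.image Prod.fst, 1 / sn p ^ 3 := by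
      rw [Finset.mul_sum]
      refine Finset.sum_congr rfl fun p hp => ?_
      obtain ⟨F, hF, rfl⟩ := Finset.mem_image.mp hp
      have := one_le_sn (hS F hF).1.1
      have h0 : sn F.1 ≠ 0 := by positivity
      field_simp
    rw [h2]
    refine mul_le_mul_of_nonneg_left (h4 _ ?_) (by positivity)
    intro p hp
    obtain ⟨F, hF, rfl⟩ := Finset.mem_image.mp hp
    obtain ⟨g1, g2, g3, g4, g5, g6⟩ := hS F hF
    exact ⟨one_le_sn g1.1, g2, g4⟩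

end B9x

open B9x in
theorem p_B9 (hB4 : tB4) (hS2 : tS2) (hS3 : tS3) (hS4 : tS4) : tB9 := by
  classical
  obtain ⟨CB, hCB, hB⟩ := hB4
  obtain ⟨C2, hC2, h2⟩ := hS2
  obtain ⟨C3, hC3, h3⟩ := hS3
  obtain ⟨C4, hC4, h4⟩ := hS4
  refine ⟨2 * C3 * C4, by positivity, fun r hr hr2 => ?_⟩
  obtain ⟨C4', hC4', h4'⟩ := h4 r hr hr2
  refine ⟨2 * C3 * r * C4' + 3 * CB * C2 / r ^ 4, by positivity, ?_⟩
  intro X u w hX hu hw S hS
  have hlog : 0 ≤ Real.log X := Real.log_nonneg (by linarith)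
  have hlog2 : 1 + Real.log X ≤ 3 * Real.log X := by
    have h1 : Real.log 2 ≤ Real.log X := Real.log_le_log (by norm_num) hX
    have h2 := Real.log_two_gt_d9
    linarith
  set S1 := S.filter fun F => sn F.1 ≤ r * sn F.2 with hS1
  set S2 := S.filter fun F => ¬ (sn F.1 ≤ r * sn F.2) with hS2
  set S3 := S2.filter fun F => sn F.2 ≤ r * sn F.1 with hS3
  set S4 := S2.filter fun F => ¬ (sn F.2 ≤ r * sn F.1) with hS4
  have hsplit : ∑ F ∈ S, wt F = ∑ F ∈ S1, wt F + (∑ F ∈ S3, wt F + ∑ F ∈ S4, wt F) := by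
    rw [Finset.sum_filter_add_sum_filter_not, Finset.sum_filter_add_sum_filter_not]
  have hb1 : ∑ F ∈ S1, wt F ≤ C3 * r * Real.log X * (C4 * r ^ 2 * Real.log X + C4') := by
    refine half hC3 hr hr2 hX hw h3 (fun T hT => h4' X hX u hu T hT) S1 ?_
    intro F hF
    obtain ⟨hF1, hF2⟩ := Finset.mem_filter.mp hF
    obtain ⟨g1, g2, g3, g4, g5⟩ := hS F hF1
    exact ⟨g1, g2, g3, g4, g5, hF2⟩
  have hb2 : ∑ F ∈ S3, wt F ≤ C3 * r * Real.log X * (C4 * r ^ 2 * Real.log X + C4') := by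
    have e : ∑ F ∈ S3, wt F = ∑ F ∈ S3.image Prod.swap, wt F := by
      rw [Finset.sum_image (fun F _ G _ h => Prod.swap_injective h)]
      refine Finset.sum_congr rfl fun F _ => ?_
      unfold wt
      simp only [Prod.fst_swap, Prod.snd_swap]
      rw [mul_comm]
    rw [e]
    refine half hC3 hr hr2 hX hu h3 (fun T hT => h4' X hX w hw T hT) _ ?_
    intro F hF
    obtain ⟨G, hG, rfl⟩ := Finset.mem_image.mp hF
    obtain ⟨hG1, hG2⟩ := Finset.mem_filter.mp hG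
    obtain ⟨g1, g2, g3, g4, g5⟩ := hS G (Finset.mem_filter.mp hG1).1
    simp only [Prod.fst_swap, Prod.snd_swap]
    refine ⟨⟨g1.2.1, g1.1, ?_⟩, g3, g2, g5, g4, hG2⟩
    rw [dotProduct_comm]; exact g1.2.2
  have hb3 : ∑ F ∈ S4, wt F ≤ CB * C2 / r ^ 4 * (1 + Real.log X) := by
    have hS4' : ∀ F ∈ S4, Flag F.1 F.2 ∧ sn F.1 ≤ X ∧ r * sn F.1 < sn F.2 ∧
        r * sn F.2 < sn F.1 := by
      intro F hF
      obtain ⟨hF1, hF2⟩ := Finset.mem_filter.mp hF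
      obtain ⟨hF3, hF4⟩ := Finset.mem_filter.mp hF1
      obtain ⟨g1, g2, g3, g4, g5⟩ := hS F hF3
      exact ⟨g1, g2, not_le.mp hF2, not_le.mp hF4⟩
    have h1 : ∑ F ∈ S4, wt F = ∑ F ∈ S4, (fun p : Fin 3 → ℤ => 1 / sn p ^ 2) F.1 *
        (fun q : Fin 3 → ℤ => 1 / sn q ^ 2) F.2 := Finset.sum_congr rfl fun F _ => wt_eq F
    rw [h1]
    refine (fib S4 (fun p : Fin 3 → ℤ => 1 / sn p ^ 2) (fun p => CB / (r ^ 4 * sn p))
      (fun q : Fin 3 → ℤ => 1 / sn q ^ 2) (fun F _ => by positivity) ?_).trans ?_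
    · intro p hp
      obtain ⟨F, hF, rfl⟩ := Finset.mem_image.mp hp
      obtain ⟨f1, f2, f3, f4⟩ := hS4' F hF
      have hp1 := one_le_sn f1.1
      have hp0 : 0 < sn F.1 := by linarith
      set T := (S4.filter fun G => G.1 = F.1).image Prod.snd with hT
      have hTm : ∀ q ∈ T, F.1 ⬝ᵥ q = 0 ∧ r * sn F.1 < sn q ∧ r * sn q < sn F.1 := by
        intro q hq
        obtain ⟨G, hG, rfl⟩ := Finset.mem_image.mp hq
        obtain ⟨hG1, hG2⟩ := Finset.mem_filter.mp hG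
        obtain ⟨g1, g2, g3, g4⟩ := hS4' G hG1
        rw [← hG2]
        exact ⟨g1.2.2, g3, g4⟩
      have hcard : (T.card : ℝ) ≤ CB * (sn F.1 / r) ^ 2 / sn F.1 := by
        refine hB F.1 f1.1 (fun _ => 0) (sn F.1 / r) ?_ T ?_
        · rw [le_div_iff₀ hr]; nlinarith
        · intro q hq
          obtain ⟨q1, q2, q3⟩ := hTm q hq
          refine ⟨q1, fun i => ?_⟩
          rw [sub_zero, le_div_iff₀ hr]
          have := abs_le_sn q i
          nlinarith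
      have hterm : ∀ q ∈ T, 1 / sn q ^ 2 ≤ 1 / (r * sn F.1) ^ 2 := by
        intro q hq
        obtain ⟨q1, q2, q3⟩ := hTm q hq
        refine one_div_le_one_div_of_le (by positivity) ?_
        exact pow_le_pow_left₀ (by positivity) q2.le 2
      calc ∑ q ∈ T, 1 / sn q ^ 2 ≤ ∑ _q ∈ T, 1 / (r * sn F.1) ^ 2 := Finset.sum_le_sum hterm
        _ = T.card * (1 / (r * sn F.1) ^ 2) := by rw [Finset.sum_const, nsmul_eq_mul]
        _ ≤ CB * (sn F.1 / r) ^ 2 / sn F.1 * (1 / (r * sn F.1) ^ 2) :=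
            mul_le_mul_of_nonneg_right hcard (by positivity)
        _ = CB / (r ^ 4 * sn F.1) := by field_simp
    · have h5 : ∑ p ∈ S4.image Prod.fst, 1 / sn p ^ 2 * (CB / (r ^ 4 * sn p)) =
          CB / r ^ 4 * ∑ p ∈ S4.image Prod.fst, 1 / sn p ^ 3 := by
        rw [Finset.mul_sum]
        refine Finset.sum_congr rfl fun p hp => ?_
        obtain ⟨F, hF, rfl⟩ := Finset.mem_image.mp hp
        have := one_le_sn (hS4' F hF).1.1
        have h0 : sn F.1 ≠ 0 := by positivity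
        field_simp
      rw [h5]
      have h6 := (h2 X (by linarith) (S4.image Prod.fst) (by
        intro p hp
        obtain ⟨F, hF, rfl⟩ := Finset.mem_image.mp hp
        obtain ⟨g1, g2, g3, g4⟩ := hS4' F hF
        exact ⟨one_le_sn g1.1, g2⟩)).1
      calc CB / r ^ 4 * ∑ p ∈ S4.image Prod.fst, 1 / sn p ^ 3
          ≤ CB / r ^ 4 * (C2 * (1 + Real.log X)) :=
            mul_le_mul_of_nonneg_left h6 (by positivity)
        _ = CB * C2 / r ^ 4 * (1 + Real.log X) := by ring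
  have hb3' : CB * C2 / r ^ 4 * (1 + Real.log X) ≤ CB * C2 / r ^ 4 * (3 * Real.log X) :=
    mul_le_mul_of_nonneg_left hlog2 (by positivity)
  rw [hsplit]
  calc ∑ F ∈ S1, wt F + (∑ F ∈ S3, wt F + ∑ F ∈ S4, wt F)
      ≤ C3 * r * Real.log X * (C4 * r ^ 2 * Real.log X + C4') +
        (C3 * r * Real.log X * (C4 * r ^ 2 * Real.log X + C4') +
          CB * C2 / r ^ 4 * (3 * Real.log X)) := by linarith
    _ = 2 * C3 * C4 * r ^ 3 * Real.log X ^ 2 +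
        (2 * C3 * r * C4' + 3 * CB * C2 / r ^ 4) * Real.log X := by ring

end SAIL.A
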