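import Pool.Agent.SAIL.ARI.Targets

/-!
SAIL, target BAS: a flag extends to a basis of the integer lattice.
-/

namespace SAIL.A.BASx

open Matrix SAIL SAIL.A

lemma sl2 (a b : ℤ) : ∃ x y z w : ℤ, x * w - y * z = 1 ∧ a * x + b * z = 0 ∧
    a * y + b * w = (Int.gcd a b : ℤ) := by
  by_cases h : Int.gcd a b = 0
  · obtain ⟨ha, hb⟩ := Int.gcd_eq_zero_iff.mp h
    subst ha; subst hb
    exact ⟨1, 0, 0, 1, by simp⟩
  · obtain ⟨a', ha⟩ := Int.gcd_dvd_left a b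
    obtain ⟨b', hb⟩ := Int.gcd_dvd_right a b
    have hg : (Int.gcd a b : ℤ) ≠ 0 := by exact_mod_cast h
    have hbez := Int.gcd_eq_gcd_ab a b
    set g : ℤ := (Int.gcd a b : ℤ) with hgdef
    refine ⟨b', Int.gcdA a b, -a', Int.gcdB a b, ?_, ?_, ?_⟩
    · apply mul_left_cancel₀ hg
      linear_combination (-Int.gcdB a b) * hb - Int.gcdA a b * ha - hbez
    · linear_combination b' * ha - a' * hb
    · exact hbez.symm

lemma prim_first {v : Fin 3 → ℤ} (h : ∀ d : ℤ, (∀ i, d ∣ v i) → IsUnit d) (h2 : v 2 = 0) :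
    (Int.gcd (v 0) (v 1) : ℤ) = 1 := by
  have := h (Int.gcd (v 0) (v 1)) (by
    intro i
    fin_cases i
    · exact Int.gcd_dvd_left _ _
    · exact Int.gcd_dvd_right _ _
    · simp [h2])
  rcases Int.isUnit_iff.mp this with h1 | h1
  · exact h1
  · have h0 : (0 : ℤ) ≤ (Int.gcd (v 0) (v 1) : ℤ) := Int.natCast_nonneg _
    omega

/-- completing a primitive row -/
lemma row {q : Fin 3 → ℤ} (h : prim q) : ∃ γ : GZ, q ᵥ* γ.1 = ![0, 0, 1] := by
  obtain ⟨x, y, z, w, h1, h2, h3⟩ := sl2 (q 0) (q 1)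
  set d : ℤ := (Int.gcd (q 0) (q 1) : ℤ) with hd
  obtain ⟨x', y', z', w', h1', h2', h3'⟩ := sl2 d (q 2)
  have hdd : (Int.gcd d (q 2) : ℤ) = 1 := by
    have := h (Int.gcd d (q 2)) (by
      intro i
      have e1 : (Int.gcd d (q 2) : ℤ) ∣ d := Int.gcd_dvd_left _ _
      have e2 : (Int.gcd d (q 2) : ℤ) ∣ q 2 := Int.gcd_dvd_right _ _
      fin_cases i
      · exact e1.trans (Int.gcd_dvd_left _ _)
      · exact e1.trans (Int.gcd_dvd_right _ _)
      · exact e2)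
    rcases Int.isUnit_iff.mp this with h1 | h1
    · exact h1
    · have h0 : (0 : ℤ) ≤ (Int.gcd d (q 2) : ℤ) := Int.natCast_nonneg _
      omega
  rw [hdd] at h3'
  refine ⟨⟨!![x, y * x', y * y'; z, w * x', w * y'; 0, z', w'], ?_⟩, ?_⟩
  · rw [Matrix.det_fin_three]
    simp
    linear_combination h1 + (x * w - y * z) * h1'
  · funext j
    fin_cases j
    · simp [Matrix.vecMul, dotProduct, Fin.sum_univ_three]
      linear_combination h2
    · simp [Matrix.vecMul, dotProduct, Fin.sum_univ_three]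
      linear_combination x' * h3 + h2'
    · simp [Matrix.vecMul, dotProduct, Fin.sum_univ_three]
      linear_combination y' * h3 + h3'

/-- a primitive vector with last coordinate zero is the first column -/
lemma col {r : Fin 3 → ℤ} (h : prim r) (h2 : r 2 = 0) : ∃ σ : GZ, σ.1 *ᵥ ![1, 0, 0] = r ∧
    ![0, 0, 1] ᵥ* σ.1 = ![0, 0, 1] := by
  have hg := prim_first h h2
  have hbez := Int.gcd_eq_gcd_ab (r 0) (r 1)
  rw [hg] at hbez
  refine ⟨⟨!![r 0, -Int.gcdB (r 0) (r 1), 0; r 1, Int.gcdA (r 0) (r 1), 0; 0, 0, 1], ?_⟩, ?_, ?_⟩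
  · rw [Matrix.det_fin_three]
    simp
    linear_combination -hbez
  · funext j
    fin_cases j
    · simp [Matrix.mulVec, dotProduct, Fin.sum_univ_three]
    · simp [Matrix.mulVec, dotProduct, Fin.sum_univ_three]
    · simp [Matrix.mulVec, dotProduct, Fin.sum_univ_three, h2]
  · funext j
    fin_cases j <;> simp [Matrix.vecMul, dotProduct, Fin.sum_univ_three]

lemma inv_mul_self (γ : GZ) : (γ⁻¹).1 * γ.1 = 1 :=
  congrArg Subtype.val (inv_mul_cancel γ)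

lemma mul_inv_self (γ : GZ) : γ.1 * (γ⁻¹).1 = 1 :=
  congrArg Subtype.val (mul_inv_cancel γ)

lemma prim_inv {p : Fin 3 → ℤ} (h : prim p) (γ : GZ) : prim ((γ⁻¹).1 *ᵥ p) := by
  intro d hd
  apply h d
  have e : p = γ.1 *ᵥ ((γ⁻¹).1 *ᵥ p) := by
    rw [Matrix.mulVec_mulVec, mul_inv_self, Matrix.one_mulVec]
  intro i
  rw [e]
  show d ∣ (γ.1 *ᵥ ((γ⁻¹).1 *ᵥ p)) i
  rw [Matrix.mulVec, dotProduct]
  exact Finset.dvd_sum fun j _ => Dvd.dvd.mul_left (hd j) _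

end SAIL.A.BASx

namespace SAIL.A

open Matrix SAIL BASx

theorem p_BAS : tBAS := by
  intro p q hF
  obtain ⟨hp, hq, hpq⟩ := hF
  obtain ⟨γ₁, h1⟩ := row hq
  have hr : prim ((γ₁⁻¹).1 *ᵥ p) := prim_inv hp γ₁
  have hr2 : ((γ₁⁻¹).1 *ᵥ p) 2 = 0 := by
    have e1 : ![0, 0, 1] ⬝ᵥ ((γ₁⁻¹).1 *ᵥ p) = q ⬝ᵥ p := by
      rw [← h1, Matrix.dotProduct_mulVec, Matrix.vecMul_vecMul, mul_inv_self, Matrix.vecMul_one]
    have e2 : ![0, 0, 1] ⬝ᵥ ((γ₁⁻¹).1 *ᵥ p) = ((γ₁⁻¹).1 *ᵥ p) 2 := by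
      simp [dotProduct, Fin.sum_univ_three]
    rw [← e2, e1, dotProduct_comm, hpq]
  obtain ⟨σ, hs1, hs2⟩ := col hr hr2
  have hγ1 : (γ₁ * σ).1 *ᵥ ![1, 0, 0] = p := by
    have : (γ₁ * σ).1 = γ₁.1 * σ.1 := rfl
    rw [this, ← Matrix.mulVec_mulVec, hs1, Matrix.mulVec_mulVec, mul_inv_self, Matrix.one_mulVec]
  have hγ2 : q ᵥ* (γ₁ * σ).1 = ![0, 0, 1] := by
    have : (γ₁ * σ).1 = γ₁.1 * σ.1 := rfl
    rw [this, ← Matrix.vecMul_vecMul, h1, hs2]
  generalize γ₁ * σ = γ at hγ1 hγ2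
  refine ⟨γ, hγ1, hγ2, ?_⟩
  intro A
  have hinv := inv_mul_self γ
  have hinv' := mul_inv_self γ
  constructor
  · rintro ⟨⟨a, ha⟩, ⟨b, hb⟩⟩
    set T : IM := (γ⁻¹).1 * (A * γ.1) with hT
    have hAT : A * γ.1 = γ.1 * T := by
      rw [hT, ← Matrix.mul_assoc γ.1, hinv', Matrix.one_mul]
    have hc : T *ᵥ ![1, 0, 0] = a • ![1, 0, 0] := by
      rw [hT, ← Matrix.mulVec_mulVec, ← Matrix.mulVec_mulVec, hγ1, ha, Matrix.mulVec_smul]
      congr 1
      rw [← hγ1, Matrix.mulVec_mulVec, hinv, Matrix.one_mulVec]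
    have hrw : ![0, 0, 1] ᵥ* T = b • ![0, 0, 1] := by
      rw [← hγ2, Matrix.vecMul_vecMul, ← hAT, ← Matrix.vecMul_vecMul, hb, Matrix.smul_vecMul]
    have c0 := congrFun hc 0
    have c1 := congrFun hc 1
    have c2 := congrFun hc 2
    have r0 := congrFun hrw 0
    have r1 := congrFun hrw 1
    have r2 := congrFun hrw 2
    simp [Matrix.mulVec, Matrix.vecMul, dotProduct, Fin.sum_univ_three] at c0 c1 c2 r0 r1 r2
    refine ⟨T 0 0, T 0 1, T 0 2, T 1 1, T 1 2, T 2 2, ?_⟩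
    rw [hAT]
    congr 1
    ext i j
    fin_cases i <;> fin_cases j <;> simp [c1, c2, r1]
  · rintro ⟨a, x, z, e, y, b, h⟩
    constructor
    · refine ⟨a, ?_⟩
      rw [← hγ1, Matrix.mulVec_mulVec, h, ← Matrix.mulVec_mulVec, ← Matrix.mulVec_smul]
      congr 1
      funext j
      fin_cases j <;> simp [Matrix.mulVec, dotProduct, Fin.sum_univ_three]
    · refine ⟨b, ?_⟩
      have e1 : q ᵥ* A ᵥ* γ.1 = (b • q) ᵥ* γ.1 := by
        rw [Matrix.vecMul_vecMul, h, ← Matrix.vecMul_vecMul, hγ2, Matrix.smul_vecMul, hγ2]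
        funext j
        fin_cases j <;> simp [Matrix.vecMul, dotProduct, Fin.sum_univ_three]
      have e2 := congrArg (fun v => v ᵥ* (γ⁻¹).1) e1
      simp only [Matrix.vecMul_vecMul, Matrix.mul_assoc, hinv', Matrix.vecMul_one,
        Matrix.mul_one] at e2
      exact e2

end SAIL.A
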