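import Pool.Agent.SAIL.ARI.Targets

/-!
SAIL / ARI, target C1: upper bound for the number of pairs.
`C1x.key` is the general counting principle (also usable for C2): pairs whose good flag has
`sn p ≤ Y` number at most `C m^6 (1 + log Y) (1 + log (4 m))`.
-/

namespace SAIL.A.C1x

open Matrix SAIL SAIL.A

/-- An entry is bounded by the norm. -/
lemma entry_le (A : IM) (i j : Fin 3) : |A i j| ≤ nrm A := by
  unfold nrm
  calc |A i j| ≤ ∑ j, |A i j| :=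
        Finset.single_le_sum (f := fun j => |A i j|) (fun _ _ => abs_nonneg _) (Finset.mem_univ j)
    _ ≤ ∑ i, ∑ j, |A i j| :=
        Finset.single_le_sum (f := fun i => ∑ j, |A i j|)
          (fun _ _ => Finset.sum_nonneg fun _ _ => abs_nonneg _) (Finset.mem_univ i)

lemma mem_PPf {m : ℕ} {P : IM × IM} (h : P ∈ PPf m) : nrm P.1 ≤ m ∧ ∃ l, Eig P.1 P.2 l := by
  classical
  unfold PPf at h
  exact (Finset.mem_filter.mp h).2

/-- At most four bases per matrix. -/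
lemma four (hF : tFOUR) (m : ℕ) (U : Finset (IM × IM)) (hU : U ⊆ PPf m) :
    U.card ≤ 4 * (U.image Prod.fst).card := by
  classical
  apply Finset.card_le_mul_card_image
  intro A _
  have hinj : (U.filter fun P => P.1 = A).card =
      ((U.filter fun P => P.1 = A).image Prod.snd).card := by
    rw [Finset.card_image_of_injOn]
    intro P hP Q hQ h
    have hP' := (Finset.mem_filter.mp hP).2
    have hQ' := (Finset.mem_filter.mp hQ).2
    exact Prod.ext (hP'.trans hQ'.symm) h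
  rw [hinj]
  apply hF A
  intro V hV
  obtain ⟨P, hP, rfl⟩ := Finset.mem_image.mp hV
  obtain ⟨hP1, hP2⟩ := Finset.mem_filter.mp hP
  have := (mem_PPf (hU hP1)).2
  rw [hP2] at this
  exact this

/-- The number of matrices with a given good flag. -/
lemma flagcount {C₁ : ℝ} (hC₁ : 0 < C₁)
    (hB : ∀ p q, Flag p q → ∀ ρ : ℝ, 1 ≤ ρ → ∀ (B : M3)
      (S : Finset (IM)), (∀ A ∈ S, Pres A p q ∧ ∀ i j, |(A i j : ℝ) - B i j| ≤ ρ) →
      (S.card : ℝ) ≤ C₁ * ρ ^ 2 * (1 + ρ * sn p / sn q ^ 2) * (1 + ρ / sn p) ^ 3)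
    (m : ℕ) (hm : 1 ≤ m) (p q : Fin 3 → ℤ) (hfl : Flag p q) (hp1 : 1 ≤ sn p) (hq1 : 1 ≤ sn q)
    (hqp : sn q ^ 2 ≤ 4 * m * sn p) (hp4 : sn p ≤ 4 * m) (S : Finset IM)
    (hS : ∀ A ∈ S, Pres A p q ∧ nrm A ≤ m) :
    (S.card : ℝ) ≤ 625 * C₁ * (m : ℝ) ^ 6 * wt (p, q) := by
  have hm' : (1 : ℝ) ≤ m := by exact_mod_cast hm
  have h1 := hB p q hfl m hm' 0 S (by
    intro A hA
    refine ⟨(hS A hA).1, fun i j => ?_⟩
    have h2 := (entry_le A i j).trans (hS A hA).2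
    rw [Matrix.zero_apply, sub_zero]
    exact_mod_cast h2)
  have hp0 : 0 < sn p := by linarith
  have hq0 : 0 < sn q := by linarith
  have hm0 : (0 : ℝ) < m := by linarith
  have hq2 : 0 < sn q ^ 2 := by positivity
  have e1 : 1 + (m : ℝ) * sn p / sn q ^ 2 ≤ 5 * (m * sn p / sn q ^ 2) := by
    have : 1 ≤ 4 * (m * sn p / sn q ^ 2) := by
      rw [mul_div_assoc', le_div_iff₀ hq2]
      linarith
    linarith
  have e2 : 1 + (m : ℝ) / sn p ≤ 5 * (m / sn p) := by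
    have : 1 ≤ 4 * (m / sn p) := by
      rw [mul_div_assoc', le_div_iff₀ hp0]
      linarith
    linarith
  have n1 : 0 ≤ 1 + (m : ℝ) * sn p / sn q ^ 2 := by positivity
  have n2 : 0 ≤ 1 + (m : ℝ) / sn p := by positivity
  have e3 : (1 + (m : ℝ) / sn p) ^ 3 ≤ (5 * (m / sn p)) ^ 3 := by
    exact pow_le_pow_left₀ n2 e2 3
  calc (S.card : ℝ) ≤ C₁ * (m : ℝ) ^ 2 * (1 + m * sn p / sn q ^ 2) * (1 + m / sn p) ^ 3 := h1
    _ ≤ C₁ * (m : ℝ) ^ 2 * (5 * (m * sn p / sn q ^ 2)) * (5 * (m / sn p)) ^ 3 := by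
        have c0 : 0 ≤ C₁ * (m : ℝ) ^ 2 := by positivity
        have c1 : 0 ≤ C₁ * (m : ℝ) ^ 2 * (5 * (m * sn p / sn q ^ 2)) := by positivity
        exact mul_le_mul (mul_le_mul_of_nonneg_left e1 c0) e3 (by positivity) c1
    _ = 625 * C₁ * (m : ℝ) ^ 6 * wt (p, q) := by
        unfold wt
        field_simp
        ring

/-- General counting principle. -/
lemma key (hSPEC : tSPEC) (hFOUR : tFOUR) (hB1 : tB1) (hB5 : tB5) :
    ∃ C : ℝ, 0 < C ∧ ∀ m : ℕ, 1 ≤ m → ∀ Y : ℝ, 1 ≤ Y → Y ≤ 4 * m →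
    ∀ U : Finset (IM × IM), U ⊆ PPf m →
    (∀ P ∈ U, ∃ l, Eig P.1 P.2 l ∧ ∃ i k : Fin 3,
      Flag (vcol P.2 i) (vst P.2 k) ∧ Pres P.1 (vcol P.2 i) (vst P.2 k) ∧
      sn (vst P.2 k) ^ 2 ≤ 4 * m * sn (vcol P.2 i) ∧ sn (vst P.2 k) ≤ 4 * m ∧
      sn (vcol P.2 i) ≤ Y) →
    (U.card : ℝ) ≤ C * (m : ℝ) ^ 6 * (1 + Real.log Y) * (1 + Real.log (4 * m)) := by
  classical
  obtain ⟨C₁, hC₁, hB1'⟩ := hB1
  obtain ⟨C₅, hC₅, hB5'⟩ := hB5
  refine ⟨4 * (625 * C₁) * C₅, by positivity, ?_⟩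
  intro m hm Y hY1 hY4 U hU hfl
  -- choose a flag for every matrix
  have hch : ∀ A : IM, ∃ F : (Fin 3 → ℤ) × (Fin 3 → ℤ), A ∈ U.image Prod.fst →
      (Flag F.1 F.2 ∧ Pres A F.1 F.2 ∧ 1 ≤ sn F.1 ∧ 1 ≤ sn F.2 ∧
        sn F.2 ^ 2 ≤ 4 * m * sn F.1 ∧ sn F.1 ≤ Y ∧ sn F.2 ≤ 4 * m ∧ nrm A ≤ m) := by
    intro A
    by_cases hA : A ∈ U.image Prod.fst
    · obtain ⟨P, hP, rfl⟩ := Finset.mem_image.mp hA
      obtain ⟨l, hE, i, k, h1, h2, h3, h4, h5⟩ := hfl P hP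
      have hn := (mem_PPf (hU hP)).1
      obtain ⟨-, hs1, hs2, -⟩ := hSPEC m P.1 P.2 l hE hn
      exact ⟨(vcol P.2 i, vst P.2 k), fun _ =>
        ⟨h1, h2, (hs1 i).1, (hs2 k).1, h3, h5, h4, hn⟩⟩
    · exact ⟨(0, 0), fun h => absurd h hA⟩
  choose F hF using hch
  set S := U.image Prod.fst with hSdef
  have hcount : (S.card : ℝ) ≤ 625 * C₁ * (m : ℝ) ^ 6 * ∑ G ∈ S.image F, wt G := by
    have hcard : S.card = ∑ G ∈ S.image F, (S.filter fun A => F A = G).card :=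
      Finset.card_eq_sum_card_image F S
    rw [hcard, Nat.cast_sum, Finset.mul_sum]
    apply Finset.sum_le_sum
    intro G hG
    obtain ⟨A₀, hA₀, rfl⟩ := Finset.mem_image.mp hG
    obtain ⟨f1, -, f3, f4, f5, f6, -, -⟩ := hF A₀ hA₀
    refine flagcount hC₁ hB1' m hm (F A₀).1 (F A₀).2 f1 f3 f4 f5 (f6.trans hY4) _ ?_
    intro A hA
    obtain ⟨hA1, hA2⟩ := Finset.mem_filter.mp hA
    obtain ⟨-, g2, -, -, -, -, -, g8⟩ := hF A hA1
    rw [hA2] at g2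
    exact ⟨g2, g8⟩
  have hsum : ∑ G ∈ S.image F, wt G ≤ C₅ * (1 + Real.log Y) * (1 + Real.log (4 * m)) := by
    apply hB5' (4 * m) Y hY1 hY4
    intro G hG
    obtain ⟨A₀, hA₀, rfl⟩ := Finset.mem_image.mp hG
    obtain ⟨f1, -, -, -, -, f6, f7, -⟩ := hF A₀ hA₀
    exact ⟨f1, f6, f7⟩
  have hfour : (U.card : ℝ) ≤ 4 * (S.card : ℝ) := by
    exact_mod_cast four hFOUR m U hU
  calc (U.card : ℝ) ≤ 4 * (S.card : ℝ) := hfour
    _ ≤ 4 * (625 * C₁ * (m : ℝ) ^ 6 * ∑ G ∈ S.image F, wt G) := by linarith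
    _ ≤ 4 * (625 * C₁ * (m : ℝ) ^ 6 *
        (C₅ * (1 + Real.log Y) * (1 + Real.log (4 * m)))) := by
        have : 0 ≤ 625 * C₁ * (m : ℝ) ^ 6 := by positivity
        linarith [mul_le_mul_of_nonneg_left hsum this]
    _ = 4 * (625 * C₁) * C₅ * (m : ℝ) ^ 6 * (1 + Real.log Y) * (1 + Real.log (4 * m)) := by
        ring

/-- `1 + log (4 m) ≤ 5 log m`. -/
lemma logb (m : ℕ) (hm : 2 ≤ m) : 1 + Real.log (4 * m) ≤ 5 * Real.log m := by
  have hm' : (2 : ℝ) ≤ m := by exact_mod_cast hm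
  have h1 : Real.log 2 ≤ Real.log m := Real.log_le_log (by norm_num) hm'
  have h2 : Real.log (4 * m) = 2 * Real.log 2 + Real.log m := by
    rw [Real.log_mul (by norm_num) (by linarith)]
    have : (4 : ℝ) = 2 ^ 2 := by norm_num
    rw [this, Real.log_pow]
    norm_num
  have h3 := Real.log_two_gt_d9
  rw [h2]
  linarith

end SAIL.A.C1x

namespace SAIL.A

open Matrix SAIL

theorem p_C1 (hSPEC : tSPEC) (hGF : tGF) (hFOUR : tFOUR) (hB1 : tB1) (hB5 : tB5) : tC1 := by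
  obtain ⟨C, hC, hkey⟩ := C1x.key hSPEC hFOUR hB1 hB5
  refine ⟨25 * C, by positivity, ?_⟩
  intro m hm
  have hm' : (2 : ℝ) ≤ m := by exact_mod_cast hm
  have h1 := hkey m (by omega) (4 * m) (by linarith) le_rfl (PPf m) (Finset.Subset.refl _) (by
    intro P hP
    obtain ⟨hn, l, hE⟩ := C1x.mem_PPf hP
    obtain ⟨i, k, -, f1, f2, -, f4, f5, f6, -⟩ := hGF m P.1 P.2 l hE hn
    exact ⟨l, hE, i, k, f1, f2, f4, f6, f5⟩)
  have h2 := C1x.logb m hm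
  have h3 : 0 ≤ 1 + Real.log (4 * m) := by
    have : 0 ≤ Real.log (4 * m) := Real.log_nonneg (by linarith)
    linarith
  have h4 : (1 + Real.log (4 * m)) * (1 + Real.log (4 * m)) ≤
      (5 * Real.log m) * (5 * Real.log m) :=
    mul_le_mul h2 h2 h3 (h3.trans h2)
  have h5 : 0 ≤ C * (m : ℝ) ^ 6 := by positivity
  calc ((PPf m).card : ℝ) ≤ C * (m : ℝ) ^ 6 * (1 + Real.log (4 * m)) * (1 + Real.log (4 * m)) := h1
    _ = C * (m : ℝ) ^ 6 * ((1 + Real.log (4 * m)) * (1 + Real.log (4 * m))) := by ring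
    _ ≤ C * (m : ℝ) ^ 6 * ((5 * Real.log m) * (5 * Real.log m)) :=
        mul_le_mul_of_nonneg_left h4 h5
    _ = 25 * C * (m : ℝ) ^ 6 * Real.log m ^ 2 := by ring

end SAIL.A
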