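import Pool.Agent.SAIL.ARI.Targets

/-!
SAIL / ARI, item C2: small eigenvectors or dual eigenvectors are rare.
-/

namespace SAIL.A

open Matrix MeasureTheory Filter SAIL

namespace C2x

lemma coord_le_sn (v : Fin 3 → ℤ) (i : Fin 3) : |(v i : ℝ)| ≤ sn v := by
  have h := norm_le_pi_norm (fun i => (v i : ℝ) : Fin 3 → ℝ) i
  simpa [sn, Real.norm_eq_abs] using h

lemma one_le_sn_of_prim (v : Fin 3 → ℤ) (hv : prim v) : 1 ≤ sn v := by
  have : ∃ i, v i ≠ 0 := by
    by_contra hcon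
    push Not at hcon
    have h2 := hv 2 (fun i => by rw [hcon i]; exact dvd_zero _)
    rw [Int.isUnit_iff] at h2
    omega
  obtain ⟨i, hi⟩ := this
  have h1 : (1 : ℤ) ≤ |v i| := Int.one_le_abs hi
  have h1' : (1 : ℝ) ≤ |(v i : ℝ)| := by
    have : ((1 : ℤ) : ℝ) ≤ ((|v i| : ℤ) : ℝ) := by exact_mod_cast h1
    simpa using this
  exact h1'.trans (coord_le_sn v i)

/-- box of vectors -/
noncomputable def vbox (N : ℕ) : Finset (Fin 3 → ℤ) :=
  Fintype.piFinset fun _ => Finset.Icc (-(N : ℤ)) N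

lemma mem_vbox (N : ℕ) (v : Fin 3 → ℤ) (h : sn v ≤ N) : v ∈ vbox N := by
  unfold vbox
  rw [Fintype.mem_piFinset]
  intro i
  rw [Finset.mem_Icc]
  have h1 := (coord_le_sn v i).trans h
  have h2 := abs_le.mp h1
  constructor
  · exact_mod_cast h2.1
  · exact_mod_cast h2.2

lemma box_abs (N : ℕ) (A : IM) (h : A ∈ box N) (i j : Fin 3) : |(A i j : ℝ)| ≤ N := by
  have h1 := (Fintype.mem_piFinset.mp h) i
  have h2 := Finset.mem_Icc.mp ((Fintype.mem_piFinset.mp h1) j)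
  rw [abs_le]
  constructor
  · exact_mod_cast h2.1
  · exact_mod_cast h2.2

/-- the weight bound for one flag -/
lemma flag_bound (C M a b N : ℝ) (hC : 0 < C) (hM : 2 ≤ M) (ha : 1 ≤ a) (hb : 1 ≤ b)
    (h1 : b ^ 2 ≤ 4 * M * a) (h2 : a ≤ 4 * M)
    (hN : N ≤ C * M ^ 2 * (1 + M * a / b ^ 2) * (1 + M / a) ^ 3) :
    N ≤ 625 * C * M ^ 6 * (1 / (a * b) ^ 2) := by
  have hM0 : 0 < M := by linarith
  have ha0 : 0 < a := by linarith
  have hb0 : 0 < b := by linarith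
  have e1 : 1 + M * a / b ^ 2 ≤ 5 * (M * a / b ^ 2) := by
    have : 1 ≤ 4 * (M * a / b ^ 2) := by
      rw [← mul_div_assoc, le_div_iff₀ (by positivity)]
      nlinarith
    linarith
  have e2 : 1 + M / a ≤ 5 * (M / a) := by
    have : 1 ≤ 4 * (M / a) := by
      rw [← mul_div_assoc, le_div_iff₀ ha0]
      linarith
    linarith
  have e3 : (1 + M / a) ^ 3 ≤ (5 * (M / a)) ^ 3 := by
    apply pow_le_pow_left₀ _ e2
    positivity
  have e4 : C * M ^ 2 * (1 + M * a / b ^ 2) * (1 + M / a) ^ 3 ≤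
      C * M ^ 2 * (5 * (M * a / b ^ 2)) * (5 * (M / a)) ^ 3 := by
    apply mul_le_mul _ e3 (by positivity) (by positivity)
    apply mul_le_mul_of_nonneg_left e1 (by positivity)
  have e5 : C * M ^ 2 * (5 * (M * a / b ^ 2)) * (5 * (M / a)) ^ 3 =
      625 * C * M ^ 6 * (1 / (a * b) ^ 2) := by
    field_simp
    ring
  linarith

open Classical in
/-- Part one: a small eigenvector. -/
lemma part1 (hGF : tGF) (hFOUR : tFOUR) (hB1 : tB1) (hB5 : tB5) :
    ∃ C : ℝ, 0 < C ∧ ∀ (m : ℕ) (Y : ℝ), 2 ≤ m → 1 ≤ Y →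
      (((PPf m).filter fun P => ∃ i, sn (vcol P.2 i) ≤ Y).card : ℝ) ≤
        C * (m : ℝ) ^ 6 * (1 + Real.log Y) * Real.log m := by
  obtain ⟨C1, hC1, H1⟩ := hB1
  obtain ⟨C5, hC5, H5⟩ := hB5
  refine ⟨4 * (625 * C1 * (C5 * 5)), by positivity, ?_⟩
  intro m Y hm hY
  have hmR : (2 : ℝ) ≤ m := by exact_mod_cast hm
  have hm0 : (0 : ℝ) < m := by linarith
  set G : Finset (IM × IM) := (PPf m).filter fun P => ∃ i, sn (vcol P.2 i) ≤ Y with hG
  set Y' : ℝ := min Y (4 * m) with hY'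
  have hY1 : 1 ≤ Y' := le_min hY (by linarith)
  have hYX : Y' ≤ 4 * (m : ℝ) := min_le_right _ _
  have hYY : Y' ≤ Y := min_le_left _ _
  -- the flags
  let FS : Finset ((Fin 3 → ℤ) × (Fin 3 → ℤ)) :=
    (vbox (4 * m) ×ˢ vbox (4 * m)).filter fun F =>
      Flag F.1 F.2 ∧ sn F.1 ≤ Y' ∧ sn F.2 ≤ 4 * m ∧ sn F.2 ^ 2 ≤ 4 * m * sn F.1
  -- step a
  have ha : G.card ≤ 4 * (G.image Prod.fst).card := by
    apply Finset.card_le_mul_card_image
    intro A _
    have hinj : Set.InjOn Prod.snd (↑(G.filter fun P => P.1 = A) : Set (IM × IM)) := by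
      intro P hP Q hQ hPQ
      rw [Finset.mem_coe, Finset.mem_filter] at hP hQ
      exact Prod.ext (hP.2.trans hQ.2.symm) hPQ
    rw [← Finset.card_image_of_injOn hinj]
    apply hFOUR A
    intro V hV
    rw [Finset.mem_image] at hV
    obtain ⟨P, hP, rfl⟩ := hV
    rw [Finset.mem_filter] at hP
    obtain ⟨hP1, hP2⟩ := hP
    rw [hG, Finset.mem_filter] at hP1
    have hP3 := hP1.1
    unfold PPf at hP3
    rw [Finset.mem_filter] at hP3
    obtain ⟨l, hl⟩ := hP3.2.2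
    rw [hP2] at hl
    exact ⟨l, hl⟩
  -- step b
  have hb : G.image Prod.fst ⊆ FS.biUnion fun F => (box m).filter fun A => Pres A F.1 F.2 := by
    intro A hA
    rw [Finset.mem_image] at hA
    obtain ⟨P, hP, rfl⟩ := hA
    rw [hG, Finset.mem_filter] at hP
    obtain ⟨hP3, i₀, hi₀⟩ := hP
    unfold PPf at hP3
    rw [Finset.mem_filter, Finset.mem_product] at hP3
    obtain ⟨⟨hbox, _⟩, hn, l, hl⟩ := hP3
    obtain ⟨i, k, _, hfl, hpr, hs1, hs2, hs3, hs4, hs5⟩ := hGF m P.1 P.2 l hl hn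
    rw [Finset.mem_biUnion]
    refine ⟨(vcol P.2 i, vst P.2 k), ?_, ?_⟩
    · rw [Finset.mem_filter, Finset.mem_product]
      refine ⟨⟨mem_vbox _ _ ?_, mem_vbox _ _ ?_⟩, hfl, ?_, hs4, hs2⟩
      · push_cast; exact hs3
      · push_cast; exact hs4
      · exact le_min ((hs5 i₀).trans hi₀) hs3
    · rw [Finset.mem_filter]
      exact ⟨hbox, hpr⟩
  have hc : ((G.image Prod.fst).card : ℝ) ≤
      ∑ F ∈ FS, 625 * C1 * (m : ℝ) ^ 6 * wt F := by
    have h1 : (G.image Prod.fst).card ≤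
        ∑ F ∈ FS, ((box m).filter fun A => Pres A F.1 F.2).card :=
      (Finset.card_le_card hb).trans Finset.card_biUnion_le
    have h2 : ((G.image Prod.fst).card : ℝ) ≤
        ∑ F ∈ FS, (((box m).filter fun A => Pres A F.1 F.2).card : ℝ) := by
      exact_mod_cast h1
    refine h2.trans (Finset.sum_le_sum ?_)
    intro F hF
    rw [Finset.mem_filter] at hF
    obtain ⟨_, hfl, hF1, hF2, hF3⟩ := hF
    have hp1 := one_le_sn_of_prim F.1 hfl.1
    have hq1 := one_le_sn_of_prim F.2 hfl.2.1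
    have hB := H1 F.1 F.2 hfl m (by linarith) 0 ((box m).filter fun A => Pres A F.1 F.2) (by
      intro A hA
      rw [Finset.mem_filter] at hA
      refine ⟨hA.2, fun i j => ?_⟩
      have := box_abs m A hA.1 i j
      simpa using this)
    have := flag_bound C1 m (sn F.1) (sn F.2) _ hC1 hmR hp1 hq1 hF3
      (hF1.trans hYX) hB
    unfold wt
    exact this
  have hd : ∑ F ∈ FS, wt F ≤ C5 * (1 + Real.log Y') * (1 + Real.log (4 * m)) := by
    apply H5 (4 * m) Y' hY1 hYX FS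
    intro F hF
    rw [Finset.mem_filter] at hF
    exact ⟨hF.2.1, hF.2.2.1, hF.2.2.2.1⟩
  -- logs
  have hl2 : (0.69 : ℝ) < Real.log 2 := by
    have := Real.log_two_gt_d9
    linarith
  have hlm : Real.log 2 ≤ Real.log m := Real.log_le_log (by norm_num) hmR
  have hlY : Real.log Y' ≤ Real.log Y := Real.log_le_log (by linarith) hYY
  have hlY0 : 0 ≤ Real.log Y' := Real.log_nonneg hY1
  have hl4 : Real.log (4 * (m : ℝ)) = 2 * Real.log 2 + Real.log m := by
    rw [Real.log_mul (by norm_num) hm0.ne']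
    have : Real.log 4 = 2 * Real.log 2 := by
      rw [show (4 : ℝ) = 2 ^ 2 by norm_num, Real.log_pow]
      norm_num
    rw [this]
  have hl5 : 1 + Real.log (4 * (m : ℝ)) ≤ 5 * Real.log m := by
    rw [hl4]; linarith
  have he : C5 * (1 + Real.log Y') * (1 + Real.log (4 * m)) ≤
      C5 * 5 * ((1 + Real.log Y) * Real.log m) := by
    have h1 : (1 + Real.log Y') * (1 + Real.log (4 * m)) ≤
        (1 + Real.log Y) * (5 * Real.log m) := by
      apply mul_le_mul (by linarith) hl5 _ (by linarith)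
      rw [hl4]; linarith
    calc C5 * (1 + Real.log Y') * (1 + Real.log (4 * m))
        = C5 * ((1 + Real.log Y') * (1 + Real.log (4 * m))) := by ring
      _ ≤ C5 * ((1 + Real.log Y) * (5 * Real.log m)) :=
          mul_le_mul_of_nonneg_left h1 hC5.le
      _ = C5 * 5 * ((1 + Real.log Y) * Real.log m) := by ring
  have ha' : (G.card : ℝ) ≤ 4 * ((G.image Prod.fst).card : ℝ) := by exact_mod_cast ha
  have hc' : ∑ F ∈ FS, 625 * C1 * (m : ℝ) ^ 6 * wt F = 625 * C1 * (m : ℝ) ^ 6 * ∑ F ∈ FS, wt F := by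
    rw [Finset.mul_sum]
  rw [hc'] at hc
  have hpos : 0 ≤ 625 * C1 * (m : ℝ) ^ 6 := by positivity
  calc (G.card : ℝ) ≤ 4 * ((G.image Prod.fst).card : ℝ) := ha'
    _ ≤ 4 * (625 * C1 * (m : ℝ) ^ 6 * ∑ F ∈ FS, wt F) := by linarith
    _ ≤ 4 * (625 * C1 * (m : ℝ) ^ 6 * (C5 * 5 * ((1 + Real.log Y) * Real.log m))) := by
        have := mul_le_mul_of_nonneg_left (hd.trans he) hpos
        linarith
    _ = 4 * (625 * C1 * (C5 * 5)) * (m : ℝ) ^ 6 * (1 + Real.log Y) * Real.log m := by ring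

end C2x

open C2x in
open Classical in
theorem p_C2 (_hADJ : tADJ) (hDUAL : tDUAL) (hSPEC : tSPEC) (hGF : tGF) (hFOUR : tFOUR)
    (hB1 : tB1) (hB5 : tB5) : tC2 := by
  obtain ⟨C, hC, H⟩ := part1 hGF hFOUR hB1 hB5
  refine ⟨2 * C, by positivity, ?_⟩
  intro m Y hm hY
  have h1 := H m Y hm hY
  -- second part by duality
  have h2 : ((PPf m).filter fun P => ∃ i, sn (vst P.2 i) ≤ Y).card ≤
      ((PPf m).filter fun P => ∃ i, sn (vcol P.2 i) ≤ Y).card := by
    apply Finset.card_le_card_of_injOn (fun P => (P.1ᵀ, Vd P.2))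
    · intro P hP
      rw [Finset.mem_coe, Finset.mem_filter] at hP
      obtain ⟨hP3, i₀, hi₀⟩ := hP
      unfold PPf at hP3
      rw [Finset.mem_filter, Finset.mem_product] at hP3
      obtain ⟨⟨_, _⟩, hn, l, hl⟩ := hP3
      obtain ⟨d1, d2, d3, d4, _, _⟩ := hDUAL P.1 P.2 l hl
      have hn' : nrm P.1ᵀ ≤ m := by rw [d4]; exact hn
      have hmem := (hSPEC m P.1ᵀ (Vd P.2) l d1 hn').2.2.2.2.2.1
      rw [Finset.mem_coe, Finset.mem_filter]
      refine ⟨hmem, i₀, ?_⟩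
      show sn (vcol (Vd P.2) i₀) ≤ Y
      rw [d2 i₀]
      exact hi₀
    · intro P hP Q hQ hPQ
      rw [Finset.mem_coe, Finset.mem_filter] at hP hQ
      have hP3 := hP.1
      have hQ3 := hQ.1
      unfold PPf at hP3 hQ3
      rw [Finset.mem_filter, Finset.mem_product] at hP3 hQ3
      obtain ⟨_, _, l, hl⟩ := hP3
      obtain ⟨_, _, l', hl'⟩ := hQ3
      obtain ⟨_, _, d3, _, _, _⟩ := hDUAL P.1 P.2 l hl
      obtain ⟨_, _, e3, _, _, _⟩ := hDUAL Q.1 Q.2 l' hl'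
      have hA : P.1ᵀ = Q.1ᵀ := (Prod.mk.inj hPQ).1
      have hV : Vd P.2 = Vd Q.2 := (Prod.mk.inj hPQ).2
      apply Prod.ext
      · exact Matrix.transpose_injective hA
      · ext r i
        have h3 : vcol P.2 i = vcol Q.2 i := by
          rw [← d3 i, ← e3 i, hV]
        exact congrFun h3 r
  have h3 : (((PPf m).filter fun P => ∃ i, sn (vcol P.2 i) ≤ Y ∨ sn (vst P.2 i) ≤ Y).card) ≤
      ((PPf m).filter fun P => ∃ i, sn (vcol P.2 i) ≤ Y).card +
      ((PPf m).filter fun P => ∃ i, sn (vst P.2 i) ≤ Y).card := by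
    refine (Finset.card_le_card ?_).trans (Finset.card_union_le _ _)
    intro P hP
    rw [Finset.mem_filter] at hP
    obtain ⟨hP1, i, hi⟩ := hP
    rw [Finset.mem_union, Finset.mem_filter, Finset.mem_filter]
    rcases hi with hi | hi
    · exact Or.inl ⟨hP1, i, hi⟩
    · exact Or.inr ⟨hP1, i, hi⟩
  have h4 : (((PPf m).filter fun P => ∃ i, sn (vcol P.2 i) ≤ Y ∨ sn (vst P.2 i) ≤ Y).card : ℝ) ≤
      2 * (((PPf m).filter fun P => ∃ i, sn (vcol P.2 i) ≤ Y).card : ℝ) := by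
    have := h3.trans (Nat.add_le_add_left h2 _)
    have h5 : (((PPf m).filter fun P => ∃ i, sn (vcol P.2 i) ≤ Y ∨ sn (vst P.2 i) ≤ Y).card) ≤
        2 * ((PPf m).filter fun P => ∃ i, sn (vcol P.2 i) ≤ Y).card := by omega
    exact_mod_cast h5
  calc _ ≤ 2 * (((PPf m).filter fun P => ∃ i, sn (vcol P.2 i) ≤ Y).card : ℝ) := h4
    _ ≤ 2 * (C * (m : ℝ) ^ 6 * (1 + Real.log Y) * Real.log m) := by linarith
    _ = 2 * C * (m : ℝ) ^ 6 * (1 + Real.log Y) * Real.log m := by ring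

end SAIL.A
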