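import Pool.Agent.SAIL.ARI.Targets

/-!
SAIL / ARI, item C3: close eigenvalues are rare.
-/

namespace SAIL.A

open Matrix MeasureTheory Filter SAIL

namespace C3x

lemma coord_le_sn (v : Fin 3 → ℤ) (i : Fin 3) : |(v i : ℝ)| ≤ sn v := by
  have h := norm_le_pi_norm (fun i => (v i : ℝ) : Fin 3 → ℝ) i
  simpa [sn, Real.norm_eq_abs] using h

lemma one_le_sn_of_prim (v : Fin 3 → ℤ) (hv : prim v) : 1 ≤ sn v := by
  have : ∃ i, v i ≠ 0 := by
    by_contra hcon
    push Not at hcon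
    have h2 := hv 2 (fun i => by rw [hcon i]; exact dvd_zero _)
    rw [Int.isUnit_iff] at h2
    omega
  obtain ⟨i, hi⟩ := this
  have h1 : (1 : ℤ) ≤ |v i| := Int.one_le_abs hi
  have h1' : (1 : ℝ) ≤ |(v i : ℝ)| := by
    have : ((1 : ℤ) : ℝ) ≤ ((|v i| : ℤ) : ℝ) := by exact_mod_cast h1
    simpa using this
  exact h1'.trans (coord_le_sn v i)

/-- box of vectors -/
noncomputable def vbox (N : ℕ) : Finset (Fin 3 → ℤ) :=
  Fintype.piFinset fun _ => Finset.Icc (-(N : ℤ)) N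

lemma mem_vbox (N : ℕ) (v : Fin 3 → ℤ) (h : sn v ≤ N) : v ∈ vbox N := by
  unfold vbox
  rw [Fintype.mem_piFinset]
  intro i
  rw [Finset.mem_Icc]
  have h1 := (coord_le_sn v i).trans h
  have h2 := abs_le.mp h1
  constructor
  · exact_mod_cast h2.1
  · exact_mod_cast h2.2

lemma box_abs (N : ℕ) (A : IM) (h : A ∈ box N) (i j : Fin 3) : |(A i j : ℝ)| ≤ N := by
  have h1 := (Fintype.mem_piFinset.mp h) i
  have h2 := Finset.mem_Icc.mp ((Fintype.mem_piFinset.mp h1) j)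
  rw [abs_le]
  constructor
  · exact_mod_cast h2.1
  · exact_mod_cast h2.2

/-- the trace is the sum of the eigenvalues -/
lemma trace_eq (A V : IM) (l : Fin 3 → ℤ) (h : Eig A V l) : A.trace = l 0 + l 1 + l 2 := by
  obtain ⟨h1, -, -, -, h5⟩ := h
  have e1 : (A * (V * V.adjugate)).trace = V.det * A.trace := by
    rw [Matrix.mul_adjugate, Matrix.mul_smul, Matrix.mul_one, Matrix.trace_smul, smul_eq_mul]
  have e2 : (A * (V * V.adjugate)).trace = V.det * (l 0 + l 1 + l 2) := by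
    rw [← Matrix.mul_assoc, h1, Matrix.trace_mul_comm, ← Matrix.mul_assoc, Matrix.adjugate_mul,
      Matrix.smul_mul, Matrix.one_mul, Matrix.trace_smul, smul_eq_mul]
    congr 1
    rw [Matrix.trace, Fin.sum_univ_three]
    simp
  have e3 : V.det * A.trace = V.det * (l 0 + l 1 + l 2) := e1.symm.trans e2
  exact mul_left_cancel₀ h5.ne' e3

/-- the flag of an eigenbasis with two close eigenvalues -/
lemma near_of (e τ : ℝ) (m : ℕ) (A V : IM) (l : Fin 3 → ℤ) (h : Eig A V l)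
    (hg : ¬ Gap e m (A, V)) (hτ : e * m ≤ τ) (i k : Fin 3) (hik : i ≠ k)
    (h1 : A *ᵥ vcol V i = l i • vcol V i) (h2 : vst V k ᵥ* A = l k • vst V k) :
    Near A (vcol V i) (vst V k) τ := by
  refine ⟨l i, l k, h1, h2, ?_⟩
  have ht := trace_eq A V l h
  have hlt1 : (l 0 : ℝ) < l 1 := by exact_mod_cast h.2.1
  have hlt2 : (l 1 : ℝ) < l 2 := by exact_mod_cast h.2.2.1
  have hor : (l 1 : ℝ) - l 0 ≤ τ ∨ (l 2 : ℝ) - l 1 ≤ τ := by
    by_contra hc
    push Not at hc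
    exact hg ⟨l, h, by linarith, by linarith⟩
  rw [ht]
  rcases hor with ho | ho
  · fin_cases i <;> fin_cases k
    · exact absurd rfl hik
    · left
      show |((l 0 - l 1 : ℤ) : ℝ)| ≤ τ
      push_cast
      rw [abs_le]
      constructor <;> linarith
    · right; left
      show |((l 0 - (l 0 + l 1 + l 2 - l 0 - l 2) : ℤ) : ℝ)| ≤ τ
      push_cast
      rw [abs_le]
      constructor <;> linarith
    · left
      show |((l 1 - l 0 : ℤ) : ℝ)| ≤ τ
      push_cast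
      rw [abs_le]
      constructor <;> linarith
    · exact absurd rfl hik
    · right; left
      show |((l 1 - (l 0 + l 1 + l 2 - l 1 - l 2) : ℤ) : ℝ)| ≤ τ
      push_cast
      rw [abs_le]
      constructor <;> linarith
    · right; right
      show |((l 0 - (l 0 + l 1 + l 2 - l 2 - l 0) : ℤ) : ℝ)| ≤ τ
      push_cast
      rw [abs_le]
      constructor <;> linarith
    · right; right
      show |((l 1 - (l 0 + l 1 + l 2 - l 2 - l 1) : ℤ) : ℝ)| ≤ τ
      push_cast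
      rw [abs_le]
      constructor <;> linarith
    · exact absurd rfl hik
  · fin_cases i <;> fin_cases k
    · exact absurd rfl hik
    · right; right
      show |((l 1 - (l 0 + l 1 + l 2 - l 0 - l 1) : ℤ) : ℝ)| ≤ τ
      push_cast
      rw [abs_le]
      constructor <;> linarith
    · right; right
      show |((l 2 - (l 0 + l 1 + l 2 - l 0 - l 2) : ℤ) : ℝ)| ≤ τ
      push_cast
      rw [abs_le]
      constructor <;> linarith
    · right; left
      show |((l 1 - (l 0 + l 1 + l 2 - l 1 - l 0) : ℤ) : ℝ)| ≤ τ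
      push_cast
      rw [abs_le]
      constructor <;> linarith
    · exact absurd rfl hik
    · left
      show |((l 1 - l 2 : ℤ) : ℝ)| ≤ τ
      push_cast
      rw [abs_le]
      constructor <;> linarith
    · right; left
      show |((l 2 - (l 0 + l 1 + l 2 - l 2 - l 0) : ℤ) : ℝ)| ≤ τ
      push_cast
      rw [abs_le]
      constructor <;> linarith
    · left
      show |((l 2 - l 1 : ℤ) : ℝ)| ≤ τ
      push_cast
      rw [abs_le]
      constructor <;> linarith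
    · exact absurd rfl hik

/-- the weight bound for one flag -/
lemma flag_bound (C M a b N τ : ℝ) (hC : 0 < C) (hM : 2 ≤ M) (ha : 1 ≤ a) (hb : 1 ≤ b)
    (hτ : 1 ≤ τ) (h1 : b ^ 2 ≤ 4 * M * a) (h2 : a ≤ 4 * M)
    (hN : N ≤ C * M ^ 2 * (1 + M * a / b ^ 2) * (1 + M / a) ^ 2 *
      (τ / M * (1 + M / a) + (1 + τ / a))) :
    N ≤ 750 * C * M ^ 5 * τ * (1 / (a * b) ^ 2) + 750 * C * M ^ 5 * (a * (1 / (a * b) ^ 2)) := by
  have hM0 : 0 < M := by linarith
  have ha0 : 0 < a := by linarith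
  have hb0 : 0 < b := by linarith
  have e1 : 1 + M * a / b ^ 2 ≤ 5 * (M * a / b ^ 2) := by
    have : 1 ≤ 4 * (M * a / b ^ 2) := by
      rw [← mul_div_assoc, le_div_iff₀ (by positivity)]
      nlinarith
    linarith
  have e2 : 1 + M / a ≤ 5 * (M / a) := by
    have : 1 ≤ 4 * (M / a) := by
      rw [← mul_div_assoc, le_div_iff₀ ha0]
      linarith
    linarith
  have e3 : (1 + M / a) ^ 2 ≤ (5 * (M / a)) ^ 2 := by
    apply pow_le_pow_left₀ _ e2
    positivity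
  have e6 : τ / M * (1 + M / a) + (1 + τ / a) ≤ 6 * (τ / a) + 6 := by
    have e7 : τ / M * (1 + M / a) ≤ τ / M * (5 * (M / a)) := by
      apply mul_le_mul_of_nonneg_left e2 (by positivity)
    have e8 : τ / M * (5 * (M / a)) = 5 * (τ / a) := by
      field_simp
    linarith
  have e4 : C * M ^ 2 * (1 + M * a / b ^ 2) * (1 + M / a) ^ 2 *
      (τ / M * (1 + M / a) + (1 + τ / a)) ≤
      C * M ^ 2 * (5 * (M * a / b ^ 2)) * (5 * (M / a)) ^ 2 * (6 * (τ / a) + 6) := by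
    apply mul_le_mul _ e6 (by positivity) (by positivity)
    apply mul_le_mul _ e3 (by positivity) (by positivity)
    apply mul_le_mul_of_nonneg_left e1 (by positivity)
  have e5 : C * M ^ 2 * (5 * (M * a / b ^ 2)) * (5 * (M / a)) ^ 2 * (6 * (τ / a) + 6) =
      750 * C * M ^ 5 * τ * (1 / (a * b) ^ 2) + 750 * C * M ^ 5 * (a * (1 / (a * b) ^ 2)) := by
    field_simp
    ring
  linarith

end C3x

open C3x in
open Classical in
theorem p_C3 (hDUAL : tDUAL) (hGF : tGF) (hFOUR : tFOUR) (hB2 : tB2) (hB5 : tB5)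
    (hB6 : tB6) : tC3 := by
  obtain ⟨C2, hC2, H2⟩ := hB2
  obtain ⟨C5, hC5, H5⟩ := hB5
  obtain ⟨C6, hC6, H6⟩ := hB6
  refine ⟨4 * (750 * C2 * (C5 * 25 + C5 * 25 + C6 * 20)), by positivity, ?_⟩
  intro m e hm he he1
  have hmR : (2 : ℝ) ≤ m := by exact_mod_cast hm
  have hm0 : (0 : ℝ) < m := by linarith
  set G : Finset (IM × IM) := (PPf m).filter fun P => ¬ Gap e m P with hG
  set τ : ℝ := max 1 (e * m) with hτd
  have hτ1 : 1 ≤ τ := le_max_left _ _
  have hτe : e * m ≤ τ := le_max_right _ _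
  have hτm : τ ≤ m := max_le (by linarith) (by nlinarith)
  have hτs : τ ≤ 1 + e * m := max_le (by nlinarith) (by linarith)
  -- the flags
  let FS : Finset ((Fin 3 → ℤ) × (Fin 3 → ℤ)) :=
    (vbox (4 * m) ×ˢ vbox (4 * m)).filter fun F =>
      Flag F.1 F.2 ∧ sn F.1 ≤ 4 * m ∧ sn F.2 ≤ 4 * m ∧ sn F.2 ^ 2 ≤ 4 * m * sn F.1
  -- step a
  have ha : G.card ≤ 4 * (G.image Prod.fst).card := by
    apply Finset.card_le_mul_card_image
    intro A _
    have hinj : Set.InjOn Prod.snd (↑(G.filter fun P => P.1 = A) : Set (IM × IM)) := by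
      intro P hP Q hQ hPQ
      rw [Finset.mem_coe, Finset.mem_filter] at hP hQ
      exact Prod.ext (hP.2.trans hQ.2.symm) hPQ
    rw [← Finset.card_image_of_injOn hinj]
    apply hFOUR A
    intro V hV
    rw [Finset.mem_image] at hV
    obtain ⟨P, hP, rfl⟩ := hV
    rw [Finset.mem_filter] at hP
    obtain ⟨hP1, hP2⟩ := hP
    rw [hG, Finset.mem_filter] at hP1
    have hP3 := hP1.1
    unfold PPf at hP3
    rw [Finset.mem_filter] at hP3
    obtain ⟨l, hl⟩ := hP3.2.2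
    rw [hP2] at hl
    exact ⟨l, hl⟩
  -- step b
  have hb : G.image Prod.fst ⊆ FS.biUnion fun F => (box m).filter fun A =>
      Pres A F.1 F.2 ∧ Near A F.1 F.2 τ := by
    intro A hA
    rw [Finset.mem_image] at hA
    obtain ⟨P, hP, rfl⟩ := hA
    rw [hG, Finset.mem_filter] at hP
    obtain ⟨hP3, hgap⟩ := hP
    unfold PPf at hP3
    rw [Finset.mem_filter, Finset.mem_product] at hP3
    obtain ⟨⟨hbox, _⟩, hn, l, hl⟩ := hP3
    obtain ⟨i, k, hik, hfl, hpr, hs1, hs2, hs3, hs4, hs5⟩ := hGF m P.1 P.2 l hl hn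
    obtain ⟨_, _, _, _, hd5, hd6⟩ := hDUAL P.1 P.2 l hl
    rw [Finset.mem_biUnion]
    refine ⟨(vcol P.2 i, vst P.2 k), ?_, ?_⟩
    · rw [Finset.mem_filter, Finset.mem_product]
      refine ⟨⟨mem_vbox _ _ ?_, mem_vbox _ _ ?_⟩, hfl, hs3, hs4, hs2⟩
      · push_cast; exact hs3
      · push_cast; exact hs4
    · rw [Finset.mem_filter]
      exact ⟨hbox, hpr, near_of e τ m P.1 P.2 l hl hgap hτe i k hik (hd6 i) (hd5 k)⟩
  have hc : ((G.image Prod.fst).card : ℝ) ≤
      ∑ F ∈ FS, (750 * C2 * (m : ℝ) ^ 5 * τ * wt F + 750 * C2 * (m : ℝ) ^ 5 * (sn F.1 * wt F)) := by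
    have h1 : (G.image Prod.fst).card ≤
        ∑ F ∈ FS, ((box m).filter fun A => Pres A F.1 F.2 ∧ Near A F.1 F.2 τ).card :=
      (Finset.card_le_card hb).trans Finset.card_biUnion_le
    have h2 : ((G.image Prod.fst).card : ℝ) ≤
        ∑ F ∈ FS, (((box m).filter fun A => Pres A F.1 F.2 ∧ Near A F.1 F.2 τ).card : ℝ) := by
      exact_mod_cast h1
    refine h2.trans (Finset.sum_le_sum ?_)
    intro F hF
    rw [Finset.mem_filter] at hF
    obtain ⟨_, hfl, hF1, hF2, hF3⟩ := hF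
    have hp1 := one_le_sn_of_prim F.1 hfl.1
    have hq1 := one_le_sn_of_prim F.2 hfl.2.1
    have hB := H2 F.1 F.2 hfl m τ hτ1 hτm
      ((box m).filter fun A => Pres A F.1 F.2 ∧ Near A F.1 F.2 τ) (by
      intro A hA
      rw [Finset.mem_filter] at hA
      exact ⟨hA.2.1, fun i j => box_abs m A hA.1 i j, hA.2.2⟩)
    have := flag_bound C2 m (sn F.1) (sn F.2) _ τ hC2 hmR hp1 hq1 hτ1 hF3 hF1 hB
    unfold wt
    exact this
  have hd : ∑ F ∈ FS, wt F ≤ C5 * (1 + Real.log (4 * m)) * (1 + Real.log (4 * m)) := by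
    apply H5 (4 * m) (4 * m) (by linarith) le_rfl FS
    intro F hF
    rw [Finset.mem_filter] at hF
    exact ⟨hF.2.1, hF.2.2.1, hF.2.2.2.1⟩
  have hd2 : ∑ F ∈ FS, sn F.1 * wt F ≤ C6 * (4 * m) * (1 + Real.log (4 * m)) := by
    apply H6 (4 * m) (by linarith) FS
    intro F hF
    rw [Finset.mem_filter] at hF
    exact ⟨hF.2.1, hF.2.2.1, hF.2.2.2.1⟩
  -- logs
  have hl2 : (0.69 : ℝ) < Real.log 2 := by
    have := Real.log_two_gt_d9
    linarith
  have hlm : Real.log 2 ≤ Real.log m := Real.log_le_log (by norm_num) hmR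
  have hl4 : Real.log (4 * (m : ℝ)) = 2 * Real.log 2 + Real.log m := by
    rw [Real.log_mul (by norm_num) hm0.ne']
    have : Real.log 4 = 2 * Real.log 2 := by
      rw [show (4 : ℝ) = 2 ^ 2 by norm_num, Real.log_pow]
      norm_num
    rw [this]
  have hl5 : 1 + Real.log (4 * (m : ℝ)) ≤ 5 * Real.log m := by
    rw [hl4]; linarith
  have hl50 : 0 ≤ 1 + Real.log (4 * (m : ℝ)) := by
    rw [hl4]; linarith
  set L := Real.log m with hL
  have hL0 : 0 < L := by linarith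
  have hLm : L ≤ m := Real.log_le_self hm0.le
  have hd' : ∑ F ∈ FS, wt F ≤ C5 * 25 * L ^ 2 := by
    refine hd.trans ?_
    calc C5 * (1 + Real.log (4 * m)) * (1 + Real.log (4 * m)) ≤ C5 * (5 * L) * (5 * L) := by
          gcongr
      _ = C5 * 25 * L ^ 2 := by ring
  have hd2' : ∑ F ∈ FS, sn F.1 * wt F ≤ C6 * 20 * m * L := by
    refine hd2.trans ?_
    calc C6 * (4 * m) * (1 + Real.log (4 * m)) ≤ C6 * (4 * m) * (5 * L) := by gcongr
      _ = C6 * 20 * m * L := by ring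
  have ha' : (G.card : ℝ) ≤ 4 * ((G.image Prod.fst).card : ℝ) := by exact_mod_cast ha
  rw [Finset.sum_add_distrib, ← Finset.mul_sum, ← Finset.mul_sum] at hc
  have h7 : 750 * C2 * (m : ℝ) ^ 5 * τ * (C5 * 25 * L ^ 2) ≤
      750 * C2 * (m : ℝ) ^ 6 * (C5 * 25 * (e * L ^ 2) + C5 * 25 * L) := by
    calc 750 * C2 * (m : ℝ) ^ 5 * τ * (C5 * 25 * L ^ 2)
        ≤ 750 * C2 * (m : ℝ) ^ 5 * (1 + e * m) * (C5 * 25 * L ^ 2) := by gcongr
      _ = 750 * C2 * (m : ℝ) ^ 6 * (C5 * 25 * (e * L ^ 2)) +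
          750 * C2 * (m : ℝ) ^ 5 * (C5 * 25) * (L * L) := by ring
      _ ≤ 750 * C2 * (m : ℝ) ^ 6 * (C5 * 25 * (e * L ^ 2)) +
          750 * C2 * (m : ℝ) ^ 5 * (C5 * 25) * (m * L) := by gcongr
      _ = _ := by ring
  calc (G.card : ℝ) ≤ 4 * ((G.image Prod.fst).card : ℝ) := ha'
    _ ≤ 4 * (750 * C2 * (m : ℝ) ^ 5 * τ * (C5 * 25 * L ^ 2) +
        750 * C2 * (m : ℝ) ^ 5 * (C6 * 20 * m * L)) := by
        have g1 := mul_le_mul_of_nonneg_left hd'
          (by positivity : 0 ≤ 750 * C2 * (m : ℝ) ^ 5 * τ)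
        have g2 := mul_le_mul_of_nonneg_left hd2' (by positivity : 0 ≤ 750 * C2 * (m : ℝ) ^ 5)
        linarith
    _ ≤ 4 * (750 * C2 * (m : ℝ) ^ 6 * (C5 * 25 * (e * L ^ 2) + C5 * 25 * L) +
        750 * C2 * (m : ℝ) ^ 5 * (C6 * 20 * m * L)) := by linarith
    _ = 4 * (750 * C2) * (m : ℝ) ^ 6 * (C5 * 25 * (e * L ^ 2) + (C5 * 25 + C6 * 20) * L) := by
        ring
    _ ≤ 4 * (750 * C2) * (m : ℝ) ^ 6 * ((C5 * 25 + C5 * 25 + C6 * 20) * (e * L ^ 2) +
        (C5 * 25 + C5 * 25 + C6 * 20) * L) := by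
        have g1 : C5 * 25 ≤ C5 * 25 + C5 * 25 + C6 * 20 := by
          have : 0 < C5 * 25 + C6 * 20 := by positivity
          linarith
        have g2 : C5 * 25 + C6 * 20 ≤ C5 * 25 + C5 * 25 + C6 * 20 := by linarith
        gcongr
    _ = 4 * (750 * C2 * (C5 * 25 + C5 * 25 + C6 * 20)) * (m : ℝ) ^ 6 * (e * L ^ 2 + L) := by ring

end SAIL.A
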