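import Pool.Agent.SAIL.ARI.Targets

/-!
SAIL / ARI / C4: lower bound for all pairs.
-/

namespace SAIL.A

open Matrix SAIL

namespace C4x

/-- The signed vector. -/
def sg (s : Bool) (v : Fin 3 → ℤ) : Fin 3 → ℤ := if s then v else -v

/-- The flags attached to a pair. -/
noncomputable def flg (V : IM) (x : (Fin 3 × Fin 3) × (Bool × Bool)) :
    (Fin 3 → ℤ) × (Fin 3 → ℤ) :=
  (sg x.2.1 (vcol V x.1.1), sg x.2.2 (vst V x.1.2))

theorem sn_prim {p : Fin 3 → ℤ} (h : prim p) : 1 ≤ sn p := by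
  have hne : ∃ i, p i ≠ 0 := by
    by_contra hcon
    push Not at hcon
    have h2 := h 2 (fun i => by rw [hcon i]; exact dvd_zero 2)
    rw [Int.isUnit_iff] at h2
    omega
  obtain ⟨i, hi⟩ := hne
  have h1 : ‖((p i : ℤ) : ℝ)‖ ≤ sn p := norm_le_pi_norm (fun i => (p i : ℝ)) i
  have h2 : (1 : ℝ) ≤ ‖((p i : ℤ) : ℝ)‖ := by
    rw [Real.norm_eq_abs]
    have : (1 : ℤ) ≤ |p i| := Int.one_le_abs hi
    exact_mod_cast this
  linarith

theorem mem_flg (hFOB : tFOB) {A V : IM} {l : Fin 3 → ℤ} (hE : Eig A V l)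
    {F : (Fin 3 → ℤ) × (Fin 3 → ℤ)} (hF : Flag F.1 F.2) (hP : Pres A F.1 F.2) :
    ∃ x, flg V x = F := by
  obtain ⟨i, k, -, hp, hq⟩ := hFOB A V l hE F.1 F.2 hF hP
  rcases hp with hp | hp <;> rcases hq with hq | hq
  · exact ⟨((i, k), (true, true)), by
      apply Prod.ext <;> simp [flg, sg, hp, hq]⟩
  · exact ⟨((i, k), (true, false)), by
      apply Prod.ext <;> simp [flg, sg, hp, hq]⟩
  · exact ⟨((i, k), (false, true)), by
      apply Prod.ext <;> simp [flg, sg, hp, hq]⟩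
  · exact ⟨((i, k), (false, false)), by
      apply Prod.ext <;> simp [flg, sg, hp, hq]⟩

open Classical in
/-- Double counting. -/
theorem dc (hSPEC : tSPEC) (hFOB : tFOB) (m : ℕ)
    (S : Finset ((Fin 3 → ℤ) × (Fin 3 → ℤ))) (hS : ∀ F ∈ S, Flag F.1 F.2)
    (SF : (Fin 3 → ℤ) × (Fin 3 → ℤ) → Finset IM)
    (hSF : ∀ F ∈ S, ∀ A ∈ SF F, Pres A F.1 F.2 ∧ nrm A ≤ m ∧ ∃ V l, Eig A V l) :
    ∑ F ∈ S, (SF F).card ≤ 36 * (PPf m).card := by
  rw [← Finset.card_sigma]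
  -- choice of an eigenbasis
  let Vf : IM → IM := fun A => if h : ∃ V l, Eig A V l then h.choose else 0
  have hVf : ∀ A : IM, (∃ V l, Eig A V l) → ∃ l, Eig A (Vf A) l := by
    intro A h
    have hh := h.choose_spec
    simp only [Vf, h, dite_true]
    exact hh
  refine Finset.card_le_mul_card_image_of_maps_to
    (f := fun x : (_ : (Fin 3 → ℤ) × (Fin 3 → ℤ)) × IM => (x.2, Vf x.2)) ?_ 36 ?_
  · intro x hx
    rw [Finset.mem_sigma] at hx
    obtain ⟨-, h2, h3⟩ := hSF x.1 hx.1 x.2 hx.2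
    obtain ⟨l, hl⟩ := hVf x.2 h3
    exact (hSPEC m x.2 (Vf x.2) l hl h2).2.2.2.2.2.1
  · intro P hP
    let g : (Fin 3 × Fin 3) × (Bool × Bool) → (_ : (Fin 3 → ℤ) × (Fin 3 → ℤ)) × IM :=
      fun x => ⟨flg P.2 x, P.1⟩
    have hsub : ((S.sigma fun F => SF F).filter fun x => (x.2, Vf x.2) = P) ⊆
        Finset.univ.image g := by
      intro x hx
      rw [Finset.mem_filter, Finset.mem_sigma] at hx
      obtain ⟨⟨hx1, hx2⟩, hx3⟩ := hx
      obtain ⟨h1, h2, h3⟩ := hSF x.1 hx1 x.2 hx2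
      obtain ⟨l, hl⟩ := hVf x.2 h3
      obtain ⟨y, hy⟩ := mem_flg hFOB hl (hS x.1 hx1) h1
      rw [Finset.mem_image]
      refine ⟨y, Finset.mem_univ _, ?_⟩
      have e1 : P.1 = x.2 := by rw [← hx3]
      have e2 : P.2 = Vf x.2 := by rw [← hx3]
      obtain ⟨x1, x2⟩ := x
      simp only [g]
      simp only at e1 e2 hy
      rw [e1, e2, hy]
    calc _ ≤ (Finset.univ.image g).card := Finset.card_le_card hsub
      _ ≤ (Finset.univ : Finset ((Fin 3 × Fin 3) × (Bool × Bool))).card := Finset.card_image_le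
      _ = 36 := by simp

end C4x

open C4x in
theorem p_C4 (hSPEC : tSPEC) (hFOB : tFOB) (hB3 : tB3) (hB10 : tB10) : tC4 := by
  obtain ⟨c, c₁, m₀, hc, hc₁, H3⟩ := hB3
  obtain ⟨c', X₀, hc', H10⟩ := hB10
  refine ⟨c * c' / 576, max (max m₀ 1) (max ((max X₀ 1) ^ 4) ((1 / c₁) ^ 4)), by positivity, ?_⟩
  intro m hm
  have hm0 : m₀ ≤ m := le_trans (le_trans (le_max_left _ _) (le_max_left _ _)) hm
  have hm1 : (1 : ℝ) ≤ m := le_trans (le_trans (le_max_right _ _) (le_max_left _ _)) hm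
  have hmX : (max X₀ 1) ^ 4 ≤ (m : ℝ) :=
    le_trans (le_trans (le_max_left _ _) (le_max_right _ _)) hm
  have hmc : (1 / c₁) ^ 4 ≤ (m : ℝ) :=
    le_trans (le_trans (le_max_right _ _) (le_max_right _ _)) hm
  have hmpos : (0 : ℝ) < m := by linarith
  set X : ℝ := (m : ℝ) ^ (1 / 4 : ℝ) with hX
  have hX0 : 0 ≤ X := Real.rpow_nonneg hmpos.le _
  have hX4 : X ^ 4 = m := by
    rw [hX, ← Real.rpow_natCast, ← Real.rpow_mul hmpos.le]
    norm_num
  have key : ∀ t : ℝ, 0 ≤ t → t ^ 4 ≤ m → t ≤ X := by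
    intro t ht h
    rw [← hX4] at h
    exact le_of_pow_le_pow_left₀ (by norm_num) hX0 h
  have hXX : X₀ ≤ X := le_trans (le_max_left _ _)
    (key _ (le_trans zero_le_one (le_max_right _ _)) hmX)
  have hX1 : 1 ≤ X := key 1 zero_le_one (by simpa using hm1)
  have hXc : 1 / c₁ ≤ X := key _ (by positivity) hmc
  have hcX : 1 ≤ c₁ * X := by
    have h1 := mul_le_mul_of_nonneg_left hXc hc₁.le
    have h2 : c₁ * (1 / c₁) = 1 := by field_simp
    linarith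
  -- X ^ 3 ≤ c₁ * m
  have hX3 : X ^ 3 ≤ c₁ * m := by
    have h1 : X ^ 3 * 1 ≤ X ^ 3 * (c₁ * X) :=
      mul_le_mul_of_nonneg_left hcX (by positivity)
    calc X ^ 3 = X ^ 3 * 1 := by ring
      _ ≤ X ^ 3 * (c₁ * X) := h1
      _ = c₁ * X ^ 4 := by ring
      _ = c₁ * m := by rw [hX4]
  have hXm : X ≤ c₁ * m := by
    have : X ≤ X ^ 3 := by
      nlinarith [mul_le_mul hX1 hX1 zero_le_one hX0]
    linarith
  obtain ⟨S, hS, hSsum⟩ := H10 X hXX
  have hlog : Real.log X = Real.log m / 4 := by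
    have : Real.log m = 4 * Real.log X := by
      rw [← hX4, Real.log_pow]; norm_num
    linarith
  -- the matrices of each flag
  have hex : ∀ F : (Fin 3 → ℤ) × (Fin 3 → ℤ), ∃ T : Finset IM, F ∈ S →
      (c * (m : ℝ) ^ 6 * wt F ≤ T.card ∧
      ∀ A ∈ T, Pres A F.1 F.2 ∧ nrm A ≤ m ∧ ∃ V l, Eig A V l) := by
    intro F
    by_cases hF : F ∈ S
    · obtain ⟨hfl, hp, hq⟩ := hS F hF
      have hsp : 1 ≤ sn F.1 := sn_prim hfl.1
      obtain ⟨T, hT1, hT2⟩ := H3 m hm0 F.1 F.2 hfl (le_trans hp hXm) (by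
        have h1 : c₁ * (m : ℝ) * 1 ≤ c₁ * m * sn F.1 :=
          mul_le_mul_of_nonneg_left hsp (by positivity)
        linarith)
      refine ⟨T, fun _ => ⟨?_, hT2⟩⟩
      have : c * (m : ℝ) ^ 6 * wt F = c * (m : ℝ) ^ 6 / (sn F.1 * sn F.2) ^ 2 := by
        unfold wt; ring
      rw [this]; exact hT1
    · exact ⟨∅, fun h => absurd h hF⟩
  choose SF hSF using hex
  have h1 := dc hSPEC hFOB m S (fun F hF => (hS F hF).1) SF (fun F hF => (hSF F hF).2)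
  have h2 : c * (m : ℝ) ^ 6 * ∑ F ∈ S, wt F ≤ ((∑ F ∈ S, (SF F).card : ℕ) : ℝ) := by
    rw [Finset.mul_sum, Nat.cast_sum]
    exact Finset.sum_le_sum fun F hF => (hSF F hF).1
  have h3 : ((∑ F ∈ S, (SF F).card : ℕ) : ℝ) ≤ 36 * ((PPf m).card : ℝ) := by
    exact_mod_cast h1
  have h4 : c * (m : ℝ) ^ 6 * (c' * Real.log X ^ 2) ≤ c * (m : ℝ) ^ 6 * ∑ F ∈ S, wt F :=
    mul_le_mul_of_nonneg_left hSsum (by positivity)
  rw [hlog] at h4
  have h5 : c * (m : ℝ) ^ 6 * (c' * (Real.log m / 4) ^ 2) =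
      36 * (c * c' / 576 * (m : ℝ) ^ 6 * Real.log m ^ 2) := by ring
  rw [h5] at h4
  linarith

end SAIL.A
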