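import Pool.Agent.SAIL.ARI.Targets

/-!
# SAIL, arithmetic part, C5: local upper bound (helper76)
-/

set_option autoImplicit false

open Matrix MeasureTheory Filter SAIL

namespace SAIL.A.C5x

theorem adj_entry (h : M3) (i j : Fin 3) : h.adjugate i j =
    h (j + 1) (i + 1) * h (j + 2) (i + 2) - h (j + 1) (i + 2) * h (j + 2) (i + 1) := by
  rw [Matrix.adjugate_fin_three]
  fin_cases i <;> fin_cases j <;> simp <;> ring

theorem inv_eq_adj {h : M3} (hd : h.det = 1) : h⁻¹ = h.adjugate := by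
  rw [Matrix.inv_def, hd]
  simp

theorem prod_diff {x y x' y' Q r : ℝ} (hy : |y| ≤ Q) (hx' : |x'| ≤ Q)
    (hx : |x - x'| ≤ r) (hyy : |y - y'| ≤ r) : |x * y - x' * y'| ≤ 2 * (Q * r) := by
  have h1 : x * y - x' * y' = (x - x') * y + x' * (y - y') := by ring
  have hr : 0 ≤ r := (abs_nonneg _).trans hx
  have hQ : 0 ≤ Q := (abs_nonneg _).trans hy
  calc |x * y - x' * y'| ≤ |x - x'| * |y| + |x'| * |y - y'| := by
        rw [h1]
        refine (abs_add_le _ _).trans ?_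
        rw [abs_mul, abs_mul]
    _ ≤ r * Q + Q * r := by gcongr
    _ = 2 * (Q * r) := by ring

theorem inv_bound {h : M3} (hd : h.det = 1) {Q : ℝ} (hb : ∀ i j, |h i j| ≤ Q) (i j : Fin 3) :
    |h⁻¹ i j| ≤ 2 * Q ^ 2 := by
  rw [inv_eq_adj hd, adj_entry]
  have hQ : 0 ≤ Q := (abs_nonneg _).trans (hb 0 0)
  calc |h (j + 1) (i + 1) * h (j + 2) (i + 2) - h (j + 1) (i + 2) * h (j + 2) (i + 1)|
      ≤ |h (j + 1) (i + 1)| * |h (j + 2) (i + 2)| + |h (j + 1) (i + 2)| * |h (j + 2) (i + 1)| := by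
        refine (abs_sub _ _).trans ?_
        rw [abs_mul, abs_mul]
    _ ≤ Q * Q + Q * Q := by
        gcongr <;> exact hb _ _
    _ = 2 * Q ^ 2 := by ring

theorem inv_diff {h g : M3} (hd : h.det = 1) (gd : g.det = 1) {Q r : ℝ}
    (hb : ∀ i j, |h i j| ≤ Q) (gb : ∀ i j, |g i j| ≤ Q) (hr : ∀ i j, |h i j - g i j| ≤ r)
    (i j : Fin 3) : |h⁻¹ i j - g⁻¹ i j| ≤ 4 * (Q * r) := by
  rw [inv_eq_adj hd, inv_eq_adj gd, adj_entry, adj_entry]
  have e1 := prod_diff (hb (j + 2) (i + 2)) (gb (j + 1) (i + 1)) (hr (j + 1) (i + 1))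
    (hr (j + 2) (i + 2))
  have e2 := prod_diff (hb (j + 2) (i + 1)) (gb (j + 1) (i + 2)) (hr (j + 1) (i + 2))
    (hr (j + 2) (i + 1))
  rw [abs_le] at e1 e2 ⊢
  constructor <;> linarith [e1.1, e1.2, e2.1, e2.2]

/-- the conjugation formula -/
theorem conj_formula (hGM : tGM) {A V : IM} {l : Fin 3 → ℤ} (hE : Eig A V l) (y : ℝ × ℝ)
    (i j : Fin 3) : (A i j : ℝ) =
      ∑ k, (gmat V y)⁻¹ i k * (l k : ℝ) * (gmat V y) k j := by
  obtain ⟨hAV, -, -, -, hdet⟩ := hE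
  obtain ⟨hd, -, -, -, hinv, -⟩ := hGM V hdet y
  set h := gmat V y with hh
  have h1 : toR A * h⁻¹ = h⁻¹ * Matrix.diagonal (fun k => (l k : ℝ)) := by
    ext r k
    rw [Matrix.mul_apply, Matrix.mul_diagonal, hinv]
    have h2 := congrFun (congrFun hAV r) k
    rw [Matrix.mul_apply, Matrix.mul_diagonal] at h2
    have h3 : ∑ s, (A r s : ℝ) * (V s k : ℝ) = (V r k : ℝ) * (l k : ℝ) := by
      exact_mod_cast h2
    calc ∑ s, toR A r s * h⁻¹ s k = ∑ s, ((A r s : ℝ) * (V s k : ℝ)) * Real.exp (-pos V y k) := by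
          refine Finset.sum_congr rfl fun s _ => ?_
          rw [hinv]
          simp only [toR, Matrix.map_apply]
          ring
      _ = (V r k : ℝ) * Real.exp (-pos V y k) * (l k : ℝ) := by
          rw [← Finset.sum_mul, h3]
          ring
  have hu : IsUnit h.det := by rw [hd]; exact isUnit_one
  have h4 : toR A = h⁻¹ * Matrix.diagonal (fun k => (l k : ℝ)) * h := by
    rw [← h1, Matrix.mul_assoc, Matrix.nonsing_inv_mul h hu, Matrix.mul_one]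
  have h5 := congrFun (congrFun h4 i) j
  rw [Matrix.mul_apply] at h5
  simp only [Matrix.mul_diagonal] at h5
  simpa [toR] using h5

theorem cone {v : Fin 3 → ℤ} {a b : Fin 3 → ℝ} {t ε δ : ℝ} (ht : 0 < t)
    (hv : ∀ j, (v j : ℝ) = t * a j) (hab : ∀ j, |a j - b j| ≤ ε) (hb : b ≠ 0)
    (ha : δ ≤ ‖a‖) (hδ : 0 < δ) (j : Fin 3) :
    |(v j : ℝ) - sn v * ((‖b‖⁻¹ • b) j)| ≤ 2 * ε / δ * sn v := by
  have hε : 0 ≤ ε := (abs_nonneg _).trans (hab 0)
  have hsn : sn v = t * ‖a‖ := by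
    have : (fun i => (v i : ℝ)) = t • a := by
      funext i
      rw [hv i]
      rfl
    rw [sn, this, norm_smul, Real.norm_eq_abs, abs_of_pos ht]
  have hnb : 0 < ‖b‖ := norm_pos_iff.2 hb
  have hd : ‖a - b‖ ≤ ε := by
    rw [pi_norm_le_iff_of_nonneg hε]
    intro i
    simpa using hab i
  have hn : |‖b‖ - ‖a‖| ≤ ε := by
    rw [abs_sub_comm]
    exact (abs_norm_sub_norm_le a b).trans hd
  have hbj : |b j| ≤ ‖b‖ := by
    simpa using norm_le_pi_norm b j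
  have e1 : (v j : ℝ) - sn v * ((‖b‖⁻¹ • b) j) =
      t * ((a j - b j) + b j / ‖b‖ * (‖b‖ - ‖a‖)) := by
    rw [hv j, hsn, Pi.smul_apply, smul_eq_mul]
    field_simp
    ring
  have e2 : |(a j - b j) + b j / ‖b‖ * (‖b‖ - ‖a‖)| ≤ 2 * ε := by
    refine (abs_add_le _ _).trans ?_
    rw [abs_mul, abs_div, abs_of_pos hnb]
    have : |b j| / ‖b‖ ≤ 1 := (div_le_one hnb).2 hbj
    calc |a j - b j| + |b j| / ‖b‖ * |‖b‖ - ‖a‖| ≤ ε + 1 * ε := by
          gcongr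
          exact hab j
      _ = 2 * ε := by ring
  rw [e1, abs_mul, abs_of_pos ht, hsn]
  calc t * |(a j - b j) + b j / ‖b‖ * (‖b‖ - ‖a‖)| ≤ t * (2 * ε) := by gcongr
    _ ≤ t * (2 * ε * (‖a‖ / δ)) := by
        have : 1 ≤ ‖a‖ / δ := (one_le_div hδ).2 ha
        have h2 : 0 ≤ 2 * ε := by linarith
        exact mul_le_mul_of_nonneg_left (le_mul_of_one_le_right h2 this) ht.le
    _ = 2 * ε / δ * (t * ‖a‖) := by ring

/-- lower bound for the norm of a factor of a dot product equal to one -/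
theorem norm_lower {a c : Fin 3 → ℝ} {Q : ℝ} (hQ : 0 < Q) (hc : ∀ j, |c j| ≤ Q)
    (h : ∑ j, c j * a j = 1) : 1 / (3 * Q) ≤ ‖a‖ := by
  have h1 : (1 : ℝ) ≤ 3 * Q * ‖a‖ := by
    calc (1 : ℝ) = |∑ j, c j * a j| := by rw [h, abs_one]
      _ ≤ ∑ j, |c j * a j| := Finset.abs_sum_le_sum_abs _ _
      _ ≤ ∑ _j : Fin 3, Q * ‖a‖ := by
          refine Finset.sum_le_sum fun j _ => ?_
          rw [abs_mul]
          have : |a j| ≤ ‖a‖ := by simpa using norm_le_pi_norm a j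
          gcongr
          exact hc j
      _ = 3 * Q * ‖a‖ := by
          rw [Finset.sum_const, Finset.card_univ, Fintype.card_fin]
          simp
          ring
  rw [div_le_iff₀ (by positivity)]
  linarith

/-- rows of the inverse matrix are proportional to the dual vectors -/
theorem vst_row (hADJ : tADJ) (hGM : tGM) {A V : IM} {l : Fin 3 → ℤ} (hE : Eig A V l)
    (y : ℝ × ℝ) (k : Fin 3) : ∃ t : ℝ, 0 < t ∧ ∀ j, (vst V k j : ℝ) = t * gmat V y k j := by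
  obtain ⟨-, -, -, hprim, hdet⟩ := hE
  obtain ⟨hcn, -, hadj, -⟩ := hADJ V hdet hprim
  obtain ⟨-, -, -, hent, -⟩ := hGM V hdet y
  have hD : (0 : ℝ) < (V.det : ℝ) := by exact_mod_cast hdet
  have hc : (0 : ℝ) < (cn V k : ℝ) := by exact_mod_cast hcn k
  have hdR : (toR V).det = (V.det : ℝ) := by
    have := (Int.castRingHom ℝ).map_det V
    simpa [toR, RingHom.mapMatrix_apply] using this.symm
  have hadR : ∀ j, (toR V).adjugate k j = (cn V k : ℝ) * (vst V k j : ℝ) := by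
    intro j
    have h1 := (Int.castRingHom ℝ).map_adjugate V
    have h2 := congrFun (congrFun h1 k) j
    have h3 : (toR V).adjugate k j = ((V.adjugate k j : ℤ) : ℝ) := by
      simpa [toR, RingHom.mapMatrix_apply] using h2.symm
    rw [h3, hadj k j]
    push_cast
    ring
  refine ⟨(V.det : ℝ) / ((cn V k : ℝ) * Real.exp (pos V y k)), by positivity, fun j => ?_⟩
  rw [hent, Matrix.inv_def, hdR, Matrix.smul_apply, hadR, Ring.inverse_eq_inv', smul_eq_mul]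
  have := Real.exp_ne_zero (pos V y k)
  field_simp

theorem pdata (hADJ : tADJ) (hGM : tGM) {A V : IM} {l : Fin 3 → ℤ} (hE : Eig A V l) {m : ℝ}
    (hm : 0 ≤ m) {g : M3} (gd : g.det = 1) {R r : ℝ} (hR : 1 ≤ R) (hr0 : 0 < r) (hr1 : r ≤ 1)
    (gb : ∀ i j, |g i j| ≤ R) {L : Fin 3 → ℝ} (hL : ∀ i, |L i| ≤ 1)
    (hl : ∀ i, |(l i : ℝ) - m * L i| ≤ r * m) {y : ℝ × ℝ}
    (hy : ∀ i j, |gmat V y i j - g i j| ≤ r) :
    (∀ i j, |(A i j : ℝ) - m * ∑ k, g⁻¹ i k * L k * g k j| ≤ 36 * (R + 1) ^ 3 * r * m) ∧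
    (∀ i j, |(A i j : ℝ)| ≤ 12 * (R + 1) ^ 3 * m) ∧
    (∀ i j, |(vcol V i j : ℝ) -
      sn (vcol V i) * ((‖(fun s => g⁻¹ s i : Fin 3 → ℝ)‖⁻¹ • fun s => g⁻¹ s i) j)| ≤
        24 * (R + 1) ^ 2 * r * sn (vcol V i)) ∧
    (∀ k j, |(vst V k j : ℝ) -
      sn (vst V k) * ((‖(fun s => g k s : Fin 3 → ℝ)‖⁻¹ • fun s => g k s) j)| ≤
        24 * (R + 1) ^ 2 * r * sn (vst V k)) := by
  set Q := R + 1 with hQ
  have hQ2 : 2 ≤ Q := by linarith
  have hdet := hE.2.2.2.2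
  obtain ⟨hd, -, -, -, hinv, -⟩ := hGM V hdet y
  set h := gmat V y with hh
  have gbQ : ∀ i j, |g i j| ≤ Q := fun i j => (gb i j).trans (by linarith)
  have hbQ : ∀ i j, |h i j| ≤ Q := by
    intro i j
    calc |h i j| = |g i j + (h i j - g i j)| := by congr 1; ring
      _ ≤ |g i j| + |h i j - g i j| := abs_add_le _ _
      _ ≤ R + r := add_le_add (gb i j) (hy i j)
      _ ≤ Q := by linarith
  have hib := inv_bound hd hbQ
  have gib := inv_bound gd gbQ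
  have hid := inv_diff hd gd hbQ gbQ hy
  have hlm : ∀ k, |(l k : ℝ)| ≤ 2 * m := by
    intro k
    calc |(l k : ℝ)| = |m * L k + ((l k : ℝ) - m * L k)| := by congr 1; ring
      _ ≤ |m * L k| + |(l k : ℝ) - m * L k| := abs_add_le _ _
      _ ≤ m * 1 + r * m := by
          rw [abs_mul, abs_of_nonneg hm]
          gcongr
          · exact hL k
          · exact hl k
      _ ≤ 2 * m := by nlinarith
  have hA := conj_formula hGM hE y
  have hunit : IsUnit h.det := by rw [hd]; exact isUnit_one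
  have gunit : IsUnit g.det := by rw [gd]; exact isUnit_one
  have hh1 : ∀ i, ∑ j, h i j * h⁻¹ j i = 1 := by
    intro i
    have := congrFun (congrFun (Matrix.mul_nonsing_inv h hunit) i) i
    rwa [Matrix.mul_apply, Matrix.one_apply_eq] at this
  have gg1 : ∀ i, ∑ j, g i j * g⁻¹ j i = 1 := by
    intro i
    have := congrFun (congrFun (Matrix.mul_nonsing_inv g gunit) i) i
    rwa [Matrix.mul_apply, Matrix.one_apply_eq] at this
  refine ⟨fun i j => ?_, fun i j => ?_, fun i j => ?_, fun k j => ?_⟩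
  · rw [hA i j, Finset.mul_sum, ← Finset.sum_sub_distrib]
    have key : ∀ k, |h⁻¹ i k * (l k : ℝ) * h k j - m * (g⁻¹ i k * L k * g k j)| ≤
        12 * Q ^ 3 * r * m := by
      intro k
      have e : h⁻¹ i k * (l k : ℝ) * h k j - m * (g⁻¹ i k * L k * g k j) =
          (h⁻¹ i k - g⁻¹ i k) * (l k : ℝ) * h k j + g⁻¹ i k * ((l k : ℝ) - m * L k) * h k j +
          g⁻¹ i k * (m * L k) * (h k j - g k j) := by ring
      have b1 : |(h⁻¹ i k - g⁻¹ i k) * (l k : ℝ) * h k j| ≤ 4 * (Q * r) * (2 * m) * Q := by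
        rw [abs_mul, abs_mul]
        gcongr
        · exact hid i k
        · exact hlm k
        · exact hbQ k j
      have b2 : |g⁻¹ i k * ((l k : ℝ) - m * L k) * h k j| ≤ 2 * Q ^ 2 * (r * m) * Q := by
        rw [abs_mul, abs_mul]
        gcongr
        · exact gib i k
        · exact hl k
        · exact hbQ k j
      have b3 : |g⁻¹ i k * (m * L k) * (h k j - g k j)| ≤ 2 * Q ^ 2 * (m * 1) * r := by
        rw [abs_mul, abs_mul, abs_mul m, abs_of_nonneg hm]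
        gcongr
        · exact gib i k
        · exact hL k
        · exact hy k j
      rw [e]
      refine (abs_add_three _ _ _).trans ?_
      have hrm : 0 ≤ r * m := by positivity
      have q1 : Q ^ 2 ≤ Q ^ 3 := by nlinarith [sq_nonneg Q]
      have q2 : 2 * Q ^ 2 ≤ Q ^ 3 := by nlinarith [sq_nonneg Q]
      calc _ ≤ 4 * (Q * r) * (2 * m) * Q + 2 * Q ^ 2 * (r * m) * Q + 2 * Q ^ 2 * (m * 1) * r := by
            linarith
        _ = (10 * Q ^ 2 + 2 * Q ^ 3) * (r * m) := by ring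
        _ ≤ (12 * Q ^ 3) * (r * m) := by
            apply mul_le_mul_of_nonneg_right _ hrm
            nlinarith
        _ = 12 * Q ^ 3 * r * m := by ring
    calc |∑ k, (h⁻¹ i k * (l k : ℝ) * h k j - m * (g⁻¹ i k * L k * g k j))|
        ≤ ∑ k, |h⁻¹ i k * (l k : ℝ) * h k j - m * (g⁻¹ i k * L k * g k j)| :=
          Finset.abs_sum_le_sum_abs _ _
      _ ≤ ∑ _k : Fin 3, 12 * Q ^ 3 * r * m := Finset.sum_le_sum fun k _ => key k
      _ = 36 * Q ^ 3 * r * m := by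
          rw [Finset.sum_const, Finset.card_univ, Fintype.card_fin]
          simp
          ring
  · rw [hA i j]
    calc |∑ k, h⁻¹ i k * (l k : ℝ) * h k j| ≤ ∑ k, |h⁻¹ i k * (l k : ℝ) * h k j| :=
          Finset.abs_sum_le_sum_abs _ _
      _ ≤ ∑ _k : Fin 3, 2 * Q ^ 2 * (2 * m) * Q := by
          refine Finset.sum_le_sum fun k _ => ?_
          rw [abs_mul, abs_mul]
          gcongr
          · exact hib i k
          · exact hlm k
          · exact hbQ k j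
      _ = 12 * Q ^ 3 * m := by
          rw [Finset.sum_const, Finset.card_univ, Fintype.card_fin]
          simp
          ring
  · have ht : 0 < Real.exp (pos V y i) := Real.exp_pos _
    have hv : ∀ j, (vcol V i j : ℝ) = Real.exp (pos V y i) * h⁻¹ j i := by
      intro j
      rw [hinv j i, Real.exp_neg]
      simp only [vcol]
      field_simp
    have hb : (fun s => g⁻¹ s i : Fin 3 → ℝ) ≠ 0 := by
      intro h0
      have h1 := gg1 i
      have h2 : ∀ s, g⁻¹ s i = 0 := fun s => congrFun h0 s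
      simp [h2] at h1
    have ha : 1 / (3 * Q) ≤ ‖(fun s => h⁻¹ s i : Fin 3 → ℝ)‖ :=
      norm_lower (by linarith) (fun j => hbQ i j) (hh1 i)
    have := cone (v := vcol V i) (a := fun s => h⁻¹ s i) (b := fun s => g⁻¹ s i)
      (ε := 4 * (Q * r)) (δ := 1 / (3 * Q)) ht hv (fun s => hid s i) hb ha (by positivity) j
    refine this.trans (le_of_eq ?_)
    have : Q ≠ 0 := by linarith
    field_simp
    ring
  · obtain ⟨t, ht, hv⟩ := vst_row hADJ hGM hE y k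
    have hw : (fun s => g k s : Fin 3 → ℝ) ≠ 0 := by
      intro h0
      have h1 := gg1 k
      have h2 : ∀ s, g k s = 0 := fun s => congrFun h0 s
      simp [h2] at h1
    have ha : 1 / (3 * (2 * Q ^ 2)) ≤ ‖(fun s => h k s : Fin 3 → ℝ)‖ := by
      refine norm_lower (c := fun s => h⁻¹ s k) (by positivity) (fun j => hib j k) ?_
      rw [← hh1 k]
      exact Finset.sum_congr rfl fun j _ => mul_comm _ _
    have := cone (v := vst V k) (a := fun s => h k s) (b := fun s => g k s)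
      (ε := r) (δ := 1 / (3 * (2 * Q ^ 2))) ht hv (fun s => hy k s) hw ha (by positivity) j
    refine this.trans ?_
    have hsn : 0 ≤ sn (vst V k) := norm_nonneg _
    have e : 2 * r / (1 / (3 * (2 * Q ^ 2))) = 12 * Q ^ 2 * r := by
      field_simp
      ring
    rw [e]
    apply mul_le_mul_of_nonneg_right _ hsn
    nlinarith [sq_nonneg Q, mul_pos (pow_pos (by linarith : (0 : ℝ) < Q) 2) hr0]

/-- per flag bound -/
theorem flag_bound {CB : ℝ} (hCB : 0 < CB)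
    (hB1 : ∀ p q, Flag p q → ∀ ρ : ℝ, 1 ≤ ρ → ∀ (B : M3)
      (S : Finset (IM)), (∀ A ∈ S, Pres A p q ∧ ∀ i j, |(A i j : ℝ) - B i j| ≤ ρ) →
      (S.card : ℝ) ≤ CB * ρ ^ 2 * (1 + ρ * sn p / sn q ^ 2) * (1 + ρ / sn p) ^ 3)
    {p q : Fin 3 → ℤ} (hF : Flag p q) {ρ c : ℝ} (hρ : 1 ≤ ρ) (hc : 0 ≤ c) (B : M3)
    (S : Finset IM) (hS : ∀ A ∈ S, Pres A p q ∧ ∀ i j, |(A i j : ℝ) - B i j| ≤ ρ)
    (hp : 1 ≤ sn p) (hq : 1 ≤ sn q) (h1 : sn p ≤ c * ρ) (h2 : sn q ^ 2 ≤ c * ρ * sn p) :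
    (S.card : ℝ) ≤ (1 + c) ^ 4 * CB * ρ ^ 6 * wt (p, q) := by
  have h := hB1 p q hF ρ hρ B S hS
  have hp0 : 0 < sn p := by linarith
  have hq0 : 0 < sn q := by linarith
  have hρ0 : 0 < ρ := by linarith
  have e1 : 1 + ρ * sn p / sn q ^ 2 ≤ (1 + c) * (ρ * sn p / sn q ^ 2) := by
    have : 1 ≤ c * (ρ * sn p / sn q ^ 2) := by
      rw [← mul_div_assoc, one_le_div (by positivity)]
      linarith
    linarith
  have e2 : 1 + ρ / sn p ≤ (1 + c) * (ρ / sn p) := by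
    have : 1 ≤ c * (ρ / sn p) := by
      rw [← mul_div_assoc, one_le_div hp0]
      exact h1
    linarith
  calc (S.card : ℝ) ≤ CB * ρ ^ 2 * (1 + ρ * sn p / sn q ^ 2) * (1 + ρ / sn p) ^ 3 := h
    _ ≤ CB * ρ ^ 2 * ((1 + c) * (ρ * sn p / sn q ^ 2)) * ((1 + c) * (ρ / sn p)) ^ 3 := by
        gcongr
    _ = (1 + c) ^ 4 * CB * ρ ^ 6 * wt (p, q) := by
        rw [wt]
        field_simp

/-- sum over keys -/
theorem sum_keys (G : Finset ((Fin 3 × Fin 3) × ((Fin 3 → ℤ) × (Fin 3 → ℤ)))) (b : ℝ)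
    (h : ∀ ik : Fin 3 × Fin 3, ∀ S : Finset ((Fin 3 → ℤ) × (Fin 3 → ℤ)),
      (∀ F ∈ S, (ik, F) ∈ G) → ∑ F ∈ S, wt F ≤ b) :
    ∑ x ∈ G, wt x.2 ≤ 9 * b := by
  classical
  calc ∑ x ∈ G, wt x.2 = ∑ ik : Fin 3 × Fin 3, ∑ x ∈ G.filter (fun x => x.1 = ik), wt x.2 :=
        (Finset.sum_fiberwise G (fun x => x.1) (fun x => wt x.2)).symm
    _ ≤ ∑ _ik : Fin 3 × Fin 3, b := by
        refine Finset.sum_le_sum fun ik _ => ?_
        have hinj : Set.InjOn Prod.snd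
            ((G.filter (fun x => x.1 = ik) : Finset _) :
              Set ((Fin 3 × Fin 3) × ((Fin 3 → ℤ) × (Fin 3 → ℤ)))) := by
          intro x hx x' hx' hxx
          have h1 := (Finset.mem_filter.1 (Finset.mem_coe.1 hx)).2
          have h2 := (Finset.mem_filter.1 (Finset.mem_coe.1 hx')).2
          exact Prod.ext (h1.trans h2.symm) hxx
        rw [← Finset.sum_image (f := wt) hinj]
        apply h ik
        intro F hF
        obtain ⟨x, hx, rfl⟩ := Finset.mem_image.1 hF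
        obtain ⟨h1, h2⟩ := Finset.mem_filter.1 hx
        rw [← h2]
        exact h1
    _ = 9 * b := by
        rw [Finset.sum_const, Finset.card_univ, Fintype.card_prod, Fintype.card_fin]
        simp

theorem wt_nonneg (F : (Fin 3 → ℤ) × (Fin 3 → ℤ)) : 0 ≤ wt F := by
  unfold wt
  positivity

/-- at most four eigenbases -/
theorem card_four (hFOUR : tFOUR) (S : Finset (IM × IM)) (hS : ∀ P ∈ S, ∃ l, Eig P.1 P.2 l) :
    S.card ≤ 4 * (S.image Prod.fst).card := by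
  classical
  refine Finset.card_le_mul_card_image S 4 fun A hA => ?_
  have hinj : Set.InjOn Prod.snd
      ((S.filter (fun x => x.1 = A) : Finset _) : Set (IM × IM)) := by
    intro x hx x' hx' hxx
    have h1 := (Finset.mem_filter.1 (Finset.mem_coe.1 hx)).2
    have h2 := (Finset.mem_filter.1 (Finset.mem_coe.1 hx')).2
    exact Prod.ext (h1.trans h2.symm) hxx
  rw [← Finset.card_image_of_injOn hinj]
  apply hFOUR A
  intro V hV
  obtain ⟨x, hx, rfl⟩ := Finset.mem_image.1 hV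
  obtain ⟨h1, h2⟩ := Finset.mem_filter.1 hx
  rw [← h2]
  exact hS x h1

end SAIL.A.C5x

open SAIL.A.C5x in
set_option maxHeartbeats 4000000 in
/-- C5: local upper bound -/
theorem SAIL.A.p_C5 (hADJ : SAIL.A.tADJ) (hSPEC : SAIL.A.tSPEC) (hGF : SAIL.A.tGF)
    (hFOUR : SAIL.A.tFOUR) (hGM : SAIL.A.tGM) (hB1 : SAIL.A.tB1) (hB7 : SAIL.A.tB7)
    (hB8 : SAIL.A.tB8) (hB9 : SAIL.A.tB9) (hC1 : SAIL.A.tC1) : SAIL.A.tC5 := by
  classical
  intro R hR
  obtain ⟨CB, hCB, hB1⟩ := hB1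
  obtain ⟨C9, hC9, hB9⟩ := hB9
  obtain ⟨C1, hC1p, hC1⟩ := hC1
  obtain ⟨Q, hQ⟩ : ∃ Q : ℝ, Q = R + 1 := ⟨_, rfl⟩
  have hQ2 : 2 ≤ Q := by linarith
  have hQ0 : 0 < Q := by linarith
  obtain ⟨κ, hκ⟩ : ∃ κ : ℝ, κ = 36 * Q ^ 3 := ⟨_, rfl⟩
  have hκ0 : 0 < κ := by rw [hκ]; positivity
  obtain ⟨c2, hc2⟩ : ∃ c2 : ℝ, c2 = 24 * Q ^ 2 := ⟨_, rfl⟩
  have hc20 : 0 < c2 := by rw [hc2]; positivity
  obtain ⟨N, hN⟩ : ∃ N : ℕ, 3 * κ ≤ N := ⟨⌈3 * κ⌉₊, Nat.le_ceil _⟩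
  have hN1 : (1 : ℝ) ≤ N := by
    refine le_trans ?_ hN
    rw [hκ]
    nlinarith [pow_le_pow_left₀ (by norm_num : (0 : ℝ) ≤ 2) hQ2 3]
  have hN0 : (0 : ℝ) < N := by linarith
  have hlog2 : 0 < Real.log 2 := Real.log_pos (by norm_num)
  obtain ⟨K, hK⟩ : ∃ K : ℝ, K = Real.log (4 * N) / Real.log 2 + 1 := ⟨_, rfl⟩
  have hlog4N : 0 ≤ Real.log (4 * N) := Real.log_nonneg (by linarith)
  have hK1 : 1 ≤ K := by
    rw [hK]
    have : 0 ≤ Real.log (4 * N) / Real.log 2 := by positivity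
    linarith
  have hK0 : 0 < K := by linarith
  refine ⟨4 * (9 * (16 * CB * κ ^ 6 * (C9 * c2 ^ 3 * K ^ 2))), 1 / (48 * Q ^ 2), by positivity,
    by positivity, fun r hr0 hr1 => ?_⟩
  have hc2r : c2 * r < 1 / 2 := by
    rw [lt_div_iff₀ (by positivity)] at hr1
    rw [hc2]
    linarith
  have hc2r0 : 0 < c2 * r := by positivity
  have hr1' : r ≤ 1 := by
    refine hr1.le.trans ?_
    rw [div_le_one (by positivity)]
    nlinarith
  obtain ⟨C9', hC9', hB9'⟩ := hB9 (c2 * r) hc2r0 hc2r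
  obtain ⟨Kr, hKr⟩ : ∃ Kr : ℝ, Kr = 4 * N / (κ * r) := ⟨_, rfl⟩
  have hKr1 : 1 ≤ Kr := by
    rw [hKr, one_le_div (by positivity)]
    nlinarith
  obtain ⟨C7, hC7, hB7'⟩ := hB7 Kr hKr1
  obtain ⟨C8, hC8, hB8'⟩ := hB8 Kr hKr1
  refine ⟨C1 * N ^ 6 * K ^ 2 / (κ * r) + 4 * (9 * (16 * CB * κ ^ 6 * r ^ 6 * (C9' * K))) +
    4 * (9 * (625 * CB * N ^ 6 * ((C7 + C8) * (1 / Real.log 2 + K)))), by positivity,
    fun m hm g gd gb L hL S hS => ?_⟩
  have hmR : (2 : ℝ) ≤ m := by exact_mod_cast hm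
  have hm0 : (0 : ℝ) < m := by linarith
  have hlm : Real.log 2 ≤ Real.log m := Real.log_le_log (by norm_num) hmR
  have hlm0 : 0 < Real.log m := by linarith
  have hN1' : 1 ≤ N := by exact_mod_cast hN1
  have hm'2 : 2 ≤ N * m := by nlinarith
  obtain ⟨X, hX⟩ : ∃ X : ℝ, X = 4 * ((N * m : ℕ) : ℝ) := ⟨_, rfl⟩
  have hX' : X = 4 * N * m := by rw [hX]; push_cast; ring
  have hX2 : 2 ≤ X := by rw [hX']; nlinarith
  have hlogX : Real.log X ≤ K * Real.log m := by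
    rw [hX', Real.log_mul (by positivity) (by positivity), hK]
    have : Real.log (4 * N) ≤ Real.log (4 * N) / Real.log 2 * Real.log m := by
      rw [div_mul_eq_mul_div, le_div_iff₀ hlog2]
      gcongr
    linarith
  have hlogX0 : 0 ≤ Real.log X := Real.log_nonneg (by linarith)
  -- data
  obtain ⟨ρ, hρ⟩ : ∃ ρ : ℝ, ρ = κ * r * m := ⟨_, rfl⟩
  have hρ0 : 0 < ρ := by rw [hρ]; positivity
  have hKρ : Kr * ρ = X := by
    rw [hKr, hρ, hX']
    field_simp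
  have hdat : ∀ P ∈ S, ∃ l, SAIL.A.Eig P.1 P.2 l ∧ SAIL.A.nrm P.1 ≤ ((N * m : ℕ) : ℤ) ∧
      (∀ i j, |(P.1 i j : ℝ) - m * ∑ k, g⁻¹ i k * L k * g k j| ≤ ρ) ∧
      (∀ i j, |(SAIL.A.vcol P.2 i j : ℝ) - SAIL.A.sn (SAIL.A.vcol P.2 i) *
        ((‖(fun s => g⁻¹ s i : Fin 3 → ℝ)‖⁻¹ • fun s => g⁻¹ s i) j)| ≤
        c2 * r * SAIL.A.sn (SAIL.A.vcol P.2 i)) ∧
      (∀ k j, |(SAIL.A.vst P.2 k j : ℝ) - SAIL.A.sn (SAIL.A.vst P.2 k) *
        ((‖(fun s => g k s : Fin 3 → ℝ)‖⁻¹ • fun s => g k s) j)| ≤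
        c2 * r * SAIL.A.sn (SAIL.A.vst P.2 k)) := by
    intro P hP
    obtain ⟨⟨l, hE, hl⟩, y, hy⟩ := hS P hP
    obtain ⟨d1, d2, d3, d4⟩ := pdata hADJ hGM hE hm0.le gd hR hr0 hr1' gb hL hl hy
    rw [← hQ] at d1 d2 d3 d4
    refine ⟨l, hE, ?_, fun i j => ?_, fun i j => ?_, fun k j => ?_⟩
    · have h1 : ((SAIL.A.nrm P.1 : ℤ) : ℝ) ≤ ((N * m : ℕ) : ℝ) := by
        have h2 : ((SAIL.A.nrm P.1 : ℤ) : ℝ) = ∑ i, ∑ j, |(P.1 i j : ℝ)| := by
          unfold SAIL.A.nrm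
          push_cast
          rfl
        rw [h2]
        calc ∑ i, ∑ j, |(P.1 i j : ℝ)| ≤ ∑ _i : Fin 3, ∑ _j : Fin 3, 12 * Q ^ 3 * m :=
              Finset.sum_le_sum fun i _ => Finset.sum_le_sum fun j _ => d2 i j
          _ = 3 * κ * m := by
              simp only [Finset.sum_const, Finset.card_univ, Fintype.card_fin, nsmul_eq_mul]
              rw [hκ]
              push_cast
              ring
          _ ≤ N * m := by gcongr
          _ = ((N * m : ℕ) : ℝ) := by push_cast; ring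
      exact_mod_cast h1
    · rw [hρ, hκ]
      exact d1 i j
    · rw [hc2]
      exact d3 i j
    · rw [hc2]
      exact d4 k j
  rcases lt_or_ge ρ 1 with hρ1 | hρ1
  · -- few scales: use the global bound
    have hsub : S ⊆ SAIL.A.PPf (N * m) := by
      intro P hP
      obtain ⟨l, hE, hn, -⟩ := hdat P hP
      exact (hSPEC (N * m) P.1 P.2 l hE hn).2.2.2.2.2.1
    have h1 : (S.card : ℝ) ≤ C1 * ((N * m : ℕ) : ℝ) ^ 6 * Real.log ((N * m : ℕ) : ℝ) ^ 2 :=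
      le_trans (by exact_mod_cast Finset.card_le_card hsub) (hC1 (N * m) hm'2)
    have h2 : Real.log ((N * m : ℕ) : ℝ) ≤ K * Real.log m := by
      refine le_trans (Real.log_le_log (by positivity) ?_) hlogX
      rw [hX]
      have : (0 : ℝ) ≤ ((N * m : ℕ) : ℝ) := by positivity
      linarith
    have h3 : 0 ≤ Real.log ((N * m : ℕ) : ℝ) := Real.log_nonneg (by
      have : (1 : ℝ) ≤ ((N * m : ℕ) : ℝ) := by exact_mod_cast (by omega : 1 ≤ N * m)
      exact this)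
    have h4 : Real.log m ≤ 1 / (κ * r) := by
      have h5 : Real.log m ≤ m := (Real.log_le_sub_one_of_pos hm0).trans (by linarith)
      refine h5.trans ?_
      rw [le_div_iff₀ (by positivity)]
      rw [hρ] at hρ1
      linarith
    have h6 : (S.card : ℝ) ≤ C1 * N ^ 6 * K ^ 2 / (κ * r) * (m : ℝ) ^ 6 * Real.log m := by
      calc (S.card : ℝ) ≤ C1 * ((N * m : ℕ) : ℝ) ^ 6 * Real.log ((N * m : ℕ) : ℝ) ^ 2 := h1
        _ ≤ C1 * ((N * m : ℕ) : ℝ) ^ 6 * (K * Real.log m) ^ 2 := by gcongr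
        _ = C1 * N ^ 6 * K ^ 2 * (m : ℝ) ^ 6 * Real.log m * Real.log m := by
            push_cast
            ring
        _ ≤ C1 * N ^ 6 * K ^ 2 * (m : ℝ) ^ 6 * Real.log m * (1 / (κ * r)) := by gcongr
        _ = _ := by ring
    have h7 : 0 ≤ 4 * (9 * (16 * CB * κ ^ 6 * (C9 * c2 ^ 3 * K ^ 2))) * r ^ 9 * (m : ℝ) ^ 6 *
        Real.log m ^ 2 := by positivity
    have h8 : 0 ≤ (4 * (9 * (16 * CB * κ ^ 6 * r ^ 6 * (C9' * K))) +
        4 * (9 * (625 * CB * N ^ 6 * ((C7 + C8) * (1 / Real.log 2 + K))))) * (m : ℝ) ^ 6 *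
        Real.log m := by positivity
    calc (S.card : ℝ) ≤ C1 * N ^ 6 * K ^ 2 / (κ * r) * (m : ℝ) ^ 6 * Real.log m := h6
      _ ≤ 4 * (9 * (16 * CB * κ ^ 6 * (C9 * c2 ^ 3 * K ^ 2))) * r ^ 9 * (m : ℝ) ^ 6 *
          Real.log m ^ 2 + (C1 * N ^ 6 * K ^ 2 / (κ * r) * (m : ℝ) ^ 6 * Real.log m +
          (4 * (9 * (16 * CB * κ ^ 6 * r ^ 6 * (C9' * K))) +
          4 * (9 * (625 * CB * N ^ 6 * ((C7 + C8) * (1 / Real.log 2 + K))))) * (m : ℝ) ^ 6 *
          Real.log m) := by linarith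
      _ = _ := by ring
  · -- the main case
    have hcard4 := card_four hFOUR S fun P hP => (hdat P hP).imp fun l hl => hl.1
    set T := S.image Prod.fst with hT
    have hex : ∀ A : SAIL.A.IM, ∃ x : (Fin 3 × Fin 3) × ((Fin 3 → ℤ) × (Fin 3 → ℤ)), A ∈ T →
        (SAIL.A.Flag x.2.1 x.2.2 ∧ 1 ≤ SAIL.A.sn x.2.1 ∧ 1 ≤ SAIL.A.sn x.2.2 ∧
        SAIL.A.sn x.2.1 ≤ X ∧ SAIL.A.sn x.2.2 ≤ X ∧
        SAIL.A.sn x.2.2 ^ 2 ≤ X * SAIL.A.sn x.2.1 ∧
        (∀ j, |(x.2.1 j : ℝ) - SAIL.A.sn x.2.1 *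
          ((‖(fun s => g⁻¹ s x.1.1 : Fin 3 → ℝ)‖⁻¹ • fun s => g⁻¹ s x.1.1) j)| ≤
          c2 * r * SAIL.A.sn x.2.1) ∧
        (∀ j, |(x.2.2 j : ℝ) - SAIL.A.sn x.2.2 *
          ((‖(fun s => g x.1.2 s : Fin 3 → ℝ)‖⁻¹ • fun s => g x.1.2 s) j)| ≤
          c2 * r * SAIL.A.sn x.2.2)) ∧
        (SAIL.A.Pres A x.2.1 x.2.2 ∧
        (∀ i j, |(A i j : ℝ) - (Matrix.of fun i j => m * ∑ k, g⁻¹ i k * L k * g k j : SAIL.M3) i j|
          ≤ ρ) ∧
        (∀ i j, |(A i j : ℝ) - (0 : SAIL.M3) i j| ≤ ((N * m : ℕ) : ℝ))) := by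
      intro A
      by_cases hA : A ∈ T
      · obtain ⟨P, hP, rfl⟩ := Finset.mem_image.1 hA
        obtain ⟨l, hE, hn, e1, e2, e3⟩ := hdat P hP
        obtain ⟨-, s1, s2, -⟩ := hSPEC (N * m) P.1 P.2 l hE hn
        obtain ⟨i, k, -, f1, f2, -, f4, f5, f6, -⟩ := hGF (N * m) P.1 P.2 l hE hn
        refine ⟨((i, k), (SAIL.A.vcol P.2 i, SAIL.A.vst P.2 k)), fun _ => ⟨⟨f1, (s1 i).1, (s2 k).1,
          ?_, ?_, ?_, e2 i, e3 k⟩, f2, ?_, ?_⟩⟩
        · rw [hX]; exact f5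
        · rw [hX]; exact f6
        · rw [hX]; exact f4
        · intro i' j'
          exact e1 i' j'
        · intro i' j'
          have h1 : |P.1 i' j'| ≤ SAIL.A.nrm P.1 := by
            unfold SAIL.A.nrm
            refine le_trans ?_ (Finset.single_le_sum (f := fun i => ∑ j, |P.1 i j|)
              (fun i _ => Finset.sum_nonneg fun j _ => abs_nonneg _) (Finset.mem_univ i'))
            exact Finset.single_le_sum (f := fun j => |P.1 i' j|)
              (fun j _ => abs_nonneg _) (Finset.mem_univ j')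
          have h2 : |P.1 i' j'| ≤ ((N * m : ℕ) : ℤ) := h1.trans hn
          have h3 : |(P.1 i' j' : ℝ)| ≤ ((N * m : ℕ) : ℝ) := by exact_mod_cast h2
          simpa using h3
      · exact ⟨((0, 0), (0, 0)), fun h => absurd h hA⟩
    choose f hf using hex
    set G := T.image f with hG
    have hGd : ∀ x ∈ G, (SAIL.A.Flag x.2.1 x.2.2 ∧ 1 ≤ SAIL.A.sn x.2.1 ∧ 1 ≤ SAIL.A.sn x.2.2 ∧
        SAIL.A.sn x.2.1 ≤ X ∧ SAIL.A.sn x.2.2 ≤ X ∧
        SAIL.A.sn x.2.2 ^ 2 ≤ X * SAIL.A.sn x.2.1 ∧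
        (∀ j, |(x.2.1 j : ℝ) - SAIL.A.sn x.2.1 *
          ((‖(fun s => g⁻¹ s x.1.1 : Fin 3 → ℝ)‖⁻¹ • fun s => g⁻¹ s x.1.1) j)| ≤
          c2 * r * SAIL.A.sn x.2.1) ∧
        (∀ j, |(x.2.2 j : ℝ) - SAIL.A.sn x.2.2 *
          ((‖(fun s => g x.1.2 s : Fin 3 → ℝ)‖⁻¹ • fun s => g x.1.2 s) j)| ≤
          c2 * r * SAIL.A.sn x.2.2)) := by
      intro x hx
      obtain ⟨A, hA, rfl⟩ := Finset.mem_image.1 hx
      exact (hf A hA).1
    have hfib1 : ∀ x ∈ G, SAIL.A.sn x.2.1 ≤ ρ → SAIL.A.sn x.2.2 ^ 2 ≤ ρ * SAIL.A.sn x.2.1 →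
        ((T.filter fun A => f A = x).card : ℝ) ≤ 16 * CB * ρ ^ 6 * SAIL.A.wt x.2 := by
      intro x hx h1 h2
      obtain ⟨g1, g2, g3, -⟩ := hGd x hx
      have := flag_bound hCB hB1 g1 hρ1 zero_le_one
        (Matrix.of fun i j => m * ∑ k, g⁻¹ i k * L k * g k j : SAIL.M3)
        (T.filter fun A => f A = x) (fun A hA => by
          obtain ⟨hA1, hA2⟩ := Finset.mem_filter.1 hA
          obtain ⟨-, e1, e2, -⟩ := hf A hA1
          rw [hA2] at e1
          exact ⟨e1, e2⟩) g2 g3 (by rw [one_mul]; exact h1) (by rw [one_mul]; exact h2)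
      refine this.trans (le_of_eq ?_)
      norm_num
    have hm'1 : (1 : ℝ) ≤ ((N * m : ℕ) : ℝ) := by exact_mod_cast (by omega : 1 ≤ N * m)
    have hfib2 : ∀ x ∈ G,
        ((T.filter fun A => f A = x).card : ℝ) ≤
          625 * CB * ((N * m : ℕ) : ℝ) ^ 6 * SAIL.A.wt x.2 := by
      intro x hx
      obtain ⟨g1, g2, g3, g4, g5, g6, -⟩ := hGd x hx
      have := flag_bound hCB hB1 g1 hm'1 (by norm_num : (0 : ℝ) ≤ 4) (0 : SAIL.M3)
        (T.filter fun A => f A = x) (fun A hA => by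
          obtain ⟨hA1, hA2⟩ := Finset.mem_filter.1 hA
          obtain ⟨-, e1, -, e2⟩ := hf A hA1
          rw [hA2] at e1
          exact ⟨e1, e2⟩) g2 g3 (by rw [← hX]; exact g4) (by rw [← hX]; exact g6)
      refine this.trans (le_of_eq ?_)
      norm_num
    have gunit : IsUnit g.det := by rw [gd]; exact isUnit_one
    have hcol : ∀ i, (fun s => g⁻¹ s i : Fin 3 → ℝ) ≠ 0 := by
      intro i h0
      have h1 := congrFun (congrFun (Matrix.mul_nonsing_inv g gunit) i) i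
      rw [Matrix.mul_apply, Matrix.one_apply_eq] at h1
      have h2 : ∀ s, g⁻¹ s i = 0 := fun s => congrFun h0 s
      simp [h2] at h1
    have hrow : ∀ k, (fun s => g k s : Fin 3 → ℝ) ≠ 0 := by
      intro k h0
      have h1 := congrFun (congrFun (Matrix.mul_nonsing_inv g gunit) k) k
      rw [Matrix.mul_apply, Matrix.one_apply_eq] at h1
      have h2 : ∀ s, g k s = 0 := fun s => congrFun h0 s
      simp [h2] at h1
    have hnorm1 : ∀ b : Fin 3 → ℝ, b ≠ 0 → ‖(‖b‖⁻¹ • b)‖ = 1 := by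
      intro b hb
      rw [norm_smul, norm_inv, norm_norm]
      exact inv_mul_cancel₀ (norm_ne_zero_iff.2 hb)
    -- good keys
    have hgood : ∑ x ∈ G.filter (fun x => SAIL.A.sn x.2.1 ≤ ρ ∧
        SAIL.A.sn x.2.2 ^ 2 ≤ ρ * SAIL.A.sn x.2.1), SAIL.A.wt x.2 ≤
        9 * (C9 * (c2 * r) ^ 3 * Real.log X ^ 2 + C9' * Real.log X) := by
      refine sum_keys _ _ fun ik S' hS' => ?_
      refine hB9' X _ _ hX2 (hnorm1 _ (hcol ik.1)) (hnorm1 _ (hrow ik.2)) S' fun F hF => ?_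
      obtain ⟨g1, -, -, g4, g5, -, g7, g8⟩ := hGd _ (Finset.mem_filter.1 (hS' F hF)).1
      exact ⟨g1, g4, g5, g7, g8⟩
    have hbad : ∑ x ∈ G.filter (fun x => ¬ (SAIL.A.sn x.2.1 ≤ ρ ∧
        SAIL.A.sn x.2.2 ^ 2 ≤ ρ * SAIL.A.sn x.2.1)), SAIL.A.wt x.2 ≤
        9 * ((C7 + C8) * (1 + Real.log X)) := by
      refine sum_keys _ _ fun ik S' hS' => ?_
      rw [← Finset.sum_filter_add_sum_filter_not S' (fun F => SAIL.A.sn F.1 ≤ ρ), add_mul,
        add_comm]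
      refine add_le_add ?_ ?_
      · refine hB7' X ρ (by linarith) hρ0 _ fun F hF => ?_
        obtain ⟨hF1, hF2⟩ := Finset.mem_filter.1 hF
        obtain ⟨g1, -, -, g4, g5, -⟩ := hGd _ (Finset.mem_filter.1 (hS' F hF1)).1
        exact ⟨g1, g4, g5, (not_le.1 hF2).le, by rw [hKρ]; exact g4⟩
      · refine hB8' X ρ (by linarith) hρ0 _ fun F hF => ?_
        obtain ⟨hF1, hF2⟩ := Finset.mem_filter.1 hF
        obtain ⟨hF3, hF4⟩ := Finset.mem_filter.1 (hS' F hF1)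
        obtain ⟨g1, -, -, g4, g5, g6, -⟩ := hGd _ hF3
        refine ⟨g1, g4, g5, ?_, by rw [hKρ]; exact g6⟩
        by_contra hcon
        exact hF4 ⟨hF2, (not_le.1 hcon).le⟩
    have hTc : (T.card : ℝ) ≤
        16 * CB * ρ ^ 6 * (9 * (C9 * (c2 * r) ^ 3 * Real.log X ^ 2 + C9' * Real.log X)) +
        625 * CB * ((N * m : ℕ) : ℝ) ^ 6 * (9 * ((C7 + C8) * (1 + Real.log X))) := by
      have h1 : (T.card : ℝ) = ∑ x ∈ G, ((T.filter fun A => f A = x).card : ℝ) := by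
        rw [Finset.card_eq_sum_card_image f T]
        push_cast
        rfl
      rw [h1, ← Finset.sum_filter_add_sum_filter_not G (fun x => SAIL.A.sn x.2.1 ≤ ρ ∧
        SAIL.A.sn x.2.2 ^ 2 ≤ ρ * SAIL.A.sn x.2.1)]
      refine add_le_add ?_ ?_
      · calc _ ≤ ∑ x ∈ G.filter (fun x => SAIL.A.sn x.2.1 ≤ ρ ∧
              SAIL.A.sn x.2.2 ^ 2 ≤ ρ * SAIL.A.sn x.2.1), 16 * CB * ρ ^ 6 * SAIL.A.wt x.2 := by
              refine Finset.sum_le_sum fun x hx => ?_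
              obtain ⟨hx1, hx2, hx3⟩ := Finset.mem_filter.1 hx
              exact hfib1 x hx1 hx2 hx3
          _ = 16 * CB * ρ ^ 6 * ∑ x ∈ G.filter (fun x => SAIL.A.sn x.2.1 ≤ ρ ∧
              SAIL.A.sn x.2.2 ^ 2 ≤ ρ * SAIL.A.sn x.2.1), SAIL.A.wt x.2 := by
              rw [Finset.mul_sum]
          _ ≤ _ := by gcongr
      · calc _ ≤ ∑ x ∈ G.filter (fun x => ¬ (SAIL.A.sn x.2.1 ≤ ρ ∧
              SAIL.A.sn x.2.2 ^ 2 ≤ ρ * SAIL.A.sn x.2.1)),
              625 * CB * ((N * m : ℕ) : ℝ) ^ 6 * SAIL.A.wt x.2 := by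
              refine Finset.sum_le_sum fun x hx => ?_
              exact hfib2 x (Finset.mem_filter.1 hx).1
          _ = 625 * CB * ((N * m : ℕ) : ℝ) ^ 6 * ∑ x ∈ G.filter (fun x =>
              ¬ (SAIL.A.sn x.2.1 ≤ ρ ∧ SAIL.A.sn x.2.2 ^ 2 ≤ ρ * SAIL.A.sn x.2.1)),
              SAIL.A.wt x.2 := by
              rw [Finset.mul_sum]
          _ ≤ _ := by gcongr
    have hlog1 : 1 + Real.log X ≤ (1 / Real.log 2 + K) * Real.log m := by
      have : 1 ≤ 1 / Real.log 2 * Real.log m := by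
        rw [one_div, inv_mul_eq_div, one_le_div hlog2]
        exact hlm
      linarith
    have hSc : (S.card : ℝ) ≤ 4 * (T.card : ℝ) := by exact_mod_cast hcard4
    have h9 : 0 ≤ C1 * N ^ 6 * K ^ 2 / (κ * r) * ((m : ℝ) ^ 6 * Real.log m) := by positivity
    calc (S.card : ℝ) ≤ 4 * (T.card : ℝ) := hSc
      _ ≤ 4 * (16 * CB * ρ ^ 6 * (9 * (C9 * (c2 * r) ^ 3 * Real.log X ^ 2 + C9' * Real.log X)) +
        625 * CB * ((N * m : ℕ) : ℝ) ^ 6 * (9 * ((C7 + C8) * (1 + Real.log X)))) := by gcongr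
      _ ≤ 4 * (16 * CB * ρ ^ 6 * (9 * (C9 * (c2 * r) ^ 3 * (K * Real.log m) ^ 2 +
          C9' * (K * Real.log m))) +
        625 * CB * ((N * m : ℕ) : ℝ) ^ 6 *
          (9 * ((C7 + C8) * ((1 / Real.log 2 + K) * Real.log m)))) := by gcongr
      _ = 4 * (9 * (16 * CB * κ ^ 6 * (C9 * c2 ^ 3 * K ^ 2))) * r ^ 9 * (m : ℝ) ^ 6 *
          Real.log m ^ 2 + (4 * (9 * (16 * CB * κ ^ 6 * r ^ 6 * (C9' * K))) +
          4 * (9 * (625 * CB * N ^ 6 * ((C7 + C8) * (1 / Real.log 2 + K))))) *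
          ((m : ℝ) ^ 6 * Real.log m) := by
          rw [hρ]
          push_cast
          ring
      _ ≤ 4 * (9 * (16 * CB * κ ^ 6 * (C9 * c2 ^ 3 * K ^ 2))) * r ^ 9 * (m : ℝ) ^ 6 *
          Real.log m ^ 2 + (4 * (9 * (16 * CB * κ ^ 6 * r ^ 6 * (C9' * K))) +
          4 * (9 * (625 * CB * N ^ 6 * ((C7 + C8) * (1 / Real.log 2 + K))))) *
          ((m : ℝ) ^ 6 * Real.log m) +
          C1 * N ^ 6 * K ^ 2 / (κ * r) * ((m : ℝ) ^ 6 * Real.log m) := by linarith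
      _ = _ := by ring
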