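import Pool.Agent.SAIL.ARI.Targets

/-!
# SAIL, arithmetic part, target C6: gap implies angle

The spectral projection `v_i ⊗ w_i` is `(A - l_j)(A - l_k) / ((l_i - l_j)(l_i - l_k))`, so its
entries are at most `4 m² / (e m)²`.
-/

set_option autoImplicit false

namespace SAIL.A

open Matrix MeasureTheory Filter SAIL

namespace C6x

/-- the shifted real matrix -/
noncomputable def X (A : IM) (c : ℤ) : M3 := toR A - Matrix.diagonal fun _ => (c : ℝ)

theorem toR_mul (A B : IM) : toR (A * B) = toR A * toR B := by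
  unfold toR
  ext i j
  simp [Matrix.mul_apply]

theorem toR_diag (l : Fin 3 → ℤ) : toR (Matrix.diagonal l) = Matrix.diagonal fun i => (l i : ℝ) := by
  unfold toR
  ext i j
  by_cases h : i = j
  · subst h; simp
  · simp [Matrix.diagonal_apply_ne _ h]

theorem det_toR (V : IM) : (toR V).det = (V.det : ℝ) := by
  have h : toR V = (Int.castRingHom ℝ).mapMatrix V := by
    ext i j; rfl
  rw [h, ← RingHom.map_det]
  simp

theorem X_mul {A V : IM} {l : Fin 3 → ℤ} (h : A * V = V * Matrix.diagonal l) (c : ℤ) :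
    X A c * toR V = toR V * Matrix.diagonal fun i => ((l i : ℝ) - c) := by
  have h1 : toR A * toR V = toR V * Matrix.diagonal fun i => (l i : ℝ) := by
    rw [← toR_mul, h, toR_mul, toR_diag]
  unfold X
  rw [Matrix.sub_mul, h1]
  ext r s
  rw [Matrix.sub_apply, Matrix.mul_diagonal, Matrix.diagonal_mul, Matrix.mul_diagonal]
  ring

theorem third : ∀ i t : Fin 3, t ≠ i → t = i + 1 ∨ t = i + 2 := by decide

/-- the spectral projection -/
theorem proj {A V : IM} {l : Fin 3 → ℤ} (h : A * V = V * Matrix.diagonal l) (hV : 0 < V.det)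
    (i r s : Fin 3) : (X A (l (i + 1)) * X A (l (i + 2))) r s =
      toR V r i * (((l i : ℝ) - l (i + 1)) * ((l i : ℝ) - l (i + 2))) * (toR V)⁻¹ i s := by
  have hd : IsUnit (toR V).det := by
    rw [det_toR, isUnit_iff_ne_zero]
    exact_mod_cast hV.ne'
  have e1 : X A (l (i + 1)) * X A (l (i + 2)) = toR V *
      Matrix.diagonal (fun t => ((l t : ℝ) - l (i + 1)) * ((l t : ℝ) - l (i + 2))) *
      (toR V)⁻¹ := by
    calc X A (l (i + 1)) * X A (l (i + 2))
        = X A (l (i + 1)) * (X A (l (i + 2)) * toR V) * (toR V)⁻¹ := by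
          rw [Matrix.mul_assoc, Matrix.mul_assoc, Matrix.mul_nonsing_inv _ hd, Matrix.mul_one]
      _ = (X A (l (i + 1)) * toR V) * (Matrix.diagonal fun t => ((l t : ℝ) - l (i + 2))) *
          (toR V)⁻¹ := by
          rw [X_mul h]
          simp only [Matrix.mul_assoc]
      _ = _ := by
          rw [X_mul h, Matrix.mul_assoc (toR V), Matrix.diagonal_mul_diagonal]
  rw [e1, Matrix.mul_apply, Finset.sum_eq_single i]
  · rw [Matrix.mul_diagonal]
  · intro t _ ht
    rw [Matrix.mul_diagonal]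
    rcases third i t ht with h2 | h2
    · rw [h2]; ring
    · rw [h2]; ring
  · intro hn
    exact absurd (Finset.mem_univ i) hn

theorem row_le {A : IM} {m : ℕ} (hA : nrm A ≤ m) (r : Fin 3) : ∑ t, |(A r t : ℝ)| ≤ m := by
  have h1 : ∑ t, |A r t| ≤ (m : ℤ) := by
    refine le_trans ?_ hA
    unfold nrm
    exact Finset.single_le_sum (f := fun i => ∑ j, |A i j|)
      (fun i _ => Finset.sum_nonneg fun j _ => abs_nonneg _) (Finset.mem_univ r)
  exact_mod_cast h1

/-- eigenvalues are at most the norm -/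
theorem eig_le {A V : IM} {l : Fin 3 → ℤ} (h : A * V = V * Matrix.diagonal l) (hV : 0 < V.det)
    {m : ℕ} (hA : nrm A ≤ m) (i : Fin 3) : |(l i : ℝ)| ≤ m := by
  obtain ⟨r, -, hr⟩ := Finset.exists_max_image Finset.univ (fun r => |(V r i : ℝ)|)
    ⟨0, Finset.mem_univ _⟩
  have h0 : 0 < |(V r i : ℝ)| := by
    rw [abs_pos]
    intro h00
    have hz : ∀ s, V s i = 0 := by
      intro s
      have h1 := hr s (Finset.mem_univ s)
      rw [h00, abs_zero] at h1
      have h2 : (V s i : ℝ) = 0 := abs_eq_zero.1 (le_antisymm h1 (abs_nonneg _))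
      exact_mod_cast h2
    have : V.det = 0 := Matrix.det_eq_zero_of_column_eq_zero i hz
    omega
  have e1 : ∑ t, (A r t : ℝ) * V t i = V r i * l i := by
    have e2 := congrFun (congrFun h r) i
    rw [Matrix.mul_apply, Matrix.mul_diagonal] at e2
    exact_mod_cast e2
  have h3 : |(l i : ℝ)| * |(V r i : ℝ)| ≤ m * |(V r i : ℝ)| := by
    calc |(l i : ℝ)| * |(V r i : ℝ)| = |∑ t, (A r t : ℝ) * V t i| := by
          rw [e1, abs_mul, mul_comm]
      _ ≤ ∑ t, |(A r t : ℝ) * V t i| := Finset.abs_sum_le_sum_abs _ _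
      _ ≤ ∑ t, |(A r t : ℝ)| * |(V r i : ℝ)| := by
          refine Finset.sum_le_sum fun t _ => ?_
          rw [abs_mul]
          exact mul_le_mul_of_nonneg_left (hr t (Finset.mem_univ t)) (abs_nonneg _)
      _ = (∑ t, |(A r t : ℝ)|) * |(V r i : ℝ)| := by rw [Finset.sum_mul]
      _ ≤ _ := mul_le_mul_of_nonneg_right (row_le hA r) (abs_nonneg _)
  exact le_of_mul_le_mul_right h3 h0

theorem X_row {A : IM} {m : ℕ} (hA : nrm A ≤ m) {c : ℤ} (hc : |(c : ℝ)| ≤ m) (r : Fin 3) :
    ∑ t, |X A c r t| ≤ 2 * m := by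
  have h1 : ∀ t, |X A c r t| ≤ |(A r t : ℝ)| + if t = r then |(c : ℝ)| else 0 := by
    intro t
    unfold X toR
    rw [Matrix.sub_apply, Matrix.map_apply]
    by_cases h : t = r
    · subst h
      rw [Matrix.diagonal_apply_eq, if_pos rfl]
      exact abs_sub _ _
    · rw [Matrix.diagonal_apply_ne _ (Ne.symm h), if_neg h, sub_zero, add_zero]
  calc ∑ t, |X A c r t| ≤ ∑ t, (|(A r t : ℝ)| + if t = r then |(c : ℝ)| else 0) :=
        Finset.sum_le_sum fun t _ => h1 t
    _ = (∑ t, |(A r t : ℝ)|) + |(c : ℝ)| := by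
        rw [Finset.sum_add_distrib, Finset.sum_ite_eq']
        simp
    _ ≤ m + m := add_le_add (row_le hA r) hc
    _ = _ := by ring

theorem X_entry {A : IM} {m : ℕ} (hA : nrm A ≤ m) {c : ℤ} (hc : |(c : ℝ)| ≤ m) (r t : Fin 3) :
    |X A c r t| ≤ 2 * m :=
  (Finset.single_le_sum (f := fun t => |X A c r t|) (fun _ _ => abs_nonneg _)
    (Finset.mem_univ t)).trans (X_row hA hc r)

theorem XX_entry {A : IM} {m : ℕ} (hA : nrm A ≤ m) {c d : ℤ} (hc : |(c : ℝ)| ≤ m)
    (hd : |(d : ℝ)| ≤ m) (r s : Fin 3) : |(X A c * X A d) r s| ≤ 4 * (m : ℝ) ^ 2 := by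
  rw [Matrix.mul_apply]
  calc |∑ t, X A c r t * X A d t s| ≤ ∑ t, |X A c r t * X A d t s| :=
        Finset.abs_sum_le_sum_abs _ _
    _ ≤ ∑ t, |X A c r t| * (2 * m) := by
        refine Finset.sum_le_sum fun t _ => ?_
        rw [abs_mul]
        exact mul_le_mul_of_nonneg_left (X_entry hA hd t s) (abs_nonneg _)
    _ = (∑ t, |X A c r t|) * (2 * m) := by rw [Finset.sum_mul]
    _ ≤ (2 * m) * (2 * m) := mul_le_mul_of_nonneg_right (X_row hA hc r) (by positivity)
    _ = _ := by ring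

end C6x

open C6x in
/-- C6, with the constant `4 / e ^ 2`. -/
theorem p_C6 : tC6 := by
  intro e he
  refine ⟨4 / e ^ 2, by positivity, ?_⟩
  rintro m ⟨A, V⟩ hm hA ⟨l, hE, h01, h12⟩ i s
  simp only at hA hE ⊢
  obtain ⟨hAV, -, -, -, hdet⟩ := hE
  have hm0 : (0 : ℝ) < m := by exact_mod_cast hm
  have hem : 0 < e * m := by positivity
  -- the gaps
  have hgap : (e * m) ^ 2 ≤ |((l i : ℝ) - l (i + 1)) * ((l i : ℝ) - l (i + 2))| := by
    rw [abs_mul, pow_two]
    have hg : ∀ j k : Fin 3, j ≠ k → e * m ≤ |(l j : ℝ) - l k| := by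
      intro j k hjk
      rw [le_abs]
      fin_cases j <;> fin_cases k <;> first
        | exact absurd rfl hjk
        | (left; simp only [Fin.zero_eta, Fin.mk_one, Fin.reduceFinMk]; linarith)
        | (right; simp only [Fin.zero_eta, Fin.mk_one, Fin.reduceFinMk]; linarith)
    have n1 : i ≠ i + 1 := by revert i; decide
    have n2 : i ≠ i + 2 := by revert i; decide
    exact mul_le_mul (hg _ _ n1) (hg _ _ n2) hem.le (abs_nonneg _)
  have hl := fun j => eig_le hAV hdet hA j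
  -- entries of the projection
  have hent : ∀ r, |(V r i : ℝ)| * |(toR V)⁻¹ i s| ≤ 4 / e ^ 2 := by
    intro r
    have h1 := XX_entry hA (hl (i + 1)) (hl (i + 2)) r s
    rw [proj hAV hdet, abs_mul, abs_mul] at h1
    have h2 : |toR V r i| = |(V r i : ℝ)| := rfl
    rw [h2] at h1
    have h3 : |(V r i : ℝ)| * (e * m) ^ 2 * |(toR V)⁻¹ i s| ≤ 4 * (m : ℝ) ^ 2 := by
      refine le_trans ?_ h1
      exact mul_le_mul_of_nonneg_right (mul_le_mul_of_nonneg_left hgap (abs_nonneg _))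
        (abs_nonneg _)
    rw [le_div_iff₀ (by positivity)]
    have hm2 : (0 : ℝ) < (m : ℝ) ^ 2 := by positivity
    refine le_of_mul_le_mul_right ?_ hm2
    calc |(V r i : ℝ)| * |(toR V)⁻¹ i s| * e ^ 2 * (m : ℝ) ^ 2
        = |(V r i : ℝ)| * (e * m) ^ 2 * |(toR V)⁻¹ i s| := by ring
      _ ≤ _ := h3
  -- the sup norm
  rcases eq_or_lt_of_le (abs_nonneg ((toR V)⁻¹ i s)) with h0 | h0
  · rw [← h0, zero_mul]; positivity
  · have h4 : sn (vcol V i) ≤ 4 / e ^ 2 / |(toR V)⁻¹ i s| := by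
      unfold sn
      rw [pi_norm_le_iff_of_nonneg (by positivity)]
      intro r
      rw [le_div_iff₀ h0]
      exact hent r
    rw [le_div_iff₀ h0] at h4
    rw [mul_comm]
    exact h4

end SAIL.A
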