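import Pool.Agent.SAIL.ARI.Targets

/-!
SAIL / ARI, item C7: the number of conjugates in the ball.
-/

namespace SAIL.A.C7x

open Matrix SAIL SAIL.A

lemma le_sn (v : Fin 3 → ℤ) (i : Fin 3) : |(v i : ℝ)| ≤ sn v := by
  unfold sn
  have := norm_le_pi_norm (fun i => (v i : ℝ) : Fin 3 → ℝ) i
  simpa [Real.norm_eq_abs] using this

lemma one_le_sn (v : Fin 3 → ℤ) (h : v ≠ 0) : 1 ≤ sn v := by
  obtain ⟨i, hi⟩ : ∃ i, v i ≠ 0 := by
    by_contra hc
    push Not at hc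
    exact h (funext hc)
  have h1 : (1 : ℝ) ≤ |(v i : ℝ)| := by
    rw [← Int.cast_abs]
    exact_mod_cast Int.one_le_abs hi
  exact h1.trans (le_sn v i)

lemma mono {a b c x y z : ℝ} (ha : |a| ≤ x) (hb : |b| ≤ y) (hc : |c| ≤ z) :
    |a * b * c| ≤ x * y * z := by
  rw [abs_mul, abs_mul]
  have hx := (abs_nonneg a).trans ha
  have hy := (abs_nonneg b).trans hb
  exact mul_le_mul (mul_le_mul ha hb (abs_nonneg _) hx) hc (abs_nonneg _) (mul_nonneg hx hy)

lemma det3 (M : M3) (s : Fin 3 → ℝ) (h : ∀ r i, |M r i| ≤ s i) :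
    |M.det| ≤ 6 * (s 0 * s 1 * s 2) := by
  rw [Matrix.det_fin_three]
  have h1 := abs_le.1 (mono (h 0 0) (h 1 1) (h 2 2))
  have h2 := abs_le.1 (mono (h 0 0) (h 2 1) (h 1 2))
  have h3 := abs_le.1 (mono (h 1 0) (h 0 1) (h 2 2))
  have h4 := abs_le.1 (mono (h 2 0) (h 0 1) (h 1 2))
  have h5 := abs_le.1 (mono (h 1 0) (h 2 1) (h 0 2))
  have h6 := abs_le.1 (mono (h 2 0) (h 1 1) (h 0 2))
  rw [abs_le]
  constructor
  · linarith [h1.1, h1.2, h2.1, h2.2, h3.1, h3.2, h4.1, h4.2, h5.1, h5.2, h6.1, h6.2]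
  · linarith [h1.1, h1.2, h2.1, h2.2, h3.1, h3.2, h4.1, h4.2, h5.1, h5.2, h6.1, h6.2]

lemma toR_det (W : IM) : (toR W).det = (W.det : ℝ) := by
  unfold toR
  exact (Int.cast_det W).symm

lemma toR_mul (A B : IM) : toR (A * B) = toR A * toR B := by
  unfold toR
  ext i j
  simp [Matrix.mul_apply]

lemma ratio (K : ℝ) (hK : 1 ≤ K) (W : IM) (hD : 0 < W.det) (hA : Ang K W) :
    (∀ i, 1 ≤ sn (vcol W i)) ∧
    (W.det : ℝ) ≤ 6 * (sn (vcol W 0) * sn (vcol W 1) * sn (vcol W 2)) ∧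
    sn (vcol W 0) * sn (vcol W 1) * sn (vcol W 2) ≤ 6 * K ^ 3 * W.det := by
  have hs : ∀ i, 1 ≤ sn (vcol W i) := by
    intro i
    apply one_le_sn
    intro h0
    have : W.det = 0 := Matrix.det_eq_zero_of_column_eq_zero i (fun r => congrFun h0 r)
    omega
  have hD' : (0 : ℝ) < W.det := by exact_mod_cast hD
  refine ⟨hs, ?_, ?_⟩
  · have h := det3 (toR W) (fun i => sn (vcol W i)) (by
      intro r i
      exact le_sn (vcol W i) r)
    rw [toR_det] at h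
    exact (le_abs_self _).trans h
  · have h := det3 ((toR W)⁻¹)ᵀ (fun i => K / sn (vcol W i)) (by
      intro r i
      have := hA i r
      rw [Matrix.transpose_apply, le_div_iff₀ (lt_of_lt_of_le one_pos (hs i))]
      exact this)
    rw [Matrix.det_transpose, Matrix.det_nonsing_inv, Ring.inverse_eq_inv', toR_det,
      abs_of_pos (inv_pos.2 hD')] at h
    have e0 := lt_of_lt_of_le one_pos (hs 0)
    have e1 := lt_of_lt_of_le one_pos (hs 1)
    have e2 := lt_of_lt_of_le one_pos (hs 2)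
    have h' : ((W.det : ℝ))⁻¹ ≤
        6 * K ^ 3 / (sn (vcol W 0) * sn (vcol W 1) * sn (vcol W 2)) := by
      refine h.trans (le_of_eq ?_)
      field_simp
    rw [inv_eq_one_div, div_le_div_iff₀ hD' (by positivity)] at h'
    linarith

lemma entry (K : ℝ) (hK : 1 ≤ K) (W W' : IM) (hD : 0 < W.det) (hdet : W'.det = W.det)
    (hA : Ang K W) (hA' : Ang K W')
    (h0 : sn (vcol W' 0) ≤ 3 * sn (vcol W 0)) (h1 : sn (vcol W' 1) ≤ 3 * sn (vcol W 1))
    (h0' : sn (vcol W 0) ≤ 3 * sn (vcol W' 0)) (h1' : sn (vcol W 1) ≤ 3 * sn (vcol W' 1)) :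
    ∀ r s, |(toR W' * (toR W)⁻¹) r s| ≤ 330 * K ^ 4 := by
  obtain ⟨hs, hl, -⟩ := ratio K hK W hD hA
  obtain ⟨hs', -, hu⟩ := ratio K hK W' (by rw [hdet]; exact hD) hA'
  rw [hdet] at hu
  have e0 := lt_of_lt_of_le one_pos (hs 0)
  have e1 := lt_of_lt_of_le one_pos (hs 1)
  have e2 := lt_of_lt_of_le one_pos (hs 2)
  have e0' := lt_of_lt_of_le one_pos (hs' 0)
  have e1' := lt_of_lt_of_le one_pos (hs' 1)
  have hK3 : (0 : ℝ) < K ^ 3 := by positivity
  have h2 : sn (vcol W' 2) ≤ 324 * K ^ 3 * sn (vcol W 2) := by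
    have a1 : sn (vcol W 0) * sn (vcol W 1) ≤
        (3 * sn (vcol W' 0)) * (3 * sn (vcol W' 1)) :=
      mul_le_mul h0' h1' e1.le (by positivity)
    have a2 : sn (vcol W 0) * sn (vcol W 1) * sn (vcol W 2) ≤
        (3 * sn (vcol W' 0)) * (3 * sn (vcol W' 1)) * sn (vcol W 2) :=
      mul_le_mul_of_nonneg_right a1 e2.le
    have a3 : 6 * K ^ 3 * (W.det : ℝ) ≤ 6 * K ^ 3 *
        (6 * ((3 * sn (vcol W' 0)) * (3 * sn (vcol W' 1)) * sn (vcol W 2))) :=
      mul_le_mul_of_nonneg_left (hl.trans (by linarith)) (by positivity)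
    have a4 : (sn (vcol W' 0) * sn (vcol W' 1)) * sn (vcol W' 2) ≤
        (sn (vcol W' 0) * sn (vcol W' 1)) * (324 * K ^ 3 * sn (vcol W 2)) := by
      refine (hu.trans a3).trans (le_of_eq ?_)
      ring
    exact le_of_mul_le_mul_left a4 (by positivity)
  intro r s
  rw [Matrix.mul_apply, Fin.sum_univ_three]
  have key : ∀ (i : Fin 3) (c : ℝ), 0 ≤ c → sn (vcol W' i) ≤ c * sn (vcol W i) →
      |toR W' r i * (toR W)⁻¹ i s| ≤ c * K := by
    intro i c hc hi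
    rw [abs_mul]
    have b1 : |toR W' r i| ≤ sn (vcol W' i) := le_sn (vcol W' i) r
    have b2 := hA i s
    calc |toR W' r i| * |(toR W)⁻¹ i s| ≤ (c * sn (vcol W i)) * |(toR W)⁻¹ i s| :=
          mul_le_mul_of_nonneg_right (b1.trans hi) (abs_nonneg _)
      _ = c * (|(toR W)⁻¹ i s| * sn (vcol W i)) := by ring
      _ ≤ c * K := mul_le_mul_of_nonneg_left b2 hc
  have k0 := key 0 3 (by norm_num) h0
  have k1 := key 1 3 (by norm_num) h1
  have k2 := key 2 (324 * K ^ 3) (by positivity) h2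
  have hKK : K ≤ K ^ 4 := by
    have : (1 : ℝ) ≤ K ^ 3 := one_le_pow₀ hK
    nlinarith
  calc |toR W' r 0 * (toR W)⁻¹ 0 s + toR W' r 1 * (toR W)⁻¹ 1 s + toR W' r 2 * (toR W)⁻¹ 2 s|
      ≤ |toR W' r 0 * (toR W)⁻¹ 0 s| + |toR W' r 1 * (toR W)⁻¹ 1 s| +
        |toR W' r 2 * (toR W)⁻¹ 2 s| := abs_add_three _ _ _
    _ ≤ 3 * K + 3 * K + 324 * K ^ 3 * K := by linarith
    _ ≤ 330 * K ^ 4 := by nlinarith

lemma cell {x y : ℝ} (hx : 1 ≤ x) (hy : 1 ≤ y) (h : ⌊Real.log x⌋₊ = ⌊Real.log y⌋₊) :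
    x ≤ 3 * y := by
  have hy0 : 0 < y := lt_of_lt_of_le one_pos hy
  have hx0 : 0 < x := lt_of_lt_of_le one_pos hx
  have h1 : Real.log x < ⌊Real.log x⌋₊ + 1 := Nat.lt_floor_add_one _
  have h2 : (⌊Real.log y⌋₊ : ℝ) ≤ Real.log y := Nat.floor_le (Real.log_nonneg hy)
  rw [h] at h1
  have h3 : Real.log x ≤ Real.log y + 1 := by linarith
  have h4 : x ≤ Real.exp (Real.log y + 1) := by
    rw [← Real.log_le_iff_le_exp hx0]
    exact h3
  rw [Real.exp_add, Real.exp_log hy0] at h4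
  have h5 : Real.exp 1 ≤ 3 := by
    have := Real.exp_one_lt_d9
    linarith
  nlinarith

lemma mem_box (N : ℕ) (A : IM) : A ∈ box N ↔ ∀ i j, -(N : ℤ) ≤ A i j ∧ A i j ≤ N := by
  constructor
  · intro h i j
    have h1 := Fintype.mem_piFinset.1 h i
    exact Finset.mem_Icc.1 (Fintype.mem_piFinset.1 h1 j)
  · intro h
    exact Fintype.mem_piFinset.2 fun i =>
      Fintype.mem_piFinset.2 fun j => Finset.mem_Icc.2 (h i j)

end SAIL.A.C7x

namespace SAIL.A

open Matrix SAIL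

theorem p_C7 : tC7 := by
  intro K hK
  set N : ℕ := ⌈330 * K ^ 4⌉₊ with hN
  refine ⟨36 * ((box N).card + 1), by positivity, ?_⟩
  intro m hm V hV _ S hS
  have hlog : (1 / 2 : ℝ) ≤ Real.log m := by
    have h1 : Real.log 2 ≤ Real.log m := by
      apply Real.log_le_log (by norm_num)
      exact_mod_cast hm
    have := Real.log_two_gt_d9
    linarith
  have hlog4 : Real.log (4 * (m : ℝ) ^ 2) ≤ 4 * Real.log m := by
    have hm0 : (0 : ℝ) < m := by
      have : 0 < m := by omega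
      exact_mod_cast this
    have hm2 : (2 : ℝ) ≤ m := by exact_mod_cast hm
    have : 4 * Real.log m = Real.log ((m : ℝ) ^ 4) := by
      rw [Real.log_pow]
      norm_num
    rw [this]
    apply Real.log_le_log (by positivity)
    have h4 : (4 : ℝ) ≤ (m : ℝ) ^ 2 := by nlinarith
    calc 4 * (m : ℝ) ^ 2 ≤ (m : ℝ) ^ 2 * (m : ℝ) ^ 2 :=
          mul_le_mul_of_nonneg_right h4 (by positivity)
      _ = (m : ℝ) ^ 4 := by ring
  have hdet : ∀ γ : GZ, (γ.1 * V).det = V.det := by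
    intro γ
    rw [Matrix.det_mul, γ.2, one_mul]
  let f : GZ → ℕ × ℕ := fun γ =>
    (⌊Real.log (sn (vcol (γ.1 * V) 0))⌋₊, ⌊Real.log (sn (vcol (γ.1 * V) 1))⌋₊)
  have hpos : ∀ γ ∈ S, ∀ i, 1 ≤ sn (vcol (γ.1 * V) i) := by
    intro γ hγ
    exact (C7x.ratio K hK (γ.1 * V) (by rw [hdet]; exact hV) (hS γ hγ).1).1
  have hfib : ∀ a ∈ S.image f, (S.filter fun x => f x = a).card ≤ (box N).card := by
    intro a ha
    obtain ⟨γ₀, hγ₀, rfl⟩ := Finset.mem_image.1 ha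
    refine Finset.card_le_card_of_injOn (fun γ => (γ * γ₀⁻¹).1) ?_ ?_
    · intro γ hγ
      obtain ⟨hγS, hγf⟩ := Finset.mem_filter.1 hγ
      have hf0 : ⌊Real.log (sn (vcol (γ.1 * V) 0))⌋₊ = ⌊Real.log (sn (vcol (γ₀.1 * V) 0))⌋₊ :=
        congrArg Prod.fst hγf
      have hf1 : ⌊Real.log (sn (vcol (γ.1 * V) 1))⌋₊ = ⌊Real.log (sn (vcol (γ₀.1 * V) 1))⌋₊ :=
        congrArg Prod.snd hγf
      have hent := C7x.entry K hK (γ₀.1 * V) (γ.1 * V) (by rw [hdet]; exact hV)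
        (by rw [hdet, hdet]) (hS γ₀ hγ₀).1 (hS γ hγS).1
        (C7x.cell (hpos γ hγS 0) (hpos γ₀ hγ₀ 0) hf0)
        (C7x.cell (hpos γ hγS 1) (hpos γ₀ hγ₀ 1) hf1)
        (C7x.cell (hpos γ₀ hγ₀ 0) (hpos γ hγS 0) hf0.symm)
        (C7x.cell (hpos γ₀ hγ₀ 1) (hpos γ hγS 1) hf1.symm)
      have hmat : toR (γ.1 * V) * (toR (γ₀.1 * V))⁻¹ = toR (γ * γ₀⁻¹).1 := by
        have h1 : toR (γ.1 * V) = toR (γ * γ₀⁻¹).1 * toR (γ₀.1 * V) := by
          rw [← C7x.toR_mul, ← Matrix.mul_assoc]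
          congr 2
          have : (γ * γ₀⁻¹).1 * γ₀.1 = ((γ * γ₀⁻¹) * γ₀).1 := rfl
          rw [this, inv_mul_cancel_right]
        rw [h1]
        apply Matrix.mul_nonsing_inv_cancel_right
        rw [C7x.toR_det, hdet]
        have : (0 : ℝ) < V.det := by exact_mod_cast hV
        exact (ne_of_gt this).isUnit
      show (γ * γ₀⁻¹).1 ∈ box N
      rw [C7x.mem_box]
      intro i j
      have h2 := hent i j
      rw [hmat] at h2
      have h3 : |(((γ * γ₀⁻¹).1 i j : ℤ) : ℝ)| ≤ (N : ℝ) := h2.trans (Nat.le_ceil _)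
      rw [← Int.cast_abs] at h3
      have h4 : |(γ * γ₀⁻¹).1 i j| ≤ (N : ℤ) := by exact_mod_cast h3
      exact abs_le.1 h4
    · intro x _ y _ hxy
      have h1 : x * γ₀⁻¹ = y * γ₀⁻¹ := Subtype.ext hxy
      exact mul_right_cancel h1
  have hcard := Finset.card_le_mul_card_image S (box N).card hfib
  set L : ℕ := ⌊4 * Real.log m⌋₊ with hL
  have himg : S.image f ⊆ Finset.range (L + 1) ×ˢ Finset.range (L + 1) := by
    intro a ha
    obtain ⟨γ, hγ, rfl⟩ := Finset.mem_image.1 ha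
    have hb : ∀ i, ⌊Real.log (sn (vcol (γ.1 * V) i))⌋₊ ∈ Finset.range (L + 1) := by
      intro i
      rw [Finset.mem_range, Nat.lt_succ_iff]
      apply Nat.floor_le_floor
      refine le_trans ?_ hlog4
      exact Real.log_le_log (lt_of_lt_of_le one_pos (hpos γ hγ i)) ((hS γ hγ).2 i)
    exact Finset.mem_product.2 ⟨hb 0, hb 1⟩
  have hc2 : (S.image f).card ≤ (L + 1) * (L + 1) := by
    refine (Finset.card_le_card himg).trans ?_
    rw [Finset.card_product, Finset.card_range]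
  have hL' : (L : ℝ) + 1 ≤ 6 * Real.log m := by
    have : (L : ℝ) ≤ 4 * Real.log m := Nat.floor_le (by linarith)
    linarith
  have hc3 : ((S.image f).card : ℝ) ≤ 36 * Real.log m ^ 2 := by
    have h1 : ((S.image f).card : ℝ) ≤ ((L : ℝ) + 1) * ((L : ℝ) + 1) := by exact_mod_cast hc2
    have h2 : ((L : ℝ) + 1) * ((L : ℝ) + 1) ≤ (6 * Real.log m) * (6 * Real.log m) :=
      mul_le_mul hL' hL' (by positivity) (by linarith)
    linarith
  calc (S.card : ℝ) ≤ (box N).card * (S.image f).card := by exact_mod_cast hcard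
    _ ≤ ((box N).card + 1) * (36 * Real.log m ^ 2) :=
        mul_le_mul (by linarith) hc3 (by positivity) (by positivity)
    _ = 36 * ((box N).card + 1) * Real.log m ^ 2 := by ring

end SAIL.A
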