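import Pool.Agent.SAIL.ARI.Targets

/-!
SAIL / ARI: conjugate pairs with the same eigenvalues differ by signs (job SAILD-C7p).
-/

set_option autoImplicit false

namespace SAIL.A

open Matrix SAIL

namespace C7px

theorem gcd_prim (v : Fin 3 → ℤ) (h : prim v) : Finset.univ.gcd v = 1 := by
  rw [← Finset.normalize_gcd, normalize_eq_one]
  exact h _ fun i => Finset.gcd_dvd (Finset.mem_univ i)

theorem dvd_of_prim (v : Fin 3 → ℤ) (h : prim v) (g t : ℤ) (hd : ∀ i, g ∣ t * v i) : g ∣ t := by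
  have h1 : g ∣ Finset.univ.gcd fun i => t * v i := Finset.dvd_gcd fun i _ => hd i
  rw [Finset.gcd_mul_left, gcd_prim v h, mul_one] at h1
  exact dvd_normalize_iff.1 h1

/-- a unimodular matrix preserves primitive vectors -/
theorem prim_mul (γ : GZ) (v : Fin 3 → ℤ) (h : prim v) : prim (γ.1 *ᵥ v) := by
  intro d hd
  refine h d fun i => ?_
  have h1 : v = γ⁻¹.1 *ᵥ (γ.1 *ᵥ v) := by
    rw [Matrix.mulVec_mulVec]
    have h2 : γ⁻¹.1 * γ.1 = 1 := by
      have h3 : (γ⁻¹ * γ) = 1 := inv_mul_cancel γ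
      have h4 := congrArg Subtype.val h3
      exact h4
    rw [h2, Matrix.one_mulVec]
  rw [h1, Matrix.mulVec, dotProduct]
  exact Finset.dvd_sum fun j _ => Dvd.dvd.mul_left (hd j) _

/-- two primitive vectors on one line differ by a sign -/
theorem sign_of_line (v w : Fin 3 → ℤ) (hv : prim v) (hw : prim w) (d x : ℤ) (hd : 0 < d)
    (h : ∀ i, d * w i = x * v i) : ∃ s : ℤ, (s = 1 ∨ s = -1) ∧ ∀ i, v i = w i * s := by
  have h1 : d ∣ x := dvd_of_prim v hv d x fun i => ⟨w i, (h i).symm⟩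
  have h2 : x ∣ d := dvd_of_prim w hw x d fun i => ⟨v i, h i⟩
  obtain ⟨s, hs⟩ := h1
  obtain ⟨t, ht⟩ := h2
  have h3 : d * (s * t) = d * 1 := by
    rw [mul_one, ← mul_assoc, ← hs]; exact ht.symm
  have h4 : s * t = 1 := mul_left_cancel₀ hd.ne' h3
  have h5 : s = 1 ∨ s = -1 := Int.isUnit_iff.1 (IsUnit.of_mul_eq_one t h4)
  have h6 : s * s = 1 := by
    rcases h5 with h5 | h5 <;> rw [h5] <;> norm_num
  refine ⟨s, h5, fun i => ?_⟩
  have h7 : d * w i = d * (s * v i) := by rw [h i, hs, mul_assoc]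
  have h8 : w i = s * v i := mul_left_cancel₀ hd.ne' h7
  rw [h8, mul_comm s (v i), mul_assoc, h6, mul_one]

end C7px

open C7px

theorem p_C7p : tC7' := by
  intro A V A' V' l h h' γ hγ
  obtain ⟨hAV, h01, h12, hp, hdet⟩ := h
  obtain ⟨hAV', -, -, hp', hdet'⟩ := h'
  set D : IM := Matrix.diagonal l with hD
  set W : IM := γ.1 * V with hW
  have hAW : A' * W = W * D := by
    rw [hW, ← Matrix.mul_assoc, hγ, Matrix.mul_assoc, hAV, Matrix.mul_assoc]
  have hcolW : ∀ i, vcol W i = γ.1 *ᵥ vcol V i := by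
    intro i
    funext r
    simp only [vcol, hW, Matrix.mul_apply, Matrix.mulVec, dotProduct]
  have hpW : ∀ i, prim (vcol W i) := fun i => by
    rw [hcolW]; exact prim_mul γ _ (hp i)
  set X : IM := V'.adjugate * W with hX
  have hVX : V' * X = V'.det • W := by
    rw [hX, ← Matrix.mul_assoc, Matrix.mul_adjugate, Matrix.smul_mul, Matrix.one_mul]
  have hcomm : D * X = X * D := by
    have e1 : V' * (D * X) = V' * (X * D) := by
      rw [← Matrix.mul_assoc, ← hAV', Matrix.mul_assoc, hVX, Matrix.mul_smul, hAW,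
        ← Matrix.smul_mul, ← hVX, Matrix.mul_assoc]
    have e2 : V'.adjugate * (V' * (D * X)) = V'.adjugate * (V' * (X * D)) := by rw [e1]
    rw [← Matrix.mul_assoc, ← Matrix.mul_assoc V'.adjugate, Matrix.adjugate_mul, Matrix.smul_mul,
      Matrix.smul_mul, Matrix.one_mul, Matrix.one_mul] at e2
    exact smul_right_injective IM hdet'.ne' e2
  have hdiag : ∀ i j, i ≠ j → X i j = 0 := by
    intro i j hij
    have e := congrFun (congrFun hcomm i) j
    rw [hD, Matrix.diagonal_mul, Matrix.mul_diagonal] at e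
    have hl : l i ≠ l j := by
      fin_cases i <;> fin_cases j <;> first | exact absurd rfl hij | (simp; omega)
    have e2 : (l i - l j) * X i j = 0 := by rw [sub_mul, e]; ring
    rcases mul_eq_zero.1 e2 with e3 | e3
    · exact absurd (sub_eq_zero.1 e3) hl
    · exact e3
  have hline : ∀ i r, V'.det * vcol W i r = X i i * vcol V' i r := by
    intro i r
    have e := congrFun (congrFun hVX r) i
    rw [Matrix.mul_apply, Matrix.smul_apply, smul_eq_mul] at e
    rw [Finset.sum_eq_single i] at e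
    · simp only [vcol]; rw [← e, mul_comm]
    · intro j _ hj
      rw [hdiag j i hj, mul_zero]
    · intro hi; exact absurd (Finset.mem_univ i) hi
  have hs : ∀ i, ∃ s : ℤ, (s = 1 ∨ s = -1) ∧ ∀ r, vcol V' i r = vcol W i r * s := fun i =>
    sign_of_line (vcol V' i) (vcol W i) (hp' i) (hpW i) V'.det (X i i) hdet' (hline i)
  choose s hs1 hs2 using hs
  refine ⟨s, hs1, ?_⟩
  ext r i
  rw [Matrix.mul_diagonal]
  exact hs2 i r

end SAIL.A
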