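import Pool.Agent.SAIL.ARI.Targets

/-!
SAIL / ARI, item C8: the hexagon is contained in a square of side `6 log m`.
-/

namespace SAIL.A

open Matrix MeasureTheory Filter SAIL

/-- C8. Area of the hexagon, upper bound. -/
theorem p_C8 (hSPEC : tSPEC) : tC8 := by
  refine ⟨36, by norm_num, ?_⟩
  intro m hm P hP
  classical
  unfold PPf at hP
  rw [Finset.mem_filter] at hP
  obtain ⟨-, hn, l, hE⟩ := hP
  have hdet0 : (0 : ℝ) < (P.2.det : ℝ) := by exact_mod_cast hE.2.2.2.2
  have hdet : ((P.2.det : ℤ) : ℝ) ≤ 8 * (m : ℝ) ^ 3 := (hSPEC m P.1 P.2 l hE hn).2.2.2.1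
  have hm' : (2 : ℝ) ≤ m := by exact_mod_cast hm
  have hlm : Real.log 2 ≤ Real.log m := Real.log_le_log (by norm_num) hm'
  have hlog : Real.log (P.2.det : ℝ) ≤ 6 * Real.log m := by
    have h1 : Real.log (P.2.det : ℝ) ≤ Real.log (8 * (m : ℝ) ^ 3) := Real.log_le_log hdet0 hdet
    have h2 : Real.log (8 * (m : ℝ) ^ 3) = 3 * Real.log 2 + 3 * Real.log m := by
      rw [Real.log_mul (by norm_num) (by positivity), Real.log_pow,
        show (8 : ℝ) = 2 ^ 3 by norm_num, Real.log_pow]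
      push_cast
      ring
    linarith
  have hL : 0 ≤ Real.log m := Real.log_nonneg (by linarith)
  have hsub : Hex P.2 ⊆ Set.Icc (0 : ℝ) (6 * Real.log m) ×ˢ Set.Icc (0 : ℝ) (6 * Real.log m) := by
    intro y hy
    have h0 := (hy 0).1
    have h1 := (hy 1).1
    have h2 := (hy 2).1
    have e0 : pos P.2 y 0 = y.1 := rfl
    have e1 : pos P.2 y 1 = y.2 := rfl
    have e2 : pos P.2 y 2 = Real.log P.2.det - y.1 - y.2 := rfl
    rw [e0] at h0
    rw [e1] at h1
    rw [e2] at h2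
    rw [Set.mem_prod, Set.mem_Icc, Set.mem_Icc]
    exact ⟨⟨h0, by linarith⟩, ⟨h1, by linarith⟩⟩
  calc volume (Hex P.2)
      ≤ volume (Set.Icc (0 : ℝ) (6 * Real.log m) ×ˢ Set.Icc (0 : ℝ) (6 * Real.log m)) :=
        measure_mono hsub
    _ = ENNReal.ofReal (6 * Real.log m) * ENNReal.ofReal (6 * Real.log m) := by
        rw [Measure.volume_eq_prod, Measure.prod_prod, Real.volume_Icc, sub_zero]
    _ = ENNReal.ofReal (36 * Real.log m ^ 2) := by
        rw [← ENNReal.ofReal_mul (by positivity)]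
        congr 1
        ring

end SAIL.A
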