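import Pool.Agent.SAIL.ARI.Targets

/-!
SAILD-C9: the boundary of the hexagon of positions.
-/

namespace SAIL.A.C9x

open Matrix MeasureTheory SAIL SAIL.A

/-- A strip `c - k x ≤ y ≤ c - k x + w` over `[0, M]` has area at most `M w`. -/
theorem strip2 (M w k c : ℝ) (hM : 0 ≤ M) :
    volume {p : ℝ × ℝ | 0 ≤ p.1 ∧ p.1 ≤ M ∧ c - k * p.1 ≤ p.2 ∧ p.2 ≤ c - k * p.1 + w} ≤
      ENNReal.ofReal (M * w) := by
  have hcl : IsClosed {p : ℝ × ℝ | 0 ≤ p.1 ∧ p.1 ≤ M ∧ c - k * p.1 ≤ p.2 ∧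
      p.2 ≤ c - k * p.1 + w} := by
    have h1 : IsClosed {p : ℝ × ℝ | 0 ≤ p.1} := isClosed_le (by fun_prop) (by fun_prop)
    have h2 : IsClosed {p : ℝ × ℝ | p.1 ≤ M} := isClosed_le (by fun_prop) (by fun_prop)
    have h3 : IsClosed {p : ℝ × ℝ | c - k * p.1 ≤ p.2} := isClosed_le (by fun_prop) (by fun_prop)
    have h4 : IsClosed {p : ℝ × ℝ | p.2 ≤ c - k * p.1 + w} :=
      isClosed_le (by fun_prop) (by fun_prop)
    exact h1.inter (h2.inter (h3.inter h4))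
  rw [Measure.volume_eq_prod, Measure.prod_apply hcl.measurableSet]
  calc ∫⁻ x, volume (Prod.mk x ⁻¹' {p : ℝ × ℝ | 0 ≤ p.1 ∧ p.1 ≤ M ∧ c - k * p.1 ≤ p.2 ∧
          p.2 ≤ c - k * p.1 + w})
      ≤ ∫⁻ x, (Set.Icc 0 M).indicator (fun _ => ENNReal.ofReal w) x := by
        apply lintegral_mono
        intro x
        by_cases hx : x ∈ Set.Icc 0 M
        · rw [Set.indicator_of_mem hx]
          calc volume _ ≤ volume (Set.Icc (c - k * x) (c - k * x + w)) :=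
                measure_mono (fun y hy => ⟨hy.2.2.1, hy.2.2.2⟩)
            _ = ENNReal.ofReal w := by rw [Real.volume_Icc]; congr 1; ring
        · rw [Set.indicator_of_notMem hx]
          have : Prod.mk x ⁻¹' {p : ℝ × ℝ | 0 ≤ p.1 ∧ p.1 ≤ M ∧ c - k * p.1 ≤ p.2 ∧
              p.2 ≤ c - k * p.1 + w} = ∅ := by
            ext y
            simp only [Set.mem_preimage, Set.mem_ofPred_eq, Set.mem_empty_iff_false, iff_false]
            intro h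
            exact hx ⟨h.1, h.2.1⟩
          show volume (Prod.mk x ⁻¹' {p : ℝ × ℝ | 0 ≤ p.1 ∧ p.1 ≤ M ∧ c - k * p.1 ≤ p.2 ∧
              p.2 ≤ c - k * p.1 + w}) ≤ 0
          rw [this]
          simp
    _ = ENNReal.ofReal w * volume (Set.Icc 0 M) := by
        rw [lintegral_indicator measurableSet_Icc]
        simp
    _ = ENNReal.ofReal (M * w) := by
        rw [Real.volume_Icc, sub_zero, mul_comm, ENNReal.ofReal_mul hM]

/-- A vertical strip. -/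
theorem strip1 (M w c : ℝ) (hM : 0 ≤ M) :
    volume {p : ℝ × ℝ | 0 ≤ p.2 ∧ p.2 ≤ M ∧ c ≤ p.1 ∧ p.1 ≤ c + w} ≤
      ENNReal.ofReal (M * w) := by
  have h : {p : ℝ × ℝ | 0 ≤ p.2 ∧ p.2 ≤ M ∧ c ≤ p.1 ∧ p.1 ≤ c + w} ⊆
      Set.Icc c (c + w) ×ˢ Set.Icc 0 M := fun p hp => ⟨⟨hp.2.2.1, hp.2.2.2⟩, hp.1, hp.2.1⟩
  refine (measure_mono h).trans ?_
  rw [Measure.volume_eq_prod, Measure.prod_prod, Real.volume_Icc, Real.volume_Icc, sub_zero,
    mul_comm, ENNReal.ofReal_mul hM]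
  simp

/-- General statement for the hexagon `0 ≤ a, b, D - a - b` and `a ≤ A`, `b ≤ B`,
`D - a - b ≤ E`. -/
theorem hexb (D A B E M : ℝ) (hM : 0 ≤ M) (hD : D ≤ M) (s : ℝ × ℝ) :
    volume {y : ℝ × ℝ | (0 ≤ y.1 ∧ y.1 ≤ A ∧ 0 ≤ y.2 ∧ y.2 ≤ B ∧ 0 ≤ D - y.1 - y.2 ∧
        D - y.1 - y.2 ≤ E) ∧ ¬ (0 ≤ (y + s).1 ∧ (y + s).1 ≤ A ∧ 0 ≤ (y + s).2 ∧ (y + s).2 ≤ B ∧
        0 ≤ D - (y + s).1 - (y + s).2 ∧ D - (y + s).1 - (y + s).2 ≤ E)} ≤
      ENNReal.ofReal (12 * ‖s‖ * M) := by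
  set w : ℝ := 2 * ‖s‖ with hw
  have hs0 : 0 ≤ ‖s‖ := norm_nonneg s
  have h1 : |s.1| ≤ ‖s‖ := norm_fst_le s
  have h2 : |s.2| ≤ ‖s‖ := norm_snd_le s
  have h1' := abs_le.1 h1
  have h2' := abs_le.1 h2
  set T1 := {p : ℝ × ℝ | 0 ≤ p.2 ∧ p.2 ≤ M ∧ (0 : ℝ) ≤ p.1 ∧ p.1 ≤ 0 + w}
  set T2 := {p : ℝ × ℝ | 0 ≤ p.2 ∧ p.2 ≤ M ∧ (A - w : ℝ) ≤ p.1 ∧ p.1 ≤ (A - w) + w}
  set T3 := {p : ℝ × ℝ | 0 ≤ p.1 ∧ p.1 ≤ M ∧ (0 : ℝ) - 0 * p.1 ≤ p.2 ∧ p.2 ≤ 0 - 0 * p.1 + w}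
  set T4 := {p : ℝ × ℝ | 0 ≤ p.1 ∧ p.1 ≤ M ∧ (B - w) - 0 * p.1 ≤ p.2 ∧
    p.2 ≤ (B - w) - 0 * p.1 + w}
  set T5 := {p : ℝ × ℝ | 0 ≤ p.1 ∧ p.1 ≤ M ∧ (D - w) - 1 * p.1 ≤ p.2 ∧
    p.2 ≤ (D - w) - 1 * p.1 + w}
  set T6 := {p : ℝ × ℝ | 0 ≤ p.1 ∧ p.1 ≤ M ∧ (D - E) - 1 * p.1 ≤ p.2 ∧
    p.2 ≤ (D - E) - 1 * p.1 + w}
  have hsub : {y : ℝ × ℝ | (0 ≤ y.1 ∧ y.1 ≤ A ∧ 0 ≤ y.2 ∧ y.2 ≤ B ∧ 0 ≤ D - y.1 - y.2 ∧
        D - y.1 - y.2 ≤ E) ∧ ¬ (0 ≤ (y + s).1 ∧ (y + s).1 ≤ A ∧ 0 ≤ (y + s).2 ∧ (y + s).2 ≤ B ∧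
        0 ≤ D - (y + s).1 - (y + s).2 ∧ D - (y + s).1 - (y + s).2 ≤ E)} ⊆
      T1 ∪ (T2 ∪ (T3 ∪ (T4 ∪ (T5 ∪ T6)))) := by
    rintro y ⟨⟨a1, a2, a3, a4, a5, a6⟩, hn⟩
    simp only [Set.mem_union, T1, T2, T3, T4, T5, T6, Set.mem_ofPred_eq]
    simp only [Prod.fst_add, Prod.snd_add, not_and_or, not_le] at hn
    have b1 : y.1 ≤ M := by linarith
    have b2 : y.2 ≤ M := by linarith
    rcases hn with h | h | h | h | h | h
    · left; refine ⟨a3, b2, a1, by linarith⟩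
    · right; left; refine ⟨a3, b2, by linarith, by linarith⟩
    · right; right; left; refine ⟨a1, b1, by linarith, by linarith⟩
    · right; right; right; left; refine ⟨a1, b1, by linarith, by linarith⟩
    · right; right; right; right; left; refine ⟨a1, b1, by linarith, by linarith⟩
    · right; right; right; right; right; refine ⟨a1, b1, by linarith, by linarith⟩
  have hMw : 0 ≤ M * w := by positivity
  calc _ ≤ volume (T1 ∪ (T2 ∪ (T3 ∪ (T4 ∪ (T5 ∪ T6))))) := measure_mono hsub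
    _ ≤ volume T1 + (volume T2 + (volume T3 + (volume T4 + (volume T5 + volume T6)))) := by
        refine (measure_union_le _ _).trans (add_le_add le_rfl ?_)
        refine (measure_union_le _ _).trans (add_le_add le_rfl ?_)
        refine (measure_union_le _ _).trans (add_le_add le_rfl ?_)
        refine (measure_union_le _ _).trans (add_le_add le_rfl ?_)
        exact measure_union_le _ _
    _ ≤ ENNReal.ofReal (M * w) + (ENNReal.ofReal (M * w) + (ENNReal.ofReal (M * w) +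
          (ENNReal.ofReal (M * w) + (ENNReal.ofReal (M * w) + ENNReal.ofReal (M * w))))) := by
        refine add_le_add (strip1 _ _ _ hM) (add_le_add (strip1 _ _ _ hM) (add_le_add
          (strip2 _ _ _ _ hM) (add_le_add (strip2 _ _ _ _ hM) (add_le_add
          (strip2 _ _ _ _ hM) (strip2 _ _ _ _ hM)))))
    _ = ENNReal.ofReal (12 * ‖s‖ * M) := by
        rw [← ENNReal.ofReal_add hMw hMw, ← ENNReal.ofReal_add hMw (by positivity),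
          ← ENNReal.ofReal_add hMw (by positivity), ← ENNReal.ofReal_add hMw (by positivity),
          ← ENNReal.ofReal_add hMw (by positivity)]
        congr 1
        rw [hw]; ring

theorem mem_hex (V : IM) (y : ℝ × ℝ) : y ∈ Hex V ↔
    (0 ≤ y.1 ∧ y.1 ≤ Real.log V.det - Real.log (cn V 0) ∧ 0 ≤ y.2 ∧
      y.2 ≤ Real.log V.det - Real.log (cn V 1) ∧ 0 ≤ Real.log V.det - y.1 - y.2 ∧
      Real.log V.det - y.1 - y.2 ≤ Real.log V.det - Real.log (cn V 2)) := by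
  simp only [Hex, Set.mem_ofPred_eq, Fin.forall_fin_succ,
    dpos, pos, IsEmpty.forall_iff, and_true]
  simp
  constructor
  · rintro ⟨⟨a, b⟩, ⟨c, d⟩, e, f⟩
    exact ⟨a, by linarith, c, by linarith, e, by linarith⟩
  · rintro ⟨a, b, c, d, e, f⟩
    exact ⟨⟨a, by linarith⟩, ⟨c, by linarith⟩, e, by linarith⟩

end SAIL.A.C9x

namespace SAIL.A

open Matrix MeasureTheory SAIL SAIL.A SAIL.A.C9x

theorem p_C9 (hSPEC : tSPEC) : tC9 := by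
  refine ⟨72, by norm_num, ?_⟩
  intro m hm P hP s
  classical
  have hP' := (Finset.mem_filter.1 hP).2
  obtain ⟨hn, l, hE⟩ := hP'
  obtain ⟨-, -, -, hdet, -, -, -⟩ := hSPEC m P.1 P.2 l hE hn
  have hm' : (2 : ℝ) ≤ m := by exact_mod_cast hm
  have hdpos : (0 : ℝ) < (P.2.det : ℝ) := by exact_mod_cast hE.2.2.2.2
  have hD : Real.log (P.2.det : ℝ) ≤ 6 * Real.log m := by
    calc Real.log (P.2.det : ℝ) ≤ Real.log (8 * (m : ℝ) ^ 3) := Real.log_le_log hdpos hdet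
      _ ≤ Real.log ((m : ℝ) ^ 6) := by
          apply Real.log_le_log (by positivity)
          have : (8 : ℝ) ≤ (m : ℝ) ^ 3 := by
            calc (8 : ℝ) = 2 ^ 3 := by norm_num
              _ ≤ (m : ℝ) ^ 3 := by gcongr
          calc 8 * (m : ℝ) ^ 3 ≤ (m : ℝ) ^ 3 * (m : ℝ) ^ 3 := by gcongr
            _ = (m : ℝ) ^ 6 := by ring
      _ = 6 * Real.log m := by rw [Real.log_pow]; norm_num
  have hM : 0 ≤ 6 * Real.log m := by
    have : 0 ≤ Real.log (m : ℝ) := Real.log_nonneg (by linarith)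
    linarith
  have key := hexb (Real.log (P.2.det : ℝ)) (Real.log P.2.det - Real.log (cn P.2 0))
    (Real.log P.2.det - Real.log (cn P.2 1)) (Real.log P.2.det - Real.log (cn P.2 2))
    (6 * Real.log m) hM hD s
  have hset : {y | y ∈ Hex P.2 ∧ y + s ∉ Hex P.2} = {y : ℝ × ℝ | (0 ≤ y.1 ∧
      y.1 ≤ Real.log P.2.det - Real.log (cn P.2 0) ∧ 0 ≤ y.2 ∧
      y.2 ≤ Real.log P.2.det - Real.log (cn P.2 1) ∧ 0 ≤ Real.log P.2.det - y.1 - y.2 ∧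
      Real.log P.2.det - y.1 - y.2 ≤ Real.log P.2.det - Real.log (cn P.2 2)) ∧
      ¬ (0 ≤ (y + s).1 ∧ (y + s).1 ≤ Real.log P.2.det - Real.log (cn P.2 0) ∧ 0 ≤ (y + s).2 ∧
      (y + s).2 ≤ Real.log P.2.det - Real.log (cn P.2 1) ∧
      0 ≤ Real.log P.2.det - (y + s).1 - (y + s).2 ∧
      Real.log P.2.det - (y + s).1 - (y + s).2 ≤ Real.log P.2.det - Real.log (cn P.2 2))} := by
    ext y
    simp only [Set.mem_ofPred_eq, mem_hex]
  rw [hset]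
  refine key.trans (le_of_eq ?_)
  congr 1
  ring

end SAIL.A
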