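import Pool.Agent.SAIL.ARI.Targets

/-!
SAIL / ARI: cross product inequalities (job SAILD-CRO).
-/

set_option autoImplicit false

namespace SAIL.A

open Matrix SAIL

namespace CROx

theorem sn_nonneg (v : Fin 3 → ℤ) : 0 ≤ sn v := norm_nonneg _

theorem abs_le_sn (v : Fin 3 → ℤ) (i : Fin 3) : |(v i : ℝ)| ≤ sn v := by
  have h := norm_le_pi_norm (fun i => (v i : ℝ) : Fin 3 → ℝ) i
  simpa [sn, Real.norm_eq_abs] using h

theorem sn_le {v : Fin 3 → ℤ} {c : ℝ} (hc : 0 ≤ c) (h : ∀ i, |(v i : ℝ)| ≤ c) : sn v ≤ c := by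
  unfold sn
  rw [pi_norm_le_iff_of_nonneg hc]
  intro i
  rw [Real.norm_eq_abs]
  exact h i

theorem exists_abs_eq (v : Fin 3 → ℤ) : ∃ r, |(v r : ℝ)| = sn v := by
  obtain ⟨r, -, hr⟩ := Finset.exists_max_image (Finset.univ : Finset (Fin 3))
    (fun i => |(v i : ℝ)|) ⟨0, Finset.mem_univ 0⟩
  refine ⟨r, le_antisymm (abs_le_sn v r) ?_⟩
  exact sn_le (abs_nonneg _) fun i => hr i (Finset.mem_univ i)

theorem sn_smul (c : ℤ) (v : Fin 3 → ℤ) : sn (c • v) = |(c : ℝ)| * sn v := by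
  unfold sn
  have h : (fun i => (((c • v) i : ℤ) : ℝ) : Fin 3 → ℝ) = (c : ℝ) • (fun i => (v i : ℝ)) := by
    funext i
    simp
  rw [h, norm_smul, Real.norm_eq_abs]

theorem row_le (A : IM) (r : Fin 3) : (∑ s, |((A r s : ℤ) : ℝ)|) ≤ (nrm A : ℝ) := by
  have h : (nrm A : ℝ) = ∑ r, ∑ s, |((A r s : ℤ) : ℝ)| := by
    unfold nrm
    push_cast
    rfl
  rw [h]
  exact Finset.single_le_sum (f := fun r => ∑ s, |((A r s : ℤ) : ℝ)|)
    (fun i _ => Finset.sum_nonneg fun _ _ => abs_nonneg _) (Finset.mem_univ r)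

theorem mulVec_le (A : IM) (Z : Fin 3 → ℤ) (r : Fin 3) :
    |(((A *ᵥ Z) r : ℤ) : ℝ)| ≤ (nrm A : ℝ) * sn Z := by
  have e : (((A *ᵥ Z) r : ℤ) : ℝ) = ∑ s, ((A r s : ℤ) : ℝ) * ((Z s : ℤ) : ℝ) := by
    simp [Matrix.mulVec, dotProduct]
  rw [e]
  calc |∑ s, ((A r s : ℤ) : ℝ) * ((Z s : ℤ) : ℝ)|
      ≤ ∑ s, |((A r s : ℤ) : ℝ) * ((Z s : ℤ) : ℝ)| := Finset.abs_sum_le_sum_abs _ _
    _ ≤ ∑ s, |((A r s : ℤ) : ℝ)| * sn Z := by
        refine Finset.sum_le_sum fun s _ => ?_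
        rw [abs_mul]
        exact mul_le_mul_of_nonneg_left (abs_le_sn Z s) (abs_nonneg _)
    _ = (∑ s, |((A r s : ℤ) : ℝ)|) * sn Z := by rw [Finset.sum_mul]
    _ ≤ (nrm A : ℝ) * sn Z := mul_le_mul_of_nonneg_right (row_le A r) (sn_nonneg Z)

/-- the coordinates of `v_r w - w_r v` are coordinates of the cross product up to sign -/
theorem Z_le (v w : Fin 3 → ℤ) (r s : Fin 3) :
    |(((v r * w s - w r * v s : ℤ)) : ℝ)| ≤ sn (crossProduct v w) := by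
  have h0 := abs_le_sn (crossProduct v w) 0
  have h1 := abs_le_sn (crossProduct v w) 1
  have h2 := abs_le_sn (crossProduct v w) 2
  have hn := sn_nonneg (crossProduct v w)
  rw [cross_apply] at h0 h1 h2
  rw [cross_apply] at hn ⊢
  simp only [Matrix.cons_val_zero, Matrix.cons_val_one, Matrix.cons_val] at h0 h1 h2
  rw [abs_le] at h0 h1 h2 ⊢
  push_cast at h0 h1 h2 ⊢
  fin_cases r <;> fin_cases s <;> simp only [Fin.zero_eta, Fin.mk_one, Fin.reduceFinMk] <;>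
    constructor <;> nlinarith [h0.1, h0.2, h1.1, h1.2, h2.1, h2.2, hn]

theorem key {A : IM} {v w : Fin 3 → ℤ} {a b : ℤ} {m : ℕ} (hA : nrm A ≤ m)
    (hv : A *ᵥ v = a • v) (hw : A *ᵥ w = b • w) (ha : |a| ≤ m) :
    |((b - a : ℤ) : ℝ)| * (sn v * sn w) ≤ 2 * m * sn (crossProduct v w) := by
  obtain ⟨r, hr⟩ := exists_abs_eq v
  obtain ⟨s, hs⟩ := exists_abs_eq w
  set Z : Fin 3 → ℤ := fun s => v r * w s - w r * v s with hZ
  have hZn : sn Z ≤ sn (crossProduct v w) := sn_le (sn_nonneg _) fun s => Z_le v w r s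
  have hZe : Z = v r • w - w r • v := by
    funext s
    simp [hZ]
  have h1 : A *ᵥ Z - a • Z = (v r * (b - a)) • w := by
    rw [hZe, Matrix.mulVec_sub, Matrix.mulVec_smul, Matrix.mulVec_smul, hv, hw]
    funext s
    simp
    ring
  have h2 : ((v r : ℤ) : ℝ) * ((b - a : ℤ) : ℝ) * ((w s : ℤ) : ℝ) =
      (((A *ᵥ Z) s : ℤ) : ℝ) - (a : ℝ) * ((Z s : ℤ) : ℝ) := by
    have h3 := congrFun h1 s
    simp only [Pi.sub_apply, Pi.smul_apply, smul_eq_mul] at h3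
    have h4 : (((A *ᵥ Z) s - a * Z s : ℤ) : ℝ) = ((v r * (b - a) * w s : ℤ) : ℝ) := by
      rw [h3]
    push_cast at h4 ⊢
    linarith
  have h5 : |((b - a : ℤ) : ℝ)| * (sn v * sn w) =
      |((v r : ℤ) : ℝ) * ((b - a : ℤ) : ℝ) * ((w s : ℤ) : ℝ)| := by
    rw [abs_mul, abs_mul, hr, hs]
    ring
  rw [h5, h2]
  have hAr : (nrm A : ℝ) ≤ m := by exact_mod_cast hA
  have har : |(a : ℝ)| ≤ m := by exact_mod_cast ha
  have hm : (0 : ℝ) ≤ m := Nat.cast_nonneg m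
  have h6 : |(((A *ᵥ Z) s : ℤ) : ℝ)| ≤ m * sn Z :=
    (mulVec_le A Z s).trans (mul_le_mul_of_nonneg_right hAr (sn_nonneg Z))
  have h7 : |(a : ℝ) * ((Z s : ℤ) : ℝ)| ≤ m * sn Z := by
    rw [abs_mul]
    exact mul_le_mul har (abs_le_sn Z s) (abs_nonneg _) hm
  calc |(((A *ᵥ Z) s : ℤ) : ℝ) - (a : ℝ) * ((Z s : ℤ) : ℝ)|
      ≤ |(((A *ᵥ Z) s : ℤ) : ℝ)| + |(a : ℝ) * ((Z s : ℤ) : ℝ)| := abs_sub _ _
    _ ≤ m * sn Z + m * sn Z := add_le_add h6 h7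
    _ = 2 * m * sn Z := by ring
    _ ≤ 2 * m * sn (crossProduct v w) := mul_le_mul_of_nonneg_left hZn (by positivity)

theorem gap_pos {A V : IM} {l : Fin 3 → ℤ} (h : Eig A V l) (k : Fin 3) :
    l (k + 1) - l (k + 2) ≠ 0 := by
  obtain ⟨-, h1, h2, -⟩ := h
  fin_cases k
  · show l 1 - l 2 ≠ 0
    omega
  · show l 2 - l 0 ≠ 0
    omega
  · show l 0 - l 1 ≠ 0
    omega

theorem first (hADJ : tADJ) (hDUAL : tDUAL) (hDVD : tDVD) (hSPEC : tSPEC) (m : ℕ) (A V : IM)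
    (l : Fin 3 → ℤ) (h : Eig A V l) (hA : nrm A ≤ m) (k : Fin 3) :
    sn (vcol V (k + 1)) * sn (vcol V (k + 2)) ≤ 4 * m * sn (vst V k) := by
  obtain ⟨hcn, -, -, -, -, -, hcr, -⟩ := hADJ V h.2.2.2.2 h.2.2.2.1
  obtain ⟨-, -, -, -, -, hev⟩ := hDUAL A V l h
  obtain ⟨hl, -⟩ := hSPEC m A V l h hA
  have hg := gap_pos h k
  have h1 := key hA (hev (k + 1)) (hev (k + 2)) (hl (k + 1))
  rw [hcr k, sn_smul] at h1
  have hc0 : (0 : ℝ) ≤ cn V k := Nat.cast_nonneg _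
  have hc : |(((cn V k : ℕ) : ℤ) : ℝ)| = cn V k := by
    rw [Int.cast_natCast, abs_of_nonneg hc0]
  rw [hc] at h1
  have hle : (cn V k : ℝ) ≤ |((l (k + 2) - l (k + 1) : ℤ) : ℝ)| := by
    have hd : (cn V k : ℤ) ∣ |l (k + 2) - l (k + 1)| := by
      rw [dvd_abs]
      have h2 := (hDVD A V l h k).1
      have h3 : l (k + 2) - l (k + 1) = -(l (k + 1) - l (k + 2)) := by ring
      rw [h3]
      exact (dvd_neg).2 h2
    have hp : 0 < |l (k + 2) - l (k + 1)| := by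
      rw [abs_pos]
      intro h0
      apply hg
      linarith
    have h4 : (cn V k : ℤ) ≤ |l (k + 2) - l (k + 1)| := Int.le_of_dvd hp hd
    have h5 : ((cn V k : ℤ) : ℝ) ≤ ((|l (k + 2) - l (k + 1)| : ℤ) : ℝ) := by exact_mod_cast h4
    rw [Int.cast_natCast, Int.cast_abs] at h5
    exact h5
  have hG : 0 < |((l (k + 2) - l (k + 1) : ℤ) : ℝ)| := by
    have : (0 : ℝ) < cn V k := by exact_mod_cast hcn k
    linarith
  set G := |((l (k + 2) - l (k + 1) : ℤ) : ℝ)| with hGdef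
  have hm : (0 : ℝ) ≤ m := Nat.cast_nonneg m
  have hs := sn_nonneg (vst V k)
  have h6 : G * (sn (vcol V (k + 1)) * sn (vcol V (k + 2))) ≤ G * (2 * m * sn (vst V k)) := by
    calc G * (sn (vcol V (k + 1)) * sn (vcol V (k + 2)))
        ≤ 2 * m * (cn V k * sn (vst V k)) := h1
      _ ≤ 2 * m * (G * sn (vst V k)) := by gcongr
      _ = G * (2 * m * sn (vst V k)) := by ring
  have h7 := le_of_mul_le_mul_left h6 hG
  nlinarith [mul_nonneg hm hs]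

end CROx

theorem p_CRO (hADJ : tADJ) (hDUAL : tDUAL) (hDVD : tDVD) (hSPEC : tSPEC) : tCRO := by
  intro m A V l h hA k
  refine ⟨CROx.first hADJ hDUAL hDVD hSPEC m A V l h hA k, ?_⟩
  obtain ⟨hE, hc, hv, hn, -, -⟩ := hDUAL A V l h
  have h1 := CROx.first hADJ hDUAL hDVD hSPEC m Aᵀ (Vd V) l hE (by rw [hn]; exact hA) k
  rw [hc, hc, hv] at h1
  exact h1

end SAIL.A
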