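import Pool.Agent.SAIL.ARI.Targets

/-!
SAIL / ARI, target DA: unfolding over `SL3(Z)` with the bound for the number of conjugates.
-/

namespace SAIL.A

open Matrix MeasureTheory Filter SAIL

namespace DAx

/-- the integral over all positions -/
noncomputable def J (ψ : M3 → ℝ) (V : IM) : ENNReal :=
  ∫⁻ y : ℝ × ℝ, ENNReal.ofReal (ψ (gmat V y))

lemma ofReal_tsum_le {ι : Type*} (f : ι → ℝ) (hf : ∀ i, 0 ≤ f i) :
    ENNReal.ofReal (∑' i, f i) ≤ ∑' i, ENNReal.ofReal (f i) := by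
  by_cases hs : Summable f
  · rw [ENNReal.ofReal_tsum_of_nonneg hf hs]
  · rw [tsum_eq_zero_of_not_summable hs]
    simp

lemma natCast_le_ofReal {n : ℕ} {x : ℝ} (h : (n : ℝ) ≤ x) : (n : ENNReal) ≤ ENNReal.ofReal x := by
  rw [← ENNReal.ofReal_natCast]
  exact ENNReal.ofReal_le_ofReal h

lemma inv_mul_val (γ : GZ) : γ⁻¹.1 * γ.1 = 1 := by
  rw [← Matrix.SpecialLinearGroup.coe_mul, inv_mul_cancel, Matrix.SpecialLinearGroup.coe_one]

lemma mul_inv_val (γ : GZ) : γ.1 * γ⁻¹.1 = 1 := by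
  rw [← Matrix.SpecialLinearGroup.coe_mul, mul_inv_cancel, Matrix.SpecialLinearGroup.coe_one]

lemma vcol_mul (A V : IM) (i : Fin 3) : vcol (A * V) i = A *ᵥ vcol V i := by
  ext r
  simp [vcol, Matrix.mul_apply, Matrix.mulVec, dotProduct]

lemma prim_mul (γ : GZ) {v : Fin 3 → ℤ} (hv : prim v) : prim (γ.1 *ᵥ v) := by
  intro d hd
  apply hv d
  intro i
  have h : v = γ⁻¹.1 *ᵥ (γ.1 *ᵥ v) := by rw [Matrix.mulVec_mulVec, inv_mul_val, Matrix.one_mulVec]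
  rw [h]
  have h2 : (γ⁻¹.1 *ᵥ (γ.1 *ᵥ v)) i = ∑ j, γ⁻¹.1 i j * (γ.1 *ᵥ v) j := rfl
  rw [h2]
  exact Finset.dvd_sum fun j _ => Dvd.dvd.mul_left (hd j) _

lemma eig_conj {A V : IM} {l : Fin 3 → ℤ} (h : Eig A V l) (γ : GZ) :
    Eig (γ⁻¹.1 * A * γ.1) (γ⁻¹.1 * V) l := by
  obtain ⟨h1, h2, h3, h4, h5⟩ := h
  refine ⟨?_, h2, h3, fun i => ?_, ?_⟩
  · calc γ⁻¹.1 * A * γ.1 * (γ⁻¹.1 * V) = γ⁻¹.1 * A * (γ.1 * γ⁻¹.1) * V := by
          simp only [Matrix.mul_assoc]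
      _ = γ⁻¹.1 * (A * V) := by rw [mul_inv_val, Matrix.mul_one, Matrix.mul_assoc]
      _ = γ⁻¹.1 * V * Matrix.diagonal l := by rw [h1, Matrix.mul_assoc]
  · rw [vcol_mul]; exact prim_mul γ⁻¹ (h4 i)
  · rw [Matrix.det_mul, γ⁻¹.2, one_mul]; exact h5

lemma det_gmat (hGM : tGM) {V : IM} (hV : 0 < V.det) (y : ℝ × ℝ) : (gmat V y).det = 1 :=
  (hGM V hV y).1

lemma cont_gmat (V : IM) : Continuous (fun y : ℝ × ℝ => gmat V y) := by
  have hp : ∀ i, Continuous (fun y : ℝ × ℝ => pos V y i) := by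
    intro i
    fin_cases i
    · exact continuous_fst
    · exact continuous_snd
    · exact (continuous_const.sub continuous_fst).sub continuous_snd
  unfold gmat
  refine Continuous.matrix_mul (Continuous.matrix_diagonal ?_) continuous_const
  exact continuous_pi fun i => Real.continuous_exp.comp (hp i)

lemma meas_psi (hGM : tGM) {R : ℝ} {ψ : M3 → ℝ} (hψ : CSF R ψ) {V : IM} (hV : 0 < V.det) :
    Measurable fun y : ℝ × ℝ => ENNReal.ofReal (ψ (gmat V y)) := by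
  have hc : Continuous fun y : ℝ × ℝ => ψ (gmat V y) := by
    refine hψ.cont.comp_continuous (cont_gmat V) fun y => ?_
    show 0 < (gmat V y).det
    rw [det_gmat hGM hV]; exact one_pos
  exact (ENNReal.continuous_ofReal.comp hc).measurable

lemma ang_mono {K K' : ℝ} (h : K ≤ K') {V : IM} (hV : Ang K V) : Ang K' V :=
  fun i j => (hV i j).trans h

/-- nonzero integral gives angles -/
lemma ang_of_J (hGM : tGM) (hE3 : tE3) {R : ℝ} {ψ : M3 → ℝ} (hψ : CSF R ψ) {V : IM}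
    (hV : 0 < V.det) (h : J ψ V ≠ 0) : Ang (2 * (max 1 R) ^ 3) V := by
  have : ∃ y, ψ (gmat V y) ≠ 0 := by
    by_contra hc
    push Not at hc
    apply h
    unfold J
    simp [hc]
  obtain ⟨y, hy⟩ := this
  have hk := hψ.supp _ hy
  have hn : ‖gmat V y‖ ^ 3 ≤ R := by
    have := hk.2
    rwa [det_gmat hGM hV, mul_one] at this
  have hn2 : ‖gmat V y‖ ≤ max 1 R := by
    by_cases h1 : ‖gmat V y‖ ≤ 1
    · exact h1.trans (le_max_left _ _)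
    · push Not at h1
      refine le_trans ?_ (hn.trans (le_max_right _ _))
      nlinarith [mul_pos (sub_pos.2 h1) (sub_pos.2 h1), sq_nonneg ‖gmat V y‖]
  exact hE3 V y (max 1 R) hV fun i j => (entry_le_norm _ i j).trans hn2

/-- unfolding for one pair -/
lemma unfold_one (hGM : tGM) {R : ℝ} {ψ : M3 → ℝ} (hψ : CSF R ψ) (hpos : ∀ M, 0 ≤ ψ M) {V : IM}
    (hV : 0 < V.det) :
    ∫⁻ y in Hex V, ENNReal.ofReal (PS ψ (gmat V y)) ≤ ∑' γ : GZ, J ψ (γ⁻¹.1 * V) := by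
  have hdet : ∀ γ : GZ, 0 < (γ⁻¹.1 * V).det := by
    intro γ; rw [Matrix.det_mul, γ⁻¹.2, one_mul]; exact hV
  calc ∫⁻ y in Hex V, ENNReal.ofReal (PS ψ (gmat V y))
      ≤ ∫⁻ y, ENNReal.ofReal (PS ψ (gmat V y)) := setLIntegral_le_lintegral _ _
    _ ≤ ∫⁻ y, ∑' γ : GZ, ENNReal.ofReal (ψ (gmat (γ⁻¹.1 * V) y)) := by
        refine lintegral_mono fun y => ?_
        have h : PS ψ (gmat V y) = ∑' γ : GZ, ψ (gmat (γ⁻¹.1 * V) y) := by
          unfold PS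
          exact tsum_congr fun γ => by rw [(hGM V hV y).2.1 γ]
        simp only [h]
        exact ofReal_tsum_le _ fun γ => hpos _
    _ = ∑' γ : GZ, J ψ (γ⁻¹.1 * V) := by
        rw [lintegral_tsum fun γ => (meas_psi hGM hψ (hdet γ)).aemeasurable]
        rfl

end DAx

open DAx in
open Classical in
theorem p_DA (hGM : tGM) (hSPEC : tSPEC) (hC6 : tC6) (hC7 : tC7) (hE3 : tE3) : tDA := by
  intro e R he
  obtain ⟨K0, hK0, hang⟩ := hC6 e he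
  set K : ℝ := max (max K0 (2 * (max 1 R) ^ 3)) 1 with hK
  obtain ⟨C, hC, hcount⟩ := hC7 K (le_max_right _ _)
  refine ⟨C, hC, fun ψ hψ hpos m hm => ?_⟩
  set F := (PPf m).filter (Gap e m) with hF
  have hFm : ∀ P ∈ F, nrm P.1 ≤ m ∧ (∃ l, Eig P.1 P.2 l) ∧ Gap e m P := by
    intro P hP
    rw [hF, Finset.mem_filter] at hP
    have h := hP.1
    rw [PPf, Finset.mem_filter] at h
    exact ⟨h.2.1, h.2.2, hP.2⟩
  have hK0K : K0 ≤ K := (le_max_left _ _).trans (le_max_left _ _)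
  have hm1 : 1 ≤ m := by omega
  have hF2 : ∀ P ∈ F, Ang K P.2 ∧ ∀ i, sn (vcol P.2 i) ≤ 4 * (m : ℝ) ^ 2 := by
    intro P hP
    obtain ⟨hn, ⟨l', hl'⟩, hgap⟩ := hFm P hP
    exact ⟨ang_mono hK0K (hang m P hm1 hn hgap), fun i => ((hSPEC m P.1 P.2 l' hl' hn).2.1 i).2⟩
  have hdet : ∀ P ∈ F, 0 < P.2.det := by
    intro P hP
    obtain ⟨l, hl⟩ := (hFm P hP).2.1
    exact hl.2.2.2.2
  let Q := {P : IM × IM // ∃ l, Eig P.1 P.2 l ∧ ∀ i, |l i| ≤ m}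
  -- the map
  let Φ : ↥F × GZ → Q × GZ := fun x => (⟨(x.2⁻¹.1 * x.1.1.1 * x.2.1, x.2⁻¹.1 * x.1.1.2), by
    obtain ⟨l, hl⟩ := (hFm x.1.1 x.1.2).2.1
    exact ⟨l, eig_conj hl x.2, (hSPEC m _ _ l hl (hFm x.1.1 x.1.2).1).1⟩⟩, x.2)
  have hback : ∀ (A : IM) (γ : GZ), γ.1 * (γ⁻¹.1 * A * γ.1) * γ⁻¹.1 = A := by
    intro A γ
    calc γ.1 * (γ⁻¹.1 * A * γ.1) * γ⁻¹.1 = (γ.1 * γ⁻¹.1) * A * (γ.1 * γ⁻¹.1) := by
          simp only [Matrix.mul_assoc]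
      _ = A := by rw [mul_inv_val, Matrix.one_mul, Matrix.mul_one]
  have hback2 : ∀ (V : IM) (γ : GZ), γ.1 * (γ⁻¹.1 * V) = V := by
    intro V γ
    rw [← Matrix.mul_assoc, mul_inv_val, Matrix.one_mul]
  have hinj : Function.Injective Φ := by
    rintro ⟨P, γ⟩ ⟨P', γ'⟩ h
    have h2 : γ = γ' := congrArg Prod.snd h
    subst h2
    have h1 : (γ⁻¹.1 * P.1.1 * γ.1, γ⁻¹.1 * P.1.2) = (γ⁻¹.1 * P'.1.1 * γ.1, γ⁻¹.1 * P'.1.2) :=
      congrArg (fun z : Q × GZ => z.1.1) h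
    have h1a : γ⁻¹.1 * P.1.1 * γ.1 = γ⁻¹.1 * P'.1.1 * γ.1 := congrArg Prod.fst h1
    have h1b : γ⁻¹.1 * P.1.2 = γ⁻¹.1 * P'.1.2 := congrArg Prod.snd h1
    have ha : P.1.1 = P'.1.1 :=
      (hback P.1.1 γ).symm.trans ((congrArg (fun M => γ.1 * M * γ⁻¹.1) h1a).trans (hback P'.1.1 γ))
    have hb : P.1.2 = P'.1.2 :=
      (hback2 P.1.2 γ).symm.trans ((congrArg (fun M => γ.1 * M) h1b).trans (hback2 P'.1.2 γ))
    exact Prod.ext (Subtype.ext (Prod.ext ha hb)) rfl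
  let g : Q × GZ → ENNReal := fun z =>
    if (z.2.1 * z.1.1.1 * z.2⁻¹.1, z.2.1 * z.1.1.2) ∈ F then J ψ z.1.1.2 else 0
  have hg : ∀ x : ↥F × GZ, g (Φ x) = J ψ (x.2⁻¹.1 * x.1.1.2) := by
    rintro ⟨P, γ⟩
    have : (γ.1 * (γ⁻¹.1 * P.1.1 * γ.1) * γ⁻¹.1, γ.1 * (γ⁻¹.1 * P.1.2)) ∈ F := by
      rw [hback, hback2]; exact P.2
    exact if_pos this
  calc ∑ P ∈ F, ∫⁻ y in Hex P.2, ENNReal.ofReal (PS ψ (gmat P.2 y))
      ≤ ∑ P ∈ F, ∑' γ : GZ, J ψ (γ⁻¹.1 * P.2) :=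
        Finset.sum_le_sum fun P hP => unfold_one hGM hψ hpos (hdet P hP)
    _ = ∑' P : ↥F, ∑' γ : GZ, J ψ (γ⁻¹.1 * P.1.2) := by
        rw [tsum_fintype, ← Finset.sum_coe_sort F]
    _ = ∑' x : ↥F × GZ, g (Φ x) := by
        rw [ENNReal.tsum_prod']
        exact tsum_congr fun P => tsum_congr fun γ => (hg (P, γ)).symm
    _ ≤ ∑' z : Q × GZ, g z := ENNReal.tsum_comp_le_tsum_of_injective hinj g
    _ = ∑' P : Q, ∑' γ : GZ, g (P, γ) := ENNReal.tsum_prod'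
    _ ≤ ∑' P : Q, ENNReal.ofReal (C * Real.log m ^ 2) * J ψ P.1.2 := by
        refine ENNReal.tsum_le_tsum fun P => ?_
        by_cases hJ : J ψ P.1.2 = 0
        · have : ∀ γ : GZ, g (P, γ) = 0 := by
            intro γ
            show (if _ then J ψ P.1.2 else 0) = 0
            rw [hJ]; simp
          simp [this]
        · obtain ⟨l, hl, -⟩ := P.2
          have hV : 0 < P.1.2.det := hl.2.2.2.2
          have hA : Ang K P.1.2 := ang_mono ((le_max_right _ _).trans (le_max_left _ _))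
            (ang_of_J hGM hE3 hψ hV hJ)
          rw [ENNReal.tsum_eq_iSup_sum]
          refine iSup_le fun S => ?_
          set S' := S.filter fun γ : GZ => (γ.1 * P.1.1 * γ⁻¹.1, γ.1 * P.1.2) ∈ F with hS'
          have h1 : ∑ γ ∈ S, g (P, γ) = S'.card * J ψ P.1.2 := by
            show ∑ γ ∈ S, (if (γ.1 * P.1.1 * γ⁻¹.1, γ.1 * P.1.2) ∈ F then J ψ P.1.2 else 0) = _
            rw [← Finset.sum_filter, Finset.sum_const, nsmul_eq_mul]
          rw [h1]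
          refine mul_le_mul_left ?_ _
          have hcard : (S'.card : ℝ) ≤ C * Real.log m ^ 2 := by
            refine hcount m hm P.1.2 hV hA S' fun γ hγ => ?_
            have hγ2 : (γ.1 * P.1.1 * γ⁻¹.1, γ.1 * P.1.2) ∈ F := by
              rw [hS', Finset.mem_filter] at hγ
              exact hγ.2
            exact hF2 (γ.1 * P.1.1 * γ⁻¹.1, γ.1 * P.1.2) hγ2
          exact natCast_le_ofReal hcard
    _ = ENNReal.ofReal (C * Real.log m ^ 2) * ∑' P : Q, J ψ P.1.2 := ENNReal.tsum_mul_left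

end SAIL.A
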