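import Pool.Agent.SAIL.ARI.Targets
import Pool.Agent.SAIL.ERG.P_INT
import Pool.Agent.SAIL.ERG.P_FIN

/-!
# SAIL, part D: the sum over all pairs (target tDB)
-/

open Matrix MeasureTheory Set Filter SAIL

namespace SAIL.A.DBx

/-- compactly supported functions are measurable -/
lemma meas_psi {R : ℝ} {ψ : M3 → ℝ} (h : CSF R ψ) : Measurable ψ := by
  classical
  have h1 := ContinuousOn.measurable_piecewise (f := ψ) (g := fun _ => (0 : ℝ)) (s := Om) h.cont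
    continuousOn_const measurableSet_Om
  have e : Om.piecewise ψ (fun _ => (0 : ℝ)) = ψ := by
    ext M
    by_cases hM : M ∈ Om
    · rw [piecewise_eq_of_mem _ _ _ hM]
    · rw [piecewise_eq_of_notMem _ _ _ hM]
      by_contra hne
      exact hM (KK_subset_Om R (h.supp M (fun h0 => hne h0.symm)))
  rwa [e] at h1

lemma cont_pos (V : IM) (i : Fin 3) : Continuous (fun y : ℝ × ℝ => pos V y i) := by
  unfold pos
  fin_cases i
  · show Continuous (fun y : ℝ × ℝ => y.1)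
    fun_prop
  · show Continuous (fun y : ℝ × ℝ => y.2)
    fun_prop
  · show Continuous (fun y : ℝ × ℝ => Real.log V.det - y.1 - y.2)
    fun_prop

lemma cont_gmat (V : IM) : Continuous (fun y : ℝ × ℝ => gmat V y) := by
  unfold gmat
  refine Continuous.matrix_mul ?_ continuous_const
  refine Continuous.matrix_diagonal ?_
  exact continuous_pi fun i => Real.continuous_exp.comp (cont_pos V i)

lemma mp_lmul (hL : T_LMUL) {g : M3} (hg : g.det = 1) :
    MeasurePreserving (fun M : M3 => g * M) volume volume := by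
  refine ⟨measurable_lmul g, ?_⟩
  refine Measure.ext fun E hE => ?_
  rw [Measure.map_apply (measurable_lmul g) hE, hL g (by rw [hg]; norm_num) E, hg]
  simp

/-- cube root of the determinant -/
noncomputable def dd (M : M3) : ℝ := M.det ^ (1 / 3 : ℝ)

/-- the neighbourhood -/
def Ur (r : ℝ) : Set M3 := {M : M3 | M ∈ Co ∧ ‖M - (M.det ^ (1 / 3 : ℝ)) • (1 : M3)‖ ≤ r * M.det ^ (1 / 3 : ℝ)}

lemma cont_norm' : Continuous (fun M : M3 => ‖M‖) :=
  (continuous_norm : @Continuous M3 ℝ topN _ (fun M : M3 => ‖M‖))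

lemma cont_dd : Continuous (fun M : M3 => M.det ^ (1 / 3 : ℝ)) :=
  (Real.continuous_rpow_const (by norm_num)).comp continuous_det

lemma meas_Ur (r : ℝ) : MeasurableSet (Ur r) := by
  have h1 : Continuous (fun M : M3 => ‖M - (M.det ^ (1 / 3 : ℝ)) • (1 : M3)‖) := by
    refine cont_norm'.comp ?_
    exact continuous_id.sub (cont_dd.smul continuous_const)
  have h2 : MeasurableSet {M : M3 | ‖M - (M.det ^ (1 / 3 : ℝ)) • (1 : M3)‖ ≤
      r * M.det ^ (1 / 3 : ℝ)} := (isClosed_le h1 (continuous_const.mul cont_dd)).measurableSet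
  exact measurableSet_Co.inter h2

lemma meas_KK (R : ℝ) : MeasurableSet (KK R) := by
  have h2 : MeasurableSet {M : M3 | ‖M‖ ^ 3 ≤ R * M.det} :=
    (isClosed_le (cont_norm'.pow 3) (continuous_const.mul continuous_det)).measurableSet
  exact measurableSet_Om.inter h2

lemma dd_pos {M : M3} (h : 0 < M.det) : 0 < dd M := Real.rpow_pos_of_pos h _

lemma dd_cube {M : M3} (h : 0 < M.det) : dd M ^ 3 = M.det := by
  unfold dd
  rw [← Real.rpow_natCast, ← Real.rpow_mul h.le]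
  norm_num

lemma adj_mul {h : M3} (hd : h.det = 1) : h.adjugate * h = 1 := by
  rw [Matrix.adjugate_mul, hd, one_smul]

lemma mul_adj {h : M3} (hd : h.det = 1) : h * h.adjugate = 1 := by
  rw [Matrix.mul_adjugate, hd, one_smul]

/-- the local geometry -/
lemma local_geo {R₁ r : ℝ} (hR₁ : 1 ≤ R₁) (hr : 0 < r) (hr1 : r ≤ 1) {h U : M3} (hd : h.det = 1)
    (hn : ‖h‖ ≤ R₁) (hU : U ∈ Ur r) :
    (h * U) ∈ Co ∧ (h * U) ∈ KK (216 * R₁ ^ 3) ∧
    (∃ u : M3, ‖u - 1‖ ≤ 18 * R₁ ^ 3 * r ∧ h * U = dd U • (u * h)) ∧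
    ‖h - (dd (h * U))⁻¹ • (h * U)‖ ≤ 3 * R₁ * r ∧ 0 < dd U := by
  obtain ⟨hC, hE⟩ := hU
  change ‖U - dd U • (1 : M3)‖ ≤ r * dd U at hE
  have hdp : 0 < dd U := dd_pos hC.1
  have hdc : dd U ^ 3 = U.det := dd_cube hC.1
  have hdet : (h * U).det = U.det := by rw [Matrix.det_mul, hd, one_mul]
  set W : M3 := U - dd U • (1 : M3) with hW
  have hUW : U = dd U • (1 : M3) + W := by rw [hW]; abel
  set E : M3 := (dd U)⁻¹ • W with hEdef
  have hWE : W = dd U • E := by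
    rw [hEdef, smul_smul, mul_inv_cancel₀ hdp.ne', one_smul]
  have hEn : ‖E‖ ≤ r := by
    rw [hEdef, norm_smul, norm_inv, Real.norm_eq_abs, abs_of_pos hdp]
    rw [inv_mul_le_iff₀ hdp]
    linarith [mul_comm r (dd U)]
  have hhU : h * U = dd U • (h + h * E) := by
    have h0 : h * U = h * (dd U • (1 : M3) + dd U • E) := by rw [← hWE, ← hUW]
    rw [h0, mul_add, Matrix.mul_smul, Matrix.mul_smul, Matrix.mul_one, ← smul_add]
  have hhE : ‖h * E‖ ≤ 3 * R₁ * r := by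
    calc ‖h * E‖ ≤ 3 * ‖h‖ * ‖E‖ := norm_mul3 _ _
      _ ≤ 3 * R₁ * r := by gcongr
  have hRr : 0 ≤ 3 * R₁ * r := by positivity
  refine ⟨?_, ?_, ?_, ?_, hdp⟩
  · refine ⟨?_, ?_⟩
    · rw [hdet]; exact hC.1
    · rw [hdet]; exact hC.2
  · refine ⟨?_, ?_⟩
    · rw [hdet]; exact hC.1
    · rw [hdet, hhU, norm_smul, Real.norm_eq_abs, abs_of_pos hdp, mul_pow, hdc]
      have h1 : ‖h + h * E‖ ≤ 6 * R₁ := by
        calc ‖h + h * E‖ ≤ ‖h‖ + ‖h * E‖ := norm_add_le _ _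
          _ ≤ R₁ + 3 * R₁ * r := add_le_add hn hhE
          _ ≤ 6 * R₁ := by nlinarith
      have h2 : ‖h + h * E‖ ^ 3 ≤ (6 * R₁) ^ 3 := by gcongr
      have h3 : (6 * R₁) ^ 3 = 216 * R₁ ^ 3 := by ring
      rw [h3] at h2
      have h4 : (0 : ℝ) < U.det := hC.1
      nlinarith
  · refine ⟨1 + h * E * h.adjugate, ?_, ?_⟩
    · rw [add_sub_cancel_left]
      calc ‖h * E * h.adjugate‖ ≤ 3 * ‖h * E‖ * ‖h.adjugate‖ := norm_mul3 _ _
        _ ≤ 3 * (3 * R₁ * r) * (2 * R₁ ^ 2) := by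
            have h1 : ‖h.adjugate‖ ≤ 2 * R₁ ^ 2 := by
              refine (PFIN.adj_le h).trans ?_
              gcongr
            gcongr
        _ = 18 * R₁ ^ 3 * r := by ring
    · rw [hhU, add_mul, one_mul, Matrix.mul_assoc, adj_mul hd, Matrix.mul_one]
  · have h1 : dd (h * U) = dd U := by unfold dd; rw [hdet]
    rw [h1, hhU, smul_smul, inv_mul_cancel₀ hdp.ne', one_smul]
    have h2 : h - (h + h * E) = -(h * E) := by abel
    rw [h2, norm_neg]
    exact hhE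

/-- the type of all pairs -/
abbrev PT (m : ℕ) := {P : IM × IM // ∃ l, Eig P.1 P.2 l ∧ ∀ i, |l i| ≤ m}

noncomputable def spec {m : ℕ} (P : PT m) : Fin 3 → ℤ := P.2.choose

lemma spec_eig {m : ℕ} (P : PT m) : Eig P.1.1 P.1.2 (spec P) := P.2.choose_spec.1

lemma spec_le {m : ℕ} (P : PT m) (i : Fin 3) : |spec P i| ≤ m := P.2.choose_spec.2 i

/-- the cell of the spectrum -/
noncomputable def cell (K : ℕ) {m : ℕ} (P : PT m) : Fin 3 → ℤ :=
  fun i => ⌊(K : ℝ) * (spec P i : ℝ) / m⌋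

lemma cell_mem (K : ℕ) {m : ℕ} (hm : 2 ≤ m) (P : PT m) :
    cell K P ∈ Fintype.piFinset (fun _ : Fin 3 => Finset.Icc (-(K : ℤ)) K) := by
  rw [Fintype.mem_piFinset]
  intro i
  rw [Finset.mem_Icc]
  have hm' : (0 : ℝ) < m := by positivity
  have h1 : |(spec P i : ℝ)| ≤ m := by
    have := spec_le P i
    exact_mod_cast this
  have h2 := abs_le.1 h1
  have hK : (0 : ℝ) ≤ K := by positivity
  constructor
  · unfold cell
    rw [Int.le_floor, le_div_iff₀ hm']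
    push_cast
    nlinarith
  · unfold cell
    have h3 : (K : ℝ) * (spec P i : ℝ) / m ≤ K := by
      rw [div_le_iff₀ hm']
      nlinarith
    have h4 := (Int.floor_le ((K : ℝ) * (spec P i : ℝ) / m)).trans h3
    exact_mod_cast h4

/-- counting all the pairs having a position close to `g` -/
lemma count (hC5 : tC5) (R : ℝ) (hR : 1 ≤ R) : ∃ C r₀ : ℝ, 0 < C ∧ 0 < r₀ ∧
    ∀ r : ℝ, 0 < r → r < r₀ → ∃ C' : ℝ, 0 < C' ∧ ∀ m : ℕ, 2 ≤ m → ∀ g : M3, g.det = 1 → ‖g‖ ≤ R →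
    ∀ S : Finset (PT m), (∀ P ∈ S, ∃ y, ‖gmat P.1.2 y - g‖ ≤ r) →
    (S.card : ℝ) ≤ C * r ^ 6 * (m : ℝ) ^ 6 * Real.log m ^ 2 + C' * (m : ℝ) ^ 6 * Real.log m := by
  classical
  obtain ⟨C, r₀, hC, hr₀, h5⟩ := hC5 R hR
  refine ⟨125 * C, min r₀ 1, by positivity, by positivity, ?_⟩
  intro r hr hrr
  have hr1 : r < 1 := lt_of_lt_of_le hrr (min_le_right _ _)
  obtain ⟨C', hC', h6⟩ := h5 r hr (lt_of_lt_of_le hrr (min_le_left _ _))
  refine ⟨125 / r ^ 3 * C', by positivity, ?_⟩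
  intro m hm g hg hgn S hS
  have hm' : (0 : ℝ) < m := by positivity
  set K : ℕ := ⌈1 / r⌉₊ with hK
  have hK1 : 1 / r ≤ K := Nat.le_ceil _
  have hK2 : (K : ℝ) < 1 / r + 1 := Nat.ceil_lt_add_one (by positivity)
  have hKpos : (0 : ℝ) < K := lt_of_lt_of_le (by positivity) hK1
  have hrinv : 1 ≤ 1 / r := by rw [le_div_iff₀ hr]; linarith
  have hlog : 0 < Real.log m := Real.log_pos (by exact_mod_cast (by omega : 1 < m))
  set B : ℝ := C * r ^ 9 * (m : ℝ) ^ 6 * Real.log m ^ 2 + C' * (m : ℝ) ^ 6 * Real.log m with hB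
  have hBpos : 0 ≤ B := by positivity
  have hfib : ∀ k ∈ S.image (cell K), (S.filter (fun P => cell K P = k)).card ≤ ⌊B⌋₊ := by
    intro k hk
    rw [Nat.le_floor_iff hBpos]
    obtain ⟨P₀, hP₀, rfl⟩ := Finset.mem_image.1 hk
    set T := S.filter (fun P => cell K P = cell K P₀) with hT
    have h7 : (T.card : ℝ) = ((T.map ⟨Subtype.val, Subtype.val_injective⟩).card : ℝ) := by
      rw [Finset.card_map]
    rw [h7]
    refine h6 m hm g hg (fun i j => (entry_le_norm g i j).trans hgn)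
      (fun i => (cell K P₀ i : ℝ) / K) ?_ _ ?_
    · intro i
      have h8 := (Fintype.mem_piFinset.1 (cell_mem K hm P₀)) i
      rw [Finset.mem_Icc] at h8
      rw [abs_div, abs_of_pos hKpos, div_le_one hKpos, abs_le]
      exact ⟨by exact_mod_cast h8.1, by exact_mod_cast h8.2⟩
    · intro Q hQ
      rw [Finset.mem_map] at hQ
      obtain ⟨P, hP, rfl⟩ := hQ
      rw [hT, Finset.mem_filter] at hP
      refine ⟨⟨spec P, spec_eig P, fun i => ?_⟩, ?_⟩
      · have h9 : cell K P₀ i = ⌊(K : ℝ) * (spec P i : ℝ) / m⌋ := by rw [← hP.2]; rfl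
        have h10 := Int.floor_le ((K : ℝ) * (spec P i : ℝ) / m)
        have h11 := Int.lt_floor_add_one ((K : ℝ) * (spec P i : ℝ) / m)
        rw [← h9] at h10 h11
        set c : ℝ := (cell K P₀ i : ℝ) with hc
        rw [le_div_iff₀ hm'] at h10
        rw [div_lt_iff₀ hm'] at h11
        have h12 : (m : ℝ) / K ≤ r * m := by
          rw [div_le_iff₀ hKpos]
          rw [div_le_iff₀ hr] at hK1
          nlinarith
        have h13 : (spec P i : ℝ) - m * (c / K) = (K * (spec P i : ℝ) - c * m) / K := by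
          field_simp
        rw [h13, abs_div, abs_of_pos hKpos]
        refine le_trans ?_ h12
        gcongr
        rw [abs_le]
        constructor <;> nlinarith
      · obtain ⟨y, hy⟩ := hS P hP.1
        exact ⟨y, fun i j => by
          have := entry_le_norm (gmat P.1.2 y - g) i j
          exact this.trans hy⟩
  have h14 := Finset.card_le_mul_card_image (f := cell K) S ⌊B⌋₊ hfib
  have h15 : (S.image (cell K)).card ≤ (2 * K + 1) ^ 3 := by
    have h16 : S.image (cell K) ⊆ Fintype.piFinset (fun _ : Fin 3 => Finset.Icc (-(K : ℤ)) K) := by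
      intro k hk
      obtain ⟨P, hP, rfl⟩ := Finset.mem_image.1 hk
      exact cell_mem K hm P
    refine (Finset.card_le_card h16).trans ?_
    rw [Fintype.card_piFinset]
    simp only [Int.card_Icc, Finset.prod_const, Finset.card_univ, Fintype.card_fin]
    have : ((K : ℤ) + 1 - -(K : ℤ)).toNat = 2 * K + 1 := by omega
    rw [this]
  have h17 : (S.card : ℝ) ≤ (⌊B⌋₊ : ℝ) * (2 * K + 1) ^ 3 := by
    have h18 : S.card ≤ ⌊B⌋₊ * (2 * K + 1) ^ 3 := h14.trans (Nat.mul_le_mul_left _ h15)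
    exact_mod_cast h18
  have h19 : (2 * (K : ℝ) + 1) ^ 3 ≤ (5 / r) ^ 3 := by
    have h20 : 2 * (K : ℝ) + 1 ≤ 5 / r := by
      have : 5 / r = 5 * (1 / r) := by ring
      rw [this]; linarith
    gcongr
  have h21 : (⌊B⌋₊ : ℝ) ≤ B := Nat.floor_le hBpos
  calc (S.card : ℝ) ≤ (⌊B⌋₊ : ℝ) * (2 * K + 1) ^ 3 := h17
    _ ≤ B * (5 / r) ^ 3 := by gcongr
    _ = 125 * C * r ^ 6 * (m : ℝ) ^ 6 * Real.log m ^ 2 +
        125 / r ^ 3 * C' * (m : ℝ) ^ 6 * Real.log m := by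
        rw [hB]; field_simp; ring

lemma tsum_bound {ι : Type} (f : ι → ENNReal) (b : ENNReal) (N₀ : ℝ) (hf : ∀ i, f i ≤ b)
    (hN : ∀ S : Finset ι, (∀ i ∈ S, f i ≠ 0) → (S.card : ℝ) ≤ N₀) :
    ∑' i, f i ≤ ENNReal.ofReal N₀ * b := by
  classical
  rw [ENNReal.tsum_eq_iSup_sum]
  refine iSup_le fun s => ?_
  have h1 : ∑ i ∈ s, f i = ∑ i ∈ s.filter (fun i => f i ≠ 0), f i :=
    (Finset.sum_filter_ne_zero s).symm
  rw [h1]
  refine (Finset.sum_le_card_nsmul _ _ b fun i _ => hf i).trans ?_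
  rw [nsmul_eq_mul]
  have h2 := hN (s.filter (fun i => f i ≠ 0)) fun i hi => (Finset.mem_filter.1 hi).2
  gcongr
  rw [← ENNReal.ofReal_natCast]
  exact ENNReal.ofReal_le_ofReal h2

/-- positions -/
def Yset (V : IM) (R₁ r : ℝ) (N : M3) : Set (ℝ × ℝ) :=
  {y | ‖gmat V y‖ ≤ R₁ ∧ (gmat V y).adjugate * N ∈ Ur r}

/-- pairs of a position and a matrix -/
def Zset (V : IM) (R₁ r : ℝ) : Set ((ℝ × ℝ) × M3) :=
  {p | ‖gmat V p.1‖ ≤ R₁ ∧ (gmat V p.1).adjugate * p.2 ∈ Ur r}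

lemma meas_Zset (V : IM) (R₁ r : ℝ) : MeasurableSet (Zset V R₁ r) := by
  have h1 : Continuous (fun p : (ℝ × ℝ) × M3 => ‖gmat V p.1‖) :=
    cont_norm'.comp ((cont_gmat V).comp continuous_fst)
  have h2 : Continuous (fun p : (ℝ × ℝ) × M3 => (gmat V p.1).adjugate * p.2) := by
    refine Continuous.matrix_mul ?_ continuous_snd
    exact Continuous.matrix_adjugate ((cont_gmat V).comp continuous_fst)
  exact (isClosed_le h1 continuous_const).measurableSet.inter (h2.measurable (meas_Ur r))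

/-- the weight -/
noncomputable def G (R' e : ℝ) (ψ : M3 → ℝ) : M3 → ENNReal :=
  (Co ∩ KK R').indicator fun N => ENNReal.ofReal (ψ N + e)

lemma meas_G {R R' e : ℝ} {ψ : M3 → ℝ} (h : CSF R ψ) : Measurable (G R' e ψ) := by
  refine Measurable.indicator ?_ (measurableSet_Co.inter (meas_KK R'))
  exact ((meas_psi h).add_const e).ennreal_ofReal

/-- averaging over the neighbourhood -/
lemma avg {R r e δ : ℝ} {ψ : M3 → ℝ} (hL : T_LMUL) (hψ : CSF R ψ) (hr : 0 < r) (hr1 : r ≤ 1)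
    (hu : ∀ u : M3, ‖u - 1‖ < δ → ∀ M ∈ Om, |ψ (u * M) - ψ M| ≤ e)
    (hrd : 18 * (max R 1) ^ 3 * r < δ) {h : M3} (hd : h.det = 1) :
    volume (Ur r) * ENNReal.ofReal (ψ h) ≤
      ∫⁻ N, ({N : M3 | ‖h‖ ≤ max R 1 ∧ h.adjugate * N ∈ Ur r}.indicator
        (G (216 * (max R 1) ^ 3) e ψ)) N := by
  by_cases h0 : ψ h = 0
  · rw [h0]; simp
  set R₁ := max R 1 with hR₁
  have hR1 : 1 ≤ R₁ := le_max_right _ _
  have hh3 : ‖h‖ ^ 3 ≤ R := by
    have := (hψ.supp h h0).2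
    rwa [hd, mul_one] at this
  have hn : ‖h‖ ≤ R₁ := by
    by_contra hc
    rw [not_le, hR₁, max_lt_iff] at hc
    have h9 : ‖h‖ ≤ ‖h‖ ^ 3 := le_self_pow₀ hc.2.le (by norm_num)
    linarith
  have hOm : h ∈ Om := by show 0 < h.det; rw [hd]; exact one_pos
  have hadj : (h.adjugate).det = 1 := by
    rw [Matrix.det_adjugate, hd, one_pow]
  have hmp := mp_lmul hL hadj
  set Φ : M3 → ENNReal := (Ur r).indicator (fun U => G (216 * R₁ ^ 3) e ψ (h * U)) with hΦ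
  have hΦm : Measurable Φ :=
    ((meas_G hψ).comp (measurable_lmul h)).indicator (meas_Ur r)
  have h1 : ∫⁻ N, Φ (h.adjugate * N) = ∫⁻ U, Φ U := hmp.lintegral_comp hΦm
  have h2 : ∀ N, ({N : M3 | ‖h‖ ≤ R₁ ∧ h.adjugate * N ∈ Ur r}.indicator
        (G (216 * R₁ ^ 3) e ψ)) N = Φ (h.adjugate * N) := by
    intro N
    by_cases hN : h.adjugate * N ∈ Ur r
    · have hN' : N ∈ {N : M3 | ‖h‖ ≤ R₁ ∧ h.adjugate * N ∈ Ur r} := ⟨hn, hN⟩
      rw [indicator_of_mem hN', hΦ, indicator_of_mem hN, ← Matrix.mul_assoc, mul_adj hd,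
        Matrix.one_mul]
    · have hN' : N ∉ {N : M3 | ‖h‖ ≤ R₁ ∧ h.adjugate * N ∈ Ur r} := fun hh => hN hh.2
      rw [indicator_of_notMem hN', hΦ, indicator_of_notMem hN]
  rw [lintegral_congr h2, h1]
  have h3 : volume (Ur r) * ENNReal.ofReal (ψ h) =
      ∫⁻ U, (Ur r).indicator (fun _ => ENNReal.ofReal (ψ h)) U := by
    rw [lintegral_indicator (meas_Ur r), setLIntegral_const, mul_comm]
  rw [h3]
  refine lintegral_mono fun U => ?_
  by_cases hU : U ∈ Ur r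
  · rw [indicator_of_mem hU, hΦ, indicator_of_mem hU]
    obtain ⟨g1, g2, ⟨u, hu1, hu2⟩, -, g5⟩ := local_geo hR1 hr hr1 hd hn hU
    have hm : h * U ∈ Co ∩ KK (216 * R₁ ^ 3) := ⟨g1, g2⟩
    unfold G
    rw [indicator_of_mem hm]
    apply ENNReal.ofReal_le_ofReal
    have h4 : ψ (h * U) = ψ (u * h) := by rw [hu2, hψ.scale _ g5]
    rw [h4]
    have h5 := hu u (lt_of_le_of_lt hu1 hrd) h hOm
    have := (abs_le.1 h5).1
    linarith
  · rw [indicator_of_notMem hU, hΦ, indicator_of_notMem hU]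

/-- exchange of the integrals -/
lemma swap {R r e δ : ℝ} {ψ : M3 → ℝ} (hL : T_LMUL) (hG : tGM) (hψ : CSF R ψ) (hr : 0 < r)
    (hr1 : r ≤ 1)
    (hu : ∀ u : M3, ‖u - 1‖ < δ → ∀ M ∈ Om, |ψ (u * M) - ψ M| ≤ e)
    (hrd : 18 * (max R 1) ^ 3 * r < δ) (V : IM) (hV : 0 < V.det) :
    volume (Ur r) * ∫⁻ y : ℝ × ℝ, ENNReal.ofReal (ψ (gmat V y)) ≤
      ∫⁻ N, G (216 * (max R 1) ^ 3) e ψ N * volume (Yset V (max R 1) r N) := by
  set R₁ := max R 1 with hR₁
  have h1 : volume (Ur r) * ∫⁻ y : ℝ × ℝ, ENNReal.ofReal (ψ (gmat V y)) =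
      ∫⁻ y : ℝ × ℝ, volume (Ur r) * ENNReal.ofReal (ψ (gmat V y)) := by
    rw [lintegral_const_mul]
    exact ((meas_psi hψ).comp (cont_gmat V).measurable).ennreal_ofReal
  rw [h1]
  set Ψ : (ℝ × ℝ) → M3 → ENNReal := fun y N =>
    (Zset V R₁ r).indicator (fun p => G (216 * R₁ ^ 3) e ψ p.2) (y, N) with hΨ
  have h2 : ∀ y, volume (Ur r) * ENNReal.ofReal (ψ (gmat V y)) ≤ ∫⁻ N, Ψ y N := by
    intro y
    exact avg hL hψ hr hr1 hu hrd ((hG V hV y).1)
  refine (lintegral_mono h2).trans ?_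
  have h3 : Measurable (Function.uncurry Ψ) := by
    have : Function.uncurry Ψ = (Zset V R₁ r).indicator (fun p => G (216 * R₁ ^ 3) e ψ p.2) := by
      funext p; rfl
    rw [this]
    exact ((meas_G hψ).comp measurable_snd).indicator (meas_Zset V R₁ r)
  rw [lintegral_lintegral_swap h3.aemeasurable]
  refine le_of_eq (lintegral_congr fun N => ?_)
  have h4 : ∀ y, Ψ y N = (Yset V R₁ r N).indicator (fun _ => G (216 * R₁ ^ 3) e ψ N) y := by
    intro y
    rfl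
  have h5 : MeasurableSet (Yset V R₁ r N) := by
    have : Yset V R₁ r N = (fun y => (y, N)) ⁻¹' (Zset V R₁ r) := rfl
    rw [this]
    exact (measurable_id.prodMk measurable_const) (meas_Zset V R₁ r)
  rw [lintegral_congr h4, lintegral_indicator h5, setLIntegral_const]

/-- normalisation -/
lemma norm_dd {R' : ℝ} (hR' : 1 ≤ R') {N : M3} (h : N ∈ KK R') :
    ((dd N)⁻¹ • N).det = 1 ∧ ‖(dd N)⁻¹ • N‖ ≤ R' := by
  have hd : 0 < N.det := h.1
  have hp : 0 < dd N := dd_pos hd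
  have hc : dd N ^ 3 = N.det := dd_cube hd
  refine ⟨?_, ?_⟩
  · rw [det_smul3, inv_pow, hc, inv_mul_cancel₀ hd.ne']
  · have h1 : ‖(dd N)⁻¹ • N‖ ^ 3 ≤ R' := by
      rw [norm_smul, norm_inv, Real.norm_eq_abs, abs_of_pos hp, mul_pow, inv_pow, hc,
        inv_mul_le_iff₀ hd, mul_comm]
      exact h.2
    by_contra hcon
    rw [not_le] at hcon
    have h2 : 1 < ‖(dd N)⁻¹ • N‖ := lt_of_le_of_lt hR' hcon
    have h9 : ‖(dd N)⁻¹ • N‖ ≤ ‖(dd N)⁻¹ • N‖ ^ 3 := le_self_pow₀ h2.le (by norm_num)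
    linarith

/-- positions are close to the normalisation -/
lemma Yset_sub {V : IM} (hG : tGM) (hV : 0 < V.det) {R₁ r : ℝ} (hR₁ : 1 ≤ R₁) (hr : 0 < r)
    (hr1 : r ≤ 1) (N : M3) :
    Yset V R₁ r N ⊆ {y | ‖gmat V y - (dd N)⁻¹ • N‖ ≤ 3 * R₁ * r} := by
  rintro y ⟨h1, h2⟩
  have hd := (hG V hV y).1
  obtain ⟨-, -, -, g4, -⟩ := local_geo hR₁ hr hr1 hd h1 h2
  have h3 : gmat V y * ((gmat V y).adjugate * N) = N := by
    rw [← Matrix.mul_assoc, mul_adj hd, Matrix.one_mul]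
  rw [h3] at g4
  exact g4

end SAIL.A.DBx

namespace SAIL.A

open DBx

theorem p_DB (hCSF : T_CSF) (hL : T_LMUL) (hG : tGM) (hC5 : tC5) (hE1 : tE1) (hE2 : tE2) :
    tDB := by
  intro R
  set R₁ : ℝ := max R 1 with hR₁
  have hR1 : 1 ≤ R₁ := le_max_right _ _
  set R' : ℝ := 216 * R₁ ^ 3 with hR'
  have hR'1 : 1 ≤ R' := by
    have : 1 ≤ R₁ ^ 3 := one_le_pow₀ hR1
    rw [hR']; linarith
  obtain ⟨C₁, r₁, hC₁, hr₁, hcount⟩ := count hC5 R' hR'1
  obtain ⟨C₂, r₂, hC₂, hr₂, harea⟩ := hE2 R' hR'1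
  obtain ⟨c, hc, hvol⟩ := hE1
  refine ⟨C₂ * C₁ * (3 * R₁) ^ 8 / c, by positivity, ?_⟩
  set C : ℝ := C₂ * C₁ * (3 * R₁) ^ 8 / c with hC
  have hCpos : 0 < C := by positivity
  intro ψ hψ hψ0 ε hε
  obtain ⟨⟨B, hB⟩, hunif⟩ := hCSF R ψ hψ
  set v : ℝ := (volume (Co ∩ KK R')).toReal with hv
  have hvfin : volume (Co ∩ KK R') < ⊤ := by
    refine (measure_mono (t := INT_.Bx (max R' 1)) ?_).trans_lt
      (INT_.volume_Bx (zero_le_one.trans (le_max_right _ _)))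
    intro M hM
    exact INT_.mem_Bx_of_norm (INT_.bounded hM.1 hM.2)
  have hv0 : 0 ≤ v := ENNReal.toReal_nonneg
  set e : ℝ := ε / (C * (v + 1)) with he
  have hepos : 0 < e := by positivity
  obtain ⟨δ, hδ, hu⟩ := hunif e hepos
  -- the radius
  obtain ⟨r, hr, hr1, hrδ, hrr₁, hrr₂⟩ : ∃ r : ℝ, 0 < r ∧ r ≤ 1 ∧ 18 * R₁ ^ 3 * r < δ ∧
      3 * R₁ * r < r₁ ∧ 3 * R₁ * r < r₂ := by
    have hR1pos : 0 < R₁ := by linarith
    refine ⟨min 1 (min (δ / (18 * R₁ ^ 3) / 2) (min (r₁ / (3 * R₁) / 2) (r₂ / (3 * R₁) / 2))),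
      by positivity, min_le_left _ _, ?_, ?_, ?_⟩
    · have h1 : min 1 (min (δ / (18 * R₁ ^ 3) / 2) (min (r₁ / (3 * R₁) / 2)
          (r₂ / (3 * R₁) / 2))) ≤ δ / (18 * R₁ ^ 3) / 2 :=
        (min_le_right _ _).trans (min_le_left _ _)
      have h2 : 18 * R₁ ^ 3 * (δ / (18 * R₁ ^ 3) / 2) = δ / 2 := by field_simp
      have h3 : (0 : ℝ) < 18 * R₁ ^ 3 := by positivity
      nlinarith [mul_le_mul_of_nonneg_left h1 h3.le]
    · have h1 : min 1 (min (δ / (18 * R₁ ^ 3) / 2) (min (r₁ / (3 * R₁) / 2)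
          (r₂ / (3 * R₁) / 2))) ≤ r₁ / (3 * R₁) / 2 :=
        (min_le_right _ _).trans ((min_le_right _ _).trans (min_le_left _ _))
      have h2 : 3 * R₁ * (r₁ / (3 * R₁) / 2) = r₁ / 2 := by field_simp
      have h3 : (0 : ℝ) < 3 * R₁ := by positivity
      nlinarith [mul_le_mul_of_nonneg_left h1 h3.le]
    · have h1 : min 1 (min (δ / (18 * R₁ ^ 3) / 2) (min (r₁ / (3 * R₁) / 2)
          (r₂ / (3 * R₁) / 2))) ≤ r₂ / (3 * R₁) / 2 :=
        (min_le_right _ _).trans ((min_le_right _ _).trans (min_le_right _ _))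
      have h2 : 3 * R₁ * (r₂ / (3 * R₁) / 2) = r₂ / 2 := by field_simp
      have h3 : (0 : ℝ) < 3 * R₁ := by positivity
      nlinarith [mul_le_mul_of_nonneg_left h1 h3.le]
  set ρ : ℝ := 3 * R₁ * r with hρ
  have hρpos : 0 < ρ := by positivity
  obtain ⟨C₃, hC₃, hcnt⟩ := hcount ρ hρpos hrr₁
  set I : ℝ := ∫ M in Co, ψ M with hI
  have hI0 : 0 ≤ I := integral_nonneg hψ0
  refine ⟨C₂ * ρ ^ 2 * C₃ / (c * r ^ 8) * (I + e * v) + 1, by positivity, ?_⟩
  intro m hm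
  have hm' : (0 : ℝ) < m := by positivity
  have hlog : 0 < Real.log m := Real.log_pos (by exact_mod_cast (by omega : 1 < m))
  set T : ℝ := C₁ * ρ ^ 6 * (m : ℝ) ^ 6 * Real.log m ^ 2 + C₃ * (m : ℝ) ^ 6 * Real.log m with hT
  have hTpos : 0 < T := by positivity
  set LHS : ENNReal := ∑' P : {P : IM × IM // ∃ l, Eig P.1 P.2 l ∧ ∀ i, |l i| ≤ m},
      ∫⁻ y : ℝ × ℝ, ENNReal.ofReal (ψ (gmat P.1.2 y)) with hLHS
  -- pointwise bound of the total area
  have hpt : ∀ N ∈ Co ∩ KK R', ∑' P : PT m, volume (Yset P.1.2 R₁ r N) ≤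
      ENNReal.ofReal T * ENNReal.ofReal (C₂ * ρ ^ 2) := by
    intro N hN
    obtain ⟨hg1, hg2⟩ := norm_dd hR'1 hN.2
    have hVpos : ∀ P : PT m, 0 < P.1.2.det := fun P => (spec_eig P).2.2.2.2
    refine tsum_bound _ _ _ (fun P => ?_) (fun S hS => ?_)
    · exact (measure_mono (Yset_sub hG (hVpos P) hR1 hr hr1 N)).trans
        (harea ρ hρpos hrr₂ P.1.2 _ (hVpos P) hg1 hg2)
    · refine hcnt m hm _ hg1 hg2 S fun P hP => ?_
      have h1 : (Yset P.1.2 R₁ r N).Nonempty := by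
        rw [nonempty_iff_ne_empty]
        intro h0
        exact hS P hP (by rw [h0]; exact measure_empty)
      obtain ⟨y, hy⟩ := h1
      exact ⟨y, Yset_sub hG (hVpos P) hR1 hr hr1 N hy⟩
  -- integral of the weight
  have hGint : ∫⁻ N, G R' e ψ N ≤ ENNReal.ofReal (I + e * v) := by
    unfold G
    rw [lintegral_indicator (measurableSet_Co.inter (meas_KK R'))]
    have h1 : ∀ N, ENNReal.ofReal (ψ N + e) = ENNReal.ofReal (ψ N) + ENNReal.ofReal e :=
      fun N => ENNReal.ofReal_add (hψ0 N) hepos.le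
    simp_rw [h1]
    rw [lintegral_add_right _ measurable_const, setLIntegral_const,
      ENNReal.ofReal_add hI0 (by positivity)]
    refine add_le_add ?_ ?_
    · have h2 : IntegrableOn ψ Co := INT_.integrableOn_bdd hψ.cont hψ.supp hB
      rw [hI, ofReal_integral_eq_lintegral_ofReal h2 (Eventually.of_forall hψ0)]
      exact lintegral_mono_set inter_subset_left
    · rw [ENNReal.ofReal_mul hepos.le, hv, ENNReal.ofReal_toReal hvfin.ne]
  -- the main inequality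
  have hmain : volume (Ur r) * LHS ≤
      ENNReal.ofReal (T * (C₂ * ρ ^ 2)) * ENNReal.ofReal (I + e * v) := by
    rw [hLHS, ← ENNReal.tsum_mul_left]
    have h1 : ∀ P : PT m, volume (Ur r) * ∫⁻ y : ℝ × ℝ, ENNReal.ofReal (ψ (gmat P.1.2 y)) ≤
        ∫⁻ N, G R' e ψ N * volume (Yset P.1.2 R₁ r N) := fun P =>
      swap hL hG hψ hr hr1 hu hrδ P.1.2 (spec_eig P).2.2.2.2
    refine (ENNReal.tsum_le_tsum h1).trans ?_
    have h2 : ∀ P : PT m, AEMeasurable (fun N => G R' e ψ N * volume (Yset P.1.2 R₁ r N))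
        volume := by
      intro P
      refine ((meas_G hψ).mul ?_).aemeasurable
      exact measurable_measure_prodMk_right (meas_Zset P.1.2 R₁ r)
    rw [← lintegral_tsum h2]
    have h3 : ∀ N, ∑' P : PT m, G R' e ψ N * volume (Yset P.1.2 R₁ r N) ≤
        ENNReal.ofReal (T * (C₂ * ρ ^ 2)) * G R' e ψ N := by
      intro N
      rw [ENNReal.tsum_mul_left, mul_comm]
      by_cases hN : N ∈ Co ∩ KK R'
      · rw [ENNReal.ofReal_mul hTpos.le]
        gcongr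
        exact hpt N hN
      · unfold G
        rw [indicator_of_notMem hN]
        simp
    refine (lintegral_mono h3).trans ?_
    rw [lintegral_const_mul _ (meas_G hψ)]
    gcongr
  have hU : ENNReal.ofReal (c * r ^ 8) ≤ volume (Ur r) := hvol r hr hr1
  have hcr : 0 < c * r ^ 8 := by positivity
  have h4 : ENNReal.ofReal (c * r ^ 8) * LHS ≤
      ENNReal.ofReal (T * (C₂ * ρ ^ 2) * (I + e * v)) := by
    rw [ENNReal.ofReal_mul (p := T * (C₂ * ρ ^ 2)) (by positivity)]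
    refine le_trans ?_ hmain
    gcongr
  have h5 : LHS ≤ ENNReal.ofReal (T * (C₂ * ρ ^ 2) * (I + e * v) / (c * r ^ 8)) := by
    rw [ENNReal.ofReal_div_of_pos hcr, ENNReal.le_div_iff_mul_le
      (Or.inl (by rw [Ne, ENNReal.ofReal_eq_zero, not_le]; exact hcr))
      (Or.inl ENNReal.ofReal_ne_top), mul_comm]
    exact h4
  refine h5.trans (ENNReal.ofReal_le_ofReal ?_)
  have h6 : T * (C₂ * ρ ^ 2) * (I + e * v) / (c * r ^ 8) =
      C * (I + e * v) * ((m : ℝ) ^ 6 * Real.log m ^ 2) +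
      C₂ * ρ ^ 2 * C₃ / (c * r ^ 8) * (I + e * v) * ((m : ℝ) ^ 6 * Real.log m) := by
    rw [hT, hC, hρ]
    field_simp
  rw [h6]
  have h7 : C * (e * v) ≤ ε := by
    rw [he]
    have : C * (ε / (C * (v + 1)) * v) = ε * (v / (v + 1)) := by field_simp
    rw [this]
    have h8 : v / (v + 1) ≤ 1 := by rw [div_le_one (by linarith)]; linarith
    nlinarith
  have h9 : 0 ≤ (m : ℝ) ^ 6 * Real.log m ^ 2 := by positivity
  have h10 : 0 ≤ (m : ℝ) ^ 6 * Real.log m := by positivity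
  have h11 : C * (I + e * v) * ((m : ℝ) ^ 6 * Real.log m ^ 2) ≤
      (C * I + ε) * ((m : ℝ) ^ 6 * Real.log m ^ 2) := by
    gcongr
    linarith
  linarith

end SAIL.A
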