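import Pool.Agent.SAIL.ARI.Targets

/-!
SAIL / ARI: target DOM (domination), from DA and DB.
-/

namespace SAIL.A

open Matrix MeasureTheory Filter SAIL

namespace domx

/-- The numerical inequality behind DOM. -/
lemma num {C1 C2 C' ε I M L : ℝ} (hC1 : 0 < C1) (hM : 0 ≤ M) (hL : 0 ≤ L)
    (h : C1 * C' ≤ ε / 2 * L) :
    C1 * L ^ 2 * ((C2 * I + ε / (2 * C1)) * M * L ^ 2 + C' * M * L) ≤
      (C1 * C2 * I + ε) * M * L ^ 4 := by
  have h1 : C1 * L ^ 2 * ((C2 * I + ε / (2 * C1)) * M * L ^ 2 + C' * M * L) =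
      (C1 * C2 * I + ε / 2) * M * L ^ 4 + (C1 * C') * (M * L ^ 3) := by
    field_simp
  have h2 : (C1 * C') * (M * L ^ 3) ≤ (ε / 2 * L) * (M * L ^ 3) :=
    mul_le_mul_of_nonneg_right h (by positivity)
  rw [h1]
  calc (C1 * C2 * I + ε / 2) * M * L ^ 4 + (C1 * C') * (M * L ^ 3)
      ≤ (C1 * C2 * I + ε / 2) * M * L ^ 4 + (ε / 2 * L) * (M * L ^ 3) := by linarith
    _ = (C1 * C2 * I + ε) * M * L ^ 4 := by ring

end domx

open Classical in
/-- DOM, from DA and DB. -/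
theorem p_DOM (h1 : tDA) (h2 : tDB) : tDOM := by
  intro e R he
  obtain ⟨C1, hC1, H1⟩ := h1 e R he
  obtain ⟨C2, hC2, H2⟩ := h2 R
  refine ⟨C1 * C2, by positivity, ?_⟩
  intro ψ hψ hψ0 ε hε
  obtain ⟨C', hC', H3⟩ := H2 ψ hψ hψ0 (ε / (2 * C1)) (by positivity)
  refine ⟨max 2 (Real.exp (2 * (C1 * C') / ε)), ?_⟩
  intro m hm
  have hm2 : (2 : ℝ) ≤ m := le_trans (le_max_left _ _) hm
  have hm2' : 2 ≤ m := by exact_mod_cast hm2
  have hmpos : (0 : ℝ) < m := by linarith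
  have hme : Real.exp (2 * (C1 * C') / ε) ≤ m := le_trans (le_max_right _ _) hm
  have hlog : 2 * (C1 * C') / ε ≤ Real.log m := by
    have := Real.log_le_log (Real.exp_pos _) hme
    rwa [Real.log_exp] at this
  have hL : 0 ≤ Real.log m := le_trans (by positivity) hlog
  have hkey : C1 * C' ≤ ε / 2 * Real.log m := by
    have : 2 * (C1 * C') ≤ Real.log m * ε := (div_le_iff₀ hε).1 hlog
    linarith
  refine (H1 ψ hψ hψ0 m hm2').trans ?_
  refine (mul_le_mul_right (H3 m hm2') _).trans ?_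
  rw [← ENNReal.ofReal_mul (by positivity)]
  apply ENNReal.ofReal_le_ofReal
  exact domx.num hC1 (by positivity) hL hkey

end SAIL.A
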