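import Pool.Agent.SAIL.ARI.Targets

/-!
SAIL / ARI: duality of eigenbases (job SAILD-DUAL).
-/

set_option autoImplicit false

namespace SAIL.A

open Matrix SAIL

namespace dualx

theorem gcd_prim (v : Fin 3 → ℤ) (h : prim v) : Finset.univ.gcd v = 1 := by
  rw [← Finset.normalize_gcd, normalize_eq_one]
  exact h _ fun i => Finset.gcd_dvd (Finset.mem_univ i)

theorem dvd_of_prim (v : Fin 3 → ℤ) (h : prim v) (g t : ℤ) (hd : ∀ i, g ∣ t * v i) : g ∣ t := by
  have h1 : g ∣ Finset.univ.gcd fun i => t * v i := Finset.dvd_gcd fun i _ => hd i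
  rw [Finset.gcd_mul_left, gcd_prim v h, mul_one] at h1
  exact dvd_normalize_iff.1 h1

theorem eq_of_smul_eq (u v : Fin 3 → ℤ) (hu : prim u) (hv : prim v) (a b : ℤ) (ha : 0 < a)
    (hb : 0 < b) (h : ∀ i, a * u i = b * v i) : u = v := by
  have h1 : a ∣ b := dvd_of_prim v hv a b fun i => ⟨u i, (h i).symm⟩
  have h2 : b ∣ a := dvd_of_prim u hu b a fun i => ⟨v i, h i⟩
  have h3 : a = b := by
    have := Int.le_of_dvd hb h1
    have := Int.le_of_dvd ha h2
    omega
  subst h3
  funext i
  exact mul_left_cancel₀ ha.ne' (h i)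

theorem adj_mul_comm (A V : IM) (l : Fin 3 → ℤ) (h : A * V = V * Matrix.diagonal l)
    (hd : 0 < V.det) : V.adjugate * A = Matrix.diagonal l * V.adjugate := by
  have h1 : V.det • (V.adjugate * A) = V.det • (Matrix.diagonal l * V.adjugate) := by
    calc V.det • (V.adjugate * A) = V.adjugate * A * (V * V.adjugate) := by
          rw [Matrix.mul_adjugate, Matrix.mul_smul, Matrix.mul_one]
      _ = V.adjugate * (A * V) * V.adjugate := by simp only [Matrix.mul_assoc]
      _ = V.adjugate * V * Matrix.diagonal l * V.adjugate := by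
          rw [h]; simp only [Matrix.mul_assoc]
      _ = V.det • (Matrix.diagonal l * V.adjugate) := by
          rw [Matrix.adjugate_mul, Matrix.smul_mul, Matrix.one_mul, Matrix.smul_mul]
  ext i j
  have h2 := congrFun (congrFun h1 i) j
  simp only [Matrix.smul_apply, smul_eq_mul] at h2
  exact mul_left_cancel₀ hd.ne' h2

end dualx

theorem p_DUAL (hADJ : tADJ) : tDUAL := by
  rintro A V l ⟨hAV, hl1, hl2, hp, hd⟩
  obtain ⟨hcn, hvp, hadj, -, -, -, -, hcr⟩ := hADJ V hd hp
  have hcn' : ∀ i, (0 : ℤ) < cn V i := fun i => Int.natCast_pos.2 (hcn i)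
  have hcomm := dualx.adj_mul_comm A V l hAV hd
  have hrow : ∀ i, vst V i ᵥ* A = l i • vst V i := by
    intro i
    funext j
    have h1 := congrFun (congrFun hcomm i) j
    rw [Matrix.mul_apply, Matrix.diagonal_mul, hadj] at h1
    have h2 : ∑ r, V.adjugate i r * A r j = (cn V i : ℤ) * (vst V i ᵥ* A) j := by
      rw [Matrix.vecMul, dotProduct, Finset.mul_sum]
      refine Finset.sum_congr rfl fun r _ => ?_
      rw [hadj, mul_assoc]
    rw [h2] at h1
    have h3 : (cn V i : ℤ) * (vst V i ᵥ* A) j = (cn V i : ℤ) * (l i * vst V i j) := by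
      rw [h1]; ring
    have h4 := mul_left_cancel₀ (hcn' i).ne' h3
    rw [h4]
    simp
  have hcol : ∀ i, A *ᵥ vcol V i = l i • vcol V i := by
    intro i
    funext r
    have h1 := congrFun (congrFun hAV r) i
    rw [Matrix.mul_apply, Matrix.mul_diagonal] at h1
    rw [Matrix.mulVec, dotProduct]
    simp only [vcol, Pi.smul_apply, smul_eq_mul]
    rw [h1, mul_comm]
  have hvc : ∀ i, vcol (Vd V) i = vst V i := fun i => rfl
  have hWd : 0 < (Vd V).det := by
    have h1 : V.adjugate = Matrix.diagonal (fun i => (cn V i : ℤ)) * (Vd V)ᵀ := by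
      ext i j
      rw [Matrix.diagonal_mul, hadj]
      rfl
    have h2 : V.adjugate.det = V.det ^ (Fintype.card (Fin 3) - 1) := Matrix.det_adjugate V
    rw [h1, Matrix.det_mul, Matrix.det_diagonal, Matrix.det_transpose] at h2
    have h3 : 0 < ∏ i, (cn V i : ℤ) := Finset.prod_pos fun i _ => hcn' i
    have h4 : 0 < V.det ^ (Fintype.card (Fin 3) - 1) := pow_pos hd _
    rw [← h2] at h4
    exact (mul_pos_iff_of_pos_left h3).1 h4
  have hWp : ∀ i, prim (vcol (Vd V) i) := fun i => hvp i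
  obtain ⟨hcnW, hvpW, -, -, -, -, hcrW, -⟩ := hADJ (Vd V) hWd hWp
  have hdual : ∀ i, vst (Vd V) i = vcol V i := by
    intro i
    have h1 := hcr i
    rw [← hvc (i + 1), ← hvc (i + 2), hcrW i] at h1
    refine dualx.eq_of_smul_eq (vst (Vd V) i) (vcol V i) (hvpW i) (hp i)
      ((cn V (i + 1) : ℤ) * cn V (i + 2) * cn (Vd V) i) V.det ?_ hd ?_
    · exact mul_pos (mul_pos (hcn' _) (hcn' _)) (Int.natCast_pos.2 (hcnW i))
    · intro j
      have h2 := congrFun h1 j
      simp only [Pi.smul_apply, smul_eq_mul] at h2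
      rw [← h2]
      ring
  refine ⟨⟨?_, hl1, hl2, hWp, hWd⟩, hvc, hdual, ?_, hrow, hcol⟩
  · ext r i
    rw [Matrix.mul_diagonal]
    have h1 := congrFun (hrow i) r
    simp only [Pi.smul_apply, smul_eq_mul] at h1
    rw [Matrix.vecMul, dotProduct] at h1
    rw [Matrix.mul_apply]
    have h2 : ∑ j, Aᵀ r j * Vd V j i = ∑ j, vst V i j * A j r := by
      refine Finset.sum_congr rfl fun j _ => ?_
      rw [Matrix.transpose_apply, mul_comm]
      rfl
    rw [h2, h1, mul_comm]
    rfl
  · unfold nrm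
    rw [Finset.sum_comm]
    rfl

end SAIL.A
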