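import Pool.Agent.SAIL.ARI.Targets

/-!
SAIL / ARI: divisibility of the contents by the gaps of the eigenvalues.
-/

namespace SAIL.A

open Matrix SAIL

namespace DVDx

theorem bez (v : Fin 3 → ℤ) (h : prim v) : ∃ u : Fin 3 → ℤ, u ⬝ᵥ v = 1 := by
  have hg1 := Int.gcd_eq_gcd_ab (v 0) (v 1)
  have hg := Int.gcd_eq_gcd_ab (Int.gcd (v 0) (v 1) : ℤ) (v 2)
  have d1 : (Int.gcd (Int.gcd (v 0) (v 1) : ℤ) (v 2) : ℤ) ∣ (Int.gcd (v 0) (v 1) : ℤ) :=
    Int.gcd_dvd_left _ _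
  have hu := h (Int.gcd (Int.gcd (v 0) (v 1) : ℤ) (v 2) : ℤ) (by
    intro i
    fin_cases i
    · exact d1.trans (Int.gcd_dvd_left _ _)
    · exact d1.trans (Int.gcd_dvd_right _ _)
    · exact Int.gcd_dvd_right _ _)
  rw [hg1] at hg
  rcases Int.isUnit_iff.1 hu with h1 | h1
  · refine ⟨![Int.gcdA (v 0) (v 1) * Int.gcdA (Int.gcd (v 0) (v 1) : ℤ) (v 2),
      Int.gcdB (v 0) (v 1) * Int.gcdA (Int.gcd (v 0) (v 1) : ℤ) (v 2),
      Int.gcdB (Int.gcd (v 0) (v 1) : ℤ) (v 2)], ?_⟩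
    rw [hg1] at h1 ⊢
    rw [h1] at hg
    rw [dotProduct, Fin.sum_univ_three]
    simp only [Matrix.cons_val_zero, Matrix.cons_val_one, Matrix.cons_val]
    linarith
  · exfalso
    have : (0 : ℤ) ≤ (Int.gcd (Int.gcd (v 0) (v 1) : ℤ) (v 2) : ℤ) := Int.natCast_nonneg _
    omega

/-- a common divisor of all `x v_i` divides `x` -/
theorem cancel (v : Fin 3 → ℤ) (h : prim v) (g x : ℤ) (hg : ∀ i, g ∣ x * v i) : g ∣ x := by
  obtain ⟨u, hu⟩ := bez v h
  rw [dotProduct, Fin.sum_univ_three] at hu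
  have h1 : x = x * v 0 * u 0 + x * v 1 * u 1 + x * v 2 * u 2 := by
    linear_combination (-x) * hu
  rw [h1]
  exact dvd_add (dvd_add (Dvd.dvd.mul_right (hg 0) _) (Dvd.dvd.mul_right (hg 1) _))
    (Dvd.dvd.mul_right (hg 2) _)

/-- if the cross product is `g x`, then `b - (u.b) a` is a multiple of `g` when `u.a = 1` -/
theorem cross (a b u x : Fin 3 → ℤ) (g : ℤ) (hx : crossProduct a b = g • x) (hu : u ⬝ᵥ a = 1) :
    ∃ c : Fin 3 → ℤ, b = (u ⬝ᵥ b) • a + g • c := by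
  rw [dotProduct, Fin.sum_univ_three] at hu
  rw [cross_apply] at hx
  have x0 := congrFun hx 0
  have x1 := congrFun hx 1
  have x2 := congrFun hx 2
  simp only [Matrix.cons_val_zero, Matrix.cons_val_one, Matrix.cons_val, Pi.smul_apply,
    smul_eq_mul] at x0 x1 x2
  refine ⟨![u 2 * x 1 - u 1 * x 2, u 0 * x 2 - u 2 * x 0, u 1 * x 0 - u 0 * x 1], ?_⟩
  rw [dotProduct, Fin.sum_univ_three]
  funext i
  fin_cases i
  · simp only [Fin.zero_eta, Pi.add_apply, Pi.smul_apply, smul_eq_mul, Matrix.cons_val_zero]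
    linear_combination (-(b 0)) * hu - (-(u 2)) * x1 - (u 1) * x2
  · simp only [Fin.mk_one, Pi.add_apply, Pi.smul_apply, smul_eq_mul, Matrix.cons_val_one,
      Matrix.cons_val_zero]
    linear_combination (-(b 1)) * hu - (-(u 0)) * x2 - (u 2) * x0
  · simp only [Fin.reduceFinMk, Pi.add_apply, Pi.smul_apply, smul_eq_mul, Matrix.cons_val]
    linear_combination (-(b 2)) * hu - (-(u 1)) * x0 - (u 0) * x1

theorem first (hA : tADJ) (hD : tDUAL) (A V : IM) (l : Fin 3 → ℤ) (hE : Eig A V l) (k : Fin 3) :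
    (cn V k : ℤ) ∣ l (k + 1) - l (k + 2) := by
  obtain ⟨_, _, _, _, _, hAv⟩ := hD A V l hE
  obtain ⟨_, _, _, hpr, hdet⟩ := hE
  obtain ⟨_, _, _, _, _, _, hcr, _⟩ := hA V hdet hpr
  have hx := hcr k
  have ha := hpr (k + 1)
  have hb := hpr (k + 2)
  have la := hAv (k + 1)
  have lb := hAv (k + 2)
  revert hx ha hb la lb
  generalize vcol V (k + 1) = a
  generalize vcol V (k + 2) = b
  generalize l (k + 1) = l1
  generalize l (k + 2) = l2
  generalize (cn V k : ℤ) = g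
  generalize vst V k = x
  intro hx ha hb la lb
  obtain ⟨u, hu⟩ := bez a ha
  obtain ⟨w, hw⟩ := bez b hb
  obtain ⟨c, hc⟩ := cross a b u x g hx hu
  have hx' : crossProduct b a = g • (-x) := by
    rw [← cross_anticomm, hx, smul_neg]
  obtain ⟨d, hd⟩ := cross b a w (-x) g hx' hw
  generalize u ⬝ᵥ b = t at hc
  generalize w ⬝ᵥ a = s at hd
  have h1 : g ∣ 1 - t * s := by
    apply cancel b hb
    intro i
    have e1 := congrFun hc i
    have e2 := congrFun hd i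
    simp only [Pi.add_apply, Pi.smul_apply, smul_eq_mul] at e1 e2
    refine ⟨t * d i + c i, ?_⟩
    linear_combination e1 + t * e2
  have h2 : g ∣ t * (l2 - l1) := by
    apply cancel a ha
    intro i
    have e0 : A *ᵥ b = t • (A *ᵥ a) + g • (A *ᵥ c) := by
      conv_lhs => rw [hc]
      rw [mulVec_add, mulVec_smul, mulVec_smul]
    rw [la, lb] at e0
    have e1 := congrFun hc i
    have e2 := congrFun e0 i
    simp only [Pi.add_apply, Pi.smul_apply, smul_eq_mul] at e1 e2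
    refine ⟨(A *ᵥ c) i - l2 * c i, ?_⟩
    linear_combination e2 - l2 * e1
  have h3 : l1 - l2 = -((1 - t * s) * (l2 - l1) + s * (t * (l2 - l1))) := by ring
  rw [h3, dvd_neg]
  exact dvd_add (Dvd.dvd.mul_right h1 _) (Dvd.dvd.mul_left h2 _)

end DVDx

theorem p_DVD (hA : tADJ) (hD : tDUAL) : tDVD := by
  intro A V l hE k
  refine ⟨DVDx.first hA hD A V l hE k, ?_⟩
  obtain ⟨hE', hv', hs', _⟩ := hD A V l hE
  obtain ⟨e, he⟩ := DVDx.first hA hD Aᵀ (Vd V) l hE' k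
  obtain ⟨_, _, _, hpr, hdet⟩ := hE
  obtain ⟨_, _, _, _, _, _, _, h8⟩ := hA V hdet hpr
  obtain ⟨_, _, _, hpr', hdet'⟩ := hE'
  obtain ⟨_, _, _, _, _, _, h7', _⟩ := hA (Vd V) hdet' hpr'
  have e1 := h8 k
  have e2 := h7' k
  rw [hv', hv', hs'] at e2
  rw [e2] at e1
  obtain ⟨u, hu⟩ := DVDx.bez (vcol V k) (hpr k)
  have e3 := congrArg (fun z => u ⬝ᵥ z) e1
  simp only [dotProduct_smul, hu, smul_eq_mul, mul_one] at e3
  refine ⟨e, ?_⟩
  rw [he, ← e3]
  ring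

end SAIL.A
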