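import Pool.Agent.SAIL.ARI.Targets

/-!
SAIL / ARI, job E1: small neighbourhoods of the identity have volume at least `c r^8`.
-/

namespace SAIL.A

open Matrix MeasureTheory Filter SAIL Metric

namespace E1x

/-- elementary determinant estimate -/
lemma det_bounds {t ρ : ℝ} (ht : 1 / 4 ≤ t) (hρ : 0 < ρ) (hρ1 : ρ ≤ 1 / 100) {M : M3}
    (hd : ∀ i, |M i i - t| ≤ ρ) (ho : ∀ i j, i ≠ j → |M i j| ≤ ρ) :
    (t - 2 * ρ) ^ 3 ≤ M.det ∧ M.det ≤ (t + 2 * ρ) ^ 3 := by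
  have h0 := abs_le.mp (hd 0)
  have h1 := abs_le.mp (hd 1)
  have h2 := abs_le.mp (hd 2)
  have e01 := ho 0 1 (by decide)
  have e02 := ho 0 2 (by decide)
  have e10 := ho 1 0 (by decide)
  have e12 := ho 1 2 (by decide)
  have e20 := ho 2 0 (by decide)
  have e21 := ho 2 1 (by decide)
  have hdet := Matrix.det_fin_three M
  set a := M 0 0
  set b := M 1 1
  set c := M 2 2
  have hb1 : t - ρ ≤ a ∧ a ≤ t + ρ := ⟨by linarith, by linarith⟩
  have hb2 : t - ρ ≤ b ∧ b ≤ t + ρ := ⟨by linarith, by linarith⟩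
  have hb3 : t - ρ ≤ c ∧ c ≤ t + ρ := ⟨by linarith, by linarith⟩
  have hs : 0 < t - ρ := by linarith
  have ha : 0 < a := by linarith
  have hb : 0 < b := by linarith
  have hc : 0 < c := by linarith
  -- products of two off diagonal entries
  have p2 : ∀ x y : ℝ, |x| ≤ ρ → |y| ≤ ρ → |x * y| ≤ ρ ^ 2 := by
    intro x y hx hy
    rw [abs_mul, sq]
    exact mul_le_mul hx hy (abs_nonneg _) hρ.le
  have p3 : ∀ x y z : ℝ, |x| ≤ ρ → |y| ≤ ρ → |z| ≤ ρ → |x * y * z| ≤ ρ ^ 3 := by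
    intro x y z hx hy hz
    rw [abs_mul, pow_succ]
    exact mul_le_mul (p2 x y hx hy) hz (abs_nonneg _) (by positivity)
  have pd : ∀ w x y : ℝ, 0 < w → w ≤ t + ρ → |x| ≤ ρ → |y| ≤ ρ → |w * x * y| ≤ (t + ρ) * ρ ^ 2 := by
    intro w x y hw hw' hx hy
    rw [mul_assoc, abs_mul, abs_of_pos hw]
    exact mul_le_mul hw' (p2 x y hx hy) (abs_nonneg _) (by linarith)
  have q1 := abs_le.mp (pd a (M 1 2) (M 2 1) ha hb1.2 e12 e21)
  have q2 := abs_le.mp (pd c (M 0 1) (M 1 0) hc hb3.2 e01 e10)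
  have q3 := abs_le.mp (p3 (M 0 1) (M 1 2) (M 2 0) e01 e12 e20)
  have q4 := abs_le.mp (p3 (M 0 2) (M 1 0) (M 2 1) e02 e10 e21)
  have q5 := abs_le.mp (pd b (M 0 2) (M 2 0) hb hb2.2 e02 e20)
  have habc1 : (t - ρ) ^ 3 ≤ a * b * c := by
    have := mul_le_mul (mul_le_mul hb1.1 hb2.1 hs.le ha.le) hb3.1 hs.le (by positivity)
    calc (t - ρ) ^ 3 = (t - ρ) * (t - ρ) * (t - ρ) := by ring
      _ ≤ _ := this
  have habc2 : a * b * c ≤ (t + ρ) ^ 3 := by
    have := mul_le_mul (mul_le_mul hb1.2 hb2.2 hb.le (by linarith : (0:ℝ) ≤ t + ρ)) hb3.2 hc.le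
      (by positivity)
    calc a * b * c ≤ (t + ρ) * (t + ρ) * (t + ρ) := this
      _ = _ := by ring
  have hdet' : M.det = a * b * c - a * M 1 2 * M 2 1 - c * M 0 1 * M 1 0 + M 0 1 * M 1 2 * M 2 0
      + M 0 2 * M 1 0 * M 2 1 - b * M 0 2 * M 2 0 := by
    rw [hdet]; ring
  constructor
  · have key : (t - 2 * ρ) ^ 3 ≤ (t - ρ) ^ 3 - 3 * ((t + ρ) * ρ ^ 2) - 2 * ρ ^ 3 := by
      have h3 : 0 ≤ 3 * (t - ρ) ^ 2 - 6 * (t - ρ) * ρ - 7 * ρ ^ 2 := by nlinarith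
      have h4 : (t - ρ) ^ 3 - 3 * ((t + ρ) * ρ ^ 2) - 2 * ρ ^ 3 - (t - 2 * ρ) ^ 3 =
          ρ * (3 * (t - ρ) ^ 2 - 6 * (t - ρ) * ρ - 7 * ρ ^ 2) := by ring
      have h5 := mul_nonneg hρ.le h3
      linarith
    rw [hdet']
    linarith [q1.1, q1.2, q2.2, q3.1, q4.1, q5.2]
  · have key : (t + ρ) ^ 3 + 3 * ((t + ρ) * ρ ^ 2) + 2 * ρ ^ 3 ≤ (t + 2 * ρ) ^ 3 := by
      have h3 : 0 ≤ 3 * (t + ρ) ^ 2 - ρ ^ 2 := by nlinarith
      have h4 : (t + 2 * ρ) ^ 3 - ((t + ρ) ^ 3 + 3 * ((t + ρ) * ρ ^ 2) + 2 * ρ ^ 3) =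
          ρ * (3 * (t + ρ) ^ 2 - ρ ^ 2) := by ring
      have h5 := mul_nonneg hρ.le h3
      linarith
    rw [hdet']
    linarith [q1.1, q2.1, q3.2, q4.2, q5.1]

/-- the ball around a scalar matrix is contained in the set -/
lemma ball_sub {t r : ℝ} (ht : 1 / 4 ≤ t) (ht2 : t ≤ 1 / 2) (hr : 0 < r) (hr1 : r ≤ 1) {M : M3}
    (hM : ‖M - t • (1 : M3)‖ ≤ r / 100) :
    M ∈ Co ∧ ‖M - (M.det ^ (1 / 3 : ℝ)) • (1 : M3)‖ ≤ r * M.det ^ (1 / 3 : ℝ) := by
  set ρ := r / 100 with hρdef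
  have hρ : 0 < ρ := by positivity
  have hρ1 : ρ ≤ 1 / 100 := by rw [hρdef]; linarith
  rw [norm_le_iff3 hρ.le] at hM
  have hd : ∀ i, |M i i - t| ≤ ρ := by
    intro i
    have := hM i i
    simpa using this
  have ho : ∀ i j, i ≠ j → |M i j| ≤ ρ := by
    intro i j hij
    have := hM i j
    simpa [Matrix.one_apply_ne hij] using this
  obtain ⟨b1, b2⟩ := det_bounds ht hρ hρ1 hd ho
  have hlo : 0 < t - 2 * ρ := by linarith
  have hdpos : 0 < M.det := lt_of_lt_of_le (by positivity) b1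
  have hd1 : M.det ≤ 1 := by
    refine b2.trans ?_
    have : t + 2 * ρ ≤ 1 := by linarith
    exact pow_le_one₀ (by linarith) this
  set D := M.det ^ (1 / 3 : ℝ) with hD
  have hDpos : 0 < D := Real.rpow_pos_of_pos hdpos _
  have hD3 : D ^ 3 = M.det := by
    rw [hD, ← Real.rpow_natCast, ← Real.rpow_mul hdpos.le]
    norm_num
  have c1 : t - 2 * ρ ≤ D := by
    by_contra h
    push Not at h
    have : D ^ 3 < (t - 2 * ρ) ^ 3 := pow_lt_pow_left₀ h hDpos.le (by norm_num)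
    linarith
  have c2 : D ≤ t + 2 * ρ := by
    by_contra h
    push Not at h
    have : (t + 2 * ρ) ^ 3 < D ^ 3 := pow_lt_pow_left₀ h (by linarith) (by norm_num)
    linarith
  refine ⟨⟨hdpos, hd1⟩, ?_⟩
  have h3 : 3 * ρ ≤ r * D := by
    have : r * (1 / 4 - 2 * ρ) ≤ r * D := mul_le_mul_of_nonneg_left (by linarith) hr.le
    have h4 : r = 100 * ρ := by rw [hρdef]; ring
    nlinarith
  rw [norm_le_iff3 (by positivity)]
  intro i j
  by_cases hij : i = j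
  · subst hij
    have h5 := abs_le.mp (hd i)
    have : |(M - D • (1 : M3)) i i| = |M i i - D| := by simp
    rw [this, abs_le]
    constructor
    · linarith
    · linarith
  · have h5 := ho i j hij
    have : |(M - D • (1 : M3)) i j| = |M i j| := by simp [Matrix.one_apply_ne hij]
    rw [this]
    linarith

end E1x

theorem p_E1 : tE1 := by
  have hfin : Module.finrank ℝ M3 = 9 := by
    rw [Module.finrank_matrix]; simp
  set v0 : ENNReal := volume (ball (0 : M3) 1) with hv0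
  have hv0pos : 0 < v0 := measure_ball_pos volume 0 one_pos
  have hv0top : v0 < ⊤ := measure_ball_lt_top
  refine ⟨v0.toReal / (8 * 100 ^ 8), ?_, ?_⟩
  · have := ENNReal.toReal_pos hv0pos.ne' hv0top.ne
    positivity
  intro r hr hr1
  set ρ := r / 100 with hρdef
  have hρ : 0 < ρ := by positivity
  set n := ⌊1 / (8 * ρ)⌋₊ + 1 with hn
  let t : ℕ → ℝ := fun j => 1 / 4 + 2 * ρ * j
  have hsub : (⋃ j ∈ Finset.range n, ball ((t j) • (1 : M3)) ρ) ⊆
      {M : M3 | M ∈ Co ∧ ‖M - (M.det ^ (1 / 3 : ℝ)) • (1 : M3)‖ ≤ r * M.det ^ (1 / 3 : ℝ)} := by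
    intro M hM
    simp only [Set.mem_iUnion, Finset.mem_range, mem_ball, dist_eq_norm, exists_prop] at hM
    obtain ⟨j, hj, hMj⟩ := hM
    have hj' : (j : ℝ) ≤ 1 / (8 * ρ) := by
      have h1 : j ≤ ⌊1 / (8 * ρ)⌋₊ := by omega
      exact (Nat.cast_le.mpr h1).trans (Nat.floor_le (by positivity))
    have h2 : 2 * ρ * j ≤ 1 / 4 := by
      calc 2 * ρ * j ≤ 2 * ρ * (1 / (8 * ρ)) := by gcongr
        _ = 1 / 4 := by field_simp; norm_num
    refine E1x.ball_sub (t := t j) ?_ ?_ hr hr1 hMj.le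
    · simp only [t]
      have : 0 ≤ 2 * ρ * (j : ℝ) := by positivity
      linarith
    · simp only [t]; linarith
  refine le_trans ?_ (measure_mono hsub)
  have hdisj : ((Finset.range n : Finset ℕ) : Set ℕ).PairwiseDisjoint
      (fun j => ball ((t j) • (1 : M3)) ρ) := by
    intro i _ j _ hij
    apply ball_disjoint_ball
    rw [dist_eq_norm, ← sub_smul]
    have h1 : (1 : ℝ) ≤ |(i : ℝ) - j| := by
      have : (1 : ℤ) ≤ |(i : ℤ) - j| := Int.one_le_abs (sub_ne_zero.mpr (by exact_mod_cast hij))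
      exact_mod_cast this
    have h2 := entry_le_norm ((t i - t j) • (1 : M3)) 0 0
    have h3 : |((t i - t j) • (1 : M3)) 0 0| = 2 * ρ * |(i : ℝ) - j| := by
      simp only [Matrix.smul_apply, Matrix.one_apply_eq, smul_eq_mul, mul_one, t]
      rw [show 1 / 4 + 2 * ρ * (i : ℝ) - (1 / 4 + 2 * ρ * j) = 2 * ρ * ((i : ℝ) - j) by ring,
        abs_mul, abs_of_pos (by positivity : (0:ℝ) < 2 * ρ)]
    rw [h3] at h2
    nlinarith
  rw [measure_biUnion_finset hdisj (fun _ _ => measurableSet_ball)]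
  have hball : ∀ j ∈ Finset.range n, volume (ball ((t j) • (1 : M3)) ρ) =
      ENNReal.ofReal (ρ ^ 9) * v0 := by
    intro j _
    rw [Measure.addHaar_ball volume _ hρ.le, hfin]
  rw [Finset.sum_congr rfl hball, Finset.sum_const, Finset.card_range, nsmul_eq_mul]
  have hv : v0 = ENNReal.ofReal v0.toReal := (ENNReal.ofReal_toReal hv0top.ne).symm
  rw [hv, ← ENNReal.ofReal_mul (by positivity), ← ENNReal.ofReal_natCast,
    ← ENNReal.ofReal_mul (by positivity), ENNReal.toReal_ofReal (by positivity)]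
  apply ENNReal.ofReal_le_ofReal
  have hn1 : 1 / (8 * ρ) ≤ (n : ℝ) := by
    rw [hn]; push_cast
    exact (Nat.lt_floor_add_one _).le
  have hv0' : 0 ≤ v0.toReal := ENNReal.toReal_nonneg
  calc v0.toReal / (8 * 100 ^ 8) * r ^ 8 = 1 / (8 * ρ) * (ρ ^ 9 * v0.toReal) := by
        rw [hρdef]; field_simp
    _ ≤ n * (ρ ^ 9 * v0.toReal) := by gcongr

end SAIL.A
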