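import Pool.Agent.SAIL.ARI.Targets

/-!
SAIL / ARI E2: the set of positions close to a given matrix is small.
-/

namespace SAIL.A

open Matrix MeasureTheory Filter SAIL

namespace E2x

lemma interval {W g κ r : ℝ} (hκ : 0 < κ) (hg : κ ≤ |g|) (hr : 0 < r) (hr2 : r ≤ κ / 2) :
    ∃ a : ℝ, ∀ t : ℝ, |Real.exp t * W - g| ≤ r → t ∈ Set.Icc a (a + 4 * r / κ) := by
  refine ⟨Real.log ((|g| - r) / |W|), fun t ht => ?_⟩
  have h1 : |g| - r ≤ Real.exp t * |W| := by
    have h2 : |g| - |Real.exp t * W| ≤ |g - Real.exp t * W| := abs_sub_abs_le_abs_sub _ _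
    rw [abs_sub_comm, abs_mul, abs_of_pos (Real.exp_pos t)] at h2
    linarith
  have h2 : Real.exp t * |W| ≤ |g| + r := by
    have h2 : |Real.exp t * W| - |g| ≤ |Real.exp t * W - g| := abs_sub_abs_le_abs_sub _ _
    rw [abs_mul, abs_of_pos (Real.exp_pos t)] at h2
    linarith
  have hgr : 0 < |g| - r := by linarith
  have hW : 0 < |W| := by
    rcases (abs_nonneg W).lt_or_eq with h | h
    · exact h
    · rw [← h, mul_zero] at h1; linarith
  have hq : 0 < (|g| - r) / |W| := div_pos hgr hW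
  constructor
  · rw [← Real.log_exp t]
    refine Real.log_le_log hq ?_
    rw [div_le_iff₀ hW]; exact h1
  · have h3 : t ≤ Real.log ((|g| - r) / |W| * ((|g| + r) / (|g| - r))) := by
      rw [← Real.log_exp t]
      refine Real.log_le_log (Real.exp_pos t) ?_
      have e : (|g| - r) / |W| * ((|g| + r) / (|g| - r)) = (|g| + r) / |W| := by
        field_simp
      rw [e, le_div_iff₀ hW]; exact h2
    rw [Real.log_mul hq.ne' (by positivity)] at h3
    have h4 : Real.log ((|g| + r) / (|g| - r)) ≤ 4 * r / κ := by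
      have h5 := Real.log_le_sub_one_of_pos (show 0 < (|g| + r) / (|g| - r) by positivity)
      have h6 : (|g| + r) / (|g| - r) - 1 ≤ 4 * r / κ := by
        have e : (|g| + r) / (|g| - r) - 1 = 2 * r / (|g| - r) := by
          field_simp; ring
        rw [e, div_le_div_iff₀ hgr hκ]
        nlinarith
      linarith
    linarith

lemma row {g : M3} (hg : g.det = 1) {R : ℝ} (hR : 1 ≤ R) (hn : ‖g‖ ≤ R) (i : Fin 3) :
    ∃ j, 1 / (6 * R ^ 2) ≤ |g i j| := by
  by_contra hcon
  push Not at hcon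
  have hb : ∀ a b, |g a b| ≤ R := fun a b => (entry_le_norm g a b).trans hn
  have hR0 : 0 < R := by linarith
  have key : ∀ x y z : ℝ, |x| < 1 / (6 * R ^ 2) → |y| ≤ R → |z| ≤ R → |x * y * z| < 1 / 6 := by
    intro x y z hx hy hz
    have h1 : |x * y * z| = |x| * (|y| * |z|) := by rw [abs_mul, abs_mul]; ring
    have h2 : |y| * |z| ≤ R * R := mul_le_mul hy hz (abs_nonneg _) hR0.le
    rw [h1]
    calc |x| * (|y| * |z|) ≤ |x| * (R * R) := mul_le_mul_of_nonneg_left h2 (abs_nonneg _)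
      _ < 1 / (6 * R ^ 2) * (R * R) := mul_lt_mul_of_pos_right hx (by positivity)
      _ = 1 / 6 := by field_simp
  have hdet := hg
  rw [Matrix.det_fin_three] at hdet
  have h0 := hcon 0
  have h1 := hcon 1
  have h2 := hcon 2
  have e1 : |g 0 0 * g 1 1 * g 2 2| < 1 / 6 := by
    fin_cases i
    · exact key _ _ _ h0 (hb _ _) (hb _ _)
    · have := key _ _ _ h1 (hb 0 0) (hb 2 2); simpa [mul_comm, mul_left_comm, mul_assoc] using this
    · have := key _ _ _ h2 (hb 0 0) (hb 1 1); simpa [mul_comm, mul_left_comm, mul_assoc] using this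
  have e2 : |g 0 0 * g 1 2 * g 2 1| < 1 / 6 := by
    fin_cases i
    · exact key _ _ _ h0 (hb _ _) (hb _ _)
    · have := key _ _ _ h2 (hb 0 0) (hb 2 1); simpa [mul_comm, mul_left_comm, mul_assoc] using this
    · have := key _ _ _ h1 (hb 0 0) (hb 1 2); simpa [mul_comm, mul_left_comm, mul_assoc] using this
  have e3 : |g 0 1 * g 1 0 * g 2 2| < 1 / 6 := by
    fin_cases i
    · exact key _ _ _ h1 (hb _ _) (hb _ _)
    · have := key _ _ _ h0 (hb 0 1) (hb 2 2)
      rwa [mul_comm (g 0 1) (g 1 0)]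
    · have := key _ _ _ h2 (hb 0 1) (hb 1 0); simpa [mul_comm, mul_left_comm, mul_assoc] using this
  have e4 : |g 0 1 * g 1 2 * g 2 0| < 1 / 6 := by
    fin_cases i
    · exact key _ _ _ h1 (hb _ _) (hb _ _)
    · have := key _ _ _ h2 (hb 0 1) (hb 2 0); simpa [mul_comm, mul_left_comm, mul_assoc] using this
    · have := key _ _ _ h0 (hb 0 1) (hb 1 2); simpa [mul_comm, mul_left_comm, mul_assoc] using this
  have e5 : |g 0 2 * g 1 0 * g 2 1| < 1 / 6 := by
    fin_cases i
    · exact key _ _ _ h2 (hb _ _) (hb _ _)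
    · have := key _ _ _ h0 (hb 0 2) (hb 2 1); simpa [mul_comm, mul_left_comm, mul_assoc] using this
    · have := key _ _ _ h1 (hb 0 2) (hb 1 0); simpa [mul_comm, mul_left_comm, mul_assoc] using this
  have e6 : |g 0 2 * g 1 1 * g 2 0| < 1 / 6 := by
    fin_cases i
    · exact key _ _ _ h2 (hb _ _) (hb _ _)
    · have := key _ _ _ h1 (hb 0 2) (hb 2 0); simpa [mul_comm, mul_left_comm, mul_assoc] using this
    · have := key _ _ _ h0 (hb 0 2) (hb 1 1); simpa [mul_comm, mul_left_comm, mul_assoc] using this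
  rw [abs_lt] at e1 e2 e3 e4 e5 e6
  linarith [e1.1, e1.2, e2.1, e2.2, e3.1, e3.2, e4.1, e4.2, e5.1, e5.2, e6.1, e6.2]

end E2x

open E2x in
theorem p_E2 : tE2 := by
  intro R hR
  have hR0 : 0 < R := by linarith
  set κ : ℝ := 1 / (6 * R ^ 2) with hκ
  have hκ0 : 0 < κ := by positivity
  refine ⟨(4 / κ) ^ 2, κ / 2, by positivity, by positivity, ?_⟩
  intro r hr hr2 V g hV hg hn
  obtain ⟨j0, hj0⟩ := row hg hR hn 0
  obtain ⟨j1, hj1⟩ := row hg hR hn 1
  obtain ⟨a, ha⟩ := interval (W := (toR V)⁻¹ 0 j0) hκ0 hj0 hr hr2.le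
  obtain ⟨b, hb⟩ := interval (W := (toR V)⁻¹ 1 j1) hκ0 hj1 hr hr2.le
  have hent : ∀ (y : ℝ × ℝ) i j, gmat V y i j = Real.exp (pos V y i) * (toR V)⁻¹ i j := by
    intro y i j
    unfold gmat
    rw [Matrix.diagonal_mul]
  have hsub : {y : ℝ × ℝ | ‖gmat V y - g‖ ≤ r} ⊆
      Set.Icc a (a + 4 * r / κ) ×ˢ Set.Icc b (b + 4 * r / κ) := by
    intro y hy
    have h := (norm_le_iff3 hr.le).mp hy
    constructor
    · have h0 := h 0 j0
      rw [Matrix.sub_apply, hent] at h0
      exact ha y.1 h0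
    · have h1 := h 1 j1
      rw [Matrix.sub_apply, hent] at h1
      exact hb y.2 h1
  calc volume {y : ℝ × ℝ | ‖gmat V y - g‖ ≤ r}
      ≤ volume (Set.Icc a (a + 4 * r / κ) ×ˢ Set.Icc b (b + 4 * r / κ)) := measure_mono hsub
    _ = ENNReal.ofReal (4 * r / κ) * ENNReal.ofReal (4 * r / κ) := by
        rw [Measure.volume_eq_prod, Measure.prod_prod, Real.volume_Icc, Real.volume_Icc]
        congr 2 <;> ring
    _ = ENNReal.ofReal ((4 / κ) ^ 2 * r ^ 2) := by
        rw [← ENNReal.ofReal_mul (by positivity)]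
        congr 1
        field_simp

end SAIL.A
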