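import Pool.Agent.SAIL.ARI.Targets

set_option autoImplicit false

/-!
SAIL / ARI, target E3: bounded `gmat` gives angles.
-/

namespace SAIL.A

open Matrix

namespace E3x

theorem det_toR (V : IM) : (toR V).det = (V.det : ℝ) := by
  have h := (Int.castRingHom ℝ).map_det V
  simpa [toR, RingHom.mapMatrix_apply] using h.symm

theorem prod_exp (V : IM) (y : ℝ × ℝ) (hV : 0 < V.det) :
    ∏ i, Real.exp (pos V y i) = (V.det : ℝ) := by
  have h0 : (0 : ℝ) < V.det := by exact_mod_cast hV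
  rw [Fin.prod_univ_three, ← Real.exp_add, ← Real.exp_add]
  have : pos V y 0 + pos V y 1 + pos V y 2 = Real.log V.det := by
    simp [pos]
  rw [this, Real.exp_log h0]

theorem det_gmat (V : IM) (y : ℝ × ℝ) (hV : 0 < V.det) : (gmat V y).det = 1 := by
  have h0 : (0 : ℝ) < V.det := by exact_mod_cast hV
  unfold gmat
  rw [Matrix.det_mul, Matrix.det_diagonal, prod_exp V y hV, Matrix.det_nonsing_inv, det_toR,
    Ring.inverse_eq_inv', mul_inv_cancel₀ h0.ne']

theorem gmat_mul (V : IM) (y : ℝ × ℝ) (hV : 0 < V.det) :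
    gmat V y * toR V = Matrix.diagonal (fun i => Real.exp (pos V y i)) := by
  have h0 : (V.det : ℝ) ≠ 0 := by exact_mod_cast hV.ne'
  have hu : IsUnit (toR V).det := by rw [det_toR]; exact isUnit_iff_ne_zero.2 h0
  unfold gmat
  rw [Matrix.mul_assoc, Matrix.nonsing_inv_mul _ hu, Matrix.mul_one]

theorem toR_eq (V : IM) (y : ℝ × ℝ) (hV : 0 < V.det) (r i : Fin 3) :
    toR V r i = (gmat V y).adjugate r i * Real.exp (pos V y i) := by
  have h1 : toR V = (gmat V y).adjugate * Matrix.diagonal (fun i => Real.exp (pos V y i)) := by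
    rw [← gmat_mul V y hV, ← Matrix.mul_assoc, Matrix.adjugate_mul, det_gmat V y hV, one_smul,
      Matrix.one_mul]
  conv_lhs => rw [h1]
  rw [Matrix.mul_diagonal]

theorem abs_sub_mul_le {a b c d ρ : ℝ} (ha : |a| ≤ ρ) (hb : |b| ≤ ρ) (hc : |c| ≤ ρ)
    (hd : |d| ≤ ρ) : |a * b - c * d| ≤ 2 * ρ ^ 2 := by
  have h0 : 0 ≤ ρ := (abs_nonneg a).trans ha
  have h1 : |a * b| ≤ ρ * ρ := by rw [abs_mul]; exact mul_le_mul ha hb (abs_nonneg _) h0
  have h2 : |c * d| ≤ ρ * ρ := by rw [abs_mul]; exact mul_le_mul hc hd (abs_nonneg _) h0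
  calc |a * b - c * d| ≤ |a * b| + |c * d| := abs_sub _ _
    _ ≤ 2 * ρ ^ 2 := by nlinarith

theorem adj_le {g : M3} {ρ : ℝ} (h : ∀ i j, |g i j| ≤ ρ) (r i : Fin 3) :
    |g.adjugate r i| ≤ 2 * ρ ^ 2 := by
  have e : ∀ a b c d : ℝ, -a * b + c * d = c * d - a * b := by intros; ring
  rw [Matrix.adjugate_fin_three]
  fin_cases r <;> fin_cases i <;>
    simp only [Matrix.of_apply, Matrix.cons_val', Matrix.cons_val_zero, Matrix.cons_val_one,
      Matrix.cons_val, Fin.zero_eta, Fin.mk_one, Fin.reduceFinMk, Fin.isValue,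
      neg_mul, neg_add_eq_sub] <;>
    exact abs_sub_mul_le (h _ _) (h _ _) (h _ _) (h _ _)

end E3x

open E3x in
theorem p_E3 : tE3 := by
  intro V y ρ hV h i j
  have hρ : 0 ≤ ρ := (abs_nonneg _).trans (h 0 0)
  set t := Real.exp (pos V y i) with ht
  have ht0 : 0 < t := Real.exp_pos _
  have h1 : sn (vcol V i) ≤ 2 * ρ ^ 2 * t := by
    unfold sn
    rw [pi_norm_le_iff_of_nonneg (by positivity)]
    intro r
    have h2 : ((vcol V i r : ℤ) : ℝ) = (gmat V y).adjugate r i * t := toR_eq V y hV r i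
    rw [h2, Real.norm_eq_abs, abs_mul, abs_of_pos ht0]
    exact mul_le_mul_of_nonneg_right (adj_le h r i) ht0.le
  have h3 : |(toR V)⁻¹ i j| * t ≤ ρ := by
    have h4 : gmat V y i j = t * (toR V)⁻¹ i j := by
      unfold gmat
      rw [Matrix.diagonal_mul]
    have h5 := h i j
    rw [h4, abs_mul, abs_of_pos ht0] at h5
    linarith
  calc |(toR V)⁻¹ i j| * sn (vcol V i) ≤ |(toR V)⁻¹ i j| * (2 * ρ ^ 2 * t) :=
        mul_le_mul_of_nonneg_left h1 (abs_nonneg _)
    _ = 2 * ρ ^ 2 * (|(toR V)⁻¹ i j| * t) := by ring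
    _ ≤ 2 * ρ ^ 2 * ρ := mul_le_mul_of_nonneg_left h3 (by positivity)
    _ = 2 * ρ ^ 3 := by ring

end SAIL.A
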