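import Pool.Agent.SAIL.ARI.Targets

/-!
SAIL / ARI, target EXI: existence of an eigenbasis with primitive integer columns.
-/

namespace SAIL.A.EXIx

open Matrix SAIL SAIL.A

/-- A primitive integer vector in the kernel of a singular matrix shifted by a scalar. -/
lemma vec (A : IM) (a : ℤ) (h : (A - Matrix.scalar (Fin 3) a).det = 0) :
    ∃ w : Fin 3 → ℤ, prim w ∧ ∀ r, ∑ j, A r j * w j = w r * a := by
  obtain ⟨v, hv, hM⟩ := Matrix.exists_mulVec_eq_zero_iff.mpr h
  obtain ⟨g, hg1, hg2⟩ := Finset.extract_gcd v (Finset.univ_nonempty (α := Fin 3))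
  have hne : Finset.univ.gcd v ≠ 0 := by
    intro h0
    apply hv
    funext i
    have := hg1 i (Finset.mem_univ i)
    rw [this, h0, zero_mul]
    rfl
  refine ⟨g, ?_, ?_⟩
  · intro d hd
    have h1 : d ∣ Finset.univ.gcd g := Finset.dvd_gcd fun i _ => hd i
    rw [hg2] at h1
    exact isUnit_of_dvd_one h1
  · intro r
    have h1 : ∑ j, A r j * v j = v r * a := by
      have h2 := congrFun hM r
      rw [Matrix.sub_mulVec, Pi.sub_apply, Pi.zero_apply, sub_eq_zero] at h2
      have h3 : (A *ᵥ v) r = ∑ j, A r j * v j := rfl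
      have h4 : ((Matrix.scalar (Fin 3) a) *ᵥ v) r = v r * a := by
        rw [Matrix.scalar_apply, Matrix.mulVec_diagonal, mul_comm]
      rw [← h3, h2, h4]
    have h5 : Finset.univ.gcd v * (∑ j, A r j * g j) = Finset.univ.gcd v * (g r * a) := by
      calc Finset.univ.gcd v * (∑ j, A r j * g j) = ∑ j, A r j * v j := by
            rw [Finset.mul_sum]
            apply Finset.sum_congr rfl
            intro j _
            rw [hg1 j (Finset.mem_univ j)]
            ring
        _ = v r * a := h1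
        _ = Finset.univ.gcd v * (g r * a) := by
            rw [hg1 r (Finset.mem_univ r)]
            ring
    exact mul_left_cancel₀ hne h5

lemma prim_ne {w : Fin 3 → ℤ} (h : prim w) : ∃ i, w i ≠ 0 := by
  by_contra hcon
  push Not at hcon
  have := h 2 (fun i => by rw [hcon i]; exact dvd_zero 2)
  rw [Int.isUnit_iff] at this
  omega

lemma prim_neg {w : Fin 3 → ℤ} (h : prim w) : prim (fun i => - w i) := by
  intro d hd
  exact h d fun i => (dvd_neg).mp (hd i)

/-- Eigenvectors of distinct eigenvalues are independent. -/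
lemma det_ne (A : IM) (w : Fin 3 → Fin 3 → ℤ) (l : Fin 3 → ℤ)
    (h01 : l 0 < l 1) (h12 : l 1 < l 2)
    (hp : ∀ i, prim (w i)) (hw : ∀ i r, ∑ j, A r j * w i j = w i r * l i) :
    (Matrix.of fun r i => w i r : IM).det ≠ 0 := by
  intro hdet
  obtain ⟨x, hx, hM⟩ := Matrix.exists_mulVec_eq_zero_iff.mpr hdet
  have e0 : ∀ r, ∑ i, w i r * x i = 0 := fun r => congrFun hM r
  have step : ∀ y : Fin 3 → ℤ, (∀ r, ∑ i, w i r * y i = 0) →
      ∀ r, ∑ i, w i r * (l i * y i) = 0 := by
    intro y hy r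
    calc ∑ i, w i r * (l i * y i) = ∑ i, (∑ j, A r j * w i j) * y i := by
          apply Finset.sum_congr rfl
          intro i _
          rw [hw i r]
          ring
      _ = ∑ i, ∑ j, A r j * w i j * y i := by
          apply Finset.sum_congr rfl
          intro i _
          rw [Finset.sum_mul]
      _ = ∑ j, ∑ i, A r j * w i j * y i := Finset.sum_comm
      _ = ∑ j, A r j * ∑ i, w i j * y i := by
          apply Finset.sum_congr rfl
          intro j _
          rw [Finset.mul_sum]
          apply Finset.sum_congr rfl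
          intro i _
          ring
      _ = 0 := by
          apply Finset.sum_eq_zero
          intro j _
          rw [hy j, mul_zero]
  have e1 := step x e0
  have e2 := step _ e1
  simp only [Fin.sum_univ_three] at e0 e1 e2
  have k0 : x 0 = 0 := by
    obtain ⟨r, hr⟩ := prim_ne (hp 0)
    have h3 : (l 0 - l 1) * (l 0 - l 2) * (w 0 r * x 0) = 0 := by
      linear_combination e2 r - (l 1 + l 2) * e1 r + l 1 * l 2 * e0 r
    have h4 : (l 0 - l 1) * (l 0 - l 2) ≠ 0 :=
      mul_ne_zero (by omega) (by omega)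
    have h5 := (mul_eq_zero.mp h3).resolve_left h4
    exact (mul_eq_zero.mp h5).resolve_left hr
  have k1 : x 1 = 0 := by
    obtain ⟨r, hr⟩ := prim_ne (hp 1)
    have h3 : (l 1 - l 0) * (l 1 - l 2) * (w 1 r * x 1) = 0 := by
      linear_combination e2 r - (l 0 + l 2) * e1 r + l 0 * l 2 * e0 r
    have h4 : (l 1 - l 0) * (l 1 - l 2) ≠ 0 :=
      mul_ne_zero (by omega) (by omega)
    have h5 := (mul_eq_zero.mp h3).resolve_left h4
    exact (mul_eq_zero.mp h5).resolve_left hr
  have k2 : x 2 = 0 := by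
    obtain ⟨r, hr⟩ := prim_ne (hp 2)
    have h3 : (l 2 - l 0) * (l 2 - l 1) * (w 2 r * x 2) = 0 := by
      linear_combination e2 r - (l 0 + l 1) * e1 r + l 0 * l 1 * e0 r
    have h4 : (l 2 - l 0) * (l 2 - l 1) ≠ 0 :=
      mul_ne_zero (by omega) (by omega)
    have h5 := (mul_eq_zero.mp h3).resolve_left h4
    exact (mul_eq_zero.mp h5).resolve_left hr
  apply hx
  funext i
  fin_cases i
  · exact k0
  · exact k1
  · exact k2

/-- The eigenbasis, once the determinant is positive. -/
lemma mk (A : IM) (w : Fin 3 → Fin 3 → ℤ) (l : Fin 3 → ℤ)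
    (h01 : l 0 < l 1) (h12 : l 1 < l 2)
    (hp : ∀ i, prim (w i)) (hw : ∀ i r, ∑ j, A r j * w i j = w i r * l i)
    (hd : 0 < (Matrix.of fun r i => w i r : IM).det) :
    Eig A (Matrix.of fun r i => w i r) l := by
  refine ⟨?_, h01, h12, fun i => hp i, hd⟩
  ext r i
  rw [Matrix.mul_diagonal, Matrix.mul_apply]
  exact hw i r

end SAIL.A.EXIx

namespace SAIL.A

open Matrix SAIL

theorem p_EXI : tEXI := by
  intro A a b c hab hbc ha hb hc
  obtain ⟨u, hu, hu'⟩ := EXIx.vec A a ha
  obtain ⟨v, hv, hv'⟩ := EXIx.vec A b hb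
  obtain ⟨w, hw, hw'⟩ := EXIx.vec A c hc
  have hl01 : (![a, b, c] : Fin 3 → ℤ) 0 < (![a, b, c] : Fin 3 → ℤ) 1 := hab
  have hl12 : (![a, b, c] : Fin 3 → ℤ) 1 < (![a, b, c] : Fin 3 → ℤ) 2 := hbc
  have P1 : ∀ i, prim ((![u, v, w] : Fin 3 → Fin 3 → ℤ) i) := by
    intro i
    fin_cases i
    · exact hu
    · exact hv
    · exact hw
  have E1 : ∀ i r, ∑ j, A r j * (![u, v, w] : Fin 3 → Fin 3 → ℤ) i j =
      (![u, v, w] : Fin 3 → Fin 3 → ℤ) i r * (![a, b, c] : Fin 3 → ℤ) i := by
    intro i
    fin_cases i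
    · exact hu'
    · exact hv'
    · exact hw'
  have D1 := EXIx.det_ne A _ _ hl01 hl12 P1 E1
  rcases lt_or_gt_of_ne D1 with hneg | hpos
  · have P2 : ∀ i, prim ((![fun i => - u i, v, w] : Fin 3 → Fin 3 → ℤ) i) := by
      intro i
      fin_cases i
      · exact EXIx.prim_neg hu
      · exact hv
      · exact hw
    have E2 : ∀ i r, ∑ j, A r j * (![fun i => - u i, v, w] : Fin 3 → Fin 3 → ℤ) i j =
        (![fun i => - u i, v, w] : Fin 3 → Fin 3 → ℤ) i r * (![a, b, c] : Fin 3 → ℤ) i := by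
      intro i
      fin_cases i
      · intro r
        have h := hu' r
        change ∑ j, A r j * (- u j) = (- u r) * a
        simp only [mul_neg, Finset.sum_neg_distrib, neg_mul]
        rw [h]
      · exact hv'
      · exact hw'
    refine ⟨_, EXIx.mk A _ _ hl01 hl12 P2 E2 ?_⟩
    rw [Matrix.det_fin_three] at hneg ⊢
    simp only [Matrix.of_apply, Matrix.cons_val_zero, Matrix.cons_val_one, Matrix.cons_val_two,
      Matrix.cons_val, Matrix.head_cons, Matrix.tail_cons] at hneg ⊢
    linarith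
  · exact ⟨_, EXIx.mk A _ _ hl01 hl12 P1 E1 hpos⟩

end SAIL.A
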