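import Pool.Agent.SAIL.ARI.Targets

/-!
SAIL / ARI: the preserved flags are the obvious ones.
-/

namespace SAIL.A

open Matrix SAIL

namespace FOBx

theorem bez (v : Fin 3 → ℤ) (h : prim v) : ∃ u : Fin 3 → ℤ, u ⬝ᵥ v = 1 := by
  have hg1 := Int.gcd_eq_gcd_ab (v 0) (v 1)
  have hg := Int.gcd_eq_gcd_ab (Int.gcd (v 0) (v 1) : ℤ) (v 2)
  have d1 : (Int.gcd (Int.gcd (v 0) (v 1) : ℤ) (v 2) : ℤ) ∣ (Int.gcd (v 0) (v 1) : ℤ) :=
    Int.gcd_dvd_left _ _
  have hu := h (Int.gcd (Int.gcd (v 0) (v 1) : ℤ) (v 2) : ℤ) (by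
    intro i
    fin_cases i
    · exact d1.trans (Int.gcd_dvd_left _ _)
    · exact d1.trans (Int.gcd_dvd_right _ _)
    · exact Int.gcd_dvd_right _ _)
  rw [hg1] at hg
  rcases Int.isUnit_iff.1 hu with h1 | h1
  · refine ⟨![Int.gcdA (v 0) (v 1) * Int.gcdA (Int.gcd (v 0) (v 1) : ℤ) (v 2),
      Int.gcdB (v 0) (v 1) * Int.gcdA (Int.gcd (v 0) (v 1) : ℤ) (v 2),
      Int.gcdB (Int.gcd (v 0) (v 1) : ℤ) (v 2)], ?_⟩
    rw [hg1] at h1 ⊢
    rw [h1] at hg
    rw [dotProduct, Fin.sum_univ_three]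
    simp only [Matrix.cons_val_zero, Matrix.cons_val_one, Matrix.cons_val]
    linarith
  · exfalso
    have : (0 : ℤ) ≤ (Int.gcd (Int.gcd (v 0) (v 1) : ℤ) (v 2) : ℤ) := Int.natCast_nonneg _
    omega

theorem prop (p v : Fin 3 → ℤ) (hp : prim p) (hv : prim v) (s t : ℤ) (hs : s ≠ 0)
    (h : ∀ i, s * p i = t * v i) : p = v ∨ p = -v := by
  obtain ⟨u, hu⟩ := bez p hp
  obtain ⟨w, hw⟩ := bez v hv
  rw [dotProduct, Fin.sum_univ_three] at hu hw
  have h1 : t ∣ s := by
    refine ⟨u 0 * v 0 + u 1 * v 1 + u 2 * v 2, ?_⟩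
    have e0 := h 0
    have e1 := h 1
    have e2 := h 2
    calc s = u 0 * (s * p 0) + u 1 * (s * p 1) + u 2 * (s * p 2) := by
          linear_combination (-s) * hu
      _ = _ := by rw [e0, e1, e2]; ring
  have h2 : s ∣ t := by
    refine ⟨w 0 * p 0 + w 1 * p 1 + w 2 * p 2, ?_⟩
    have e0 := h 0
    have e1 := h 1
    have e2 := h 2
    calc t = w 0 * (t * v 0) + w 1 * (t * v 1) + w 2 * (t * v 2) := by
          linear_combination (-t) * hw
      _ = _ := by rw [← e0, ← e1, ← e2]; ring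
  rcases Int.associated_iff.1 (associated_of_dvd_dvd h2 h1) with h3 | h3
  · left
    funext i
    have := h i
    rw [← h3] at this
    exact mul_left_cancel₀ hs this
  · right
    funext i
    have h4 := h i
    rw [Pi.neg_apply]
    have h5 : t = -s := by omega
    rw [h5] at h4
    apply mul_left_cancel₀ hs
    linarith

theorem half (hA : tADJ) (hD : tDUAL) (A V : IM) (l : Fin 3 → ℤ) (hE : Eig A V l)
    (p : Fin 3 → ℤ) (a : ℤ) (hp : prim p) (hap : A *ᵥ p = a • p) :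
    ∃ i, p = vcol V i ∨ p = -vcol V i := by
  obtain ⟨_, _, _, _, hst, _⟩ := hD A V l hE
  obtain ⟨_, h01, h12, hpr, hdet⟩ := hE
  obtain ⟨hc0, hvp, hadj, _⟩ := hA V hdet hpr
  have key : ∀ i, (l i - a) * (vst V i ⬝ᵥ p) = 0 := by
    intro i
    have h1 : (vst V i ᵥ* A) ⬝ᵥ p = vst V i ⬝ᵥ (A *ᵥ p) := (dotProduct_mulVec _ _ _).symm
    rw [hst i, hap, smul_dotProduct, dotProduct_smul, smul_eq_mul, smul_eq_mul] at h1
    linarith
  have dp : ∀ r, V.det * p r = ∑ j, ((cn V j : ℤ) * (vst V j ⬝ᵥ p)) * vcol V j r := by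
    intro r
    have h1 : (V * V.adjugate) *ᵥ p = V.det • p := by
      rw [Matrix.mul_adjugate, smul_mulVec, one_mulVec]
    have h2 : V.det * p r = (V *ᵥ (V.adjugate *ᵥ p)) r := by
      rw [mulVec_mulVec, h1, Pi.smul_apply, smul_eq_mul]
    rw [h2]
    simp only [mulVec, dotProduct, vcol]
    refine Finset.sum_congr rfl fun j _ => ?_
    rw [mul_comm (V r j), Finset.mul_sum]
    congr 1
    refine Finset.sum_congr rfl fun i _ => ?_
    rw [hadj]
    ring
  have hex : ∃ i, vst V i ⬝ᵥ p ≠ 0 := by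
    by_contra hc
    push Not at hc
    have hp0 : ∀ r, p r = 0 := by
      intro r
      have h1 := dp r
      simp only [hc, mul_zero, zero_mul, Finset.sum_const_zero] at h1
      rcases mul_eq_zero.1 h1 with h2 | h2
      · omega
      · exact h2
    have h3 := hp 0 (fun i => by rw [hp0 i])
    rw [isUnit_zero_iff] at h3
    omega
  obtain ⟨i, hi⟩ := hex
  have hla : l i = a := by
    rcases mul_eq_zero.1 (key i) with h1 | h1
    · omega
    · exact absurd h1 hi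
  have hinj : ∀ j, j ≠ i → l j ≠ l i := by
    intro j hj
    fin_cases i <;> fin_cases j <;> first | exact absurd rfl hj | (simp only [Fin.zero_eta, Fin.mk_one, Fin.reduceFinMk] ; omega)
  have hz : ∀ j, j ≠ i → vst V j ⬝ᵥ p = 0 := by
    intro j hj
    rcases mul_eq_zero.1 (key j) with h1 | h1
    · exfalso
      apply hinj j hj
      omega
    · exact h1
  refine ⟨i, prop p (vcol V i) hp (hpr i) V.det ((cn V i : ℤ) * (vst V i ⬝ᵥ p)) (by omega) ?_⟩
  intro r
  rw [dp r, Finset.sum_eq_single i]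
  · intro j _ hj
    rw [hz j hj, mul_zero, zero_mul]
  · intro h
    exact absurd (Finset.mem_univ i) h

end FOBx

theorem p_FOB (hA : tADJ) (hD : tDUAL) : tFOB := by
  intro A V l hE p q hF hP
  obtain ⟨hp, hq, hpq⟩ := hF
  obtain ⟨⟨a, ha⟩, b, hb⟩ := hP
  obtain ⟨i, hi⟩ := FOBx.half hA hD A V l hE p a hp ha
  obtain ⟨hE', hv', _⟩ := hD A V l hE
  obtain ⟨k, hk⟩ := FOBx.half hA hD Aᵀ (Vd V) l hE' q b hq (by rw [mulVec_transpose]; exact hb)
  rw [hv' k] at hk
  refine ⟨i, k, ?_, hi, hk⟩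
  intro hik
  rw [← hik] at hk
  obtain ⟨_, _, _, hpr, hdet⟩ := hE
  obtain ⟨_, _, _, h4, _⟩ := hA V hdet hpr
  have h5 := h4 i
  have h6 : vst V i ⬝ᵥ vcol V i = 0 := by
    rw [dotProduct_comm]
    rcases hi with h | h <;> rcases hk with h' | h'
    · rw [← h, ← h']; exact hpq
    · have : vst V i = -q := by rw [h']; simp
      rw [← h, this, dotProduct_neg, hpq, neg_zero]
    · have : vcol V i = -p := by rw [h]; simp
      rw [this, ← h', neg_dotProduct, hpq, neg_zero]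
    · have e1 : vcol V i = -p := by rw [h]; simp
      have e2 : vst V i = -q := by rw [h']; simp
      rw [e1, e2, dotProduct_neg, neg_dotProduct, hpq, neg_zero, neg_zero]
  rw [h6, mul_zero] at h5
  omega

end SAIL.A
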