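import Pool.Agent.SAIL.ARI.Targets

set_option autoImplicit false

/-!
SAIL / ARI, target FOUR: a matrix has at most four eigenbases.
-/

namespace SAIL.A

open Matrix

namespace FOURx

/-- two proportional primitive vectors agree up to sign -/
theorem prim_prop {v w : Fin 3 → ℤ} (hv : prim v) (hw : prim w) {D x : ℤ} (hD : D ≠ 0)
    (h : ∀ r, D * w r = x * v r) : w = v ∨ w = -v := by
  set g := Int.gcd x D with hg
  have hg0 : 0 < g := Int.gcd_pos_of_ne_zero_right x hD
  obtain ⟨x', D', hcop, hx, hD'⟩ := Int.exists_gcd_one hg0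
  have hg1 : ((g : ℤ)) ≠ 0 := by exact_mod_cast hg0.ne'
  have h2 : ∀ r, D' * w r = x' * v r := by
    intro r
    have h3 := h r
    have h4 : (g : ℤ) * (D' * w r) = (g : ℤ) * (x' * v r) := by
      calc (g : ℤ) * (D' * w r) = D' * g * w r := by ring
        _ = D * w r := by rw [← hD']
        _ = x * v r := h3
        _ = x' * g * v r := by rw [← hx]
        _ = _ := by ring
    exact mul_left_cancel₀ hg1 h4
  have hc : IsCoprime x' D' := Int.isCoprime_iff_gcd_eq_one.2 hcop
  have hD1 : IsUnit D' := hv D' fun r => by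
    have : D' ∣ x' * v r := ⟨w r, (h2 r).symm⟩
    exact hc.symm.dvd_of_dvd_mul_left this
  have hx1 : IsUnit x' := hw x' fun r => by
    have : x' ∣ D' * w r := ⟨v r, h2 r⟩
    exact hc.dvd_of_dvd_mul_left this
  rcases Int.isUnit_iff.1 hD1 with h5 | h5 <;> rcases Int.isUnit_iff.1 hx1 with h6 | h6
  · left; funext r; have := h2 r; rw [h5, h6] at this; simpa using this
  · right; funext r; have := h2 r; rw [h5, h6] at this; simp only [Pi.neg_apply]; linarith
  · right; funext r; have := h2 r; rw [h5, h6] at this; simp only [Pi.neg_apply]; linarith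
  · left; funext r; have := h2 r; rw [h5, h6] at this; linarith

theorem prim_ne_zero {v : Fin 3 → ℤ} (hv : prim v) : v ≠ 0 := by
  intro h
  have := hv 0 fun i => by simp [h]
  simp at this

theorem adj_mul {A V : IM} {l : Fin 3 → ℤ} (h : Eig A V l) :
    V.adjugate * A = Matrix.diagonal l * V.adjugate := by
  obtain ⟨h1, -, -, -, hd⟩ := h
  have h2 : V.det • (V.adjugate * A) = V.det • (Matrix.diagonal l * V.adjugate) := by
    calc V.det • (V.adjugate * A) = V.adjugate * A * (V * V.adjugate) := by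
          rw [Matrix.mul_adjugate, Matrix.mul_smul, Matrix.mul_one]
      _ = V.adjugate * (A * V) * V.adjugate := by simp only [Matrix.mul_assoc]
      _ = (V.adjugate * V) * (Matrix.diagonal l * V.adjugate) := by
          rw [h1]; simp only [Matrix.mul_assoc]
      _ = V.det • (Matrix.diagonal l * V.adjugate) := by
          rw [Matrix.adjugate_mul, Matrix.smul_mul, Matrix.one_mul]
  ext i j
  have h3 := congrFun (congrFun h2 i) j
  simp only [Matrix.smul_apply, smul_eq_mul] at h3
  exact mul_left_cancel₀ hd.ne' h3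

theorem mul_vcol {A V : IM} {l : Fin 3 → ℤ} (h : Eig A V l) (i : Fin 3) :
    A *ᵥ vcol V i = l i • vcol V i := by
  funext r
  have h3 := congrFun (congrFun h.1 r) i
  rw [Matrix.mul_diagonal] at h3
  simp only [Matrix.mul_apply] at h3
  simp only [Matrix.mulVec, dotProduct, vcol, Pi.smul_apply, smul_eq_mul]
  rw [h3]
  ring

/-- the coordinates of an eigenvector in the eigenbasis -/
theorem coords {A V : IM} {l : Fin 3 → ℤ} (h : Eig A V l) {w : Fin 3 → ℤ} {t : ℤ}
    (hw : A *ᵥ w = t • w) (hw0 : w ≠ 0) :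
    ∃ k, t = l k ∧ ∀ r, V.det * w r = (V.adjugate *ᵥ w) k * vcol V k r := by
  set x := V.adjugate *ᵥ w with hx
  have h1 : ∀ k, l k * x k = t * x k := by
    intro k
    have h2 : (V.adjugate * A) *ᵥ w = t • x := by
      rw [← Matrix.mulVec_mulVec, hw, Matrix.mulVec_smul]
    rw [adj_mul h, ← Matrix.mulVec_mulVec] at h2
    have h3 := congrFun h2 k
    rw [Matrix.mulVec_diagonal] at h3
    exact h3
  have h2 : ∀ r, V.det * w r = ∑ k, vcol V k r * x k := by
    intro r
    have h3 : V *ᵥ x = V.det • w := by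
      rw [hx, Matrix.mulVec_mulVec, Matrix.mul_adjugate, Matrix.smul_mulVec, Matrix.one_mulVec]
    have h4 := congrFun h3 r
    simp only [Pi.smul_apply, smul_eq_mul] at h4
    rw [← h4]
    rfl
  have h3 : ∃ k, x k ≠ 0 := by
    by_contra hcon
    push Not at hcon
    apply hw0
    funext r
    have := h2 r
    simp only [hcon, mul_zero, Finset.sum_const_zero] at this
    exact (mul_eq_zero.1 this).resolve_left h.2.2.2.2.ne'
  obtain ⟨k, hk⟩ := h3
  have hkt : l k = t := mul_right_cancel₀ hk (h1 k)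
  refine ⟨k, hkt.symm, fun r => ?_⟩
  rw [h2 r, Finset.sum_eq_single k]
  · ring
  · intro j _ hj
    have hjt : l j ≠ t := by
      rw [← hkt]
      have h01 := h.2.1
      have h12 := h.2.2.1
      fin_cases j <;> fin_cases k <;> simp at hj ⊢ <;> omega
    have : x j = 0 := by
      by_contra hcon
      exact hjt (mul_right_cancel₀ hcon (h1 j))
    rw [this, mul_zero]
  · simp

theorem cols {A V W : IM} (hV : ∃ l, Eig A V l) (hW : ∃ l, Eig A W l) (i : Fin 3) :
    vcol W i = vcol V i ∨ vcol W i = -vcol V i := by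
  obtain ⟨l, hl⟩ := hV
  obtain ⟨t, ht⟩ := hW
  have hk : ∀ i, ∃ k, t i = l k ∧
      ∀ r, V.det * vcol W i r = (V.adjugate *ᵥ vcol W i) k * vcol V k r := fun i =>
    coords hl (mul_vcol ht i) (prim_ne_zero (ht.2.2.2.1 i))
  obtain ⟨k0, h0, -⟩ := hk 0
  obtain ⟨k1, h1, -⟩ := hk 1
  obtain ⟨k2, h2, -⟩ := hk 2
  have a1 := hl.2.1
  have a2 := hl.2.2.1
  have b1 := ht.2.1
  have b2 := ht.2.2.1
  have e : t = l := by
    have e0 : t 0 = l 0 ∧ t 1 = l 1 ∧ t 2 = l 2 := by
      fin_cases k0 <;> fin_cases k1 <;> fin_cases k2 <;> simp at h0 h1 h2 <;>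
        refine ⟨?_, ?_, ?_⟩ <;> omega
    funext j
    fin_cases j
    · exact e0.1
    · exact e0.2.1
    · exact e0.2.2
  obtain ⟨k, hk1, hk2⟩ := hk i
  have hki : k = i := by
    rw [e] at hk1
    fin_cases k <;> fin_cases i <;> simp at hk1 ⊢ <;> omega
  subst hki
  exact prim_prop (hl.2.2.2.1 k) (ht.2.2.2.1 k) hl.2.2.2.2.ne' hk2

/-- sign -/
def sg (b : Bool) : ℤ := if b then -1 else 1

/-- change of signs of the columns -/
def chg (V : IM) (e : Bool × Bool) : IM :=
  Matrix.of fun r i => (![sg e.1, sg e.2, sg e.1 * sg e.2] i) * V r i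

theorem mem_chg {A V W : IM} (hV : ∃ l, Eig A V l) (hW : ∃ l, Eig A W l) :
    ∃ e, chg V e = W := by
  have hs : ∀ i, ∃ b : Bool, ∀ r, W r i = sg b * V r i := by
    intro i
    rcases cols hV hW i with h | h
    · exact ⟨false, fun r => by simpa [sg, vcol] using congrFun h r⟩
    · exact ⟨true, fun r => by simpa [sg, vcol] using congrFun h r⟩
  obtain ⟨b0, h0⟩ := hs 0
  obtain ⟨b1, h1⟩ := hs 1
  obtain ⟨b2, h2⟩ := hs 2
  have hdV : 0 < V.det := hV.choose_spec.2.2.2.2
  have hdW : 0 < W.det := hW.choose_spec.2.2.2.2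
  have hdet : W.det = sg b0 * sg b1 * sg b2 * V.det := by
    rw [Matrix.det_fin_three, Matrix.det_fin_three]
    simp only [h0, h1, h2]
    ring
  refine ⟨(b0, b1), ?_⟩
  have h3 : sg b2 = sg b0 * sg b1 := by
    rw [hdet] at hdW
    cases b0 <;> cases b1 <;> cases b2 <;> simp [sg] at hdW ⊢ <;> omega
  ext r i
  fin_cases i
  · simp [chg, h0]
  · simp [chg, h1]
  · simp [chg, h2, h3]

end FOURx

open FOURx in
theorem p_FOUR : tFOUR := by
  intro A S hS
  rcases S.eq_empty_or_nonempty with h | ⟨V, hV⟩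
  · rw [h]; simp
  · classical
    have h1 : S ⊆ Finset.univ.image (chg V) := by
      intro W hW
      obtain ⟨e, he⟩ := mem_chg (hS V hV) (hS W hW)
      exact Finset.mem_image.2 ⟨e, Finset.mem_univ _, he⟩
    calc S.card ≤ (Finset.univ.image (chg V)).card := Finset.card_le_card h1
      _ ≤ (Finset.univ : Finset (Bool × Bool)).card := Finset.card_image_le
      _ = 4 := rfl

end SAIL.A
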