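import Pool.Agent.SAIL.ARI.Targets

/-!
# SAIL / ARI, item GF: every matrix has a good flag (helper96)
-/

namespace SAIL.A

open Matrix

namespace GF_

/-- from `2 log X ≤ log Y + log c` to `X ^ 2 ≤ c Y` -/
theorem exp_of_log {X Y c : ℝ} (hX : 1 ≤ X) (hY : 1 ≤ Y) (hc : 1 ≤ c)
    (h : 2 * Real.log X ≤ Real.log Y + Real.log c) : X ^ 2 ≤ c * Y := by
  have hX0 : 0 < X := by linarith
  have hY0 : 0 < Y := by linarith
  have hc0 : 0 < c := by linarith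
  have h1 : Real.log (X ^ 2) ≤ Real.log (c * Y) := by
    rw [Real.log_pow, Real.log_mul hc0.ne' hY0.ne']
    push_cast
    linarith
  exact (Real.log_le_log_iff (by positivity) (by positivity)).1 h1

/-- from `X ^ 2 ≤ c Y`, `Y ^ 2 ≤ c X` to `X ≤ c` -/
theorem le_of_two {X Y c : ℝ} (hX : 1 ≤ X) (_hY : 1 ≤ Y) (hc : 1 ≤ c)
    (h1 : X ^ 2 ≤ c * Y) (h2 : Y ^ 2 ≤ c * X) : X ≤ c := by
  have hX0 : 0 < X := by linarith
  have hc0 : 0 < c := by linarith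
  have h3 : (X ^ 2) ^ 2 ≤ (c * Y) ^ 2 := pow_le_pow_left₀ (by positivity) h1 2
  have h4 : X * X ^ 3 ≤ X * c ^ 3 := by
    calc X * X ^ 3 = (X ^ 2) ^ 2 := by ring
      _ ≤ (c * Y) ^ 2 := h3
      _ = c ^ 2 * Y ^ 2 := by ring
      _ ≤ c ^ 2 * (c * X) := mul_le_mul_of_nonneg_left h2 (by positivity)
      _ = X * c ^ 3 := by ring
  have h5 : X ^ 3 ≤ c ^ 3 := le_of_mul_le_mul_left h4 hX0
  exact le_of_pow_le_pow_left₀ (by norm_num) hc0.le h5

end GF_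

open GF_ in
/-- the target `tGF` -/
theorem p_GF (hADJ : tADJ) (hDUAL : tDUAL) (hSPEC : tSPEC) (hCRO : tCRO) (hORD : tORD) : tGF := by
  intro m A V l hE hn
  have hE' := hE
  obtain ⟨-, -, -, hprim, hdet⟩ := hE'
  obtain ⟨-, a2, -, -, a5, -, -, -⟩ := hADJ V hdet hprim
  obtain ⟨-, -, -, -, d5, d6⟩ := hDUAL A V l hE
  obtain ⟨-, s2, s3, -, -, -, hm⟩ := hSPEC m A V l hE hn
  have hm1 : (1:ℝ) ≤ m := by exact_mod_cast hm
  have hc : (1:ℝ) ≤ 4 * m := by linarith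
  have hlogc : 0 ≤ Real.log (4 * (m:ℝ)) := Real.log_nonneg hc
  have hcr := hCRO m A V l hE hn
  have pos1 : ∀ i, 0 < sn (vcol V i) := fun i => by linarith [(s2 i).1]
  have pos2 : ∀ i, 0 < sn (vst V i) := fun i => by linarith [(s3 i).1]
  have key : ∀ {a b c : ℝ}, 0 < a → 0 < b → 0 < c → a * b ≤ 4 * m * c →
      Real.log a + Real.log b ≤ Real.log c + Real.log (4 * (m:ℝ)) := by
    intro a b c ha hb hc' h
    have h1 : Real.log (a * b) ≤ Real.log (4 * m * c) := Real.log_le_log (by positivity) h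
    rw [Real.log_mul ha.ne' hb.ne', Real.log_mul (by linarith) hc'.ne'] at h1
    linarith
  obtain ⟨i, k, hik, o1, o2, o3⟩ := hORD (fun i => Real.log (sn (vcol V i)))
    (fun i => Real.log (sn (vst V i))) (Real.log (4 * (m:ℝ))) hlogc
    (fun k => key (pos1 _) (pos1 _) (pos2 _) (hcr k).1)
    (fun k => key (pos2 _) (pos2 _) (pos1 _) (hcr k).2)
  have e1 := exp_of_log (s2 i).1 (s3 k).1 hc o1
  have e2 := exp_of_log (s3 k).1 (s2 i).1 hc o2
  refine ⟨i, k, hik, ⟨hprim i, a2 k, ?_⟩, ⟨⟨l i, d6 i⟩, ⟨l k, d5 k⟩⟩, e1, e2,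
    le_of_two (s2 i).1 (s3 k).1 hc e1 e2, le_of_two (s3 k).1 (s2 i).1 hc e2 e1, ?_⟩
  · rw [dotProduct_comm]
    exact a5 k i (Ne.symm hik)
  · intro j
    exact (Real.log_le_log_iff (pos1 _) (pos1 _)).1 (o3 j)

end SAIL.A
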