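import Pool.Agent.SAIL.ARI.Targets

/-!
SAIL / ARI: lower bound for the total area (job SAILD-LB).
-/

set_option autoImplicit false

namespace SAIL.A

open Matrix MeasureTheory SAIL

namespace lbx

/-- choice of the threshold: all the inequalities that hold for large `m` -/
theorem eventually_all (c C₂ C₃ δ C : ℝ) (hc : 0 < c) (hδ : 0 < δ) :
    ∃ M : ℝ, 2 ≤ M ∧ ∀ m : ℕ, M ≤ m →
      C₃ * Real.log m ≤ c / 8 * Real.log m ^ 2 ∧ C₂ * Real.log m ≤ c / 8 * Real.log m ^ 2 ∧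
      C ≤ δ / 2 * Real.log m ∧ 0 < Real.log m := by
  obtain ⟨T, hT⟩ : ∃ T : ℝ, T = max 1 (max (8 * C₃ / c) (max (8 * C₂ / c) (2 * C / δ))) := ⟨_, rfl⟩
  have h1 : 1 ≤ T := by rw [hT]; exact le_max_left _ _
  have h2 : 8 * C₃ / c ≤ T := by rw [hT]; exact (le_max_left _ _).trans (le_max_right _ _)
  have h3 : 8 * C₂ / c ≤ T := by
    rw [hT]
    exact ((le_max_left _ _).trans (le_max_right _ _)).trans (le_max_right _ _)
  have h4 : 2 * C / δ ≤ T := by
    rw [hT]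
    exact ((le_max_right _ _).trans (le_max_right _ _)).trans (le_max_right _ _)
  refine ⟨max 2 (Real.exp T), le_max_left _ _, fun m hm => ?_⟩
  have hm' : Real.exp T ≤ m := (le_max_right _ _).trans hm
  have hlog : T ≤ Real.log m := by
    rw [Real.le_log_iff_exp_le (lt_of_lt_of_le (Real.exp_pos _) hm')]
    exact hm'
  have hpos : 0 < Real.log m := by linarith
  rw [div_le_iff₀ hc] at h2 h3
  rw [div_le_iff₀ hδ] at h4
  refine ⟨?_, ?_, ?_, hpos⟩
  · have e1 : 8 * C₃ ≤ Real.log m * c := h2.trans (mul_le_mul_of_nonneg_right hlog hc.le)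
    have e2 := mul_le_mul_of_nonneg_right e1 hpos.le
    nlinarith
  · have e1 : 8 * C₂ ≤ Real.log m * c := h3.trans (mul_le_mul_of_nonneg_right hlog hc.le)
    have e2 := mul_le_mul_of_nonneg_right e1 hpos.le
    nlinarith
  · have e1 : 2 * C ≤ Real.log m * δ := h4.trans (mul_le_mul_of_nonneg_right hlog hδ.le)
    linarith

end lbx

open Classical in
theorem p_LB (h2 : tC2) (h3 : tC3) (h4 : tC4) (h6 : tC6) (h10 : tC10) : tLB := by
  obtain ⟨C₂, hC₂, H2⟩ := h2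
  obtain ⟨C₃, hC₃, H3⟩ := h3
  obtain ⟨c, m₀, hc, H4⟩ := h4
  -- the gap parameter
  obtain ⟨e, he⟩ : ∃ e : ℝ, e = min 1 (c / (8 * C₃)) := ⟨_, rfl⟩
  have he0 : 0 < e := by rw [he]; exact lt_min one_pos (by positivity)
  have he1 : e ≤ 1 := by rw [he]; exact min_le_left _ _
  have he2 : C₃ * e ≤ c / 8 := by
    have : e ≤ c / (8 * C₃) := by rw [he]; exact min_le_right _ _
    calc C₃ * e ≤ C₃ * (c / (8 * C₃)) := mul_le_mul_of_nonneg_left this hC₃.le
      _ = c / 8 := by field_simp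
  -- the size parameter
  obtain ⟨δ, hδ⟩ : ∃ δ : ℝ, δ = c / (8 * C₂) := ⟨_, rfl⟩
  have hδ0 : 0 < δ := by rw [hδ]; positivity
  have hδ2 : C₂ * δ = c / 8 := by rw [hδ]; field_simp
  obtain ⟨K, hK, H6⟩ := h6 e he0
  obtain ⟨C, hC, H10⟩ := h10 K hK
  obtain ⟨M, hM2, HM⟩ := lbx.eventually_all c C₂ C₃ δ C hc hδ0
  refine ⟨c / 2 * (δ / 2) ^ 2, max m₀ M, by positivity, fun m hm => ?_⟩
  have hm0 : m₀ ≤ m := (le_max_left _ _).trans hm
  obtain ⟨E1, E2, E3, hlog⟩ := HM m ((le_max_right _ _).trans hm)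
  have hm2r : (2 : ℝ) ≤ m := hM2.trans ((le_max_right _ _).trans hm)
  have hm2 : 2 ≤ m := by exact_mod_cast hm2r
  have hmpos : (0 : ℝ) < m := by linarith
  obtain ⟨Y, hY⟩ : ∃ Y : ℝ, Y = (m : ℝ) ^ δ := ⟨_, rfl⟩
  have hY1 : 1 ≤ Y := by rw [hY]; exact Real.one_le_rpow (by linarith) hδ0.le
  have hlogY : Real.log Y = δ * Real.log m := by rw [hY, Real.log_rpow hmpos]
  have A2 := H2 m Y hm2 hY1
  have A3 := H3 m e hm2 he0 he1
  have A4 := H4 m hm0
  rw [hlogY] at A2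
  set B2 := (PPf m).filter fun P => ∃ i, sn (vcol P.2 i) ≤ Y ∨ sn (vst P.2 i) ≤ Y with hB2
  set B3 := (PPf m).filter fun P => ¬ Gap e m P with hB3
  set G := (PPf m) \ (B2 ∪ B3) with hG
  -- the good pairs are many
  have hcard : (PPf m).card ≤ G.card + (B2.card + B3.card) := by
    have h1 : PPf m ⊆ G ∪ (B2 ∪ B3) := by
      intro P hP
      rw [hG, Finset.sdiff_union_self_eq_union]
      exact Finset.mem_union_left _ hP
    calc (PPf m).card ≤ (G ∪ (B2 ∪ B3)).card := Finset.card_le_card h1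
      _ ≤ G.card + (B2 ∪ B3).card := Finset.card_union_le _ _
      _ ≤ G.card + (B2.card + B3.card) := Nat.add_le_add_left (Finset.card_union_le _ _) _
  have hcard' : ((PPf m).card : ℝ) ≤ G.card + (B2.card + B3.card) := by exact_mod_cast hcard
  have hm6 : (0 : ℝ) < (m : ℝ) ^ 6 := by positivity
  have b2 : (B2.card : ℝ) ≤ (m : ℝ) ^ 6 * (c / 4 * Real.log m ^ 2) := by
    refine A2.trans ?_
    have e1 : C₂ * (m : ℝ) ^ 6 * (1 + δ * Real.log m) * Real.log m =
      (m : ℝ) ^ 6 * (C₂ * Real.log m + (C₂ * δ) * Real.log m ^ 2) := by ring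
    rw [e1, hδ2]
    apply mul_le_mul_of_nonneg_left _ hm6.le
    linarith
  have b3 : (B3.card : ℝ) ≤ (m : ℝ) ^ 6 * (c / 4 * Real.log m ^ 2) := by
    refine A3.trans ?_
    have e1 : C₃ * (m : ℝ) ^ 6 * (e * Real.log m ^ 2 + Real.log m) =
      (m : ℝ) ^ 6 * ((C₃ * e) * Real.log m ^ 2 + C₃ * Real.log m) := by ring
    rw [e1]
    apply mul_le_mul_of_nonneg_left _ hm6.le
    have e2 : (C₃ * e) * Real.log m ^ 2 ≤ c / 8 * Real.log m ^ 2 :=
      mul_le_mul_of_nonneg_right he2 (by positivity)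
    linarith
  have hGcard : c / 2 * (m : ℝ) ^ 6 * Real.log m ^ 2 ≤ G.card := by
    have : c * (m : ℝ) ^ 6 * Real.log m ^ 2 = (m : ℝ) ^ 6 * (c * Real.log m ^ 2) := by ring
    nlinarith
  -- each good pair has a large hexagon
  have harea : ∀ P ∈ G, ENNReal.ofReal ((δ / 2 * Real.log m) ^ 2) ≤ volume (Hex P.2) := by
    intro P hP
    rw [hG, Finset.mem_sdiff, Finset.mem_union] at hP
    obtain ⟨hP, hP'⟩ := hP
    push Not at hP'
    obtain ⟨n2, n3⟩ := hP'
    rw [hB2, Finset.mem_filter] at n2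
    rw [hB3, Finset.mem_filter] at n3
    push Not at n2 n3
    have g2 := n2 hP
    have g3 := n3 hP
    simp only [PPf, Finset.mem_filter] at hP
    obtain ⟨-, hnrm, l, hl⟩ := hP
    have hAng : Ang K P.2 := H6 m P (by omega) hnrm g3
    have hdet : 0 < P.2.det := hl.2.2.2.2
    have hprim := hl.2.2.2.1
    have h5 := H10 P.2 (δ * Real.log m) hdet hprim hAng (by linarith) (by
      intro i
      obtain ⟨g4, g5⟩ := g2 i
      rw [← hlogY]
      exact ⟨Real.log_le_log (by linarith) g4.le, Real.log_le_log (by linarith) g5.le⟩)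
    refine le_trans (ENNReal.ofReal_le_ofReal ?_) h5
    apply pow_le_pow_left₀ (by positivity)
    linarith
  calc ENNReal.ofReal (c / 2 * (δ / 2) ^ 2 * (m : ℝ) ^ 6 * Real.log m ^ 4)
      = ENNReal.ofReal (c / 2 * (m : ℝ) ^ 6 * Real.log m ^ 2) *
          ENNReal.ofReal ((δ / 2 * Real.log m) ^ 2) := by
        rw [← ENNReal.ofReal_mul (by positivity)]
        congr 1
        ring
    _ ≤ ENNReal.ofReal (G.card : ℝ) * ENNReal.ofReal ((δ / 2 * Real.log m) ^ 2) := by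
        gcongr
    _ = ∑ P ∈ G, ENNReal.ofReal ((δ / 2 * Real.log m) ^ 2) := by
        rw [Finset.sum_const, nsmul_eq_mul, ENNReal.ofReal_natCast]
    _ ≤ ∑ P ∈ G, volume (Hex P.2) := Finset.sum_le_sum harea
    _ ≤ ∑ P ∈ PPf m, volume (Hex P.2) :=
        Finset.sum_le_sum_of_subset (by rw [hG]; exact Finset.sdiff_subset)

end SAIL.A
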