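import Pool.Agent.SAIL.ARI.Targets

/-!
SAIL / ARI: normal form for every ordering of the eigenvalues (job SAILD-N1).
-/

set_option autoImplicit false

namespace SAIL.A

open Matrix SAIL

namespace N1x

/-- the unipotent matrix used for the reduction -/
def uni (s t r : ℤ) : GZ :=
  ⟨!![1, s, t; 0, 1, r; 0, 0, 1], by rw [Matrix.det_fin_three]; simp⟩

lemma inj_of_lt {l : Fin 3 → ℤ} (h1 : l 0 < l 1) (h2 : l 1 < l 2) : Function.Injective l := by
  intro i j hij
  fin_cases i <;> fin_cases j <;> simp at hij ⊢ <;> omega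

lemma tri_mul (l : Fin 3 → ℤ) (x z y s t r : ℤ) :
    Tri l x z y * (uni s t r).1 =
      (uni s t r).1 * Tri l (x + s * (l 0 - l 1))
        (z + x * r - s * (y + r * (l 1 - l 2)) + t * (l 0 - l 2)) (y + r * (l 1 - l 2)) := by
  ext i j
  fin_cases i <;> fin_cases j <;>
    simp [Tri, uni, Matrix.mul_apply, Fin.sum_univ_three] <;> ring

lemma ex_red (x d : ℤ) (hd : d ≠ 0) : ∃ s : ℤ, 0 ≤ x + s * d ∧ x + s * d < |d| := by
  refine ⟨-(x / d), ?_, ?_⟩
  · have h := Int.emod_nonneg x hd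
    have h2 := Int.emod_add_mul_ediv x d
    nlinarith
  · have h := Int.emod_lt_abs x hd
    have h2 := Int.emod_add_mul_ediv x d
    have h3 : x + -(x / d) * d = x % d := by linarith
    rw [h3]; exact h

lemma trace_eig {A V : IM} {l : Fin 3 → ℤ} (h : Eig A V l) : A.trace = l 0 + l 1 + l 2 := by
  have hd : V.det ≠ 0 := ne_of_gt h.2.2.2.2
  have h1 : A * (V * V.adjugate) = V * Matrix.diagonal l * V.adjugate := by
    rw [← Matrix.mul_assoc, h.1]
  rw [Matrix.mul_adjugate] at h1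
  have h2 := congrArg Matrix.trace h1
  rw [Matrix.mul_assoc, Matrix.trace_mul_comm V, Matrix.mul_assoc, Matrix.adjugate_mul] at h2
  simp only [Matrix.mul_smul, Matrix.mul_one, Matrix.trace_smul, smul_eq_mul] at h2
  have h3 := mul_left_cancel₀ hd h2
  rw [h3]
  simp [Matrix.trace, Fin.sum_univ_three]

end N1x

open N1x

theorem p_N1 (hADJ : tADJ) (hDUAL : tDUAL) (hBAS : tBAS) : tN1 := by
  intro A V l hE w
  have hpr := hE.2.2.2.1
  have hdet := hE.2.2.2.2
  obtain ⟨-, hvp, -, -, horth, -, -, -⟩ := hADJ V hdet hpr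
  obtain ⟨-, -, -, -, hrow, hcol⟩ := hDUAL A V l hE
  have hinj := inj_of_lt hE.2.1 hE.2.2.1
  have hwne : w 2 ≠ w 0 := fun h => by simpa using w.injective h
  set p := vcol V (w 0) with hp
  set q := vst V (w 2) with hq
  have hflag : Flag p q := ⟨hpr _, hvp _, by
    rw [dotProduct_comm]; exact horth _ _ hwne⟩
  obtain ⟨γ₀, hγp, hγq, hiff⟩ := hBAS p q hflag
  have hcp : A *ᵥ p = l (w 0) • p := hcol _
  have hrq : q ᵥ* A = l (w 2) • q := hrow _
  have hPres : Pres A p q := ⟨⟨l (w 0), hcp⟩, ⟨l (w 2), hrq⟩⟩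
  obtain ⟨a, x, z, e, y, b, hT⟩ := (hiff A).1 hPres
  -- nonvanishing of p
  have hγdet : γ₀.1.det = 1 := γ₀.2
  have hinvL : γ₀.1.adjugate * γ₀.1 = 1 := by rw [Matrix.adjugate_mul, hγdet, one_smul]
  have hinvR : γ₀.1 * γ₀.1.adjugate = 1 := by rw [Matrix.mul_adjugate, hγdet, one_smul]
  have hTeq : !![a, x, z; 0, e, y; 0, 0, b] = γ₀.1.adjugate * A * γ₀.1 := by
    rw [Matrix.mul_assoc, hT, ← Matrix.mul_assoc, hinvL, Matrix.one_mul]
  -- the first diagonal entry
  have ha : a = l (w 0) := by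
    have h1 : (!![a, x, z; 0, e, y; 0, 0, b] : IM) *ᵥ ![1, 0, 0] = l (w 0) • ![1, 0, 0] := by
      rw [hTeq, ← Matrix.mulVec_mulVec, ← Matrix.mulVec_mulVec, hγp, hcp, Matrix.mulVec_smul,
        ← hγp, Matrix.mulVec_mulVec, hinvL, Matrix.one_mulVec]
    have h2 := congrFun h1 0
    simpa [Matrix.mulVec, dotProduct, Fin.sum_univ_three] using h2
  have hb : b = l (w 2) := by
    have h1 : ![0, 0, 1] ᵥ* (!![a, x, z; 0, e, y; 0, 0, b] : IM) = l (w 2) • ![0, 0, 1] := by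
      have h3 : q ᵥ* (γ₀.1 * !![a, x, z; 0, e, y; 0, 0, b]) = l (w 2) • ![0, 0, 1] := by
        rw [← hT, ← Matrix.vecMul_vecMul, hrq, Matrix.smul_vecMul, hγq]
      rw [← Matrix.vecMul_vecMul, hγq] at h3
      exact h3
    have h2 := congrFun h1 2
    simpa [Matrix.vecMul, dotProduct, Fin.sum_univ_three] using h2
  have he : e = l (w 1) := by
    have h1 : A.trace = a + e + b := by
      have h2 : A = γ₀.1 * !![a, x, z; 0, e, y; 0, 0, b] * γ₀.1.adjugate := by
        rw [← hT, Matrix.mul_assoc, hinvR, Matrix.mul_one]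
      rw [h2, Matrix.mul_assoc, Matrix.trace_mul_comm, Matrix.mul_assoc, hinvL, Matrix.mul_one]
      simp [Matrix.trace, Fin.sum_univ_three]
    have h2 := trace_eig hE
    have h3 : l (w 0) + l (w 1) + l (w 2) = l 0 + l 1 + l 2 := by
      have := Equiv.sum_comp w l
      simpa [Fin.sum_univ_three] using this
    rw [h1, ha, hb] at h2
    linarith
  have hT' : A * γ₀.1 = γ₀.1 * Tri (l ∘ w) x z y := by
    rw [hT, ha, hb, he]
    rfl
  have hne : ∀ i j : Fin 3, i ≠ j → (l ∘ w) i - (l ∘ w) j ≠ 0 := by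
    intro i j hij h
    exact hij (w.injective (hinj (sub_eq_zero.1 h)))
  obtain ⟨s, hs0, hs1⟩ := ex_red x _ (hne 0 1 (by decide))
  obtain ⟨r, hr0, hr1⟩ := ex_red y _ (hne 1 2 (by decide))
  obtain ⟨t, ht0, ht1⟩ := ex_red
    (z + x * r - s * (y + r * ((l ∘ w) 1 - (l ∘ w) 2))) _ (hne 0 2 (by decide))
  refine ⟨γ₀ * uni s t r, _, _, _, ?_, ⟨hs0, hs1, hr0, hr1, ht0, ht1⟩, Or.inl ?_, Or.inl ?_⟩
  · rw [Matrix.SpecialLinearGroup.coe_mul, ← Matrix.mul_assoc, hT', Matrix.mul_assoc, tri_mul,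
      Matrix.mul_assoc]
  · rw [Matrix.SpecialLinearGroup.coe_mul, ← Matrix.mulVec_mulVec]
    have h1 : (uni s t r).1 *ᵥ ![1, 0, 0] = ![1, 0, 0] := by
      funext i
      fin_cases i <;> simp [uni, Matrix.mulVec, dotProduct, Fin.sum_univ_three]
    rw [h1, hγp]
  · rw [Matrix.SpecialLinearGroup.coe_mul, ← Matrix.vecMul_vecMul, hγq]
    funext i
    fin_cases i <;> simp [uni, Matrix.vecMul, dotProduct, Fin.sum_univ_three]

end SAIL.A
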