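import Pool.Agent.SAIL.ARI.Targets

/-!
SAIL / ARI, N2: a thin position gives a short covector of the normal form.
-/

namespace SAIL.A

open Matrix MeasureTheory Filter SAIL

namespace N2x

lemma thin (hGM : tGM) (V : IM) (hV : 0 < V.det) (y : ℝ × ℝ) (η : ℝ) (hη : 0 < η)
    (h : ¬ Thick (η ^ 3) (gmat V y)) :
    ∃ n : Fin 3 → ℤ, n ≠ 0 ∧
      ∀ i, |((n ⬝ᵥ vcol V i : ℤ) : ℝ)| < η * Real.exp (pos V y i) := by
  obtain ⟨hdet, -, -, -, hinv, -⟩ := hGM V hV y
  unfold Thick at h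
  push Not at h
  obtain ⟨n, hn, hlt⟩ := h
  refine ⟨n, hn, fun i => ?_⟩
  have hadj : (gmat V y).adjugate = (gmat V y)⁻¹ := by
    rw [Matrix.inv_def, hdet]; simp
  rw [hdet, one_pow, mul_one, hadj] at hlt
  have hlt' : ‖Matrix.vecMul (fun i => (n i : ℝ)) (gmat V y)⁻¹‖ < η :=
    lt_of_pow_lt_pow_left₀ 3 hη.le hlt
  have h1 : |Matrix.vecMul (fun i => (n i : ℝ)) (gmat V y)⁻¹ i| < η := by
    refine lt_of_le_of_lt ?_ hlt'
    have := norm_le_pi_norm (Matrix.vecMul (fun i => (n i : ℝ)) (gmat V y)⁻¹) i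
    simpa [Real.norm_eq_abs] using this
  have h2 : Matrix.vecMul (fun i => (n i : ℝ)) (gmat V y)⁻¹ i =
      ((n ⬝ᵥ vcol V i : ℤ) : ℝ) * Real.exp (-pos V y i) := by
    simp only [Matrix.vecMul, dotProduct, vcol]
    push_cast
    rw [Finset.sum_mul]
    refine Finset.sum_congr rfl fun r _ => ?_
    rw [hinv r i]; ring
  rw [h2, abs_mul, abs_of_pos (Real.exp_pos _), Real.exp_neg, ← div_eq_mul_inv,
    div_lt_iff₀ (Real.exp_pos _)] at h1
  exact h1

/-- The algebra of the normal form. `U = γ⁻¹ V w`. -/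
lemma alg (hADJ : tADJ) (A V : IM) (l : Fin 3 → ℤ) (hE : Eig A V l) (w : Equiv.Perm (Fin 3))
    (γ : GZ) (a b c : ℤ) (hT : A * γ.1 = γ.1 * Tri (l ∘ w) a b c)
    (h0 : vcol V (w 0) = γ.1 *ᵥ ![1, 0, 0] ∨ vcol V (w 0) = -(γ.1 *ᵥ ![1, 0, 0]))
    (h2 : vst V (w 2) ᵥ* γ.1 = ![0, 0, 1] ∨ vst V (w 2) ᵥ* γ.1 = -![0, 0, 1]) :
    ∃ U : IM, (∀ i, γ.1 *ᵥ (vcol U i) = vcol V (w i)) ∧ |U 0 0| = 1 ∧ U 1 0 = 0 ∧ U 2 0 = 0 ∧
      U 2 1 = 0 ∧ (l (w 1) - l (w 0)) * U 0 1 = a * U 1 1 ∧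
      (l (w 2) - l (w 1)) * U 1 2 = c * U 2 2 ∧
      (l (w 2) - l (w 0)) * U 0 2 = a * U 1 2 + b * U 2 2 ∧
      |U 1 1| = cn V (w 2) ∧ (cn V (w 2) : ℤ) * |U 2 2| = V.det := by
  obtain ⟨hAV, hl01, hl12, hprim, hV⟩ := hE
  obtain ⟨hcn, -, -, hdd, -, -, -, -⟩ := hADJ V hV hprim
  set W : IM := V.submatrix id w with hW
  set U : IM := γ⁻¹.1 * W with hU
  have hγγ : γ.1 * γ⁻¹.1 = 1 := congrArg Subtype.val (mul_inv_cancel γ)
  have hγγ' : γ⁻¹.1 * γ.1 = 1 := congrArg Subtype.val (inv_mul_cancel γ)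
  have hγU : γ.1 * U = W := by
    rw [hU, ← Matrix.mul_assoc, hγγ, Matrix.one_mul]
  have hcolU : ∀ i, γ.1 *ᵥ (vcol U i) = vcol V (w i) := by
    intro i
    have : γ.1 *ᵥ (vcol U i) = fun r => (γ.1 * U) r i := by
      ext r
      simp [Matrix.mulVec, Matrix.mul_apply, dotProduct, vcol]
    rw [this, hγU]
    rfl
  have hAW : A * W = W * Matrix.diagonal (l ∘ w) := by
    ext r i
    have := congrFun (congrFun hAV r) (w i)
    rw [Matrix.mul_apply, Matrix.mul_diagonal] at this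
    rw [Matrix.mul_apply, Matrix.mul_diagonal]
    simpa [hW] using this
  have hTU : Tri (l ∘ w) a b c * U = U * Matrix.diagonal (l ∘ w) := by
    have h : γ.1 * (Tri (l ∘ w) a b c * U) = γ.1 * (U * Matrix.diagonal (l ∘ w)) := by
      rw [← Matrix.mul_assoc, ← hT, Matrix.mul_assoc, hγU, hAW, ← Matrix.mul_assoc, hγU]
    have h' := congrArg (fun X => γ⁻¹.1 * X) h
    simpa only [← Matrix.mul_assoc, hγγ', Matrix.one_mul] using h'
  have hinj : ∀ x : Fin 3 → ℤ, ∀ x' : Fin 3 → ℤ, γ.1 *ᵥ x = γ.1 *ᵥ x' → x = x' := by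
    intro x x' h
    have := congrArg (fun z => γ⁻¹.1 *ᵥ z) h
    simpa only [Matrix.mulVec_mulVec, hγγ', Matrix.one_mulVec] using this
  -- column 0
  have hc0 : vcol U 0 = ![1, 0, 0] ∨ vcol U 0 = -![1, 0, 0] := by
    rcases h0 with h | h
    · left
      apply hinj
      rw [hcolU, h]
    · right
      apply hinj
      rw [hcolU, h, Matrix.mulVec_neg]
  have hU00 : |U 0 0| = 1 := by
    rcases hc0 with h | h
    · have := congrFun h 0
      simp only [vcol, Matrix.cons_val_zero] at this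
      rw [this]; simp
    · have := congrFun h 0
      simp only [vcol, Pi.neg_apply, Matrix.cons_val_zero] at this
      rw [this]; simp
  have hU10 : U 1 0 = 0 := by
    rcases hc0 with h | h
    · have := congrFun h 1
      simpa [vcol] using this
    · have := congrFun h 1
      simpa [vcol] using this
  have hU20 : U 2 0 = 0 := by
    rcases hc0 with h | h
    · have := congrFun h 2
      simpa [vcol] using this
    · have := congrFun h 2
      simpa [vcol] using this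
  have hlne : ∀ i j : Fin 3, i ≠ j → l (w i) ≠ l (w j) := by
    have hmono : ∀ i j : Fin 3, i ≠ j → l i ≠ l j := by
      intro i j hij
      fin_cases i <;> fin_cases j <;> simp_all <;> omega
    intro i j hij
    exact hmono _ _ fun h => hij (w.injective h)
  have e21 := congrFun (congrFun hTU 2) 1
  have e01 := congrFun (congrFun hTU 0) 1
  have e12 := congrFun (congrFun hTU 1) 2
  have e02 := congrFun (congrFun hTU 0) 2
  rw [Matrix.mul_apply, Matrix.mul_diagonal, Fin.sum_univ_three] at e21 e01 e12 e02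
  simp only [Tri, Matrix.of_apply, Matrix.cons_val', Matrix.cons_val_zero, Matrix.cons_val_one,
    Matrix.cons_val, Function.comp_apply, zero_mul, zero_add] at e21 e01 e12 e02
  have hU21 : U 2 1 = 0 := by
    have h : (l (w 2) - l (w 1)) * U 2 1 = 0 := by linear_combination e21
    rcases mul_eq_zero.1 h with h | h
    · exact absurd (sub_eq_zero.1 h) (hlne 2 1 (by decide))
    · exact h
  -- determinant
  have hdetU : |U.det| = V.det := by
    have h1 : U.det = W.det := by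
      rw [hU, Matrix.det_mul, γ⁻¹.2, one_mul]
    rw [h1, hW, Matrix.det_permute', abs_mul]
    have : |((Equiv.Perm.sign w : ℤˣ) : ℤ)| = 1 := by
      rcases Int.units_eq_one_or (Equiv.Perm.sign w) with h | h <;> simp [h]
    rw [Int.cast_id, this, one_mul, abs_of_pos hV]
  have hdetU' : U.det = U 0 0 * (U 1 1 * U 2 2) := by
    rw [Matrix.det_fin_three, hU10, hU20, hU21]; ring
  have hprod : |U 1 1| * |U 2 2| = V.det := by
    rw [← hdetU, hdetU', abs_mul, abs_mul, hU00, one_mul]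
  -- third coordinate
  have h22 : (cn V (w 2) : ℤ) * |U 2 2| = V.det := by
    have h3 : vst V (w 2) ⬝ᵥ vcol V (w 2) = (vst V (w 2) ᵥ* γ.1) ⬝ᵥ vcol U 2 := by
      rw [← hcolU 2, Matrix.dotProduct_mulVec]
    have h4 := hdd (w 2)
    rw [h3] at h4
    have h5 : (![0, 0, 1] : Fin 3 → ℤ) ⬝ᵥ vcol U 2 = U 2 2 := by
      simp [dotProduct, Fin.sum_univ_three, vcol]
    have h6 : |(cn V (w 2) : ℤ) * U 2 2| = V.det := by
      rcases h2 with h | h
      · rw [h, h5] at h4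
        rw [h4, abs_of_pos hV]
      · rw [h, neg_dotProduct, h5, mul_neg] at h4
        rw [← abs_neg, h4, abs_of_pos hV]
    rw [abs_mul, abs_of_nonneg (by positivity : (0 : ℤ) ≤ cn V (w 2))] at h6
    exact h6
  have hU22 : 0 < |U 2 2| := by
    rcases (abs_nonneg (U 2 2)).lt_or_eq with h | h
    · exact h
    · rw [← h, mul_zero] at h22; omega
  have hU11 : |U 1 1| = cn V (w 2) := by
    have : |U 1 1| * |U 2 2| = (cn V (w 2) : ℤ) * |U 2 2| := by rw [hprod, h22]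
    exact mul_right_cancel₀ hU22.ne' this
  refine ⟨U, hcolU, hU00, hU10, hU20, hU21, ?_, ?_, ?_, hU11, h22⟩
  · rw [hU21] at e01
    linear_combination (-1 : ℤ) * e01
  · linear_combination (-1 : ℤ) * e12
  · linear_combination (-1 : ℤ) * e02

end N2x

theorem p_N2 (hADJ : tADJ) (hGM : tGM) : tN2 := by
  intro A V l hE w γ a b c hT h0 h2 y η hη hthin
  obtain ⟨n, hn, hsmall⟩ := N2x.thin hGM V hE.2.2.2.2 y η hη hthin
  obtain ⟨U, hcol, hU00, hU10, hU20, hU21, r1, r2, r3, hU11, hU22⟩ :=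
    N2x.alg hADJ A V l hE w γ a b c hT h0 h2
  have hV := hE.2.2.2.2
  have hcnpos : 0 < cn V (w 2) := (hADJ V hV hE.2.2.2.1).1 (w 2)
  set n' : Fin 3 → ℤ := n ᵥ* γ.1 with hn'
  have hdot : ∀ i, n ⬝ᵥ vcol V (w i) = n' ⬝ᵥ vcol U i := by
    intro i
    rw [hn', ← hcol i, Matrix.dotProduct_mulVec]
  have hn'0 : n' ≠ 0 := by
    intro h
    apply hn
    have hγγ : γ.1 * γ⁻¹.1 = 1 := congrArg Subtype.val (mul_inv_cancel γ)
    have : n ᵥ* (γ.1 * γ⁻¹.1) = 0 := by
      rw [← Matrix.vecMul_vecMul, ← hn', h, Matrix.zero_vecMul]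
    rwa [hγγ, Matrix.vecMul_one] at this
  have hsum : pos V y 0 + pos V y 1 + pos V y 2 = Real.log V.det := by
    simp [pos]
  have hsumw : pos V y (w 0) + pos V y (w 1) + pos V y (w 2) = Real.log V.det := by
    have h := Equiv.sum_comp w (pos V y)
    rw [Fin.sum_univ_three, Fin.sum_univ_three] at h
    rw [h, hsum]
  have hVr : (0 : ℝ) < (V.det : ℝ) := by exact_mod_cast hV
  have hcr : (0 : ℝ) < (cn V (w 2) : ℝ) := by exact_mod_cast hcnpos
  -- exponentials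
  have hR3 : Real.exp (dpos V y (w 2)) * (cn V (w 2) : ℝ) * Real.exp (pos V y (w 2)) = V.det := by
    unfold dpos
    rw [Real.exp_sub, Real.exp_sub, Real.exp_log hVr, Real.exp_log hcr]
    field_simp
  have hP : Real.exp (pos V y (w 0)) * Real.exp (pos V y (w 1)) * Real.exp (pos V y (w 2)) =
      V.det := by
    rw [← Real.exp_add, ← Real.exp_add, hsumw, Real.exp_log hVr]
  have hR31 : Real.exp (dpos V y (w 2)) * (cn V (w 2) : ℝ) =
      Real.exp (pos V y (w 0)) * Real.exp (pos V y (w 1)) := by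
    have := hR3.trans hP.symm
    exact mul_right_cancel₀ (Real.exp_pos _).ne' this
  have d0 : n' ⬝ᵥ vcol U 0 = n' 0 * U 0 0 := by
    simp [dotProduct, Fin.sum_univ_three, vcol, hU10, hU20]
  have d1 : n' ⬝ᵥ vcol U 1 = n' 0 * U 0 1 + n' 1 * U 1 1 := by
    simp [dotProduct, Fin.sum_univ_three, vcol, hU21]
  have d2 : n' ⬝ᵥ vcol U 2 = n' 0 * U 0 2 + n' 1 * U 1 2 + n' 2 * U 2 2 := by
    simp [dotProduct, Fin.sum_univ_three, vcol]
  have s0 := hsmall (w 0)
  have s1 := hsmall (w 1)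
  have s2 := hsmall (w 2)
  rw [hdot 0, d0] at s0
  rw [hdot 1, d1] at s1
  rw [hdot 2, d2] at s2
  have hlne : ∀ i j : Fin 3, i ≠ j → l (w i) ≠ l (w j) := by
    have hl01 := hE.2.1
    have hl12 := hE.2.2.1
    have hmono : ∀ i j : Fin 3, i ≠ j → l i ≠ l j := by
      intro i j hij
      fin_cases i <;> fin_cases j <;> simp_all <;> omega
    intro i j hij
    exact hmono _ _ fun h => hij (w.injective h)
  refine ⟨n', hn'0, ?_, ?_, ?_⟩
  · have h : |((n' 0 * U 0 0 : ℤ) : ℝ)| = |(n' 0 : ℝ)| := by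
      have : |n' 0 * U 0 0| = |n' 0| := by rw [abs_mul, hU00, mul_one]
      exact_mod_cast congrArg (fun z : ℤ => (z : ℝ)) this
    rw [h] at s0
    exact s0.le
  · simp only [Function.comp_apply]
    -- key identity
    have key : (n' 1 * (l (w 0) - l (w 1)) - n' 0 * a) * U 1 1 =
        -((l (w 1) - l (w 0)) * (n' 0 * U 0 1 + n' 1 * U 1 1)) := by
      linear_combination (n' 0) * r1
    have key' : |n' 1 * (l (w 0) - l (w 1)) - n' 0 * a| * (cn V (w 2) : ℤ) =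
        |l (w 0) - l (w 1)| * |n' 0 * U 0 1 + n' 1 * U 1 1| := by
      rw [← hU11, ← abs_mul, key, abs_neg, abs_mul, abs_sub_comm]
    have key'' : |((n' 1 * (l (w 0) - l (w 1)) - n' 0 * a : ℤ) : ℝ)| * (cn V (w 2) : ℝ) =
        |((l (w 0) - l (w 1) : ℤ) : ℝ)| * |((n' 0 * U 0 1 + n' 1 * U 1 1 : ℤ) : ℝ)| := by
      exact_mod_cast congrArg (fun z : ℤ => (z : ℝ)) key'
    rw [le_div_iff₀ (Real.exp_pos _)]
    refine le_of_mul_le_mul_right ?_ hcr
    calc |((n' 1 * (l (w 0) - l (w 1)) - n' 0 * a : ℤ) : ℝ)| * Real.exp (pos V y (w 0)) *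
          (cn V (w 2) : ℝ)
        = |((l (w 0) - l (w 1) : ℤ) : ℝ)| * |((n' 0 * U 0 1 + n' 1 * U 1 1 : ℤ) : ℝ)| *
          Real.exp (pos V y (w 0)) := by rw [← key'']; ring
      _ ≤ |((l (w 0) - l (w 1) : ℤ) : ℝ)| * (η * Real.exp (pos V y (w 1))) *
          Real.exp (pos V y (w 0)) := by gcongr
      _ = η * |((l (w 0) - l (w 1) : ℤ) : ℝ)| *
          (Real.exp (pos V y (w 0)) * Real.exp (pos V y (w 1))) := by ring
      _ = η * |((l (w 0) - l (w 1) : ℤ) : ℝ)| * Real.exp (dpos V y (w 2)) *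
          (cn V (w 2) : ℝ) := by rw [← hR31]; ring
  · simp only [Function.comp_apply]
    have g1 : ((l (w 2) - l (w 1) : ℤ) : ℝ) ≠ 0 := by
      exact_mod_cast sub_ne_zero.2 (hlne 2 1 (by decide))
    have g0 : ((l (w 2) - l (w 0) : ℤ) : ℝ) ≠ 0 := by
      exact_mod_cast sub_ne_zero.2 (hlne 2 0 (by decide))
    have hUr : |(U 2 2 : ℝ)| * (cn V (w 2) : ℝ) = V.det := by
      have h := congrArg (Int.cast : ℤ → ℝ) hU22
      rw [Int.cast_mul, Int.cast_abs, Int.cast_natCast] at h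
      rw [mul_comm]; exact h
    have hU2ne : (U 2 2 : ℝ) ≠ 0 := by
      intro h
      rw [h, abs_zero, zero_mul] at hUr
      exact hVr.ne hUr
    have r2' : ((l (w 2) - l (w 1) : ℤ) : ℝ) * (U 1 2 : ℝ) = c * U 2 2 := by exact_mod_cast r2
    have r3' : ((l (w 2) - l (w 0) : ℤ) : ℝ) * (U 0 2 : ℝ) = a * U 1 2 + b * U 2 2 := by
      exact_mod_cast r3
    have hY : (c : ℝ) / ((l (w 2) - l (w 1) : ℤ) : ℝ) = (U 1 2 : ℝ) / U 2 2 := by
      rw [div_eq_div_iff g1 hU2ne]; linear_combination (-1 : ℝ) * r2'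
    have hX : ((b : ℝ) + a * (c / ((l (w 2) - l (w 1) : ℤ) : ℝ))) /
        ((l (w 2) - l (w 0) : ℤ) : ℝ) = (U 0 2 : ℝ) / U 2 2 := by
      rw [hY, div_eq_div_iff g0 hU2ne]
      field_simp
      linear_combination (-1 : ℝ) * r3'
    rw [hX, hY]
    have e1 : (n' 0 : ℝ) * ((U 0 2 : ℝ) / U 2 2) + n' 1 * ((U 1 2 : ℝ) / U 2 2) + n' 2 =
        ((n' 0 * U 0 2 + n' 1 * U 1 2 + n' 2 * U 2 2 : ℤ) : ℝ) / U 2 2 := by
      push_cast
      field_simp
    rw [e1, abs_div, div_le_div_iff₀ (abs_pos.2 hU2ne) (Real.exp_pos _)]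
    refine le_of_mul_le_mul_right ?_ hcr
    calc |((n' 0 * U 0 2 + n' 1 * U 1 2 + n' 2 * U 2 2 : ℤ) : ℝ)| *
          Real.exp (dpos V y (w 2)) * (cn V (w 2) : ℝ)
        ≤ (η * Real.exp (pos V y (w 2))) * Real.exp (dpos V y (w 2)) * (cn V (w 2) : ℝ) := by
          gcongr
      _ = η * (Real.exp (dpos V y (w 2)) * (cn V (w 2) : ℝ) * Real.exp (pos V y (w 2))) := by
          ring
      _ = η * |(U 2 2 : ℝ)| * (cn V (w 2) : ℝ) := by rw [hR3, ← hUr]; ring

end SAIL.A
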