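import Pool.Agent.SAIL.ARI.Targets

namespace SAIL.A.N3x

open Finset

/-- the nonzero integers of absolute value at most `N` -/
noncomputable def ds (N : ℕ) : Finset ℤ := (Icc (-(N : ℤ)) N).erase 0

lemma mem_ds {N : ℕ} {x : ℤ} : x ∈ ds N ↔ x ≠ 0 ∧ |x| ≤ N := by
  simp [ds, abs_le]

lemma card_ds (N : ℕ) : (ds N).card = 2 * N := by
  rw [ds, card_erase_of_mem (by simp), Int.card_Icc]; omega

lemma card_dvd (N g : ℕ) (hg : 0 < g) :
    (((ds N).filter (fun x => (g : ℤ) ∣ x)).card : ℝ) ≤ 2 * N / g := by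
  have h : ((ds N).filter (fun x => (g : ℤ) ∣ x)).card ≤ (ds (N / g)).card := by
    apply card_le_card_of_injOn (fun x : ℤ => x / (g : ℤ))
    · intro x hx
      simp only [coe_filter, Set.mem_ofPred_eq, mem_ds] at hx
      obtain ⟨⟨h0, h1⟩, k, rfl⟩ := hx
      have hg' : (g : ℤ) ≠ 0 := by exact_mod_cast hg.ne'
      simp only [mem_coe, mem_ds]
      rw [Int.mul_ediv_cancel_left _ hg']
      refine ⟨fun h => h0 (by simp [h]), ?_⟩
      rw [abs_mul, abs_of_nonneg (by positivity : (0 : ℤ) ≤ g)] at h1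
      push_cast
      rw [Int.le_ediv_iff_mul_le (by exact_mod_cast hg)]
      linarith
    · intro x hx y hy hxy
      simp only [coe_filter, Set.mem_ofPred_eq, mem_ds] at hx hy
      obtain ⟨_, k, rfl⟩ := hx
      obtain ⟨_, k', rfl⟩ := hy
      have hg' : (g : ℤ) ≠ 0 := by exact_mod_cast hg.ne'
      simp only at hxy
      rw [Int.mul_ediv_cancel_left _ hg', Int.mul_ediv_cancel_left _ hg'] at hxy
      rw [hxy]
  rw [card_ds] at h
  have h2 : ((N / g : ℕ) : ℝ) ≤ (N : ℝ) / g := Nat.cast_div_le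
  calc (((ds N).filter (fun x => (g : ℤ) ∣ x)).card : ℝ) ≤ ((2 * (N / g) : ℕ) : ℝ) := by
        exact_mod_cast h
    _ = 2 * ((N / g : ℕ) : ℝ) := by push_cast; ring
    _ ≤ 2 * ((N : ℝ) / g) := by linarith
    _ = 2 * N / g := by ring

lemma gcd_le_sum {N : ℕ} {n D : ℤ} (hn : n ∈ ds N) :
    (Int.gcd n D : ℝ) ≤ ∑ g ∈ Ioc 0 N, if ((g : ℤ) ∣ n ∧ (g : ℤ) ∣ D) then (g : ℝ) else 0 := by
  rw [mem_ds] at hn
  have hpos : 0 < Int.gcd n D := Int.gcd_pos_of_ne_zero_left _ hn.1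
  have hle : Int.gcd n D ≤ N := by
    have h1 : Int.gcd n D ≤ n.natAbs :=
      Nat.le_of_dvd (Int.natAbs_pos.2 hn.1) (Int.gcd_dvd_natAbs_left n D)
    have h2 : (n.natAbs : ℤ) ≤ N := by rw [Int.natCast_natAbs]; exact hn.2
    have h3 : n.natAbs ≤ N := by exact_mod_cast h2
    exact h1.trans h3
  have := single_le_sum (f := fun g : ℕ => if ((g : ℤ) ∣ n ∧ (g : ℤ) ∣ D) then (g : ℝ) else 0)
    (s := Ioc 0 N) (fun g _ => by split_ifs <;> positivity)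
    (mem_Ioc.2 ⟨hpos, hle⟩)
  refine le_trans (le_of_eq ?_) this
  rw [if_pos ⟨Int.gcd_dvd_left .., Int.gcd_dvd_right ..⟩]

lemma gcdsum (N M : ℕ) :
    ∑ n ∈ ds N, ∑ D ∈ ds M, (Int.gcd n D : ℝ) ≤ 4 * N * M * (1 + Real.log N) := by
  have h1 : ∑ n ∈ ds N, ∑ D ∈ ds M, (Int.gcd n D : ℝ) ≤
      ∑ n ∈ ds N, ∑ D ∈ ds M, ∑ g ∈ Ioc 0 N,
        if ((g : ℤ) ∣ n ∧ (g : ℤ) ∣ D) then (g : ℝ) else 0 := by
    apply sum_le_sum; intro n hn; apply sum_le_sum; intro D _; exact gcd_le_sum hn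
  have h2 : ∑ n ∈ ds N, ∑ D ∈ ds M, ∑ g ∈ Ioc 0 N,
        (if ((g : ℤ) ∣ n ∧ (g : ℤ) ∣ D) then (g : ℝ) else 0) =
      ∑ g ∈ Ioc 0 N, (g : ℝ) * ((ds N).filter (fun x => (g : ℤ) ∣ x)).card *
        ((ds M).filter (fun x => (g : ℤ) ∣ x)).card := by
    calc _ = ∑ n ∈ ds N, ∑ g ∈ Ioc 0 N, ∑ D ∈ ds M,
          (if ((g : ℤ) ∣ n ∧ (g : ℤ) ∣ D) then (g : ℝ) else 0) := by
          apply sum_congr rfl; intro n _; exact sum_comm
      _ = ∑ g ∈ Ioc 0 N, ∑ n ∈ ds N, ∑ D ∈ ds M,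
          (if ((g : ℤ) ∣ n ∧ (g : ℤ) ∣ D) then (g : ℝ) else 0) := sum_comm
      _ = _ := by
          apply sum_congr rfl
          intro g _
          rw [card_filter, card_filter]
          push_cast
          rw [mul_assoc, sum_mul_sum, mul_sum]
          apply sum_congr rfl
          intro n _
          rw [mul_sum]
          apply sum_congr rfl
          intro D _
          by_cases hA : (g : ℤ) ∣ n <;> by_cases hB : (g : ℤ) ∣ D <;> simp [hA, hB]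
  rw [h2] at h1
  refine h1.trans ?_
  have h3 : ∑ g ∈ Ioc 0 N, (g : ℝ) * ((ds N).filter (fun x => (g : ℤ) ∣ x)).card *
        ((ds M).filter (fun x => (g : ℤ) ∣ x)).card ≤
      ∑ g ∈ Ioc 0 N, 4 * (N : ℝ) * M * ((g : ℝ)⁻¹) := by
    apply sum_le_sum
    intro g hg
    have hg0 : 0 < g := (mem_Ioc.1 hg).1
    have hgr : (0 : ℝ) < g := by exact_mod_cast hg0
    have hN := card_dvd N g hg0
    have hM := card_dvd M g hg0
    calc (g : ℝ) * ((ds N).filter (fun x => (g : ℤ) ∣ x)).card *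
        ((ds M).filter (fun x => (g : ℤ) ∣ x)).card
        ≤ (g : ℝ) * (2 * N / g) * (2 * M / g) := by gcongr
      _ = 4 * (N : ℝ) * M * ((g : ℝ)⁻¹) := by field_simp; ring
  refine h3.trans ?_
  rw [← mul_sum]
  have h4 : ∑ g ∈ Ioc 0 N, ((g : ℝ)⁻¹) ≤ 1 + Real.log N := by
    have := harmonic_le_one_add_log N
    refine le_trans (le_of_eq ?_) this
    rw [harmonic_eq_sum_Icc]
    push_cast
    rfl
  gcongr

lemma card_int_interval (x y : ℝ) (hxy : x ≤ y) : ((Icc ⌈x⌉ ⌊y⌋).card : ℝ) ≤ y - x + 1 := by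
  rw [Int.card_Icc]
  rcases le_or_gt (⌊y⌋ + 1 - ⌈x⌉) 0 with h | h
  · rw [Int.toNat_of_nonpos h]; simp; linarith
  · have h2 : (((⌊y⌋ + 1 - ⌈x⌉).toNat : ℤ) : ℝ) = ((⌊y⌋ + 1 - ⌈x⌉ : ℤ) : ℝ) := by
      rw [Int.toNat_of_nonneg h.le]
    have h3 : (((⌊y⌋ + 1 - ⌈x⌉).toNat : ℕ) : ℝ) = ((⌊y⌋ + 1 - ⌈x⌉ : ℤ) : ℝ) := by
      exact_mod_cast h2
    rw [h3]
    push_cast
    have := Int.floor_le y
    have := Int.le_ceil x
    linarith

/-- The fact on pairs. -/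
lemma pairs (n D : ℤ) (hD : D ≠ 0) (θ lam : ℝ) (hl : 0 ≤ lam) (P : Finset (ℤ × ℤ))
    (hP : ∀ p ∈ P, 0 ≤ p.1 ∧ p.1 < |D| ∧ |(n : ℝ) * p.1 + p.2 * D + θ| ≤ lam) :
    (P.card : ℝ) ≤ Int.gcd n D + 2 * lam := by
  have hg : 0 < Int.gcd n D := Int.gcd_pos_of_ne_zero_right _ hD
  obtain ⟨n', D', hcop, hn, hDd⟩ := Int.exists_gcd_one hg
  set g : ℕ := Int.gcd n D with hgdef
  clear_value g
  have hgz : (0 : ℤ) < g := by exact_mod_cast hg
  have hgr : (0 : ℝ) < g := by exact_mod_cast hg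
  have hD' : D' ≠ 0 := by
    rintro rfl
    apply hD
    rw [hDd]; simp
  have hDa : 0 < |D'| := abs_pos.2 hD'
  have habs : |D| = |D'| * g := by rw [hDd, abs_mul, abs_of_pos hgz]
  have hcop' : IsCoprime n' D' := Int.isCoprime_iff_gcd_eq_one.2 hcop
  -- the map
  have hcard : P.card ≤ (Icc ⌈(-lam - θ) / g⌉ ⌊(lam - θ) / g⌋ ×ˢ Ico (0 : ℤ) g).card := by
    apply card_le_card_of_injOn (fun p : ℤ × ℤ => (n' * p.1 + p.2 * D', p.1 / |D'|))
    · intro p hp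
      obtain ⟨h0, h1, h2⟩ := hP p (mem_coe.1 hp)
      have h3 : (n : ℝ) * p.1 + p.2 * D + θ = g * ((n' * p.1 + p.2 * D' : ℤ) : ℝ) + θ := by
        rw [hn, hDd]; push_cast; ring
      rw [h3, abs_le] at h2
      simp only [mem_coe, mem_product, mem_Icc, mem_Ico]
      refine ⟨⟨?_, ?_⟩, ?_, ?_⟩
      · rw [Int.ceil_le, div_le_iff₀ hgr]
        linarith
      · rw [Int.le_floor, le_div_iff₀ hgr]
        linarith
      · exact Int.ediv_nonneg h0 hDa.le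
      · rw [Int.ediv_lt_iff_lt_mul hDa]
        rw [habs] at h1
        linarith
    · intro p hp q hq hpq
      obtain ⟨h0, h1, h2⟩ := hP p (mem_coe.1 hp)
      obtain ⟨k0, k1, k2⟩ := hP q (mem_coe.1 hq)
      simp only [Prod.mk.injEq] at hpq
      obtain ⟨e1, e2⟩ := hpq
      have hdvd : D' ∣ p.1 - q.1 := by
        have : D' ∣ n' * (p.1 - q.1) := ⟨q.2 - p.2, by linarith⟩
        exact (hcop'.symm).dvd_of_dvd_mul_left this
      have hdvd' : |D'| ∣ p.1 - q.1 := (abs_dvd _ _).2 hdvd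
      have hmod : p.1 % |D'| = q.1 % |D'| := Int.ModEq.symm ((Int.modEq_iff_dvd).2 hdvd')
      have hfst : p.1 = q.1 := by
        rw [← Int.emod_add_mul_ediv p.1 |D'|, ← Int.emod_add_mul_ediv q.1 |D'|, e2, hmod]
      have hsnd : p.2 = q.2 := by
        rw [hfst] at e1
        have : p.2 * D' = q.2 * D' := by linarith
        exact mul_right_cancel₀ hD' this
      exact Prod.ext hfst hsnd
  rw [card_product, Int.card_Ico] at hcard
  have hxy : (-lam - θ) / g ≤ (lam - θ) / g := by gcongr; linarith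
  have hint := card_int_interval _ _ hxy
  have hc2 : (P.card : ℝ) ≤ ((Icc ⌈(-lam - θ) / g⌉ ⌊(lam - θ) / g⌋).card : ℝ) * g := by
    have h5 : ((g : ℤ) - 0).toNat = g := by simp
    rw [h5] at hcard
    exact_mod_cast hcard
  calc (P.card : ℝ) ≤ ((Icc ⌈(-lam - θ) / g⌉ ⌊(lam - θ) / g⌋).card : ℝ) * g := hc2
    _ ≤ ((lam - θ) / g - (-lam - θ) / g + 1) * g := by gcongr
    _ = g + 2 * lam := by field_simp; ring

/-- The data. -/
abbrev TT := (Fin 3 → ℤ) × ℤ × ℤ × ℤ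

lemma caseA (m : ℕ) (η R₁ R₃ : ℝ) (hη : 0 < η) (hR1 : 1 ≤ R₁) (hR3 : 1 ≤ R₃)
    (hη1 : η < 1) (S : Finset TT) (nf : TT → (Fin 3 → ℤ))
    (hS : ∀ T ∈ S, (∀ i, |T.1 i| ≤ m) ∧ T.1 0 ≠ T.1 1 ∧ T.1 1 ≠ T.1 2 ∧ T.1 0 ≠ T.1 2 ∧
      Red T.1 T.2.1 T.2.2.1 T.2.2.2 ∧
      nf T ≠ 0 ∧ Short T.1 T.2.1 T.2.2.1 T.2.2.2 (nf T) R₁ R₃ η ∧ nf T 0 = 0) :
    (S.card : ℝ) ≤ (2 * m + 1) ^ 2 * (2 * m) ^ 2 *
      ∑ n ∈ ds ⌊η * R₃ / R₁⌋₊, ∑ G ∈ ds (2 * m), ((Int.gcd n G : ℝ) + 4 * η * m / R₃) := by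
  set Bx : Finset ℤ := Icc (-(m : ℤ)) m with hBx
  set I : Finset ℤ := Ico 0 (2 * (m : ℤ)) with hI
  set f : TT → ((ℤ × ℤ) × (ℤ × ℤ)) × (ℤ × ℤ) := fun T =>
    (((T.1 0, T.1 2), (T.2.1, T.2.2.1)), (nf T 1, T.1 1 - T.1 2)) with hf
  set X := ((Bx ×ˢ Bx) ×ˢ (I ×ˢ I)) ×ˢ (ds ⌊η * R₃ / R₁⌋₊ ×ˢ ds (2 * m)) with hX
  have hR1' : 0 < R₁ := by linarith
  have hR3' : 0 < R₃ := by linarith
  have hmaps : (S : Set TT).MapsTo f (X : Set _) := by
    intro T hT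
    obtain ⟨hm, h01, h12, h02, hred, hne, ⟨s1, s2, s3⟩, hn0⟩ := hS T (mem_coe.1 hT)
    obtain ⟨ra, ra', rc, rc', rb, rb'⟩ := hred
    have m0 := abs_le.1 (hm 0)
    have m1 := abs_le.1 (hm 1)
    have m2 := abs_le.1 (hm 2)
    have e01 : |T.1 0 - T.1 1| ≤ 2 * (m : ℤ) := abs_le.2 ⟨by linarith, by linarith⟩
    have e12 : |T.1 1 - T.1 2| ≤ 2 * (m : ℤ) := abs_le.2 ⟨by linarith, by linarith⟩
    have e02 : |T.1 0 - T.1 2| ≤ 2 * (m : ℤ) := abs_le.2 ⟨by linarith, by linarith⟩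
    have hn1 : nf T 1 ≠ 0 := by
      intro h1
      rw [hn0, h1] at s3
      simp only [Int.cast_zero, zero_mul, zero_add] at s3
      have h2 : η / R₃ < 1 := by rw [div_lt_one hR3']; linarith
      have h3 : |((nf T 2 : ℤ) : ℝ)| < 1 := lt_of_le_of_lt s3 h2
      have h4 : |nf T 2| < 1 := by exact_mod_cast h3
      have h5 : nf T 2 = 0 := Int.abs_lt_one_iff.1 h4
      apply hne
      funext i
      fin_cases i
      · exact hn0
      · exact h1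
      · exact h5
    have hn1' : |nf T 1| ≤ ((⌊η * R₃ / R₁⌋₊ : ℕ) : ℤ) := by
      rw [hn0] at s2
      simp only [zero_mul, sub_zero] at s2
      push_cast at s2
      rw [abs_mul] at s2
      have hD : 0 < |((T.1 0 : ℝ) - (T.1 1 : ℝ))| := by
        rw [abs_pos, sub_ne_zero]
        exact_mod_cast h01
      have h6 : |(nf T 1 : ℝ)| ≤ η * R₃ / R₁ := by
        have : |(nf T 1 : ℝ)| * |((T.1 0 : ℝ) - (T.1 1 : ℝ))| ≤
            (η * R₃ / R₁) * |((T.1 0 : ℝ) - (T.1 1 : ℝ))| := by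
          refine s2.trans (le_of_eq ?_)
          ring
        exact le_of_mul_le_mul_right this hD
      have h7 : ((nf T 1).natAbs : ℝ) ≤ η * R₃ / R₁ := by
        rw [Nat.cast_natAbs, Int.cast_abs]; exact h6
      have h8 : (nf T 1).natAbs ≤ ⌊η * R₃ / R₁⌋₊ := Nat.le_floor h7
      rw [Int.abs_eq_natAbs]
      exact_mod_cast h8
    simp only [hf, hX, hBx, hI, mem_coe, mem_product, mem_Icc, mem_Ico, mem_ds]
    refine ⟨⟨⟨⟨m0.1, m0.2⟩, m2.1, m2.2⟩, ⟨ra, by linarith⟩, rb, by linarith⟩,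
      ⟨hn1, hn1'⟩, sub_ne_zero.2 h12, ?_⟩
    push_cast
    exact e12
  have hcount := card_eq_sum_card_fiberwise hmaps
  have hfib : ∀ x ∈ X, ((S.filter (fun T => f T = x)).card : ℝ) ≤
      (Int.gcd x.2.1 x.2.2 : ℝ) + 4 * η * m / R₃ := by
    intro x hx
    simp only [hX, mem_product, mem_ds] at hx
    obtain ⟨_, ⟨_, _⟩, hG0, hG1⟩ := hx
    set F := S.filter (fun T => f T = x) with hF
    set h : TT → ℤ × ℤ := fun T => (T.2.2.2, nf T 2) with hh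
    have hinj : Set.InjOn h (F : Set TT) := by
      intro T hT T' hT' heq
      simp only [hF, coe_filter, Set.mem_ofPred_eq] at hT hT'
      have e1 : f T = f T' := hT.2.trans hT'.2.symm
      simp only [hf, Prod.mk.injEq] at e1
      simp only [hh, Prod.mk.injEq] at heq
      obtain ⟨⟨⟨a0, a2⟩, aa, ab⟩, _, a12⟩ := e1
      refine Prod.ext ?_ (Prod.ext aa (Prod.ext ab heq.1))
      funext i
      fin_cases i
      · exact a0
      · show T.1 1 = T'.1 1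
        linarith
      · exact a2
    have hcardF : F.card = (F.image h).card := (card_image_of_injOn hinj).symm
    have hp := pairs x.2.1 (-x.2.2) (neg_ne_zero.2 hG0) 0 (η * |(x.2.2 : ℝ)| / R₃)
      (by positivity) (F.image h) (by
        intro p hp
        obtain ⟨T, hT, rfl⟩ := mem_image.1 hp
        simp only [hF, mem_filter] at hT
        obtain ⟨hTS, hTx⟩ := hT
        obtain ⟨hm, h01, h12, h02, hred, hne, ⟨s1, s2, s3⟩, hn0⟩ := hS T hTS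
        obtain ⟨ra, ra', rc, rc', rb, rb'⟩ := hred
        have hx1 : x.2.1 = nf T 1 := by rw [← hTx]
        have hx2 : x.2.2 = T.1 1 - T.1 2 := by rw [← hTx]
        rw [hx1, hx2]
        refine ⟨rc, ?_, ?_⟩
        · rw [abs_neg]; exact rc'
        · rw [hn0] at s3
          simp only [Int.cast_zero, zero_mul, zero_add] at s3
          have hG' : ((T.1 2 - T.1 1 : ℤ) : ℝ) ≠ 0 := by
            have : T.1 2 - T.1 1 ≠ 0 := sub_ne_zero.2 (Ne.symm h12)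
            exact_mod_cast this
          have key : (nf T 1 : ℝ) * (T.2.2.2 : ℝ) + (nf T 2 : ℝ) * ((-(T.1 1 - T.1 2) : ℤ) : ℝ) + 0 =
              ((T.1 2 - T.1 1 : ℤ) : ℝ) *
                ((nf T 1 : ℝ) * ((T.2.2.2 : ℝ) / ((T.1 2 - T.1 1 : ℤ) : ℝ)) + (nf T 2 : ℝ)) := by
            have e3 : ((-(T.1 1 - T.1 2) : ℤ) : ℝ) = ((T.1 2 - T.1 1 : ℤ) : ℝ) := by
              push_cast; ring
            rw [e3]
            field_simp
            ring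
          show |(nf T 1 : ℝ) * (T.2.2.2 : ℝ) + (nf T 2 : ℝ) * ((-(T.1 1 - T.1 2) : ℤ) : ℝ) + 0| ≤ _
          rw [key, abs_mul]
          have e4 : |((T.1 2 - T.1 1 : ℤ) : ℝ)| = |((T.1 1 - T.1 2 : ℤ) : ℝ)| := by
            rw [← abs_neg]; congr 1; push_cast; ring
          rw [e4]
          calc |((T.1 1 - T.1 2 : ℤ) : ℝ)| * _ ≤ |((T.1 1 - T.1 2 : ℤ) : ℝ)| * (η / R₃) := by
                gcongr
            _ = η * |((T.1 1 - T.1 2 : ℤ) : ℝ)| / R₃ := by ring)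
    rw [← hcardF, Int.gcd_neg] at hp
    refine hp.trans ?_
    have h9 : |(x.2.2 : ℝ)| ≤ 2 * m := by
      have : ((|x.2.2| : ℤ) : ℝ) ≤ ((2 * m : ℕ) : ℤ) := by exact_mod_cast hG1
      rw [Int.cast_abs] at this
      refine this.trans (le_of_eq ?_)
      push_cast; ring
    have h10 : 2 * (η * |(x.2.2 : ℝ)| / R₃) ≤ 4 * η * m / R₃ := by
      calc 2 * (η * |(x.2.2 : ℝ)| / R₃) ≤ 2 * (η * (2 * m) / R₃) := by gcongr
        _ = 4 * η * m / R₃ := by ring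
    linarith
  have hBc : (Bx.card : ℝ) = 2 * m + 1 := by
    rw [hBx, Int.card_Icc]
    have : ((m : ℤ) + 1 - -(m : ℤ)).toNat = 2 * m + 1 := by omega
    rw [this]; push_cast; ring
  have hIc : (I.card : ℝ) = 2 * m := by
    rw [hI, Int.card_Ico]
    have : (2 * (m : ℤ) - 0).toNat = 2 * m := by omega
    rw [this]; push_cast; ring
  calc (S.card : ℝ) = ∑ x ∈ X, ((S.filter (fun T => f T = x)).card : ℝ) := by
        rw [hcount]; push_cast; rfl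
    _ ≤ ∑ x ∈ X, ((Int.gcd x.2.1 x.2.2 : ℝ) + 4 * η * m / R₃) := sum_le_sum hfib
    _ = (2 * m + 1) ^ 2 * (2 * m) ^ 2 *
      ∑ n ∈ ds ⌊η * R₃ / R₁⌋₊, ∑ G ∈ ds (2 * m), ((Int.gcd n G : ℝ) + 4 * η * m / R₃) := by
        rw [hX, sum_product]
        simp only
        rw [sum_const, sum_product, card_product, card_product, card_product, nsmul_eq_mul]
        push_cast
        rw [hBc, hIc]
        ring

lemma caseB (m : ℕ) (η R₁ R₃ : ℝ) (hη : 0 < η) (hR1 : 1 ≤ R₁) (hR3 : 1 ≤ R₃)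
    (S : Finset TT) (nf : TT → (Fin 3 → ℤ))
    (hS : ∀ T ∈ S, (∀ i, |T.1 i| ≤ m) ∧ T.1 0 ≠ T.1 1 ∧ T.1 1 ≠ T.1 2 ∧ T.1 0 ≠ T.1 2 ∧
      Red T.1 T.2.1 T.2.2.1 T.2.2.2 ∧
      nf T ≠ 0 ∧ Short T.1 T.2.1 T.2.2.1 T.2.2.2 (nf T) R₁ R₃ η ∧ nf T 0 ≠ 0) :
    (S.card : ℝ) ≤ (2 * m + 1) * (2 * m) *
      ∑ n ∈ ds ⌊η * R₁⌋₊, (∑ D ∈ ds (2 * m), ((Int.gcd n D : ℝ) + 4 * η * m * R₃ / R₁)) *
        (∑ E ∈ ds (2 * m), ((Int.gcd n E : ℝ) + 4 * η * m / R₃)) := by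
  set Bx : Finset ℤ := Icc (-(m : ℤ)) m with hBx
  set I : Finset ℤ := Ico 0 (2 * (m : ℤ)) with hI
  set f : TT → (ℤ × ℤ) × (ℤ × (ℤ × ℤ)) := fun T =>
    ((T.1 0, T.2.2.2), (nf T 0, (T.1 0 - T.1 1, T.1 2 - T.1 0))) with hf
  set X := (Bx ×ˢ I) ×ˢ (ds ⌊η * R₁⌋₊ ×ˢ (ds (2 * m) ×ˢ ds (2 * m))) with hX
  have hR1' : 0 < R₁ := by linarith
  have hR3' : 0 < R₃ := by linarith
  have hmaps : (S : Set TT).MapsTo f (X : Set _) := by
    intro T hT
    obtain ⟨hm, h01, h12, h02, hred, hne, ⟨s1, s2, s3⟩, hn0⟩ := hS T (mem_coe.1 hT)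
    obtain ⟨ra, ra', rc, rc', rb, rb'⟩ := hred
    have m0 := abs_le.1 (hm 0)
    have m1 := abs_le.1 (hm 1)
    have m2 := abs_le.1 (hm 2)
    have e01 : |T.1 0 - T.1 1| ≤ 2 * (m : ℤ) := abs_le.2 ⟨by linarith, by linarith⟩
    have e12 : |T.1 1 - T.1 2| ≤ 2 * (m : ℤ) := abs_le.2 ⟨by linarith, by linarith⟩
    have e20 : |T.1 2 - T.1 0| ≤ 2 * (m : ℤ) := abs_le.2 ⟨by linarith, by linarith⟩
    have hn0' : |nf T 0| ≤ ((⌊η * R₁⌋₊ : ℕ) : ℤ) := by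
      have h7 : ((nf T 0).natAbs : ℝ) ≤ η * R₁ := by
        rw [Nat.cast_natAbs, Int.cast_abs]; exact s1
      have h8 : (nf T 0).natAbs ≤ ⌊η * R₁⌋₊ := Nat.le_floor h7
      rw [Int.abs_eq_natAbs]
      exact_mod_cast h8
    simp only [hf, hX, hBx, hI, mem_coe, mem_product, mem_Icc, mem_Ico, mem_ds]
    refine ⟨⟨⟨m0.1, m0.2⟩, rc, by linarith⟩, ⟨hn0, hn0'⟩, ⟨sub_ne_zero.2 h01, ?_⟩,
      sub_ne_zero.2 (Ne.symm h02), ?_⟩
    · push_cast; exact e01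
    · push_cast; exact e20
  have hcount := card_eq_sum_card_fiberwise hmaps
  have hfib : ∀ x ∈ X, ((S.filter (fun T => f T = x)).card : ℝ) ≤
      ((Int.gcd x.2.1 x.2.2.1 : ℝ) + 4 * η * m * R₃ / R₁) *
      ((Int.gcd x.2.1 x.2.2.2 : ℝ) + 4 * η * m / R₃) := by
    intro x hx
    simp only [hX, mem_product, mem_ds] at hx
    obtain ⟨_, ⟨_, _⟩, ⟨hD0, hD1⟩, hE0, hE1⟩ := hx
    set F := S.filter (fun T => f T = x) with hF
    set h : TT → ℤ × ℤ := fun T => (T.2.1, nf T 1) with hh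
    have hD9 : |(x.2.2.1 : ℝ)| ≤ 2 * m := by
      have : ((|x.2.2.1| : ℤ) : ℝ) ≤ ((2 * m : ℕ) : ℤ) := by exact_mod_cast hD1
      rw [Int.cast_abs] at this
      refine this.trans (le_of_eq ?_)
      push_cast; ring
    have hE9 : |(x.2.2.2 : ℝ)| ≤ 2 * m := by
      have : ((|x.2.2.2| : ℤ) : ℝ) ≤ ((2 * m : ℕ) : ℤ) := by exact_mod_cast hE1
      rw [Int.cast_abs] at this
      refine this.trans (le_of_eq ?_)
      push_cast; ring
    have hp : ((F.image h).card : ℝ) ≤ (Int.gcd x.2.1 x.2.2.1 : ℝ) + 4 * η * m * R₃ / R₁ := by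
      have hp1 := pairs (-x.2.1) (x.2.2.1) hD0 0 (η * |(x.2.2.1 : ℝ)| * R₃ / R₁)
        (by positivity) (F.image h) (by
          intro p hp
          obtain ⟨T, hT, rfl⟩ := mem_image.1 hp
          simp only [hF, mem_filter] at hT
          obtain ⟨hTS, hTx⟩ := hT
          obtain ⟨hm, h01, h12, h02, hred, hne, ⟨s1, s2, s3⟩, hn0⟩ := hS T hTS
          obtain ⟨ra, ra', rc, rc', rb, rb'⟩ := hred
          have hx1 : x.2.1 = nf T 0 := by rw [← hTx]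
          have hx2 : x.2.2.1 = T.1 0 - T.1 1 := by rw [← hTx]
          rw [hx1, hx2]
          refine ⟨ra, ra', ?_⟩
          refine le_trans (le_of_eq ?_) s2
          congr 1
          show ((-(nf T 0) : ℤ) : ℝ) * (T.2.1 : ℝ) + (nf T 1 : ℝ) * ((T.1 0 - T.1 1 : ℤ) : ℝ) + 0 = _
          push_cast; ring)
      rw [Int.neg_gcd] at hp1
      have h10 : 2 * (η * |(x.2.2.1 : ℝ)| * R₃ / R₁) ≤ 4 * η * m * R₃ / R₁ := by
        calc 2 * (η * |(x.2.2.1 : ℝ)| * R₃ / R₁) ≤ 2 * (η * (2 * m) * R₃ / R₁) := by gcongr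
          _ = 4 * η * m * R₃ / R₁ := by ring
      linarith
    have hq : ∀ q ∈ F.image h, ((F.filter (fun T => h T = q)).card : ℝ) ≤
        (Int.gcd x.2.1 x.2.2.2 : ℝ) + 4 * η * m / R₃ := by
      intro q _
      set F' := F.filter (fun T => h T = q) with hF'
      set k : TT → ℤ × ℤ := fun T => (T.2.2.1, nf T 2) with hk
      have hinj : Set.InjOn k (F' : Set TT) := by
        intro T hT T' hT' heq
        simp only [hF', hF, coe_filter, mem_filter, Set.mem_ofPred_eq] at hT hT'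
        have e1 : f T = f T' := hT.1.2.trans hT'.1.2.symm
        have e2 : h T = h T' := hT.2.trans hT'.2.symm
        simp only [hf, Prod.mk.injEq] at e1
        simp only [hh, Prod.mk.injEq] at e2
        simp only [hk, Prod.mk.injEq] at heq
        obtain ⟨⟨a0, ac⟩, _, aD, aE⟩ := e1
        refine Prod.ext ?_ (Prod.ext e2.1 (Prod.ext heq.1 ac))
        funext i
        fin_cases i
        · exact a0
        · show T.1 1 = T'.1 1
          linarith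
        · show T.1 2 = T'.1 2
          linarith
      have hcardF : F'.card = (F'.image k).card := (card_image_of_injOn hinj).symm
      set y : ℝ := (x.1.2 : ℝ) / ((x.2.2.2 + x.2.2.1 : ℤ) : ℝ) with hy
      have hp := pairs x.2.1 x.2.2.2 hE0
        ((x.2.1 : ℝ) * (q.1 * y) + q.2 * y * x.2.2.2) (η * |(x.2.2.2 : ℝ)| / R₃)
        (by positivity) (F'.image k) (by
          intro p hp
          obtain ⟨T, hT, rfl⟩ := mem_image.1 hp
          simp only [hF', hF, mem_filter] at hT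
          obtain ⟨⟨hTS, hTx⟩, hTq⟩ := hT
          obtain ⟨hm, h01, h12, h02, hred, hne, ⟨s1, s2, s3⟩, hn0⟩ := hS T hTS
          obtain ⟨ra, ra', rc, rc', rb, rb'⟩ := hred
          have hx1 : x.2.1 = nf T 0 := by rw [← hTx]
          have hx2 : x.2.2.1 = T.1 0 - T.1 1 := by rw [← hTx]
          have hx3 : x.2.2.2 = T.1 2 - T.1 0 := by rw [← hTx]
          have hx4 : x.1.2 = T.2.2.2 := by rw [← hTx]
          have hq1 : q.1 = T.2.1 := by rw [← hTq]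
          have hq2 : q.2 = nf T 1 := by rw [← hTq]
          have hy' : y = (T.2.2.2 : ℝ) / ((T.1 2 - T.1 1 : ℤ) : ℝ) := by
            rw [hy, hx4, hx2, hx3]
            congr 2
            ring
          rw [hx1, hx3, hq1, hq2]
          refine ⟨rb, ?_, ?_⟩
          · rw [abs_sub_comm]; exact rb'
          · have hE' : ((T.1 2 - T.1 0 : ℤ) : ℝ) ≠ 0 := by
              have : T.1 2 - T.1 0 ≠ 0 := sub_ne_zero.2 (Ne.symm h02)
              exact_mod_cast this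
            rw [← hy'] at s3
            show |(nf T 0 : ℝ) * (T.2.2.1 : ℝ) + (nf T 2 : ℝ) * ((T.1 2 - T.1 0 : ℤ) : ℝ) +
              ((nf T 0 : ℝ) * ((T.2.1 : ℝ) * y) + (nf T 1 : ℝ) * y * ((T.1 2 - T.1 0 : ℤ) : ℝ))| ≤ _
            have key : (nf T 0 : ℝ) * (T.2.2.1 : ℝ) + (nf T 2 : ℝ) * ((T.1 2 - T.1 0 : ℤ) : ℝ) +
              ((nf T 0 : ℝ) * ((T.2.1 : ℝ) * y) + (nf T 1 : ℝ) * y * ((T.1 2 - T.1 0 : ℤ) : ℝ)) =
              ((T.1 2 - T.1 0 : ℤ) : ℝ) * ((nf T 0 : ℝ) * (((T.2.2.1 : ℝ) + (T.2.1 : ℝ) * y) /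
                ((T.1 2 - T.1 0 : ℤ) : ℝ)) + (nf T 1 : ℝ) * y + (nf T 2 : ℝ)) := by
              field_simp
              ring
            rw [key, abs_mul]
            calc |((T.1 2 - T.1 0 : ℤ) : ℝ)| * _ ≤ |((T.1 2 - T.1 0 : ℤ) : ℝ)| * (η / R₃) := by
                  gcongr
              _ = η * |((T.1 2 - T.1 0 : ℤ) : ℝ)| / R₃ := by ring)
      rw [← hcardF] at hp
      refine hp.trans ?_
      have h10 : 2 * (η * |(x.2.2.2 : ℝ)| / R₃) ≤ 4 * η * m / R₃ := by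
        calc 2 * (η * |(x.2.2.2 : ℝ)| / R₃) ≤ 2 * (η * (2 * m) / R₃) := by gcongr
          _ = 4 * η * m / R₃ := by ring
      linarith
    have hFc : (F.card : ℝ) = ∑ q ∈ F.image h, ((F.filter (fun T => h T = q)).card : ℝ) := by
      rw [card_eq_sum_card_image h F]; push_cast; rfl
    rw [hFc]
    calc ∑ q ∈ F.image h, ((F.filter (fun T => h T = q)).card : ℝ)
        ≤ ∑ q ∈ F.image h, ((Int.gcd x.2.1 x.2.2.2 : ℝ) + 4 * η * m / R₃) := sum_le_sum hq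
      _ = ((F.image h).card : ℝ) * ((Int.gcd x.2.1 x.2.2.2 : ℝ) + 4 * η * m / R₃) := by
          rw [sum_const, nsmul_eq_mul]
      _ ≤ _ := by gcongr
  have hBc : (Bx.card : ℝ) = 2 * m + 1 := by
    rw [hBx, Int.card_Icc]
    have : ((m : ℤ) + 1 - -(m : ℤ)).toNat = 2 * m + 1 := by omega
    rw [this]; push_cast; ring
  have hIc : (I.card : ℝ) = 2 * m := by
    rw [hI, Int.card_Ico]
    have : (2 * (m : ℤ) - 0).toNat = 2 * m := by omega
    rw [this]; push_cast; ring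
  calc (S.card : ℝ) = ∑ x ∈ X, ((S.filter (fun T => f T = x)).card : ℝ) := by
        rw [hcount]; push_cast; rfl
    _ ≤ ∑ x ∈ X, (((Int.gcd x.2.1 x.2.2.1 : ℝ) + 4 * η * m * R₃ / R₁) *
      ((Int.gcd x.2.1 x.2.2.2 : ℝ) + 4 * η * m / R₃)) := sum_le_sum hfib
    _ = _ := by
        rw [hX, sum_product]
        simp only
        rw [sum_const, sum_product, card_product, nsmul_eq_mul]
        push_cast
        rw [hBc, hIc]
        congr 1
        apply sum_congr rfl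
        intro n _
        rw [sum_mul_sum, sum_product]

lemma log_bound {m N : ℕ} (hm : 2 ≤ m) (hN : (N : ℝ) ≤ 4 * m) :
    1 + Real.log N ≤ 5 * Real.log m := by
  have hm' : (2 : ℝ) ≤ m := by exact_mod_cast hm
  have h2 : Real.log 2 ≤ Real.log m := Real.log_le_log (by norm_num) hm'
  have hl2 := Real.log_two_gt_d9
  rcases Nat.eq_zero_or_pos N with h | h
  · subst h
    simp only [Nat.cast_zero, Real.log_zero, add_zero]
    linarith
  · have hN0 : (0 : ℝ) < N := by exact_mod_cast h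
    have h3 : Real.log N ≤ Real.log (4 * m) := Real.log_le_log hN0 hN
    have h4 : Real.log (4 * m) = 2 * Real.log 2 + Real.log m := by
      rw [Real.log_mul (by norm_num) (by linarith), show (4 : ℝ) = 2 ^ 2 by norm_num, Real.log_pow]
      push_cast; ring
    linarith

lemma W_bound {m N : ℕ} (hm : 2 ≤ m) (hN : (N : ℝ) ≤ 4 * m) :
    ∑ n ∈ ds N, ∑ D ∈ ds (2 * m), (Int.gcd n D : ℝ) ≤ 40 * N * m * Real.log m := by
  refine (gcdsum N (2 * m)).trans ?_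
  have h := log_bound hm hN
  push_cast
  calc 4 * (N : ℝ) * (2 * m) * (1 + Real.log N) ≤ 4 * (N : ℝ) * (2 * m) * (5 * Real.log m) := by
        gcongr
    _ = 40 * N * m * Real.log m := by ring

lemma total (m : ℕ) (η R₁ R₃ : ℝ) (hm : 2 ≤ m) (hη : 0 < η) (hη1 : η < 1) (hR1 : 1 ≤ R₁)
    (hR3 : 1 ≤ R₃) (hR1m : R₁ ≤ 4 * m) (hR3m : R₃ ≤ 4 * m) :
    (2 * (m : ℝ) + 1) ^ 2 * (2 * m) ^ 2 *
      ∑ n ∈ ds ⌊η * R₃ / R₁⌋₊, ∑ G ∈ ds (2 * m), ((Int.gcd n G : ℝ) + 4 * η * m / R₃) +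
    (2 * m + 1) * (2 * m) *
      ∑ n ∈ ds ⌊η * R₁⌋₊, (∑ D ∈ ds (2 * m), ((Int.gcd n D : ℝ) + 4 * η * m * R₃ / R₁)) *
        (∑ E ∈ ds (2 * m), ((Int.gcd n E : ℝ) + 4 * η * m / R₃)) ≤
    10000 * (m : ℝ) ^ 6 *
    (η ^ 2 + Real.log m / m * (R₁ + R₃ + R₁ ^ 2 / m)) := by
  have hR1' : 0 < R₁ := by linarith
  have hR3' : 0 < R₃ := by linarith
  have hm' : (2 : ℝ) ≤ m := by exact_mod_cast hm
  have hm0 : (0 : ℝ) < m := by linarith
  have hL : 0 < Real.log m := Real.log_pos (by linarith)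
  set L := Real.log m with hLd
  set M : ℝ := (m : ℝ) with hM
  -- first term
  have hA : ∑ n ∈ ds ⌊η * R₃ / R₁⌋₊, ∑ G ∈ ds (2 * m), ((Int.gcd n G : ℝ) + 4 * η * M / R₃) ≤
      40 * R₃ * M * L + 32 * η ^ 2 * M ^ 2 := by
    set N := ⌊η * R₃ / R₁⌋₊ with hN
    have hN1 : (N : ℝ) ≤ η * R₃ / R₁ := Nat.floor_le (by positivity)
    have hN2 : η * R₃ / R₁ ≤ η * R₃ := div_le_self (by positivity) hR1
    have hN3 : η * R₃ ≤ R₃ := by nlinarith
    have hN4 : (N : ℝ) ≤ 4 * m := by linarith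
    have hW := W_bound hm hN4
    have heq : ∑ n ∈ ds N, ∑ G ∈ ds (2 * m), ((Int.gcd n G : ℝ) + 4 * η * M / R₃) =
        ∑ n ∈ ds N, ∑ G ∈ ds (2 * m), (Int.gcd n G : ℝ) + 32 * (N * η / R₃) * M ^ 2 := by
      simp only [sum_add_distrib, sum_const, card_ds, nsmul_eq_mul]
      push_cast
      rw [← hM]
      ring
    rw [heq]
    have h1 : (N : ℝ) * η / R₃ ≤ η ^ 2 := by
      rw [div_le_iff₀ hR3']
      calc (N : ℝ) * η ≤ (η * R₃) * η := by gcongr; linarith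
        _ = η ^ 2 * R₃ := by ring
    have h2 : 40 * (N : ℝ) * m * L ≤ 40 * R₃ * M * L := by
      rw [← hM]
      gcongr
      linarith
    have h3 : 32 * ((N : ℝ) * η / R₃) * M ^ 2 ≤ 32 * η ^ 2 * M ^ 2 := by gcongr
    linarith
  -- second term
  have hB : ∑ n ∈ ds ⌊η * R₁⌋₊, (∑ D ∈ ds (2 * m), ((Int.gcd n D : ℝ) + 4 * η * M * R₃ / R₁)) *
        (∑ E ∈ ds (2 * m), ((Int.gcd n E : ℝ) + 4 * η * M / R₃)) ≤
      160 * M ^ 2 * R₁ ^ 2 * L + 640 * M ^ 3 * L * (R₁ + R₃) + 512 * η ^ 2 * M ^ 4 := by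
    set N := ⌊η * R₁⌋₊ with hN
    have hN1 : (N : ℝ) ≤ η * R₁ := Nat.floor_le (by positivity)
    have hN3 : η * R₁ ≤ R₁ := by nlinarith
    have hNR : (N : ℝ) ≤ R₁ := by linarith
    have hN4 : (N : ℝ) ≤ 4 * m := by linarith
    have hN0 : (0 : ℝ) ≤ N := Nat.cast_nonneg N
    have hW := W_bound hm hN4
    set a : ℝ := 16 * η * M ^ 2 * R₃ / R₁ with ha
    set b : ℝ := 16 * η * M ^ 2 / R₃ with hb
    have ha0 : 0 ≤ a := by positivity
    have hb0 : 0 ≤ b := by positivity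
    set g : ℤ → ℝ := fun n => ∑ D ∈ ds (2 * m), (Int.gcd n D : ℝ) with hg
    have hterm : ∀ n ∈ ds N, (∑ D ∈ ds (2 * m), ((Int.gcd n D : ℝ) + 4 * η * M * R₃ / R₁)) *
        (∑ E ∈ ds (2 * m), ((Int.gcd n E : ℝ) + 4 * η * M / R₃)) ≤
        (4 * M * N + a + b) * g n + a * b := by
      intro n hn
      have e1 : ∑ D ∈ ds (2 * m), ((Int.gcd n D : ℝ) + 4 * η * M * R₃ / R₁) = g n + a := by
        simp only [sum_add_distrib, sum_const, card_ds, nsmul_eq_mul, hg, ha]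
        push_cast
        rw [← hM]
        ring
      have e2 : ∑ D ∈ ds (2 * m), ((Int.gcd n D : ℝ) + 4 * η * M / R₃) = g n + b := by
        simp only [sum_add_distrib, sum_const, card_ds, nsmul_eq_mul, hg, hb]
        push_cast
        rw [← hM]
        ring
      rw [e1, e2]
      have hg0 : 0 ≤ g n := by
        simp only [hg]; exact sum_nonneg (fun _ _ => Nat.cast_nonneg _)
      have hgN : g n ≤ 4 * M * N := by
        have : g n ≤ ∑ D ∈ ds (2 * m), (N : ℝ) := by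
          simp only [hg]
          apply sum_le_sum
          intro D _
          have hn' := mem_ds.1 hn
          have h1 : Int.gcd n D ≤ n.natAbs :=
            Nat.le_of_dvd (Int.natAbs_pos.2 hn'.1) (Int.gcd_dvd_natAbs_left n D)
          have h2 : (n.natAbs : ℤ) ≤ N := by rw [Int.natCast_natAbs]; exact hn'.2
          have h3 : n.natAbs ≤ N := by exact_mod_cast h2
          exact_mod_cast h1.trans h3
        refine this.trans (le_of_eq ?_)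
        rw [sum_const, card_ds, nsmul_eq_mul]
        push_cast
        rw [← hM]
        ring
      nlinarith [mul_nonneg hg0 (sub_nonneg.2 hgN)]
    have hW' : ∑ n ∈ ds N, g n ≤ 40 * N * M * L := hW
    have hW0 : 0 ≤ ∑ n ∈ ds N, g n := sum_nonneg (fun n _ => by
        simp only [hg]; exact sum_nonneg (fun _ _ => Nat.cast_nonneg _))
    have hsum : ∑ n ∈ ds N, (∑ D ∈ ds (2 * m), ((Int.gcd n D : ℝ) + 4 * η * M * R₃ / R₁)) *
        (∑ E ∈ ds (2 * m), ((Int.gcd n E : ℝ) + 4 * η * M / R₃)) ≤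
        (4 * M * N + a + b) * ∑ n ∈ ds N, g n + 2 * N * (a * b) := by
      refine (sum_le_sum hterm).trans (le_of_eq ?_)
      rw [sum_add_distrib, ← mul_sum, sum_const, card_ds, nsmul_eq_mul]
      push_cast
      ring
    refine hsum.trans ?_
    have h1 : (4 * M * N + a + b) * ∑ n ∈ ds N, g n ≤ (4 * M * N + a + b) * (40 * N * M * L) := by
      gcongr
    have h2 : a * N ≤ 16 * M ^ 2 * R₃ := by
      rw [ha, div_mul_eq_mul_div, div_le_iff₀ hR1']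
      calc 16 * η * M ^ 2 * R₃ * N ≤ 16 * 1 * M ^ 2 * R₃ * R₁ := by gcongr
        _ = 16 * M ^ 2 * R₃ * R₁ := by ring
    have h3 : b * N ≤ 16 * M ^ 2 * R₁ := by
      have hb1 : b ≤ 16 * M ^ 2 := by
        rw [hb, div_le_iff₀ hR3']
        have : 16 * M ^ 2 * η ≤ 16 * M ^ 2 * R₃ :=
          mul_le_mul_of_nonneg_left (by linarith) (by positivity)
        linarith
      exact mul_le_mul hb1 hNR hN0 (by positivity)
    have h4 : 2 * (N : ℝ) * (a * b) ≤ 512 * η ^ 2 * M ^ 4 := by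
      have e : 2 * (N : ℝ) * (a * b) = 512 * η ^ 2 * M ^ 4 * (N / R₁) := by
        rw [ha, hb]; field_simp; ring
      rw [e]
      have : (N : ℝ) / R₁ ≤ 1 := by rw [div_le_one hR1']; exact hNR
      calc 512 * η ^ 2 * M ^ 4 * (N / R₁) ≤ 512 * η ^ 2 * M ^ 4 * 1 := by gcongr
        _ = _ := by ring
    have h5 : (N : ℝ) * N ≤ R₁ ^ 2 := by
      calc (N : ℝ) * N ≤ R₁ * R₁ := by gcongr
        _ = R₁ ^ 2 := by ring
    have h6 : (4 * M * N + a + b) * (40 * N * M * L) =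
        160 * M ^ 2 * (N * N) * L + 40 * M * L * (a * N + b * N) := by ring
    have h7 : 160 * M ^ 2 * ((N : ℝ) * N) * L ≤ 160 * M ^ 2 * R₁ ^ 2 * L := by gcongr
    have h8 : 40 * M * L * (a * N + b * N) ≤ 40 * M * L * (16 * M ^ 2 * R₃ + 16 * M ^ 2 * R₁) := by
      gcongr
    have h9 : 40 * M * L * (16 * M ^ 2 * R₃ + 16 * M ^ 2 * R₁) = 640 * M ^ 3 * L * (R₁ + R₃) := by
      ring
    linarith
  have f1 : 2 * M + 1 ≤ 3 * M := by linarith
  have g1 : (2 * M + 1) ^ 2 * (2 * M) ^ 2 ≤ 36 * M ^ 4 := by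
    calc (2 * M + 1) ^ 2 * (2 * M) ^ 2 ≤ (3 * M) ^ 2 * (2 * M) ^ 2 := by gcongr
      _ = 36 * M ^ 4 := by ring
  have g2 : (2 * M + 1) * (2 * M) ≤ 6 * M ^ 2 := by
    calc (2 * M + 1) * (2 * M) ≤ (3 * M) * (2 * M) := by gcongr
      _ = 6 * M ^ 2 := by ring
  have k1 : (2 * M + 1) ^ 2 * (2 * M) ^ 2 *
      ∑ n ∈ ds ⌊η * R₃ / R₁⌋₊, ∑ G ∈ ds (2 * m), ((Int.gcd n G : ℝ) + 4 * η * M / R₃) ≤
      36 * M ^ 4 * (40 * R₃ * M * L + 32 * η ^ 2 * M ^ 2) := by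
    have : 0 ≤ 40 * R₃ * M * L + 32 * η ^ 2 * M ^ 2 := by positivity
    calc _ ≤ (2 * M + 1) ^ 2 * (2 * M) ^ 2 * (40 * R₃ * M * L + 32 * η ^ 2 * M ^ 2) := by gcongr
      _ ≤ _ := by gcongr
  have k2 : (2 * M + 1) * (2 * M) *
      ∑ n ∈ ds ⌊η * R₁⌋₊, (∑ D ∈ ds (2 * m), ((Int.gcd n D : ℝ) + 4 * η * M * R₃ / R₁)) *
        (∑ E ∈ ds (2 * m), ((Int.gcd n E : ℝ) + 4 * η * M / R₃)) ≤
      6 * M ^ 2 * (160 * M ^ 2 * R₁ ^ 2 * L + 640 * M ^ 3 * L * (R₁ + R₃) +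
        512 * η ^ 2 * M ^ 4) := by
    have : 0 ≤ 160 * M ^ 2 * R₁ ^ 2 * L + 640 * M ^ 3 * L * (R₁ + R₃) + 512 * η ^ 2 * M ^ 4 := by
      positivity
    calc _ ≤ (2 * M + 1) * (2 * M) * (160 * M ^ 2 * R₁ ^ 2 * L + 640 * M ^ 3 * L * (R₁ + R₃) +
        512 * η ^ 2 * M ^ 4) := by gcongr
      _ ≤ _ := by gcongr
  have k3 : 10000 * M ^ 6 * (η ^ 2 + L / M * (R₁ + R₃ + R₁ ^ 2 / M)) =
      10000 * (η ^ 2 * M ^ 6) + 10000 * (M ^ 5 * L * (R₁ + R₃)) + 10000 * (M ^ 4 * L * R₁ ^ 2) := by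
    field_simp
    ring
  rw [k3]
  have p1 : 0 ≤ η ^ 2 * M ^ 6 := by positivity
  have p2 : 0 ≤ M ^ 5 * L * R₁ := by positivity
  have p3 : 0 ≤ M ^ 5 * L * R₃ := by positivity
  have p4 : 0 ≤ M ^ 4 * L * R₁ ^ 2 := by positivity
  nlinarith [k1, k2, p1, p2, p3, p4]

theorem main : tN3 := by
  refine ⟨10000, by norm_num, ?_⟩
  intro m η R₁ R₃ hm hη hη1 hR1 hR3 hR1m hR3m S hS
  have hex : ∀ T : TT, ∃ n : Fin 3 → ℤ, T ∈ S → n ≠ 0 ∧ Short T.1 T.2.1 T.2.2.1 T.2.2.2 n R₁ R₃ η := by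
    intro T
    by_cases hT : T ∈ S
    · obtain ⟨_, _, _, _, _, n, hn⟩ := hS T hT
      exact ⟨n, fun _ => hn⟩
    · exact ⟨0, fun h => absurd h hT⟩
  choose nf hnf using hex
  have hA := caseA m η R₁ R₃ hη hR1 hR3 hη1 (S.filter (fun T => nf T 0 = 0)) nf (by
    intro T hT
    rw [mem_filter] at hT
    obtain ⟨a1, a2, a3, a4, a5, _⟩ := hS T hT.1
    exact ⟨a1, a2, a3, a4, a5, (hnf T hT.1).1, (hnf T hT.1).2, hT.2⟩)
  have hB := caseB m η R₁ R₃ hη hR1 hR3 (S.filter (fun T => ¬ nf T 0 = 0)) nf (by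
    intro T hT
    rw [mem_filter] at hT
    obtain ⟨a1, a2, a3, a4, a5, _⟩ := hS T hT.1
    exact ⟨a1, a2, a3, a4, a5, (hnf T hT.1).1, (hnf T hT.1).2, hT.2⟩)
  have hsplit : (S.card : ℝ) = ((S.filter (fun T => nf T 0 = 0)).card : ℝ) +
      ((S.filter (fun T => ¬ nf T 0 = 0)).card : ℝ) := by
    exact_mod_cast (card_filter_add_card_filter_not (s := S) (fun T => nf T 0 = 0)).symm
  rw [hsplit]
  exact (add_le_add hA hB).trans (total m η R₁ R₃ hm hη hη1 hR1 hR3 hR1m hR3m)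

end SAIL.A.N3x

/-- N3. -/
theorem SAIL.A.p_N3 : SAIL.A.tN3 := SAIL.A.N3x.main
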