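import Pool.Agent.SAIL.ARI.Targets

/-!
SAILD-N4: a good ordering exists at every position of the hexagon (helper49).
-/

namespace SAIL.A

open Matrix MeasureTheory Filter SAIL

namespace N4x

theorem ex_perm : ∀ i k : Fin 3, i ≠ k → ∃ w : Equiv.Perm (Fin 3), w 0 = i ∧ w 2 = k := by
  decide

theorem sum_pos (V : IM) (y : ℝ × ℝ) (k : Fin 3) :
    pos V y (k + 1) + pos V y (k + 2) = Real.log V.det - pos V y k := by
  fin_cases k
  · simp [pos]
  · simp [pos]; ring
  · simp [pos]; ring

end N4x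

theorem p_N4 (hADJ : tADJ) (hDVD : tDVD) (hSPEC : tSPEC) (hORD : tORD) : tN4 := by
  intro m A V l hE hA y hy
  obtain ⟨hl, -, -, -, hcn, -, hm⟩ := hSPEC m A V l hE hA
  have hdet : 0 < V.det := hE.2.2.2.2
  obtain ⟨hc0, -, -, -, -, -, -, -⟩ := hADJ V hdet hE.2.2.2.1
  have hdetR : (0 : ℝ) < (V.det : ℝ) := by exact_mod_cast hdet
  have hm1 : (1 : ℝ) ≤ m := by exact_mod_cast hm
  have h2m : (1 : ℝ) ≤ 2 * m := by linarith
  have hcR : ∀ i, (0 : ℝ) < (cn V i : ℝ) := fun i => by exact_mod_cast hc0 i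
  have hc : 0 ≤ Real.log (2 * m) := Real.log_nonneg h2m
  have hdist : ∀ k : Fin 3, l (k + 1) - l (k + 2) ≠ 0 := by
    have h01 := hE.2.1
    have h12 := hE.2.2.1
    intro k
    fin_cases k
    · change l 1 - l 2 ≠ 0; omega
    · change l 2 - l 0 ≠ 0; omega
    · change l 0 - l 1 ≠ 0; omega
  obtain ⟨i, k, hik, h1, h2, -⟩ := hORD (pos V y) (dpos V y) (Real.log (2 * m)) hc
    (by
      intro k
      rw [N4x.sum_pos]
      unfold dpos
      have h3 : Real.log (cn V k) ≤ Real.log (2 * m) := Real.log_le_log (hcR k) (hcn k)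
      linarith)
    (by
      intro k
      unfold dpos
      have h4 := N4x.sum_pos V y k
      have h5 := (hDVD A V l hE k).2
      have h6 : (V.det : ℤ) ≤ (cn V (k + 1) : ℤ) * cn V (k + 2) * |l (k + 1) - l (k + 2)| := by
        have h7 : V.det ∣ (cn V (k + 1) : ℤ) * cn V (k + 2) * |l (k + 1) - l (k + 2)| := by
          rcases abs_choice (l (k + 1) - l (k + 2)) with h | h
          · rw [h]; exact h5
          · rw [h, mul_neg]; exact (dvd_neg).2 h5
        refine Int.le_of_dvd ?_ h7
        have := abs_pos.2 (hdist k)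
        have h8 : (0 : ℤ) < cn V (k + 1) := by exact_mod_cast hc0 _
        have h9 : (0 : ℤ) < cn V (k + 2) := by exact_mod_cast hc0 _
        positivity
      have h10 : |l (k + 1) - l (k + 2)| ≤ 2 * (m : ℤ) := by
        have h11 := hl (k + 1)
        have h12 := hl (k + 2)
        have h13 := abs_sub (l (k + 1)) (l (k + 2))
        linarith
      have h14 : (V.det : ℝ) ≤ (cn V (k + 1) : ℝ) * cn V (k + 2) * (2 * m) := by
        have h15 : (V.det : ℤ) ≤ (cn V (k + 1) : ℤ) * cn V (k + 2) * (2 * (m : ℤ)) := by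
          refine h6.trans ?_
          gcongr
        exact_mod_cast h15
      have h16 : Real.log V.det ≤ Real.log (cn V (k + 1)) + Real.log (cn V (k + 2)) +
          Real.log (2 * m) := by
        rw [← Real.log_mul (hcR _).ne' (hcR _).ne', ← Real.log_mul
          (mul_ne_zero (hcR _).ne' (hcR _).ne') (by linarith)]
        exact Real.log_le_log hdetR h14
      linarith)
  obtain ⟨w, hw0, hw2⟩ := N4x.ex_perm i k hik
  refine ⟨w, ?_, ?_⟩
  · rw [hw0, hw2]; exact h1
  · rw [hw0, hw2]; exact h2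

end SAIL.A
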