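import Pool.Agent.SAIL.ARI.Targets

/-!
SAIL / ARI: the ordering lemma.
-/

namespace SAIL.A

open Matrix SAIL

namespace ORDx

theorem all3 (P : Fin 3 → Prop) (h0 : P 0) (h1 : P 1) (h2 : P 2) : ∀ j, P j := by
  intro j
  fin_cases j
  · exact h0
  · exact h1
  · exact h2

end ORDx

theorem p_ORD : tORD := by
  intro x y c hc h1 h2
  have a0 : x 1 + x 2 ≤ y 0 + c := h1 0
  have a1 : x 2 + x 0 ≤ y 1 + c := h1 1
  have a2 : x 0 + x 1 ≤ y 2 + c := h1 2
  have b0 : y 1 + y 2 ≤ x 0 + c := h2 0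
  have b1 : y 2 + y 0 ≤ x 1 + c := h2 1
  have b2 : y 0 + y 1 ≤ x 2 + c := h2 2
  rcases le_total (x 0) (x 1) with e1 | e1
  · rcases le_total (x 0) (x 2) with e2 | e2
    · rcases le_total (y 1) (y 2) with e3 | e3
      · exact ⟨0, 1, by decide, by linarith, by linarith, ORDx.all3 _ le_rfl e1 e2⟩
      · exact ⟨0, 2, by decide, by linarith, by linarith, ORDx.all3 _ le_rfl e1 e2⟩
    · rcases le_total (y 0) (y 1) with e3 | e3
      · exact ⟨2, 0, by decide, by linarith, by linarith, ORDx.all3 _ e2 (by linarith) le_rfl⟩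
      · exact ⟨2, 1, by decide, by linarith, by linarith, ORDx.all3 _ e2 (by linarith) le_rfl⟩
  · rcases le_total (x 1) (x 2) with e2 | e2
    · rcases le_total (y 0) (y 2) with e3 | e3
      · exact ⟨1, 0, by decide, by linarith, by linarith, ORDx.all3 _ e1 le_rfl e2⟩
      · exact ⟨1, 2, by decide, by linarith, by linarith, ORDx.all3 _ e1 le_rfl e2⟩
    · rcases le_total (y 0) (y 1) with e3 | e3
      · exact ⟨2, 0, by decide, by linarith, by linarith, ORDx.all3 _ (by linarith) e2 le_rfl⟩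
      · exact ⟨2, 1, by decide, by linarith, by linarith, ORDx.all3 _ (by linarith) e2 le_rfl⟩

end SAIL.A
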