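import Pool.Agent.SAIL.ARI.Targets

/-!
# SAIL, part D: S1, sum over a plane (from B4)
-/

namespace SAIL.A

open Matrix MeasureTheory Filter SAIL

namespace S1x

lemma entry_le (q : Fin 3 → ℤ) (i : Fin 3) : |(q i : ℝ)| ≤ sn q := by
  have h := norm_le_pi_norm (fun i => (q i : ℝ) : Fin 3 → ℝ) i
  simpa [sn, Real.norm_eq_abs] using h

lemma one_le_sn {q : Fin 3 → ℤ} (hq : q ≠ 0) : 1 ≤ sn q := by
  obtain ⟨i, hi⟩ := Function.ne_iff.1 hq
  have h1 : (1 : ℤ) ≤ |q i| := Int.one_le_abs hi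
  have h2 : (1 : ℝ) ≤ |(q i : ℝ)| := by exact_mod_cast h1
  exact h2.trans (entry_le q i)

lemma prim_ne_zero {p : Fin 3 → ℤ} (hp : prim p) : p ≠ 0 := by
  intro h
  subst h
  have := hp 0 (fun i => by simp)
  exact absurd this (by decide)

end S1x

open S1x

theorem p_S1 (h4 : tB4) : tS1 := by
  obtain ⟨C₀, hC₀, h4⟩ := h4
  refine ⟨C₀ * Real.exp 2, by positivity, ?_⟩
  intro p hp X hX S hS
  have hp1 : 1 ≤ sn p := one_le_sn (prim_ne_zero hp)
  have hp0 : 0 < sn p := by linarith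
  have hq1 : ∀ q ∈ S, 1 ≤ sn q := fun q hq => hp1.trans (hS q hq).2.1
  have hmaps : ∀ q ∈ S, ⌊Real.log (sn q)⌋₊ ∈ Finset.range (⌊Real.log X⌋₊ + 1) := by
    intro q hq
    rw [Finset.mem_range, Nat.lt_succ_iff]
    apply Nat.floor_le_floor
    exact Real.log_le_log (by linarith [hq1 q hq]) (hS q hq).2.2
  rw [← Finset.sum_fiberwise_of_maps_to hmaps]
  have hfib : ∀ k ∈ Finset.range (⌊Real.log X⌋₊ + 1),
      ∑ q ∈ S.filter (fun q => ⌊Real.log (sn q)⌋₊ = k), 1 / sn q ^ 2 ≤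
        C₀ * Real.exp 2 / sn p := by
    intro k _
    rcases (S.filter (fun q => ⌊Real.log (sn q)⌋₊ = k)).eq_empty_or_nonempty with he | hne
    · rw [he, Finset.sum_empty]
      positivity
    have hlo : ∀ q ∈ S.filter (fun q => ⌊Real.log (sn q)⌋₊ = k), Real.exp k ≤ sn q := by
      intro q hq
      rw [Finset.mem_filter] at hq
      have h0 : 0 < sn q := by linarith [hq1 q hq.1]
      rw [← Real.le_log_iff_exp_le h0, ← hq.2]
      exact Nat.floor_le (Real.log_nonneg (hq1 q hq.1))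
    have hhi : ∀ q ∈ S.filter (fun q => ⌊Real.log (sn q)⌋₊ = k),
        sn q ≤ Real.exp ((k : ℝ) + 1) := by
      intro q hq
      rw [Finset.mem_filter] at hq
      have h0 : 0 < sn q := by linarith [hq1 q hq.1]
      rw [← Real.log_le_iff_le_exp h0, ← hq.2]
      exact (Nat.lt_floor_add_one _).le
    obtain ⟨q₀, hq₀⟩ := hne
    have hpr : sn p ≤ Real.exp ((k : ℝ) + 1) :=
      (hS q₀ (Finset.mem_filter.1 hq₀).1).2.1.trans (hhi q₀ hq₀)
    have hcard := h4 p hp (fun _ => 0) (Real.exp ((k : ℝ) + 1)) hpr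
      (S.filter (fun q => ⌊Real.log (sn q)⌋₊ = k)) (by
        intro q hq
        refine ⟨(hS q (Finset.mem_filter.1 hq).1).1, fun i => ?_⟩
        rw [sub_zero]
        exact (entry_le q i).trans (hhi q hq))
    calc ∑ q ∈ S.filter (fun q => ⌊Real.log (sn q)⌋₊ = k), 1 / sn q ^ 2
        ≤ ∑ _q ∈ S.filter (fun q => ⌊Real.log (sn q)⌋₊ = k), 1 / Real.exp k ^ 2 := by
          apply Finset.sum_le_sum
          intro q hq
          apply one_div_le_one_div_of_le (by positivity)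
          exact pow_le_pow_left₀ (Real.exp_pos _).le (hlo q hq) 2
      _ = ((S.filter (fun q => ⌊Real.log (sn q)⌋₊ = k)).card : ℝ) * (1 / Real.exp k ^ 2) := by
          rw [Finset.sum_const, nsmul_eq_mul]
      _ ≤ (C₀ * Real.exp ((k : ℝ) + 1) ^ 2 / sn p) * (1 / Real.exp k ^ 2) :=
          mul_le_mul_of_nonneg_right hcard (by positivity)
      _ = C₀ * Real.exp 2 / sn p := by
          have h1 : Real.exp ((k : ℝ) + 1) ^ 2 = Real.exp k ^ 2 * Real.exp 2 := by
            rw [Real.exp_add, mul_pow, ← Real.exp_nat_mul 1 2]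
            norm_num
          have h2 : Real.exp (k : ℝ) ≠ 0 := (Real.exp_pos _).ne'
          rw [h1]
          field_simp
  calc ∑ k ∈ Finset.range (⌊Real.log X⌋₊ + 1),
        ∑ q ∈ S.filter (fun q => ⌊Real.log (sn q)⌋₊ = k), 1 / sn q ^ 2
      ≤ ∑ _k ∈ Finset.range (⌊Real.log X⌋₊ + 1), C₀ * Real.exp 2 / sn p :=
        Finset.sum_le_sum hfib
    _ = ((⌊Real.log X⌋₊ : ℝ) + 1) * (C₀ * Real.exp 2 / sn p) := by
        rw [Finset.sum_const, nsmul_eq_mul, Finset.card_range]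
        push_cast
        ring
    _ ≤ (Real.log X + 1) * (C₀ * Real.exp 2 / sn p) := by
        apply mul_le_mul_of_nonneg_right _ (by positivity)
        linarith [Nat.floor_le (Real.log_nonneg hX)]
    _ = C₀ * Real.exp 2 * (1 + Real.log X) / sn p := by ring

end SAIL.A
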