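import Pool.Agent.SAIL.ARI.Targets

/-!
# SAILD-S2: sums over `Z^3`
-/

open Finset

namespace SAIL.A

namespace s2x

/-- the sup norm as a natural number -/
def nn (v : Fin 3 → ℤ) : ℕ := Finset.univ.sup fun i => (v i).natAbs

theorem natAbs_le (v : Fin 3 → ℤ) (i : Fin 3) : (v i).natAbs ≤ nn v :=
  Finset.le_sup (f := fun i => (v i).natAbs) (mem_univ i)

theorem cast_abs (a : ℤ) : ‖(a : ℝ)‖ = (a.natAbs : ℝ) := by
  rw [Real.norm_eq_abs, ← Int.cast_abs, Int.abs_eq_natAbs, Int.cast_natCast]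

theorem sn_eq (v : Fin 3 → ℤ) : sn v = (nn v : ℝ) := by
  unfold sn
  apply le_antisymm
  · rw [pi_norm_le_iff_of_nonneg (Nat.cast_nonneg _)]
    intro i
    rw [cast_abs]
    exact_mod_cast natAbs_le v i
  · obtain ⟨i, -, hi⟩ := Finset.exists_mem_eq_sup (Finset.univ : Finset (Fin 3)) univ_nonempty
      fun i => (v i).natAbs
    have h1 : nn v = (v i).natAbs := hi
    rw [h1, ← cast_abs]
    exact norm_le_pi_norm (fun i => (v i : ℝ)) i

/-- the cube -/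
noncomputable def box (k : ℕ) : Finset (Fin 3 → ℤ) := Fintype.piFinset fun _ => Icc (-(k : ℤ)) (k : ℤ)

theorem mem_box {k : ℕ} {v : Fin 3 → ℤ} : v ∈ box k ↔ nn v ≤ k := by
  unfold box nn
  rw [Fintype.mem_piFinset, Finset.sup_le_iff]
  simp only [mem_Icc, mem_univ, true_imp_iff]
  constructor
  · intro h i
    have := h i
    omega
  · intro h i
    have := h i
    omega

theorem card_box (k : ℕ) : (box k).card = (2 * k + 1) ^ 3 := by
  unfold box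
  rw [Fintype.card_piFinset]
  simp only [Int.card_Icc, prod_const, card_univ, Fintype.card_fin]
  congr 1
  omega

/-- the number of vectors of norm `k` -/
theorem card_shell (k : ℕ) (hk : 1 ≤ k) (T : Finset (Fin 3 → ℤ)) (hT : ∀ v ∈ T, nn v = k) :
    (T.card : ℝ) ≤ 26 * (k : ℝ) ^ 2 := by
  obtain ⟨j, rfl⟩ : ∃ j, k = j + 1 := ⟨k - 1, by omega⟩
  have h1 : T ⊆ box (j + 1) \ box j := by
    intro v hv
    rw [mem_sdiff, mem_box, mem_box, hT v hv]
    omega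
  have h2 : box j ⊆ box (j + 1) := by
    intro v hv
    rw [mem_box] at hv ⊢
    omega
  have h3 := card_le_card h1
  rw [card_sdiff_of_subset h2, card_box, card_box] at h3
  have h4 : (2 * (j + 1) + 1) ^ 3 - (2 * j + 1) ^ 3 = 24 * (j + 1) ^ 2 + 2 := by
    have : (2 * (j + 1) + 1) ^ 3 = (2 * j + 1) ^ 3 + (24 * (j + 1) ^ 2 + 2) := by ring
    rw [this]
    omega
  rw [h4] at h3
  have h5 : (T.card : ℝ) ≤ ((24 * (j + 1) ^ 2 + 2 : ℕ) : ℝ) := by exact_mod_cast h3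
  push_cast at h5 ⊢
  nlinarith [sq_nonneg (j : ℝ), Nat.cast_nonneg (α := ℝ) j]

/-- summation over shells -/
theorem sum_le (Y : ℝ) (S : Finset (Fin 3 → ℤ)) (hS : ∀ v ∈ S, 1 ≤ sn v ∧ sn v ≤ Y)
    (e : ℕ) : ∑ v ∈ S, 1 / sn v ^ e ≤ ∑ k ∈ Icc 1 ⌊Y⌋₊, 26 * (k : ℝ) ^ 2 * (1 / (k : ℝ) ^ e) := by
  have hmaps : ∀ v ∈ S, nn v ∈ Icc 1 ⌊Y⌋₊ := by
    intro v hv
    obtain ⟨h1, h2⟩ := hS v hv
    rw [sn_eq] at h1 h2
    rw [mem_Icc]
    exact ⟨by exact_mod_cast h1, Nat.le_floor h2⟩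
  rw [← Finset.sum_fiberwise_of_maps_to hmaps]
  refine Finset.sum_le_sum fun k hk => ?_
  have hk1 : 1 ≤ k := (mem_Icc.1 hk).1
  calc ∑ v ∈ S.filter (fun v => nn v = k), 1 / sn v ^ e
      = ∑ _v ∈ S.filter (fun v => nn v = k), 1 / (k : ℝ) ^ e := by
        refine Finset.sum_congr rfl fun v hv => ?_
        rw [sn_eq, (mem_filter.1 hv).2]
    _ = ((S.filter (fun v => nn v = k)).card : ℝ) * (1 / (k : ℝ) ^ e) := by
        rw [sum_const, nsmul_eq_mul]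
    _ ≤ 26 * (k : ℝ) ^ 2 * (1 / (k : ℝ) ^ e) := by
        refine mul_le_mul_of_nonneg_right ?_ (by positivity)
        exact card_shell k hk1 _ fun v hv => (mem_filter.1 hv).2

end s2x

open s2x in
/-- S2 -/
theorem p_S2 : tS2 := by
  refine ⟨26, by norm_num, fun Y hY S hS => ⟨?_, ?_⟩⟩
  · refine (sum_le Y S hS 3).trans ?_
    have h1 := harmonic_floor_le_one_add_log Y hY
    rw [harmonic_eq_sum_Icc] at h1
    push_cast at h1
    have h2 : ∑ k ∈ Icc 1 ⌊Y⌋₊, 26 * (k : ℝ) ^ 2 * (1 / (k : ℝ) ^ 3) =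
        26 * ∑ k ∈ Icc 1 ⌊Y⌋₊, ((k : ℝ))⁻¹ := by
      rw [Finset.mul_sum]
      refine Finset.sum_congr rfl fun k hk => ?_
      have hk0 : (k : ℝ) ≠ 0 := by
        have := (mem_Icc.1 hk).1
        positivity
      field_simp
    rw [h2]
    linarith
  · refine (sum_le Y S hS 2).trans ?_
    have h2 : ∑ k ∈ Icc 1 ⌊Y⌋₊, 26 * (k : ℝ) ^ 2 * (1 / (k : ℝ) ^ 2) =
        ∑ _k ∈ Icc 1 ⌊Y⌋₊, (26 : ℝ) := by
      refine Finset.sum_congr rfl fun k hk => ?_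
      have hk0 : (k : ℝ) ≠ 0 := by
        have := (mem_Icc.1 hk).1
        positivity
      field_simp
    rw [h2, sum_const, nsmul_eq_mul, Nat.card_Icc, Nat.add_sub_cancel]
    have h3 : (⌊Y⌋₊ : ℝ) ≤ Y := Nat.floor_le (by linarith)
    linarith

end SAIL.A
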