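import Pool.Agent.SAIL.ARI.Targets

/-!
SAIL / ARI, item S3: sum over the integer points of a plane in a narrow cone (helper94)
-/

namespace SAIL.A

open Matrix

namespace S3_

lemma sn_nonneg (v : Fin 3 → ℤ) : 0 ≤ sn v := norm_nonneg _

/-- a primitive vector has sup norm at least 1 -/
lemma one_le_sn {p : Fin 3 → ℤ} (hp : prim p) : 1 ≤ sn p := by
  by_contra hlt
  push Not at hlt
  have h0 : ∀ i, p i = 0 := by
    intro i
    have h1 : ‖((p i : ℤ) : ℝ)‖ ≤ sn p := norm_le_pi_norm (fun i => ((p i : ℤ) : ℝ)) i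
    rw [Real.norm_eq_abs] at h1
    have h2 : |((p i : ℤ) : ℝ)| < 1 := lt_of_le_of_lt h1 hlt
    have h3 : |p i| < 1 := by exact_mod_cast h2
    exact Int.abs_lt_one_iff.1 h3
  have h2 := hp 2 (fun i => by rw [h0 i]; exact dvd_zero _)
  rw [Int.isUnit_iff] at h2
  omega

/-- one shell -/
lemma shell {C : ℝ} (hB : ∀ p, prim p → ∀ (Q : Fin 3 → ℝ) (r : ℝ), sn p ≤ r →
    ∀ S : Finset (Fin 3 → ℤ), (∀ q ∈ S, p ⬝ᵥ q = 0 ∧ ∀ i, |(q i : ℝ) - Q i| ≤ r) →
    (S.card : ℝ) ≤ C * r ^ 2 / sn p) {r : ℝ} (hr : 0 < r) (hr2 : r < 1 / 2)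
    {p : Fin 3 → ℤ} (hp : prim p) {w : Fin 3 → ℝ} (hw : ‖w‖ = 1) {R : ℝ} (hR : 0 < R)
    (hC : 0 < C) (S : Finset (Fin 3 → ℤ))
    (hS : ∀ q ∈ S, p ⬝ᵥ q = 0 ∧ sn p ≤ r * sn q ∧ (∀ i, |(q i : ℝ) - sn q * w i| ≤ r * sn q) ∧
      R ≤ sn q ∧ sn q ≤ (1 + r) * R) :
    ∑ q ∈ S, 1 / sn q ^ 2 ≤ 9 * C * r ^ 2 / sn p := by
  have hp1 := one_le_sn hp
  have hp0 : 0 < sn p := lt_of_lt_of_le one_pos hp1
  rcases S.eq_empty_or_nonempty with h | ⟨q₀, hq₀⟩
  · rw [h, Finset.sum_empty]
    positivity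
  · have hrR : sn p ≤ 3 * r * R := by
      obtain ⟨-, h1, -, -, h2⟩ := hS q₀ hq₀
      have h3 : r * sn q₀ ≤ r * ((1 + r) * R) := mul_le_mul_of_nonneg_left h2 hr.le
      nlinarith [mul_pos hr hR]
    have hcard := hB p hp (fun i => R * w i) (3 * r * R) hrR S (by
      intro q hq
      obtain ⟨h1, h2, h3, h4, h5⟩ := hS q hq
      refine ⟨h1, fun i => ?_⟩
      have hwi : |w i| ≤ 1 := by
        rw [← hw, ← Real.norm_eq_abs]
        exact norm_le_pi_norm w i
      have e : (q i : ℝ) - R * w i = ((q i : ℝ) - sn q * w i) + (sn q - R) * w i := by ring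
      have h6 : |(sn q - R) * w i| ≤ r * R := by
        rw [abs_mul]
        have h7 : |sn q - R| ≤ r * R := by
          rw [abs_of_nonneg (by linarith)]
          linarith
        calc |sn q - R| * |w i| ≤ (r * R) * 1 :=
              mul_le_mul h7 hwi (abs_nonneg _) (by positivity)
          _ = r * R := mul_one _
      have h8 : r * sn q ≤ r * ((1 + r) * R) := mul_le_mul_of_nonneg_left h5 hr.le
      have h9 := h3 i
      calc |(q i : ℝ) - R * w i| ≤ |(q i : ℝ) - sn q * w i| + |(sn q - R) * w i| := by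
            rw [e]; exact abs_add_le _ _
        _ ≤ r * ((1 + r) * R) + r * R := by linarith
        _ ≤ 3 * r * R := by nlinarith [mul_pos hr hR])
    have hterm : ∀ q ∈ S, 1 / sn q ^ 2 ≤ 1 / R ^ 2 := by
      intro q hq
      obtain ⟨-, -, -, h4, -⟩ := hS q hq
      exact one_div_le_one_div_of_le (by positivity) (pow_le_pow_left₀ hR.le h4 2)
    calc ∑ q ∈ S, 1 / sn q ^ 2 ≤ ∑ _q ∈ S, 1 / R ^ 2 := Finset.sum_le_sum hterm
      _ = S.card * (1 / R ^ 2) := by rw [Finset.sum_const, nsmul_eq_mul]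
      _ ≤ (C * (3 * r * R) ^ 2 / sn p) * (1 / R ^ 2) :=
          mul_le_mul_of_nonneg_right hcard (by positivity)
      _ = 9 * C * r ^ 2 / sn p := by
          field_simp
          ring

end S3_

open S3_ in
theorem p_S3 (h : tB4) : tS3 := by
  obtain ⟨C, hC, hB⟩ := h
  refine ⟨45 / 2 * C, by positivity, ?_⟩
  intro r hr hr2 p hp X hX w hw S hS
  have hp1 := one_le_sn hp
  have hp0 : 0 < sn p := lt_of_lt_of_le one_pos hp1
  set L := Real.log (1 + r) with hL
  have hL0 : 0 < L := Real.log_pos (by linarith)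
  have hLr : 2 / 3 * r ≤ L := by
    have h1 := Real.one_sub_inv_le_log_of_pos (show (0 : ℝ) < 1 + r by linarith)
    have h2 : 1 - (1 + r)⁻¹ = r / (1 + r) := by
      field_simp
      ring
    rw [h2] at h1
    have h3 : 2 / 3 * r ≤ r / (1 + r) := by
      rw [le_div_iff₀ (by linarith)]
      nlinarith
    linarith
  have hX0 : 0 < X := by linarith
  have hlX : 0 < Real.log X := Real.log_pos (by linarith)
  have hsn : ∀ q ∈ S, 1 ≤ sn q := by
    intro q hq
    obtain ⟨-, h1, -, -⟩ := hS q hq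
    nlinarith [sn_nonneg q]
  set jf : (Fin 3 → ℤ) → ℕ := fun q => ⌊Real.log (sn q) / L⌋₊ with hjf
  set J : ℕ := ⌊Real.log X / L⌋₊ with hJ
  have hmaps : ∀ q ∈ S, jf q ∈ Finset.range (J + 1) := by
    intro q hq
    rw [Finset.mem_range, Nat.lt_succ_iff]
    refine Nat.floor_le_floor ?_
    have h1 : 0 < sn q := lt_of_lt_of_le one_pos (hsn q hq)
    exact div_le_div_of_nonneg_right (Real.log_le_log h1 (hS q hq).2.2.1) hL0.le
  have hexp : Real.exp L = 1 + r := Real.exp_log (by linarith)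
  have hshell : ∀ j ∈ Finset.range (J + 1),
      ∑ q ∈ S with jf q = j, 1 / sn q ^ 2 ≤ 9 * C * r ^ 2 / sn p := by
    intro j _
    refine shell hB hr hr2 hp hw (R := (1 + r) ^ j) (by positivity) hC _ ?_
    intro q hq
    rw [Finset.mem_filter] at hq
    obtain ⟨hqS, hqj⟩ := hq
    obtain ⟨h1, h2, h3, h4⟩ := hS q hqS
    have h5 := hsn q hqS
    have h50 : 0 < sn q := lt_of_lt_of_le one_pos h5
    have h6 : 0 ≤ Real.log (sn q) / L := div_nonneg (Real.log_nonneg h5) hL0.le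
    have h7 : (j : ℝ) ≤ Real.log (sn q) / L := by
      rw [← hqj]
      exact Nat.floor_le h6
    have h8 : Real.log (sn q) / L < (j : ℝ) + 1 := by
      rw [← hqj]
      exact Nat.lt_floor_add_one _
    refine ⟨h1, h2, h4, ?_, ?_⟩
    · rw [le_div_iff₀ hL0] at h7
      calc (1 + r) ^ j = Real.exp (j * L) := by rw [Real.exp_nat_mul, hexp]
        _ ≤ Real.exp (Real.log (sn q)) := Real.exp_le_exp.2 h7
        _ = sn q := Real.exp_log h50
    · rw [div_lt_iff₀ hL0] at h8
      calc sn q = Real.exp (Real.log (sn q)) := (Real.exp_log h50).symm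
        _ ≤ Real.exp (((j + 1 : ℕ) : ℝ) * L) := by
            apply Real.exp_le_exp.2
            push_cast
            exact h8.le
        _ = (1 + r) ^ (j + 1) := by rw [Real.exp_nat_mul, hexp]
        _ = (1 + r) * (1 + r) ^ j := by ring
  have hcount : (J : ℝ) + 1 ≤ 5 / 2 * (Real.log X / r) := by
    have h1 : (J : ℝ) ≤ Real.log X / L := Nat.floor_le (div_nonneg hlX.le hL0.le)
    have h2 : Real.log X / L ≤ 3 / 2 * (Real.log X / r) := by
      rw [div_le_iff₀ hL0]
      have h3 : 3 / 2 * (Real.log X / r) * (2 / 3 * r) = Real.log X := by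
        field_simp
      calc Real.log X = 3 / 2 * (Real.log X / r) * (2 / 3 * r) := h3.symm
        _ ≤ 3 / 2 * (Real.log X / r) * L := mul_le_mul_of_nonneg_left hLr (by positivity)
    have h4 : 1 ≤ Real.log X / r := by
      rw [le_div_iff₀ hr, one_mul]
      have h5 : Real.log 2 ≤ Real.log X := Real.log_le_log (by norm_num) hX
      have h6 := Real.log_two_gt_d9
      linarith
    linarith
  calc ∑ q ∈ S, 1 / sn q ^ 2
      = ∑ j ∈ Finset.range (J + 1), ∑ q ∈ S with jf q = j, 1 / sn q ^ 2 :=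
        (Finset.sum_fiberwise_of_maps_to hmaps _).symm
    _ ≤ ∑ _j ∈ Finset.range (J + 1), 9 * C * r ^ 2 / sn p := Finset.sum_le_sum hshell
    _ = ((J : ℝ) + 1) * (9 * C * r ^ 2 / sn p) := by
        rw [Finset.sum_const, Finset.card_range, nsmul_eq_mul]
        push_cast
        ring
    _ ≤ (5 / 2 * (Real.log X / r)) * (9 * C * r ^ 2 / sn p) :=
        mul_le_mul_of_nonneg_right hcount (by positivity)
    _ = 45 / 2 * C * r * Real.log X / sn p := by
        field_simp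
        ring

end SAIL.A
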