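import Pool.Agent.SAIL.ARI.Targets

/-!
# SAIL, part D: S4, sum over the integer vectors of a narrow cone
-/

namespace SAIL.A

open Matrix MeasureTheory Filter SAIL

namespace S4x

lemma card_Icc_le (c ρ : ℝ) (hρ : 0 ≤ ρ) :
    ((Finset.Icc ⌈c - ρ⌉ ⌊c + ρ⌋).card : ℝ) ≤ 2 * ρ + 1 := by
  rw [Int.card_Icc]
  have h1 : (⌊c + ρ⌋ : ℝ) ≤ c + ρ := Int.floor_le _
  have h2 : c - ρ ≤ (⌈c - ρ⌉ : ℝ) := Int.le_ceil _
  rcases le_total 0 (⌊c + ρ⌋ + 1 - ⌈c - ρ⌉) with h | h
  · have h3 : (((⌊c + ρ⌋ + 1 - ⌈c - ρ⌉).toNat : ℤ) : ℝ) = ((⌊c + ρ⌋ + 1 - ⌈c - ρ⌉ : ℤ) : ℝ) := by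
      rw [Int.toNat_of_nonneg h]
    have h4 : (((⌊c + ρ⌋ + 1 - ⌈c - ρ⌉).toNat : ℕ) : ℝ) = ((⌊c + ρ⌋ + 1 - ⌈c - ρ⌉ : ℤ) : ℝ) := by
      rw [← h3]; norm_cast
    rw [h4]
    push_cast
    linarith
  · rw [Int.toNat_of_nonpos h]
    simp only [Nat.cast_zero]
    linarith

lemma card_le (c : Fin 3 → ℝ) (ρ : ℝ) (hρ : 0 ≤ ρ) (S : Finset (Fin 3 → ℤ))
    (hS : ∀ v ∈ S, ∀ i, |(v i : ℝ) - c i| ≤ ρ) : (S.card : ℝ) ≤ (2 * ρ + 1) ^ 3 := by
  have hsub : S ⊆ Fintype.piFinset (fun i : Fin 3 => Finset.Icc ⌈c i - ρ⌉ ⌊c i + ρ⌋) := by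
    intro v hv
    rw [Fintype.mem_piFinset]
    intro i
    have h := abs_le.1 (hS v hv i)
    rw [Finset.mem_Icc]
    constructor
    · rw [Int.ceil_le]; linarith [h.1]
    · rw [Int.le_floor]; linarith [h.2]
  have h1 : (S.card : ℝ) ≤
      ((Fintype.piFinset (fun i : Fin 3 => Finset.Icc ⌈c i - ρ⌉ ⌊c i + ρ⌋)).card : ℝ) := by
    exact_mod_cast Finset.card_le_card hsub
  refine h1.trans ?_
  rw [Fintype.card_piFinset]
  push_cast
  calc ∏ i : Fin 3, ((Finset.Icc ⌈c i - ρ⌉ ⌊c i + ρ⌋).card : ℝ)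
      ≤ ∏ _i : Fin 3, (2 * ρ + 1) :=
        Finset.prod_le_prod (fun _ _ => Nat.cast_nonneg _) (fun i _ => card_Icc_le _ _ hρ)
    _ = (2 * ρ + 1) ^ 3 := by simp

/-- `exp r ≤ 1 + 2 r` for `r` between `0` and `1/2`. -/
lemma exp_le {r : ℝ} (h0 : 0 ≤ r) (h1 : r ≤ 1 / 2) : Real.exp r ≤ 1 + 2 * r := by
  have h2 : Real.exp r ≤ 1 / (1 - r) := by
    have := Real.one_sub_le_exp_neg r
    rw [Real.exp_neg] at this
    have hpos : 0 < 1 - r := by linarith
    rw [le_div_iff₀ hpos]
    have he := Real.exp_pos r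
    calc Real.exp r * (1 - r) ≤ Real.exp r * (Real.exp r)⁻¹ :=
          mul_le_mul_of_nonneg_left this he.le
      _ = 1 := mul_inv_cancel₀ he.ne'
  refine h2.trans ?_
  have hpos : 0 < 1 - r := by linarith
  rw [div_le_iff₀ hpos]
  nlinarith

end S4x

open S4x

theorem p_S4 : tS4 := by
  refine ⟨1728, by norm_num, ?_⟩
  intro r hr0 hr1
  set M : ℕ := ⌈-Real.log (4 * r) / r⌉₊ with hM
  refine ⟨1728 * r ^ 3 + 27 * M + 1, by positivity, ?_⟩
  intro X hX u hu S hS
  have hlogX : 0 ≤ Real.log X := Real.log_nonneg (by linarith)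
  have hmaps : ∀ v ∈ S, ⌊Real.log (sn v) / r⌋₊ ∈ Finset.range (⌊Real.log X / r⌋₊ + 1) := by
    intro v hv
    rw [Finset.mem_range, Nat.lt_succ_iff]
    apply Nat.floor_le_floor
    apply div_le_div_of_nonneg_right _ hr0.le
    exact Real.log_le_log (by linarith [(hS v hv).1]) (hS v hv).2.1
  rw [← Finset.sum_fiberwise_of_maps_to hmaps]
  have hfib : ∀ k ∈ Finset.range (⌊Real.log X / r⌋₊ + 1),
      ∑ v ∈ S.filter (fun v => ⌊Real.log (sn v) / r⌋₊ = k), 1 / sn v ^ 3 ≤
        1728 * r ^ 3 + (if k < M then 27 else 0) := by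
    intro k _
    set R : ℝ := Real.exp (r * k) with hR
    have hR1 : 1 ≤ R := Real.one_le_exp (by positivity)
    have hR0 : 0 < R := by linarith
    set T := S.filter (fun v => ⌊Real.log (sn v) / r⌋₊ = k) with hT
    have hlo : ∀ v ∈ T, R ≤ sn v := by
      intro v hv
      rw [hT, Finset.mem_filter] at hv
      have h1 := (hS v hv.1).1
      have h0 : 0 < sn v := by linarith
      rw [hR, ← Real.le_log_iff_exp_le h0]
      have h2 : (k : ℝ) ≤ Real.log (sn v) / r := by
        rw [← hv.2]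
        exact Nat.floor_le (div_nonneg (Real.log_nonneg h1) hr0.le)
      rw [le_div_iff₀ hr0] at h2
      linarith
    have hhi : ∀ v ∈ T, sn v ≤ R * (1 + 2 * r) := by
      intro v hv
      rw [hT, Finset.mem_filter] at hv
      have h1 := (hS v hv.1).1
      have h0 : 0 < sn v := by linarith
      have h2 : Real.log (sn v) / r ≤ (k : ℝ) + 1 := by
        rw [← hv.2]
        exact (Nat.lt_floor_add_one _).le
      rw [div_le_iff₀ hr0] at h2
      have h3 : sn v ≤ Real.exp (r * k + r) := by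
        rw [← Real.log_le_iff_le_exp h0]
        linarith
      rw [Real.exp_add] at h3
      exact h3.trans (mul_le_mul_of_nonneg_left (exp_le hr0.le hr1.le) hR0.le)
    have hcard : (T.card : ℝ) ≤ (2 * (4 * r * R) + 1) ^ 3 := by
      apply card_le (fun i => R * u i) _ (by positivity)
      intro v hv i
      have hv' := hv
      rw [hT, Finset.mem_filter] at hv'
      have h1 := (hS v hv'.1).2.2 i
      have hui : |u i| ≤ 1 := by
        have := norm_le_pi_norm u i
        rw [hu, Real.norm_eq_abs] at this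
        exact this
      have h2 : |sn v * u i - R * u i| ≤ 2 * r * R := by
        rw [← sub_mul, abs_mul, abs_of_nonneg (by linarith [hlo v hv] : (0 : ℝ) ≤ sn v - R)]
        calc (sn v - R) * |u i| ≤ (sn v - R) * 1 :=
              mul_le_mul_of_nonneg_left hui (by linarith [hlo v hv])
          _ ≤ 2 * r * R := by nlinarith [hhi v hv]
      have h3 : r * sn v ≤ 2 * r * R := by
        have h4 := hhi v hv
        have h5 : sn v ≤ 2 * R := by nlinarith
        nlinarith
      have h6 : (v i : ℝ) - R * u i = ((v i : ℝ) - sn v * u i) + (sn v * u i - R * u i) := by ring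
      show |(v i : ℝ) - R * u i| ≤ 4 * r * R
      rw [h6]
      calc |((v i : ℝ) - sn v * u i) + (sn v * u i - R * u i)|
          ≤ |(v i : ℝ) - sn v * u i| + |sn v * u i - R * u i| := abs_add_le _ _
        _ ≤ 2 * r * R + 2 * r * R := add_le_add (h1.trans h3) h2
        _ = 4 * r * R := by ring
    have hterm : ∑ v ∈ T, 1 / sn v ^ 3 ≤ (T.card : ℝ) * (1 / R ^ 3) := by
      calc ∑ v ∈ T, 1 / sn v ^ 3 ≤ ∑ _v ∈ T, 1 / R ^ 3 := by
            apply Finset.sum_le_sum
            intro v hv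
            apply one_div_le_one_div_of_le (by positivity)
            exact pow_le_pow_left₀ hR0.le (hlo v hv) 3
        _ = (T.card : ℝ) * (1 / R ^ 3) := by rw [Finset.sum_const, nsmul_eq_mul]
    have hmul : (T.card : ℝ) * (1 / R ^ 3) ≤ (2 * (4 * r * R) + 1) ^ 3 * (1 / R ^ 3) :=
      mul_le_mul_of_nonneg_right hcard (by positivity)
    rcases lt_or_ge k M with hk | hk
    · rw [if_pos hk]
      rcases le_total 1 (4 * r * R) with h | h
      · have h1 : (2 * (4 * r * R) + 1) ^ 3 ≤ (12 * r * R) ^ 3 :=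
          pow_le_pow_left₀ (by positivity) (by linarith) 3
        have h2 : (2 * (4 * r * R) + 1) ^ 3 * (1 / R ^ 3) ≤ 1728 * r ^ 3 := by
          calc (2 * (4 * r * R) + 1) ^ 3 * (1 / R ^ 3) ≤ (12 * r * R) ^ 3 * (1 / R ^ 3) :=
                mul_le_mul_of_nonneg_right h1 (by positivity)
            _ = 1728 * r ^ 3 := by field_simp; ring
        linarith
      · have h1 : (2 * (4 * r * R) + 1) ^ 3 ≤ 3 ^ 3 :=
          pow_le_pow_left₀ (by positivity) (by linarith) 3
        have h3 : 1 / R ^ 3 ≤ 1 := by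
          rw [div_le_one (by positivity)]
          exact one_le_pow₀ hR1
        have h2 : (2 * (4 * r * R) + 1) ^ 3 * (1 / R ^ 3) ≤ 3 ^ 3 * 1 :=
          mul_le_mul h1 h3 (by positivity) (by norm_num)
        have h4 : 0 ≤ 1728 * r ^ 3 := by positivity
        linarith
    · rw [if_neg (not_lt.2 hk)]
      have h : 1 ≤ 4 * r * R := by
        have h1 : -Real.log (4 * r) / r ≤ (k : ℝ) :=
          (Nat.le_ceil _).trans (by exact_mod_cast hk)
        rw [div_le_iff₀ hr0] at h1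
        have h2 : Real.exp (-Real.log (4 * r)) ≤ R := by
          rw [hR]
          apply Real.exp_le_exp.2
          linarith
        have h4r : 0 < 4 * r := by linarith
        rw [Real.exp_neg, Real.exp_log h4r] at h2
        calc (1 : ℝ) = 4 * r * (4 * r)⁻¹ := (mul_inv_cancel₀ h4r.ne').symm
          _ ≤ 4 * r * R := mul_le_mul_of_nonneg_left h2 h4r.le
      have h1 : (2 * (4 * r * R) + 1) ^ 3 ≤ (12 * r * R) ^ 3 :=
        pow_le_pow_left₀ (by positivity) (by linarith) 3
      have h2 : (2 * (4 * r * R) + 1) ^ 3 * (1 / R ^ 3) ≤ 1728 * r ^ 3 := by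
        calc (2 * (4 * r * R) + 1) ^ 3 * (1 / R ^ 3) ≤ (12 * r * R) ^ 3 * (1 / R ^ 3) :=
              mul_le_mul_of_nonneg_right h1 (by positivity)
          _ = 1728 * r ^ 3 := by field_simp; ring
      linarith
  have hsumM : ∀ N : ℕ, ∑ k ∈ Finset.range N, (if k < M then (27 : ℝ) else 0) ≤ 27 * M := by
    intro N
    rw [← Finset.sum_filter, Finset.sum_const, nsmul_eq_mul]
    have h1 : ((Finset.range N).filter (fun k => k < M)).card ≤ M := by
      calc ((Finset.range N).filter (fun k => k < M)).card ≤ (Finset.range M).card := by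
            apply Finset.card_le_card
            intro k hk
            rw [Finset.mem_filter] at hk
            exact Finset.mem_range.2 hk.2
        _ = M := Finset.card_range M
    have h2 : (((Finset.range N).filter (fun k => k < M)).card : ℝ) ≤ M := by exact_mod_cast h1
    linarith
  calc ∑ k ∈ Finset.range (⌊Real.log X / r⌋₊ + 1),
        ∑ v ∈ S.filter (fun v => ⌊Real.log (sn v) / r⌋₊ = k), 1 / sn v ^ 3
      ≤ ∑ k ∈ Finset.range (⌊Real.log X / r⌋₊ + 1),
          (1728 * r ^ 3 + (if k < M then (27 : ℝ) else 0)) := Finset.sum_le_sum hfib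
    _ = ((⌊Real.log X / r⌋₊ : ℝ) + 1) * (1728 * r ^ 3) +
          ∑ k ∈ Finset.range (⌊Real.log X / r⌋₊ + 1), (if k < M then (27 : ℝ) else 0) := by
        rw [Finset.sum_add_distrib, Finset.sum_const, nsmul_eq_mul, Finset.card_range]
        push_cast
        ring
    _ ≤ (Real.log X / r + 1) * (1728 * r ^ 3) + 27 * M := by
        apply add_le_add _ (hsumM _)
        apply mul_le_mul_of_nonneg_right _ (by positivity)
        linarith [Nat.floor_le (div_nonneg hlogX hr0.le)]
    _ ≤ 1728 * r ^ 2 * Real.log X + (1728 * r ^ 3 + 27 * M + 1) := by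
        have h1 : (Real.log X / r + 1) * (1728 * r ^ 3) =
            1728 * r ^ 2 * Real.log X + 1728 * r ^ 3 := by
          field_simp
        rw [h1]
        linarith

end SAIL.A
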