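import Pool.Agent.SAIL.ARI.Targets

/-!
# SAIL, part D: target S5, lower bound for the sum over a plane
-/

namespace SAIL.A

open Matrix Finset

namespace S5x

/-- natural sup norm -/
def hn (q : Fin 3 → ℤ) : ℕ := max (max (q 0).natAbs (q 1).natAbs) (q 2).natAbs

theorem natAbs_le_hn (q : Fin 3 → ℤ) (i : Fin 3) : (q i).natAbs ≤ hn q := by
  unfold hn
  fin_cases i
  · exact (le_max_left _ _).trans (le_max_left _ _)
  · exact (le_max_right _ _).trans (le_max_left _ _)
  · exact le_max_right _ _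

theorem abs_cast (z : ℤ) : |(z : ℝ)| = (z.natAbs : ℝ) := by
  rw [Nat.cast_natAbs, Int.cast_abs]

theorem sn_eq (q : Fin 3 → ℤ) : sn q = (hn q : ℝ) := by
  unfold sn
  apply le_antisymm
  · rw [pi_norm_le_iff_of_nonneg (Nat.cast_nonneg _)]
    intro i
    rw [Real.norm_eq_abs, abs_cast]
    exact_mod_cast natAbs_le_hn q i
  · have h : ∀ i, ((q i).natAbs : ℝ) ≤ ‖(fun i => (q i : ℝ) : Fin 3 → ℝ)‖ := by
      intro i
      have := norm_le_pi_norm (fun i => (q i : ℝ) : Fin 3 → ℝ) i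
      rwa [Real.norm_eq_abs, abs_cast] at this
    unfold hn
    push_cast
    exact max_le (max_le (h 0) (h 1)) (h 2)

theorem hn_le_iff {q : Fin 3 → ℤ} {k : ℕ} : hn q ≤ k ↔ ∀ i, (q i).natAbs ≤ k := by
  constructor
  · intro h i
    exact (natAbs_le_hn q i).trans h
  · intro h
    unfold hn
    exact max_le (max_le (h 0) (h 1)) (h 2)

theorem hn_pos {q : Fin 3 → ℤ} (h : q ≠ 0) : 1 ≤ hn q := by
  by_contra hc
  apply h
  funext i
  have h1 := natAbs_le_hn q i
  have h2 : (q i).natAbs = 0 := by omega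
  simpa using h2

/-- the integer points of the plane in a box -/
noncomputable def PB (p : Fin 3 → ℤ) (k : ℕ) : Finset (Fin 3 → ℤ) :=
  (Fintype.piFinset fun _ : Fin 3 => Finset.Icc (-(k : ℤ)) k).filter fun q => p ⬝ᵥ q = 0

theorem mem_PB {p q : Fin 3 → ℤ} {k : ℕ} : q ∈ PB p k ↔ hn q ≤ k ∧ p ⬝ᵥ q = 0 := by
  unfold PB
  rw [Finset.mem_filter, Fintype.mem_piFinset, hn_le_iff]
  refine and_congr_left fun _ => forall_congr' fun i => ?_
  rw [Finset.mem_Icc]
  omega

/-- pigeonhole -/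
theorem card_PB {p : Fin 3 → ℤ} (hp : p ≠ 0) (k : ℕ) :
    ((k : ℝ) + 1) ^ 2 / (3 * hn p) ≤ ((PB p k).card : ℝ) := by
  have hh : 1 ≤ hn p := hn_pos hp
  have hh' : (1 : ℝ) ≤ hn p := by exact_mod_cast hh
  set X : Finset (Fin 3 → ℤ) := Fintype.piFinset fun _ : Fin 3 => Finset.Icc (0 : ℤ) k with hX
  have hXc : X.card = (k + 1) ^ 3 := by
    rw [hX, Fintype.card_piFinset]
    simp
  set lo : ℤ := k * (min (p 0) 0 + min (p 1) 0 + min (p 2) 0) with hlo
  set hi : ℤ := k * (max (p 0) 0 + max (p 1) 0 + max (p 2) 0) with hhi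
  have hdot : ∀ x : Fin 3 → ℤ, p ⬝ᵥ x = p 0 * x 0 + p 1 * x 1 + p 2 * x 2 := by
    intro x
    simp [dotProduct, Fin.sum_univ_three]
  have hb : ∀ a x : ℤ, 0 ≤ x → x ≤ k → k * min a 0 ≤ a * x ∧ a * x ≤ k * max a 0 := by
    intro a x h0 h1
    rcases le_total a 0 with ha | ha
    · rw [min_eq_left ha, max_eq_right ha]
      constructor <;> nlinarith
    · rw [min_eq_right ha, max_eq_left ha]
      constructor <;> nlinarith
  have hmaps : ∀ x ∈ X, p ⬝ᵥ x ∈ Finset.Icc lo hi := by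
    intro x hx
    rw [hX, Fintype.mem_piFinset] at hx
    have h0 := Finset.mem_Icc.1 (hx 0)
    have h1 := Finset.mem_Icc.1 (hx 1)
    have h2 := Finset.mem_Icc.1 (hx 2)
    have b0 := hb (p 0) (x 0) h0.1 h0.2
    have b1 := hb (p 1) (x 1) h1.1 h1.2
    have b2 := hb (p 2) (x 2) h2.1 h2.2
    rw [hdot, Finset.mem_Icc, hlo, hhi]
    constructor <;> linarith [b0.1, b0.2, b1.1, b1.2, b2.1, b2.2]
  have hTc : ((Finset.Icc lo hi).card : ℝ) ≤ 3 * hn p * (k + 1) := by
    have e1 : hi - lo = k * (|p 0| + |p 1| + |p 2|) := by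
      have e2 : ∀ a : ℤ, max a 0 - min a 0 = |a| := by
        intro a
        rcases le_total a 0 with ha | ha
        · rw [min_eq_left ha, max_eq_right ha, abs_of_nonpos ha]
          ring
        · rw [min_eq_right ha, max_eq_left ha, abs_of_nonneg ha]
          ring
      rw [hhi, hlo, ← e2, ← e2, ← e2]
      ring
    have e3 : ∀ i, |p i| ≤ (hn p : ℤ) := by
      intro i
      have := natAbs_le_hn p i
      rw [← Int.natCast_natAbs]
      exact_mod_cast this
    have e4 : hi - lo ≤ 3 * hn p * k := by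
      rw [e1]
      have := e3 0
      have := e3 1
      have := e3 2
      have hk : (0 : ℤ) ≤ k := Nat.cast_nonneg k
      nlinarith
    have e5 : ((Finset.Icc lo hi).card : ℤ) ≤ 3 * hn p * k + 1 := by
      rw [Int.card_Icc]
      have e6 : (0 : ℤ) ≤ 3 * hn p * k + 1 := by positivity
      omega
    have e7 : ((Finset.Icc lo hi).card : ℝ) ≤ 3 * hn p * k + 1 := by exact_mod_cast e5
    nlinarith
  have hT0 : (Finset.Icc lo hi).Nonempty := by
    refine ⟨p ⬝ᵥ (0 : Fin 3 → ℤ), hmaps 0 ?_⟩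
    rw [hX, Fintype.mem_piFinset]
    intro i
    simp
  have hk1 : (0 : ℝ) < (k : ℝ) + 1 := by positivity
  obtain ⟨y, -, hy⟩ := Finset.exists_le_card_fiber_of_nsmul_le_card_of_maps_to (s := X)
    (t := Finset.Icc lo hi) (f := fun x => p ⬝ᵥ x) (b := ((k : ℝ) + 1) ^ 2 / (3 * hn p))
    hmaps hT0 (by
      rw [nsmul_eq_mul, hXc]
      push_cast
      have h3 : (0 : ℝ) ≤ ((k : ℝ) + 1) ^ 2 / (3 * hn p) := by positivity
      calc ((Finset.Icc lo hi).card : ℝ) * (((k : ℝ) + 1) ^ 2 / (3 * hn p))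
          ≤ (3 * hn p * (k + 1)) * (((k : ℝ) + 1) ^ 2 / (3 * hn p)) :=
            mul_le_mul_of_nonneg_right hTc h3
        _ = ((k : ℝ) + 1) ^ 3 := by field_simp)
  refine hy.trans ?_
  have hpos : 0 < ((k : ℝ) + 1) ^ 2 / (3 * hn p) := by positivity
  have hne : (X.filter fun x => p ⬝ᵥ x = y).Nonempty := by
    rw [← Finset.card_pos]
    have : (0 : ℝ) < ((X.filter fun x => p ⬝ᵥ x = y).card : ℝ) := hpos.trans_le hy
    exact_mod_cast this
  obtain ⟨x₀, hx₀⟩ := hne
  have hinj : (X.filter fun x => p ⬝ᵥ x = y).card ≤ (PB p k).card := by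
    refine Finset.card_le_card_of_injOn (fun x => x - x₀) (fun x hx => ?_) ?_
    · have hx' := Finset.mem_filter.1 (Finset.mem_coe.1 hx)
      have hx₀' := Finset.mem_filter.1 hx₀
      refine Finset.mem_coe.2 (mem_PB.2 ⟨hn_le_iff.2 fun i => ?_, ?_⟩)
      · have h1 := Finset.mem_Icc.1 (Fintype.mem_piFinset.1 hx'.1 i)
        have h2 := Finset.mem_Icc.1 (Fintype.mem_piFinset.1 hx₀'.1 i)
        simp only [Pi.sub_apply]
        omega
      · rw [dotProduct_sub, hx'.2, hx₀'.2, sub_self]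
    · intro a _ b _ hab
      simpa using hab
  exact_mod_cast hinj

/-- the weights -/
noncomputable def dk (k : ℕ) : ℝ := 1 / (k : ℝ) ^ 2 - 1 / ((k : ℝ) + 1) ^ 2

theorem dk_nonneg {k : ℕ} (hk : 1 ≤ k) : 0 ≤ dk k := by
  unfold dk
  have h1 : (1 : ℝ) ≤ k := by exact_mod_cast hk
  have h2 : 1 / ((k : ℝ) + 1) ^ 2 ≤ 1 / (k : ℝ) ^ 2 := by
    apply one_div_le_one_div_of_le (by positivity)
    nlinarith
  linarith

theorem sum_dk {a b : ℕ} (hab : a ≤ b) :
    ∑ k ∈ Finset.Ico a b, dk k = 1 / (a : ℝ) ^ 2 - 1 / (b : ℝ) ^ 2 := by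
  induction b, hab using Nat.le_induction with
  | base => simp
  | succ b hb ih =>
    rw [Finset.sum_Ico_succ_top hb, ih]
    unfold dk
    push_cast
    ring

theorem inner_le {M h : ℕ} (hh : 1 ≤ h) :
    ∑ k ∈ Finset.Ico 1 M, (if h ≤ k then dk k else 0) ≤ 1 / (h : ℝ) ^ 2 := by
  rw [← Finset.sum_filter]
  have h1 : (Finset.Ico 1 M).filter (fun k => h ≤ k) = Finset.Ico h M := by
    ext k
    simp only [Finset.mem_filter, Finset.mem_Ico]
    omega
  rw [h1]
  rcases le_total h M with hM | hM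
  · rw [sum_dk hM]
    have : 0 ≤ 1 / (M : ℝ) ^ 2 := by positivity
    linarith
  · rw [Finset.Ico_eq_empty (by omega)]
    simp only [Finset.sum_empty]
    positivity

theorem sum_log {a b : ℕ} (ha : 1 ≤ a) (hab : a ≤ b) :
    Real.log b - Real.log a ≤ ∑ k ∈ Finset.Ico a b, 1 / (k : ℝ) := by
  induction b, hab using Nat.le_induction with
  | base => simp
  | succ b hb ih =>
    rw [Finset.sum_Ico_succ_top hb]
    have hb0 : (0 : ℝ) < b := by exact_mod_cast (by omega : 0 < b)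
    have h1 : Real.log ((b + 1 : ℕ) : ℝ) - Real.log b ≤ 1 / (b : ℝ) := by
      push_cast
      rw [← Real.log_div (by positivity) hb0.ne']
      have h2 := Real.log_le_sub_one_of_pos (show (0 : ℝ) < ((b : ℝ) + 1) / b by positivity)
      have h3 : ((b : ℝ) + 1) / b - 1 = 1 / b := by
        field_simp
        ring
      rwa [h3] at h2
    linarith

/-- the set -/
noncomputable def SS (p : Fin 3 → ℤ) (M : ℕ) : Finset (Fin 3 → ℤ) := (PB p M).filter fun q => q ≠ 0

theorem main {p : Fin 3 → ℤ} (hp : p ≠ 0) (M : ℕ) (hM : 1 ≤ M) :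
    (1 / 3 * (Real.log M - Real.log (6 * hn p))) / hn p ≤ ∑ q ∈ SS p M, 1 / sn q ^ 2 := by
  have hh : 1 ≤ hn p := hn_pos hp
  have hh' : (1 : ℝ) ≤ hn p := by exact_mod_cast hh
  set H : ℕ := hn p with hH
  have h0 : 0 ≤ ∑ q ∈ SS p M, 1 / sn q ^ 2 := Finset.sum_nonneg fun q _ => by positivity
  rcases lt_or_ge M (6 * H) with hlt | hge
  · refine le_trans ?_ h0
    have h1 : Real.log M ≤ Real.log (6 * H) := by
      apply Real.log_le_log (by exact_mod_cast hM)
      exact_mod_cast hlt.le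
    refine div_nonpos_of_nonpos_of_nonneg ?_ (by positivity)
    linarith
  have h1 : ∑ q ∈ SS p M, ∑ k ∈ Finset.Ico 1 M, (if hn q ≤ k then dk k else 0) ≤
      ∑ q ∈ SS p M, 1 / sn q ^ 2 := by
    refine Finset.sum_le_sum fun q hq => ?_
    rw [sn_eq]
    exact inner_le (hn_pos (Finset.mem_filter.1 hq).2)
  refine le_trans ?_ h1
  rw [Finset.sum_comm]
  have h2 : ∀ k ∈ Finset.Ico 1 M, (∑ q ∈ SS p M, if hn q ≤ k then dk k else 0) =
      (((SS p M).filter fun q => hn q ≤ k).card : ℝ) * dk k := by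
    intro k _
    rw [← Finset.sum_filter, Finset.sum_const, nsmul_eq_mul]
  rw [Finset.sum_congr rfl h2]
  have h3 : ∀ k ∈ Finset.Ico (6 * H) M, 1 / (3 * (H : ℝ)) * (1 / (k : ℝ)) ≤
      (((SS p M).filter fun q => hn q ≤ k).card : ℝ) * dk k := by
    intro k hk
    obtain ⟨hk1, hk2⟩ := Finset.mem_Ico.1 hk
    have hk0 : 1 ≤ k := by omega
    have hkr : (1 : ℝ) ≤ k := by exact_mod_cast hk0
    have hk6 : 6 * (H : ℝ) ≤ k := by exact_mod_cast hk1
    have e1 := card_PB hp k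
    have e2 : (PB p k).card ≤ ((SS p M).filter fun q => hn q ≤ k).card + 1 := by
      have e3 : PB p k ⊆ insert 0 ((SS p M).filter fun q => hn q ≤ k) := by
        intro q hq
        by_cases h : q = 0
        · rw [h]
          exact Finset.mem_insert_self _ _
        · obtain ⟨q1, q2⟩ := mem_PB.1 hq
          refine Finset.mem_insert_of_mem (Finset.mem_filter.2
            ⟨Finset.mem_filter.2 ⟨mem_PB.2 ⟨q1.trans hk2.le, q2⟩, h⟩, q1⟩)
      exact (Finset.card_le_card e3).trans (Finset.card_insert_le _ _)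
    have e4 : ((k : ℝ) + 1) ^ 2 / (3 * H) ≤
        (((SS p M).filter fun q => hn q ≤ k).card : ℝ) + 1 := by
      refine e1.trans ?_
      exact_mod_cast e2
    have e5 : ((k : ℝ) + 1) ^ 2 / (6 * H) ≤
        (((SS p M).filter fun q => hn q ≤ k).card : ℝ) := by
      have e6 : (1 : ℝ) ≤ ((k : ℝ) + 1) ^ 2 / (6 * H) := by
        rw [one_le_div (by positivity)]
        nlinarith
      have e7 : ((k : ℝ) + 1) ^ 2 / (3 * H) = 2 * (((k : ℝ) + 1) ^ 2 / (6 * H)) := by
        field_simp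
        ring
      linarith
    refine le_trans ?_ (mul_le_mul_of_nonneg_right e5 (dk_nonneg hk0))
    have e8 : dk k = (2 * k + 1) / ((k : ℝ) ^ 2 * ((k : ℝ) + 1) ^ 2) := by
      unfold dk
      have : (k : ℝ) ≠ 0 := by positivity
      field_simp
      ring
    rw [e8]
    have e9 : ((k : ℝ) + 1) ^ 2 / (6 * H) * ((2 * k + 1) / ((k : ℝ) ^ 2 * ((k : ℝ) + 1) ^ 2)) =
        (2 * k + 1) / (6 * H * (k : ℝ) ^ 2) := by
      have : (k : ℝ) ≠ 0 := by positivity
      field_simp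
    rw [e9, one_div_mul_one_div, div_le_div_iff₀ (by positivity) (by positivity)]
    have hHr : (0 : ℝ) < H := by linarith
    nlinarith [mul_pos hHr (show (0 : ℝ) < k by linarith)]
  have h4 : ∑ k ∈ Finset.Ico (6 * H) M, (((SS p M).filter fun q => hn q ≤ k).card : ℝ) * dk k ≤
      ∑ k ∈ Finset.Ico 1 M, (((SS p M).filter fun q => hn q ≤ k).card : ℝ) * dk k := by
    refine Finset.sum_le_sum_of_subset_of_nonneg ?_ fun k hk _ =>
      mul_nonneg (Nat.cast_nonneg _) (dk_nonneg (Finset.mem_Ico.1 hk).1)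
    intro k hk
    rw [Finset.mem_Ico] at hk ⊢
    omega
  refine le_trans ?_ ((Finset.sum_le_sum h3).trans h4)
  rw [← Finset.mul_sum]
  have h5 := sum_log (a := 6 * H) (b := M) (by omega) hge
  push_cast at h5
  have h6 : (1 / 3 * (Real.log M - Real.log (6 * H))) / H =
      1 / (3 * (H : ℝ)) * (Real.log M - Real.log (6 * H)) := by
    field_simp
  rw [h6]
  exact mul_le_mul_of_nonneg_left h5 (by positivity)

end S5x

open S5x

theorem p_S5 : tS5 := by
  refine ⟨1 / 3, 4, by norm_num, by norm_num, fun p hp Z hZ => ?_⟩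
  have hp0 : p ≠ 0 := by
    rintro rfl
    have h := hp 2 fun i => by simp
    exact absurd (Int.isUnit_iff.1 h) (by norm_num)
  have hM : 1 ≤ ⌊Z⌋₊ := Nat.le_floor (by exact_mod_cast hZ)
  refine ⟨SS p ⌊Z⌋₊, fun q hq => ?_, ?_⟩
  · obtain ⟨h1, h2⟩ := Finset.mem_filter.1 hq
    obtain ⟨h3, h4⟩ := mem_PB.1 h1
    refine ⟨h2, h4, ?_⟩
    rw [sn_eq]
    have h5 : (hn q : ℝ) ≤ (⌊Z⌋₊ : ℝ) := by exact_mod_cast h3
    exact h5.trans (Nat.floor_le (by linarith))
  · refine le_trans ?_ (main hp0 ⌊Z⌋₊ hM)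
    rw [sn_eq]
    have hh' : (1 : ℝ) ≤ hn p := by exact_mod_cast hn_pos hp0
    refine div_le_div_of_nonneg_right ?_ (by positivity)
    have hM' : (1 : ℝ) ≤ (⌊Z⌋₊ : ℝ) := by exact_mod_cast hM
    have h1 : Z ≤ 2 * (⌊Z⌋₊ : ℝ) := by
      have := Nat.lt_floor_add_one Z
      linarith
    have h2 : Real.log Z ≤ Real.log 2 + Real.log (⌊Z⌋₊ : ℝ) := by
      rw [← Real.log_mul (by norm_num) (by positivity)]
      exact Real.log_le_log (by linarith) h1
    have h3 : Real.log (6 * (hn p : ℝ)) = Real.log 6 + Real.log (hn p : ℝ) :=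
      Real.log_mul (by norm_num) (by positivity)
    have h4 : Real.log 2 ≤ 1 := by
      have := Real.log_le_sub_one_of_pos (show (0 : ℝ) < 2 by norm_num)
      linarith
    have h5 : Real.log 6 ≤ 5 := by
      have := Real.log_le_sub_one_of_pos (show (0 : ℝ) < 6 by norm_num)
      linarith
    have h6 : 0 ≤ Real.log (hn p : ℝ) := Real.log_nonneg hh'
    rw [h3]
    linarith

end SAIL.A
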