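import Pool.Agent.SAIL.ARI.Targets

/-!
SAIL / ARI: sizes of eigenvectors (target tSPEC).
-/

namespace SAIL.A

open Matrix MeasureTheory Filter SAIL

namespace SPECx

lemma bez (v : Fin 3 → ℤ) (hv : prim v) : ∃ u : Fin 3 → ℤ, ∑ i, u i * v i = 1 := by
  obtain ⟨d, hd⟩ := (IsPrincipalIdealRing.principal (Ideal.span (Set.range v))).principal
  have h1 : ∀ i, d ∣ v i := by
    intro i
    have h2 : v i ∈ Ideal.span (Set.range v) := Ideal.subset_span ⟨i, rfl⟩
    rw [hd] at h2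
    exact Ideal.mem_span_singleton.1 h2
  have hu : IsUnit d := hv d h1
  have h3 : (1 : ℤ) ∈ Ideal.span (Set.range v) := by
    rw [hd]; exact Ideal.mem_span_singleton.2 hu.dvd
  obtain ⟨c, hc⟩ := (Submodule.mem_span_range_iff_exists_fun ℤ).1 h3
  exact ⟨c, by simpa using hc⟩

lemma prim_dvd {v : Fin 3 → ℤ} (hv : prim v) {g t : ℤ} (h : ∀ i, g ∣ t * v i) : g ∣ t := by
  obtain ⟨u, hu⟩ := bez v hv
  have h1 : t = ∑ i, u i * (t * v i) := by
    calc t = t * ∑ i, u i * v i := by rw [hu, mul_one]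
      _ = ∑ i, u i * (t * v i) := by
        rw [Finset.mul_sum]; exact Finset.sum_congr rfl fun i _ => by ring
  rw [h1]
  exact Finset.dvd_sum fun i _ => Dvd.dvd.mul_left (h i) _

lemma exists_max (v : Fin 3 → ℤ) : ∃ r, ∀ j, |v j| ≤ |v r| := Finite.exists_max (fun r => |v r|)

lemma max_pos {v : Fin 3 → ℤ} (hv : prim v) {r : Fin 3} (hr : ∀ j, |v j| ≤ |v r|) :
    1 ≤ |v r| := by
  by_contra hlt
  have h0 : |v r| = 0 := by
    have := abs_nonneg (v r)
    omega
  have h1 : ∀ j, v j = 0 := by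
    intro j
    have := hr j
    rw [h0] at this
    exact abs_eq_zero.1 (le_antisymm this (abs_nonneg _))
  have h2 := hv 2 (fun j => by rw [h1 j]; exact dvd_zero _)
  rw [Int.isUnit_iff] at h2
  omega

lemma sn_eq {v : Fin 3 → ℤ} {r : Fin 3} (hr : ∀ j, |v j| ≤ |v r|) : sn v = |(v r : ℝ)| := by
  unfold sn
  apply le_antisymm
  · refine (pi_norm_le_iff_of_nonneg (abs_nonneg _)).2 fun j => ?_
    rw [Real.norm_eq_abs]
    exact_mod_cast hr j
  · exact norm_le_pi_norm (fun i => (v i : ℝ)) r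

lemma row_le (A : IM) (r : Fin 3) : ∑ s, |A r s| ≤ nrm A := by
  unfold nrm
  exact Finset.single_le_sum (f := fun i => ∑ j, |A i j|)
    (fun i _ => Finset.sum_nonneg fun j _ => abs_nonneg _) (Finset.mem_univ r)

lemma entry_le (A : IM) (r s : Fin 3) : |A r s| ≤ nrm A :=
  le_trans (Finset.single_le_sum (f := fun j => |A r j|) (fun j _ => abs_nonneg _)
    (Finset.mem_univ s)) (row_le A r)

lemma sum_abs_le (A : IM) (v : Fin 3 → ℤ) (r : Fin 3) (N : ℤ) (hN : ∀ j, |v j| ≤ N) :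
    |(A *ᵥ v) r| ≤ (∑ s, |A r s|) * N := by
  unfold Matrix.mulVec dotProduct
  refine le_trans (Finset.abs_sum_le_sum_abs _ _) ?_
  rw [Finset.sum_mul]
  refine Finset.sum_le_sum fun s _ => ?_
  rw [abs_mul]
  exact mul_le_mul_of_nonneg_left (hN s) (abs_nonneg _)

lemma eig_le {A : IM} {v : Fin 3 → ℤ} {c : ℤ} (hv : prim v) (h : A *ᵥ v = c • v) :
    |c| ≤ nrm A := by
  obtain ⟨r, hr⟩ := exists_max v
  have hp := max_pos hv hr
  have h1 := sum_abs_le A v r _ hr
  rw [h, Pi.smul_apply, smul_eq_mul, abs_mul] at h1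
  have h2 : |c| * |v r| ≤ nrm A * |v r| :=
    le_trans h1 (mul_le_mul_of_nonneg_right (row_le A r) (abs_nonneg _))
  exact le_of_mul_le_mul_right h2 (by omega)

/-- shifted matrix -/
def sh (A : IM) (a : ℤ) : IM := A - a • (1 : IM)

lemma sh_row (A : IM) (a : ℤ) (r : Fin 3) : ∑ s, |sh A a r s| ≤ nrm A + |a| := by
  have h1 : ∀ s, |sh A a r s| ≤ |A r s| + |a * (1 : IM) r s| := by
    intro s
    unfold sh
    rw [Matrix.sub_apply, Matrix.smul_apply, smul_eq_mul]
    exact abs_sub _ _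
  have h2 : ∑ s, |a * (1 : IM) r s| = |a| := by
    rw [Finset.sum_eq_single r]
    · simp
    · intro s _ hs
      rw [Matrix.one_apply_ne (Ne.symm hs), mul_zero, abs_zero]
    · simp
  calc ∑ s, |sh A a r s| ≤ ∑ s, (|A r s| + |a * (1 : IM) r s|) := Finset.sum_le_sum fun s _ => h1 s
    _ = ∑ s, |A r s| + |a| := by rw [Finset.sum_add_distrib, h2]
    _ ≤ nrm A + |a| := by linarith [row_le A r]

lemma sh_entry (A : IM) (a : ℤ) (r s : Fin 3) : |sh A a r s| ≤ nrm A + |a| :=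
  le_trans (Finset.single_le_sum (f := fun j => |sh A a r j|) (fun j _ => abs_nonneg _)
    (Finset.mem_univ s)) (sh_row A a r)

lemma sh_mulVec {A : IM} {v : Fin 3 → ℤ} {c : ℤ} (h : A *ᵥ v = c • v) (a : ℤ) :
    sh A a *ᵥ v = (c - a) • v := by
  unfold sh
  rw [Matrix.sub_mulVec, Matrix.smul_mulVec, Matrix.one_mulVec, h, sub_smul]

lemma fin3 : ∀ i t : Fin 3, t ≠ i → t = i + 1 ∨ t = i + 2 := by decide

lemma mem_box (N : ℕ) (B : IM) (h : ∀ r s, |B r s| ≤ (N : ℤ)) : B ∈ box N :=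
  Fintype.mem_piFinset.2 fun r => Fintype.mem_piFinset.2 fun s =>
    Finset.mem_Icc.2 (abs_le.1 (h r s))

lemma nrm_nonneg (A : IM) : 0 ≤ nrm A :=
  Finset.sum_nonneg fun i _ => Finset.sum_nonneg fun j _ => abs_nonneg _

lemma prod_entry (A : IM) (a b : ℤ) (K : ℤ) (ha : nrm A + |a| ≤ K) (hb : nrm A + |b| ≤ K)
    (r s : Fin 3) : |(sh A a * sh A b) r s| ≤ K * K := by
  have hK : 0 ≤ K := le_trans (add_nonneg (nrm_nonneg A) (abs_nonneg _)) ha
  rw [Matrix.mul_apply]
  refine le_trans (Finset.abs_sum_le_sum_abs _ _) ?_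
  calc ∑ t, |sh A a r t * sh A b t s| ≤ ∑ t, |sh A a r t| * K := by
        refine Finset.sum_le_sum fun t _ => ?_
        rw [abs_mul]
        exact mul_le_mul_of_nonneg_left (le_trans (sh_entry A b t s) hb) (abs_nonneg _)
    _ = (∑ t, |sh A a r t|) * K := by rw [Finset.sum_mul]
    _ ≤ K * K := mul_le_mul_of_nonneg_right (le_trans (sh_row A a r) ha) hK

end SPECx

open SPECx

theorem p_SPEC (hADJ : tADJ) (hDUAL : tDUAL) (hDVD : tDVD) : tSPEC := by
  intro m A V l hE hA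
  obtain ⟨hcn, hvst, hadj, hcd, -, -, -, -⟩ := hADJ V hE.2.2.2.2 hE.2.2.2.1
  obtain ⟨-, -, -, -, -, hR⟩ := hDUAL A V l hE
  have hD := hDVD A V l hE
  obtain ⟨hEV, hl01, hl12, hprim, hdet⟩ := id hE
  have hl : ∀ i, |l i| ≤ (m : ℤ) := fun i => le_trans (eig_le (hprim i) (hR i)) hA
  have hm1 : 1 ≤ m := by
    by_contra hlt
    have hm0 : m = 0 := by omega
    subst hm0
    have h0 := hl 0
    have h1 := hl 1
    have h0' := abs_le.1 h0
    have h1' := abs_le.1 h1
    push_cast at h0' h1'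
    omega
  have hne : ∀ i : Fin 3, l i ≠ l (i + 1) ∧ l i ≠ l (i + 2) ∧ l (i + 1) ≠ l (i + 2) := by
    have h01 : l 0 ≠ l 1 := ne_of_lt hl01
    have h12 : l 1 ≠ l 2 := ne_of_lt hl12
    have h02 : l 0 ≠ l 2 := ne_of_lt (lt_trans hl01 hl12)
    intro i
    fin_cases i
    · exact ⟨h01, h02, h12⟩
    · exact ⟨h12, h01.symm, h02.symm⟩
    · exact ⟨h02.symm, h12.symm, h01⟩
  have hnl : ∀ i, nrm A + |l i| ≤ 2 * (m : ℤ) := fun i => by linarith [hl i]
  have hcn2 : ∀ i, (cn V i : ℤ) ≤ 2 * m := by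
    intro i
    have h1 := (hD i).1
    have h2 : l (i + 1) - l (i + 2) ≠ 0 := sub_ne_zero.2 (hne i).2.2
    have h3 : (cn V i : ℤ) ≤ |l (i + 1) - l (i + 2)| := by
      have h4 := Int.le_of_dvd (abs_pos.2 h2) ((dvd_abs _ _).2 h1)
      exact h4
    have h5 : |l (i + 1) - l (i + 2)| ≤ |l (i + 1)| + |l (i + 2)| := abs_sub _ _
    linarith [hl (i + 1), hl (i + 2)]
  -- the key product
  have key : ∀ i : Fin 3, ∃ c : ℤ, c ≠ 0 ∧
      (∀ r s, (sh A (l (i + 1)) * sh A (l (i + 2))) r s = c * (vcol V i r * vst V i s)) ∧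
      c * (vst V i ⬝ᵥ vcol V i) = (l i - l (i + 1)) * (l i - l (i + 2)) := by
    intro i
    set M : IM := sh A (l (i + 1)) * sh A (l (i + 2)) with hM
    have hMv : ∀ t, M *ᵥ vcol V t = ((l t - l (i + 1)) * (l t - l (i + 2))) • vcol V t := by
      intro t
      rw [hM, ← Matrix.mulVec_mulVec, sh_mulVec (hR t), Matrix.mulVec_smul, sh_mulVec (hR t),
        smul_smul, mul_comm]
    set w0 : ℤ := (l i - l (i + 1)) * (l i - l (i + 2)) with hw0
    have hw0ne : w0 ≠ 0 := mul_ne_zero (sub_ne_zero.2 (hne i).1) (sub_ne_zero.2 (hne i).2.1)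
    have hMV : ∀ r t, (M * V) r t = ((l t - l (i + 1)) * (l t - l (i + 2))) * V r t := by
      intro r t
      have h1 := congrFun (hMv t) r
      rw [Pi.smul_apply, smul_eq_mul] at h1
      have h2 : (M * V) r t = (M *ᵥ vcol V t) r := by
        rw [Matrix.mul_apply]; rfl
      rw [h2, h1]; rfl
    have hdM : ∀ r s, V.det * M r s = (w0 * cn V i) * (vcol V i r * vst V i s) := by
      intro r s
      have h1 : V.det • M = (M * V) * V.adjugate := by
        rw [Matrix.mul_assoc, Matrix.mul_adjugate, Matrix.mul_smul, Matrix.mul_one]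
      have h2 := congrFun (congrFun h1 r) s
      rw [Matrix.smul_apply, smul_eq_mul, Matrix.mul_apply] at h2
      rw [h2, Finset.sum_eq_single i]
      · rw [hMV r i, hadj i s]
        unfold vcol
        ring
      · intro t _ ht
        rw [hMV r t]
        have h3 : t = i + 1 ∨ t = i + 2 := fin3 i t ht
        rcases h3 with h3 | h3 <;> rw [h3] <;> ring
      · simp
    have hdc : V.det ∣ w0 * cn V i := by
      refine prim_dvd (hprim i) fun r => ?_
      refine prim_dvd (hvst i) fun s => ?_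
      refine ⟨M r s, ?_⟩
      rw [hdM r s]; ring
    obtain ⟨c, hc⟩ := hdc
    have hcne : c ≠ 0 := by
      rintro rfl
      rw [mul_zero] at hc
      have h1 : (cn V i : ℤ) ≠ 0 := by
        have := hcn i
        omega
      exact (mul_ne_zero hw0ne h1) hc
    have hMe : ∀ r s, M r s = c * (vcol V i r * vst V i s) := by
      intro r s
      have h1 := hdM r s
      rw [hc, mul_assoc] at h1
      exact mul_left_cancel₀ (ne_of_gt hdet) h1
    refine ⟨c, hcne, hMe, ?_⟩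
    obtain ⟨r, hr⟩ := exists_max (vcol V i)
    have hp := max_pos (hprim i) hr
    have hvr : vcol V i r ≠ 0 := by
      intro h0
      rw [h0, abs_zero] at hp
      omega
    have h1 := congrFun (hMv i) r
    rw [Pi.smul_apply, smul_eq_mul] at h1
    have h2 : (M *ᵥ vcol V i) r = c * (vst V i ⬝ᵥ vcol V i) * vcol V i r := by
      unfold Matrix.mulVec dotProduct
      simp only [hMe]
      rw [Finset.mul_sum, Finset.sum_mul]
      refine Finset.sum_congr rfl fun s _ => ?_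
      ring
    rw [h2] at h1
    exact mul_right_cancel₀ hvr h1
  have hprod : ∀ i r s, |vcol V i r| * |vst V i s| ≤ 4 * (m : ℤ) ^ 2 := by
    intro i r s
    obtain ⟨c, hc0, hM, -⟩ := key i
    have h1 := prod_entry A (l (i + 1)) (l (i + 2)) (2 * m) (hnl _) (hnl _) r s
    rw [hM r s, abs_mul, abs_mul] at h1
    have h2 : 1 ≤ |c| := Int.one_le_abs hc0
    have h3 : 0 ≤ |vcol V i r| * |vst V i s| := mul_nonneg (abs_nonneg _) (abs_nonneg _)
    nlinarith
  have hdot : ∀ i, vst V i ⬝ᵥ vcol V i ≤ 4 * (m : ℤ) ^ 2 := by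
    intro i
    obtain ⟨c, hc0, -, hc⟩ := key i
    have h2 : 1 ≤ |c| := Int.one_le_abs hc0
    have h3 : |c| * |vst V i ⬝ᵥ vcol V i| = |l i - l (i + 1)| * |l i - l (i + 2)| := by
      rw [← abs_mul, hc, abs_mul]
    have h4 : |l i - l (i + 1)| ≤ 2 * m := by
      have := abs_sub (l i) (l (i + 1))
      linarith [hl i, hl (i + 1)]
    have h5 : |l i - l (i + 2)| ≤ 2 * m := by
      have := abs_sub (l i) (l (i + 2))
      linarith [hl i, hl (i + 2)]
    have h6 : |l i - l (i + 1)| * |l i - l (i + 2)| ≤ (2 * m) * (2 * m) :=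
      mul_le_mul h4 h5 (abs_nonneg _) (by positivity)
    have h7 := le_abs_self (vst V i ⬝ᵥ vcol V i)
    have h8 := abs_nonneg (vst V i ⬝ᵥ vcol V i)
    nlinarith
  have hdet8 : V.det ≤ 8 * (m : ℤ) ^ 3 := by
    rw [← hcd 0]
    have h1 := hcn2 0
    have h2 := hdot 0
    have h3 : 0 ≤ (cn V 0 : ℤ) := by positivity
    have h4 : 0 ≤ vst V 0 ⬝ᵥ vcol V 0 := by
      have h5 := hcd 0
      have h6 := hcn 0
      by_contra hneg
      push Not at hneg
      have h7 : (cn V 0 : ℤ) * (vst V 0 ⬝ᵥ vcol V 0) ≤ 0 :=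
        mul_nonpos_of_nonneg_of_nonpos h3 hneg.le
      omega
    calc (cn V 0 : ℤ) * (vst V 0 ⬝ᵥ vcol V 0) ≤ (2 * m) * (4 * (m : ℤ) ^ 2) :=
          mul_le_mul h1 h2 h4 (by positivity)
      _ = 8 * (m : ℤ) ^ 3 := by ring
  have hv4 : ∀ i r, |vcol V i r| ≤ 4 * (m : ℤ) ^ 2 := by
    intro i r
    obtain ⟨s, hs⟩ := exists_max (vst V i)
    have h1 := max_pos (hvst i) hs
    have h2 := hprod i r s
    have h3 := abs_nonneg (vcol V i r)
    nlinarith
  have hw4 : ∀ i s, |vst V i s| ≤ 4 * (m : ℤ) ^ 2 := by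
    intro i s
    obtain ⟨r, hr⟩ := exists_max (vcol V i)
    have h1 := max_pos (hprim i) hr
    have h2 := hprod i r s
    have h3 := abs_nonneg (vst V i s)
    nlinarith
  refine ⟨hl, ?_, ?_, ?_, ?_, ?_, hm1⟩
  · intro i
    obtain ⟨r, hr⟩ := exists_max (vcol V i)
    rw [sn_eq hr]
    have h1 := max_pos (hprim i) hr
    have h2 := hv4 i r
    constructor
    · exact_mod_cast h1
    · exact_mod_cast h2
  · intro i
    obtain ⟨r, hr⟩ := exists_max (vst V i)
    rw [sn_eq hr]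
    have h1 := max_pos (hvst i) hr
    have h2 := hw4 i r
    constructor
    · exact_mod_cast h1
    · exact_mod_cast h2
  · exact_mod_cast hdet8
  · intro i
    have := hcn2 i
    exact_mod_cast this
  · classical
    unfold PPf
    refine Finset.mem_filter.2 ⟨Finset.mem_product.2 ⟨?_, ?_⟩, hA, l, hE⟩
    · exact mem_box _ _ fun r s => le_trans (entry_le A r s) hA
    · refine mem_box _ _ fun r s => ?_
      have := hv4 s r
      unfold vcol at this
      push_cast
      exact this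

end SAIL.A
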