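import Pool.Agent.SAIL.ARI.Targets

set_option autoImplicit false

namespace SAIL.A

open Matrix MeasureTheory Filter SAIL Set

namespace TIGHTx

lemma mpsub (E : ℝ) : MeasurePreserving (fun x : ℝ => E - x) volume volume := by
  have h1 := measurePreserving_add_left (volume : Measure ℝ) E
  have h2 := Measure.measurePreserving_neg (volume : Measure ℝ)
  have h3 := h1.comp h2
  have h4 : (fun x : ℝ => E - x) = (fun x : ℝ => E + x) ∘ Neg.neg := by
    ext x; simp [sub_eq_add_neg]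
  rw [h4]; exact h3

lemma mpswap : MeasurePreserving (Prod.swap : ℝ × ℝ → ℝ × ℝ) volume volume := by
  rw [Measure.volume_eq_prod]; exact Measure.measurePreserving_swap

lemma mpprod {f g : ℝ → ℝ} (hf : MeasurePreserving f volume volume)
    (hg : MeasurePreserving g volume volume) :
    MeasurePreserving (fun y : ℝ × ℝ => (f y.1, g y.2)) volume volume := by
  rw [Measure.volume_eq_prod]; exact hf.prod hg

lemma mpshear : MeasurePreserving (fun y : ℝ × ℝ => (y.1, y.1 + y.2)) volume volume := by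
  rw [Measure.volume_eq_prod]; exact measurePreserving_prod_add volume volume

lemma mp (D E : ℝ) (i j : Fin 3) (hij : i ≠ j) :
    MeasurePreserving (fun y : ℝ × ℝ => ((![y.1, y.2, D - y.1 - y.2] : Fin 3 → ℝ) i,
      E - (![y.1, y.2, D - y.1 - y.2] : Fin 3 → ℝ) j)) volume volume := by
  have hid := MeasurePreserving.id (volume : Measure ℝ)
  have hA := mpprod hid (mpsub E)
  have hB := mpprod (mpsub D) (mpsub E)
  have hC := mpprod hid (measurePreserving_add_left (volume : Measure ℝ) (E - D))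
  fin_cases i <;> fin_cases j
  · exact absurd rfl hij
  · exact hA
  · convert hC.comp mpshear using 1
    ext y <;> simp; ring
  · exact hA.comp mpswap
  · exact absurd rfl hij
  · convert hC.comp (mpshear.comp mpswap) using 1
    ext y <;> simp; ring
  · convert hB.comp (mpswap.comp mpshear) using 1
    ext y <;> simp; ring
  · convert hB.comp (mpswap.comp (mpshear.comp mpswap)) using 1
    ext y <;> simp; ring
  · exact absurd rfl hij

/-- data of the normal form -/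
abbrev TT := (Fin 3 → ℤ) × ℤ × ℤ × ℤ

def Gs (L η : ℝ) (T : TT) : Set (ℝ × ℝ) :=
  {p | (0 ≤ p.1 ∧ 0 ≤ p.2 ∧ 2 * p.1 ≤ p.2 + L ∧ 2 * p.2 ≤ p.1 + L) ∧
    ∃ n : Fin 3 → ℤ, n ≠ 0 ∧ Short T.1 T.2.1 T.2.2.1 T.2.2.2 n (Real.exp p.1) (Real.exp p.2) η}

lemma meas_Gs (L η : ℝ) (T : TT) : MeasurableSet (Gs L η T) := by
  have h : Gs L η T = ({p : ℝ × ℝ | 0 ≤ p.1} ∩ {p | 0 ≤ p.2} ∩ {p | 2 * p.1 ≤ p.2 + L} ∩
      {p | 2 * p.2 ≤ p.1 + L}) ∩ ⋃ n : {n : Fin 3 → ℤ // n ≠ 0},
      ({p : ℝ × ℝ | |(n.1 0 : ℝ)| ≤ η * Real.exp p.1} ∩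
       {p : ℝ × ℝ | |((n.1 1 * (T.1 0 - T.1 1) - n.1 0 * T.2.1 : ℤ) : ℝ)| ≤
          η * |((T.1 0 - T.1 1 : ℤ) : ℝ)| * Real.exp p.2 / Real.exp p.1} ∩
       {p : ℝ × ℝ | |(n.1 0 : ℝ) * ((T.2.2.1 + T.2.1 * (T.2.2.2 / ((T.1 2 - T.1 1 : ℤ) : ℝ))) /
          ((T.1 2 - T.1 0 : ℤ) : ℝ)) + n.1 1 * (T.2.2.2 / ((T.1 2 - T.1 1 : ℤ) : ℝ)) + n.1 2| ≤
          η / Real.exp p.2}) := by
    ext p
    simp only [Gs, Short, mem_ofPred_eq, mem_inter_iff, mem_iUnion, Subtype.exists, exists_prop]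
    tauto
  rw [h]
  refine MeasurableSet.inter ?_ (MeasurableSet.iUnion fun n => ?_)
  · refine (((measurableSet_le ?_ ?_).inter (measurableSet_le ?_ ?_)).inter
      (measurableSet_le ?_ ?_)).inter (measurableSet_le ?_ ?_) <;> fun_prop
  · refine ((measurableSet_le ?_ ?_).inter (measurableSet_le ?_ ?_)).inter
      (measurableSet_le ?_ ?_) <;> fun_prop

lemma sn_neg (v : Fin 3 → ℤ) : sn (-v) = sn v := by
  unfold sn
  have : (fun i => (((-v) i : ℤ) : ℝ) : Fin 3 → ℝ) = -(fun i => (v i : ℝ)) := by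
    ext i; simp
  rw [this, norm_neg]

lemma diag_sq (s : Fin 3 → ℤ) (hs : ∀ i, s i = 1 ∨ s i = -1) :
    Matrix.diagonal s * Matrix.diagonal s = 1 := by
  rw [Matrix.diagonal_mul_diagonal, ← Matrix.diagonal_one]
  congr 1
  ext i
  rcases hs i with h | h <;> simp [h]

lemma vcol_diag (V : IM) (s : Fin 3 → ℤ) (hs : ∀ i, s i = 1 ∨ s i = -1) (i : Fin 3) :
    sn (vcol (V * Matrix.diagonal s) i) = sn (vcol V i) := by
  rcases hs i with h | h
  · congr 1
    ext r
    simp [vcol, Matrix.mul_diagonal, h]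
  · rw [← sn_neg]
    congr 1
    ext r
    simp [vcol, Matrix.mul_diagonal, h]

lemma toR_mul (V W : IM) : toR (V * W) = toR V * toR W := by
  unfold toR
  ext i j
  simp [Matrix.mul_apply]

lemma toR_diag (s : Fin 3 → ℤ) : toR (Matrix.diagonal s) = Matrix.diagonal (fun i => (s i : ℝ)) := by
  unfold toR
  ext i j
  by_cases h : i = j
  · subst h; simp
  · simp [Matrix.diagonal_apply_ne _ h]

lemma ang_diag (K : ℝ) (V : IM) (s : Fin 3 → ℤ) (hs : ∀ i, s i = 1 ∨ s i = -1) :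
    Ang K (V * Matrix.diagonal s) ↔ Ang K V := by
  have h1 : ∀ i j, |(toR (V * Matrix.diagonal s))⁻¹ i j| = |(toR V)⁻¹ i j| := by
    intro i j
    rw [toR_mul, toR_diag, Matrix.mul_inv_rev]
    have h2 : (Matrix.diagonal (fun i => (s i : ℝ)))⁻¹ = Matrix.diagonal (fun i => (s i : ℝ)) := by
      refine Matrix.inv_eq_right_inv ?_
      rw [Matrix.diagonal_mul_diagonal, ← Matrix.diagonal_one]
      congr 1
      ext i
      rcases hs i with h | h <;> simp [h]
    rw [h2, Matrix.diagonal_mul, abs_mul]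
    rcases hs i with h | h <;> simp [h]
  unfold Ang
  simp only [h1, vcol_diag V s hs]

open Classical in
lemma fib (h7 : tC7) (h7' : tC7') (K : ℝ) (hK : 1 ≤ K) : ∃ C : ℝ, 0 < C ∧ ∀ m : ℕ, 2 ≤ m →
    ∀ (S : Finset (IM × IM)) (lam : Fin 3 → ℤ) (M : IM),
    (∀ P ∈ S, Eig P.1 P.2 lam ∧ Ang K P.2 ∧ (∀ i, sn (vcol P.2 i) ≤ 4 * (m : ℝ) ^ 2) ∧
      ∃ γ : GZ, P.1 * γ.1 = γ.1 * M) → (S.card : ℝ) ≤ C * Real.log m ^ 2 := by
  obtain ⟨C, hC, h⟩ := h7 K hK
  refine ⟨8 * C, by positivity, ?_⟩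
  intro m hm S lam M hS
  rcases S.eq_empty_or_nonempty with h0 | ⟨P0, hP0⟩
  · subst h0
    simp only [Finset.card_empty, Nat.cast_zero]
    positivity
  obtain ⟨he0, ha0, hs0, γ0, hγ0⟩ := hS P0 hP0
  have key : ∀ P : IM × IM, ∃ (g : GZ) (s : Fin 3 → ℤ), P ∈ S →
      (P.1 * g.1 = g.1 * P0.1 ∧ (∀ i, s i = 1 ∨ s i = -1) ∧
        P.2 = g.1 * P0.2 * Matrix.diagonal s) := by
    intro P
    by_cases hP : P ∈ S
    · obtain ⟨he, ha, hs, γ, hγ⟩ := hS P hP
      have hg : P.1 * (γ * γ0⁻¹).1 = (γ * γ0⁻¹).1 * P0.1 := by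
        have e1 : (γ0 : IM) * (γ0⁻¹ : GZ) = 1 := by
          have := congrArg Subtype.val (mul_inv_cancel γ0)
          exact this
        have e2 : (γ0⁻¹ : GZ).1 * (γ0 : IM) = 1 := by
          have := congrArg Subtype.val (inv_mul_cancel γ0)
          exact this
        have e3 : (γ * γ0⁻¹).1 = γ.1 * (γ0⁻¹ : GZ).1 := by simp
        rw [e3, ← Matrix.mul_assoc, hγ, Matrix.mul_assoc, Matrix.mul_assoc]
        congr 1
        calc M * (γ0⁻¹ : GZ).1 = ((γ0⁻¹ : GZ).1 * γ0.1) * (M * (γ0⁻¹ : GZ).1) := by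
              rw [e2, one_mul]
          _ = (γ0⁻¹ : GZ).1 * ((γ0.1 * M) * (γ0⁻¹ : GZ).1) := by
              simp only [Matrix.mul_assoc]
          _ = (γ0⁻¹ : GZ).1 * (P0.1 * (γ0.1 * (γ0⁻¹ : GZ).1)) := by
              rw [← hγ0]; simp only [Matrix.mul_assoc]
          _ = (γ0⁻¹ : GZ).1 * P0.1 := by rw [e1, mul_one]
      obtain ⟨s, hs1, hs2⟩ := h7' P0.1 P0.2 P.1 P.2 lam he0 he (γ * γ0⁻¹) hg
      exact ⟨γ * γ0⁻¹, s, fun _ => ⟨hg, hs1, hs2⟩⟩
    · exact ⟨1, 1, fun h => absurd h hP⟩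
  choose g s hgs using key
  set sg : Finset (Fin 3 → ℤ) := Fintype.piFinset (fun _ => ({1, -1} : Finset ℤ)) with hsg
  have hsgc : sg.card = 8 := by
    rw [hsg, Fintype.card_piFinset]; simp
  have hsub : S.card ≤ (S.image g ×ˢ sg).card := by
    refine Finset.card_le_card_of_injOn (fun P => (g P, s P)) ?_ ?_
    · intro P hP
      have hP' : P ∈ S := hP
      simp only [Finset.coe_product, Set.mem_prod, Finset.mem_coe]
      refine ⟨Finset.mem_image_of_mem g hP', ?_⟩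
      rw [hsg, Fintype.mem_piFinset]
      intro i
      have := (hgs P hP').2.1 i
      simpa using this
    · intro P hP Q hQ hPQ
      have hP' : P ∈ S := hP
      have hQ' : Q ∈ S := hQ
      simp only [Prod.mk.injEq] at hPQ
      obtain ⟨h1, h2, h3⟩ := hgs P hP'
      obtain ⟨k1, k2, k3⟩ := hgs Q hQ'
      refine Prod.ext ?_ ?_
      · have e1 : ((g P : GZ) : IM) * ((g P)⁻¹ : GZ) = 1 := by
          have := congrArg Subtype.val (mul_inv_cancel (g P))
          exact this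
        have h4 : P.1 * (g P).1 = Q.1 * (g P).1 := by rw [h1, hPQ.1, ← k1]
        calc P.1 = P.1 * (g P).1 * ((g P)⁻¹ : GZ).1 := by rw [Matrix.mul_assoc, e1, mul_one]
          _ = Q.1 * (g P).1 * ((g P)⁻¹ : GZ).1 := by rw [h4]
          _ = Q.1 := by rw [Matrix.mul_assoc, e1, mul_one]
      · rw [h3, k3, hPQ.1, hPQ.2]
  have hcard : ((S.image g).card : ℝ) ≤ C * Real.log m ^ 2 := by
    refine h m hm P0.2 he0.2.2.2.2 ha0 (S.image g) ?_
    intro γ hγ
    obtain ⟨P, hP, rfl⟩ := Finset.mem_image.mp hγ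
    obtain ⟨h1, h2, h3⟩ := hgs P hP
    obtain ⟨he, ha, hs, -⟩ := hS P hP
    rw [h3] at ha
    refine ⟨(ang_diag K _ _ h2).mp ha, fun i => ?_⟩
    have := hs i
    rw [h3, vcol_diag _ _ h2] at this
    exact this
  rw [Finset.card_product, hsgc] at hsub
  have : (S.card : ℝ) ≤ (S.image g).card * 8 := by exact_mod_cast hsub
  linarith

/-- the two boxes -/
def A1 (d : ℝ) (m : ℕ) : Set (ℝ × ℝ) :=
  Icc 0 ((1 - d) * Real.log m) ×ˢ Icc 0 ((1 - d) * Real.log m)

def A2 (d : ℝ) (m : ℕ) : Set (ℝ × ℝ) :=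
  Icc ((1 - 2 * d) * Real.log m - Real.log 2) (Real.log m + Real.log 2) ×ˢ
    Icc ((1 - 2 * d) * Real.log m - Real.log 2) (Real.log m + Real.log 2)

lemma Gs_sub {d η : ℝ} {m : ℕ} (hd : 0 < d) (hm : 2 ≤ m) {T : TT} {p : ℝ × ℝ}
    (hp : p ∈ Gs (Real.log (2 * m)) η T) : p ∈ A1 d m ∨ p ∈ A2 d m := by
  obtain ⟨⟨h1, h2, h3, h4⟩, -⟩ := hp
  have hm0 : (0 : ℝ) < m := by positivity
  have hL : Real.log (2 * m) = Real.log 2 + Real.log m := Real.log_mul (by norm_num) hm0.ne'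
  have hlm : 0 ≤ Real.log m := Real.log_nonneg (by exact_mod_cast (by lia : 1 ≤ m))
  have hl2 : 0 ≤ Real.log 2 := Real.log_nonneg (by norm_num)
  have hdl : 0 ≤ d * Real.log m := by positivity
  rw [hL] at h3 h4
  by_cases ha : p.1 ≤ (1 - d) * Real.log m ∧ p.2 ≤ (1 - d) * Real.log m
  · left
    exact ⟨⟨h1, ha.1⟩, ⟨h2, ha.2⟩⟩
  · right
    have hb : (1 - d) * Real.log m < p.1 ∨ (1 - d) * Real.log m < p.2 := by
      by_contra hc
      push Not at hc
      exact ha hc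
    refine ⟨⟨?_, ?_⟩, ⟨?_, ?_⟩⟩
    · rcases hb with hb | hb <;> nlinarith
    · linarith
    · rcases hb with hb | hb <;> nlinarith
    · linarith

lemma vol_A1 {d : ℝ} {m : ℕ} (hd : 0 < d) (hm : 2 ≤ m) :
    volume (A1 d m) ≤ ENNReal.ofReal (Real.log m ^ 2) := by
  have hlm : 0 ≤ Real.log m := Real.log_nonneg (by exact_mod_cast (by lia : 1 ≤ m))
  unfold A1
  rw [Measure.volume_eq_prod, Measure.prod_prod, Real.volume_Icc, sub_zero, sq,
    ENNReal.ofReal_mul hlm]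
  have : ENNReal.ofReal ((1 - d) * Real.log m) ≤ ENNReal.ofReal (Real.log m) := by
    apply ENNReal.ofReal_le_ofReal
    nlinarith
  exact mul_le_mul' this this

lemma vol_A2 {d : ℝ} {m : ℕ} (hd : 0 < d) (hm : 2 ≤ m) :
    volume (A2 d m) = ENNReal.ofReal ((2 * d * Real.log m + 2 * Real.log 2) ^ 2) := by
  have hlm : 0 ≤ Real.log m := Real.log_nonneg (by exact_mod_cast (by lia : 1 ≤ m))
  have hl2 : 0 ≤ Real.log 2 := Real.log_nonneg (by norm_num)
  unfold A2
  rw [Measure.volume_eq_prod, Measure.prod_prod, Real.volume_Icc]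
  have : Real.log m + Real.log 2 - ((1 - 2 * d) * Real.log m - Real.log 2) =
    2 * d * Real.log m + 2 * Real.log 2 := by ring
  rw [this, sq, ENNReal.ofReal_mul (by positivity)]

/-- the total number of reduced data -/
lemma card_all {m : ℕ} (hm : 2 ≤ m) (S : Finset TT)
    (hS : ∀ T ∈ S, (∀ i, |T.1 i| ≤ m) ∧ Red T.1 T.2.1 T.2.2.1 T.2.2.2) :
    (S.card : ℝ) ≤ 729 * (m : ℝ) ^ 6 := by
  have hsub : S ⊆ (Fintype.piFinset fun _ : Fin 3 => Finset.Icc (-(m : ℤ)) m) ×ˢ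
      Finset.Icc (0 : ℤ) (2 * m) ×ˢ Finset.Icc (0 : ℤ) (2 * m) ×ˢ Finset.Icc (0 : ℤ) (2 * m) := by
    intro T hT
    obtain ⟨h1, h2, h3, h4, h5, h6, h7⟩ := hS T hT
    have a0 := abs_le.mp (h1 0)
    have a1 := abs_le.mp (h1 1)
    have a2 := abs_le.mp (h1 2)
    simp only [Finset.mem_product, Fintype.mem_piFinset, Finset.mem_Icc]
    refine ⟨fun i => abs_le.mp (h1 i), ⟨h2, ?_⟩, ⟨h6, ?_⟩, ⟨h4, ?_⟩⟩
    · refine h3.le.trans (abs_le.mpr ⟨by lia, by lia⟩)
    · refine h7.le.trans (abs_le.mpr ⟨by lia, by lia⟩)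
    · refine h5.le.trans (abs_le.mpr ⟨by lia, by lia⟩)
  have hc := Finset.card_le_card hsub
  simp only [Finset.card_product, Fintype.card_piFinset, Int.card_Icc, Finset.prod_const,
    Finset.card_univ, Fintype.card_fin] at hc
  have e1 : ((m : ℤ) + 1 - -(m : ℤ)).toNat = 2 * m + 1 := by lia
  have e2 : ((2 * m : ℤ) + 1 - 0).toNat = 2 * m + 1 := by lia
  rw [e1, e2] at hc
  have h3 : 2 * m + 1 ≤ 3 * m := by lia
  have h4 : S.card ≤ 729 * m ^ 6 := by
    calc S.card ≤ (2 * m + 1) ^ 3 * ((2 * m + 1) * ((2 * m + 1) * (2 * m + 1))) := hc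
      _ = (2 * m + 1) ^ 6 := by ring
      _ ≤ (3 * m) ^ 6 := Nat.pow_le_pow_left h3 6
      _ = 729 * m ^ 6 := by ring
  exact_mod_cast h4

/-- the part of the thin positions that belongs to the ordering `w` -/
def Ew (η : ℝ) (m : ℕ) (w : Equiv.Perm (Fin 3)) (V : IM) : Set (ℝ × ℝ) :=
  {y | y ∈ Hex V ∧ ¬ Thick (η ^ 3) (gmat V y) ∧
    2 * pos V y (w 0) ≤ dpos V y (w 2) + Real.log (2 * m) ∧
    2 * dpos V y (w 2) ≤ pos V y (w 0) + Real.log (2 * m)}

open Classical in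
lemma perw (hS : tSPEC) (h6 : tC6) (h7 : tC7) (h7' : tC7') (hN1 : tN1) (hN2 : tN2) (hN3 : tN3)
    (e : ℝ) (he : 0 < e) : ∃ C : ℝ, 0 < C ∧ ∀ η d : ℝ, 0 < η → η < 1 → 0 < d → d ≤ 1 →
    ∀ m : ℕ, 2 ≤ m → ∀ w : Equiv.Perm (Fin 3),
    ∑ P ∈ (PPf m).filter (Gap e m), volume (Ew η m w P.2) ≤
      ENNReal.ofReal (C * Real.log m ^ 2 * (m : ℝ) ^ 6 *
        ((η ^ 2 + 3 * Real.exp (-(d * Real.log m)) * Real.log m) * Real.log m ^ 2 +
          (2 * d * Real.log m + 2 * Real.log 2) ^ 2)) := by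
  obtain ⟨K, hK, hA⟩ := h6 e he
  obtain ⟨C7, hC7, hf⟩ := fib h7 h7' (max K 1) (le_max_right _ _)
  obtain ⟨C3, hC3, h3⟩ := hN3
  refine ⟨C7 * (C3 + 729), by positivity, ?_⟩
  intro η d hη hη1 hd0 hd1 m hm w
  set F := (PPf m).filter (Gap e m) with hF
  have hm0 : (0 : ℝ) < m := by positivity
  have hlm : 0 ≤ Real.log m := Real.log_nonneg (by exact_mod_cast (by lia : 1 ≤ m))
  -- the data
  have key : ∀ P : IM × IM, ∃ (l : Fin 3 → ℤ) (γ : GZ) (a b c : ℤ), P ∈ F →
      (Eig P.1 P.2 l ∧ P.1 * γ.1 = γ.1 * Tri (l ∘ w) a b c ∧ Red (l ∘ w) a b c ∧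
      (vcol P.2 (w 0) = γ.1 *ᵥ ![1, 0, 0] ∨ vcol P.2 (w 0) = -(γ.1 *ᵥ ![1, 0, 0])) ∧
      (vst P.2 (w 2) ᵥ* γ.1 = ![0, 0, 1] ∨ vst P.2 (w 2) ᵥ* γ.1 = -![0, 0, 1])) := by
    intro P
    by_cases hP : P ∈ F
    · obtain ⟨l, hl, -⟩ := (Finset.mem_filter.mp hP).2
      obtain ⟨γ, a, b, c, h⟩ := hN1 P.1 P.2 l hl w
      exact ⟨l, γ, a, b, c, fun _ => ⟨hl, h⟩⟩
    · exact ⟨0, 1, 0, 0, 0, fun h => absurd h hP⟩
  choose l γ a b c hd using key
  have hPPf : ∀ P ∈ F, nrm P.1 ≤ m := by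
    intro P hP
    have := (Finset.mem_filter.mp hP).1
    unfold PPf at this
    exact (Finset.mem_filter.mp this).2.1
  have hspec : ∀ P ∈ F, _ := fun P hP => hS m P.1 P.2 (l P) (hd P hP).1 (hPPf P hP)
  set D : IM × IM → TT := fun P => ((l P) ∘ w, a P, b P, c P) with hDd
  set L := Real.log (2 * m) with hL
  -- step 1
  have step1 : ∀ P ∈ F, volume (Ew η m w P.2) ≤ volume (Gs L η (D P)) := by
    intro P hP
    have hmp := mp (Real.log P.2.det) (Real.log P.2.det - Real.log (cn P.2 (w 2))) (w 0) (w 2)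
      (fun h => absurd (w.injective h) (by decide))
    rw [← hmp.measure_preimage (meas_Gs L η (D P)).nullMeasurableSet]
    refine measure_mono ?_
    intro y hy
    obtain ⟨hy1, hy2, hy3, hy4⟩ := hy
    obtain ⟨q1, q2, q3, q4, q5⟩ := hd P hP
    have := hN2 P.1 P.2 (l P) q1 w (γ P) (a P) (b P) (c P) q2 q4 q5 y η hη hy2
    exact ⟨⟨(hy1 (w 0)).1, (hy1 (w 2)).2, hy3, hy4⟩, this⟩
  -- step 2
  set c1 : ℝ := C7 * Real.log m ^ 2 * (C3 * (m : ℝ) ^ 6 *
    (η ^ 2 + 3 * Real.exp (-(d * Real.log m)) * Real.log m)) with hc1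
  set c2 : ℝ := C7 * Real.log m ^ 2 * (729 * (m : ℝ) ^ 6) with hc2
  have hc1p : 0 ≤ c1 := by positivity
  have hc2p : 0 ≤ c2 := by positivity
  have pt : ∀ p : ℝ × ℝ, ∑ P ∈ F, (Gs L η (D P)).indicator (fun _ => (1 : ENNReal)) p ≤
      (A1 d m).indicator (fun _ => ENNReal.ofReal c1) p +
      (A2 d m).indicator (fun _ => ENNReal.ofReal c2) p := by
    intro p
    have e1 : ∑ P ∈ F, (Gs L η (D P)).indicator (fun _ => (1 : ENNReal)) p =
        ((F.filter fun P => p ∈ Gs L η (D P)).card : ENNReal) := by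
      rw [Finset.card_filter]
      push_cast
      refine Finset.sum_congr rfl fun P _ => ?_
      simp only [Set.indicator_apply]
    rw [e1]
    set F' := F.filter fun P => p ∈ Gs L η (D P) with hF'
    set S := F'.image D with hSd
    have hmem : ∀ T ∈ S, ∃ P ∈ F, D P = T ∧ p ∈ Gs L η (D P) := by
      intro T hT
      obtain ⟨P, hP, rfl⟩ := Finset.mem_image.mp hT
      exact ⟨P, (Finset.mem_filter.mp hP).1, rfl, (Finset.mem_filter.mp hP).2⟩
    have hcard : (F'.card : ℝ) ≤ C7 * Real.log m ^ 2 * S.card := by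
      have h8 : F'.card ≤ ⌊C7 * Real.log m ^ 2⌋₊ * S.card := by
        refine Finset.card_le_mul_card_image F' _ ?_
        intro T hT
        refine Nat.le_floor ?_
        refine hf m hm _ (T.1 ∘ w.symm) (Tri T.1 T.2.1 T.2.2.1 T.2.2.2) ?_
        intro P hP
        obtain ⟨hP1, hP2⟩ := Finset.mem_filter.mp hP
        have hPF := (Finset.mem_filter.mp hP1).1
        obtain ⟨q1, q2, q3, q4, q5⟩ := hd P hPF
        have hDP : ((l P) ∘ w, a P, b P, c P) = T := hP2
        subst hDP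
        have hl : (l P ∘ w) ∘ w.symm = l P := by
          ext i; simp
        refine ⟨?_, ?_, (fun i => ((hspec P hPF).2.1 i).2), γ P, q2⟩
        · simp only [hl]; exact q1
        · intro i j
          exact (hA m P (hspec P hPF).2.2.2.2.2.2 (hPPf P hPF)
            (Finset.mem_filter.mp hPF).2 i j).trans (le_max_left _ _)
      calc (F'.card : ℝ) ≤ ((⌊C7 * Real.log m ^ 2⌋₊ * S.card : ℕ) : ℝ) := by exact_mod_cast h8
        _ = (⌊C7 * Real.log m ^ 2⌋₊ : ℝ) * S.card := by push_cast; ring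
        _ ≤ C7 * Real.log m ^ 2 * S.card := by
            refine mul_le_mul_of_nonneg_right (Nat.floor_le (by positivity)) (by positivity)
    have hSall : ∀ T ∈ S, (∀ i, |T.1 i| ≤ m) ∧ T.1 0 ≠ T.1 1 ∧ T.1 1 ≠ T.1 2 ∧ T.1 0 ≠ T.1 2 ∧
        Red T.1 T.2.1 T.2.2.1 T.2.2.2 ∧
        ∃ n, n ≠ 0 ∧ Short T.1 T.2.1 T.2.2.1 T.2.2.2 n (Real.exp p.1) (Real.exp p.2) η := by
      intro T hT
      obtain ⟨P, hP, rfl, hp⟩ := hmem T hT
      obtain ⟨q1, q2, q3, q4, q5⟩ := hd P hP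
      have hinj : ∀ i j : Fin 3, i ≠ j → (l P) (w i) ≠ (l P) (w j) := by
        have hli : Function.Injective (l P) := by
          intro i j hij
          have h01 := q1.2.1
          have h12 := q1.2.2.1
          fin_cases i <;> fin_cases j <;> simp at hij ⊢ <;> lia
        intro i j hij h
        exact hij (w.injective (hli h))
      refine ⟨fun i => (hspec P hP).1 (w i), hinj 0 1 (by decide), hinj 1 2 (by decide),
        hinj 0 2 (by decide), q3, hp.2⟩
    rcases S.eq_empty_or_nonempty with h0 | ⟨T0, hT0⟩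
    · have : F'.card = 0 := by
        have : F' = ∅ := by rwa [hSd, Finset.image_eq_empty] at h0
        rw [this]; simp
      rw [this]; simp
    obtain ⟨P0, hP0, -, hp0⟩ := hmem T0 hT0
    have hreg := Gs_sub (d := d) hd0 hm hp0
    have hpp := hp0.1
    rcases hreg with hreg | hreg
    · have hp1 := hreg.1
      have hp2 := hreg.2
      set x := Real.exp (-(d * Real.log m)) with hx
      have hx0 : 0 < x := Real.exp_pos _
      have hx1 : x ≤ 1 := by
        rw [hx]; apply Real.exp_le_one_iff.mpr; nlinarith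
      have hmx : Real.exp ((1 - d) * Real.log m) = m * x := by
        rw [hx, sub_mul, one_mul, sub_eq_add_neg, Real.exp_add, Real.exp_log hm0]
      have r1 : Real.exp p.1 ≤ m * x := by rw [← hmx]; exact Real.exp_le_exp.mpr hp1.2
      have r2 : Real.exp p.2 ≤ m * x := by rw [← hmx]; exact Real.exp_le_exp.mpr hp2.2
      have hmx4 : (m : ℝ) * x ≤ 4 * m := by nlinarith
      have hb := h3 m η (Real.exp p.1) (Real.exp p.2) hm hη hη1
        (Real.one_le_exp hp1.1) (Real.one_le_exp hp2.1) (r1.trans hmx4) (r2.trans hmx4) S hSall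
      have hb2 : Real.log m / m * (Real.exp p.1 + Real.exp p.2 + Real.exp p.1 ^ 2 / m) ≤
          3 * x * Real.log m := by
        have r3 : Real.exp p.1 ^ 2 / m ≤ m * x := by
          rw [div_le_iff₀ hm0]
          calc Real.exp p.1 ^ 2 ≤ (m * x) ^ 2 :=
                pow_le_pow_left₀ (Real.exp_pos _).le r1 2
            _ = m * x * m * x := by ring
            _ ≤ m * x * m * 1 := by
                refine mul_le_mul_of_nonneg_left hx1 (by positivity)
            _ = m * x * m := by ring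
        calc Real.log m / m * (Real.exp p.1 + Real.exp p.2 + Real.exp p.1 ^ 2 / m)
            ≤ Real.log m / m * (m * x + m * x + m * x) := by
              refine mul_le_mul_of_nonneg_left ?_ (by positivity)
              linarith
          _ = 3 * x * Real.log m := by field_simp; ring
      have hb3 : (S.card : ℝ) ≤ C3 * (m : ℝ) ^ 6 * (η ^ 2 + 3 * x * Real.log m) := by
        refine hb.trans (mul_le_mul_of_nonneg_left ?_ (by positivity))
        linarith
      have hb4 : (F'.card : ℝ) ≤ c1 := hcard.trans (by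
        rw [hc1]; exact mul_le_mul_of_nonneg_left hb3 (by positivity))
      have : (F'.card : ENNReal) ≤ ENNReal.ofReal c1 := by
        rw [← ENNReal.ofReal_natCast]; exact ENNReal.ofReal_le_ofReal hb4
      rw [Set.indicator_of_mem hreg]
      exact this.trans le_self_add
    · have hb3 := card_all hm S (fun T hT => ⟨(hSall T hT).1, (hSall T hT).2.2.2.2.1⟩)
      have hb4 : (F'.card : ℝ) ≤ c2 := hcard.trans (by
        rw [hc2]; exact mul_le_mul_of_nonneg_left hb3 (by positivity))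
      have : (F'.card : ENNReal) ≤ ENNReal.ofReal c2 := by
        rw [← ENNReal.ofReal_natCast]; exact ENNReal.ofReal_le_ofReal hb4
      rw [Set.indicator_of_mem hreg]
      exact this.trans le_add_self
  have mA1 : MeasurableSet (A1 d m) := measurableSet_Icc.prod measurableSet_Icc
  have mA2 : MeasurableSet (A2 d m) := measurableSet_Icc.prod measurableSet_Icc
  calc ∑ P ∈ F, volume (Ew η m w P.2) ≤ ∑ P ∈ F, volume (Gs L η (D P)) :=
        Finset.sum_le_sum step1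
    _ = ∑ P ∈ F, ∫⁻ p, (Gs L η (D P)).indicator (fun _ => (1 : ENNReal)) p := by
        refine Finset.sum_congr rfl fun P _ => ?_
        rw [lintegral_indicator_const (meas_Gs L η (D P)), one_mul]
    _ = ∫⁻ p, ∑ P ∈ F, (Gs L η (D P)).indicator (fun _ => (1 : ENNReal)) p := by
        rw [lintegral_finsetSum]
        intro P _
        exact measurable_const.indicator (meas_Gs L η (D P))
    _ ≤ ∫⁻ p, ((A1 d m).indicator (fun _ => ENNReal.ofReal c1) p +
          (A2 d m).indicator (fun _ => ENNReal.ofReal c2) p) := lintegral_mono pt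
    _ = ENNReal.ofReal c1 * volume (A1 d m) + ENNReal.ofReal c2 * volume (A2 d m) := by
        rw [lintegral_add_left (measurable_const.indicator mA1),
          lintegral_indicator_const mA1, lintegral_indicator_const mA2]
    _ ≤ ENNReal.ofReal c1 * ENNReal.ofReal (Real.log m ^ 2) +
        ENNReal.ofReal c2 * ENNReal.ofReal ((2 * d * Real.log m + 2 * Real.log 2) ^ 2) := by
        rw [vol_A2 hd0 hm]
        gcongr
        exact vol_A1 hd0 hm
    _ = ENNReal.ofReal (c1 * Real.log m ^ 2 + c2 * (2 * d * Real.log m + 2 * Real.log 2) ^ 2) := by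
        rw [← ENNReal.ofReal_mul hc1p, ← ENNReal.ofReal_mul hc2p,
          ← ENNReal.ofReal_add (by positivity) (by positivity)]
    _ ≤ _ := by
        apply ENNReal.ofReal_le_ofReal
        rw [hc1, hc2]
        set X := (η ^ 2 + 3 * Real.exp (-(d * Real.log m)) * Real.log m) * Real.log m ^ 2 with hX
        set Y := (2 * d * Real.log m + 2 * Real.log 2) ^ 2 with hY
        have hX0 : 0 ≤ X := by positivity
        have hY0 : 0 ≤ Y := by positivity
        set Z := C7 * Real.log m ^ 2 * (m : ℝ) ^ 6 with hZ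
        have hZ0 : 0 ≤ Z := by positivity
        have e1 : C7 * Real.log m ^ 2 * (C3 * (m : ℝ) ^ 6 *
            (η ^ 2 + 3 * Real.exp (-(d * Real.log m)) * Real.log m)) * Real.log m ^ 2 =
            Z * C3 * X := by rw [hZ, hX]; ring
        have e2 : C7 * Real.log m ^ 2 * (729 * (m : ℝ) ^ 6) * Y = Z * 729 * Y := by
          rw [hZ]; ring
        have e3 : C7 * (C3 + 729) * Real.log m ^ 2 * (m : ℝ) ^ 6 * (X + Y) =
            Z * (C3 + 729) * (X + Y) := by rw [hZ]; ring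
        rw [e1, e2, e3]
        have h9 : 0 ≤ Z * X * 729 + Z * Y * C3 := by positivity
        nlinarith

/-- the choice of the parameters -/
lemma fin_ineq (C ε d η x l : ℝ) (hC : 0 < C) (hε : 0 < ε) (hd0 : 0 < d) (hd1 : d ≤ 1)
    (hd : 288 * C * d ≤ ε) (hη0 : 0 < η) (hη1 : η < 1) (hη : 18 * C * η ≤ ε) (_ : 0 ≤ x)
    (hl : 1 ≤ l) (hx : x * (d * l) ^ 2 ≤ 2) (h1 : 108 * C ≤ d ^ 2 * ε * l) (h2 : 1 ≤ d * l) :
    6 * (C * l ^ 2 * ((η ^ 2 + 3 * x * l) * l ^ 2 + (2 * d * l + 2 * Real.log 2) ^ 2)) ≤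
      ε * l ^ 4 := by
  have hl2 : Real.log 2 ≤ 1 := by
    have := Real.log_two_lt_d9; linarith
  have hl20 : 0 ≤ Real.log 2 := Real.log_nonneg (by norm_num)
  have e1 : 6 * C * η ^ 2 ≤ ε / 3 := by nlinarith
  have e2 : 6 * C * (2 * d * l + 2 * Real.log 2) ^ 2 ≤ ε / 3 * l ^ 2 := by
    have : 2 * d * l + 2 * Real.log 2 ≤ 4 * d * l := by nlinarith
    calc 6 * C * (2 * d * l + 2 * Real.log 2) ^ 2 ≤ 6 * C * (4 * d * l) ^ 2 := by
          refine mul_le_mul_of_nonneg_left ?_ (by positivity)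
          exact pow_le_pow_left₀ (by positivity) this 2
      _ = (288 * C * d) * d / 3 * l ^ 2 := by ring
      _ ≤ ε * 1 / 3 * l ^ 2 := by
          refine mul_le_mul_of_nonneg_right ?_ (by positivity)
          refine div_le_div_of_nonneg_right ?_ (by norm_num)
          exact mul_le_mul hd hd1 hd0.le hε.le
      _ = ε / 3 * l ^ 2 := by ring
  have e3 : 6 * C * (3 * x * l) ≤ ε / 3 := by
    have hdl : 0 < d ^ 2 * l := by positivity
    have e4 : (6 * C * (3 * x * l)) * (d ^ 2 * l) ≤ ε / 3 * (d ^ 2 * l) := by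
      calc (6 * C * (3 * x * l)) * (d ^ 2 * l) = 18 * C * (x * (d * l) ^ 2) := by ring
        _ ≤ 18 * C * 2 := mul_le_mul_of_nonneg_left hx (by positivity)
        _ ≤ ε / 3 * (d ^ 2 * l) := by nlinarith
    exact le_of_mul_le_mul_right e4 hdl
  have hl4 : 0 ≤ l ^ 2 := by positivity
  calc 6 * (C * l ^ 2 * ((η ^ 2 + 3 * x * l) * l ^ 2 + (2 * d * l + 2 * Real.log 2) ^ 2))
      = l ^ 2 * ((6 * C * η ^ 2 + 6 * C * (3 * x * l)) * l ^ 2 +
        6 * C * (2 * d * l + 2 * Real.log 2) ^ 2) := by ring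
    _ ≤ l ^ 2 * ((ε / 3 + ε / 3) * l ^ 2 + ε / 3 * l ^ 2) := by
        refine mul_le_mul_of_nonneg_left ?_ hl4
        refine add_le_add (mul_le_mul_of_nonneg_right (add_le_add e1 e3) hl4) e2
    _ = ε * l ^ 4 := by ring

end TIGHTx

open Classical in
theorem p_TIGHT (hS : tSPEC) (h6 : tC6) (h7 : tC7) (h7' : tC7') (hN1 : tN1) (hN2 : tN2)
    (hN3 : tN3) (hN4 : tN4) : tTIGHT := by
  intro e ε he hε
  obtain ⟨C, hC, h⟩ := TIGHTx.perw hS h6 h7 h7' hN1 hN2 hN3 e he
  set d : ℝ := min 1 (ε / (288 * C)) with hd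
  have hd0 : 0 < d := lt_min one_pos (by positivity)
  have hd1 : d ≤ 1 := min_le_left _ _
  have hd2 : 288 * C * d ≤ ε := by
    have : d ≤ ε / (288 * C) := min_le_right _ _
    rw [le_div_iff₀ (by positivity)] at this
    linarith
  set η : ℝ := min (1 / 2) (ε / (18 * C)) with hη
  have hη0 : 0 < η := lt_min (by norm_num) (by positivity)
  have hη1 : η < 1 := (min_le_left _ _).trans_lt (by norm_num)
  have hη2 : 18 * C * η ≤ ε := by
    have : η ≤ ε / (18 * C) := min_le_right _ _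
    rw [le_div_iff₀ (by positivity)] at this
    linarith
  refine ⟨η ^ 3, Real.exp (108 * C / (d ^ 2 * ε) + 1 / d + 1), by positivity, ?_⟩
  intro m hm
  have hm0 : (0 : ℝ) < m := (Real.exp_pos _).trans_le hm
  have hlog : 108 * C / (d ^ 2 * ε) + 1 / d + 1 ≤ Real.log m := by
    rw [Real.le_log_iff_exp_le hm0]; exact hm
  have ha : 0 ≤ 108 * C / (d ^ 2 * ε) := by positivity
  have hb : 0 ≤ 1 / d := by positivity
  have hl1 : 1 ≤ Real.log m := by linarith
  have hm2 : 2 ≤ m := by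
    have h1 : Real.exp 1 ≤ m := by
      rw [← Real.le_log_iff_exp_le hm0]; exact hl1
    have h2 := Real.add_one_le_exp (1 : ℝ)
    have h3 : (2 : ℝ) ≤ m := by linarith
    exact_mod_cast h3
  have hl2 : 108 * C ≤ d ^ 2 * ε * Real.log m := by
    have : 108 * C / (d ^ 2 * ε) ≤ Real.log m := by linarith
    rw [div_le_iff₀ (by positivity)] at this
    linarith
  have hl3 : 1 ≤ d * Real.log m := by
    have : 1 / d ≤ Real.log m := by linarith
    rw [div_le_iff₀ hd0] at this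
    linarith
  have hx : Real.exp (-(d * Real.log m)) * (d * Real.log m) ^ 2 ≤ 2 := by
    set t := d * Real.log m with ht
    have h1 : t ^ 2 / 2 ≤ Real.exp t := by
      have := Real.quadratic_le_exp_of_nonneg (x := t) (by linarith)
      linarith
    rw [Real.exp_neg]
    have h2 : 0 < Real.exp t := Real.exp_pos t
    rw [inv_mul_le_iff₀ h2]
    linarith
  have hfin := TIGHTx.fin_ineq C ε d η (Real.exp (-(d * Real.log m))) (Real.log m) hC hε hd0 hd1
    hd2 hη0 hη1 hη2 (Real.exp_pos _).le hl1 hx hl2 hl3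
  have step : ∀ P ∈ (PPf m).filter (Gap e m),
      volume {y | y ∈ Hex P.2 ∧ ¬ Thick (η ^ 3) (gmat P.2 y)} ≤
        ∑ w : Equiv.Perm (Fin 3), volume (TIGHTx.Ew η m w P.2) := by
    intro P hP
    refine (measure_mono ?_).trans (measure_iUnion_fintype_le _ _)
    intro y hy
    obtain ⟨hy1, hy2⟩ := hy
    have h0 := (Finset.mem_filter.mp hP).1
    unfold PPf at h0
    obtain ⟨h1, l, hl⟩ := (Finset.mem_filter.mp h0).2
    obtain ⟨w, hw1, hw2⟩ := hN4 m P.1 P.2 l hl h1 y hy1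
    exact Set.mem_iUnion.mpr ⟨w, hy1, hy2, hw1, hw2⟩
  calc ∑ P ∈ (PPf m).filter (Gap e m),
        volume {y | y ∈ Hex P.2 ∧ ¬ Thick (η ^ 3) (gmat P.2 y)}
      ≤ ∑ P ∈ (PPf m).filter (Gap e m), ∑ w : Equiv.Perm (Fin 3),
        volume (TIGHTx.Ew η m w P.2) := Finset.sum_le_sum step
    _ = ∑ w : Equiv.Perm (Fin 3), ∑ P ∈ (PPf m).filter (Gap e m),
        volume (TIGHTx.Ew η m w P.2) := Finset.sum_comm
    _ ≤ ∑ _w : Equiv.Perm (Fin 3), ENNReal.ofReal (C * Real.log m ^ 2 * (m : ℝ) ^ 6 *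
        ((η ^ 2 + 3 * Real.exp (-(d * Real.log m)) * Real.log m) * Real.log m ^ 2 +
          (2 * d * Real.log m + 2 * Real.log 2) ^ 2)) :=
        Finset.sum_le_sum fun w _ => h η d hη0 hη1 hd0 hd1 m hm2 w
    _ = ENNReal.ofReal (6 * (C * Real.log m ^ 2 * (m : ℝ) ^ 6 *
        ((η ^ 2 + 3 * Real.exp (-(d * Real.log m)) * Real.log m) * Real.log m ^ 2 +
          (2 * d * Real.log m + 2 * Real.log 2) ^ 2))) := by
        rw [Finset.sum_const, Finset.card_univ, Fintype.card_perm, Fintype.card_fin,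
          nsmul_eq_mul, ENNReal.ofReal_mul (by norm_num : (0 : ℝ) ≤ 6)]
        congr 1
        norm_num [Nat.factorial]
    _ ≤ ENNReal.ofReal (ε * (m : ℝ) ^ 6 * Real.log m ^ 4) := by
        apply ENNReal.ofReal_le_ofReal
        have h6 : 0 ≤ (m : ℝ) ^ 6 := by positivity
        have := mul_le_mul_of_nonneg_left hfin h6
        linarith

end SAIL.A
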