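import Pool.Agent.SAIL.ERG.All
import Pool.Agent.SAIL.ARI.P_ADJ
import Pool.Agent.SAIL.ARI.P_DUAL
import Pool.Agent.SAIL.ARI.P_DVD
import Pool.Agent.SAIL.ARI.P_SPEC
import Pool.Agent.SAIL.ARI.P_CRO
import Pool.Agent.SAIL.ARI.P_ORD
import Pool.Agent.SAIL.ARI.P_GF
import Pool.Agent.SAIL.ARI.P_FOB
import Pool.Agent.SAIL.ARI.P_FOUR
import Pool.Agent.SAIL.ARI.P_EXI
import Pool.Agent.SAIL.ARI.P_BAS
import Pool.Agent.SAIL.ARI.P_GM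
import Pool.Agent.SAIL.ARI.P_B1
import Pool.Agent.SAIL.ARI.P_B2
import Pool.Agent.SAIL.ARI.P_B3
import Pool.Agent.SAIL.ARI.P_B4
import Pool.Agent.SAIL.ARI.P_S1
import Pool.Agent.SAIL.ARI.P_S2
import Pool.Agent.SAIL.ARI.P_S3
import Pool.Agent.SAIL.ARI.P_S4
import Pool.Agent.SAIL.ARI.P_S5
import Pool.Agent.SAIL.ARI.P_B5
import Pool.Agent.SAIL.ARI.P_B6
import Pool.Agent.SAIL.ARI.P_B7
import Pool.Agent.SAIL.ARI.P_B8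
import Pool.Agent.SAIL.ARI.P_B9
import Pool.Agent.SAIL.ARI.P_B10
import Pool.Agent.SAIL.ARI.P_C1
import Pool.Agent.SAIL.ARI.P_C2
import Pool.Agent.SAIL.ARI.P_C3
import Pool.Agent.SAIL.ARI.P_C4
import Pool.Agent.SAIL.ARI.P_C5
import Pool.Agent.SAIL.ARI.P_C6
import Pool.Agent.SAIL.ARI.P_C7
import Pool.Agent.SAIL.ARI.P_C7p
import Pool.Agent.SAIL.ARI.P_C8
import Pool.Agent.SAIL.ARI.P_C9
import Pool.Agent.SAIL.ARI.P_C10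
import Pool.Agent.SAIL.ARI.P_LB
import Pool.Agent.SAIL.ARI.P_N1
import Pool.Agent.SAIL.ARI.P_N2
import Pool.Agent.SAIL.ARI.P_N3
import Pool.Agent.SAIL.ARI.P_N4
import Pool.Agent.SAIL.ARI.P_TIGHT
import Pool.Agent.SAIL.ARI.P_E1
import Pool.Agent.SAIL.ARI.P_E2
import Pool.Agent.SAIL.ARI.P_E3
import Pool.Agent.SAIL.ARI.P_DA
import Pool.Agent.SAIL.ARI.P_DB
import Pool.Agent.SAIL.ARI.P_DOM
import Pool.Agent.SAIL.ARI.P_EQ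

/-!
SAIL part D, assembled: every target of `ARI/Targets.lean` without hypotheses.
-/

namespace SAIL.ARIM

open SAIL SAIL.A

theorem aADJ : tADJ := p_ADJ
theorem aDUAL : tDUAL := p_DUAL aADJ
theorem aDVD : tDVD := p_DVD aADJ aDUAL
theorem aSPEC : tSPEC := p_SPEC aADJ aDUAL aDVD
theorem aCRO : tCRO := p_CRO aADJ aDUAL aDVD aSPEC
theorem aORD : tORD := p_ORD
theorem aGF : tGF := p_GF aADJ aDUAL aSPEC aCRO aORD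
theorem aFOB : tFOB := p_FOB aADJ aDUAL
theorem aFOUR : tFOUR := p_FOUR
theorem aEXI : tEXI := p_EXI
theorem aBAS : tBAS := p_BAS
theorem aGM : tGM := p_GM
theorem aB1 : tB1 := p_B1 aBAS
theorem aB2 : tB2 := p_B2 aBAS
theorem aB3 : tB3 := p_B3 aEXI aBAS
theorem aB4 : tB4 := p_B4
theorem aS1 : tS1 := p_S1 aB4
theorem aS2 : tS2 := p_S2
theorem aS3 : tS3 := p_S3 aB4
theorem aS4 : tS4 := p_S4
theorem aS5 : tS5 := p_S5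
theorem aB5 : tB5 := p_B5 aB4 aS1 aS2
theorem aB6 : tB6 := p_B6 aB4 aS1 aS2
theorem aB7 : tB7 := p_B7 aB4 aS1 aS2
theorem aB8 : tB8 := p_B8 aB4 aS1 aS2
theorem aB9 : tB9 := p_B9 aB4 aS2 aS3 aS4
theorem aB10 : tB10 := p_B10 aS5
theorem aC1 : tC1 := p_C1 aSPEC aGF aFOUR aB1 aB5
theorem aC2 : tC2 := p_C2 aADJ aDUAL aSPEC aGF aFOUR aB1 aB5
theorem aC3 : tC3 := p_C3 aDUAL aGF aFOUR aB2 aB5 aB6
theorem aC4 : tC4 := p_C4 aSPEC aFOB aB3 aB10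
theorem aC5 : tC5 := p_C5 aADJ aSPEC aGF aFOUR aGM aB1 aB7 aB8 aB9 aC1
theorem aC6 : tC6 := p_C6
theorem aC7 : tC7 := p_C7
theorem aC7p : tC7' := p_C7p
theorem aC8 : tC8 := p_C8 aSPEC
theorem aC9 : tC9 := p_C9 aSPEC
theorem aC10 : tC10 := p_C10 aADJ
theorem aLB : tLB := p_LB aC2 aC3 aC4 aC6 aC10
theorem aN1 : tN1 := p_N1 aADJ aDUAL aBAS
theorem aN2 : tN2 := p_N2 aADJ aGM
theorem aN3 : tN3 := p_N3
theorem aN4 : tN4 := p_N4 aADJ aDVD aSPEC aORD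
theorem aTIGHT : tTIGHT := p_TIGHT aSPEC aC6 aC7 aC7p aN1 aN2 aN3 aN4
theorem aE1 : tE1 := p_E1
theorem aE2 : tE2 := p_E2
theorem aE3 : tE3 := p_E3
theorem aDA : tDA := p_DA aGM aSPEC aC6 aC7 aE3
theorem aDB : tDB := p_DB SAIL.ERGA.CSFu SAIL.ERGA.LMUL aGM aC5 aE1 aE2
theorem aDOM : tDOM := p_DOM aDA aDB
theorem aEQ : tEQ := p_EQ SAIL.ERGA.PSl SAIL.ERGA.MN SAIL.ERGA.COR SAIL.ERGA.CUT SAIL.ERGA.MAHD
  SAIL.ERGA.FIN aDOM aTIGHT aC1 aC3 aC8 aC9 aGM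

end SAIL.ARIM
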