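import Pool.Agent.SAIL.ARI.P_B7

/-!
SAIL / ARI: B8 (thin shells in `|q|^2/|p|`).
-/

namespace SAIL.A

open Matrix MeasureTheory Filter SAIL

open b7x in
theorem p_B8 (hB4 : tB4) (_hS1 : tS1) (hS2 : tS2) : tB8 := by
  classical
  intro K hK
  obtain ⟨C4, hC4, h4⟩ := hB4
  obtain ⟨C2, hC2, h2⟩ := hS2
  refine ⟨C4 * K * C2 + C4 * K ^ 2 * C2, by positivity, ?_⟩
  intro X a hX ha S hS
  have hlog : 0 ≤ Real.log X := Real.log_nonneg hX
  have hK0 : (0 : ℝ) < K := by linarith
  rw [← Finset.sum_filter_add_sum_filter_not S (fun F => sn F.1 ≤ sn F.2)]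
  have hA : ∑ F ∈ S.filter (fun F => sn F.1 ≤ sn F.2), wt F ≤
      C4 * K * C2 * (1 + Real.log X) := by
    have hf := flagsum2 (C2 := C2) h2 (S.filter (fun F => sn F.1 ≤ sn F.2))
      (D := C4 * K) hX (by positivity)
      (fun F hF => (hS F (Finset.mem_filter.mp hF).1).1)
      (fun F hF => (hS F (Finset.mem_filter.mp hF).1).2.1) (by
        intro p hp T hT
        have hpp : prim p := by
          obtain ⟨F, hF, rfl⟩ := Finset.mem_image.mp hp
          exact (hS F (Finset.mem_filter.mp hF).1).1.1
        have hp0 : (0 : ℝ) < sn p := lt_of_lt_of_le one_pos (one_le_sn hpp)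
        have hT' : ∀ q ∈ T, (p, q) ∈ S ∧ sn p ≤ sn q := fun q hq => Finset.mem_filter.mp (hT q hq)
        rcases T.eq_empty_or_nonempty with h0 | ⟨q0, hq0⟩
        · rw [h0, Finset.sum_empty]
          positivity
        · have h5 := hT' q0 hq0
          have key : ∀ q ∈ T, Real.sqrt (a * sn p) ≤ sn q ∧ sn q ≤ Real.sqrt (K * a * sn p) := by
            intro q hq
            have h6 := hS _ (hT' q hq).1
            exact ⟨Real.sqrt_le_iff.mpr ⟨sn_nonneg q, h6.2.2.2.1⟩,
              Real.le_sqrt_of_sq_le h6.2.2.2.2⟩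
          have hb : 0 < Real.sqrt (a * sn p) := Real.sqrt_pos.mpr (by positivity)
          have hρ : sn p ≤ Real.sqrt (K * a * sn p) := h5.2.trans (key q0 hq0).2
          have h7 := shell (C := C4) h4 hpp hb hρ T (fun q hq =>
            ⟨(hS _ (hT' q hq).1).1.2.2, (key q hq).1, (key q hq).2⟩)
          refine h7.trans (le_of_eq ?_)
          rw [Real.sq_sqrt (by positivity), Real.sq_sqrt (by positivity)]
          field_simp)
    refine hf.trans (le_of_eq ?_)
    ring
  have hB : ∑ F ∈ S.filter (fun F => ¬ sn F.1 ≤ sn F.2), wt F ≤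
      C4 * K ^ 2 * C2 * (1 + Real.log X) := by
    rw [wt_swap]
    have hf := flagsum2 (C2 := C2) h2 ((S.filter (fun F => ¬ sn F.1 ≤ sn F.2)).image Prod.swap)
      (D := C4 * K ^ 2) hX (by positivity) (by
        intro F hF
        obtain ⟨G, hG, rfl⟩ := Finset.mem_image.mp hF
        exact flag_swap (hS G (Finset.mem_filter.mp hG).1).1) (by
        intro F hF
        obtain ⟨G, hG, rfl⟩ := Finset.mem_image.mp hF
        exact (hS G (Finset.mem_filter.mp hG).1).2.2.1) (by
        intro q hq T hT
        have hqp : prim q := by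
          obtain ⟨F, hF, rfl⟩ := Finset.mem_image.mp hq
          obtain ⟨G, hG, rfl⟩ := Finset.mem_image.mp hF
          exact (hS G (Finset.mem_filter.mp hG).1).1.2.1
        have hq0 : (0 : ℝ) < sn q := lt_of_lt_of_le one_pos (one_le_sn hqp)
        have hT' : ∀ p ∈ T, (p, q) ∈ S ∧ ¬ sn p ≤ sn q := by
          intro p hp
          obtain ⟨G, hG, hGe⟩ := Finset.mem_image.mp (hT p hp)
          have hGe' : G = (p, q) := by
            have := congrArg Prod.swap hGe
            simpa using this
          rw [hGe'] at hG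
          exact Finset.mem_filter.mp hG
        rcases T.eq_empty_or_nonempty with h0 | ⟨p0, hp0⟩
        · rw [h0, Finset.sum_empty]
          positivity
        · have h5 := hT' p0 hp0
          have key : ∀ p ∈ T, sn q ^ 2 / (K * a) ≤ sn p ∧ sn p ≤ sn q ^ 2 / a := by
            intro p hp
            have h6 := hS _ (hT' p hp).1
            refine ⟨?_, ?_⟩
            · rw [div_le_iff₀ (by positivity)]
              linarith [h6.2.2.2.2]
            · rw [le_div_iff₀ ha]
              linarith [h6.2.2.2.1]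
          have hb : 0 < sn q ^ 2 / (K * a) := by positivity
          have hρ : sn q ≤ sn q ^ 2 / a := (le_of_not_ge h5.2).trans (key p0 hp0).2
          have h7 := shell (C := C4) h4 hqp hb hρ T (fun p hp =>
            ⟨by rw [dotProduct_comm]; exact (hS _ (hT' p hp).1).1.2.2, (key p hp).1, (key p hp).2⟩)
          refine h7.trans (le_of_eq ?_)
          field_simp)
    refine hf.trans (le_of_eq ?_)
    ring
  calc _ ≤ C4 * K * C2 * (1 + Real.log X) + C4 * K ^ 2 * C2 * (1 + Real.log X) :=
        add_le_add hA hB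
    _ = _ := by ring

end SAIL.A
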