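import Pool.Agent.SAIL.ARI.Targets

/-!
SAIL / ARI, item C10: the hexagon contains a square of side `s - C`.
-/

set_option autoImplicit false

namespace SAIL.A

open Matrix MeasureTheory Filter SAIL

namespace C10x

theorem det_toR (V : IM) : (toR V).det = (V.det : ℝ) := by
  have h : toR V = (Int.castRingHom ℝ).mapMatrix V := by
    ext i j; rfl
  rw [h, ← RingHom.map_det]
  simp

theorem inv_apply (V : IM) (i j : Fin 3) :
    (toR V)⁻¹ i j = (V.adjugate i j : ℝ) / (V.det : ℝ) := by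
  have h : toR V = (Int.castRingHom ℝ).mapMatrix V := by
    ext i j; rfl
  have h2 : (toR V).adjugate i j = (V.adjugate i j : ℝ) := by
    rw [h, ← RingHom.map_adjugate]
    rfl
  rw [Matrix.inv_def, Matrix.smul_apply, h2, det_toR, Ring.inverse_eq_inv', smul_eq_mul]
  ring

theorem sn_nonneg (v : Fin 3 → ℤ) : 0 ≤ sn v := norm_nonneg _

theorem le_sn (v : Fin 3 → ℤ) (r : Fin 3) : |(v r : ℝ)| ≤ sn v := by
  have h := norm_le_pi_norm (fun i => (v i : ℝ)) r
  rw [Real.norm_eq_abs] at h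
  exact h

theorem sn_le (v : Fin 3 → ℤ) {c : ℝ} (hc : 0 ≤ c) (h : ∀ r, |(v r : ℝ)| ≤ c) : sn v ≤ c := by
  unfold sn
  rw [pi_norm_le_iff_of_nonneg hc]
  intro i
  rw [Real.norm_eq_abs]
  exact h i

/-- the determinant of a matrix with entries at most `K` -/
theorem det_le {N : M3} {K : ℝ} (h : ∀ i j, |N i j| ≤ K) : N.det ≤ 6 * K ^ 3 := by
  have hK : 0 ≤ K := (abs_nonneg _).trans (h 0 0)
  have hp : ∀ a b c d e f : Fin 3, |N a b * N c d * N e f| ≤ K ^ 3 := by
    intro a b c d e f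
    rw [abs_mul, abs_mul]
    calc |N a b| * |N c d| * |N e f| ≤ K * K * K := by
          gcongr
          · exact h a b
          · exact h c d
          · exact h e f
      _ = K ^ 3 := by ring
  rw [Matrix.det_fin_three]
  have h1 := abs_le.1 (hp 0 0 1 1 2 2)
  have h2 := abs_le.1 (hp 0 0 1 2 2 1)
  have h3 := abs_le.1 (hp 0 1 1 0 2 2)
  have h4 := abs_le.1 (hp 0 1 1 2 2 0)
  have h5 := abs_le.1 (hp 0 2 1 0 2 1)
  have h6 := abs_le.1 (hp 0 2 1 1 2 0)
  linarith [h1.1, h1.2, h2.1, h2.2, h3.1, h3.2, h4.1, h4.2, h5.1, h5.2, h6.1, h6.2]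

/-- the determinant is at least a multiple of the product of the norms of the columns -/
theorem prod_le {V : IM} {K : ℝ} (hV : 0 < V.det) (hA : Ang K V) :
    sn (vcol V 0) * sn (vcol V 1) * sn (vcol V 2) ≤ 6 * K ^ 3 * V.det := by
  have hd : (0 : ℝ) < (V.det : ℝ) := by exact_mod_cast hV
  have h1 : ((Matrix.diagonal fun i => sn (vcol V i)) * (toR V)⁻¹).det ≤ 6 * K ^ 3 := by
    apply det_le
    intro i j
    rw [Matrix.diagonal_mul, abs_mul, abs_of_nonneg (sn_nonneg _), mul_comm]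
    exact hA i j
  rw [Matrix.det_mul, Matrix.det_diagonal, Fin.prod_univ_three, Matrix.det_nonsing_inv,
    det_toR, Ring.inverse_eq_inv', ← div_eq_mul_inv, div_le_iff₀ hd] at h1
  exact h1

/-- contents and dual vectors -/
theorem dual_le (hADJ : tADJ) {V : IM} {K : ℝ} (hV : 0 < V.det) (hp : ∀ i, prim (vcol V i))
    (hA : Ang K V) (i : Fin 3) : (cn V i : ℝ) * sn (vst V i) * sn (vcol V i) ≤ K * V.det := by
  have hd : (0 : ℝ) < (V.det : ℝ) := by exact_mod_cast hV
  obtain ⟨hc, -, hadj, -⟩ := hADJ V hV hp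
  have hci : (0 : ℝ) < (cn V i : ℝ) := by exact_mod_cast hc i
  obtain ⟨j, hj⟩ : ∃ j, sn (vst V i) = |(vst V i j : ℝ)| := by
    have hne : (Finset.univ : Finset (Fin 3)).Nonempty := Finset.univ_nonempty
    obtain ⟨j, -, hj⟩ := Finset.exists_max_image Finset.univ
      (fun j => |(vst V i j : ℝ)|) hne
    refine ⟨j, le_antisymm ?_ (le_sn _ j)⟩
    exact sn_le _ (abs_nonneg _) fun r => hj r (Finset.mem_univ r)
  have h1 := hA i j
  rw [inv_apply, abs_div, abs_of_pos hd, hadj i j] at h1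
  rw [Int.cast_mul, Int.cast_natCast] at h1
  rw [abs_mul, abs_of_pos hci, div_mul_eq_mul_div, div_le_iff₀ hd] at h1
  rw [hj]
  exact h1

/-- the cross product -/
theorem cross_le (hADJ : tADJ) {V : IM} (hV : 0 < V.det) (hp : ∀ i, prim (vcol V i)) :
    (cn V 2 : ℝ) * sn (vst V 2) ≤ 2 * (sn (vcol V 0) * sn (vcol V 1)) := by
  obtain ⟨hc, -, -, -, -, -, hcr, -⟩ := hADJ V hV hp
  have hci : (0 : ℝ) < (cn V 2 : ℝ) := by exact_mod_cast hc 2
  have h1 : crossProduct (vcol V 0) (vcol V 1) = (cn V 2 : ℤ) • vst V 2 := hcr 2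
  have hnn : 0 ≤ 2 * (sn (vcol V 0) * sn (vcol V 1)) := by
    have := sn_nonneg (vcol V 0)
    have := sn_nonneg (vcol V 1)
    positivity
  have hb : ∀ a b c d : Fin 3, |(vcol V 0 a : ℝ) * vcol V 1 b - vcol V 0 c * vcol V 1 d| ≤
      2 * (sn (vcol V 0) * sn (vcol V 1)) := by
    intro a b c d
    calc |(vcol V 0 a : ℝ) * vcol V 1 b - vcol V 0 c * vcol V 1 d|
        ≤ |(vcol V 0 a : ℝ) * vcol V 1 b| + |(vcol V 0 c : ℝ) * vcol V 1 d| := abs_sub _ _
      _ = |(vcol V 0 a : ℝ)| * |(vcol V 1 b : ℝ)| + |(vcol V 0 c : ℝ)| * |(vcol V 1 d : ℝ)| := by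
          rw [abs_mul, abs_mul]
      _ ≤ sn (vcol V 0) * sn (vcol V 1) + sn (vcol V 0) * sn (vcol V 1) := by
          have := sn_nonneg (vcol V 0)
          gcongr
          · exact le_sn _ a
          · exact le_sn _ b
          · exact le_sn _ c
          · exact le_sn _ d
      _ = _ := by ring
  have h2 : ∀ r, |(cn V 2 : ℝ) * (vst V 2 r : ℝ)| ≤
      2 * (sn (vcol V 0) * sn (vcol V 1)) := by
    intro r
    have h3 : (crossProduct (vcol V 0) (vcol V 1)) r = (cn V 2 : ℤ) * vst V 2 r := by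
      rw [h1]; simp
    have h4 : (((crossProduct (vcol V 0) (vcol V 1)) r : ℤ) : ℝ) =
        (cn V 2 : ℝ) * (vst V 2 r : ℝ) := by
      rw [h3]; push_cast; ring
    rw [← h4, cross_apply]
    fin_cases r
    · simpa using hb 1 2 2 1
    · simpa using hb 2 0 0 2
    · simpa using hb 0 1 1 0
  have h5 : sn (vst V 2) ≤ 2 * (sn (vcol V 0) * sn (vcol V 1)) / cn V 2 := by
    apply sn_le _ (by positivity)
    intro r
    rw [le_div_iff₀ hci, mul_comm]
    have := h2 r
    rwa [abs_mul, abs_of_pos hci] at this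
  rw [le_div_iff₀ hci] at h5
  linarith

theorem pos_of_log {x s : ℝ} (hx : 0 ≤ x) (hs : 0 < s) (h : s ≤ Real.log x) : 0 < x := by
  rcases hx.lt_or_eq with h1 | h1
  · exact h1
  · rw [← h1, Real.log_zero] at h
    linarith

end C10x

open C10x in
/-- C10. Area of the hexagon, lower bound. -/
theorem p_C10 (hADJ : tADJ) : tC10 := by
  intro K hK
  refine ⟨|Real.log (6 * K ^ 3)| + |Real.log K| + Real.log 2 + 1, ?_, ?_⟩
  · have := Real.log_pos (by norm_num : (1 : ℝ) < 2)
    positivity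
  intro V s hV hp hA hCs hs
  set C : ℝ := |Real.log (6 * K ^ 3)| + |Real.log K| + Real.log 2 + 1 with hC
  have hlog2 : 0 < Real.log 2 := Real.log_pos (by norm_num : (1 : ℝ) < 2)
  have ha1 := abs_nonneg (Real.log (6 * K ^ 3))
  have ha2 := abs_nonneg (Real.log K)
  have hb1 := le_abs_self (Real.log (6 * K ^ 3))
  have hb2 := le_abs_self (Real.log K)
  have hspos : 0 < s := by linarith
  have hd : (0 : ℝ) < (V.det : ℝ) := by exact_mod_cast hV
  have hci : ∀ i, (0 : ℝ) < (cn V i : ℝ) := fun i => by exact_mod_cast (hADJ V hV hp).1 i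
  have hx : ∀ i, 0 < sn (vcol V i) := fun i => pos_of_log (sn_nonneg _) hspos (hs i).1
  have hz : ∀ i, 0 < sn (vst V i) := fun i => pos_of_log (sn_nonneg _) hspos (hs i).2
  have F1 : Real.log (sn (vcol V 0)) + Real.log (sn (vcol V 1)) + Real.log (sn (vcol V 2)) ≤
      Real.log (6 * K ^ 3) + Real.log V.det := by
    rw [← Real.log_mul (hx 0).ne' (hx 1).ne', ← Real.log_mul (mul_pos (hx 0) (hx 1)).ne' (hx 2).ne',
      ← Real.log_mul (by positivity) hd.ne']
    exact Real.log_le_log (mul_pos (mul_pos (hx 0) (hx 1)) (hx 2)) (prod_le hV hA)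
  have F2 : ∀ i, Real.log (cn V i) + Real.log (sn (vst V i)) + Real.log (sn (vcol V i)) ≤
      Real.log K + Real.log V.det := by
    intro i
    rw [← Real.log_mul (hci i).ne' (hz i).ne', ← Real.log_mul (mul_pos (hci i) (hz i)).ne' (hx i).ne',
      ← Real.log_mul hK.ne' hd.ne']
    exact Real.log_le_log (mul_pos (mul_pos (hci i) (hz i)) (hx i)) (dual_le hADJ hV hp hA i)
  have F3 : Real.log (cn V 2) + Real.log (sn (vst V 2)) ≤
      Real.log 2 + (Real.log (sn (vcol V 0)) + Real.log (sn (vcol V 1))) := by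
    rw [← Real.log_mul (hci 2).ne' (hz 2).ne', ← Real.log_mul (hx 0).ne' (hx 1).ne',
      ← Real.log_mul (by norm_num) (mul_pos (hx 0) (hx 1)).ne']
    exact Real.log_le_log (mul_pos (hci 2) (hz 2)) (cross_le hADJ hV hp)
  set x0 := Real.log (sn (vcol V 0)) with hx0
  set x1 := Real.log (sn (vcol V 1)) with hx1
  set h : ℝ := (s - C) / 2 with hh
  have hh0 : 0 ≤ h := by rw [hh]; linarith
  have s0 := hs 0
  have s1 := hs 1
  have s2 := hs 2
  have f0 := F2 0
  have f1 := F2 1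
  have hsub : Set.Icc (x0 - h) (x0 + h) ×ˢ Set.Icc (x1 - h) (x1 + h) ⊆ Hex V := by
    rintro ⟨y0, y1⟩ hy
    rw [Set.mem_prod, Set.mem_Icc, Set.mem_Icc] at hy
    obtain ⟨⟨g1, g2⟩, g3, g4⟩ := hy
    simp only at g1 g2 g3 g4
    intro i
    fin_cases i
    · show 0 ≤ y0 ∧ 0 ≤ Real.log V.det - Real.log (cn V 0) - y0
      constructor <;> linarith
    · show 0 ≤ y1 ∧ 0 ≤ Real.log V.det - Real.log (cn V 1) - y1
      constructor <;> linarith
    · show 0 ≤ Real.log V.det - y0 - y1 ∧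
        0 ≤ Real.log V.det - Real.log (cn V 2) - (Real.log V.det - y0 - y1)
      constructor <;> linarith
  calc ENNReal.ofReal ((s - C) ^ 2)
      = ENNReal.ofReal (2 * h) * ENNReal.ofReal (2 * h) := by
        rw [← ENNReal.ofReal_mul (by positivity)]
        congr 1
        rw [hh]; ring
    _ = volume (Set.Icc (x0 - h) (x0 + h) ×ˢ Set.Icc (x1 - h) (x1 + h)) := by
        rw [Measure.volume_eq_prod, Measure.prod_prod, Real.volume_Icc, Real.volume_Icc]
        congr 2 <;> ring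
    _ ≤ volume (Hex V) := measure_mono hsub

end SAIL.A
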