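import Pool.Agent.SAIL.ARI.Targets
import Pool.Agent.SAIL.ERG.Targets

/-!
SAIL / ARI: target EQ (equidistribution).
-/

open Matrix MeasureTheory Set Filter SAIL

namespace SAIL.A.eqx

lemma cont_pos (V : IM) (i : Fin 3) : Continuous (fun y : ℝ × ℝ => pos V y i) := by
  unfold pos
  fin_cases i
  · show Continuous (fun y : ℝ × ℝ => y.1)
    fun_prop
  · show Continuous (fun y : ℝ × ℝ => y.2)
    fun_prop
  · show Continuous (fun y : ℝ × ℝ => Real.log V.det - y.1 - y.2)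
    fun_prop

lemma cont_gmat (V : IM) : Continuous (fun y : ℝ × ℝ => gmat V y) := by
  unfold gmat
  refine Continuous.matrix_mul ?_ continuous_const
  refine Continuous.matrix_diagonal ?_
  exact continuous_pi fun i => Real.continuous_exp.comp (cont_pos V i)

lemma meas_Hex (V : IM) : MeasurableSet (Hex V) := by
  have e : Hex V = ⋂ i : Fin 3, ({y | 0 ≤ pos V y i} ∩ {y | 0 ≤ dpos V y i}) := by
    ext y
    rw [mem_iInter]
    exact Iff.rfl
  rw [e]
  refine MeasurableSet.iInter fun i => ?_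
  have h1 := cont_pos V i
  have h2 : Continuous (fun y : ℝ × ℝ => dpos V y i) := by
    unfold dpos
    exact continuous_const.sub h1
  exact (isClosed_le continuous_const h1).measurableSet.inter
    (isClosed_le continuous_const h2).measurableSet

lemma gmat_Om (hGM : tGM) {V : IM} (hV : 0 < V.det) (y : ℝ × ℝ) : gmat V y ∈ Om := by
  show 0 < (gmat V y).det
  rw [(hGM V hV y).1]
  exact one_pos

lemma cont_comp (hGM : tGM) {V : IM} (hV : 0 < V.det) {f : M3 → ℝ} (hf : ContinuousOn f Om) :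
    Continuous (fun y : ℝ × ℝ => f (gmat V y)) :=
  hf.comp_continuous (cont_gmat V) (fun y => gmat_Om hGM hV y)

/-- the effect of a translation on the integral over a set -/
lemma shift {h : ℝ × ℝ → ℝ} (hc : Continuous h) {B : ℝ} (hB0 : 0 ≤ B) (hB : ∀ y, |h y| ≤ B)
    {E : Set (ℝ × ℝ)} (hE : MeasurableSet E) (hEf : volume E ≠ ⊤) (s : ℝ × ℝ) {a : ℝ}
    (ha : 0 ≤ a) (h1 : volume {y | y ∈ E ∧ y + s ∉ E} ≤ ENNReal.ofReal a)
    (h2 : volume {y | y ∈ E ∧ y + (-s) ∉ E} ≤ ENNReal.ofReal a) :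
    |(∫ y in E, h y) - ∫ y in E, h (y + s)| ≤ 2 * B * a := by
  set E' : Set (ℝ × ℝ) := {y | y + (-s) ∈ E} with hE'
  have hmp : MeasurePreserving (fun y : ℝ × ℝ => y + s) volume volume :=
    measurePreserving_add_right volume s
  have hE'm : MeasurableSet E' := (measurable_id.add_const (-s)) hE
  have hpre : (fun y : ℝ × ℝ => y + s) ⁻¹' E' = E := by
    ext y
    simp [hE']
  have e1 : ∫ y in E, h (y + s) = ∫ y in E', h y := by
    have := hmp.setIntegral_preimage_emb (MeasurableEquiv.addRight s).measurableEmbedding h E'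
    rw [hpre] at this
    exact this
  have hE'f : volume E' ≠ ⊤ := by
    have := hmp.measure_preimage hE'm.nullMeasurableSet
    rw [hpre] at this
    rw [← this]
    exact hEf
  have hi : ∀ T : Set (ℝ × ℝ), volume T ≠ ⊤ → IntegrableOn h T := by
    intro T hT
    exact Measure.integrableOn_of_bounded hT hc.aestronglyMeasurable
      (Eventually.of_forall fun y => hB y)
  have hd1 : volume (E \ E') ≤ ENNReal.ofReal a := h2
  have hd2 : volume (E' \ E) ≤ ENNReal.ofReal a := by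
    have := hmp.measure_preimage (hE'm.diff hE).nullMeasurableSet
    rw [← this]
    refine (measure_mono ?_).trans h1
    intro y hy
    have hy1 : y + s ∈ E' \ E := hy
    have hy2 : y + s + (-s) ∈ E := hy1.1
    rw [add_neg_cancel_right] at hy2
    exact ⟨hy2, hy1.2⟩
  have e2 : ∫ y in E, h y = (∫ y in E ∩ E', h y) + ∫ y in E \ E', h y :=
    (integral_inter_add_sdiff hE'm (hi E hEf)).symm
  have e3 : ∫ y in E', h y = (∫ y in E' ∩ E, h y) + ∫ y in E' \ E, h y :=
    (integral_inter_add_sdiff hE (hi E' hE'f)).symm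
  have b : ∀ T : Set (ℝ × ℝ), volume T ≤ ENNReal.ofReal a → |∫ y in T, h y| ≤ B * a := by
    intro T hT
    have hTf : volume T < ⊤ := lt_of_le_of_lt hT ENNReal.ofReal_lt_top
    have h3 := norm_setIntegral_le_of_norm_le_const (f := h) (C := B) hTf (fun y _ => hB y)
    rw [Real.norm_eq_abs] at h3
    refine h3.trans ?_
    exact mul_le_mul_of_nonneg_left (ENNReal.toReal_le_of_le_ofReal ha hT) hB0
  rw [e1, e2, e3, inter_comm E' E]
  have b1 := abs_le.1 (b _ hd1)
  have b2 := abs_le.1 (b _ hd2)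
  rw [abs_le]
  constructor <;> linarith [b1.1, b1.2, b2.1, b2.2]

/-- replacing `F` by its averages -/
lemma avg (hGM : tGM) {C9 : ℝ} (hC9p : 0 < C9) {m : ℕ} {V : IM} (hV : 0 < V.det)
    (hVf : volume (Hex V) ≠ ⊤)
    (h9 : ∀ s : ℝ × ℝ, volume {y | y ∈ Hex V ∧ y + s ∉ Hex V} ≤
      ENNReal.ofReal (C9 * ‖s‖ * Real.log m)) {F : M3 → ℝ} (hF : ContinuousOn F Om) {B : ℝ}
    (hB0 : 0 ≤ B) (hB : ∀ M, |F M| ≤ B) {n : ℕ} (hn : 0 < n) :
    |(∫ y in Hex V, F (gmat V y)) - ∫ y in Hex V, BA aa F n (gmat V y)| ≤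
      2 * B * (C9 * (n * Real.log 2) * Real.log m) := by
  have hn' : (0 : ℝ) < n := by exact_mod_cast hn
  have hlog : 0 ≤ Real.log m := Real.log_natCast_nonneg m
  have hlog2 : 0 ≤ Real.log 2 := Real.log_nonneg (by norm_num)
  have hcont := cont_comp hGM hV hF
  have hBA : ∀ y, BA aa F n (gmat V y) =
      (∑ k ∈ Finset.range n, F (gmat V (y + ((k : ℝ) * Real.log 2, 0)))) / n := by
    intro y
    unfold BA
    congr 1
    refine Finset.sum_congr rfl fun k _ => ?_
    rw [(hGM V hV y).2.2.1 k]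
  have hint : ∀ k ∈ Finset.range n,
      Integrable (fun y : ℝ × ℝ => F (gmat V (y + ((k : ℝ) * Real.log 2, 0))))
        (volume.restrict (Hex V)) := by
    intro k _
    refine Measure.integrableOn_of_bounded hVf ?_ (Eventually.of_forall fun y => hB _)
    exact (hcont.comp (continuous_id.add continuous_const)).aestronglyMeasurable
  have e1 : ∫ y in Hex V, BA aa F n (gmat V y) =
      (∑ k ∈ Finset.range n, ∫ y in Hex V, F (gmat V (y + ((k : ℝ) * Real.log 2, 0)))) / n := by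
    simp only [hBA]
    rw [integral_div, integral_finsetSum _ hint]
  have e2 : ∫ y in Hex V, F (gmat V y) =
      (∑ _k ∈ Finset.range n, ∫ y in Hex V, F (gmat V y)) / n := by
    rw [Finset.sum_const, Finset.card_range, nsmul_eq_mul]
    field_simp
  rw [e1, e2, ← sub_div, ← Finset.sum_sub_distrib, abs_div, abs_of_pos hn',
    div_le_iff₀ hn']
  refine (Finset.abs_sum_le_sum_abs _ _).trans ?_
  have hk : ∀ k ∈ Finset.range n, |(∫ y in Hex V, F (gmat V y)) -
      ∫ y in Hex V, F (gmat V (y + ((k : ℝ) * Real.log 2, 0)))| ≤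
      2 * B * (C9 * (n * Real.log 2) * Real.log m) := by
    intro k hk
    have hkn : (k : ℝ) ≤ n := by
      exact_mod_cast (Finset.mem_range.1 hk).le
    have hnorm : ‖(((k : ℝ) * Real.log 2, (0 : ℝ)) : ℝ × ℝ)‖ ≤ n * Real.log 2 := by
      rw [Prod.norm_def]
      simp only [norm_zero]
      refine max_le ?_ (by positivity)
      rw [Real.norm_eq_abs, abs_of_nonneg (by positivity)]
      exact mul_le_mul_of_nonneg_right hkn hlog2
    have hmon : ∀ s : ℝ × ℝ, ‖s‖ ≤ n * Real.log 2 →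
        volume {y | y ∈ Hex V ∧ y + s ∉ Hex V} ≤
        ENNReal.ofReal (C9 * (n * Real.log 2) * Real.log m) := by
      intro s hs
      refine (h9 s).trans (ENNReal.ofReal_le_ofReal ?_)
      gcongr
    exact shift hcont hB0 (fun y => hB _) (meas_Hex V) hVf _ (by positivity) (hmon _ hnorm)
      (hmon _ (by rw [norm_neg]; exact hnorm))
  refine (Finset.sum_le_card_nsmul _ _ _ hk).trans (le_of_eq ?_)
  rw [Finset.card_range, nsmul_eq_mul]
  ring

lemma cont_BA {F : M3 → ℝ} (hF : ContinuousOn F Om) (n : ℕ) :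
    ContinuousOn (fun M => BA aa F n M) Om := by
  unfold BA
  refine ContinuousOn.div_const ?_ _
  refine continuousOn_finsetSum _ fun k _ => ?_
  refine hF.comp (continuous_lmul (aa ^ k)).continuousOn ?_
  intro M hM
  refine mul_mem_Om ?_ hM
  rw [Matrix.det_pow, det_aa]
  norm_num

lemma abs_BA {F : M3 → ℝ} {B : ℝ} (hB0 : 0 ≤ B) (hB : ∀ M, |F M| ≤ B) (n : ℕ) (M : M3) :
    |BA aa F n M| ≤ B := by
  unfold BA
  rcases Nat.eq_zero_or_pos n with h | h
  · subst h
    simpa using hB0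
  · have hn : (0 : ℝ) < n := by exact_mod_cast h
    rw [abs_div, abs_of_pos hn, div_le_iff₀ hn]
    refine (Finset.abs_sum_le_sum_abs _ _).trans ?_
    refine (Finset.sum_le_card_nsmul _ _ B fun k _ => hB _).trans (le_of_eq ?_)
    rw [Finset.card_range, nsmul_eq_mul]
    ring

/-- domination on the thick part -/
lemma pairB (hGM : tGM) {V : IM} (hV : 0 < V.det) {η f : M3 → ℝ} {R' Rd δ B2 : ℝ}
    (hη : CSF R' η) (hη0 : ∀ M, 0 ≤ η M) (hη1 : ∀ M ∈ KK Rd, η M = 1)
    (hfin : ∀ M ∈ Om, {γ : GZ | M * ic γ ∈ KK R'}.Finite)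
    (hMah : ∀ M ∈ Om, Thick δ M → ∃ γ : GZ, M * ic γ ∈ KK Rd)
    (hf0 : ∀ M, 0 ≤ f M) (hfB : ∀ M, f M ≤ B2) (hfc : ContinuousOn f Om)
    (hPc : ContinuousOn (PS η) Om)
    (hPS : ∀ M, PS (fun N => η N * f N) M = PS η M * f M) :
    ∫⁻ y in Hex V, ENNReal.ofReal (f (gmat V y)) ≤
      (∫⁻ y in Hex V, ENNReal.ofReal (PS (fun N => η N * f N) (gmat V y))) +
        ENNReal.ofReal B2 * volume {y | y ∈ Hex V ∧ ¬ Thick δ (gmat V y)} := by
  set T : Set (ℝ × ℝ) := {y | y ∈ Hex V ∧ ¬ Thick δ (gmat V y)} with hT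
  set T' : Set (ℝ × ℝ) := {y | y ∈ Hex V ∧ Thick δ (gmat V y)} with hT'
  have hsub : Hex V ⊆ T' ∪ T := by
    intro y hy
    by_cases h : Thick δ (gmat V y)
    · exact Or.inl ⟨hy, h⟩
    · exact Or.inr ⟨hy, h⟩
  have hg : Measurable (fun y : ℝ × ℝ =>
      ENNReal.ofReal (PS (fun N => η N * f N) (gmat V y))) := by
    simp only [hPS]
    exact ((cont_comp hGM hV hPc).mul (cont_comp hGM hV hfc)).measurable.ennreal_ofReal
  have hpt : ∀ y ∈ T', ENNReal.ofReal (f (gmat V y)) ≤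
      ENNReal.ofReal (PS (fun N => η N * f N) (gmat V y)) := by
    intro y hy
    apply ENNReal.ofReal_le_ofReal
    rw [hPS]
    have hOm := gmat_Om hGM hV y
    obtain ⟨γ, hγ⟩ := hMah _ hOm hy.2
    have hsum : Summable (fun γ : GZ => η (gmat V y * ic γ)) := by
      refine summable_of_hasFiniteSupport ((hfin _ hOm).subset ?_)
      intro γ' hγ'
      exact hη.supp _ hγ'
    have h1 : (1 : ℝ) ≤ PS η (gmat V y) := by
      have := hsum.le_tsum γ (fun j _ => hη0 _)
      rw [hη1 _ hγ] at this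
      exact this
    have := hf0 (gmat V y)
    nlinarith
  calc ∫⁻ y in Hex V, ENNReal.ofReal (f (gmat V y))
      ≤ ∫⁻ y in T' ∪ T, ENNReal.ofReal (f (gmat V y)) := lintegral_mono_set hsub
    _ ≤ (∫⁻ y in T', ENNReal.ofReal (f (gmat V y))) + ∫⁻ y in T, ENNReal.ofReal (f (gmat V y)) :=
        lintegral_union_le _ _ _
    _ ≤ (∫⁻ y in Hex V, ENNReal.ofReal (PS (fun N => η N * f N) (gmat V y))) +
        ENNReal.ofReal B2 * volume T := by
        refine add_le_add ?_ ?_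
        · refine (setLIntegral_mono hg hpt).trans (lintegral_mono_set ?_)
          intro y hy
          exact hy.1
        · rw [← setLIntegral_const]
          exact lintegral_mono fun y => ENNReal.ofReal_le_ofReal (hfB _)

/-- the numerical inequality at the end -/
lemma fin_num {ε B C1 C3 C8 D e I M L S1 S2 S3 : ℝ} (hε : 0 < ε) (hM : 0 < M) (hL : 0 < L)
    (he2 : B * C8 * C3 * e ≤ ε / 8) (hL1 : (B * C8 * C3 + D * C1) * 8 ≤ ε * L)
    (hI : I < ε / 8)
    (h1 : S1 ≤ C3 * M * (e * L ^ 2 + L) * (B * (C8 * L ^ 2)))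
    (h2 : S2 ≤ C1 * M * L ^ 2 * (D * L))
    (h3 : S3 ≤ (I + ε / 8) * M * L ^ 4 + ε / 8 * M * L ^ 4) :
    S1 + (S2 + S3) < ε * (M * L ^ 4) := by
  have hML : 0 < M * L ^ 4 := by positivity
  have hML3 : 0 < M * L ^ 3 := by positivity
  have e1 : C3 * M * (e * L ^ 2 + L) * (B * (C8 * L ^ 2)) + C1 * M * L ^ 2 * (D * L) =
      (B * C8 * C3 * e) * (M * L ^ 4) + (B * C8 * C3 + D * C1) * (M * L ^ 3) := by ring
  have e2 : (B * C8 * C3 * e) * (M * L ^ 4) ≤ ε / 8 * (M * L ^ 4) :=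
    mul_le_mul_of_nonneg_right he2 hML.le
  have e3 : (B * C8 * C3 + D * C1) * (M * L ^ 3) ≤ ε / 8 * L * (M * L ^ 3) :=
    mul_le_mul_of_nonneg_right (by linarith) hML3.le
  have e4 : ε / 8 * L * (M * L ^ 3) = ε / 8 * (M * L ^ 4) := by ring
  have e5 : (I + ε / 8) * M * L ^ 4 + ε / 8 * M * L ^ 4 = (I + ε / 8 + ε / 8) * (M * L ^ 4) := by
    ring
  have e6 : (I + ε / 8 + ε / 8) * (M * L ^ 4) < (ε / 8 + ε / 8 + ε / 8) * (M * L ^ 4) :=
    mul_lt_mul_of_pos_right (by linarith) hML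
  have e7 : 0 < ε * (M * L ^ 4) := by positivity
  nlinarith

end SAIL.A.eqx

namespace SAIL.A

open eqx

open Classical in
/-- D2 (EQ), equidistribution. -/
theorem p_EQ (hPS : T_PS) (hMN : T_MN) (hCOR : T_COR) (hCUT : T_CUT) (hMAHD : T_MAHD)
    (hFIN : T_FIN) (hDOM : tDOM) (hTI : tTIGHT) (hC1 : tC1) (hC3 : tC3) (hC8 : tC8)
    (hC9 : tC9) (hGM : tGM) : tEQ := by
  intro s hs R ψ hψ
  have hLF : LF (PS ψ) := hPS R ψ hψ
  have hmn : mn s (PS ψ) = (∫ M in Co, ψ M) / (volume s).toReal := hMN s hs R ψ hψ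
  obtain ⟨B₀, hB₀⟩ := hLF.bdd
  set F : M3 → ℝ := PS ψ with hFdef
  set c0 : ℝ := (∫ M in Co, ψ M) / (volume s).toReal with hc0
  set B : ℝ := |B₀| + |c0| + 1 with hBdef
  have hB1 : 0 < B := by positivity
  have hFB₀ : ∀ M, |F M| ≤ |B₀| := fun M => (hB₀ M).trans (le_abs_self _)
  have hFB : ∀ M, |F M| ≤ B := fun M => (hFB₀ M).trans (by rw [hBdef]; linarith [abs_nonneg c0])
  have hGB : ∀ M, |F M - c0| ≤ B := fun M => by
    have h1 := abs_sub (F M) c0
    have h2 := hFB₀ M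
    rw [hBdef]
    linarith
  have hfB : ∀ n M, |BA aa F n M - c0| ≤ B := fun n M => by
    have h1 := abs_sub (BA aa F n M) c0
    have h2 := abs_BA (abs_nonneg B₀) hFB₀ n M
    rw [hBdef]
    linarith
  obtain ⟨C1, hC1p, h1⟩ := hC1
  obtain ⟨C3, hC3p, h3⟩ := hC3
  obtain ⟨C8, hC8p, h8⟩ := hC8
  obtain ⟨C9, hC9p, h9⟩ := hC9
  rw [Metric.tendsto_atTop]
  intro ε hε
  set e : ℝ := min 1 (ε / (8 * (B * C8 * C3))) with he
  have hep : 0 < e := lt_min one_pos (by positivity)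
  have he1 : e ≤ 1 := min_le_left _ _
  have he2 : B * C8 * C3 * e ≤ ε / 8 := by
    calc B * C8 * C3 * e ≤ B * C8 * C3 * (ε / (8 * (B * C8 * C3))) :=
          mul_le_mul_of_nonneg_left (min_le_right _ _) (by positivity)
      _ = ε / 8 := by field_simp
  obtain ⟨δ, m₁, hδ, hTI'⟩ := hTI e (ε / (8 * B)) hep (by positivity)
  obtain ⟨Rd, hRd⟩ := hMAHD δ hδ
  obtain ⟨R', η, hη, hη0, -, hη1⟩ := hCUT Rd
  obtain ⟨CD, hCDp, hD⟩ := hDOM e R' hep
  obtain ⟨hc1, hc2, hc3⟩ := hCOR s hs F hLF R' η hη hη0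
  simp only [hmn] at hc1 hc2 hc3
  obtain ⟨n, hn1, hn2⟩ : ∃ n : ℕ, 0 < n ∧
      CD * ∫ M in Co, η M * |BA aa F n M - c0| < ε / 8 := by
    have h := hc3.const_mul CD
    rw [mul_zero] at h
    obtain ⟨n, hn⟩ := ((h.eventually (gt_mem_nhds (show (0 : ℝ) < ε / 8 by positivity))).and
      (eventually_gt_atTop 0)).exists
    exact ⟨n, hn.2, hn.1⟩
  obtain ⟨mD, hmD⟩ := hD (fun M => η M * |BA aa F n M - c0|) (hc1 n)
    (fun M => mul_nonneg (hη0 M) (abs_nonneg _)) (ε / 8) (by positivity)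
  obtain ⟨NF, hNF⟩ := hFIN R'
  set D : ℝ := 2 * B * (C9 * (n * Real.log 2)) with hDdef
  have hlog2 : 0 ≤ Real.log 2 := Real.log_nonneg (by norm_num)
  have hDp : 0 ≤ D := by positivity
  set Lm : ℝ := (B * C8 * C3 + D * C1) * 8 / ε with hLm
  refine ⟨⌈max 2 (max m₁ (max mD (Real.exp Lm)))⌉₊, ?_⟩
  intro m hm
  have hm' : max 2 (max m₁ (max mD (Real.exp Lm))) ≤ (m : ℝ) := Nat.ceil_le.1 hm
  have hm2r : (2 : ℝ) ≤ m := (le_max_left _ _).trans hm'
  have hm2 : 2 ≤ m := by exact_mod_cast hm2r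
  have hmm₁ : m₁ ≤ m := (le_max_left _ _).trans ((le_max_right _ _).trans hm')
  have hmmD : mD ≤ m :=
    (le_max_left _ _).trans ((le_max_right _ _).trans ((le_max_right _ _).trans hm'))
  have hmexp : Real.exp Lm ≤ m :=
    (le_max_right _ _).trans ((le_max_right _ _).trans ((le_max_right _ _).trans hm'))
  have hmpos : (0 : ℝ) < m := by linarith
  set L : ℝ := Real.log m with hLdef
  have hLp : 0 < L := Real.log_pos (by linarith)
  have hLL : Lm ≤ L := by
    have := Real.log_le_log (Real.exp_pos _) hmexp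
    rwa [Real.log_exp] at this
  have hL1 : (B * C8 * C3 + D * C1) * 8 ≤ ε * L := by
    have := (div_le_iff₀ hε).1 hLL
    linarith
  -- facts for the pairs
  have hVp : ∀ P ∈ PPf m, 0 < P.2.det := by
    intro P hP
    obtain ⟨l, hl⟩ := (Finset.mem_filter.1 hP).2.2
    exact hl.2.2.2.2
  have hVf : ∀ P ∈ PPf m, volume (Hex P.2) ≠ ⊤ := fun P hP =>
    (lt_of_le_of_lt (h8 m hm2 P hP) ENNReal.ofReal_lt_top).ne
  have hVr : ∀ P ∈ PPf m, (volume (Hex P.2)).toReal ≤ C8 * L ^ 2 := fun P hP =>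
    ENNReal.toReal_le_of_le_ofReal (by positivity) (h8 m hm2 P hP)
  set I : IM × IM → ℝ := fun P => ∫ y in Hex P.2, (F (gmat P.2 y) - c0) with hI
  set J : IM × IM → ℝ := fun P => ∫ y in Hex P.2, (BA aa F n (gmat P.2 y) - c0) with hJ
  have hIb : ∀ P ∈ PPf m, |I P| ≤ B * (C8 * L ^ 2) := by
    intro P hP
    have h := norm_setIntegral_le_of_norm_le_const (f := fun y => F (gmat P.2 y) - c0) (C := B)
      (lt_of_le_of_ne le_top (hVf P hP)) (fun y _ => hGB (gmat P.2 y))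
    rw [Real.norm_eq_abs] at h
    exact h.trans (mul_le_mul_of_nonneg_left (hVr P hP) hB1.le)
  have hIJ : ∀ P ∈ PPf m, |I P - J P| ≤ D * L := by
    intro P hP
    have hV := hVp P hP
    have hc : IntegrableOn (fun _ : ℝ × ℝ => c0) (Hex P.2) :=
      integrableOn_const (hVf P hP)
    have hi1 : IntegrableOn (fun y : ℝ × ℝ => F (gmat P.2 y)) (Hex P.2) :=
      Measure.integrableOn_of_bounded (hVf P hP) (cont_comp hGM hV hLF.cont).aestronglyMeasurable
        (Eventually.of_forall fun y => hFB _)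
    have hi2 : IntegrableOn (fun y : ℝ × ℝ => BA aa F n (gmat P.2 y)) (Hex P.2) :=
      Measure.integrableOn_of_bounded (hVf P hP)
        (cont_comp hGM hV (cont_BA hLF.cont n)).aestronglyMeasurable
        (Eventually.of_forall fun y => abs_BA hB1.le hFB n _)
    have e1 : I P - J P = (∫ y in Hex P.2, F (gmat P.2 y)) -
        ∫ y in Hex P.2, BA aa F n (gmat P.2 y) := by
      simp only [hI, hJ]
      rw [integral_sub hi1 hc, integral_sub hi2 hc]
      ring
    rw [e1]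
    refine (avg hGM hC9p hV (hVf P hP) (h9 m hm2 P hP) hLF.cont hB1.le hFB hn1).trans
      (le_of_eq ?_)
    rw [hDdef, hLdef]
    ring
  -- the three sums
  have hS1 : ∑ P ∈ (PPf m).filter (fun P => ¬ Gap e m P), |I P| ≤
      C3 * (m : ℝ) ^ 6 * (e * L ^ 2 + L) * (B * (C8 * L ^ 2)) := by
    refine (Finset.sum_le_card_nsmul _ _ (B * (C8 * L ^ 2)) fun P hP =>
      hIb P (Finset.mem_filter.1 hP).1).trans ?_
    rw [nsmul_eq_mul]
    exact mul_le_mul_of_nonneg_right (h3 m e hm2 hep he1) (by positivity)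
  have hS2 : ∑ P ∈ (PPf m).filter (Gap e m), |I P - J P| ≤
      C1 * (m : ℝ) ^ 6 * L ^ 2 * (D * L) := by
    refine (Finset.sum_le_card_nsmul _ _ (D * L) fun P hP =>
      hIJ P (Finset.mem_filter.1 hP).1).trans ?_
    rw [nsmul_eq_mul]
    refine mul_le_mul_of_nonneg_right ?_ (by positivity)
    refine le_trans ?_ (h1 m hm2)
    exact_mod_cast Finset.card_filter_le _ _
  have hS3 : ∑ P ∈ (PPf m).filter (Gap e m), |J P| ≤
      (CD * (∫ M in Co, η M * |BA aa F n M - c0|) + ε / 8) * (m : ℝ) ^ 6 * L ^ 4 +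
        ε / 8 * (m : ℝ) ^ 6 * L ^ 4 := by
    have hIn : 0 ≤ ∫ M in Co, η M * |BA aa F n M - c0| :=
      integral_nonneg fun M => mul_nonneg (hη0 M) (abs_nonneg _)
    have hX1 : 0 ≤ (CD * (∫ M in Co, η M * |BA aa F n M - c0|) + ε / 8) * (m : ℝ) ^ 6 * L ^ 4 := by
      positivity
    have hX2 : 0 ≤ ε / 8 * (m : ℝ) ^ 6 * L ^ 4 := by positivity
    rw [← ENNReal.ofReal_le_ofReal_iff (add_nonneg hX1 hX2),
      ENNReal.ofReal_sum_of_nonneg (fun P _ => abs_nonneg _), ENNReal.ofReal_add hX1 hX2]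
    have hpair : ∀ P ∈ (PPf m).filter (Gap e m), ENNReal.ofReal |J P| ≤
        (∫⁻ y in Hex P.2, ENNReal.ofReal
          (PS (fun N => η N * |BA aa F n N - c0|) (gmat P.2 y))) +
        ENNReal.ofReal B * volume {y | y ∈ Hex P.2 ∧ ¬ Thick δ (gmat P.2 y)} := by
      intro P hP
      have hV := hVp P (Finset.mem_filter.1 hP).1
      have ha : ENNReal.ofReal |J P| ≤
          ∫⁻ y in Hex P.2, ENNReal.ofReal (|BA aa F n (gmat P.2 y) - c0|) := by
        refine ENNReal.ofReal_le_of_le_toReal ?_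
        have h := norm_integral_le_lintegral_norm (μ := volume.restrict (Hex P.2))
          (fun y : ℝ × ℝ => BA aa F n (gmat P.2 y) - c0)
        exact h
      refine ha.trans ?_
      exact pairB hGM hV (f := fun M => |BA aa F n M - c0|) hη hη0 hη1 (fun M hM => (hNF M hM).1)
        (fun M hM hT => hRd M hM hT) (fun M => abs_nonneg _) (fun M => hfB n M)
        ((cont_BA hLF.cont n).sub continuousOn_const).abs (hPS R' η hη).cont (hc2 n)
    refine (Finset.sum_le_sum hpair).trans ?_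
    rw [Finset.sum_add_distrib, ← Finset.mul_sum]
    refine add_le_add (hmD m hmmD) ?_
    refine (mul_le_mul_right (hTI' m hmm₁) _).trans ?_
    rw [← ENNReal.ofReal_mul hB1.le]
    refine ENNReal.ofReal_le_ofReal (le_of_eq ?_)
    rw [hLdef]
    field_simp
  -- conclusion
  rw [Real.dist_eq, sub_zero, abs_div, abs_of_pos (show 0 < (m : ℝ) ^ 6 * L ^ 4 by positivity),
    div_lt_iff₀ (by positivity)]
  have hsplit : |∑ P ∈ PPf m, I P| ≤
      ∑ P ∈ (PPf m).filter (fun P => ¬ Gap e m P), |I P| +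
      (∑ P ∈ (PPf m).filter (Gap e m), |I P - J P| +
        ∑ P ∈ (PPf m).filter (Gap e m), |J P|) := by
    refine (Finset.abs_sum_le_sum_abs _ _).trans ?_
    rw [← Finset.sum_filter_add_sum_filter_not (PPf m) (Gap e m) (fun P => |I P|), add_comm]
    refine add_le_add le_rfl ?_
    rw [← Finset.sum_add_distrib]
    refine Finset.sum_le_sum fun P _ => ?_
    have := abs_add_le (I P - J P) (J P)
    rwa [sub_add_cancel] at this
  refine lt_of_le_of_lt hsplit ?_
  exact fin_num hε (by positivity) hLp he2 hL1 hn2 hS1 hS2 hS3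

end SAIL.A
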