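import Pool.Agent.SAIL.ARI.Targets

/-!
SAIL / ARI, target GM: elementary facts on `gmat`.
-/

namespace SAIL.A.GMx

open Matrix MeasureTheory Filter SAIL SAIL.A

lemma toR_det (V : IM) : (toR V).det = (V.det : ℝ) := by
  have h : toR V = (Int.castRingHom ℝ).mapMatrix V := by ext i j; rfl
  rw [h, ← RingHom.map_det]; rfl

lemma toR_mul (A B : IM) : toR (A * B) = toR A * toR B := by
  ext i j
  simp [toR, Matrix.mul_apply]

lemma exp_prod (V : IM) (hV : 0 < V.det) (y : ℝ × ℝ) :
    Real.exp (pos V y 0) * Real.exp (pos V y 1) * Real.exp (pos V y 2) = V.det := by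
  have hV' : (0 : ℝ) < (V.det : ℝ) := by exact_mod_cast hV
  rw [← Real.exp_add, ← Real.exp_add]
  have : pos V y 0 + pos V y 1 + pos V y 2 = Real.log V.det := by
    simp [pos]
  rw [this, Real.exp_log hV']

lemma gmat_inv (V : IM) (hV : 0 < V.det) (y : ℝ × ℝ) :
    (gmat V y)⁻¹ = toR V * Matrix.diagonal (fun i => Real.exp (-pos V y i)) := by
  have hV' : (toR V).det ≠ 0 := by
    rw [toR_det]; exact_mod_cast hV.ne'
  refine Matrix.inv_eq_right_inv ?_
  unfold gmat
  have hu : IsUnit (toR V).det := isUnit_iff_ne_zero.2 hV'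
  calc Matrix.diagonal (fun i => Real.exp (pos V y i)) * (toR V)⁻¹ *
        (toR V * Matrix.diagonal (fun i => Real.exp (-pos V y i)))
      = Matrix.diagonal (fun i => Real.exp (pos V y i)) * ((toR V)⁻¹ * toR V) *
        Matrix.diagonal (fun i => Real.exp (-pos V y i)) := by
          simp only [Matrix.mul_assoc]
    _ = 1 := by
          rw [Matrix.nonsing_inv_mul _ hu, Matrix.mul_one, Matrix.diagonal_mul_diagonal,
            ← Matrix.diagonal_one]
          congr 1
          funext i
          rw [← Real.exp_add, add_neg_cancel, Real.exp_zero]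

end SAIL.A.GMx

namespace SAIL.A

open Matrix MeasureTheory Filter SAIL SAIL.A.GMx

theorem p_GM : tGM := by
  intro V hV y
  have hV' : (0 : ℝ) < (V.det : ℝ) := by exact_mod_cast hV
  have hdet : (toR V).det ≠ 0 := by rw [toR_det]; exact hV'.ne'
  refine ⟨?_, ?_, ?_, ?_, ?_, exp_prod V hV y⟩
  · unfold gmat
    rw [Matrix.det_mul, Matrix.det_diagonal, Fin.prod_univ_three, exp_prod V hV y,
      Matrix.det_nonsing_inv, toR_det, Ring.inverse_eq_inv', mul_inv_cancel₀ hV'.ne']
  · intro γ
    have hd : (γ⁻¹.1 * V).det = V.det := by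
      rw [Matrix.det_mul, γ⁻¹.2, one_mul]
    have hp : pos (γ⁻¹.1 * V) y = pos V y := by
      unfold pos; rw [hd]
    have hic : toR γ⁻¹.1 = ic γ⁻¹ := rfl
    unfold gmat
    rw [hp, toR_mul, hic, Matrix.mul_inv_rev, Matrix.mul_assoc]
    congr 2
    exact (Matrix.inv_eq_right_inv (ic_inv_mul γ)).symm
  · intro k
    have hk : Matrix.diagonal (fun i => Real.exp (pos V (y + (k * Real.log 2, 0)) i)) =
        aa ^ k * Matrix.diagonal (fun i => Real.exp (pos V y i)) := by
      unfold aa
      rw [Matrix.diagonal_pow, Matrix.diagonal_mul_diagonal]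
      congr 1
      have h2 : Real.exp (k * Real.log 2) = 2 ^ k := by
        rw [mul_comm, Real.exp_mul, Real.exp_log (by norm_num), Real.rpow_natCast]
      funext i
      fin_cases i
      · simp only [pos, Pi.pow_apply]
        simp [Real.exp_add, h2, mul_comm]
      · simp [pos]
      · have e : Real.log V.det - (y.1 + k * Real.log 2) - y.2 =
            (Real.log V.det - y.1 - y.2) + -(k * Real.log 2) := by ring
        simp only [pos, Pi.pow_apply]
        simp only [Prod.fst_add, Prod.snd_add, add_zero]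
        simp only [Fin.reduceFinMk, Matrix.cons_val]
        rw [e, Real.exp_add, Real.exp_neg, h2]
        simp [mul_comm]
    unfold gmat
    rw [hk, Matrix.mul_assoc]
  · intro i j
    unfold gmat
    rw [Matrix.diagonal_mul]
  · intro r i
    rw [gmat_inv V hV y, Matrix.mul_diagonal]
    rfl

end SAIL.A
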