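import Pool.Agent.SAIL.Defs

/-!
SAIL / ARI targets: arithmetic part (domination, tightness, lower bounds, equidistribution).
Index arithmetic `k+1`, `k+2` is cyclic in `Fin 3`.
-/

namespace SAIL.A

open Matrix MeasureTheory Filter SAIL

/-- A flag: primitive vector and covector, orthogonal. -/
def Flag (p q : Fin 3 → ℤ) : Prop := prim p ∧ prim q ∧ p ⬝ᵥ q = 0

/-- The matrix preserves the flag. -/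
def Pres (A : IM) (p q : Fin 3 → ℤ) : Prop :=
  (∃ a : ℤ, A *ᵥ p = a • p) ∧ ∃ b : ℤ, q ᵥ* A = b • q

/-! ## Level 1: algebra -/

/-- A1. The adjugate of a matrix with primitive columns and positive determinant. -/
def tADJ : Prop := ∀ V : IM, 0 < V.det → (∀ i, prim (vcol V i)) →
  (∀ i, 0 < cn V i) ∧ (∀ i, prim (vst V i)) ∧
  (∀ i j, V.adjugate i j = cn V i * vst V i j) ∧
  (∀ i, (cn V i : ℤ) * (vst V i ⬝ᵥ vcol V i) = V.det) ∧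
  (∀ i j, i ≠ j → vst V i ⬝ᵥ vcol V j = 0) ∧
  (∀ k, ((cn V (k + 1) : ℤ) * cn V (k + 2)) ∣ V.det) ∧
  (∀ k, crossProduct (vcol V (k + 1)) (vcol V (k + 2)) = (cn V k : ℤ) • vst V k) ∧
  (∀ k, ((cn V (k + 1) : ℤ) * cn V (k + 2)) • crossProduct (vst V (k + 1)) (vst V (k + 2)) =
    V.det • vcol V k)

/-- The dual matrix: columns are the dual eigenvectors. -/
def Vd (V : IM) : IM := Matrix.of fun r i => vst V i r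

/-- A2. Duality. -/
def tDUAL : Prop := ∀ A V l, Eig A V l →
  Eig Aᵀ (Vd V) l ∧ (∀ i, vcol (Vd V) i = vst V i) ∧ (∀ i, vst (Vd V) i = vcol V i) ∧
  nrm Aᵀ = nrm A ∧ (∀ i, vst V i ᵥ* A = l i • vst V i) ∧ (∀ i, A *ᵥ vcol V i = l i • vcol V i)

/-- A3. Divisibility of the contents by eigenvalue gaps. -/
def tDVD : Prop := ∀ A V l, Eig A V l → ∀ k : Fin 3,
  ((cn V k : ℤ) ∣ l (k + 1) - l (k + 2)) ∧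
  (V.det ∣ (cn V (k + 1) : ℤ) * cn V (k + 2) * (l (k + 1) - l (k + 2)))

/-- A4. Sizes; in particular the box in the definition of `PPf` is large enough. -/
def tSPEC : Prop := ∀ (m : ℕ) A V l, Eig A V l → nrm A ≤ m →
  (∀ i, |l i| ≤ m) ∧ (∀ i, 1 ≤ sn (vcol V i) ∧ sn (vcol V i) ≤ 4 * (m : ℝ) ^ 2) ∧
  (∀ i, 1 ≤ sn (vst V i) ∧ sn (vst V i) ≤ 4 * (m : ℝ) ^ 2) ∧
  (V.det : ℝ) ≤ 8 * (m : ℝ) ^ 3 ∧ (∀ i, (cn V i : ℝ) ≤ 2 * m) ∧ (A, V) ∈ PPf m ∧ 1 ≤ m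

/-- A5. Cross product inequalities. -/
def tCRO : Prop := ∀ (m : ℕ) A V l, Eig A V l → nrm A ≤ m → ∀ k : Fin 3,
  sn (vcol V (k + 1)) * sn (vcol V (k + 2)) ≤ 4 * m * sn (vst V k) ∧
  sn (vst V (k + 1)) * sn (vst V (k + 2)) ≤ 4 * m * sn (vcol V k)

/-- A6. Abstract ordering lemma. -/
def tORD : Prop := ∀ (x y : Fin 3 → ℝ) (c : ℝ), 0 ≤ c →
  (∀ k : Fin 3, x (k + 1) + x (k + 2) ≤ y k + c) →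
  (∀ k : Fin 3, y (k + 1) + y (k + 2) ≤ x k + c) →
  ∃ i k : Fin 3, i ≠ k ∧ 2 * x i ≤ y k + c ∧ 2 * y k ≤ x i + c ∧ ∀ j, x i ≤ x j

/-- A7. Every matrix has a good flag. -/
def tGF : Prop := ∀ (m : ℕ) A V l, Eig A V l → nrm A ≤ m → ∃ i k : Fin 3, i ≠ k ∧
  Flag (vcol V i) (vst V k) ∧ Pres A (vcol V i) (vst V k) ∧
  sn (vcol V i) ^ 2 ≤ 4 * m * sn (vst V k) ∧ sn (vst V k) ^ 2 ≤ 4 * m * sn (vcol V i) ∧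
  sn (vcol V i) ≤ 4 * m ∧ sn (vst V k) ≤ 4 * m ∧ ∀ j, sn (vcol V i) ≤ sn (vcol V j)

/-- A8. The preserved flags are the obvious ones. -/
def tFOB : Prop := ∀ A V l, Eig A V l → ∀ p q, Flag p q → Pres A p q →
  ∃ i k : Fin 3, i ≠ k ∧ (p = vcol V i ∨ p = -vcol V i) ∧ (q = vst V k ∨ q = -vst V k)

/-- A9. At most four eigenbases. -/
def tFOUR : Prop := ∀ (A : IM) (S : Finset (IM)), (∀ V ∈ S, ∃ l, Eig A V l) → S.card ≤ 4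

/-- A10. Existence of an eigenbasis. -/
def tEXI : Prop := ∀ (A : IM) (a b c : ℤ), a < b → b < c →
  (A - Matrix.scalar (Fin 3) a).det = 0 → (A - Matrix.scalar (Fin 3) b).det = 0 →
  (A - Matrix.scalar (Fin 3) c).det = 0 → ∃ V, Eig A V ![a, b, c]

/-- A11. A flag extends to a basis; preserving the flag means upper triangular. -/
def tBAS : Prop := ∀ p q, Flag p q → ∃ γ : GZ, γ.1 *ᵥ ![1, 0, 0] = p ∧ q ᵥ* γ.1 = ![0, 0, 1] ∧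
  ∀ A : IM, Pres A p q ↔ ∃ a x z e y b : ℤ, A * γ.1 = γ.1 * !![a, x, z; 0, e, y; 0, 0, b]

/-- A12. Elementary facts on `gmat`. -/
def tGM : Prop := ∀ V : IM, 0 < V.det → ∀ y : ℝ × ℝ, (gmat V y).det = 1 ∧
  (∀ γ : GZ, gmat V y * ic γ = gmat (γ⁻¹.1 * V) y) ∧
  (∀ k : ℕ, aa ^ k * gmat V y = gmat V (y + (k * Real.log 2, 0))) ∧
  (∀ i j, gmat V y i j = Real.exp (pos V y i) * (toR V)⁻¹ i j) ∧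
  (∀ r i, ((gmat V y)⁻¹) r i = V r i * Real.exp (-pos V y i)) ∧
  Real.exp (pos V y 0) * Real.exp (pos V y 1) * Real.exp (pos V y 2) = V.det

/-! ## Level 2: counting with flags -/

/-- B1. Matrices preserving a flag in a box. -/
def tB1 : Prop := ∃ C : ℝ, 0 < C ∧ ∀ p q, Flag p q → ∀ ρ : ℝ, 1 ≤ ρ → ∀ (B : M3)
  (S : Finset (IM)), (∀ A ∈ S, Pres A p q ∧ ∀ i j, |(A i j : ℝ) - B i j| ≤ ρ) →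
  (S.card : ℝ) ≤ C * ρ ^ 2 * (1 + ρ * sn p / sn q ^ 2) * (1 + ρ / sn p) ^ 3

/-- Two of the three eigenvalues are `τ`-close. -/
def Near (A : IM) (p q : Fin 3 → ℤ) (τ : ℝ) : Prop :=
  ∃ a b : ℤ, A *ᵥ p = a • p ∧ q ᵥ* A = b • q ∧
    (|((a - b : ℤ) : ℝ)| ≤ τ ∨ |((a - (A.trace - a - b) : ℤ) : ℝ)| ≤ τ ∨
      |((b - (A.trace - a - b) : ℤ) : ℝ)| ≤ τ)

/-- B2. Matrices preserving a flag with two close eigenvalues. -/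
def tB2 : Prop := ∃ C : ℝ, 0 < C ∧ ∀ p q, Flag p q → ∀ ρ τ : ℝ, 1 ≤ τ → τ ≤ ρ →
  ∀ S : Finset (IM), (∀ A ∈ S, Pres A p q ∧ (∀ i j, |(A i j : ℝ)| ≤ ρ) ∧ Near A p q τ) →
  (S.card : ℝ) ≤ C * ρ ^ 2 * (1 + ρ * sn p / sn q ^ 2) * (1 + ρ / sn p) ^ 2 *
    (τ / ρ * (1 + ρ / sn p) + (1 + τ / sn p))

/-- B3. Many matrices preserve a given flag. -/
def tB3 : Prop := ∃ c c₁ m₀ : ℝ, 0 < c ∧ 0 < c₁ ∧ ∀ m : ℕ, m₀ ≤ m → ∀ p q, Flag p q →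
  sn p ≤ c₁ * m → sn q ^ 2 ≤ c₁ * m * sn p →
  ∃ S : Finset (IM), c * (m : ℝ) ^ 6 / (sn p * sn q) ^ 2 ≤ S.card ∧
    ∀ A ∈ S, Pres A p q ∧ nrm A ≤ m ∧ ∃ V l, Eig A V l

/-- B4. Lattice points of a plane in a box. -/
def tB4 : Prop := ∃ C : ℝ, 0 < C ∧ ∀ p, prim p → ∀ (Q : Fin 3 → ℝ) (r : ℝ), sn p ≤ r →
  ∀ S : Finset (Fin 3 → ℤ), (∀ q ∈ S, p ⬝ᵥ q = 0 ∧ ∀ i, |(q i : ℝ) - Q i| ≤ r) →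
  (S.card : ℝ) ≤ C * r ^ 2 / sn p

/-- S1. Sum over a plane. -/
def tS1 : Prop := ∃ C : ℝ, 0 < C ∧ ∀ p, prim p → ∀ X : ℝ, 1 ≤ X → ∀ S : Finset (Fin 3 → ℤ),
  (∀ q ∈ S, p ⬝ᵥ q = 0 ∧ sn p ≤ sn q ∧ sn q ≤ X) →
  ∑ q ∈ S, 1 / sn q ^ 2 ≤ C * (1 + Real.log X) / sn p

/-- S2. Sums over `Z^3`. -/
def tS2 : Prop := ∃ C : ℝ, 0 < C ∧ ∀ Y : ℝ, 1 ≤ Y → ∀ S : Finset (Fin 3 → ℤ),
  (∀ v ∈ S, 1 ≤ sn v ∧ sn v ≤ Y) →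
  ∑ v ∈ S, 1 / sn v ^ 3 ≤ C * (1 + Real.log Y) ∧ ∑ v ∈ S, 1 / sn v ^ 2 ≤ C * Y

/-- S3. Sum over a plane, narrow cone. -/
def tS3 : Prop := ∃ C : ℝ, 0 < C ∧ ∀ r : ℝ, 0 < r → r < 1 / 2 → ∀ p, prim p → ∀ X : ℝ, 2 ≤ X →
  ∀ w : Fin 3 → ℝ, ‖w‖ = 1 → ∀ S : Finset (Fin 3 → ℤ),
  (∀ q ∈ S, p ⬝ᵥ q = 0 ∧ sn p ≤ r * sn q ∧ sn q ≤ X ∧
    ∀ i, |(q i : ℝ) - sn q * w i| ≤ r * sn q) →
  ∑ q ∈ S, 1 / sn q ^ 2 ≤ C * r * Real.log X / sn p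

/-- S4. Sum over `Z^3`, narrow cone. -/
def tS4 : Prop := ∃ C : ℝ, 0 < C ∧ ∀ r : ℝ, 0 < r → r < 1 / 2 → ∃ C' : ℝ, 0 < C' ∧
  ∀ X : ℝ, 2 ≤ X → ∀ u : Fin 3 → ℝ, ‖u‖ = 1 → ∀ S : Finset (Fin 3 → ℤ),
  (∀ v ∈ S, 1 ≤ sn v ∧ sn v ≤ X ∧ ∀ i, |(v i : ℝ) - sn v * u i| ≤ r * sn v) →
  ∑ v ∈ S, 1 / sn v ^ 3 ≤ C * r ^ 2 * Real.log X + C'

/-- S5. Lower bound in a plane (all nonzero vectors). -/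
def tS5 : Prop := ∃ c C : ℝ, 0 < c ∧ 0 < C ∧ ∀ p, prim p → ∀ Z : ℝ, 1 ≤ Z →
  ∃ S : Finset (Fin 3 → ℤ), (∀ q ∈ S, q ≠ 0 ∧ p ⬝ᵥ q = 0 ∧ sn q ≤ Z) ∧
    (c * Real.log Z - C * (1 + Real.log (sn p))) / sn p ≤ ∑ q ∈ S, 1 / sn q ^ 2

/-- Weight of a flag. -/
noncomputable def wt (F : (Fin 3 → ℤ) × (Fin 3 → ℤ)) : ℝ := 1 / (sn F.1 * sn F.2) ^ 2

/-- B5. Sum over flags, small `p`. -/
def tB5 : Prop := ∃ C : ℝ, 0 < C ∧ ∀ X Y : ℝ, 1 ≤ Y → Y ≤ X →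
  ∀ S : Finset ((Fin 3 → ℤ) × (Fin 3 → ℤ)),
  (∀ F ∈ S, Flag F.1 F.2 ∧ sn F.1 ≤ Y ∧ sn F.2 ≤ X) →
  ∑ F ∈ S, wt F ≤ C * (1 + Real.log Y) * (1 + Real.log X)

/-- B6. Sum over flags with one more factor `|p|`. -/
def tB6 : Prop := ∃ C : ℝ, 0 < C ∧ ∀ X : ℝ, 1 ≤ X →
  ∀ S : Finset ((Fin 3 → ℤ) × (Fin 3 → ℤ)),
  (∀ F ∈ S, Flag F.1 F.2 ∧ sn F.1 ≤ X ∧ sn F.2 ≤ X) →
  ∑ F ∈ S, sn F.1 * wt F ≤ C * X * (1 + Real.log X)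

/-- B7. Thin shells in `|p|`. -/
def tB7 : Prop := ∀ K : ℝ, 1 ≤ K → ∃ C : ℝ, 0 < C ∧ ∀ X a : ℝ, 1 ≤ X → 0 < a →
  ∀ S : Finset ((Fin 3 → ℤ) × (Fin 3 → ℤ)),
  (∀ F ∈ S, Flag F.1 F.2 ∧ sn F.1 ≤ X ∧ sn F.2 ≤ X ∧ a ≤ sn F.1 ∧ sn F.1 ≤ K * a) →
  ∑ F ∈ S, wt F ≤ C * (1 + Real.log X)

/-- B8. Thin shells in `|q|^2/|p|`. -/
def tB8 : Prop := ∀ K : ℝ, 1 ≤ K → ∃ C : ℝ, 0 < C ∧ ∀ X a : ℝ, 1 ≤ X → 0 < a →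
  ∀ S : Finset ((Fin 3 → ℤ) × (Fin 3 → ℤ)),
  (∀ F ∈ S, Flag F.1 F.2 ∧ sn F.1 ≤ X ∧ sn F.2 ≤ X ∧ a * sn F.1 ≤ sn F.2 ^ 2 ∧
    sn F.2 ^ 2 ≤ K * a * sn F.1) →
  ∑ F ∈ S, wt F ≤ C * (1 + Real.log X)

/-- B9. Flags in narrow cones. -/
def tB9 : Prop := ∃ C : ℝ, 0 < C ∧ ∀ r : ℝ, 0 < r → r < 1 / 2 → ∃ C' : ℝ, 0 < C' ∧
  ∀ (X : ℝ) (u w : Fin 3 → ℝ), 2 ≤ X → ‖u‖ = 1 → ‖w‖ = 1 →
  ∀ S : Finset ((Fin 3 → ℤ) × (Fin 3 → ℤ)),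
  (∀ F ∈ S, Flag F.1 F.2 ∧ sn F.1 ≤ X ∧ sn F.2 ≤ X ∧
    (∀ i, |(F.1 i : ℝ) - sn F.1 * u i| ≤ r * sn F.1) ∧
    (∀ i, |(F.2 i : ℝ) - sn F.2 * w i| ≤ r * sn F.2)) →
  ∑ F ∈ S, wt F ≤ C * r ^ 3 * Real.log X ^ 2 + C' * Real.log X

/-- B10. Lower bound for the sum over flags. -/
def tB10 : Prop := ∃ c X₀ : ℝ, 0 < c ∧ ∀ X : ℝ, X₀ ≤ X →
  ∃ S : Finset ((Fin 3 → ℤ) × (Fin 3 → ℤ)),
    (∀ F ∈ S, Flag F.1 F.2 ∧ sn F.1 ≤ X ∧ sn F.2 ^ 2 ≤ X ^ 3) ∧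
    c * Real.log X ^ 2 ≤ ∑ F ∈ S, wt F

/-! ## Level 3: counting pairs -/

/-- C1. Upper bound for all pairs. -/
def tC1 : Prop := ∃ C : ℝ, 0 < C ∧ ∀ m : ℕ, 2 ≤ m →
  ((PPf m).card : ℝ) ≤ C * (m : ℝ) ^ 6 * Real.log m ^ 2

open Classical in
/-- C2. Small eigenvectors or dual eigenvectors are rare. -/
def tC2 : Prop := ∃ C : ℝ, 0 < C ∧ ∀ (m : ℕ) (Y : ℝ), 2 ≤ m → 1 ≤ Y →
  (((PPf m).filter fun P => ∃ i, sn (vcol P.2 i) ≤ Y ∨ sn (vst P.2 i) ≤ Y).card : ℝ) ≤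
    C * (m : ℝ) ^ 6 * (1 + Real.log Y) * Real.log m

open Classical in
/-- C3. Close eigenvalues are rare. -/
def tC3 : Prop := ∃ C : ℝ, 0 < C ∧ ∀ (m : ℕ) (e : ℝ), 2 ≤ m → 0 < e → e ≤ 1 →
  (((PPf m).filter fun P => ¬ Gap e m P).card : ℝ) ≤
    C * (m : ℝ) ^ 6 * (e * Real.log m ^ 2 + Real.log m)

/-- C4. Lower bound for all pairs. -/
def tC4 : Prop := ∃ c m₀ : ℝ, 0 < c ∧ ∀ m : ℕ, m₀ ≤ m →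
  c * (m : ℝ) ^ 6 * Real.log m ^ 2 ≤ (PPf m).card

/-- C5. Local upper bound (domination on small cells). -/
def tC5 : Prop := ∀ R : ℝ, 1 ≤ R → ∃ C r₀ : ℝ, 0 < C ∧ 0 < r₀ ∧ ∀ r : ℝ, 0 < r → r < r₀ →
  ∃ C' : ℝ, 0 < C' ∧ ∀ m : ℕ, 2 ≤ m → ∀ g : M3, g.det = 1 → (∀ i j, |g i j| ≤ R) →
  ∀ L : Fin 3 → ℝ, (∀ i, |L i| ≤ 1) → ∀ S : Finset (IM × IM),
  (∀ P ∈ S, (∃ l, Eig P.1 P.2 l ∧ ∀ i, |(l i : ℝ) - m * L i| ≤ r * m) ∧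
    ∃ y, ∀ i j, |gmat P.2 y i j - g i j| ≤ r) →
  (S.card : ℝ) ≤ C * r ^ 9 * (m : ℝ) ^ 6 * Real.log m ^ 2 + C' * (m : ℝ) ^ 6 * Real.log m

/-- Angles are bounded below. -/
def Ang (K : ℝ) (V : IM) : Prop := ∀ i j, |(toR V)⁻¹ i j| * sn (vcol V i) ≤ K

/-- C6. Gap implies angle. -/
def tC6 : Prop := ∀ e : ℝ, 0 < e → ∃ K : ℝ, 0 < K ∧ ∀ (m : ℕ) (P : IM × IM),
  1 ≤ m → nrm P.1 ≤ m → Gap e m P → Ang K P.2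

/-- C7. The number of conjugates in the ball. -/
def tC7 : Prop := ∀ K : ℝ, 1 ≤ K → ∃ C : ℝ, 0 < C ∧ ∀ m : ℕ, 2 ≤ m → ∀ V : IM, 0 < V.det →
  Ang K V → ∀ S : Finset GZ, (∀ γ ∈ S, Ang K (γ.1 * V) ∧
    ∀ i, sn (vcol (γ.1 * V) i) ≤ 4 * (m : ℝ) ^ 2) →
  (S.card : ℝ) ≤ C * Real.log m ^ 2

/-- C7'. Conjugate pairs with the same eigenvalues differ by signs. -/
def tC7' : Prop := ∀ A V A' V' l, Eig A V l → Eig A' V' l → ∀ γ : GZ, A' * γ.1 = γ.1 * A →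
  ∃ s : Fin 3 → ℤ, (∀ i, s i = 1 ∨ s i = -1) ∧ V' = γ.1 * V * Matrix.diagonal s

/-- C8. Area of the hexagon, upper bound. -/
def tC8 : Prop := ∃ C : ℝ, 0 < C ∧ ∀ m : ℕ, 2 ≤ m → ∀ P ∈ PPf m,
  volume (Hex P.2) ≤ ENNReal.ofReal (C * Real.log m ^ 2)

/-- C9. Boundary of the hexagon. -/
def tC9 : Prop := ∃ C : ℝ, 0 < C ∧ ∀ m : ℕ, 2 ≤ m → ∀ P ∈ PPf m, ∀ s : ℝ × ℝ,
  volume {y | y ∈ Hex P.2 ∧ y + s ∉ Hex P.2} ≤ ENNReal.ofReal (C * ‖s‖ * Real.log m)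

/-- C10. Area of the hexagon, lower bound. -/
def tC10 : Prop := ∀ K : ℝ, 0 < K → ∃ C : ℝ, 0 < C ∧ ∀ (V : IM) (s : ℝ), 0 < V.det →
  (∀ i, prim (vcol V i)) → Ang K V → C ≤ s →
  (∀ i, s ≤ Real.log (sn (vcol V i)) ∧ s ≤ Real.log (sn (vst V i))) →
  ENNReal.ofReal ((s - C) ^ 2) ≤ volume (Hex V)

/-- C11 (LB). Total area. -/
def tLB : Prop := ∃ c m₀ : ℝ, 0 < c ∧ ∀ m : ℕ, m₀ ≤ m →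
  ENNReal.ofReal (c * (m : ℝ) ^ 6 * Real.log m ^ 4) ≤ ∑ P ∈ PPf m, volume (Hex P.2)

/-! ## Level 4: tightness -/

/-- Upper triangular matrix. -/
def Tri (l : Fin 3 → ℤ) (a b c : ℤ) : IM := !![l 0, a, b; 0, l 1, c; 0, 0, l 2]

/-- Reduced upper triangular data. -/
def Red (l : Fin 3 → ℤ) (a b c : ℤ) : Prop :=
  0 ≤ a ∧ a < |l 0 - l 1| ∧ 0 ≤ c ∧ c < |l 1 - l 2| ∧ 0 ≤ b ∧ b < |l 0 - l 2|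

/-- N1. Normal form for every ordering of the eigenvalues. -/
def tN1 : Prop := ∀ A V l, Eig A V l → ∀ w : Equiv.Perm (Fin 3),
  ∃ (γ : GZ) (a b c : ℤ), A * γ.1 = γ.1 * Tri (l ∘ w) a b c ∧ Red (l ∘ w) a b c ∧
    (vcol V (w 0) = γ.1 *ᵥ ![1, 0, 0] ∨ vcol V (w 0) = -(γ.1 *ᵥ ![1, 0, 0])) ∧
    (vst V (w 2) ᵥ* γ.1 = ![0, 0, 1] ∨ vst V (w 2) ᵥ* γ.1 = -![0, 0, 1])

/-- Short covectors of the normal form at scales `R₁, R₃`. -/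
def Short (l : Fin 3 → ℤ) (a b c : ℤ) (n : Fin 3 → ℤ) (R₁ R₃ η : ℝ) : Prop :=
  |(n 0 : ℝ)| ≤ η * R₁ ∧
  |((n 1 * (l 0 - l 1) - n 0 * a : ℤ) : ℝ)| ≤ η * |((l 0 - l 1 : ℤ) : ℝ)| * R₃ / R₁ ∧
  |(n 0 : ℝ) * ((b + a * (c / ((l 2 - l 1 : ℤ) : ℝ))) / ((l 2 - l 0 : ℤ) : ℝ)) +
    n 1 * (c / ((l 2 - l 1 : ℤ) : ℝ)) + n 2| ≤ η / R₃

/-- N2. A thin position gives a short covector of the normal form. -/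
def tN2 : Prop := ∀ A V l, Eig A V l → ∀ (w : Equiv.Perm (Fin 3)) (γ : GZ) (a b c : ℤ),
  A * γ.1 = γ.1 * Tri (l ∘ w) a b c →
  (vcol V (w 0) = γ.1 *ᵥ ![1, 0, 0] ∨ vcol V (w 0) = -(γ.1 *ᵥ ![1, 0, 0])) →
  (vst V (w 2) ᵥ* γ.1 = ![0, 0, 1] ∨ vst V (w 2) ᵥ* γ.1 = -![0, 0, 1]) →
  ∀ (y : ℝ × ℝ) (η : ℝ), 0 < η → ¬ Thick (η ^ 3) (gmat V y) →
  ∃ n, n ≠ 0 ∧ Short (l ∘ w) a b c n (Real.exp (pos V y (w 0))) (Real.exp (dpos V y (w 2))) η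

/-- N3. The gcd sum. -/
def tN3 : Prop := ∃ C : ℝ, 0 < C ∧ ∀ (m : ℕ) (η R₁ R₃ : ℝ), 2 ≤ m → 0 < η → η < 1 → 1 ≤ R₁ →
  1 ≤ R₃ → R₁ ≤ 4 * m → R₃ ≤ 4 * m →
  ∀ S : Finset ((Fin 3 → ℤ) × ℤ × ℤ × ℤ),
  (∀ T ∈ S, (∀ i, |T.1 i| ≤ m) ∧ T.1 0 ≠ T.1 1 ∧ T.1 1 ≠ T.1 2 ∧ T.1 0 ≠ T.1 2 ∧
    Red T.1 T.2.1 T.2.2.1 T.2.2.2 ∧
    ∃ n, n ≠ 0 ∧ Short T.1 T.2.1 T.2.2.1 T.2.2.2 n R₁ R₃ η) →
  (S.card : ℝ) ≤ C * (m : ℝ) ^ 6 *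
    (η ^ 2 + Real.log m / m * (R₁ + R₃ + R₁ ^ 2 / m))

/-- N4. Good ordering at every position of the hexagon. -/
def tN4 : Prop := ∀ (m : ℕ) A V l, Eig A V l → nrm A ≤ m → ∀ y ∈ Hex V,
  ∃ w : Equiv.Perm (Fin 3),
    2 * pos V y (w 0) ≤ dpos V y (w 2) + Real.log (2 * m) ∧
    2 * dpos V y (w 2) ≤ pos V y (w 0) + Real.log (2 * m)

open Classical in
/-- N5 (TIGHT). -/
def tTIGHT : Prop := ∀ e ε : ℝ, 0 < e → 0 < ε → ∃ δ m₀ : ℝ, 0 < δ ∧ ∀ m : ℕ, m₀ ≤ m →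
  ∑ P ∈ (PPf m).filter (Gap e m), volume {y | y ∈ Hex P.2 ∧ ¬ Thick δ (gmat P.2 y)} ≤
    ENNReal.ofReal (ε * (m : ℝ) ^ 6 * Real.log m ^ 4)

/-! ## Level 5: domination and equidistribution -/

/-- E1. Small neighbourhoods of the identity have volume at least `c r^8`. -/
def tE1 : Prop := ∃ c : ℝ, 0 < c ∧ ∀ r : ℝ, 0 < r → r ≤ 1 →
  ENNReal.ofReal (c * r ^ 8) ≤
    volume {M : M3 | M ∈ Co ∧ ‖M - (M.det ^ (1 / 3 : ℝ)) • (1 : M3)‖ ≤ r * M.det ^ (1 / 3 : ℝ)}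

/-- E2. The set of positions close to a given matrix is small. -/
def tE2 : Prop := ∀ R : ℝ, 1 ≤ R → ∃ C r₀ : ℝ, 0 < C ∧ 0 < r₀ ∧ ∀ r : ℝ, 0 < r → r < r₀ →
  ∀ (V : IM) (g : M3), 0 < V.det → g.det = 1 → ‖g‖ ≤ R →
  volume {y | ‖gmat V y - g‖ ≤ r} ≤ ENNReal.ofReal (C * r ^ 2)

/-- E3. Bounded `gmat` gives angles. -/
def tE3 : Prop := ∀ (V : IM) (y : ℝ × ℝ) (ρ : ℝ), 0 < V.det → (∀ i j, |gmat V y i j| ≤ ρ) →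
  Ang (2 * ρ ^ 3) V

open Classical in
/-- D1a. Unfolding over SL3(Z) with the bound for the number of conjugates. -/
def tDA : Prop := ∀ e R : ℝ, 0 < e → ∃ C : ℝ, 0 < C ∧ ∀ ψ : M3 → ℝ, CSF R ψ →
  (∀ M, 0 ≤ ψ M) → ∀ m : ℕ, 2 ≤ m →
  ∑ P ∈ (PPf m).filter (Gap e m), ∫⁻ y in Hex P.2, ENNReal.ofReal (PS ψ (gmat P.2 y)) ≤
    ENNReal.ofReal (C * Real.log m ^ 2) *
      ∑' P : {P : IM × IM // ∃ l, Eig P.1 P.2 l ∧ ∀ i, |l i| ≤ m},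
        ∫⁻ y : ℝ × ℝ, ENNReal.ofReal (ψ (gmat P.1.2 y))

/-- D1b. The sum over all pairs. -/
def tDB : Prop := ∀ R : ℝ, ∃ C : ℝ, 0 < C ∧ ∀ ψ : M3 → ℝ, CSF R ψ → (∀ M, 0 ≤ ψ M) →
  ∀ ε : ℝ, 0 < ε → ∃ C' : ℝ, 0 < C' ∧ ∀ m : ℕ, 2 ≤ m →
  ∑' P : {P : IM × IM // ∃ l, Eig P.1 P.2 l ∧ ∀ i, |l i| ≤ m},
      ∫⁻ y : ℝ × ℝ, ENNReal.ofReal (ψ (gmat P.1.2 y)) ≤
    ENNReal.ofReal ((C * (∫ M in Co, ψ M) + ε) * (m : ℝ) ^ 6 * Real.log m ^ 2 +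
      C' * (m : ℝ) ^ 6 * Real.log m)

open Classical in
/-- D1 (DOM). -/
def tDOM : Prop := ∀ e R : ℝ, 0 < e → ∃ C : ℝ, 0 < C ∧ ∀ ψ : M3 → ℝ, CSF R ψ →
  (∀ M, 0 ≤ ψ M) → ∀ ε : ℝ, 0 < ε → ∃ m₀ : ℝ, ∀ m : ℕ, m₀ ≤ m →
  ∑ P ∈ (PPf m).filter (Gap e m), ∫⁻ y in Hex P.2, ENNReal.ofReal (PS ψ (gmat P.2 y)) ≤
    ENNReal.ofReal ((C * (∫ M in Co, ψ M) + ε) * (m : ℝ) ^ 6 * Real.log m ^ 4)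

/-- D2 (EQ). Equidistribution. -/
def tEQ : Prop := ∀ s : Set M3, FD s → ∀ (R : ℝ) (ψ : M3 → ℝ), CSF R ψ →
  Tendsto (fun m : ℕ => (∑ P ∈ PPf m, ∫ y in Hex P.2,
      (PS ψ (gmat P.2 y) - (∫ M in Co, ψ M) / (volume s).toReal)) /
    ((m : ℝ) ^ 6 * Real.log m ^ 4)) atTop (nhds 0)

end SAIL.A
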